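import Pool.Agent.W_1b8d5d_fe.Blk1

/-!
MP_1b8d5d_pr (FE): the barrier and the confinement.
-/

set_option autoImplicit false

namespace Pool.Agent.W_1b8d5d_fe

open Finset Pool.Agent.W_1b8d5d_h85

/-- Confinement: a detour of height `> 8 r` costs `s ^ (4/5)`. -/
def Conf (g : V → ℝ) (c : Crd) (r ℓ A s : ℝ) : Prop :=
  ∀ u v : V, |c.q (u + v)| ≤ 3 * r → ℓ - 4 * c.C ≤ lv c (u + v) → lv c (u + v) ≤ ℓ + 2 * r → 8 * r < |c.q u| →
    nm u ≤ A * s → lv c (u + v) + s ^ (4 / 5 : ℝ) ≤ g u + g v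

/-- The barrier in terms of `q` and the level: `t`, `θ`. -/
def Bar (g : V → ℝ) (c : Crd) (t θ : ℝ) : Prop :=
  ∀ z, 0 ≤ lv c z → t * lv c z ≤ -c.q z → lv c z + θ * (-c.q z) ≤ g z

private theorem Bar_rpow {κ s : ℝ} (hκ : 0 < κ) (hs : 1 ≤ s) (h : (1 / κ) ^ 5 ≤ s) : s ^ (4 / 5 : ℝ) ≤ κ * s := by
  have hs0 : 0 < s := lt_of_lt_of_le one_pos hs
  have h1 : 1 / κ ≤ s ^ (1 / 5 : ℝ) := by
    have h2 : ((1 / κ) ^ 5) ^ (1 / 5 : ℝ) ≤ s ^ (1 / 5 : ℝ) :=
      Real.rpow_le_rpow (by positivity) h (by norm_num)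
    have h3 : ((1 / κ) ^ 5) ^ (1 / 5 : ℝ) = 1 / κ := by
      rw [← Real.rpow_natCast, ← Real.rpow_mul (by positivity)]
      norm_num
    rwa [h3] at h2
  have h4 : s = s ^ (1 / 5 : ℝ) * s ^ (4 / 5 : ℝ) := by
    rw [← Real.rpow_add hs0]
    norm_num
  have h5 : 0 ≤ s ^ (4 / 5 : ℝ) := Real.rpow_nonneg hs0.le _
  have h6 : 1 ≤ κ * s ^ (1 / 5 : ℝ) := by
    rw [div_le_iff₀ hκ] at h1
    linarith
  calc s ^ (4 / 5 : ℝ) = 1 * s ^ (4 / 5 : ℝ) := (one_mul _).symm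
    _ ≤ (κ * s ^ (1 / 5 : ℝ)) * s ^ (4 / 5 : ℝ) := mul_le_mul_of_nonneg_right h6 h5
    _ = κ * (s ^ (1 / 5 : ℝ) * s ^ (4 / 5 : ℝ)) := by ring
    _ = κ * s := by rw [← h4]

private theorem Bar_conf {g : V → ℝ} {c : Crd} {A s r ℓ : ℝ} (hC : 0 < c.C) (hA : 1 ≤ A) (hs : 1 ≤ s) (hr0 : 0 ≤ r)
    (hrs : r ≤ s) (hℓ : 0 ≤ ℓ) (hℓs : ℓ ≤ s) {u v : V} (h1 : |c.q (u + v)| ≤ 3 * r) (h2 : ℓ - 4 * c.C ≤ lv c (u + v))
    (h3 : lv c (u + v) ≤ ℓ + 2 * r) (h4 : 8 * r < |c.q u|) (h5 : nm u ≤ A * s) (hl : ∀ z, lv c z ≤ g z)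
    (key : ∀ z : V, 5 * r ≤ -c.q z → nm z ≤ (2 * c.C * (6 + 4 * c.C) + A) * s → lv c z + s ^ (4 / 5 : ℝ) ≤ g z) :
    lv c (u + v) + s ^ (4 / 5 : ℝ) ≤ g u + g v := by
  have hlv : lv c (u + v) = lv c u + lv c v := lv_add c u v
  rcases le_or_gt 0 (c.q u) with hq | hq
  · rw [abs_of_nonneg hq] at h4
    have hqv : c.q (u + v) = c.q u + c.q v := map_add _ _ _
    have e1 := abs_le.1 h1
    have e2 : 5 * r ≤ -c.q v := by linarith [e1.2]
    have e3 : nm (u + v) ≤ 2 * c.C * (|lv c (u + v)| + |c.q (u + v)|) := nm_le_lq c (u + v)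
    have e4 : |lv c (u + v)| ≤ 3 * s + 4 * c.C := by
      rw [abs_le]
      constructor <;> linarith
    have e5 : nm (u + v) ≤ 2 * c.C * (6 + 4 * c.C) * s := by
      refine e3.trans ?_
      have f1 : 4 * c.C ≤ 4 * c.C * s := by nlinarith
      have f2 : |lv c (u + v)| + |c.q (u + v)| ≤ (6 + 4 * c.C) * s := by nlinarith
      calc 2 * c.C * (|lv c (u + v)| + |c.q (u + v)|) ≤ 2 * c.C * ((6 + 4 * c.C) * s) :=
            mul_le_mul_of_nonneg_left f2 (by positivity)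
        _ = _ := by ring
    have e6 : nm v ≤ nm (u + v) + nm u := by
      have := nm_add_le (u + v) (-u)
      rw [nm_neg, add_neg_cancel_comm] at this
      exact this
    have e7 := key v e2 (by linarith)
    have e8 := hl u
    linarith
  · rw [abs_of_neg hq] at h4
    have f0 : 0 ≤ 2 * c.C * (6 + 4 * c.C) * s := by positivity
    have e7 := key u (by linarith) (by linarith)
    have e8 := hl v
    linarith

/-- PROOF. If `0 ≤ lv z`, `t lv z ≤ - q z` then `nm z ≤ 2 C (1 / t + 1) |q z|` (`nm_le_lq`), so `FlatS.bar` with `ε = 1 / (2 C (1 / t + 1))` gives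
`g z ≥ lv z + c₀ nm z ≥ lv z + (c₀ / C) |q z|`. -/
theorem bar_flat {g : V → ℝ} {c : Crd} (hf : FlatS g c) {t : ℝ} (ht : 0 < t) : ∃ θ : ℝ, 0 < θ ∧ θ ≤ 1 ∧ Bar g c t θ := by
  have hC : 0 < c.C := lt_of_lt_of_le one_pos c.one_le
  have hD : 0 < 2 * c.C * (1 / t + 1) := by positivity
  obtain ⟨c₀, hc₀, hb⟩ := hf.bar (1 / (2 * c.C * (1 / t + 1))) (by positivity)
  refine ⟨min (c₀ / c.C) 1, lt_min (by positivity) one_pos, min_le_right _ _, ?_⟩
  intro z hz0 hz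
  have hq0 : 0 ≤ -c.q z := le_trans (mul_nonneg ht.le hz0) hz
  have hqa : |c.q z| = -c.q z := by
    rw [abs_of_nonpos (by linarith)]
  have h1 : nm z ≤ 2 * c.C * (|lv c z| + |c.q z|) := nm_le_lq c z
  rw [abs_of_nonneg hz0, hqa] at h1
  have h2 : lv c z ≤ (1 / t) * (-c.q z) := by
    rw [one_div, ← div_eq_inv_mul, le_div_iff₀ ht]
    linarith
  have h3 : nm z ≤ 2 * c.C * (1 / t + 1) * (-c.q z) := by
    refine h1.trans ?_
    have : lv c z + -c.q z ≤ (1 / t + 1) * (-c.q z) := by linarith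
    calc 2 * c.C * (lv c z + -c.q z) ≤ 2 * c.C * ((1 / t + 1) * (-c.q z)) :=
          mul_le_mul_of_nonneg_left this (by positivity)
      _ = _ := by ring
  have h4 : 1 / (2 * c.C * (1 / t + 1)) * nm z ≤ max (-c.p z) (-c.q z) := by
    refine le_trans ?_ (le_max_right _ _)
    rw [one_div, ← div_eq_inv_mul, div_le_iff₀ hD]
    linarith
  have h5 := hb z h4
  have h6 : -c.q z ≤ c.C * nm z := by
    rw [← hqa]
    exact c.q_le z
  have h7 : min (c₀ / c.C) 1 * (-c.q z) ≤ c₀ * nm z := by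
    calc min (c₀ / c.C) 1 * (-c.q z) ≤ (c₀ / c.C) * (-c.q z) :=
          mul_le_mul_of_nonneg_right (min_le_left _ _) hq0
      _ ≤ (c₀ / c.C) * (c.C * nm z) := mul_le_mul_of_nonneg_left h6 (by positivity)
      _ = c₀ * nm z := by field_simp
  linarith

/-- Confinement at the scale `r ≥ η s`.  PROOF. If `q u < - 8 r`: `- q u ≥ ε nm u` with `ε = 8 η / A`, so `g u ≥ lv u + c₀ nm u ≥ lv u + c₀ 8 η s / C` and `g v ≥ lv v`.  If
`q u > 8 r`: `q v < - 5 r`, `nm v ≤ nm (u + v) + nm u ≤ C s`, the same for `v`. -/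
theorem conf_flat {g : V → ℝ} {c : Crd} (hf : FlatS g c) {η A : ℝ} (hη : 0 < η) (hA : 1 ≤ A) :
    ∃ s₀ : ℝ, 1 ≤ s₀ ∧ ∀ s r ℓ : ℝ, s₀ ≤ s → η * s ≤ r → r ≤ s → 0 ≤ ℓ → ℓ ≤ s → Conf g c r ℓ A s := by
  have hC : 0 < c.C := lt_of_lt_of_le one_pos c.one_le
  have hB : 0 < 2 * c.C * (6 + 4 * c.C) + A := by positivity
  obtain ⟨c₀, hc₀, hb⟩ := hf.bar (5 * η / (2 * c.C * (6 + 4 * c.C) + A)) (by positivity)
  refine ⟨max 1 ((1 / (c₀ * (5 * η) / c.C)) ^ 5), le_max_left _ _, ?_⟩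
  intro s r ℓ hs hr hrs hℓ hℓs u v h1 h2 h3 h4 h5
  have hs1 : 1 ≤ s := (le_max_left _ _).trans hs
  have hs5 : s ^ (4 / 5 : ℝ) ≤ c₀ * (5 * η) / c.C * s :=
    Bar_rpow (by positivity) hs1 ((le_max_right _ _).trans hs)
  have hr0 : 0 ≤ r := le_trans (by positivity) hr
  have key : ∀ z : V, 5 * r ≤ -c.q z → nm z ≤ (2 * c.C * (6 + 4 * c.C) + A) * s →
      lv c z + s ^ (4 / 5 : ℝ) ≤ g z := by
    intro z hz hnz
    have e1 : 5 * η / (2 * c.C * (6 + 4 * c.C) + A) * nm z ≤ max (-c.p z) (-c.q z) := by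
      refine le_trans ?_ (le_max_right _ _)
      calc 5 * η / (2 * c.C * (6 + 4 * c.C) + A) * nm z
          ≤ 5 * η / (2 * c.C * (6 + 4 * c.C) + A) * ((2 * c.C * (6 + 4 * c.C) + A) * s) :=
            mul_le_mul_of_nonneg_left hnz (by positivity)
        _ = 5 * (η * s) := by field_simp
        _ ≤ 5 * r := by linarith
        _ ≤ -c.q z := hz
    have e2 := hb z e1
    have e3 : 5 * (η * s) ≤ c.C * nm z := by
      have := c.q_le z
      have := neg_le_abs (c.q z)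
      linarith
    have e4 : c₀ * (5 * η) / c.C * s ≤ c₀ * nm z := by
      calc c₀ * (5 * η) / c.C * s = c₀ / c.C * (5 * (η * s)) := by ring
        _ ≤ c₀ / c.C * (c.C * nm z) := mul_le_mul_of_nonneg_left e3 (by positivity)
        _ = c₀ * nm z := by field_simp
    linarith
  exact Bar_conf hC hA hs1 hr0 hrs hℓ hℓs h1 h2 h3 h4 h5 (fun z => hf.low z) key

/-- Confinement from the polynomial contact.  `s = t ^ (- 10 (K + 1))`, `r = √t s`.  PROOF. For `q u < - 8 r`: if `lv u < 0` then `g u ≥ a nm u ≥ (a / C) 8 r ≥ lv u + (a / C) 8 r`;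
otherwise `t lv u ≤ t 2 C nm u ≤ 2 C A t s ≤ 8 √t s ≤ - q u` for `t` small, so `g u ≥ lv u + 8 t ^ K r`, and `t ^ K √t s ≥ s ^ (4/5)` as `s ^ (1/5) = t ^ (- 2 (K + 1))`.  For `q u > 8 r`: the same for `v`. -/
theorem conf_pc {Q : Par} {g : V → ℝ} (hg : IsMean Q g) {c : Crd} (hl : ∀ z, lv c z ≤ g z) (K : ℕ) {A : ℝ} (hA : 1 ≤ A) :
    ∃ t₀ : ℝ, 0 < t₀ ∧ t₀ ≤ 1 ∧ ∀ t s : ℝ, 0 < t → t ≤ t₀ → Bar g c t (t ^ K) → s = (1 / t) ^ (10 * (K + 1)) →
      Conf g c (Real.sqrt t * s) s A s := by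
  have hC : 0 < c.C := lt_of_lt_of_le one_pos c.one_le
  have ha : 0 < Q.a := Q.ha
  set B : ℝ := 2 * c.C * (6 + 4 * c.C) + A with hBdef
  have hB : 0 < B := by positivity
  refine ⟨min 1 (min (5 * Q.a / c.C) ((5 / (2 * c.C * B)) ^ 2)), by positivity, min_le_left _ _, ?_⟩
  intro t s ht htt hbar hs u v h1 h2 h3 h4 h5
  have ht1 : t ≤ 1 := htt.trans (min_le_left _ _)
  have ht2 : t ≤ 5 * Q.a / c.C := htt.trans ((min_le_right _ _).trans (min_le_left _ _))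
  have ht3 : t ≤ (5 / (2 * c.C * B)) ^ 2 := htt.trans ((min_le_right _ _).trans (min_le_right _ _))
  have hT : 1 ≤ 1 / t := by
    rw [le_div_iff₀ ht]
    linarith
  have hT0 : 0 < 1 / t := by positivity
  have hs1 : 1 ≤ s := by
    rw [hs]
    exact one_le_pow₀ hT
  have hs0 : 0 < s := lt_of_lt_of_le one_pos hs1
  have hsq : Real.sqrt t ≤ 5 / (2 * c.C * B) := by
    rw [← Real.sqrt_sq (show (0 : ℝ) ≤ 5 / (2 * c.C * B) by positivity)]
    exact Real.sqrt_le_sqrt ht3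
  have hsq0 : 0 ≤ Real.sqrt t := Real.sqrt_nonneg t
  have hsq1 : Real.sqrt t ≤ 1 := by
    rw [← Real.sqrt_one]
    exact Real.sqrt_le_sqrt ht1
  have hss : Real.sqrt t * Real.sqrt t = t := Real.mul_self_sqrt ht.le
  have htsq : t ≤ Real.sqrt t := by
    nlinarith
  -- the power of `s`
  have hpow : s ^ (4 / 5 : ℝ) = (1 / t) ^ (8 * (K + 1)) := by
    rw [hs, ← Real.rpow_natCast, ← Real.rpow_mul hT0.le, ← Real.rpow_natCast]
    congr 1
    push_cast
    ring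
  have htT : t * (1 / t) = 1 := by field_simp
  have hp1 : s ^ (4 / 5 : ℝ) ≤ t ^ K * (t * s) := by
    have e1 : t ^ K * (t * s) = (1 / t) ^ (9 * (K + 1)) := by
      rw [hs, show 10 * (K + 1) = 9 * (K + 1) + (K + 1) by ring, pow_add]
      calc t ^ K * (t * ((1 / t) ^ (9 * (K + 1)) * (1 / t) ^ (K + 1)))
          = (t * (1 / t)) ^ (K + 1) * (1 / t) ^ (9 * (K + 1)) := by
            rw [mul_pow, pow_succ t K]
            ring
        _ = (1 / t) ^ (9 * (K + 1)) := by rw [htT, one_pow, one_mul]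
    rw [hpow, e1]
    exact pow_le_pow_right₀ hT (by omega)
  have hp2 : s ^ (4 / 5 : ℝ) ≤ 5 * Q.a / c.C * (t * s) := by
    have e1 : (1 / t) * (1 / t) ^ (8 * (K + 1)) ≤ t * s := by
      have e2 : t * s = (1 / t) ^ (10 * K + 9) := by
        rw [hs, show 10 * (K + 1) = (10 * K + 9) + 1 by ring, pow_succ]
        calc t * ((1 / t) ^ (10 * K + 9) * (1 / t)) = (t * (1 / t)) * (1 / t) ^ (10 * K + 9) := by ring
          _ = (1 / t) ^ (10 * K + 9) := by rw [htT, one_mul]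
      rw [e2, mul_comm, ← pow_succ]
      exact pow_le_pow_right₀ hT (by omega)
    have e3 : 1 ≤ 5 * Q.a / c.C * (1 / t) := by
      rw [mul_one_div, le_div_iff₀ ht]
      linarith
    have e4 : 0 ≤ (1 / t) ^ (8 * (K + 1)) := by positivity
    rw [hpow]
    calc (1 / t) ^ (8 * (K + 1)) = 1 * (1 / t) ^ (8 * (K + 1)) := (one_mul _).symm
      _ ≤ (5 * Q.a / c.C * (1 / t)) * (1 / t) ^ (8 * (K + 1)) := mul_le_mul_of_nonneg_right e3 e4
      _ = 5 * Q.a / c.C * ((1 / t) * (1 / t) ^ (8 * (K + 1))) := by ring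
      _ ≤ 5 * Q.a / c.C * (t * s) := mul_le_mul_of_nonneg_left e1 (by positivity)
  have hr0 : 0 ≤ Real.sqrt t * s := by positivity
  have hrs : Real.sqrt t * s ≤ s := by nlinarith
  have htr : t * s ≤ Real.sqrt t * s := mul_le_mul_of_nonneg_right htsq hs0.le
  have key : ∀ z : V, 5 * (Real.sqrt t * s) ≤ -c.q z → nm z ≤ B * s →
      lv c z + s ^ (4 / 5 : ℝ) ≤ g z := by
    intro z hz hnz
    rcases lt_or_ge (lv c z) 0 with hneg | hpos
    · have e1 := hg.low z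
      have e3 : 5 * (t * s) ≤ c.C * nm z := by
        have := c.q_le z
        have := neg_le_abs (c.q z)
        linarith
      have e4 : 5 * Q.a / c.C * (t * s) ≤ Q.a * nm z := by
        calc 5 * Q.a / c.C * (t * s) = Q.a / c.C * (5 * (t * s)) := by ring
          _ ≤ Q.a / c.C * (c.C * nm z) := mul_le_mul_of_nonneg_left e3 (by positivity)
          _ = Q.a * nm z := by field_simp
      linarith
    · have e1 : t * lv c z ≤ -c.q z := by
        refine le_trans ?_ hz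
        have f1 : lv c z ≤ 2 * c.C * nm z := (le_abs_self _).trans (lv_le_nm c z)
        have f2 : 2 * c.C * B * Real.sqrt t ≤ 5 := by
          rw [le_div_iff₀ (by positivity)] at hsq
          linarith
        calc t * lv c z ≤ t * (2 * c.C * (B * s)) := by
              refine mul_le_mul_of_nonneg_left (f1.trans ?_) ht.le
              exact mul_le_mul_of_nonneg_left hnz (by positivity)
          _ = (2 * c.C * B * Real.sqrt t) * (Real.sqrt t * s) := by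
              rw [← hss]
              rw [Real.sqrt_mul_self hsq0]
              ring
          _ ≤ 5 * (Real.sqrt t * s) := mul_le_mul_of_nonneg_right f2 hr0
      have e2 := hbar z hpos e1
      have e3 : t ^ K * (t * s) ≤ t ^ K * (-c.q z) := by
        refine mul_le_mul_of_nonneg_left ?_ (by positivity)
        have : 0 ≤ t * s := by positivity
        linarith
      linarith
  exact Bar_conf hC hA hs1 hr0 hrs hs0.le le_rfl h1 h2 h3 h4 h5 hl key

end Pool.Agent.W_1b8d5d_fe
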