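import Pool.Agent.W_1b8d5d_fe.Geo

/-!
MP_1b8d5d_pr (FE): the first success in a list of candidates, the flat principle for the wide cone.
-/

set_option autoImplicit false

namespace Pool.Agent.W_1b8d5d_fe

open Finset Pool.Agent.W_1b8d5d_h85

/-- The first success of the family of events `K` is `i`. -/
def Fst {ι : Type} [LinearOrder ι] (K : ι → Env → Prop) (i : ι) (τ : Env) : Prop := K i τ ∧ ∀ j < i, ¬ K j τ

/-- No success. -/
def Non {ι : Type} (K : ι → Env → Prop) (τ : Env) : Prop := ∀ i, ¬ K i τ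

section

variable {ι : Type} [LinearOrder ι] [Fintype ι]

theorem Fst_unique {K : ι → Env → Prop} {i j : ι} {τ : Env} (hi : Fst K i τ) (hj : Fst K j τ) : i = j := by
  rcases lt_trichotomy i j with h | h | h
  · exact absurd hi.1 (hj.2 i h)
  · exact h
  · exact absurd hj.1 (hi.2 j h)

theorem Fst_or_Non (K : ι → Env → Prop) (τ : Env) : (∃ i, Fst K i τ) ∨ Non K τ := by
  by_cases h : ∃ i, K i τ
  · left
    obtain ⟨i, hi, hmin⟩ := WellFounded.has_min
      (wellFounded_lt : WellFounded ((· < ·) : ι → ι → Prop)) {i | K i τ} h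
    exact ⟨i, hi, fun j hj hK => hmin j hK hj⟩
  · right
    exact fun i hi => h ⟨i, hi⟩

omit [Fintype ι] in
private theorem Sel_not {K : ι → Env → Prop} {i : ι} {τ : Env} (hi : Fst K i τ) :
    ¬ Non K τ := fun h => h i hi.1

omit [Fintype ι] in
/-- The event that the candidate `i` is the first success is determined by the sets `D j`, `j ≤ i`. -/
private theorem Sel_Fst {K : ι → Env → Prop} {D : ι → Set Edge}
    (hK : ∀ i, DependsOn (K i) (D i)) {i : ι} {τ τ' : Env}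
    (h : ∀ j ≤ i, ∀ e ∈ D j, τ e = τ' e) (hi : Fst K i τ) : Fst K i τ' := by
  refine ⟨?_, fun j hj hKj => hi.2 j hj ?_⟩
  · exact Eq.mp (hK i (h i le_rfl)) hi.1
  · exact Eq.mpr (hK j (h j hj.le)) hKj

omit [LinearOrder ι] [Fintype ι] in
private theorem Sel_Non {K : ι → Env → Prop} {D : ι → Set Edge}
    (hK : ∀ i, DependsOn (K i) (D i)) {τ τ' : Env}
    (h : ∀ j, ∀ e ∈ D j, τ e = τ' e) (hi : Non K τ) : Non K τ' := by
  intro j hj
  exact hi j (Eq.mpr (hK j (h j)) hj)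

open Classical in
private theorem Sel_sum {K : ι → Env → Prop} {i : ι} {τ : Env} (hi : Fst K i τ) (A : ι → ℝ) :
    (∑ j, if Fst K j τ then A j else 0) = A i := by
  rw [Finset.sum_eq_single i]
  · rw [if_pos hi]
  · intro j _ hj
    rw [if_neg fun h => hj (Fst_unique h hi)]
  · intro h
    exact absurd (mem_univ i) h

open Classical in
private theorem Sel_sum0 {K : ι → Env → Prop} {τ : Env} (hn : Non K τ) (A : ι → ℝ) :
    (∑ j, if Fst K j τ then A j else 0) = 0 := by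
  refine Finset.sum_eq_zero fun j _ => ?_
  rw [if_neg fun h => Sel_not h hn]

open Classical in
/-- The probabilities of the first success. -/
theorem sum_P_Fst {a b : ℝ} (M : Mdl a b) (K : ι → Env → Prop) :
    ∑ i, M.P (Fst K i) = M.P (fun τ => ∃ i, K i τ) := by
  rw [M.P_def, Finset.sum_congr rfl fun i _ => M.P_def (Fst K i), ← M.E_sum]
  refine M.E_congr fun τ _ => ?_
  rcases Fst_or_Non K τ with ⟨i, hi⟩ | hn
  · rw [Sel_sum hi fun _ => (1 : ℝ), if_pos ⟨i, hi.1⟩]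
  · rw [Sel_sum0 hn fun _ => (1 : ℝ), if_neg fun ⟨i, hi⟩ => hn i hi]

open Classical in
/-- A cost `F i` which is independent of the choice of `i`.  PROOF. `Fst K i` depends on the union of the `D j`, `j ≤ i`, `F i` on `G i`: `Good.indep` gives
`E (1_{Fst K i} F i) = P (Fst K i) E (F i)`; `sum_P_Fst`. -/
theorem sel_le {Q : Par} {g : V → ℝ} {R : ℝ} {M : Mdl Q.a Q.b} (hM : Good Q g R M) (K : ι → Env → Prop)
    (D G : ι → Set Edge) (F : ι → Env → ℝ) {B : ℝ} (hK : ∀ i, DependsOn (K i) (D i))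
    (hF : ∀ i, DependsOn (F i) (G i)) (hD : ∀ i j, j ≤ i → Disjoint (D j) (G i))
    (hR : ∀ i, ∀ e ∈ D i ∪ G i, nm e.1 ≤ R) (hB : ∀ i, M.E (F i) ≤ B) :
    M.E (fun τ => ∑ i, if Fst K i τ then F i τ else 0) ≤ B * M.P (fun τ => ∃ i, K i τ) := by
  rw [M.E_sum Finset.univ fun i τ => if Fst K i τ then F i τ else 0, ← sum_P_Fst, Finset.mul_sum]
  refine Finset.sum_le_sum fun i _ => ?_
  have h1 : M.E (fun τ => if Fst K i τ then F i τ else 0) =
      M.E (fun τ => (if Fst K i τ then (1 : ℝ) else 0) * F i τ) := by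
    refine M.E_congr fun τ _ => ?_
    by_cases h : Fst K i τ
    · rw [if_pos h, if_pos h, one_mul]
    · rw [if_neg h, if_neg h, zero_mul]
  have hdis : Disjoint (⋃ j ≤ i, D j) (G i) := by
    rw [Set.disjoint_iUnion₂_left]
    exact fun j hj => hD i j hj
  have hnm : ∀ e ∈ (⋃ j ≤ i, D j) ∪ G i, nm e.1 ≤ R := by
    intro e he
    rcases he with he | he
    · obtain ⟨j, hj, hej⟩ := Set.mem_iUnion₂.1 he
      exact hR j e (Or.inl hej)
    · exact hR i e (Or.inr he)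
  have hdep : DependsOn (fun τ => if Fst K i τ then (1 : ℝ) else 0) (⋃ j ≤ i, D j) := by
    intro τ τ' h
    have h2 : Fst K i τ = Fst K i τ' := propext
      ⟨fun hi => Sel_Fst hK (fun j hj e he => h e (Set.mem_iUnion₂.2 ⟨j, hj, he⟩)) hi,
        fun hi => Sel_Fst hK (fun j hj e he => (h e (Set.mem_iUnion₂.2 ⟨j, hj, he⟩)).symm) hi⟩
    show (if Fst K i τ then (1 : ℝ) else 0) = if Fst K i τ' then (1 : ℝ) else 0
    simp only [h2]
  rw [h1, hM.indep _ _ hdis hnm _ _ hdep (hF i), ← M.P_def, mul_comm]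
  exact mul_le_mul_of_nonneg_right (hB i) (M.P_nonneg _)

open Classical in
/-- The flat principle for the first success.  A traveller at `0` looks at the candidates in the given order and goes to `y i` at the cost (minus the level) `A i` for the
first success `i`, to `yd` if there is no success; the decision does not depend on the edges of the wide cone at the point where he goes.  PROOF. As
`Pool.Agent.W_1b8d5d_c1.flat_sel` (file `W_1b8d5d_c1/Sel.lean`), with the coordinates `wd c` instead of `sk c` (`wd_sum`, `Wc_eq_Qd`) in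
`Pool.Agent.W_1b8d5d_c1.flat`; `toC1` converts the model. -/
theorem flat_selW (Q : Par) {g : V → ℝ} (c : Crd) (hg : IsMean Q g) (hl : ∀ z, lv c z ≤ g z) :
    ∃ H₀ : ℝ, 1 ≤ H₀ ∧ ∀ H ≥ H₀, ∀ (R : ℝ) (M : Mdl Q.a Q.b), 8 * H ^ 12 ≤ R → Good Q g R M →
    ∀ {ι : Type} [LinearOrder ι] [Fintype ι] (K : ι → Env → Prop) (D : ι → Set Edge) (y : ι → V) (yd : V)
      (A : ι → Env → ℝ) (Ad : Env → ℝ),
      (∀ i, nm (y i) ≤ H ∧ y i ∈ Wc c) → nm yd ≤ H → yd ∈ Wc c →
      (∀ i, DependsOn (K i) (D i)) →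
      (∀ i, ∀ e ∈ D i, e ∈ edg (Wc c) ∧ nm e.1 ≤ H) →
      (∀ i j, j ≤ i → ∀ e ∈ D j, e ∉ edg {z | z - y i ∈ Wc c}) →
      (∀ j, ∀ e ∈ D j, e ∉ edg {z | z - yd ∈ Wc c}) →
      (∀ i, DependsOn (A i) {e | e ∈ edg (Wc c) ∧ nm e.1 ≤ H}) →
      DependsOn Ad {e | e ∈ edg (Wc c) ∧ nm e.1 ≤ H} →
      (∀ i τ, Bd Q.a Q.b τ → K i τ → T τ 0 (y i) - lv c (y i) ≤ A i τ) →
      (∀ τ, Bd Q.a Q.b τ → T τ 0 yd - lv c yd ≤ Ad τ) →
      -1 ≤ M.E fun τ => (∑ i, if Fst K i τ then A i τ else 0) + if Non K τ then Ad τ else 0 := by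
  have hQ : ∀ x : V, Pool.Agent.W_1b8d5d_c1.Qd (wd c) 0 x = {z | z - x ∈ Wc c} := fun x =>
    (Wc_eq_Qd c x).symm
  have hQ0 : Pool.Agent.W_1b8d5d_c1.Qd (wd c) 0 0 = Wc c := by
    rw [hQ]
    ext z
    show z - 0 ∈ Wc c ↔ z ∈ Wc c
    rw [sub_zero]
  obtain ⟨H₀, hH₀, hflat⟩ := Pool.Agent.W_1b8d5d_c1.flat Q g (wd c) hg
    (fun z => by rw [wd_sum]; exact hl z)
  refine ⟨H₀, hH₀, ?_⟩
  intro H hH R M hR hM ι _ _ K D y yd A Ad hy hyd hyd' hK hD1 hD2 hD3 hA hAd hT hTd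
  obtain ⟨Y, hYdef⟩ : ∃ Y : Env → V, Y = fun τ => if h : ∃ i, Fst K i τ then y h.choose else yd :=
    ⟨_, rfl⟩
  have hY1 : ∀ i τ, Fst K i τ → Y τ = y i := by
    intro i τ hi
    have hex : ∃ i, Fst K i τ := ⟨i, hi⟩
    rw [hYdef]
    simp only
    rw [dif_pos hex]
    exact congrArg y (Fst_unique hex.choose_spec hi)
  have hY2 : ∀ τ, Non K τ → Y τ = yd := by
    intro τ hn
    have hex : ¬ ∃ i, Fst K i τ := fun ⟨i, hi⟩ => Sel_not hi hn
    rw [hYdef]
    simp only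
    rw [dif_neg hex]
  have hpos : ∀ z ∈ Wc c, 0 ≤ (wd c).p z ∧ 0 ≤ (wd c).q z := by
    rintro z ⟨h1, h2⟩
    constructor
    · show 0 ≤ wdp c z
      rw [wdp_apply]
      linarith
    · show 0 ≤ wdq c z
      rw [wdq_apply]
      linarith
  have hsub : ∀ j, ∀ e ∈ D j, e ∈ {e : Edge | e ∈ edg (Wc c) ∧ nm e.1 ≤ H} := fun j e he => hD1 j e he
  have h0 := hflat H hH R M hR (toC1 hM) 0 Y
    (fun τ => (∑ i, if Fst K i τ then A i τ else 0) + if Non K τ then Ad τ else 0) le_rfl ?_ ?_ ?_ ?_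
  · exact h0
  · intro τ
    rcases Fst_or_Non K τ with ⟨i, hi⟩ | hn
    · rw [hY1 i τ hi]
      exact ⟨(hy i).1, hpos _ (hy i).2⟩
    · rw [hY2 τ hn]
      exact ⟨hyd, hpos _ hyd'⟩
  · intro y'
    rw [hQ0, hQ]
    have key : ∀ τ τ' : Env,
        (∀ e ∈ {e : Edge | e ∈ edg (Wc c) ∧ nm e.1 ≤ H ∧ e ∉ edg {z | z - y' ∈ Wc c}},
          τ e = τ' e) → Y τ = y' → Y τ' = y' := by
      intro τ τ' hag hYτ
      rcases Fst_or_Non K τ with ⟨i, hi⟩ | hn
      · rw [hY1 i τ hi] at hYτ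
        have hi' : Fst K i τ' := by
          refine Sel_Fst hK (fun j hj e he => hag e ⟨(hD1 j e he).1, (hD1 j e he).2, ?_⟩) hi
          rw [← hYτ]
          exact hD2 i j hj e he
        rw [hY1 i τ' hi']
        exact hYτ
      · rw [hY2 τ hn] at hYτ
        have hn' : Non K τ' := by
          refine Sel_Non hK (fun j e he => hag e ⟨(hD1 j e he).1, (hD1 j e he).2, ?_⟩) hn
          rw [← hYτ]
          exact hD3 j e he
        rw [hY2 τ' hn']
        exact hYτ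
    intro τ τ' h
    exact propext ⟨key τ τ' h, key τ' τ fun e he => (h e he).symm⟩
  · rw [hQ0]
    intro τ τ' h
    have hF : ∀ i, (Fst K i τ) = (Fst K i τ') := fun i => propext
      ⟨fun hi => Sel_Fst hK (fun j _ e he => h e (hsub j e he)) hi,
        fun hi => Sel_Fst hK (fun j _ e he => (h e (hsub j e he)).symm) hi⟩
    have hN : (Non K τ) = (Non K τ') := propext
      ⟨fun hi => Sel_Non hK (fun j e he => h e (hsub j e he)) hi,
        fun hi => Sel_Non hK (fun j e he => (h e (hsub j e he)).symm) hi⟩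
    have hAi : ∀ i, A i τ = A i τ' := fun i => hA i h
    have hAd' : Ad τ = Ad τ' := hAd h
    simp only [hF, hN, hAi, hAd']
  · intro τ hτ
    rw [wd_sum]
    rcases Fst_or_Non K τ with ⟨i, hi⟩ | hn
    · rw [hY1 i τ hi]
      show _ ≤ (∑ j, if Fst K j τ then A j τ else 0) + if Non K τ then Ad τ else 0
      rw [Sel_sum hi fun j => A j τ, if_neg (Sel_not hi), add_zero]
      exact hT i τ hτ hi.1
    · rw [hY2 τ hn]
      show _ ≤ (∑ j, if Fst K j τ then A j τ else 0) + if Non K τ then Ad τ else 0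
      rw [Sel_sum0 hn fun j => A j τ, if_pos hn, zero_add]
      exact hTd τ hτ

end

end Pool.Agent.W_1b8d5d_fe
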