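import Pool.Agent.W_1b8d5d_fe.Blk1
import Pool.Agent.W_1b8d5d_fe.Sel

/-!
MP_1b8d5d_pr (FE): blocks and their crossings: travel to and from the first crossing, slow blocks ((4.1) of row 596).
-/

set_option autoImplicit false

namespace Pool.Agent.W_1b8d5d_fe

open Finset Pool.Agent.W_1b8d5d_h85

open Classical in
/-- Events which do not depend on the environment. -/
private theorem sel_const {a b : ℝ} (M : Mdl a b) {m : ℕ} (K : Fin m → Env → Prop) (F : Fin m → Env → ℝ) {B : ℝ}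
    (hK : ∀ i τ τ', K i τ → K i τ') (hB : ∀ i, M.E (F i) ≤ B) (hB0 : 0 ≤ B) :
    M.E (fun τ => ∑ i, if Fst K i τ then F i τ else 0) ≤ B * M.P (fun τ => ∃ i, K i τ) := by
  rcases Fst_or_Non K (fun _ => 0) with ⟨i, hi⟩ | h
  · have hall : ∀ τ, Fst K i τ := fun τ => ⟨hK i _ τ hi.1, fun j hj h => hi.2 j hj (hK j τ _ h)⟩
    have h1 : (fun τ => ∑ j, if Fst K j τ then F j τ else 0) = F i := by
      funext τ
      rw [Finset.sum_eq_single i]
      · rw [if_pos (hall τ)]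
      · intro j _ hj
        rw [if_neg fun h => hj (Fst_unique h (hall τ))]
      · intro h
        exact absurd (Finset.mem_univ i) h
    have h2 : M.P (fun τ => ∃ i, K i τ) = 1 := by
      refine le_antisymm (M.P_le_one _) ?_
      rw [Mdl.P_def]
      refine M.le_E_of_le fun τ _ => ?_
      rw [if_pos ⟨i, (hall τ).1⟩]
    rw [h1, h2, mul_one]
    exact hB i
  · have h1 : (fun τ => ∑ j, if Fst K j τ then F j τ else 0) = fun _ => 0 := by
      funext τ
      apply Finset.sum_eq_zero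
      intro j _
      rw [if_neg fun h' => h j (hK j τ _ h'.1)]
    rw [h1, Mdl.E_const]
    exact mul_nonneg hB0 (Mdl.P_nonneg _ _)

open Classical in
/-- Travel along `u i → v i` for the highest crossing. -/
private theorem trav_aux {Q : Par} {g : V → ℝ} {R D : ℝ} {M : Mdl Q.a Q.b} (hM : Good Q g R M) (hD : 3 ≤ D) {c : Crd} {r w w₁ ℓ α β e n : ℝ}
    {m : ℕ} {x y u v : Fin m → V} (h1 : ∀ i, Win c r w₁ ℓ α β (x i) (y i))
    (h2 : ∀ x' y', Win c r w₁ ℓ α β x' y' → ∃ i, x i = x' ∧ y i = y')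
    (hX : ∀ i, v i - u i ∈ Md c D ∧ 0 ≤ lv c (v i - u i) ∧ lv c (v i - u i) ≤ n)
    (hdis : ∀ i j, j ≤ i → Disjoint (Eb c α β w ℓ (lv c (x j))) (edg (Dc c (u i) (v i)))) (hr : 0 ≤ r)
    (hR1 : 4 * c.C * (n + |α| + |ℓ| + r + 2 * c.C + |β| + w) ≤ R)
    (hR2 : 0 ≤ w → ∀ i, nm (u i) + 4 * c.C * n ≤ R) :
    M.E (fun τ => ∑ i, if Fst (fun i => Kc Q.b c w ℓ α β e (x i) (y i)) i τ
      then max (Tc Q.b c τ (u i) (v i) - lv c (v i - u i)) 0 else 0) ≤ Fm M c D n * M.P (Cr Q.b c r w w₁ ℓ α β e) := by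
  have hC := c.one_le
  have hP : M.P (Cr Q.b c r w w₁ ℓ α β e) = M.P (fun τ => ∃ i, Kc Q.b c w ℓ α β e (x i) (y i) τ) := by
    congr 1
    funext τ
    exact propext (Cr_iff h1 h2 τ)
  have hB : ∀ i, M.E (fun τ => max (Tc Q.b c τ (u i) (v i) - lv c (v i - u i)) 0) ≤ Fm M c D n := by
    intro i
    rw [E_exc hM]
    linarith [Sc_le_Fm M c (by linarith) (hX i).1 (hX i).2.1 (hX i).2.2]
  rw [hP]
  rcases lt_or_ge w 0 with hw | hw
  · refine sel_const M (fun i => Kc Q.b c w ℓ α β e (x i) (y i)) _ ?_ hB (by linarith [Fm_one_le (D := D) M c n])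
    intro i τ τ' h
    have hd : Kc Q.b c w ℓ α β e (x i) (y i) τ = Kc Q.b c w ℓ α β e (x i) (y i) τ' := by
      apply Kc_dep Q.b c w ℓ α β e (x i) (y i)
      intro d hd
      exfalso
      have := (Eb_vert hd).1.2.2
      linarith [abs_nonneg (c.q d.1 - β)]
    exact hd ▸ h
  · refine sel_le hM (fun i => Kc Q.b c w ℓ α β e (x i) (y i)) (fun i => Eb c α β w ℓ (lv c (x i)))
      (fun i => edg (Dc c (u i) (v i))) (fun i τ => max (Tc Q.b c τ (u i) (v i) - lv c (v i - u i)) 0) ?_ ?_ hdis ?_ hB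
    · intro i
      exact Kc_dep Q.b c w ℓ α β e (x i) (y i)
    · intro i τ τ' h
      have := Tc_dep Q.b c (u i) (v i) h
      simp only at this ⊢
      rw [this]
    · intro i d hd
      have hn : 0 ≤ n := (hX i).2.1.trans (hX i).2.2
      rcases hd with hd | hd
      · have a1 := Eb_nm hd
        have a2 := h1 i
        have a3 : |lv c (x i)| ≤ |α| + r + 2 * c.C := by
          rw [abs_le]
          constructor
          · linarith [a2.1.1, neg_abs_le α]
          · linarith [a2.1.2.1, le_abs_self α]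
        have a4 : |α + ℓ| ≤ |α| + |ℓ| := abs_add_le _ _
        have a5 : |lv c (x i)| + |α + ℓ| + 2 * c.C + |β| + w ≤ 2 * (n + |α| + |ℓ| + r + 2 * c.C + |β| + w) := by
          linarith [abs_nonneg ℓ, abs_nonneg β, abs_nonneg α]
        have a6 := mul_le_mul_of_nonneg_left a5 (show 0 ≤ 2 * c.C by linarith)
        linarith
      · have a1 := Dc_nm hd.1
        have a2 := nm_add_le (d.1 - u i) (u i)
        rw [sub_add_cancel] at a2
        have a3 := mul_le_mul_of_nonneg_left (hX i).2.2 (show 0 ≤ 4 * c.C by linarith)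
        linarith [hR2 hw i]

open Classical in
/-- Travel from `X` to the entry of the highest crossing of a block.  PROOF. `sel_le` with `D i = Eb c α β w ℓ (lv c (x i))`, `G i = edg (Dc c X (x i))`
(`Kc_dep`, `Tc_dep`, `Eb_disj_low` since `lv (x i) ≤ lv (x j)` for `j ≤ i`), `E_exc`, `Sc_le_Fm`, `Cr_iff`.  Range: `Dc_nm`, `Eb_nm`. -/
theorem trav_low {Q : Par} {g : V → ℝ} {R D : ℝ} {M : Mdl Q.a Q.b} (hM : Good Q g R M) (hD : 3 ≤ D) {c : Crd} {r w w₁ ℓ α β e n : ℝ}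
    {X : V} {m : ℕ} {x y : Fin m → V} (h1 : ∀ i, Win c r w₁ ℓ α β (x i) (y i))
    (h2 : ∀ x' y', Win c r w₁ ℓ α β x' y' → ∃ i, x i = x' ∧ y i = y') (h3 : ∀ i j, j ≤ i → lv c (x i) ≤ lv c (x j))
    (hX : ∀ i, x i - X ∈ Md c D ∧ 0 ≤ lv c (x i - X) ∧ lv c (x i - X) ≤ n) (hr : 0 ≤ r)
    (hR : 4 * c.C * (n + |α| + |ℓ| + r + 2 * c.C + |β| + w) + nm X ≤ R) :
    M.E (fun τ => ∑ i, if Fst (fun i => Kc Q.b c w ℓ α β e (x i) (y i)) i τ
      then max (Tc Q.b c τ X (x i) - lv c (x i - X)) 0 else 0) ≤ Fm M c D n * M.P (Cr Q.b c r w w₁ ℓ α β e) := by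
  have hC := c.one_le
  refine trav_aux (u := fun _ => X) (v := x) hM hD h1 h2 hX ?_ hr (by linarith [nm_nonneg X]) ?_
  · intro i j hij
    exact Eb_disj_low (h3 i j hij)
  · intro hw i
    have a1 : n ≤ n + |α| + |ℓ| + r + 2 * c.C + |β| + w := by
      linarith [abs_nonneg ℓ, abs_nonneg β, abs_nonneg α]
    have a2 := mul_le_mul_of_nonneg_left a1 (show 0 ≤ 4 * c.C by linarith)
    linarith

open Classical in
/-- Travel from the exit of the highest crossing of a block to a point `Y`.  PROOF. The same with `G i = edg (Dc c (y i) (Y i))`, `Eb_disj_up`. -/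
theorem trav_up {Q : Par} {g : V → ℝ} {R D : ℝ} {M : Mdl Q.a Q.b} (hM : Good Q g R M) (hD : 3 ≤ D) {c : Crd} {r w w₁ ℓ α β e n : ℝ}
    {m : ℕ} {x y Y : Fin m → V} (h1 : ∀ i, Win c r w₁ ℓ α β (x i) (y i))
    (h2 : ∀ x' y', Win c r w₁ ℓ α β x' y' → ∃ i, x i = x' ∧ y i = y') (h3 : ∀ i j, j ≤ i → lv c (x i) ≤ lv c (x j))
    (hY : ∀ i, Y i - y i ∈ Md c D ∧ 0 ≤ lv c (Y i - y i) ∧ lv c (Y i - y i) ≤ n) (hr : 0 ≤ r)
    (hR : 4 * c.C * (n + |α| + |ℓ| + r + 2 * c.C + |β| + w + |w₁|) ≤ R) :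
    M.E (fun τ => ∑ i, if Fst (fun i => Kc Q.b c w ℓ α β e (x i) (y i)) i τ
      then max (Tc Q.b c τ (y i) (Y i) - lv c (Y i - y i)) 0 else 0) ≤ Fm M c D n * M.P (Cr Q.b c r w w₁ ℓ α β e) := by
  have hC := c.one_le
  refine trav_aux (u := y) (v := Y) hM hD h1 h2 hY ?_ hr ?_ ?_
  · intro i j _
    refine Eb_disj_up ?_
    intro z hz
    linarith [(Dc_lv hz).1, (h1 i).2.1]
  · have a1 : n + |α| + |ℓ| + r + 2 * c.C + |β| + w ≤ n + |α| + |ℓ| + r + 2 * c.C + |β| + w + |w₁| := by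
      linarith [abs_nonneg w₁]
    have a2 := mul_le_mul_of_nonneg_left a1 (show 0 ≤ 4 * c.C by linarith)
    linarith
  · intro hw i
    have b0 := h1 i
    have b1 : |lv c (y i)| ≤ |α| + |ℓ| + 2 * c.C := by
      rw [abs_le]
      constructor
      · linarith [b0.2.1, neg_abs_le α, neg_abs_le ℓ]
      · linarith [b0.2.2.1, le_abs_self α, le_abs_self ℓ]
    have b2 : |c.q (y i)| ≤ |β| + |w₁| := by
      have b3 := abs_le.1 b0.2.2.2
      rw [abs_le]
      constructor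
      · linarith [b3.1, neg_abs_le β, le_abs_self w₁]
      · linarith [b3.2, le_abs_self β, le_abs_self w₁]
    have b4 := nm_le_lq c (y i)
    have b5 : |lv c (y i)| + |c.q (y i)| + 2 * n ≤ 2 * (n + |α| + |ℓ| + r + 2 * c.C + |β| + w + |w₁|) := by
      linarith [abs_nonneg ℓ, abs_nonneg β, abs_nonneg α, abs_nonneg w₁]
    have b6 := mul_le_mul_of_nonneg_left b5 (show 0 ≤ 2 * c.C by linarith)
    linarith

/-- A slow vector near the edge makes the blocks slow ((4.1) of row 596).  PROOF. `X = c.rd`-point with level `α - 100 r` and `q = β - 50 r` (up to `2 C`), `Y = X + x₁`: level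
`α + ℓ + 100 r`, `q = β + 50 r` (up to `4 C`).  For a crossing `x, y` of the block: `x - X`, `Y - y` are in `Md c D` (`Md_of`), of levels in `[98 r, 102 r]`, and the block is in the double
cone of `X, Y`, so by `Tc_three`: `Tc X Y - lv (Y - X) ≤ (Tc X x - lv)⁺ + e + (Tc y Y - lv)⁺`.  With the list `cands` and `trav_low`, `trav_up` (`n = 150 r`) the two positive parts
at the first crossing have a mean `≤ 2 Fm M c D (150 r)`.  So `P (e₁ ≤ Tc X Y - lv) ≤ P (¬ Cr) + P (Cr and the sum of the two parts ≥ e₁ - e)`: Markov; `P_Tc`. -/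
theorem blk_cmp {Q : Par} {g : V → ℝ} {R D : ℝ} {M : Mdl Q.a Q.b} (hM : Good Q g R M) (hD : 3 ≤ D) {c : Crd} {r ℓ e₁ e α β : ℝ} {x₁ : V}
    (hr : 20 * c.C ≤ r) (hx₁ : |c.q x₁ - 100 * r| ≤ 2 * c.C) (hℓ : ℓ = lv c x₁ - 200 * r) (hℓr : 10 * r ≤ ℓ) (he : e < e₁)
    (hR : 100 * c.C * (|α| + |β| + ℓ + 300 * r) ≤ R) :
    M.P (fun τ => e₁ ≤ Tc Q.b c τ 0 x₁ - lv c x₁) ≤
      M.P (fun τ => ¬ Cr Q.b c r (10 * r) r ℓ α β e τ) + 2 * Fm M c D (150 * r) / (e₁ - e) := by
  classical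
  have hC := c.one_le
  have hr0 : 0 ≤ r := by linarith
  obtain ⟨X, hX1, hX2⟩ : ∃ X : V, |lv c X - (α - 100 * r)| ≤ 2 * c.C ∧ |c.q X - (β - 50 * r)| ≤ c.C := by
    refine ⟨c.rd (α - 100 * r - (β - 50 * r)) (β - 50 * r), ?_, c.rd_q _ _⟩
    have := lv_rd c (α - 100 * r - (β - 50 * r)) (β - 50 * r)
    rwa [sub_add_cancel] at this
  obtain ⟨m, x, y, h1, h2, h3⟩ := cands c r r ℓ α β
  obtain ⟨Y, hY⟩ : ∃ Y : V, Y = X + x₁ := ⟨_, rfl⟩
  have hYX : Y - X = x₁ := by rw [hY]; abel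
  have hX1' := abs_le.1 hX1
  have hX2' := abs_le.1 hX2
  have hx₁' := abs_le.1 hx₁
  have hY1 : lv c Y = lv c X + ℓ + 200 * r := by rw [hY, lv_add, hℓ]; ring
  have hY2 : c.q Y = c.q X + c.q x₁ := by rw [hY, map_add]
  have hpq : ∀ z, c.p z = lv c z - c.q z := fun z => by unfold lv; ring
  have hW : ∀ z, 0 ≤ 2 * lv c z - c.q z → 0 ≤ lv c z + c.q z → z ∈ Wc c := by
    intro z a1 a2
    constructor
    · rw [hpq z]; linarith
    · rw [hpq z]; linarith
  have hxX : ∀ i, x i - X ∈ Md c D ∧ 0 ≤ lv c (x i - X) ∧ lv c (x i - X) ≤ 150 * r := by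
    intro i
    obtain ⟨⟨a1, a2, a3⟩, -⟩ := h1 i
    have a3' := abs_le.1 a3
    have e1 : lv c (x i - X) = lv c (x i) - lv c X := lv_sub c _ _
    have e2 : c.q (x i - X) = c.q (x i) - c.q X := map_sub _ _ _
    have e3 := hpq (x i - X)
    refine ⟨Md_of hD ?_ ?_ ?_ ?_, ?_, ?_⟩
    · rw [e3, e1, e2]; linarith [a3'.1, a3'.2]
    · rw [e2]; linarith [a3'.1, a3'.2]
    · rw [e3, e1, e2]; linarith [a3'.1, a3'.2]
    · rw [e1, e2]; linarith [a3'.1, a3'.2]
    · rw [e1]; linarith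
    · rw [e1]; linarith
  have hYy : ∀ i, Y - y i ∈ Md c D ∧ 0 ≤ lv c (Y - y i) ∧ lv c (Y - y i) ≤ 150 * r := by
    intro i
    obtain ⟨-, a1, a2, a3⟩ := h1 i
    have a3' := abs_le.1 a3
    have e1 : lv c (Y - y i) = lv c Y - lv c (y i) := lv_sub c _ _
    have e2 : c.q (Y - y i) = c.q Y - c.q (y i) := map_sub _ _ _
    have e3 := hpq (Y - y i)
    refine ⟨Md_of hD ?_ ?_ ?_ ?_, ?_, ?_⟩
    · rw [e3, e1, e2]; linarith [a3'.1, a3'.2]
    · rw [e2]; linarith [a3'.1, a3'.2]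
    · rw [e3, e1, e2]; linarith [a3'.1, a3'.2]
    · rw [e1, e2]; linarith [a3'.1, a3'.2]
    · rw [e1]; linarith
    · rw [e1]; linarith
  have hℓ0 : 0 ≤ ℓ := by linarith
  have hCR : ∀ t : ℝ, t ≤ 100 * (|α| + |β| + ℓ + 300 * r) → c.C * t ≤ R := by
    intro t ht
    have := mul_le_mul_of_nonneg_left ht (show 0 ≤ c.C by linarith)
    linarith
  have hlow := trav_low (w := 10 * r) (e := e) (X := X) hM hD h1 h2 h3 hxX hr0 (by
    have b1 := nm_le_lq c X
    have b2 : |lv c X| ≤ |α| + 100 * r + 2 * c.C := by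
      rw [abs_le]
      constructor
      · linarith [neg_abs_le α]
      · linarith [le_abs_self α]
    have b3 : |c.q X| ≤ |β| + 50 * r + c.C := by
      rw [abs_le]
      constructor
      · linarith [neg_abs_le β]
      · linarith [le_abs_self β]
    have b4 : 2 * (|lv c X| + |c.q X|) + 4 * (150 * r + |α| + |ℓ| + r + 2 * c.C + |β| + 10 * r)
        ≤ 100 * (|α| + |β| + ℓ + 300 * r) := by
      rw [abs_of_nonneg hℓ0]
      linarith [abs_nonneg α, abs_nonneg β]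
    have b5 := hCR _ b4
    linarith)
  have hup := trav_up (w := 10 * r) (e := e) (Y := fun _ => Y) hM hD h1 h2 h3 hYy hr0 (by
    have b4 : 4 * (150 * r + |α| + |ℓ| + r + 2 * c.C + |β| + 10 * r + |r|)
        ≤ 100 * (|α| + |β| + ℓ + 300 * r) := by
      rw [abs_of_nonneg hℓ0, abs_of_nonneg hr0]
      linarith [abs_nonneg α, abs_nonneg β]
    have b5 := hCR _ b4
    linarith)
  obtain ⟨S1, hS1⟩ : ∃ S1 : Env → ℝ, S1 = fun τ => ∑ i, if Fst (fun i => Kc Q.b c (10 * r) ℓ α β e (x i) (y i)) i τ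
      then max (Tc Q.b c τ X (x i) - lv c (x i - X)) 0 else 0 := ⟨_, rfl⟩
  obtain ⟨S2, hS2⟩ : ∃ S2 : Env → ℝ, S2 = fun τ => ∑ i, if Fst (fun i => Kc Q.b c (10 * r) ℓ α β e (x i) (y i)) i τ
      then max (Tc Q.b c τ (y i) Y - lv c (Y - y i)) 0 else 0 := ⟨_, rfl⟩
  rw [← hS1] at hlow
  have hup' : M.E S2 ≤ Fm M c D (150 * r) * M.P (Cr Q.b c r (10 * r) r ℓ α β e) := by
    rw [hS2]
    exact hup
  have hS1n : ∀ τ, 0 ≤ S1 τ := by
    intro τ
    rw [hS1]
    refine Finset.sum_nonneg fun i _ => ?_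
    split_ifs
    · exact le_max_right _ _
    · exact le_rfl
  have hS2n : ∀ τ, 0 ≤ S2 τ := by
    intro τ
    rw [hS2]
    refine Finset.sum_nonneg fun i _ => ?_
    split_ifs
    · exact le_max_right _ _
    · exact le_rfl
  have key : ∀ τ, Bd Q.a Q.b τ → e₁ ≤ Tc Q.b c τ X Y - lv c x₁ →
      (¬ Cr Q.b c r (10 * r) r ℓ α β e τ) ∨ e₁ - e ≤ S1 τ + S2 τ := by
    intro τ hτ hT
    by_cases hcr : Cr Q.b c r (10 * r) r ℓ α β e τ
    · right
      rw [Cr_iff h1 h2] at hcr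
      rcases Fst_or_Non (fun i => Kc Q.b c (10 * r) ℓ α β e (x i) (y i)) τ with ⟨i, hi⟩ | hno
      · have s1 : S1 τ = max (Tc Q.b c τ X (x i) - lv c (x i - X)) 0 := by
          rw [hS1]
          show (∑ j, if Fst (fun i => Kc Q.b c (10 * r) ℓ α β e (x i) (y i)) j τ
            then max (Tc Q.b c τ X (x j) - lv c (x j - X)) 0 else 0) = _
          rw [Finset.sum_eq_single i]
          · rw [if_pos hi]
          · intro j _ hj
            rw [if_neg fun h => hj (Fst_unique h hi)]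
          · intro h
            exact absurd (Finset.mem_univ i) h
        have s2 : S2 τ = max (Tc Q.b c τ (y i) Y - lv c (Y - y i)) 0 := by
          rw [hS2]
          show (∑ j, if Fst (fun i => Kc Q.b c (10 * r) ℓ α β e (x i) (y i)) j τ
            then max (Tc Q.b c τ (y j) Y - lv c (Y - y j)) 0 else 0) = _
          rw [Finset.sum_eq_single i]
          · rw [if_pos hi]
          · intro j _ hj
            rw [if_neg fun h => hj (Fst_unique h hi)]
          · intro h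
            exact absurd (Finset.mem_univ i) h
        obtain ⟨⟨a1, a2, a3⟩, a4, a5, a6⟩ := h1 i
        have a3' := abs_le.1 a3
        have a6' := abs_le.1 a6
        have hA : Eb c α β (10 * r) ℓ (lv c (x i)) ⊆ edg (Dc c X Y) := by
          have hv : ∀ z, lv c (x i) ≤ lv c z → lv c z ≤ α + ℓ + 2 * c.C → |c.q z - β| ≤ 10 * r → z ∈ Dc c X Y := by
            intro z z1 z2 z3
            have z3' := abs_le.1 z3
            constructor
            · apply hW
              · rw [lv_sub, map_sub]; linarith [z3'.1, z3'.2]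
              · rw [lv_sub, map_sub]; linarith [z3'.1, z3'.2]
            · apply hW
              · rw [lv_sub, map_sub]; linarith [z3'.1, z3'.2]
              · rw [lv_sub, map_sub]; linarith [z3'.1, z3'.2]
          intro d hd
          obtain ⟨⟨d1, d2, d3⟩, d4, d5, d6⟩ := Eb_vert hd
          exact ⟨hv _ d1 d2 d3, hv _ d4 d5 d6⟩
        have t3 := Tc_three Q.ha.le Q.hab.le hτ (c := c) (x := X) (u := x i) (v := y i) (y := Y)
          (Eb c α β (10 * r) ℓ (lv c (x i))) hA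
          (hW _ (by rw [lv_sub, map_sub]; linarith) (by rw [lv_sub, map_sub]; linarith))
          (hW _ (by rw [lv_sub, map_sub]; linarith) (by rw [lv_sub, map_sub]; linarith))
          (hW _ (by rw [lv_sub, map_sub]; linarith) (by rw [lv_sub, map_sub]; linarith))
          (hW _ (by rw [lv_sub, map_sub]; linarith) (by rw [lv_sub, map_sub]; linarith))
        have k1 : T (res Q.b (Eb c α β (10 * r) ℓ (lv c (x i))) τ) (x i) (y i) ≤ lv c (y i - x i) + e := hi.1
        have m1 := le_max_left (Tc Q.b c τ X (x i) - lv c (x i - X)) 0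
        have m2 := le_max_left (Tc Q.b c τ (y i) Y - lv c (Y - y i)) 0
        have l1 : lv c x₁ = lv c (x i - X) + lv c (y i - x i) + lv c (Y - y i) := by
          rw [← hYX, lv_sub, lv_sub, lv_sub, lv_sub]; ring
        rw [s1, s2]
        linarith
      · exact absurd hcr (by
          rintro ⟨i, hi⟩
          exact hno i hi)
    · exact Or.inl hcr
  have hP0 : M.P (fun τ => e₁ ≤ Tc Q.b c τ 0 x₁ - lv c x₁) = M.P (fun τ => e₁ ≤ Tc Q.b c τ X Y - lv c x₁) := by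
    have := P_Tc hM c (fun t => e₁ ≤ t - lv c x₁) X Y
    rw [hYX] at this
    exact this.symm
  have hpos : 0 < e₁ - e := by linarith
  have hE : M.E (fun τ => S1 τ + S2 τ) ≤ 2 * Fm M c D (150 * r) := by
    rw [Mdl.E_add]
    have f1 := Mdl.P_le_one M (Cr Q.b c r (10 * r) r ℓ α β e)
    have f2 := Fm_one_le (D := D) M c (150 * r)
    have f3 := mul_le_mul_of_nonneg_left f1 (show 0 ≤ Fm M c D (150 * r) by linarith)
    have f4 : M.E S1 ≤ Fm M c D (150 * r) * M.P (Cr Q.b c r (10 * r) r ℓ α β e) := hlow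
    linarith
  calc M.P (fun τ => e₁ ≤ Tc Q.b c τ 0 x₁ - lv c x₁) = M.P (fun τ => e₁ ≤ Tc Q.b c τ X Y - lv c x₁) := hP0
    _ ≤ M.P (fun τ => (¬ Cr Q.b c r (10 * r) r ℓ α β e τ) ∨ e₁ - e ≤ S1 τ + S2 τ) := M.P_mono key
    _ ≤ M.P (fun τ => ¬ Cr Q.b c r (10 * r) r ℓ α β e τ) + M.P (fun τ => e₁ - e ≤ S1 τ + S2 τ) := M.P_or _ _
    _ ≤ M.P (fun τ => ¬ Cr Q.b c r (10 * r) r ℓ α β e τ) + 2 * Fm M c D (150 * r) / (e₁ - e) := by
      have g1 := M.markov (F := fun τ => S1 τ + S2 τ) (fun τ _ => add_nonneg (hS1n τ) (hS2n τ)) hpos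
      have g2 := div_le_div_of_nonneg_right hE hpos.le
      linarith

end Pool.Agent.W_1b8d5d_fe
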