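import Pool.Agent.W_1b8d5d_fe.Rates2
import Pool.Agent.W_1b8d5d_fe.Blk2
import Pool.Agent.W_1b8d5d_fe.Bar

/-!
MP_1b8d5d_pr (FE): auxiliary lemmas for the assembly.
-/

set_option autoImplicit false

namespace Pool.Agent.W_1b8d5d_fe

open Finset Pool.Agent.W_1b8d5d_h85

/-- A larger power wins. -/
theorem pow_large (C : ℝ) {x y : ℝ} (h : x < y) : ∃ s₀ : ℝ, 1 ≤ s₀ ∧ ∀ s : ℝ, s₀ ≤ s → C * s ^ x ≤ s ^ y := by
  have hd : 0 < y - x := sub_pos.2 h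
  refine ⟨max 1 ((max C 1) ^ (1 / (y - x))), le_max_left _ _, fun s hs => ?_⟩
  have h1 : 1 ≤ s := (le_max_left _ _).trans hs
  have h2 : (max C 1) ^ (1 / (y - x)) ≤ s := (le_max_right _ _).trans hs
  have hC1 : (0 : ℝ) < max C 1 := lt_of_lt_of_le one_pos (le_max_right _ _)
  have h3 : max C 1 ≤ s ^ (y - x) := by
    have h4 := Real.rpow_le_rpow (Real.rpow_nonneg hC1.le _) h2 hd.le
    rwa [← Real.rpow_mul hC1.le, one_div_mul_cancel hd.ne', Real.rpow_one] at h4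
  have hs0 : 0 < s := by linarith
  have h5 : s ^ y = s ^ (y - x) * s ^ x := by
    rw [← Real.rpow_add hs0]
    congr 1
    ring
  rw [h5]
  exact mul_le_mul_of_nonneg_right ((le_max_left _ _).trans h3) (Real.rpow_nonneg hs0.le _)

/-- The number of levels of luck. -/
theorem exists_J {Y B : ℝ} (hY : 1 ≤ Y) (hB : 1 ≤ B) :
    ∃ J : ℕ, B ≤ 2 ^ J * Y ∧ 2 ^ J * Y ≤ 2 * B + Y ∧ (∀ j < J, 2 ^ j * Y ≤ B) ∧ (J : ℝ) ≤ 2 * B + Y := by
  have hex : ∃ J : ℕ, B ≤ 2 ^ J * Y := by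
    obtain ⟨J, hJ⟩ := pow_unbounded_of_one_lt B (by norm_num : (1 : ℝ) < 2)
    refine ⟨J, hJ.le.trans ?_⟩
    exact le_mul_of_one_le_right (by positivity) hY
  have h2 : ∀ n : ℕ, (n : ℝ) ≤ 2 ^ n := fun n => by
    have := Nat.lt_two_pow_self (n := n)
    exact_mod_cast this.le
  refine ⟨Nat.find hex, Nat.find_spec hex, ?_, fun j hj => (not_le.1 (Nat.find_min hex hj)).le, ?_⟩
  · rcases Nat.eq_zero_or_pos (Nat.find hex) with h | h
    · rw [h]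
      simp only [pow_zero, one_mul]
      linarith
    · have h3 := Nat.find_min hex (m := Nat.find hex - 1) (by omega)
      rw [not_le] at h3
      have h4 : (2 : ℝ) ^ Nat.find hex = 2 * 2 ^ (Nat.find hex - 1) := by
        rw [← pow_succ']
        congr 1
        omega
      rw [h4]
      nlinarith
  · have hmain : (2 : ℝ) ^ Nat.find hex * Y ≤ 2 * B + Y := by
      rcases Nat.eq_zero_or_pos (Nat.find hex) with h | h
      · rw [h]
        simp only [pow_zero, one_mul]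
        linarith
      · have h3 := Nat.find_min hex (m := Nat.find hex - 1) (by omega)
        rw [not_le] at h3
        have h4 : (2 : ℝ) ^ Nat.find hex = 2 * 2 ^ (Nat.find hex - 1) := by
          rw [← pow_succ']
          congr 1
          omega
        rw [h4]
        nlinarith
    refine (h2 _).trans (le_trans ?_ hmain)
    exact le_mul_of_one_le_right (by positivity) hY

/-- The counting condition. -/
theorem count_cond {m N K ρ : ℝ} (hm : 0 ≤ m) (hN : 0 ≤ N) (hρ : 0 ≤ ρ) (h : 80 * m * ρ + 9 * Real.sqrt (m * N * ρ) ≤ K) :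
    40 * m * (N + K) * ρ ≤ K ^ 2 := by
  have h0 : 0 ≤ m * N * ρ := by positivity
  have h1 := Real.sqrt_nonneg (m * N * ρ)
  have h2 := Real.sq_sqrt h0
  have h3 : 0 ≤ 80 * m * ρ := by positivity
  have hK : 0 ≤ K := by linarith
  have h4 : 9 * Real.sqrt (m * N * ρ) ≤ K := by linarith
  have h5 : 81 * (m * N * ρ) ≤ K ^ 2 := by
    have h6 : (9 * Real.sqrt (m * N * ρ)) ^ 2 ≤ K ^ 2 := pow_le_pow_left₀ (by positivity) h4 2
    rw [mul_pow, h2] at h6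
    linarith
  have h7 : 80 * m * ρ ≤ K := by linarith
  have h8 : 80 * m * ρ * K ≤ K * K := mul_le_mul_of_nonneg_right h7 hK
  nlinarith

/-- A translation which brings a block near the origin. -/
theorem exists_shift (c : Crd) (α β : ℝ) : ∃ z : V, |α + lv c z| ≤ 2 * c.C ∧ |β + c.q z| ≤ c.C := by
  refine ⟨c.rd (-α + β) (-β), ?_, ?_⟩
  · have h1 := lv_rd c (-α + β) (-β)
    have h2 : lv c (c.rd (-α + β) (-β)) - (-α + β + -β) = α + lv c (c.rd (-α + β) (-β)) := by ring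
    rwa [h2] at h1
  · have h1 := c.rd_q (-α + β) (-β)
    have h2 : c.q (c.rd (-α + β) (-β)) - -β = β + c.q (c.rd (-α + β) (-β)) := by ring
    rwa [h2] at h1

/-- All blocks are slow with a fixed probability. -/
theorem blk_all {Q : Par} {g : V → ℝ} {R D : ℝ} {M : Mdl Q.a Q.b} (hM : Good Q g R M) (hD : 3 ≤ D) {c : Crd}
    {r ℓ e₁ κ F' : ℝ} {x₁ : V} (hr : 20 * c.C ≤ r) (hx₁ : |c.q x₁ - 100 * r| ≤ 2 * c.C) (hℓ : ℓ = lv c x₁ - 200 * r)
    (hℓr : 10 * r ≤ ℓ) (he : 0 < e₁) (hR : 100 * c.C * (3 * c.C + ℓ + 300 * r) ≤ R)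
    (hP : κ ≤ M.P (fun τ => e₁ ≤ Tc Q.b c τ 0 x₁ - lv c x₁)) (hF' : Fm M c D (150 * r) ≤ F')
    (hκ : 8 * F' ≤ κ * e₁) (α β : ℝ) :
    κ / 2 ≤ M.P (fun τ => ¬ Cr Q.b c r (10 * r) r ℓ α β (e₁ / 2) τ) := by
  obtain ⟨z, hz1, hz2⟩ := exists_shift c α β
  have h1 := P_Cr_sh hM c r (10 * r) r ℓ α β (e₁ / 2) z
  have h2 : M.P (fun τ => ¬ Cr Q.b c r (10 * r) r ℓ α β (e₁ / 2) τ) =
      M.P (fun τ => ¬ Cr Q.b c r (10 * r) r ℓ (α + lv c z) (β + c.q z) (e₁ / 2) τ) := by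
    rw [M.P_not, M.P_not]
    have h3 : M.P (fun τ => Cr Q.b c r (10 * r) r ℓ (α + lv c z) (β + c.q z) (e₁ / 2) τ) =
      M.P (fun τ => Cr Q.b c r (10 * r) r ℓ α β (e₁ / 2) τ) := h1
    rw [h3]
  rw [h2]
  have hC := c.one_le
  have h4 := blk_cmp hM hD (α := α + lv c z) (β := β + c.q z) hr hx₁ hℓ hℓr (by linarith : e₁ / 2 < e₁)
    (by
      refine le_trans (mul_le_mul_of_nonneg_left ?_ (by linarith)) hR
      linarith)
  have h5 : 2 * Fm M c D (150 * r) / (e₁ - e₁ / 2) ≤ κ / 2 := by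
    rw [div_le_iff₀ (by linarith)]
    nlinarith
  linarith

/-- `(A s ^ n) ^ x ≤ A s ^ (n x)` for `A ≥ 1`, `x ≤ 1`. -/
theorem rpow_mul_le {A s x y : ℝ} (hA : 1 ≤ A) (hs : 1 ≤ s) (hx0 : 0 ≤ x) (hx : x ≤ 1) (n : ℕ) (hy : y = n * x) :
    (A * s ^ n) ^ x ≤ A * s ^ y := by
  have hs0 : 0 < s := by linarith
  rw [Real.mul_rpow (by linarith) (by positivity), ← Real.rpow_natCast s n, ← Real.rpow_mul hs0.le, ← hy]
  refine mul_le_mul_of_nonneg_right ?_ (Real.rpow_nonneg hs0.le _)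
  calc A ^ x ≤ A ^ (1 : ℝ) := Real.rpow_le_rpow_of_exponent_le hA hx
    _ = A := Real.rpow_one A

/-- The long vector: on `Ov` its passage time has an excess at most `m`. -/
theorem excess_Z {Q : Par} {g : V → ℝ} (hg : IsMean Q g) (hM : HasModels Q g) {c : Crd} (hf : FlatS g c) :
    ∃ s₀ : ℝ, 1 ≤ s₀ ∧ ∀ (s ℓ : ℝ) (m : ℕ) (τ : Env), s₀ ≤ s → 1 ≤ ℓ → ℓ ≤ s → s ^ 20 ≤ m → (m : ℝ) ≤ 2 * s ^ 20 →
      Bd Q.a Q.b τ → Ov g (s ^ 22) s τ →
      ∃ Z : V, 2 * m * ℓ + 2 * c.C ≤ lv c Z ∧ lv c Z ≤ 2 * m * ℓ + 10 * c.C ∧ |c.q Z| ≤ 4 * c.C ∧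
        T τ 0 Z ≤ lv c Z + m := by
  obtain ⟨Ce, hCe, hend⟩ := end_rate hg hM hf
  have hC := c.one_le
  obtain ⟨s₁, hs₁, h1⟩ := pow_large (2 * (Ce * (9 * c.C))) (by norm_num : (399 / 20 : ℝ) < 20)
  obtain ⟨s₂, hs₂, h2⟩ := pow_large (2 * (36 * c.C ^ 2)) (by norm_num : (63 / 5 : ℝ) < 20)
  refine ⟨max (max s₁ s₂) (36 * c.C ^ 2), hs₁.trans ((le_max_left _ _).trans (le_max_left _ _)), ?_⟩
  intro s ℓ m τ hs hℓ hℓs hm1 hm2 hτ hOv
  have hs1 : s₁ ≤ s := (le_max_left _ _).trans ((le_max_left _ _).trans hs)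
  have hs2 : s₂ ≤ s := (le_max_right _ _).trans ((le_max_left _ _).trans hs)
  have hs3 : 36 * c.C ^ 2 ≤ s := (le_max_right _ _).trans hs
  have hs0 : 1 ≤ s := hs₁.trans hs1
  have hsp : 0 < s := by linarith
  have e1 := abs_le.1 (c.rd_p (2 * m * ℓ + 5 * c.C) 0)
  have e2 := abs_le.1 (c.rd_q (2 * m * ℓ + 5 * c.C) 0)
  obtain ⟨Z, hZ⟩ : ∃ Z, Z = c.rd (2 * m * ℓ + 5 * c.C) 0 := ⟨_, rfl⟩
  rw [← hZ] at e1 e2
  have hlv : lv c Z = c.p Z + c.q Z := rfl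
  have h20 : (1 : ℝ) ≤ s ^ 20 := one_le_pow₀ hs0
  have h21 : (1 : ℝ) ≤ s ^ 21 := one_le_pow₀ hs0
  have hm0 : (0 : ℝ) ≤ m := Nat.cast_nonneg m
  have hml : (m : ℝ) * ℓ ≤ 2 * s ^ 21 := by
    calc (m : ℝ) * ℓ ≤ (2 * s ^ 20) * s := mul_le_mul hm2 hℓs (by linarith) (by positivity)
      _ = 2 * s ^ 21 := by ring
  have hml0 : 0 ≤ (m : ℝ) * ℓ := mul_nonneg hm0 (by linarith)
  have hC1 : c.C ≤ c.C ^ 2 := by nlinarith
  have hCs : c.C ≤ c.C * s ^ 21 := le_mul_of_one_le_right (by linarith) h21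
  have hn1 : (1 : ℝ) ≤ 2 * m * ℓ + 5 * c.C := by nlinarith
  have hn2 : 2 * m * ℓ + 5 * c.C ≤ 9 * c.C * s ^ 21 := by nlinarith
  have hg1 := hend (2 * m * ℓ + 5 * c.C) Z hn1 (by rw [abs_le]; constructor <;> linarith [e1.1, e1.2])
    (by rw [abs_le]; constructor <;> linarith [e2.1, e2.2])
  have hg2 : Ce * (2 * m * ℓ + 5 * c.C) ^ (19 / 20 : ℝ) ≤ s ^ 20 / 2 := by
    have a1 : (2 * m * ℓ + 5 * c.C) ^ (19 / 20 : ℝ) ≤ (9 * c.C) * s ^ (399 / 20 : ℝ) :=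
      (Real.rpow_le_rpow (by linarith) hn2 (by norm_num)).trans
        (rpow_mul_le (by linarith) hs0 (by norm_num) (by norm_num) 21 (by norm_num))
    have a2 := h1 s hs1
    have a3 : s ^ (20 : ℝ) = s ^ 20 := by exact_mod_cast Real.rpow_natCast s 20
    rw [a3] at a2
    have a4 := mul_le_mul_of_nonneg_left a1 (by linarith : (0 : ℝ) ≤ Ce)
    linarith
  have hnm : nm Z ≤ 36 * c.C ^ 2 * s ^ 21 := by
    refine (nm_le_lq c Z).trans ?_
    have a1 : |lv c Z| ≤ 4 * s ^ 21 + 7 * c.C := by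
      rw [abs_le, hlv]
      constructor <;> linarith [e1.1, e1.2, e2.1, e2.2]
    have a2 : |c.q Z| ≤ c.C := by
      rw [abs_le]
      constructor <;> linarith [e2.1, e2.2]
    have a3 : 2 * c.C * (|lv c Z| + |c.q Z|) ≤ 2 * c.C * (12 * c.C * s ^ 21) := by
      refine mul_le_mul_of_nonneg_left ?_ (by linarith)
      nlinarith
    nlinarith [mul_nonneg (mul_nonneg (by linarith : (0 : ℝ) ≤ c.C) (by linarith : (0 : ℝ) ≤ c.C)) (by linarith : (0 : ℝ) ≤ s ^ 21)]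
  have hnm' : nm Z ≤ s ^ 22 := by
    refine hnm.trans ?_
    have a1 := mul_le_mul_of_nonneg_right hs3 (by positivity : (0 : ℝ) ≤ s ^ 21)
    refine a1.trans (le_of_eq ?_)
    ring
  have hov := hOv 0 Z (by rw [nm_zero]; positivity) hnm'
  rw [sub_zero] at hov
  have hmax : max s (nm Z) ≤ 36 * c.C ^ 2 * s ^ 21 := by
    refine max_le ?_ hnm
    have a1 : s ≤ s ^ 21 := le_self_pow₀ hs0 (by norm_num)
    have a2 : s ^ 21 ≤ 36 * c.C ^ 2 * s ^ 21 := le_mul_of_one_le_left (by positivity) (by nlinarith)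
    linarith
  have hov2 : max s (nm Z) ^ (3 / 5 : ℝ) ≤ s ^ 20 / 2 := by
    have a1 : max s (nm Z) ^ (3 / 5 : ℝ) ≤ (36 * c.C ^ 2) * s ^ (63 / 5 : ℝ) :=
      (Real.rpow_le_rpow (by positivity) hmax (by norm_num)).trans
        (rpow_mul_le (by nlinarith) hs0 (by norm_num) (by norm_num) 21 (by norm_num))
    have a2 := h2 s hs2
    have a3 : s ^ (20 : ℝ) = s ^ 20 := by exact_mod_cast Real.rpow_natCast s 20
    rw [a3] at a2
    linarith
  have h3 := (abs_le.1 hov).2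
  refine ⟨Z, ?_, ?_, ?_, ?_⟩
  · rw [hlv]
    linarith [e1.1, e2.1]
  · rw [hlv]
    linarith [e1.2, e2.2]
  · rw [abs_le]
    constructor <;> linarith [e2.1, e2.2]
  · linarith

end Pool.Agent.W_1b8d5d_fe
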