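import Pool.Agent.W_1b8d5d_fe.Tilt1
import Pool.Agent.W_1b8d5d_fe.SlowA

/-!
MP_1b8d5d_pr (FE): tilting the weights of a block ((7.1) of row 596).
-/

set_option autoImplicit false

namespace Pool.Agent.W_1b8d5d_fe

open Finset Pool.Agent.W_1b8d5d_h85 Filter Topology

private theorem Tilt2_exp : Real.exp (1 / 2) ≤ 2 := by
  have h2 := Real.add_one_le_exp (-(1 / 2 : ℝ))
  have h3 : Real.exp (1 / 2) * Real.exp (-(1 / 2)) = 1 := by
    rw [← Real.exp_add]; simp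
  have h4 := mul_le_mul_of_nonneg_left h2 (Real.exp_pos (1 / 2 : ℝ)).le
  rw [h3] at h4
  linarith

private theorem Tilt2_drop {τ τ' : Env} {x y : V} {w : grid.Walk x y} (hw : w.IsPath) (hle : ∀ e, τ' e ≤ τ e)
    (H : Finset Edge) (hH : ∀ e ∈ H, e ∈ wedges w) :
    cost τ' w ≤ cost τ w - ∑ e ∈ H, (τ e - τ' e) := by
  classical
  rw [cost_path τ' hw, cost_path τ hw]
  have h1 : H ⊆ (wedges w).toFinset := fun e he => List.mem_toFinset.2 (hH e he)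
  have h2 : ∑ e ∈ H, (τ e - τ' e) ≤ ∑ e ∈ (wedges w).toFinset, (τ e - τ' e) :=
    Finset.sum_le_sum_of_subset_of_nonneg h1 fun e _ _ => sub_nonneg.2 (hle e)
  rw [Finset.sum_sub_distrib (s := (wedges w).toFinset)] at h2
  linarith

/-- The box. -/
private theorem Tilt2_box {X : ℝ} (hX : 0 ≤ X) : ∃ B : Finset V, (∀ z : V, nm z ≤ X → z ∈ B) ∧ (∀ z ∈ B, nm z ≤ 2 * X) ∧
    (B.card : ℝ) ≤ (2 * X + 1) ^ 2 := by
  classical
  refine ⟨Finset.Icc (-⌊X⌋) ⌊X⌋ ×ˢ Finset.Icc (-⌊X⌋) ⌊X⌋, ?_, ?_, ?_⟩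
  · intro z h
    unfold nm at h
    have h1 := abs_nonneg (z.1 : ℝ)
    have h2 := abs_nonneg (z.2 : ℝ)
    have h3 : |z.1| ≤ ⌊X⌋ := by
      rw [Int.le_floor]
      push_cast
      linarith
    have h4 : |z.2| ≤ ⌊X⌋ := by
      rw [Int.le_floor]
      push_cast
      linarith
    rw [Finset.mem_product, Finset.mem_Icc, Finset.mem_Icc]
    rw [abs_le] at h3 h4
    exact ⟨h3, h4⟩
  · intro z hz
    rw [Finset.mem_product, Finset.mem_Icc, Finset.mem_Icc] at hz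
    obtain ⟨⟨a1, a2⟩, a3, a4⟩ := hz
    have h0 : (⌊X⌋ : ℝ) ≤ X := Int.floor_le X
    have b1 : |(z.1 : ℝ)| ≤ X := by
      rw [abs_le]
      have c1 : (-(⌊X⌋ : ℤ) : ℝ) ≤ z.1 := by exact_mod_cast a1
      have c2 : (z.1 : ℝ) ≤ (⌊X⌋ : ℤ) := by exact_mod_cast a2
      constructor <;> linarith
    have b2 : |(z.2 : ℝ)| ≤ X := by
      rw [abs_le]
      have c1 : (-(⌊X⌋ : ℤ) : ℝ) ≤ z.2 := by exact_mod_cast a3
      have c2 : (z.2 : ℝ) ≤ (⌊X⌋ : ℤ) := by exact_mod_cast a4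
      constructor <;> linarith
    unfold nm
    linarith
  · rw [Finset.card_product, Int.card_Icc]
    have h1 : 0 ≤ ⌊X⌋ := Int.floor_nonneg.2 hX
    have h2 : ((⌊X⌋ + 1 - -⌊X⌋).toNat : ℤ) = 2 * ⌊X⌋ + 1 := by
      rw [Int.toNat_of_nonneg (by linarith)]
      ring
    have h3 : ((⌊X⌋ + 1 - -⌊X⌋).toNat : ℝ) = 2 * (⌊X⌋ : ℝ) + 1 := by exact_mod_cast h2
    push_cast
    rw [h3]
    have h4 : (⌊X⌋ : ℝ) ≤ X := Int.floor_le X
    have h5 : (0 : ℝ) ≤ ⌊X⌋ := by exact_mod_cast h1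
    rw [pow_two]
    exact mul_le_mul (by linarith) (by linarith) (by linarith) (by linarith)

/-- `s² 2^(-κ s)` is small. -/
private theorem Tilt2_small {κ δ : ℝ} (hκ : 0 < κ) (hδ : 0 < δ) : ∃ s₀ : ℝ, 1 ≤ s₀ ∧ ∀ (s : ℝ) (n : ℕ), s₀ ≤ s → κ * s ≤ n →
    s ^ 2 * (1 / 2 : ℝ) ^ n ≤ δ := by
  have hl : 0 < Real.log 2 := Real.log_pos (by norm_num)
  have hb : 0 < κ * Real.log 2 := by positivity
  have h1 : Tendsto (fun x : ℝ => x ^ 2 * Real.exp (-x)) atTop (𝓝 0) := Real.tendsto_pow_mul_exp_neg_atTop_nhds_zero 2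
  have h2 : ∀ᶠ x : ℝ in atTop, x ^ 2 * Real.exp (-x) < δ * (κ * Real.log 2) ^ 2 := h1.eventually (gt_mem_nhds (by positivity))
  obtain ⟨t, ht⟩ := eventually_atTop.1 h2
  refine ⟨max 1 (t / (κ * Real.log 2)), le_max_left _ _, fun s n hs hn => ?_⟩
  have hs0 : 1 ≤ s := (le_max_left _ _).trans hs
  have h3 : t ≤ κ * Real.log 2 * s := by
    have h4 : t / (κ * Real.log 2) ≤ s := (le_max_right _ _).trans hs
    rw [div_le_iff₀ hb] at h4
    linarith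
  have h5 := (ht _ h3).le
  have h6 : (1 / 2 : ℝ) ^ n ≤ Real.exp (-(κ * Real.log 2 * s)) := by
    have h7 : (1 / 2 : ℝ) ^ n = Real.exp (-(n * Real.log 2)) := by
      rw [Real.exp_neg, Real.exp_nat_mul, Real.exp_log (by norm_num), one_div, inv_pow]
    rw [h7]
    refine Real.exp_le_exp.2 ?_
    have := mul_le_mul_of_nonneg_right hn hl.le
    linarith
  have h7 : s ^ 2 * (1 / 2 : ℝ) ^ n ≤ s ^ 2 * Real.exp (-(κ * Real.log 2 * s)) := mul_le_mul_of_nonneg_left h6 (by positivity)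
  refine h7.trans ?_
  have h8 : (κ * Real.log 2 * s) ^ 2 = (κ * Real.log 2) ^ 2 * s ^ 2 := by ring
  rw [h8] at h5
  have h9 : 0 < (κ * Real.log 2) ^ 2 := by positivity
  have h10 : (κ * Real.log 2) ^ 2 * (s ^ 2 * Real.exp (-(κ * Real.log 2 * s))) ≤ (κ * Real.log 2) ^ 2 * δ := by linarith
  exact le_of_mul_le_mul_left h10 h9

/-- The tilt for a block near the origin. -/
private theorem Tilt2_core {Q : Par} {g : V → ℝ} (hg : IsMean Q g) (c : Crd) (hl : ∀ z, lv c z ≤ g z) :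
    ∃ A C c₇ : ℝ, 1 ≤ A ∧ 1 ≤ C ∧ 0 < c₇ ∧ ∀ (s R : ℝ) (M : Mdl Q.a Q.b), C ≤ s → C * s ^ 4 ≤ R → Good Q g R M →
      ∀ r ℓ α β e : ℝ, s ^ (9 / 10 : ℝ) ≤ r → C * r ≤ s → s / 2 ≤ ℓ → ℓ ≤ s → |α| ≤ 2 * c.C → |β| ≤ c.C → Conf g c r ℓ A s →
        0 ≤ e → e ≤ s ^ (4 / 5 : ℝ) / 4 → 1 / 2 ≤ M.P (Cr Q.b c r (10 * r) r ℓ α β e) →
        1 / 8 ≤ M.P (Cr Q.b c r (10 * r) r ℓ α β (e - c₇ * Real.sqrt (s / r))) := by
  classical
  have ha := Q.ha
  have hab := Q.hab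
  have hK := Q.hK
  have hK0 : 0 < Q.K := by linarith
  have hpl := Q.hpl
  have hsl : 0 < Q.su - Q.sl := by linarith [Q.hs]
  have hC := c.one_le
  have hC0 : 0 < c.C := by linarith
  obtain ⟨A, s₁, c₆, hA, hs₁, hc₆, hhigh⟩ := high_edges hg c hl
  obtain ⟨Cb, hCb, hcard⟩ := card_block c
  obtain ⟨s₂, hs₂, hov⟩ := P_Ov Q g 2 (1 / 16) (by norm_num)
  obtain ⟨s₃, hs₃, hsm⟩ := Tilt2_small (κ := 1 / (8 * c.C)) (δ := 1 / (16 * Q.K * (50 * c.C) ^ 2)) (by positivity) (by positivity)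
  -- the intensity
  obtain ⟨δ, hδ0, hδ1, hδ2, hδ3⟩ : ∃ δ : ℝ, 0 < δ ∧ δ ≤ 1 / 2 ∧ 6 * δ ≤ Q.pl ∧ Q.K * 36 * δ ^ 2 * (10 * Cb) ≤ 1 / 2 := by
    refine ⟨min (1 / 2) (min (Q.pl / 6) (1 / (720 * Q.K * Cb))), by positivity, min_le_left _ _, ?_, ?_⟩
    · have := (min_le_right (1 / 2) (min (Q.pl / 6) (1 / (720 * Q.K * Cb)))).trans (min_le_left _ _)
      linarith
    · have h1 := (min_le_right (1 / 2) (min (Q.pl / 6) (1 / (720 * Q.K * Cb)))).trans (min_le_right _ _)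
      have h2 := min_le_left (1 / 2) (min (Q.pl / 6) (1 / (720 * Q.K * Cb)))
      have h0 : 0 < min (1 / 2) (min (Q.pl / 6) (1 / (720 * Q.K * Cb))) := by positivity
      set x := min (1 / 2) (min (Q.pl / 6) (1 / (720 * Q.K * Cb))) with hx
      have h3 : x ^ 2 ≤ 1 / (720 * Q.K * Cb) := by nlinarith
      calc Q.K * 36 * x ^ 2 * (10 * Cb) = 360 * Q.K * Cb * x ^ 2 := by ring
        _ ≤ 360 * Q.K * Cb * (1 / (720 * Q.K * Cb)) := mul_le_mul_of_nonneg_left h3 (by positivity)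
        _ = 1 / 2 := by field_simp; norm_num
  obtain ⟨C, hCd⟩ : ∃ C : ℝ, C = s₁ + s₂ + s₃ + A + 100 * c.C + (256 / (δ * c₆)) ^ 2 + 4 / Q.a + 20 := ⟨_, rfl⟩
  have hq0 : 0 ≤ (256 / (δ * c₆)) ^ 2 := by positivity
  have h4a : 0 ≤ 4 / Q.a := by positivity
  have hC1 : 1 ≤ C := by linarith
  refine ⟨A, C, (Q.su - Q.sl) * (δ * c₆ / 4), hA, hC1, by positivity, ?_⟩
  intro s R M hs hR hG r ℓ α β e hr hCr hℓ1 hℓ2 hα hβ hconf he0 he hP
  have hs1 : 1 ≤ s := hC1.trans hs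
  have hs0 : 0 < s := by linarith
  have hr0 : 0 < r := lt_of_lt_of_le (by positivity) hr
  have hr1 : 1 ≤ r := (Real.one_le_rpow hs1 (by norm_num)).trans hr
  have hrs : r ≤ s := (le_mul_of_one_le_left hr0.le hC1).trans hCr
  have hCr20 : 20 * r ≤ s := (mul_le_mul_of_nonneg_right (by linarith) hr0.le).trans hCr
  have e45 : s ^ (4 / 5 : ℝ) ≤ s := by
    calc s ^ (4 / 5 : ℝ) ≤ s ^ (1 : ℝ) := Real.rpow_le_rpow_of_exponent_le hs1 (by norm_num)
      _ = s := Real.rpow_one s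
  have hs24 : s ^ 2 ≤ s ^ 4 := pow_le_pow_right₀ hs1 (by norm_num)
  have hss2 : s ≤ s ^ 2 := le_self_pow₀ hs1 (by norm_num)
  have hR4 : C * s ^ 2 ≤ R := (mul_le_mul_of_nonneg_left hs24 (by linarith)).trans hR
  obtain ⟨α1, α2⟩ := abs_le.1 hα
  obtain ⟨β1, β2⟩ := abs_le.1 hβ
  -- the region
  obtain ⟨F, hF⟩ : ∃ F : Finset Edge, F = (Eb_finite c α β (10 * r) ℓ (α - r)).toFinset := ⟨_, rfl⟩
  have hFmem : ∀ d, d ∈ F ↔ d ∈ Eb c α β (10 * r) ℓ (α - r) := by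
    intro d; rw [hF, Set.Finite.mem_toFinset]
  have hFcard : (F.card : ℝ) ≤ 10 * Cb * (s * r) := by
    have h1 := hcard α β (10 * r) ℓ r F (by linarith) (by linarith) hr0.le (by linarith) (fun d hd => (hFmem d).1 hd)
    refine h1.trans ?_
    calc Cb * ℓ * (10 * r) ≤ Cb * s * (10 * r) := by
          refine mul_le_mul_of_nonneg_right (mul_le_mul_of_nonneg_left hℓ2 (by linarith)) (by positivity)
      _ = 10 * Cb * (s * r) := by ring
  have hFR : ∀ d ∈ F, nm d.1 ≤ R := by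
    intro d hd
    refine (Eb_nm ((hFmem d).1 hd)).trans ?_
    have h1 : |α - r| ≤ 2 * c.C + r := by rw [abs_le]; constructor <;> linarith
    have h2 : |α + ℓ| ≤ 2 * c.C + s := by rw [abs_le]; constructor <;> linarith
    have h3 : |α - r| + |α + ℓ| + 2 * c.C + |β| + 10 * r ≤ 50 * s := by linarith
    have h4 := mul_le_mul_of_nonneg_left h3 (by linarith : 0 ≤ 2 * c.C)
    refine h4.trans (le_trans ?_ hR4)
    calc 2 * c.C * (50 * s) = 100 * c.C * s := by ring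
      _ ≤ C * s := mul_le_mul_of_nonneg_right (by linarith) hs0.le
      _ ≤ C * s ^ 2 := mul_le_mul_of_nonneg_left hss2 (by linarith)
  -- the intensity of the tilt
  have hsr : 1 ≤ s * r := by nlinarith
  have hq : 1 ≤ Real.sqrt (s * r) := Real.one_le_sqrt.2 hsr
  have hq0' : 0 < Real.sqrt (s * r) := by linarith
  have hqq : Real.sqrt (s * r) ^ 2 = s * r := Real.sq_sqrt (by linarith)
  obtain ⟨d, hd⟩ : ∃ d : ℝ, d = δ / Real.sqrt (s * r) := ⟨_, rfl⟩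
  have hd0 : 0 ≤ d := by rw [hd]; positivity
  have hdδ : d ≤ δ := by rw [hd]; exact div_le_self hδ0.le hq
  have hexp : Real.exp (Q.K * ((6 : ℕ) : ℝ) ^ 2 * d ^ 2 * F.card) ≤ 2 := by
    refine (Real.exp_le_exp.2 ?_).trans Tilt2_exp
    have h1 : d ^ 2 * F.card ≤ δ ^ 2 * (10 * Cb) := by
      rw [hd, div_pow, hqq, div_mul_eq_mul_div, div_le_iff₀ (by positivity)]
      calc δ ^ 2 * F.card ≤ δ ^ 2 * (10 * Cb * (s * r)) := mul_le_mul_of_nonneg_left hFcard (by positivity)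
        _ = δ ^ 2 * (10 * Cb) * (s * r) := by ring
    calc Q.K * ((6 : ℕ) : ℝ) ^ 2 * d ^ 2 * F.card = Q.K * 36 * (d ^ 2 * F.card) := by push_cast; ring
      _ ≤ Q.K * 36 * (δ ^ 2 * (10 * Cb)) := mul_le_mul_of_nonneg_left h1 (by positivity)
      _ = Q.K * 36 * δ ^ 2 * (10 * Cb) := by ring
      _ ≤ 1 / 2 := hδ3
  have hsqrt : s / Real.sqrt (s * r) = Real.sqrt (s / r) := by
    rw [Real.sqrt_mul hs0.le, Real.sqrt_div hs0.le, div_mul_eq_div_div]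
    congr 1
    rw [div_eq_iff (by positivity)]
    exact (Real.mul_self_sqrt hs0.le).symm
  have hdk : d * (c₆ * s) = δ * c₆ * Real.sqrt (s / r) := by
    rw [hd, ← hsqrt]; ring
  have hbig : 256 ≤ δ * c₆ * Real.sqrt (s / r) := by
    have h1 : (256 / (δ * c₆)) ^ 2 ≤ s / r := by
      rw [le_div_iff₀ hr0]
      refine le_trans (mul_le_mul_of_nonneg_right ?_ hr0.le) hCr
      linarith
    have h2 : 256 / (δ * c₆) ≤ Real.sqrt (s / r) := Real.le_sqrt_of_sq_le h1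
    rw [div_le_iff₀ (by positivity)] at h2
    linarith
  have hk : Real.exp (-(d * (c₆ * s) / 16)) ≤ 1 / 16 := by
    rw [hdk]
    have h2 : 16 ≤ δ * c₆ * Real.sqrt (s / r) / 16 := by linarith
    have h3 := Real.add_one_le_exp (δ * c₆ * Real.sqrt (s / r) / 16)
    rw [Real.exp_neg]
    have h4 : 16 ≤ Real.exp (δ * c₆ * Real.sqrt (s / r) / 16) := by linarith
    have h5 : (16 : ℝ)⁻¹ = 1 / 16 := by norm_num
    rw [← h5]
    exact inv_anti₀ (by norm_num) h4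
  -- the bad event
  obtain ⟨B, hB1, hB2, hB3⟩ := Tilt2_box (X := 20 * c.C * s) (by positivity)
  obtain ⟨n, hn⟩ : ∃ n : ℕ, n = ⌈1 / (8 * c.C) * s⌉₊ := ⟨_, rfl⟩
  have hκs : 0 < 1 / (8 * c.C) * s := by positivity
  have hn1 : 1 ≤ n := by rw [hn]; exact Nat.one_le_ceil_iff.2 hκs
  have hn2 : 1 / (8 * c.C) * s ≤ n := by rw [hn]; exact Nat.le_ceil _
  let Bad : Env → Prop := fun τ => ∃ x ∈ B, ∃ (y : V) (w : grid.Walk x y),
    w.IsPath ∧ n ≤ w.length ∧ (w.length : ℝ) ≤ R ∧ (nHigh Q.su τ w : ℝ) < w.length / 2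
  have hBad : M.P Bad ≤ 1 / 16 := by
    refine (M.P_exists_le B (fun x τ => ∃ (y : V) (w : grid.Walk x y),
      w.IsPath ∧ n ≤ w.length ∧ (w.length : ℝ) ≤ R ∧ (nHigh Q.su τ w : ℝ) < w.length / 2)).trans ?_
    have h2 : ∀ x ∈ B, M.P (fun τ => ∃ (y : V) (w : grid.Walk x y),
      w.IsPath ∧ n ≤ w.length ∧ (w.length : ℝ) ≤ R ∧ (nHigh Q.su τ w : ℝ) < w.length / 2) ≤ Q.K * (1 / 2) ^ n := by
      intro x hx
      refine hG.peierls _ _ ?_ hn1
      refine (hB2 x hx).trans (le_trans ?_ hR4)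
      calc 2 * (20 * c.C * s) = 40 * c.C * s := by ring
        _ ≤ C * s := mul_le_mul_of_nonneg_right (by linarith) hs0.le
        _ ≤ C * s ^ 2 := mul_le_mul_of_nonneg_left hss2 (by linarith)
    refine (Finset.sum_le_sum h2).trans ?_
    rw [Finset.sum_const, nsmul_eq_mul]
    have h3 := hsm s n (by linarith) hn2
    have h4 : (B.card : ℝ) ≤ (50 * c.C) ^ 2 * s ^ 2 := by
      refine hB3.trans ?_
      rw [← mul_pow]
      refine pow_le_pow_left₀ (by positivity) ?_ 2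
      have : 1 ≤ c.C * s := by nlinarith
      linarith
    calc (B.card : ℝ) * (Q.K * (1 / 2) ^ n) ≤ (50 * c.C) ^ 2 * s ^ 2 * (Q.K * (1 / 2) ^ n) :=
          mul_le_mul_of_nonneg_right h4 (by positivity)
      _ = Q.K * (50 * c.C) ^ 2 * (s ^ 2 * (1 / 2) ^ n) := by ring
      _ ≤ Q.K * (50 * c.C) ^ 2 * (1 / (16 * Q.K * (50 * c.C) ^ 2)) := mul_le_mul_of_nonneg_left h3 (by positivity)
      _ = 1 / 16 := by field_simp
  have hOvP := hov s R M (by linarith) (le_trans (mul_le_mul_of_nonneg_right (by linarith) (by positivity)) hR4)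
    ((hss2.trans (le_mul_of_one_le_left (by positivity) hC1)).trans hR4) hG
  have hgood : 3 / 8 ≤ M.P (fun τ => Cr Q.b c r (10 * r) r ℓ α β e τ ∧ Ov g (s ^ 2) s τ ∧ ¬ Bad τ) := by
    have h1 := M.P_or (fun τ => (Cr Q.b c r (10 * r) r ℓ α β e τ ∧ Ov g (s ^ 2) s τ ∧ ¬ Bad τ) ∨ Bad τ) (fun τ => ¬ Ov g (s ^ 2) s τ)
    have h2 := M.P_or (fun τ => Cr Q.b c r (10 * r) r ℓ α β e τ ∧ Ov g (s ^ 2) s τ ∧ ¬ Bad τ) Bad
    have h3 : M.P (Cr Q.b c r (10 * r) r ℓ α β e) ≤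
        M.P (fun τ => ((Cr Q.b c r (10 * r) r ℓ α β e τ ∧ Ov g (s ^ 2) s τ ∧ ¬ Bad τ) ∨ Bad τ) ∨ ¬ Ov g (s ^ 2) s τ) := by
      refine M.P_mono fun τ _ h => ?_
      by_cases h4 : Ov g (s ^ 2) s τ
      · by_cases h5 : Bad τ
        · exact Or.inl (Or.inr h5)
        · exact Or.inl (Or.inl ⟨h, h4, h5⟩)
      · exact Or.inr h4
    linarith
  -- the chosen edges
  have hch : ∀ ω : M.Ω, ∃ H : Finset Edge,
      (Cr Q.b c r (10 * r) r ℓ α β e (M.env ω) ∧ Ov g (s ^ 2) s (M.env ω) ∧ ¬ Bad (M.env ω)) →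
      (H ⊆ F ∧ (∀ d ∈ H, Q.su ≤ M.env ω d) ∧ c₆ * s ≤ (H.card : ℝ)) ∧
      ∀ τ' : Env, Bd Q.a Q.b τ' → (∀ d, τ' d ≤ M.env ω d) →
        Cr Q.b c r (10 * r) r ℓ α β (e - ∑ d ∈ H, (M.env ω d - τ' d)) τ' := by
    intro ω
    by_cases hω : Cr Q.b c r (10 * r) r ℓ α β e (M.env ω) ∧ Ov g (s ^ 2) s (M.env ω) ∧ ¬ Bad (M.env ω)
    · obtain ⟨⟨x, y, hwin, hKc⟩, hO, hnb⟩ := hω
      have hτ : Bd Q.a Q.b (M.env ω) := M.bd ω
      obtain ⟨u, hu⟩ := exists_geo (Bd_res hab.le hτ (Eb c α β (10 * r) ℓ (lv c x))) ha x y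
      obtain ⟨⟨x1, x2, x3⟩, y1, y2, y3⟩ := hwin
      obtain ⟨x3a, x3b⟩ := abs_le.1 x3
      have hxn : nm x ≤ 20 * c.C * s := by
        have h1 := nm_le_lq c x
        have h2 : |lv c x| ≤ 5 * c.C + r := by rw [abs_le]; constructor <;> linarith
        have h3 : |c.q x| ≤ c.C + 2 * r := by rw [abs_le]; constructor <;> linarith
        have h4 : |lv c x| + |c.q x| ≤ 10 * s := by linarith
        have h5 := mul_le_mul_of_nonneg_left h4 (by linarith : 0 ≤ 2 * c.C)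
        linarith
      have hlyx : lv c (y - x) = lv c y - lv c x := lv_sub c _ _
      have hnyx : 1 / (8 * c.C) * s ≤ nm (y - x) := by
        have h1 := (le_abs_self _).trans (lv_le_nm c (y - x))
        rw [hlyx] at h1
        have h2 : s / 4 ≤ 2 * c.C * nm (y - x) := by linarith
        rw [one_div, inv_mul_le_iff₀ (by positivity)]
        linarith
      have hul1 : nm (y - x) ≤ u.length := nm_le_length u
      have hTu : T (res Q.b (Eb c α β (10 * r) ℓ (lv c x)) (M.env ω)) x y ≤ lv c (y - x) + e := hKc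
      have hul2 : (u.length : ℝ) ≤ R := by
        have h1 := le_cost (Bd_res hab.le hτ (Eb c α β (10 * r) ℓ (lv c x))) u
        rw [hu.2] at h1
        have h2 : Q.a * u.length ≤ 4 * s := by
          refine h1.trans (hTu.trans ?_)
          rw [hlyx]
          linarith
        have h3 : (u.length : ℝ) ≤ 4 / Q.a * s := by
          rw [div_mul_eq_mul_div, le_div_iff₀ ha]
          linarith
        refine h3.trans (le_trans ?_ hR4)
        calc 4 / Q.a * s ≤ C * s := mul_le_mul_of_nonneg_right (by linarith) hs0.le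
          _ ≤ C * s ^ 2 := mul_le_mul_of_nonneg_left hss2 (by linarith)
      have hhalf : (u.length : ℝ) / 2 ≤ nHigh Q.su (M.env ω) u := by
        by_contra hcon
        push Not at hcon
        refine hnb ⟨x, hB1 x hxn, y, u, hu.1, ?_, hul2, hcon⟩
        rw [hn]
        exact Nat.ceil_le.2 (hnyx.trans hul1)
      obtain ⟨H, hH1, hH2⟩ := hhigh s r ℓ (s ^ 2) α β e (M.env ω) x y u (by linarith) hr (by linarith) hℓ1 hℓ2 hτ hO hconf
        ⟨⟨x1, x2, x3⟩, y1, y2, y3⟩ (by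
          have h1 : 20 * c.C * s + A * s ≤ s * s := by
            have : 20 * c.C + A ≤ s := by linarith
            nlinarith
          rw [pow_two]
          linarith) he hKc hu hhalf
      refine ⟨H, fun _ => ⟨⟨?_, ?_, hH2⟩, ?_⟩⟩
      · intro d hd
        exact (hFmem d).2 (Eb_mono le_rfl x1 (hH1 d hd).2.1)
      · intro d hd
        exact (hH1 d hd).2.2
      · intro τ' hτ' hle
        refine ⟨x, y, ⟨⟨x1, x2, x3⟩, y1, y2, y3⟩, ?_⟩
        show T (res Q.b (Eb c α β (10 * r) ℓ (lv c x)) τ') x y ≤ _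
        have h1 := T_le_cost (Bd_res hab.le hτ' (Eb c α β (10 * r) ℓ (lv c x))) ha.le u
        have h2 := Tilt2_drop hu.1 (τ := res Q.b (Eb c α β (10 * r) ℓ (lv c x)) (M.env ω))
          (τ' := res Q.b (Eb c α β (10 * r) ℓ (lv c x)) τ') (fun d => by
            unfold res
            split_ifs
            · exact hle d
            · exact le_rfl) H (fun d hd => (hH1 d hd).1)
        have h3 : ∑ d ∈ H, (res Q.b (Eb c α β (10 * r) ℓ (lv c x)) (M.env ω) d - res Q.b (Eb c α β (10 * r) ℓ (lv c x)) τ' d) =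
            ∑ d ∈ H, (M.env ω d - τ' d) := by
          refine Finset.sum_congr rfl fun d hd => ?_
          unfold res
          rw [if_pos (hH1 d hd).2.1, if_pos (hH1 d hd).2.1]
        rw [h3, hu.2] at h2
        linarith
    · exact ⟨∅, fun h => absurd h hω⟩
  choose Hs hHs using hch
  have key := Pool.Agent.W_1b8d5d_c1.tilt_transfer (toC1 hG) F d hFR hd0 (by linarith) 6 (by push_cast; linarith)
    (fun ω => Cr Q.b c r (10 * r) r ℓ α β e (M.env ω) ∧ Ov g (s ^ 2) s (M.env ω) ∧ ¬ Bad (M.env ω))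
    (fun ω => Cr Q.b c r (10 * r) r ℓ α β (e - (Q.su - Q.sl) * (δ * c₆ / 4) * Real.sqrt (s / r)) (M.env ω))
    Hs (c₆ * s) (fun ω hω => (hHs ω hω).1) (fun ω ω' hω hle hsum => by
      refine Cr_mono ha.le hab.le (M.bd ω') le_rfl le_rfl ?_ ((hHs ω hω).2 (M.env ω') (M.bd ω') hle)
      have h1 : (Q.su - Q.sl) * (d * (c₆ * s) / 4) = (Q.su - Q.sl) * (δ * c₆ / 4) * Real.sqrt (s / r) := by
        rw [hdk]
        ring
      linarith)
  have h4 : Pr (fun ω => Cr Q.b c r (10 * r) r ℓ α β e (M.env ω) ∧ Ov g (s ^ 2) s (M.env ω) ∧ ¬ Bad (M.env ω)) =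
      M.P (fun τ => Cr Q.b c r (10 * r) r ℓ α β e τ ∧ Ov g (s ^ 2) s τ ∧ ¬ Bad τ) := rfl
  have h5 : Pr (fun ω => Cr Q.b c r (10 * r) r ℓ α β (e - (Q.su - Q.sl) * (δ * c₆ / 4) * Real.sqrt (s / r)) (M.env ω)) =
      M.P (Cr Q.b c r (10 * r) r ℓ α β (e - (Q.su - Q.sl) * (δ * c₆ / 4) * Real.sqrt (s / r))) := rfl
  rw [h4, h5] at key
  have h6 : 2 * (1 / 2 : ℝ) ^ 6 * Real.exp (Q.K * ((6 : ℕ) : ℝ) ^ 2 * d ^ 2 * F.card) ≤ 1 / 16 := by
    refine (mul_le_mul_of_nonneg_left hexp (by positivity)).trans ?_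
    norm_num
  linarith

/-- The tilt.  PROOF. By `P_Cr_sh` we may assume `|α|, |β| ≤ 2 C` (the hypothesis and the conclusion are translated).  `L = s ^ 2`.  The event `E`: `Cr (e)`, `Ov g (s ^ 2) s` and, for every `x` with `nm x ≤ s ^ 2`, no path from `x` of length between
`s ^ (1/2)` and `R` has less than half of its edges high (`Good.peierls`; at most `C s ^ 4` points `x`, so the exceptional probability is `≤ 1/16`); `P E ≥ 3/8`.  For `ω ∈ E` choose `x, y` and a geodesic `u` of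
`res b (Eb .. (lv x)) (env ω)` and `Hs ω` the set `F` of `high_edges`, `k = c₆ s`.  The region `C` of the tilt is the finite set of the edges of `Eb c α β (10 r) ℓ (α - r)` (`Eb_finite`), of cardinality `≤ C s r` (`card_block`).
`Pool.Agent.W_1b8d5d_c1.tilt_transfer` (`toC1`) with `d = δ / √(s r)`, `δ` so small that `exp (K 36 d² C s r) ≤ 2` and `6 d ≤ pl`, `m = 6`; lowering the weights of `Hs ω` by a total amount `D` lowers the cost of `u` (for the weights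
`res b (Eb .. (lv x))`) by `D` (`cost_path`, as in `Ts_drop`), so `Cr (e - (su - sl) d k / 4)` occurs.  `exp (- d k / 16) ≤ 1/16` if `s / r ≥ C`. -/
theorem tilt_cr {Q : Par} {g : V → ℝ} (hg : IsMean Q g) (c : Crd) (hl : ∀ z, lv c z ≤ g z) :
    ∃ A C c₇ : ℝ, 1 ≤ A ∧ 1 ≤ C ∧ 0 < c₇ ∧ ∀ (s R : ℝ) (M : Mdl Q.a Q.b), C ≤ s → C * s ^ 4 ≤ R → Good Q g R M →
      ∀ r ℓ α β e : ℝ, s ^ (9 / 10 : ℝ) ≤ r → C * r ≤ s → s / 2 ≤ ℓ → ℓ ≤ s → Conf g c r ℓ A s →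
        0 ≤ e → e ≤ s ^ (4 / 5 : ℝ) / 4 → 1 / 2 ≤ M.P (Cr Q.b c r (10 * r) r ℓ α β e) →
        1 / 8 ≤ M.P (Cr Q.b c r (10 * r) r ℓ α β (e - c₇ * Real.sqrt (s / r))) := by
  obtain ⟨A, C, c₇, hA, hC, hc₇, h⟩ := Tilt2_core hg c hl
  refine ⟨A, C, c₇, hA, hC, hc₇, ?_⟩
  intro s R M hs hR hG r ℓ α β e hr hCr hℓ1 hℓ2 hconf he0 he hP
  obtain ⟨z, h1, h2⟩ := exists_shift c α β
  have h3 := h s R M hs hR hG r ℓ (α + lv c z) (β + c.q z) e hr hCr hℓ1 hℓ2 h1 h2 hconf he0 he (by rw [P_Cr_sh hG]; exact hP)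
  rwa [P_Cr_sh hG] at h3

end Pool.Agent.W_1b8d5d_fe
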