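import Pool.Agent.W_1b8d5d_fe.Slow
import Pool.Agent.W_1b8d5d_fe.Tilt2

/-!
MP_1b8d5d_pr (FE): no polynomial contact at the end points of a flat piece (section 7 of row 596).
-/

set_option autoImplicit false

namespace Pool.Agent.W_1b8d5d_fe

open Finset Pool.Agent.W_1b8d5d_h85

/-- `Conf` is monotone in `A`. -/
private theorem Core_conf {g : V → ℝ} {c : Crd} {r ℓ A A' s : ℝ} (hs : 0 ≤ s) (hA : A' ≤ A) (h : Conf g c r ℓ A s) :
    Conf g c r ℓ A' s := fun u v h1 h2 h3 h4 h5 =>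
  h u v h1 h2 h3 h4 (h5.trans (mul_le_mul_of_nonneg_right hA hs))

/-- Real powers of natural powers. -/
private theorem Core_rpow {u : ℝ} (hu : 0 ≤ u) {n k : ℕ} {q : ℝ} (h : (n : ℝ) * q = k) :
    (u ^ n) ^ q = u ^ k := by
  rw [← Real.rpow_natCast u n, ← Real.rpow_mul hu, h, Real.rpow_natCast]

/-- The scales. -/
private theorem Core_scales (K : ℕ) {t : ℝ} (ht : 0 < t) (ht1 : t ≤ 1) : ∃ u s : ℝ, 1 ≤ u ∧ s = (1 / t) ^ (10 * (K + 1)) ∧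
    t = 1 / u ^ 8 ∧ s = u ^ (80 * (K + 1)) ∧ Real.sqrt t = 1 / u ^ 4 := by
  have h1 : 1 ≤ 1 / t := by
    rw [le_div_iff₀ ht]
    linarith
  have h0 : 0 ≤ 1 / t := by positivity
  set u : ℝ := (1 / t) ^ (1 / 8 : ℝ) with hu
  have hu8 : u ^ 8 = 1 / t := by
    rw [hu, ← Real.rpow_natCast, ← Real.rpow_mul h0]
    norm_num
  have hu1 : 1 ≤ u := Real.one_le_rpow h1 (by norm_num)
  have hu0 : 0 < u := lt_of_lt_of_le one_pos hu1
  have ht8 : t = 1 / u ^ 8 := by rw [hu8, one_div_one_div]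
  refine ⟨u, (1 / t) ^ (10 * (K + 1)), hu1, rfl, ht8, ?_, ?_⟩
  · rw [← hu8, ← pow_mul]
    congr 1
    ring
  · have h2 : t = (1 / u ^ 4) ^ 2 := by
      rw [ht8, div_pow, one_pow, ← pow_mul]
    rw [h2]
    exact Real.sqrt_sq (by positivity)

/-- The numerical facts about the scales. -/
private structure CoreNum (K : ℕ) (W u s t r : ℝ) : Prop where
  W1 : 1 ≤ W
  WW : 10000 * W ^ 2 ≤ u
  Wu : 10000 * W ≤ u
  u4 : u ≤ u ^ 4
  us : u ≤ s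
  s0 : 0 < s
  r0 : 0 < r
  r1 : 1 ≤ r
  rs : 10000 * r ≤ s
  ru : r * u ^ 4 = s
  r910 : s ^ (9 / 10 : ℝ) ≤ r
  sr : Real.sqrt (s / r) = u ^ 2
  s45 : u ^ 64 ≤ s ^ (4 / 5 : ℝ)
  s35 : (t * s + s ^ (3 / 5 : ℝ) / t ^ K) * u ^ 4 ≤ 2 * r
  s710 : s ^ (7 / 10 : ℝ) ≤ s
  s101 : (s ^ 101) ^ (((8080 * (K + 1) : ℕ) : ℝ)⁻¹) = u

private theorem Core_num {K : ℕ} {W u s t : ℝ} (hW1 : 1 ≤ W) (hu1 : 1 ≤ u) (hW : 10000 * W ^ 2 ≤ u) (ht : t = 1 / u ^ 8)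
    (hs : s = u ^ (80 * (K + 1))) : CoreNum K W u s t (1 / u ^ 4 * s) := by
  have hu0 : 0 < u := lt_of_lt_of_le one_pos hu1
  have hu0' := hu0.le
  have hs1 : 1 ≤ s := by
    rw [hs]
    exact one_le_pow₀ hu1
  have hs0 : 0 < s := lt_of_lt_of_le one_pos hs1
  have hru : 1 / u ^ 4 * s * u ^ 4 = s := by
    field_simp
  have h910 : s ^ (9 / 10 : ℝ) = u ^ (72 * (K + 1)) := by
    rw [hs]
    exact Core_rpow hu0' (by push_cast; ring)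
  have h45 : s ^ (4 / 5 : ℝ) = u ^ (64 * (K + 1)) := by
    rw [hs]
    exact Core_rpow hu0' (by push_cast; ring)
  have h35 : s ^ (3 / 5 : ℝ) = u ^ (48 * (K + 1)) := by
    rw [hs]
    exact Core_rpow hu0' (by push_cast; ring)
  have hW2 : W ≤ W ^ 2 := le_self_pow₀ hW1 (by norm_num)
  have hu4 : u ≤ u ^ 4 := le_self_pow₀ hu1 (by norm_num)
  have hr0 : 0 < 1 / u ^ 4 * s := by positivity
  have hr910 : s ^ (9 / 10 : ℝ) ≤ 1 / u ^ 4 * s := by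
    rw [h910, hs, one_div_mul_eq_div, le_div_iff₀ (by positivity), ← pow_add]
    exact pow_le_pow_right₀ hu1 (by omega)
  refine ⟨hW1, hW, by linarith only [hW, hW2], hu4, ?_, hs0, hr0, (Real.one_le_rpow hs1 (by norm_num)).trans hr910, ?_, hru,
    hr910, ?_, ?_, ?_, ?_, ?_⟩
  · rw [hs]
    exact le_self_pow₀ hu1 (by omega)
  · calc 10000 * (1 / u ^ 4 * s) = (1 / u ^ 4 * s) * 10000 := mul_comm _ _
      _ ≤ (1 / u ^ 4 * s) * u ^ 4 := mul_le_mul_of_nonneg_left (by linarith only [hW, hW2, hW1, hu4]) hr0.le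
      _ = s := hru
  · have h1 : s / (1 / u ^ 4 * s) = (u ^ 2) ^ 2 := by
      rw [div_eq_iff (by positivity), ← pow_mul]
      field_simp
    rw [h1]
    exact Real.sqrt_sq (by positivity)
  · rw [h45]
    exact pow_le_pow_right₀ hu1 (by omega)
  · have h1 : (1 / u ^ 4 * s) = u ^ (80 * K + 76) := by
      rw [hs, one_div_mul_eq_div, div_eq_iff (by positivity), ← pow_add]
      congr 1
    have h2 : t * s = u ^ (80 * K + 72) := by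
      rw [hs, ht, one_div_mul_eq_div, div_eq_iff (by positivity), ← pow_add]
      congr 1
    have h3 : s ^ (3 / 5 : ℝ) / t ^ K = u ^ (56 * K + 48) := by
      rw [h35, ht, div_pow, one_pow, ← pow_mul, div_div_eq_mul_div, div_one, ← pow_add]
      congr 1
      ring
    rw [h1, h2, h3, add_mul, ← pow_add, ← pow_add]
    have h4 : u ^ (80 * K + 72 + 4) ≤ u ^ (80 * K + 76) := pow_le_pow_right₀ hu1 (by omega)
    have h5 : u ^ (56 * K + 48 + 4) ≤ u ^ (80 * K + 76) := pow_le_pow_right₀ hu1 (by omega)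
    linarith only [h4, h5]
  · calc s ^ (7 / 10 : ℝ) ≤ s ^ (1 : ℝ) := Real.rpow_le_rpow_of_exponent_le hs1 (by norm_num)
      _ = s := Real.rpow_one s
  · have h1 : s ^ 101 = u ^ (8080 * (K + 1)) := by
      rw [hs, ← pow_mul]
      congr 1
      ring
    rw [h1]
    exact Real.pow_rpow_inv_natCast hu0' (by omega)

/-- `x s ^ k ≤ s ^ n` for `x ≤ s`, `k + 1 ≤ n`. -/
private theorem Core_mul {s x : ℝ} (hs : 1 ≤ s) (hx : x ≤ s) {k n : ℕ} (h : k + 1 ≤ n) : x * s ^ k ≤ s ^ n := by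
  have h0 : 0 ≤ s ^ k := pow_nonneg (zero_le_one.trans hs) k
  calc x * s ^ k ≤ s * s ^ k := mul_le_mul_of_nonneg_right hx h0
    _ = s ^ (k + 1) := (pow_succ' s k).symm
    _ ≤ s ^ n := pow_le_pow_right₀ hs h

/-- The number `e₀`. -/
private theorem Core_e0 {K : ℕ} {W u s t r C c₇ : ℝ} (hn : CoreNum K W u s t r) (hC : 1 ≤ C) (hc₇ : 0 < c₇) (h1 : C ≤ W)
    (h2 : c₇ ≤ W) (h3 : 1 / c₇ ≤ W) : 10000 * C ≤ c₇ * u ∧ c₇ / 2 * u ^ 2 ≤ s ^ (4 / 5 : ℝ) / 4 := by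
  have hW0 : 0 ≤ W := by linarith only [hn.W1]
  have hu0 : 0 ≤ u := by linarith only [hn.Wu, hn.W1]
  have hu1 : 1 ≤ u := by linarith only [hn.Wu, hn.W1]
  constructor
  · have a1 : 1 / c₇ * C ≤ W ^ 2 := by
      rw [sq]
      exact mul_le_mul h3 h1 (by linarith only [hC]) hW0
    have a2 : c₇ * (10000 * (1 / c₇ * C)) = 10000 * C := by field_simp
    have a3 : c₇ * (10000 * (1 / c₇ * C)) ≤ c₇ * u :=
      mul_le_mul_of_nonneg_left (by linarith only [a1, hn.WW]) hc₇.le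
    linarith only [a2, a3]
  · have a1 : c₇ / 2 * u ^ 2 ≤ u / 2 * u ^ 2 :=
      mul_le_mul_of_nonneg_right (by linarith only [h2, hn.Wu, hW0]) (by positivity)
    have a2 : u ^ 4 ≤ u ^ 64 := pow_le_pow_right₀ hu1 (by norm_num)
    have a3 : 2 * u ^ 3 ≤ u ^ 4 := Core_mul hu1 (by linarith only [hn.Wu, hn.W1]) (by norm_num)
    have a4 := hn.s45
    have a5 : u / 2 * u ^ 2 = u ^ 3 / 2 := by ring
    linarith only [a1, a2, a3, a4, a5]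

/-- The narrow blocks are slow. -/
private theorem Core_half {Q : Par} {g : V → ℝ} {c : Crd} {K : ℕ} {W u s t r Ct C₁ c₇ R : ℝ} {M : Mdl Q.a Q.b}
    (hn : CoreNum K W u s t r) (hG : Good Q g R M) (hR : s ^ 25 ≤ R) (hC₁ : 1 ≤ C₁) (h1 : C₁ ≤ W)
    (h2 : Ct ≤ W) (hc₇ : 10000 * c.C ≤ c₇ * u) (hF : ∀ n : ℝ, s ≤ n → n ≤ s ^ 101 → Fm M c 3 n ≤ u)
    (htilt : Ct ≤ s → Ct * s ^ 4 ≤ R → Ct * r ≤ s → ∀ α β : ℝ, 1 / 2 ≤ M.P (Cr Q.b c r (10 * r) r s α β (c₇ / 2 * u ^ 2)) →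
      1 / 8 ≤ M.P (Cr Q.b c r (10 * r) r s α β (c₇ / 2 * u ^ 2 - c₇ * Real.sqrt (s / r))))
    (hbig : ∀ N : ℝ, C₁ ≤ N → C₁ * N ^ 12 ≤ R → ∀ w w₁ α β y : ℝ, 2 * r ≤ w → 1 ≤ w → w₁ ≤ w → C₁ * (w + s) ≤ N →
      C₁ * (w * s) ≤ M.P (Cr Q.b c r w w₁ s α β (-y)) * N ^ 2 → y ≤ 8 * Fm M c 3 (C₁ * N) + C₁) (α β : ℝ) :
    M.P (Cr Q.b c r (10 * r) r s α β (c₇ / 2 * u ^ 2)) ≤ 1 / 2 := by
  by_contra h
  push Not at h
  have hC := c.one_le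
  have hu0 : 0 < u := by linarith only [hn.Wu, hn.W1]
  have hs0 := hn.s0
  have hr0 := hn.r0
  have hs1 : 1 ≤ s := by linarith only [hn.us, hn.Wu, hn.W1]
  have hWs : 10000 * W ≤ s := by linarith only [hn.us, hn.Wu]
  have hC₁s : C₁ ≤ s := by linarith only [h1, hWs, hn.W1]
  have hCts : Ct ≤ s := by linarith only [h2, hWs, hn.W1]
  have a1 := htilt hCts ((Core_mul hs1 hCts (by norm_num)).trans hR) (by
    rw [← hn.ru, mul_comm]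
    exact mul_le_mul_of_nonneg_left (by linarith only [h2, hn.Wu, hn.u4, hn.W1]) hr0.le) α β h.le
  rw [hn.sr, show c₇ / 2 * u ^ 2 - c₇ * u ^ 2 = -(c₇ / 2 * u ^ 2) by ring] at a1
  have b1 : C₁ * (10 * r + s) ≤ s ^ 2 := by
    have h3 : 10 * r + s ≤ 2 * s := by linarith only [hn.rs, hn.r0]
    calc C₁ * (10 * r + s) ≤ C₁ * (2 * s) := mul_le_mul_of_nonneg_left h3 (by linarith only [hC₁])
      _ = (2 * C₁) * s ^ 1 := by ring
      _ ≤ s ^ 2 := Core_mul hs1 (by linarith only [h1, hWs, hn.W1]) le_rfl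
  have b2 : C₁ * (10 * r * s) ≤ M.P (Cr Q.b c r (10 * r) r s α β (-(c₇ / 2 * u ^ 2))) * (s ^ 2) ^ 2 := by
    have h3 : C₁ * (10 * r * s) ≤ s ^ 3 := by
      calc C₁ * (10 * r * s) ≤ s * (s * s) :=
            mul_le_mul hC₁s (mul_le_mul_of_nonneg_right (by linarith only [hn.rs, hn.r0]) hs0.le) (by positivity) hs0.le
        _ = s ^ 3 := by ring
    have h4 : 8 * s ^ 3 ≤ s ^ 4 := Core_mul hs1 (by linarith only [hWs, hn.W1]) le_rfl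
    have h5 : 1 / 8 * (s ^ 2) ^ 2 ≤ M.P (Cr Q.b c r (10 * r) r s α β (-(c₇ / 2 * u ^ 2))) * (s ^ 2) ^ 2 :=
      mul_le_mul_of_nonneg_right a1 (by positivity)
    have h6 : (s ^ 2) ^ 2 = s ^ 4 := by ring
    rw [h6] at h5 ⊢
    linarith only [h3, h4, h5]
  have a2 := hbig (s ^ 2) (by
      calc C₁ ≤ s := hC₁s
        _ ≤ s ^ 2 := le_self_pow₀ hs1 (by norm_num)) (by
      calc C₁ * (s ^ 2) ^ 12 = C₁ * s ^ 24 := by ring
        _ ≤ s ^ 25 := Core_mul hs1 hC₁s le_rfl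
        _ ≤ R := hR) (10 * r) r α β (c₇ / 2 * u ^ 2) (by linarith only [hr0]) (by linarith only [hn.r1])
      (by linarith only [hr0]) b1 b2
  have a3 := hF (C₁ * s ^ 2) (by
      calc s ≤ s ^ 2 := le_self_pow₀ hs1 (by norm_num)
        _ ≤ C₁ * s ^ 2 := le_mul_of_one_le_left (by positivity) hC₁) (Core_mul hs1 hC₁s (by norm_num))
  have a4 : c₇ / 2 * u ^ 2 = c₇ * u * u / 2 := by ring
  have a5 : 10000 * c.C * u ≤ c₇ * u * u := mul_le_mul_of_nonneg_right hc₇ hu0.le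
  have a6 : u ≤ c.C * u := le_mul_of_one_le_left hu0.le hC
  linarith only [a2, a3, a4, a5, a6, h1, hn.Wu, hn.W1, hu0]

/-- Big lucks are rare. -/
private theorem Core_rare {Q : Par} {c : Crd} {K : ℕ} {W u s t r C₁ R : ℝ} {M : Mdl Q.a Q.b}
    (hn : CoreNum K W u s t r) (hR : s ^ 1201 ≤ R) (hC₁ : 1 ≤ C₁) (h1 : C₁ ≤ W)
    (hF : ∀ n : ℝ, s ≤ n → n ≤ s ^ 101 → Fm M c 3 n ≤ u)
    (hbig : ∀ N : ℝ, C₁ ≤ N → C₁ * N ^ 12 ≤ R → ∀ w w₁ α β y : ℝ, 2 * r ≤ w → 1 ≤ w → w₁ ≤ w → C₁ * (w + s) ≤ N →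
      C₁ * (w * s) ≤ M.P (Cr Q.b c r w w₁ s α β (-y)) * N ^ 2 → y ≤ 8 * Fm M c 3 (C₁ * N) + C₁)
    {w w₁ α β y : ℝ} (g1 : 2 * r ≤ w) (g2 : w₁ ≤ w) (g3 : w ≤ W * s) (g4 : 9 * u ≤ y) :
    M.P (Cr Q.b c r w w₁ s α β (-y)) ≤ 1 / s ^ 196 := by
  by_contra h
  push Not at h
  have hs0 := hn.s0
  have hs1 : 1 ≤ s := by linarith only [hn.us, hn.Wu, hn.W1]
  have hWs : 10000 * W ≤ s := by linarith only [hn.us, hn.Wu]
  have hC₁s : C₁ ≤ s := by linarith only [h1, hWs, hn.W1]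
  have hw1 : 1 ≤ w := by linarith only [g1, hn.r1]
  have hw0 : 0 ≤ w := by linarith only [hw1]
  have hw2 : w ≤ s ^ 2 := by
    refine g3.trans ?_
    have := Core_mul hs1 (show W ≤ s by linarith only [hWs, hn.W1]) (k := 1) (n := 2) le_rfl
    rwa [pow_one] at this
  have h5 : C₁ * (w + s) ≤ s ^ 100 := by
    have h6 : w + s ≤ 2 * s ^ 2 := by
      have : s ≤ s ^ 2 := le_self_pow₀ hs1 (by norm_num)
      linarith only [this, hw2]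
    calc C₁ * (w + s) ≤ C₁ * (2 * s ^ 2) := mul_le_mul_of_nonneg_left h6 (by linarith only [hC₁])
      _ = (2 * C₁) * s ^ 2 := by ring
      _ ≤ s ^ 100 := Core_mul hs1 (by linarith only [h1, hWs, hn.W1]) (by norm_num)
  have h6 : C₁ * (w * s) ≤ s ^ 4 := by
    calc C₁ * (w * s) ≤ s * (s ^ 2 * s) :=
          mul_le_mul hC₁s (mul_le_mul_of_nonneg_right hw2 hs0.le) (by positivity) hs0.le
      _ = s ^ 4 := by ring
  have h7 : s ^ 4 ≤ M.P (Cr Q.b c r w w₁ s α β (-y)) * (s ^ 100) ^ 2 := by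
    have h8 : 1 / s ^ 196 * (s ^ 100) ^ 2 ≤ M.P (Cr Q.b c r w w₁ s α β (-y)) * (s ^ 100) ^ 2 :=
      mul_le_mul_of_nonneg_right h.le (by positivity)
    have h9 : 1 / s ^ 196 * (s ^ 100) ^ 2 = s ^ 4 := by
      rw [one_div_mul_eq_div, div_eq_iff (by positivity), ← pow_mul, ← pow_add]
    rwa [h9] at h8
  have h8 := hbig (s ^ 100) (hC₁s.trans (le_self_pow₀ hs1 (by norm_num))) (by
    calc C₁ * (s ^ 100) ^ 12 = C₁ * s ^ 1200 := by rw [← pow_mul]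
      _ ≤ s ^ 1201 := Core_mul hs1 hC₁s le_rfl
      _ ≤ R := hR) w w₁ α β y g1 hw1 g2 h5 (h6.trans h7)
  have h9 := hF (C₁ * s ^ 100) (by
      calc s ≤ s ^ 100 := le_self_pow₀ hs1 (by norm_num)
        _ ≤ C₁ * s ^ 100 := le_mul_of_one_le_left (by positivity) hC₁) (Core_mul hs1 hC₁s le_rfl)
  linarith only [h8, h9, g4, h1, hn.Wu, hn.W1]

/-- The chain condition. -/
private theorem Core_chain {s m N ρ : ℝ} (hs : 10000 ≤ s) (hm0 : 0 ≤ m) (hm : m ≤ 2 * s ^ 20) (hN0 : 0 ≤ N) (hN : N ≤ m / 16)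
    (hρ : ρ = 1 / s ^ 196) (k : ℕ) (hk1 : 5 ≤ k) (hk2 : (k : ℝ) ≤ 2 * s) : 40 * m * (N + k) * ρ ≤ (k : ℝ) ^ 2 := by
  have hs1 : 1 ≤ s := by linarith only [hs]
  have hs0 : 0 < s := by linarith only [hs]
  have hk0 : (0 : ℝ) ≤ k := Nat.cast_nonneg k
  have h5 : (5 : ℝ) ≤ k := by exact_mod_cast hk1
  have h1 : (1 : ℝ) ≤ (k : ℝ) ^ 2 := one_le_pow₀ (by linarith only [h5])
  refine le_trans ?_ h1
  have h20 : s ≤ s ^ 20 := le_self_pow₀ hs1 (by norm_num)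
  have h2 : N + k ≤ 3 * s ^ 20 := by linarith only [hN, hm, hk2, h20, hm0]
  have h3 : 40 * m * (N + k) ≤ 40 * (2 * s ^ 20) * (3 * s ^ 20) :=
    mul_le_mul (by linarith only [hm]) h2 (by linarith only [hN0, hk0]) (by positivity)
  have h4 : 40 * (2 * s ^ 20) * (3 * s ^ 20) = 240 * s ^ 40 := by ring
  have h5 : 240 * s ^ 40 ≤ s ^ 196 := Core_mul hs1 (by linarith only [hs]) (by norm_num)
  rw [hρ, mul_one_div, div_le_iff₀ (by positivity), one_mul]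
  linarith only [h3, h4, h5]

/-- The number of the levels of luck. -/
private theorem Core_J {s : ℝ} (hs : 10000 ≤ s) : ∃ J : ℕ, s ≤ 2 ^ J ∧ (2 : ℝ) ^ J ≤ 2 * s ∧ (J : ℝ) ≤ s ∧
    ((J + 5 : ℕ) : ℝ) ≤ 2 * s := by
  obtain ⟨j₀, hj1, hj2⟩ := exists_nat_pow_near (show 1 ≤ s by linarith only [hs]) (one_lt_two : (1 : ℝ) < 2)
  have h1 : j₀ + 1 ≤ 2 ^ j₀ := Nat.lt_two_pow_self
  have h2 : ((j₀ + 1 : ℕ) : ℝ) ≤ ((2 ^ j₀ : ℕ) : ℝ) := by exact_mod_cast h1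
  have h3 : ((2 ^ j₀ : ℕ) : ℝ) = 2 ^ j₀ := by push_cast; rfl
  rw [h3] at h2
  have h4 : ((j₀ + 1 : ℕ) : ℝ) ≤ s := h2.trans hj1
  refine ⟨j₀ + 1, hj2.le, by rw [pow_succ]; linarith only [hj1], h4, ?_⟩
  push_cast at h4 ⊢
  linarith only [h4, hs]

/-- The sum over the levels of luck. -/
private theorem Core_sum {s u m : ℝ} {J : ℕ} (hs : 10000 ≤ s) (hu : 0 < u) (hm : s ^ 20 ≤ m) (h1 : (2 : ℝ) ^ J ≤ 2 * s)
    (h2 : (J : ℝ) ≤ s) (h3 : ((J + 5 : ℕ) : ℝ) ≤ 2 * s) :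
    ∑ j ∈ range J, 2 ^ (j + 1) * (9 * u) * (2 * ((J + 5 : ℕ) : ℝ)) ≤ m * u := by
  have hs0 : 0 < s := by linarith only [hs]
  have hs1 : 1 ≤ s := by linarith only [hs]
  have b1 : ∀ j ∈ range J, 2 ^ (j + 1) * (9 * u) * (2 * ((J + 5 : ℕ) : ℝ)) ≤ 72 * (u * s ^ 2) := by
    intro j hj
    have b2 : (2 : ℝ) ^ (j + 1) ≤ 2 * s :=
      (pow_le_pow_right₀ one_le_two (by have := mem_range.1 hj; omega)).trans h1
    calc 2 ^ (j + 1) * (9 * u) * (2 * ((J + 5 : ℕ) : ℝ)) ≤ (2 * s) * (9 * u) * (2 * (2 * s)) :=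
          mul_le_mul (mul_le_mul_of_nonneg_right b2 (by positivity)) (by linarith only [h3]) (by positivity) (by positivity)
      _ = 72 * (u * s ^ 2) := by ring
  have b3 := sum_le_card_nsmul (range J) _ _ b1
  rw [card_range, nsmul_eq_mul] at b3
  refine b3.trans ?_
  have b4 : (J : ℝ) * (72 * (u * s ^ 2)) ≤ s * (72 * (u * s ^ 2)) := mul_le_mul_of_nonneg_right h2 (by positivity)
  have b5 : s * (72 * (u * s ^ 2)) = 72 * s ^ 3 * u := by ring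
  have b6 : 72 * s ^ 3 ≤ m := le_trans (Core_mul hs1 (by linarith only [hs]) (by norm_num)) hm
  have b7 : 72 * s ^ 3 * u ≤ m * u := mul_le_mul_of_nonneg_right b6 hu.le
  linarith only [b4, b5, b7]

/-- The ranges. -/
private theorem Core_rng {K : ℕ} {W u s t r C Ad m N R : ℝ} (hn : CoreNum K W u s t r) (hR : s ^ 23 ≤ R) (hC : 1 ≤ C)
    (h1 : C ≤ W) (h2 : Ad ≤ W) (hAd : 1 ≤ Ad) (hm0 : 0 ≤ m) (hm : m ≤ 2 * s ^ 20) (hN0 : 0 ≤ N) (hN : N ≤ m / 16) :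
    2 * C * (4 * (m * s) + 12 * r + s + 2 * C + r * N) ≤ R ∧ 20 * C * (m * s + r * N + 10 * r + Ad * s) ≤ R ∧
      2 * s ^ 22 ≤ R ∧ s ≤ R ∧ Ad * m * s ≤ s ^ 22 := by
  have hs0 := hn.s0
  have hs1 : 1 ≤ s := by linarith only [hn.us, hn.Wu, hn.W1]
  have hWs : 10000 * W ≤ s := by linarith only [hn.us, hn.Wu]
  have hW1 := hn.W1
  have h21 : s ≤ s ^ 21 := le_self_pow₀ hs1 (by norm_num)
  have h221 : s ^ 2 ≤ s ^ 21 := pow_le_pow_right₀ hs1 (by norm_num)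
  have h2223 : s ^ 22 ≤ s ^ 23 := pow_le_pow_right₀ hs1 (by norm_num)
  have hms21 : m * s ≤ 2 * s ^ 21 := by
    calc m * s ≤ (2 * s ^ 20) * s := mul_le_mul_of_nonneg_right hm hs0.le
      _ = 2 * s ^ 21 := by ring
  have hrs := hn.rs
  have hr0 := hn.r0
  have hrN : r * N ≤ s ^ 21 := by
    calc r * N ≤ s * s ^ 20 := mul_le_mul (by linarith only [hrs, hr0]) (by linarith only [hN, hm, hm0]) hN0 hs0.le
      _ = s ^ 21 := by ring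
  have hAds : Ad * s ≤ s ^ 2 := by
    have := Core_mul hs1 (show Ad ≤ s by linarith only [h2, hWs, hW1]) (k := 1) (n := 2) le_rfl
    rwa [pow_one] at this
  refine ⟨?_, ?_, ?_, ?_, ?_⟩
  · have a1 : 4 * (m * s) + 12 * r + s + 2 * C + r * N ≤ 20 * s ^ 21 := by
      linarith only [hms21, hrs, hr0, h21, h1, hWs, hW1, hrN, hs0]
    calc 2 * C * (4 * (m * s) + 12 * r + s + 2 * C + r * N) ≤ 2 * C * (20 * s ^ 21) :=
          mul_le_mul_of_nonneg_left a1 (by linarith only [hC])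
      _ = (40 * C) * s ^ 21 := by ring
      _ ≤ s ^ 22 := Core_mul hs1 (by linarith only [h1, hWs, hW1]) le_rfl
      _ ≤ R := h2223.trans hR
  · have a1 : m * s + r * N + 10 * r + Ad * s ≤ 20 * s ^ 21 := by
      linarith only [hms21, hrs, hr0, h21, h221, hrN, hs0, hAds]
    calc 20 * C * (m * s + r * N + 10 * r + Ad * s) ≤ 20 * C * (20 * s ^ 21) :=
          mul_le_mul_of_nonneg_left a1 (by linarith only [hC])
      _ = (400 * C) * s ^ 21 := by ring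
      _ ≤ s ^ 22 := Core_mul hs1 (by linarith only [h1, hWs, hW1]) le_rfl
      _ ≤ R := h2223.trans hR
  · exact (Core_mul hs1 (by linarith only [hWs, hW1]) le_rfl).trans hR
  · exact (le_self_pow₀ hs1 (by norm_num)).trans hR
  · calc Ad * m * s = Ad * (m * s) := by ring
      _ ≤ Ad * (2 * s ^ 21) := mul_le_mul_of_nonneg_left hms21 (by linarith only [hAd])
      _ = (2 * Ad) * s ^ 21 := by ring
      _ ≤ s ^ 22 := Core_mul hs1 (by linarith only [h2, hWs, hW1]) le_rfl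

/-- The variation. -/
private theorem Core_bar {K : ℕ} {W u s t r Ad κ m N : ℝ} (hn : CoreNum K W u s t r) (ht : 0 < t) (hAd : 1 ≤ Ad) (h1 : Ad ≤ W)
    (hκ : 0 < κ) (h2 : 1 / κ ≤ W) (hm : 0 < m) (hN : κ * m / 2 ≤ N) :
    Ad * m * (t * s + s ^ (3 / 5 : ℝ) / t ^ K) ≤ r * N := by
  have h3 := hn.s35
  have hs0 := hn.s0
  obtain ⟨B, hBd⟩ : ∃ B : ℝ, B = t * s + s ^ (3 / 5 : ℝ) / t ^ K := ⟨_, rfl⟩
  have hB0 : 0 ≤ B := by rw [hBd]; positivity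
  rw [← hBd] at h3 ⊢
  have h4 : 4 * Ad ≤ κ * u ^ 4 := by
    have a1 : 1 / κ * Ad ≤ W ^ 2 := by
      rw [sq]
      exact mul_le_mul h2 h1 (by linarith only [hAd]) (by linarith only [hn.W1])
    have a2 : κ * (4 * (1 / κ * Ad)) = 4 * Ad := by field_simp
    have a3 : κ * (4 * (1 / κ * Ad)) ≤ κ * u ^ 4 := mul_le_mul_of_nonneg_left (by
      have := sq_nonneg W
      linarith only [a1, hn.WW, hn.u4, this]) hκ.le
    linarith only [a2, a3]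
  have h5 : 4 * Ad * (m * B) ≤ κ * u ^ 4 * (m * B) := mul_le_mul_of_nonneg_right h4 (by positivity)
  have h6 : κ * m * (B * u ^ 4) ≤ κ * m * (2 * r) := mul_le_mul_of_nonneg_left h3 (by positivity)
  have h7 : r * (κ * m / 2) ≤ r * N := mul_le_mul_of_nonneg_left hN hn.r0.le
  linarith only [h5, h6, h7]

/-- The contradiction. -/
private theorem Core_fin {u C c₇ m N X : ℝ} (hu : 1 ≤ u) (hC : 1 ≤ C) (hc₇ : 10000 * C ≤ c₇ * u) (hm : 1 ≤ m)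
    (hN : N ≤ m / 16) (hX : X ≤ m * u) (he : 0 ≤ c₇)
    (h : (1 / 2 * m / 4 - N) * (c₇ / 2 * u ^ 2) ≤
      (4 * C + 1) * m + 10 * C + 2 * m * (9 * u) + 9 * u * (2 * (5 : ℕ) + N) + X) : False := by
  have hu0 : 0 < u := by linarith only [hu]
  have hm0 : 0 < m := by linarith only [hm]
  have hmu : m ≤ m * u := le_mul_of_one_le_right hm0.le hu
  have hum : u ≤ m * u := le_mul_of_one_le_left hu0.le hm
  have hmu0 : 0 < m * u := by positivity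
  have a2 : 10000 * (C * (m * u)) ≤ m * u * (c₇ * u) := by
    have := mul_le_mul_of_nonneg_left hc₇ hmu0.le
    linarith only [this]
  have a3 : m / 16 * (c₇ / 2 * u ^ 2) ≤ (1 / 2 * m / 4 - N) * (c₇ / 2 * u ^ 2) :=
    mul_le_mul_of_nonneg_right (by linarith only [hN]) (by positivity)
  have a4 : m * u ≤ C * (m * u) := le_mul_of_one_le_left hmu0.le hC
  have a5 : C * m ≤ C * (m * u) := mul_le_mul_of_nonneg_left hmu (by linarith only [hC])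
  have a6 : C ≤ C * m := le_mul_of_one_le_right (by linarith only [hC]) hm
  have a7 : 9 * u * N ≤ 9 * u * m := mul_le_mul_of_nonneg_left (by linarith only [hN, hm0]) (by positivity)
  have a8 : 0 < C * (m * u) := by positivity
  have a9 : m / 16 * (c₇ / 2 * u ^ 2) = m * u * (c₇ * u) / 32 := by ring
  push_cast at h
  linarith only [h, hX, hum, hmu, a2, a3, a4, a5, a6, a7, a8, a9]

/-- The fluctuations at the scales up to `s ^ 101`. -/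
private theorem Core_Fm {Q : Par} {g : V → ℝ} {c : Crd} {K : ℕ} {W u s t r n₁ R : ℝ} {M : Mdl Q.a Q.b}
    (hn : CoreNum K W u s t r) (hG : Good Q g R M) (hR : s ^ 600000 ≤ R) (hn₁ : n₁ ≤ W)
    (hslow : ∀ (n R : ℝ) (M : Mdl Q.a Q.b), n₁ ≤ n → n ^ 5000 ≤ R → Good Q g R M →
      Fm M c 3 n ≤ n ^ (((8080 * (K + 1) : ℕ) : ℝ)⁻¹)) : ∀ n : ℝ, s ≤ n → n ≤ s ^ 101 → Fm M c 3 n ≤ u := by
  intro n h1 h2
  have hs0 := hn.s0
  have hs1 : 1 ≤ s := by linarith only [hn.us, hn.Wu, hn.W1]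
  have hn0 : 0 ≤ n := hs0.le.trans h1
  refine (hslow n R M (by linarith only [h1, hn.us, hn.Wu, hn.W1, hn₁]) ?_ hG).trans ?_
  · refine (pow_le_pow_left₀ hn0 h2 5000).trans ?_
    rw [← pow_mul]
    exact (pow_le_pow_right₀ hs1 (by norm_num)).trans hR
  · refine (Real.rpow_le_rpow hn0 h2 (by positivity)).trans ?_
    rw [hn.s101]

open Classical in
/-- The contradiction from the probabilities and the deterministic lemma. -/
private theorem Core_main {Q : Par} {g : V → ℝ} {R : ℝ} {M : Mdl Q.a Q.b} (hG : Good Q g R M) {c : Crd}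
    {r Ad s u c₇ ρ B E L : ℝ} {m N J : ℕ} (hr : 0 ≤ r) (hrs : r + 4 * c.C < s) (hA : 0 ≤ Ad * s)
    (hR : 20 * c.C * (m * s + r * N + 10 * r + Ad * s) ≤ R) (hOv : M.P (fun τ => ¬ Ov g L s τ) ≤ 1 / 8)
    (hS : M.P (fun τ => ∃ k : ℕ → ℤ, Adm m N k ∧ (((range m).filter fun j =>
      ¬ Cr Q.b c r (10 * r) r s ((2 * j : ℕ) * s) (r * k (2 * j)) (c₇ / 2 * u ^ 2) τ).card : ℝ) ≤ 1 / 2 * m / 4) ≤ 1 / 8)
    (hρ : 0 ≤ ρ) (hD1 : ∀ α β, M.P (Cr Q.b c r (10 * r) r s α β (-(9 * u))) ≤ ρ)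
    (hW1 : ∀ j < J, ∀ α β, M.P (Cr Q.b c r (Ad * s) (Ad * s) s α β (-(2 ^ j * (9 * u)))) ≤ ρ)
    (hc1 : 40 * m * (N + (5 : ℕ)) * ρ ≤ ((5 : ℕ) : ℝ) ^ 2) (hc2 : 40 * m * (N + ((J + 5 : ℕ) : ℝ)) * ρ ≤ ((J + 5 : ℕ) : ℝ) ^ 2)
    (hdet : ∀ τ, Bd Q.a Q.b τ → Ov g L s τ → ∃ (k : ℕ → ℤ) (T' : ℕ → ℝ), Adm m N k ∧
      ∑ i ∈ range (2 * m), T' i ≤ 2 * m * s + m + 10 * c.C ∧ ∀ i < 2 * m,
        (k (i + 1) = k i → ∀ e : ℝ, e ≤ E → T' i ≤ s - 2 * c.C + e →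
          Cr Q.b c r (10 * r) r s (i * s) (r * k i) e τ) ∧
        (∀ e : ℝ, e ≤ 0 → T' i ≤ s - 2 * c.C + e → Cr Q.b c r (Ad * s) (Ad * s) s (i * s) (r * k i) e τ) ∧
        s - B ≤ T' i)
    (hE : c₇ / 2 * u ^ 2 ≤ E) (hE0 : 0 ≤ E) (hJ : B ≤ 2 ^ J * (9 * u)) (hc₇ : 0 ≤ c₇) (hu : 0 ≤ u) :
    (1 / 2 * m / 4 - N) * (c₇ / 2 * u ^ 2) ≤
      (4 * c.C + 1) * m + 10 * c.C + 2 * m * (9 * u) + 9 * u * (2 * (5 : ℕ) + N) +
        ∑ j ∈ range J, 2 ^ (j + 1) * (9 * u) * (2 * ((J + 5 : ℕ) : ℝ)) := by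
  have hC := c.one_le
  obtain ⟨τ, hτ, hτov, hτk⟩ := good_env hG (c := c) (r := r) (ℓ := s) (A := Ad) (s := s) (L := L)
    (e₀ := c₇ / 2 * u ^ 2) (Dl := 9 * u) (Y := 9 * u) (S := 1 / 2 * m / 4) (ρD := ρ) (m := m) (N := N) (J := J)
    (KD := 5) (KW := fun _ => J + 5) (ρW := fun _ => ρ) hr hrs hA hR hOv hS hρ hD1 hc1 le_rfl (fun _ => hρ) hW1
    (fun j _ => hc2) (fun j _ => le_rfl)
  obtain ⟨k, T', hk, hsumT, hT⟩ := hdet τ hτ hτov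
  obtain ⟨q1, q2, q3⟩ := hτk k hk
  exact balance (m := m) (N := N) (J := J) (k := k) (t := T') (l := s - 2 * c.C) (D := 9 * u) (Y := 9 * u)
    (e₀ := c₇ / 2 * u ^ 2) (X := (4 * c.C + 1) * m + 10 * c.C) (S := 1 / 2 * m / 4) (KD := 2 * (5 : ℕ))
    (KW := fun _ => 2 * ((J + 5 : ℕ) : ℝ)) hk (by positivity) le_rfl (by positivity)
    (fun i => Cr Q.b c r (10 * r) r s (i * s) (r * k i) (c₇ / 2 * u ^ 2) τ)
    (fun i => Cr Q.b c r (10 * r) r s (i * s) (r * k i) (-(9 * u)) τ)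
    (fun j i => Cr Q.b c r (Ad * s) (Ad * s) s (i * s) (r * k i) (-(2 ^ j * (9 * u))) τ)
    (fun i hi hki ht' => (hT i hi).1 hki _ hE ht')
    (fun i hi hki ht' => (hT i hi).1 hki (-(9 * u)) (by linarith only [hE0, hu]) (by linarith only [ht']))
    (fun i hi j hj ht' => (hT i hi).2.1 (-(2 ^ j * (9 * u))) (by
        have : 0 ≤ 2 ^ j * (9 * u) := by positivity
        linarith only [this]) (by linarith only [ht']))
    (fun i hi => by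
      have h1 := (hT i hi).2.2
      linarith only [h1, hJ, hC])
    q1.le (by exact_mod_cast q2) (fun j hj => by exact_mod_cast q3 j hj)
    (by
      have h1 : 2 * (m : ℝ) * (s - 2 * c.C) + ((4 * c.C + 1) * m + 10 * c.C) = 2 * m * s + m + 10 * c.C := by ring
      rw [h1]
      exact hsumT)

/-- The number of blocks. -/
private theorem Core_mN {s κ : ℝ} {m₀ : ℕ} (hs : 10000 ≤ s) (hκ : 0 < κ) (hκ1 : κ ≤ 1 / 16) (h0 : (m₀ : ℝ) ≤ s) (h2 : 2 / κ ≤ s) :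
    ∃ m N : ℕ, s ^ 20 ≤ m ∧ (m : ℝ) ≤ 2 * s ^ 20 ∧ m₀ ≤ m ∧ 1 ≤ m ∧ (N : ℝ) ≤ κ * m ∧ κ * m / 2 ≤ N ∧
      (N : ℝ) ≤ m / 16 := by
  obtain ⟨m, N, h3, h4, h5, h6, -, h7, h8, -⟩ := side_mN (by linarith only [hs]) hκ (by linarith only [hκ1]) h0 h2
  have h9 : κ * m ≤ 1 / 16 * m := mul_le_mul_of_nonneg_right hκ1 (Nat.cast_nonneg m)
  exact ⟨m, N, h3, h4, h5, h6, h7, h8, by linarith only [h7, h9]⟩

/-- **The core.** -/
theorem core {Q : Par} {g : V → ℝ} (hg : IsMean Q g) (hM : HasModels Q g) {c : Crd} (hf : FlatS g c) (K : ℕ) (hK : PC g c K) :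
    False := by
  have hC := c.one_le
  obtain ⟨Ad, sd, hAd, hsd, hdet⟩ := det_rows hg c hf.low
  obtain ⟨At, Ct, c₇, hAt, hCt, hc₇, htilt⟩ := tilt_cr hg c hf.low
  obtain ⟨C₁, hC₁, hbig⟩ := luck_big Q hg c hf.low (le_refl (3 : ℝ))
  obtain ⟨κ₀, m₀, hκ₀, hκ₀1, hms⟩ := side_slow (p₀ := 1 / 2) (by norm_num) (by norm_num)
  obtain ⟨so, hso, hov⟩ := P_Ov Q g 22 (1 / 8) (by norm_num)
  obtain ⟨sz, hsz, hexc⟩ := excess_Z hg hM hf
  obtain ⟨t₀, ht₀, ht₀1, hconf⟩ := conf_pc hg hf.low K (A := max Ad At) (hAd.trans (le_max_left _ _))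
  obtain ⟨n₁, hn₁, hslow⟩ := slow hg hM hf (le_refl (3 : ℝ)) (((8080 * (K + 1) : ℕ) : ℝ)⁻¹) (by positivity)
  obtain ⟨κ, hκ⟩ : ∃ κ : ℝ, κ = min κ₀ (1 / 16) := ⟨_, rfl⟩
  have hκ0 : 0 < κ := by rw [hκ]; exact lt_min hκ₀ (by norm_num)
  have hκ1 : κ ≤ 1 / 16 := by rw [hκ]; exact min_le_right _ _
  have hκ2 : κ ≤ κ₀ := by rw [hκ]; exact min_le_left _ _
  have hκi : 0 < 1 / κ := by positivity
  have hc₇i : 0 < 1 / c₇ := by positivity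
  have hm₀ : (0 : ℝ) ≤ m₀ := Nat.cast_nonneg _
  -- the threshold
  obtain ⟨W, hW1, hWAd, hWsd, hWCt, hWc₇, hWc₇i, hWC₁, hWsz, hWκ, hWm₀, hWso, hWn₁, hWC⟩ : ∃ W : ℝ, 1 ≤ W ∧ Ad ≤ W ∧
      sd ≤ W ∧ Ct ≤ W ∧ c₇ ≤ W ∧ 1 / c₇ ≤ W ∧ C₁ ≤ W ∧ sz ≤ W ∧ 1 / κ ≤ W ∧ (m₀ : ℝ) ≤ W ∧ so ≤ W ∧ n₁ ≤ W ∧ c.C ≤ W := by
    refine ⟨Ad + sd + Ct + c₇ + 1 / c₇ + C₁ + sz + 1 / κ + m₀ + so + n₁ + c.C, ?_, ?_, ?_, ?_, ?_, ?_, ?_, ?_, ?_, ?_, ?_, ?_, ?_⟩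
    all_goals linarith only [hAd, hsd, hCt, hc₇, hc₇i, hC₁, hsz, hκi, hm₀, hso, hn₁, hC]
  obtain ⟨t, ht, htδ, hbar⟩ := hK (min t₀ (1 / (10000 * W ^ 2) ^ 8)) (by positivity)
  have hbar' : Bar g c t (t ^ K) := hbar
  have htt : t ≤ t₀ := htδ.trans (min_le_left _ _)
  have ht1 : t ≤ 1 := htt.trans ht₀1
  obtain ⟨u, s, hu1, hst, htu, hsu, hsq⟩ := Core_scales K ht ht1
  have hWu : 10000 * W ^ 2 ≤ u := by
    by_contra h
    push Not at h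
    have h1 : t ≤ 1 / (10000 * W ^ 2) ^ 8 := htδ.trans (min_le_right _ _)
    rw [htu] at h1
    have h2 : u ^ 8 < (10000 * W ^ 2) ^ 8 := pow_lt_pow_left₀ h (by linarith only [hu1]) (by norm_num)
    have h3 : 1 / (10000 * W ^ 2) ^ 8 < 1 / u ^ 8 := one_div_lt_one_div_of_lt (by positivity) h2
    exact absurd h1 (not_le.2 h3)
  have hn := Core_num (K := K) hW1 hu1 hWu htu hsu
  have hcf := hconf t s ht htt hbar' hst
  rw [hsq] at hcf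
  obtain ⟨r, hr⟩ : ∃ r : ℝ, r = 1 / u ^ 4 * s := ⟨_, rfl⟩
  rw [← hr] at hn hcf
  clear hr hsu hsq htu htδ hconf hst hbar
  have hs0 := hn.s0
  have hr0 := hn.r0
  have hWs : 10000 * W ≤ s := by linarith only [hn.us, hn.Wu]
  have hs1e : 10000 ≤ s := by linarith only [hWs, hW1]
  have hs1 : 1 ≤ s := by linarith only [hs1e]
  have hrs : r ≤ s := by linarith only [hn.rs, hr0]
  have hrC : r + 4 * c.C < s := by linarith only [hn.rs, hr0, hWC, hWs, hW1]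
  have hu0 : 0 < u := by linarith only [hu1]
  obtain ⟨hc₇u, he45⟩ := Core_e0 hn hC hc₇ hWC hWc₇ hWc₇i
  obtain ⟨R, M, hR, hG⟩ := hM (s ^ 600000)
  have hR1201 : s ^ 1201 ≤ R := (pow_le_pow_right₀ hs1 (by norm_num)).trans hR
  have hR25 : s ^ 25 ≤ R := (pow_le_pow_right₀ hs1 (by norm_num)).trans hR
  have hR23 : s ^ 23 ≤ R := (pow_le_pow_right₀ hs1 (by norm_num)).trans hR
  have hF := Core_Fm hn hG hR hWn₁ hslow
  clear hR hslow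
  have hbig' : ∀ N : ℝ, C₁ ≤ N → C₁ * N ^ 12 ≤ R → ∀ w w₁ α β y : ℝ, 2 * r ≤ w → 1 ≤ w → w₁ ≤ w → C₁ * (w + s) ≤ N →
      C₁ * (w * s) ≤ M.P (Cr Q.b c r w w₁ s α β (-y)) * N ^ 2 → y ≤ 8 * Fm M c 3 (C₁ * N) + C₁ :=
    fun N h1 h2 w w₁ α β y h3 h4 h5 h6 h7 => hbig N R M h1 h2 hG r w w₁ s α β y hr0.le h3 h4 h5 hrs hs1 h6 h7
  have hhalf : ∀ α β, M.P (Cr Q.b c r (10 * r) r s α β (c₇ / 2 * u ^ 2)) ≤ 1 / 2 :=
    Core_half hn hG hR25 hC₁ hWC₁ hWCt hc₇u hF (fun h1 h2 h3 α β h4 =>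
      htilt s R M h1 h2 hG r s α β (c₇ / 2 * u ^ 2) hn.r910 h3 (by linarith only [hs0]) le_rfl
        (Core_conf hs0.le (le_max_right _ _) hcf) (by positivity) he45 h4) hbig'
  have hrare : ∀ {w w₁ α β y : ℝ}, 2 * r ≤ w → w₁ ≤ w → w ≤ W * s → 9 * u ≤ y →
      M.P (Cr Q.b c r w w₁ s α β (-y)) ≤ 1 / s ^ 196 := Core_rare hn hR1201 hC₁ hWC₁ hF hbig'
  clear hbig hbig' htilt hF
  -- the number of blocks
  have hκs : 2 / κ ≤ s := by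
    have h1 : 2 / κ = 2 * (1 / κ) := by ring
    rw [h1]
    linarith only [hWκ, hWs, hW1]
  obtain ⟨m, N, hm1, hm2, hmm₀, hm1', hN1, hN2, hN3⟩ := Core_mN hs1e hκ0 hκ1 (by linarith only [hWm₀, hWs, hW1]) hκs
  have hm1r : (1 : ℝ) ≤ m := by exact_mod_cast hm1'
  have hm0 : (0 : ℝ) < m := by linarith only [hm1r]
  have hN0 : (0 : ℝ) ≤ N := Nat.cast_nonneg N
  obtain ⟨J, hJ1, hJ2, hJ3, hJ5⟩ := Core_J hs1e
  have hchain := Core_chain hs1e hm0.le hm2 hN0 hN3 rfl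
  obtain ⟨g1, g2, g3, g4, g5⟩ := Core_rng hn hR23 hC hWC hWAd hAd hm0.le hm2 hN0 hN3
  have hB := Core_bar hn ht hAd hWAd hκ0 hWκ hm0 hN2
  have hS := hms hG m N hmm₀ (hN1.trans (mul_le_mul_of_nonneg_right hκ2 hm0.le)) c r s (c₇ / 2 * u ^ 2) hr0.le hrC g1
    (fun α β => by
      have h1 := M.P_not (Cr Q.b c r (10 * r) r s α β (c₇ / 2 * u ^ 2))
      have h2 := hhalf α β
      rw [h1]
      linarith only [h2])
  have hws : 10 * r ≤ W * s := by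
    have h1 : s ≤ W * s := le_mul_of_one_le_left hs0.le hW1
    linarith only [h1, hn.rs, hr0]
  have hsum := Core_sum hs1e hu0 hm1 hJ2 hJ3 hJ5
  have hfin := Core_main hG (c := c) (r := r) (Ad := Ad) (s := s) (u := u) (c₇ := c₇) (ρ := 1 / s ^ 196)
    (B := s ^ (7 / 10 : ℝ)) (E := s ^ (4 / 5 : ℝ) / 4) (L := s ^ 22) (m := m) (N := N) (J := J) hr0.le hrC (by positivity) g2
    (hov s R M (by linarith only [hWso, hWs, hW1]) g3 g4 hG) hS (by positivity)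
    (fun α β => hrare (by linarith only [hr0]) (by linarith only [hr0]) hws le_rfl)
    (fun j _ α β => hrare (by
      have h1 : s ≤ Ad * s := le_mul_of_one_le_left hs0.le hAd
      linarith only [h1, hn.rs, hr0]) le_rfl (mul_le_mul_of_nonneg_right hWAd hs0.le)
      (le_mul_of_one_le_left (by positivity) (one_le_pow₀ one_le_two)))
    (hchain 5 le_rfl (by push_cast; linarith only [hs1e])) (hchain (J + 5) (by omega) hJ5) ?_ he45 (by positivity) ?_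
    hc₇.le hu0.le
  · exact Core_fin hu1 hC hc₇u hm1r hN3 hsum hc₇.le hfin
  · intro τ hτ hτov
    obtain ⟨Z, z1, z2, z3, z4⟩ := hexc s s m τ (by linarith only [hWsz, hWs, hW1]) hs1 le_rfl hm1 hm2 hτ hτov
    exact hdet s r s (s ^ 22) t (t ^ K) τ m N Z (by linarith only [hWsd, hWs, hW1]) hn.r910 hrs le_rfl hm1'
      hτ hτov (Core_conf hs0.le (le_max_left _ _) hcf) ht (by positivity) (pow_le_one₀ ht.le ht1) hbar' g5 z1 z2 z3 z4 hB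
  · refine hn.s710.trans ?_
    have h1 : s * 1 ≤ 2 ^ J * (9 * u) := mul_le_mul hJ1 (by linarith only [hu1]) (by norm_num) (by positivity)
    linarith only [h1]

end Pool.Agent.W_1b8d5d_fe
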