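import Pool.Agent.W_1b8d5d_fe.Trans1
import Pool.Agent.W_1b8d5d_nc.FinalC1
import Pool.Agent.W_1b8d5d_h85.FFinal

/-!
MP_1b8d5d_pr (FE): from the time constant to the mean passage times; the final theorem from the core.
-/

set_option autoImplicit false

open MeasureTheory ProbabilityTheory Filter Topology

namespace Pool.Agent.W_1b8d5d_fe

open Pool.Agent.W_1b8d5d_h85

/-- The core, as a proposition. -/
def CoreFE : Prop := ∀ (Q : Par) (g : V → ℝ), IsMean Q g → HasModels Q g → ∀ (c : Crd), FlatS g c → ∀ K : ℕ, PC g c K → False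

/-- The final theorem, from part (A) (`Pool.Agent.W_1b8d5d_h85.partA`) and the core.  PROOF. As `Pool.Agent.W_1b8d5d_nc.final1` (file `W_1b8d5d_nc/FinalC1.lean`): transport to `ℝ × ℝ` with `pl μ`
(`emb`, `mu_eq` in `W_1b8d5d_nc/Concl.lean`), `isFPP_of_frozen`, `tendsto_tm`; a linear form `f` on `Fin 2 → ℝ` is `dp (f e₁, f e₂)`; `exists_flat`. -/
theorem final_b (hA : PartA) (hC : CoreFE) :
    ∀ (a b : ℝ), 0 < a →
    ∀ (ν : Measure ℝ), IsProbabilityMeasure ν → ν (Set.Icc a b)ᶜ = 0 →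
      (∀ x : ℝ, ν ({x} : Set ℝ) = 0) →
    ∀ (Ω : Type) [MeasurableSpace Ω] (P : Measure Ω), IsProbabilityMeasure P →
    ∀ (τ : (Fin 2 → ℤ) × Fin 2 → Ω → ℝ),
      (∀ e, Measurable (τ e)) → iIndepFun τ P → (∀ e, P.map (τ e) = ν) →
    ∀ (μ : (Fin 2 → ℝ) → ℝ), Continuous μ →
      (∀ (c : ℝ) (x : Fin 2 → ℝ), 0 ≤ c → μ (c • x) = c * μ x) →
      (∀ x : Fin 2 → ℤ, TendstoInMeasure P
        (fun (n : ℕ) (ω : Ω) =>
            sInf {t : ℝ | ∃ (m : ℕ) (p : ℕ → Fin 2 → ℤ), p 0 = 0 ∧ p m = (n : ℤ) • x ∧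
              (∀ k < m, ∑ i, |p (k+1) i - p k i| = 1) ∧
              t = ∑ k ∈ Finset.range m, ∑ i : Fin 2,
                ((if p (k+1) = p k + (Pi.single i (1 : ℤ) : Fin 2 → ℤ) then τ (p k, i) ω else 0) +
                 (if p k = p (k+1) + (Pi.single i (1 : ℤ) : Fin 2 → ℤ) then τ (p (k+1), i) ω else 0))}
            / (n : ℝ))
        atTop (fun _ => μ (fun i => (x i : ℝ)))) →
      ∀ (f : (Fin 2 → ℝ) →ₗ[ℝ] ℝ), (∀ x, f x ≤ μ x) → ∀ v w : Fin 2 → ℝ, v ≠ w → μ v = 1 → f v = 1 → μ w = 1 → f w = 1 →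
        ∀ K : ℕ, ∀ᶠ t : ℝ in 𝓝[>] 0, μ (v + t • (v - w)) ≤ 1 + t ^ K := by
  intro a b ha ν hν hsupp hatom Ω _ P hP τ hm hi hl μ hμ hom hlim f hf v w hvw hv hfv hw hfw K
  have hlaw : Law a b ν := ⟨hν, hsupp, hatom⟩
  have hF := Pool.Agent.W_1b8d5d_nc.isFPP_of_frozen hP hm hi hl
  obtain ⟨Q, hM, hmean⟩ := hA a b ν ha hlaw Ω P _ hF
  have hc' : Continuous (Pool.Agent.W_1b8d5d_nc.pl μ) := by
    show Continuous fun x : ℝ × ℝ => μ ![x.1, x.2]
    refine hμ.comp ?_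
    refine continuous_pi fun i => ?_
    fin_cases i
    · exact continuous_fst
    · exact continuous_snd
  have hom' : ∀ (c : ℝ) (x : ℝ × ℝ), 0 ≤ c →
      Pool.Agent.W_1b8d5d_nc.pl μ (c • x) = c * Pool.Agent.W_1b8d5d_nc.pl μ x := by
    intro c x hcc
    show μ ![c * x.1, c * x.2] = c * μ ![x.1, x.2]
    rw [← hom c _ hcc]
    congr 1
    funext i
    fin_cases i <;> rfl
  have hlim' : ∀ x : V, Tendsto (fun n : ℕ => tm P (fun e => τ (toE e)) (n • x) / n) atTop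
      (𝓝 (Pool.Agent.W_1b8d5d_nc.pl μ (toR x))) := by
    intro x
    refine tendsto_tm ha hlaw hF ?_
    have h1 := hlim (toF x)
    rw [Pool.Agent.W_1b8d5d_nc.cast_toF] at h1
    have h2 : (fun (n : ℕ) (ω : Ω) =>
        T (fun e => τ (toE e) ω) 0 (n • x) / (n : ℝ)) = fun (n : ℕ) (ω : Ω) =>
        sInf (pathSet (fun e => τ e ω) ((n : ℤ) • toF x)) / (n : ℝ) := by
      funext n ω
      rw [Pool.Agent.W_1b8d5d_nc.toF_nsmul, sInf_pathSet]
    rw [h2]
    exact h1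
  set F : ℝ × ℝ →ₗ[ℝ] ℝ := f.comp Pool.Agent.W_1b8d5d_nc.emb with hFdef
  have hFx : ∀ x : ℝ × ℝ, F x = f ![x.1, x.2] := fun x => rfl
  have hdp : ∀ x : ℝ × ℝ, dp (F (1, 0), F (0, 1)) x = F x := by
    intro x
    have h1 : x = x.1 • ((1 : ℝ), (0 : ℝ)) + x.2 • ((0 : ℝ), (1 : ℝ)) := by
      refine Prod.ext ?_ ?_
      · show x.1 = x.1 * 1 + x.2 * 0
        ring
      · show x.2 = x.1 * 0 + x.2 * 1
        ring
    have h2 : F x = x.1 * F (1, 0) + x.2 * F (0, 1) := by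
      conv_lhs => rw [h1]
      rw [map_add, map_smul, map_smul, smul_eq_mul, smul_eq_mul]
    rw [h2]
    show F (1, 0) * x.1 + F (0, 1) * x.2 = x.1 * F (1, 0) + x.2 * F (0, 1)
    ring
  by_contra hcon
  obtain ⟨c, hc1, hc2⟩ := exists_flat (μ := Pool.Agent.W_1b8d5d_nc.pl μ) hmean hc' hom' hlim'
    (f := (F (1, 0), F (0, 1))) (v := (v 0, v 1)) (w := (w 0, w 1)) (fun x => by
      rw [hdp, hFx]
      exact hf _) (by
      intro he
      apply hvw
      have h1 := congrArg Prod.fst he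
      have h2 := congrArg Prod.snd he
      funext i
      fin_cases i
      · exact h1
      · exact h2) (by
      rw [← Pool.Agent.W_1b8d5d_nc.mu_eq]
      exact hv) (by
      rw [hdp, hFx]
      show f ![v 0, v 1] = 1
      rw [Pool.Agent.W_1b8d5d_nc.vec_eta]
      exact hfv) (by
      rw [← Pool.Agent.W_1b8d5d_nc.mu_eq]
      exact hw) (by
      rw [hdp, hFx]
      show f ![w 0, w 1] = 1
      rw [Pool.Agent.W_1b8d5d_nc.vec_eta]
      exact hfw) (K := K) (by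
      intro h1
      apply hcon
      refine h1.mono fun t ht => ?_
      rw [Pool.Agent.W_1b8d5d_nc.mu_eq μ]
      exact ht)
  exact hC Q _ hmean hM c hc1 K hc2

end Pool.Agent.W_1b8d5d_fe
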