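import Pool.Agent.W_1b8d5d_fe.Defs
import Pool.Agent.W_1b8d5d_c1.Tail
import Pool.Agent.W_1b8d5d_c1.Grow1
import Pool.Agent.W_1b8d5d_c1.Chern
import Pool.Agent.W_1b8d5d_c1.Sel

/-!
MP_1b8d5d_pr (FE): the tools of `W_1b8d5d_c1` for the models of `W_1b8d5d_h85`.
-/

set_option autoImplicit false

namespace Pool.Agent.W_1b8d5d_fe

open Finset Pool.Agent.W_1b8d5d_h85

/-- A good model of `W_1b8d5d_h85` is a good model of `W_1b8d5d_c1`.  PROOF. Field by field; `var`: the function `S` of h85 is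
`√(x / log (x + 2))`, the one of c1 is `√x`, and `log (x + 2) ≥ 1` for `x ≥ 1`; `peierls`: `x = 0` (`nm_zero`; if `R < 0` then
`w.length ≤ R` is impossible and the probability is `0`). -/
theorem toC1 {Q : Par} {g : V → ℝ} {R : ℝ} {M : Mdl Q.a Q.b} (h : Good Q g R M) :
    Pool.Agent.W_1b8d5d_c1.Good Q g R M where
  inv := h.inv
  refl := h.refl
  indep := h.indep
  mean := h.mean
  var := fun l z hl hz hR => by
    refine (h.var l z hl hz hR).trans ?_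
    have hK : 0 ≤ Q.K := by linarith [Q.hK]
    refine mul_le_mul_of_nonneg_left ?_ hK
    have hl0 : 0 ≤ l := by linarith
    unfold Pool.Agent.W_1b8d5d_c1.S
    rw [S_sq hl0, Real.sq_sqrt hl0]
    have h1 : 1 ≤ Real.log (l + 2) := by
      rw [Real.le_log_iff_exp_le (by linarith)]
      have := Real.exp_one_lt_d9
      linarith
    exact div_le_self hl0 h1
  peierls := fun l hl => by
    by_cases hR : 0 ≤ R
    · refine h.peierls 0 l ?_ hl
      rw [nm_zero]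
      exact hR
    · have h0 : M.P (fun τ => ∃ (y : V) (w : grid.Walk 0 y), w.IsPath ∧
          l ≤ w.length ∧ (w.length : ℝ) ≤ R ∧ (nHigh Q.su τ w : ℝ) < w.length / 2) ≤
          M.P (fun _ => False) := by
        refine M.P_mono fun τ _ h1 => ?_
        obtain ⟨y, w, -, -, h2, -⟩ := h1
        exact hR ((Nat.cast_nonneg _).trans h2)
      have h1 : M.P (fun _ => False) = 0 := by
        rw [M.P_def]
        simp only [if_false]
        exact M.E_const 0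
      have hK : 0 ≤ Q.K := by linarith [Q.hK]
      rw [h1] at h0
      refine h0.trans ?_
      positivity
  tilt := h.tilt

theorem E_T {Q : Par} {g : V → ℝ} {R : ℝ} {M : Mdl Q.a Q.b} (h : Good Q g R M) (x y : V) :
    M.E (fun τ => T τ x y) = M.E fun τ => T τ 0 (y - x) := (toC1 h).E_T x y

theorem P_sh {Q : Par} {g : V → ℝ} {R : ℝ} {M : Mdl Q.a Q.b} (h : Good Q g R M) (z : V)
    (p : Env → Prop) : M.P (fun τ => p (sh z τ)) = M.P p := (toC1 h).P_sh z p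

theorem mean' {Q : Par} {g : V → ℝ} {R : ℝ} {M : Mdl Q.a Q.b} (h : Good Q g R M) {x y : V}
    (hR : nm (y - x) ≤ R) : |M.E (fun τ => T τ x y) - g (y - x)| ≤ 1 := (toC1 h).mean' hR

/-- Concentration between arbitrary points.  PROOF. `Good.conc`, `Good.inv` (`P_sh`), `T_sh`, `E_T`. -/
theorem conc' {Q : Par} {g : V → ℝ} {R : ℝ} {M : Mdl Q.a Q.b} (h : Good Q g R M) {l s : ℝ} {x y : V}
    (hl : 1 ≤ l) (hxy : nm (y - x) ≤ l) (hR : l ≤ R) (hs : 0 ≤ s) :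
    M.P (fun τ => s ≤ |T τ x y - M.E fun τ => T τ x y|) ≤ Q.K * Real.exp (-(s / (Q.K * Real.sqrt l))) := by
  have h1 := h.conc l s (y - x) hl hxy hR hs
  have h2 := P_sh h x (fun τ => s ≤ |T τ 0 (y - x) - M.E fun τ => T τ 0 (y - x)|)
  have h3 : M.P (fun τ => s ≤ |T τ x y - M.E fun τ => T τ x y|) =
      M.P (fun τ => s ≤ |T (sh x τ) 0 (y - x) - M.E fun τ => T τ 0 (y - x)|) := by
    congr 1
    funext τ
    rw [T_sh, zero_add, sub_add_cancel, E_T h x y]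
  rw [h3, h2]
  exact h1

/-- Every event of positive probability contains an environment with values in `[a, b]`. -/
theorem exists_of_P {a b : ℝ} (M : Mdl a b) {p : Env → Prop} (h : 0 < M.P p) : ∃ τ, Bd a b τ ∧ p τ := by
  by_contra hc
  push Not at hc
  have h0 : M.P p ≤ M.P (fun _ => False) := M.P_mono fun τ hτ h1 => hc τ hτ h1
  have h1 : M.P (fun _ => False) = 0 := by
    rw [M.P_def]
    simp only [if_false]
    exact M.E_const 0
  linarith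

/-- The points of a box. -/
private noncomputable def Cv_box (L : ℝ) : Finset V :=
  Finset.Icc (-(⌊L⌋₊ : ℤ)) ⌊L⌋₊ ×ˢ Finset.Icc (-(⌊L⌋₊ : ℤ)) ⌊L⌋₊

private theorem Cv_mem {L : ℝ} {x : V} (hx : nm x ≤ L) : x ∈ Cv_box L := by
  rw [nm_eq_nat] at hx
  have h1 : x.1.natAbs + x.2.natAbs ≤ ⌊L⌋₊ := Nat.le_floor hx
  unfold Cv_box
  rw [Finset.mem_product, Finset.mem_Icc, Finset.mem_Icc]
  omega

private theorem Cv_card {L : ℝ} (hL : 0 ≤ L) : ((Cv_box L).card : ℝ) ≤ (2 * L + 1) ^ 2 := by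
  unfold Cv_box
  rw [Finset.card_product, Int.card_Icc]
  have h1 : ((⌊L⌋₊ : ℤ) + 1 - (-(⌊L⌋₊ : ℤ))).toNat = 2 * ⌊L⌋₊ + 1 := by omega
  rw [h1, ← pow_two]
  push_cast
  have h2 : (⌊L⌋₊ : ℝ) ≤ L := Nat.floor_le hL
  have h3 : (0 : ℝ) ≤ ⌊L⌋₊ := Nat.cast_nonneg _
  exact pow_le_pow_left₀ (by linarith) (by linarith) 2

/-- One pair. -/
private theorem Cv_pair {Q : Par} {g : V → ℝ} {R : ℝ} {M : Mdl Q.a Q.b} (h : Good Q g R M) {s : ℝ} {x y : V}
    (hs : 4 ≤ s) (hsR : s ≤ R) (hxy : nm (y - x) ≤ R) :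
    M.P (fun τ => max s (nm (y - x)) ^ (3 / 5 : ℝ) < |T τ x y - g (y - x)|) ≤
      Q.K * Real.exp (-(s ^ (1 / 10 : ℝ) / (2 * Q.K))) := by
  set l : ℝ := max s (nm (y - x)) with hl
  have hls : s ≤ l := le_max_left _ _
  have hl4 : 4 ≤ l := hs.trans hls
  have hl0 : 0 < l := by linarith
  have hl1 : 1 ≤ l := by linarith
  have hK := Q.hK
  have hK0 : 0 < Q.K := by linarith
  have h2 : 2 ≤ l ^ (3 / 5 : ℝ) := by
    have e1 : (4 : ℝ) ^ (1 / 2 : ℝ) = 2 := by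
      rw [← Real.sqrt_eq_rpow, show (4 : ℝ) = 2 ^ 2 by norm_num, Real.sqrt_sq (by norm_num)]
    have e2 : (4 : ℝ) ^ (1 / 2 : ℝ) ≤ l ^ (1 / 2 : ℝ) := Real.rpow_le_rpow (by norm_num) hl4 (by norm_num)
    have e3 : l ^ (1 / 2 : ℝ) ≤ l ^ (3 / 5 : ℝ) := Real.rpow_le_rpow_of_exponent_le hl1 (by norm_num)
    linarith
  have h3 := conc' h (l := l) (s := l ^ (3 / 5 : ℝ) / 2) (x := x) (y := y) hl1 (le_max_right _ _)
    (max_le hsR hxy) (by linarith)
  refine le_trans (M.P_mono fun τ _ h4 => ?_) (h3.trans ?_)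
  · have h5 := mean' h hxy (x := x) (y := y)
    have h6 : |T τ x y - g (y - x)| ≤ |T τ x y - M.E fun τ => T τ x y| +
        |(M.E fun τ => T τ x y) - g (y - x)| := abs_sub_le _ _ _
    linarith
  · refine mul_le_mul_of_nonneg_left ?_ hK0.le
    rw [Real.exp_le_exp, neg_le_neg_iff]
    have e1 : l ^ (3 / 5 : ℝ) = l ^ (1 / 10 : ℝ) * Real.sqrt l := by
      rw [Real.sqrt_eq_rpow, ← Real.rpow_add hl0]
      norm_num
    have e2 : 0 < Real.sqrt l := Real.sqrt_pos.2 hl0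
    have e3 : l ^ (3 / 5 : ℝ) / 2 / (Q.K * Real.sqrt l) = l ^ (1 / 10 : ℝ) / (2 * Q.K) := by
      rw [e1]
      field_simp
    rw [e3]
    refine div_le_div_of_nonneg_right ?_ (by linarith)
    exact Real.rpow_le_rpow (by linarith) hls (by norm_num)

/-- The union bound. -/
private theorem Cv_union {Q : Par} {g : V → ℝ} {R : ℝ} {M : Mdl Q.a Q.b} (h : Good Q g R M) {s L : ℝ}
    (hs : 4 ≤ s) (hsR : s ≤ R) (hL : 0 ≤ L) (hLR : 2 * L ≤ R) :
    M.P (fun τ => ¬ Ov g L s τ) ≤ (2 * L + 1) ^ 4 * (Q.K * Real.exp (-(s ^ (1 / 10 : ℝ) / (2 * Q.K)))) := by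
  classical
  have hK := Q.hK
  set ρ : ℝ := Q.K * Real.exp (-(s ^ (1 / 10 : ℝ) / (2 * Q.K))) with hρ
  have hρ0 : 0 ≤ ρ := mul_nonneg (by linarith) (Real.exp_pos _).le
  set B : Finset V := (Cv_box L).filter fun x => nm x ≤ L with hB
  have hBc : (B.card : ℝ) ≤ (2 * L + 1) ^ 2 := by
    refine le_trans ?_ (Cv_card hL)
    exact_mod_cast Finset.card_filter_le _ _
  have hB0 : (0 : ℝ) ≤ B.card := Nat.cast_nonneg _
  have h1 : M.P (fun τ => ¬ Ov g L s τ) ≤ M.P (fun τ => ∃ i ∈ B ×ˢ B,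
      max s (nm (i.2 - i.1)) ^ (3 / 5 : ℝ) < |T τ i.1 i.2 - g (i.2 - i.1)|) := by
    refine M.P_mono fun τ _ h2 => ?_
    unfold Ov at h2
    push Not at h2
    obtain ⟨x, y, hx, hy, h3⟩ := h2
    refine ⟨(x, y), ?_, h3⟩
    rw [Finset.mem_product, hB, Finset.mem_filter, Finset.mem_filter]
    exact ⟨⟨Cv_mem hx, hx⟩, Cv_mem hy, hy⟩
  refine h1.trans ((M.P_exists_le (B ×ˢ B) _).trans ?_)
  have h2 : ∀ i ∈ B ×ˢ B, M.P (fun τ => max s (nm (i.2 - i.1)) ^ (3 / 5 : ℝ) < |T τ i.1 i.2 - g (i.2 - i.1)|) ≤ ρ := by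
    intro i hi
    rw [Finset.mem_product, hB, Finset.mem_filter, Finset.mem_filter] at hi
    refine Cv_pair h hs hsR ?_
    have e1 : nm (i.2 - i.1) ≤ nm i.2 + nm i.1 := by
      rw [sub_eq_add_neg]
      have := nm_add_le i.2 (-i.1)
      rwa [nm_neg] at this
    linarith [hi.1.2, hi.2.2]
  refine (Finset.sum_le_sum h2).trans ?_
  rw [Finset.sum_const, nsmul_eq_mul, Finset.card_product]
  push_cast
  refine mul_le_mul_of_nonneg_right ?_ hρ0
  calc (B.card : ℝ) * B.card ≤ (2 * L + 1) ^ 2 * (2 * L + 1) ^ 2 :=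
        mul_le_mul hBc hBc hB0 (by positivity)
    _ = (2 * L + 1) ^ 4 := by ring

/-- The numerical estimate. -/
private theorem Cv_num {K : ℝ} (hK : 1 ≤ K) (A B : ℕ) : ∃ s₀ : ℝ, 4 ≤ s₀ ∧ ∀ s : ℝ, s₀ ≤ s →
    (2 * s ^ A + 1) ^ 4 * (K * Real.exp (-(s ^ (1 / 10 : ℝ) / (2 * K)))) ≤ 1 / s ^ B := by
  have hK0 : 0 < K := by linarith
  have hb : 0 < 1 / (2 * K) := by positivity
  have h1 := (isLittleO_pow_exp_pos_mul_atTop (k := 40 * A + 10 * B) hb).def (c := 1 / (81 * K)) (by positivity)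
  rw [Filter.eventually_atTop] at h1
  obtain ⟨u₀, hu₀⟩ := h1
  refine ⟨max 4 (max 0 u₀ ^ 10), le_max_left _ _, fun s hs => ?_⟩
  have hs4 : 4 ≤ s := (le_max_left _ _).trans hs
  have hs0 : 0 < s := by linarith
  set u : ℝ := s ^ (1 / 10 : ℝ) with hu
  have hu0 : 0 < u := Real.rpow_pos_of_pos hs0 _
  have hus : u ^ 10 = s := by
    rw [hu, ← Real.rpow_natCast, ← Real.rpow_mul hs0.le]
    norm_num
  have huu : u₀ ≤ u := by
    have e1 : max 0 u₀ ^ 10 ≤ u ^ 10 := by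
      rw [hus]
      exact (le_max_right _ _).trans hs
    have e2 : max 0 u₀ ≤ u := le_of_pow_le_pow_left₀ (by norm_num) hu0.le e1
    exact (le_max_right _ _).trans e2
  have h2 := hu₀ u huu
  rw [Real.norm_eq_abs, Real.norm_eq_abs, abs_of_nonneg (by positivity), abs_of_pos (Real.exp_pos _)] at h2
  have h3 : u ^ (40 * A + 10 * B) = (s ^ A) ^ 4 * s ^ B := by
    rw [← hus]
    ring
  rw [h3] at h2
  have hsA : 1 ≤ s ^ A := one_le_pow₀ (by linarith)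
  have hsB : 0 < s ^ B := by positivity
  have h4 : (2 * s ^ A + 1) ^ 4 ≤ 81 * (s ^ A) ^ 4 := by
    calc (2 * s ^ A + 1) ^ 4 ≤ (3 * s ^ A) ^ 4 := pow_le_pow_left₀ (by positivity) (by linarith) 4
      _ = 81 * (s ^ A) ^ 4 := by ring
  have h5 : Real.exp (-(u / (2 * K))) = 1 / Real.exp (1 / (2 * K) * u) := by
    rw [Real.exp_neg, one_div, show u / (2 * K) = 1 / (2 * K) * u by ring]
  rw [h5, le_div_iff₀ hsB]
  have h6 : 0 < Real.exp (1 / (2 * K) * u) := Real.exp_pos _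
  have h7 : (2 * s ^ A + 1) ^ 4 * (K * (1 / Real.exp (1 / (2 * K) * u))) * s ^ B =
      ((2 * s ^ A + 1) ^ 4 * K * s ^ B) / Real.exp (1 / (2 * K) * u) := by
    field_simp
  rw [h7, div_le_one h6]
  have h8 : (2 * s ^ A + 1) ^ 4 * K * s ^ B ≤ 81 * (s ^ A) ^ 4 * K * s ^ B := by
    have := mul_le_mul_of_nonneg_right (mul_le_mul_of_nonneg_right h4 hK0.le) hsB.le
    exact this
  have h9 : 81 * (s ^ A) ^ 4 * K * s ^ B = 81 * K * ((s ^ A) ^ 4 * s ^ B) := by ring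
  have h10 : 81 * K * ((s ^ A) ^ 4 * s ^ B) ≤ 81 * K * (1 / (81 * K) * Real.exp (1 / (2 * K) * u)) :=
    mul_le_mul_of_nonneg_left h2 (by positivity)
  have h11 : 81 * K * (1 / (81 * K) * Real.exp (1 / (2 * K) * u)) = Real.exp (1 / (2 * K) * u) := by
    field_simp
  linarith

/-- The same with a quantitative bound: the probability is smaller than any power. -/
theorem P_Ov_pow (Q : Par) (g : V → ℝ) (A B : ℕ) : ∃ s₀ : ℝ, 1 ≤ s₀ ∧ ∀ (s R : ℝ) (M : Mdl Q.a Q.b),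
    s₀ ≤ s → 2 * s ^ A ≤ R → s ≤ R → Good Q g R M → M.P (fun τ => ¬ Ov g (s ^ A) s τ) ≤ 1 / s ^ B := by
  obtain ⟨s₀, hs₀, h⟩ := Cv_num Q.hK A B
  refine ⟨s₀, by linarith, fun s R M hs hA hR hM => ?_⟩
  have hs4 : 4 ≤ s := hs₀.trans hs
  exact (Cv_union hM hs4 hR (by positivity) hA).trans (h s hs)

/-- All passage times of the box of size `s ^ A` are close to their means.  PROOF. For `x, y` in the box let `l = max s (nm (y - x)) ≤ 2 s ^ A`;
`|T x y - g (y - x)| > l ^ (3/5)` implies `|T - E T| ≥ l ^ (3/5) - 1 ≥ l ^ (3/5) / 2` (`mean'`), of probability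
`≤ K exp (-(l ^ (1/10) / (2 K)))` (`conc'`); there are at most `(2 s ^ A + 1) ^ 4` pairs and `l ≥ s`. -/
theorem P_Ov (Q : Par) (g : V → ℝ) (A : ℕ) : ∀ ε : ℝ, 0 < ε → ∃ s₀ : ℝ, 1 ≤ s₀ ∧ ∀ (s R : ℝ) (M : Mdl Q.a Q.b),
    s₀ ≤ s → 2 * s ^ A ≤ R → s ≤ R → Good Q g R M → M.P (fun τ => ¬ Ov g (s ^ A) s τ) ≤ ε := by
  intro ε hε
  obtain ⟨s₀, hs₀, h⟩ := P_Ov_pow Q g A 1
  refine ⟨max s₀ (1 / ε), hs₀.trans (le_max_left _ _), fun s R M hs hA hR hM => ?_⟩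
  have h1 := h s R M ((le_max_left _ _).trans hs) hA hR hM
  have h2 : 1 / ε ≤ s := (le_max_right _ _).trans hs
  refine h1.trans ?_
  rw [pow_one]
  have h3 : 0 < 1 / ε := by positivity
  have h4 := one_div_le_one_div_of_le h3 h2
  rwa [one_div_one_div] at h4

end Pool.Agent.W_1b8d5d_fe
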