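import Pool.Agent.W_1b8d5d_fe.Defs
import Pool.Agent.W_1b8d5d_fe.Cv
import Pool.Agent.W_1b8d5d_c1.Geo

/-!
MP_1b8d5d_pr (FE): levels, the wide cone, the double cones and the passage times `Tc`.  (Compare `W_1b8d5d_c1/Geo.lean`, the same lemmas for the
narrow cone `Kn c`, `Db`, `Ts`.)
-/

set_option autoImplicit false

namespace Pool.Agent.W_1b8d5d_fe

open Finset Pool.Agent.W_1b8d5d_h85

theorem lv_add (c : Crd) (x y : V) : lv c (x + y) = lv c x + lv c y := by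
  unfold lv
  rw [map_add, map_add]
  ring

theorem lv_sub (c : Crd) (x y : V) : lv c (x - y) = lv c x - lv c y := by
  unfold lv
  rw [map_sub, map_sub]
  ring

theorem lv_neg (c : Crd) (x : V) : lv c (-x) = -lv c x := by
  unfold lv
  rw [map_neg, map_neg]
  ring

theorem lv_zero (c : Crd) : lv c 0 = 0 := by
  unfold lv
  rw [map_zero, map_zero, add_zero]

theorem lv_rd (c : Crd) (α β : ℝ) : |lv c (c.rd α β) - (α + β)| ≤ 2 * c.C := by
  have h1 := abs_le.1 (c.rd_p α β)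
  have h2 := abs_le.1 (c.rd_q α β)
  unfold lv
  rw [abs_le]
  constructor <;> linarith [h1.1, h1.2, h2.1, h2.2]

theorem lv_swp (c : Crd) (z : V) : lv (swp c) z = lv c z := by
  show c.q z + c.p z = c.p z + c.q z
  ring

theorem swp_swp (c : Crd) : swp (swp c) = c := rfl

theorem lv_le_nm (c : Crd) (z : V) : |lv c z| ≤ 2 * c.C * nm z := by
  have h1 := abs_le.1 (c.p_le z)
  have h2 := abs_le.1 (c.q_le z)
  unfold lv
  rw [abs_le]
  constructor <;> linarith [h1.1, h1.2, h2.1, h2.2]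

theorem lv_adj {c : Crd} {x y : V} (h : grid.Adj x y) : |lv c y - lv c x| ≤ 2 * c.C := by
  have h1 := lv_le_nm c (y - x)
  rw [nm_adj h, lv_sub] at h1
  linarith

theorem p_adj {c : Crd} {x y : V} (h : grid.Adj x y) : |c.p y - c.p x| ≤ c.C := by
  have h1 := c.p_le (y - x)
  rw [nm_adj h, map_sub] at h1
  linarith

theorem q_adj {c : Crd} {x y : V} (h : grid.Adj x y) : |c.q y - c.q x| ≤ c.C := by
  have h1 := c.q_le (y - x)
  rw [nm_adj h, map_sub] at h1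
  linarith

/-- `nm` in terms of the level and of `q`. -/
theorem nm_le_lq (c : Crd) (z : V) : nm z ≤ 2 * c.C * (|lv c z| + |c.q z|) := by
  have h0 := c.nm_le z
  have hC : 0 ≤ c.C := by linarith [c.one_le]
  have h1 : c.p z = lv c z - c.q z := by
    unfold lv
    ring
  have h2 : |c.p z| ≤ |lv c z| + |c.q z| := by
    rw [h1]
    exact abs_sub _ _
  have h3 : |c.p z| + |c.q z| ≤ 2 * (|lv c z| + |c.q z|) := by
    linarith [abs_nonneg (lv c z)]
  have h4 := mul_le_mul_of_nonneg_left h3 hC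
  linarith

theorem Wc_swp (c : Crd) : Wc (swp c) = Wc c := by
  ext z
  show (0 ≤ 2 * c.q z + c.p z ∧ 0 ≤ c.q z + 2 * c.p z) ↔ (0 ≤ 2 * c.p z + c.q z ∧ 0 ≤ c.p z + 2 * c.q z)
  constructor
  · rintro ⟨h1, h2⟩
    constructor <;> linarith
  · rintro ⟨h1, h2⟩
    constructor <;> linarith

theorem Wc_zero (c : Crd) : (0 : V) ∈ Wc c := by
  show 0 ≤ 2 * c.p 0 + c.q 0 ∧ 0 ≤ c.p 0 + 2 * c.q 0
  rw [map_zero, map_zero]
  constructor <;> norm_num

theorem Wc_add {c : Crd} {x y : V} (hx : x ∈ Wc c) (hy : y ∈ Wc c) : x + y ∈ Wc c := by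
  obtain ⟨h1, h2⟩ := hx
  obtain ⟨h3, h4⟩ := hy
  show 0 ≤ 2 * c.p (x + y) + c.q (x + y) ∧ 0 ≤ c.p (x + y) + 2 * c.q (x + y)
  rw [map_add, map_add]
  constructor <;> linarith

/-- The cone `p, q ≥ 0` is contained in the wide cone. -/
theorem Wc_of_nonneg {c : Crd} {z : V} (h1 : 0 ≤ c.p z) (h2 : 0 ≤ c.q z) : z ∈ Wc c := by
  show 0 ≤ 2 * c.p z + c.q z ∧ 0 ≤ c.p z + 2 * c.q z
  constructor <;> linarith

theorem Wc_lv {c : Crd} {z : V} (h : z ∈ Wc c) : 0 ≤ lv c z := by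
  obtain ⟨h1, h2⟩ := h
  unfold lv
  linarith

theorem Wc_pq {c : Crd} {z : V} (h : z ∈ Wc c) : |c.p z| ≤ 2 * lv c z ∧ |c.q z| ≤ 2 * lv c z := by
  obtain ⟨h1, h2⟩ := h
  unfold lv
  rw [abs_le, abs_le]
  refine ⟨⟨?_, ?_⟩, ?_, ?_⟩ <;> linarith

theorem Wc_nm {c : Crd} {z : V} (h : z ∈ Wc c) : nm z ≤ 4 * c.C * lv c z := by
  have h0 := c.nm_le z
  have hC : 0 ≤ c.C := by linarith [c.one_le]
  obtain ⟨h1, h2⟩ := Wc_pq h
  have h3 : |c.p z| + |c.q z| ≤ 4 * lv c z := by linarith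
  have h4 := mul_le_mul_of_nonneg_left h3 hC
  linarith

/-- The vertex of the cone is its only point of level `0`. -/
theorem Wc_top {c : Crd} {z : V} (h : z ∈ Wc c) (h' : lv c z ≤ 0) : z = 0 := by
  have h1 := Wc_nm h
  have hC : 0 ≤ c.C := by linarith [c.one_le]
  have h2 : lv c z = 0 := le_antisymm h' (Wc_lv h)
  rw [h2, mul_zero] at h1
  exact nm_eq_zero.1 (le_antisymm h1 (nm_nonneg z))

theorem wd_sum (c : Crd) (z : V) : (wd c).p z + (wd c).q z = lv c z := by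
  show (2 * c.p z + c.q z) / 3 + (c.p z + 2 * c.q z) / 3 = c.p z + c.q z
  ring

/-- The wide cone at `x` is the quadrant of the coordinates `wd c`. -/
theorem Wc_eq_Qd (c : Crd) (x : V) : {z | z - x ∈ Wc c} = Pool.Agent.W_1b8d5d_c1.Qd (wd c) 0 x := by
  ext z
  show (0 ≤ 2 * c.p (z - x) + c.q (z - x) ∧ 0 ≤ c.p (z - x) + 2 * c.q (z - x)) ↔
    (wdp c x ≤ wdp c z ∧ wdq c x - 0 ≤ wdq c z)
  rw [wdp_apply, wdp_apply, wdq_apply, wdq_apply]
  simp only [map_sub]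
  constructor
  · rintro ⟨h1, h2⟩
    constructor <;> linarith
  · rintro ⟨h1, h2⟩
    constructor <;> linarith

/-- Vectors of the middle directions of a large level are in the wide cone. -/
theorem Md_Wc {c : Crd} {D : ℝ} {z : V} (hD : 0 < D) (h : z ∈ Md c D) (h' : (4 * D + 8) * c.C ≤ lv c z) :
    z ∈ Wc c ∧ 0 ≤ c.p z ∧ 0 ≤ c.q z := by
  obtain ⟨h1, h2⟩ := h
  have h3 : 0 ≤ c.p z := by
    by_contra h4
    push Not at h4
    have h5 := mul_neg_of_pos_of_neg hD h4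
    linarith
  have h4 : 0 ≤ c.q z := by
    by_contra h4
    push Not at h4
    have h5 := mul_neg_of_pos_of_neg hD h4
    linarith
  exact ⟨Wc_of_nonneg h3 h4, h3, h4⟩

/-- The middle third. -/
theorem Md_of {c : Crd} {D : ℝ} {z : V} (hD : 3 ≤ D) (hp : 0 ≤ c.p z) (hq : 0 ≤ c.q z) (h1 : lv c z ≤ 3 * c.p z + 20 * c.C)
    (h2 : lv c z ≤ 3 * c.q z + 20 * c.C) : z ∈ Md c D := by
  have hC : 0 ≤ c.C := by linarith [c.one_le]
  have h3 := mul_le_mul_of_nonneg_right hD hp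
  have h4 := mul_le_mul_of_nonneg_right hD hq
  have h5 := mul_le_mul_of_nonneg_right hD hC
  show lv c z ≤ D * c.p z + (4 * D + 8) * c.C ∧ lv c z ≤ D * c.q z + (4 * D + 8) * c.C
  constructor <;> linarith

theorem Md_zero (c : Crd) {D : ℝ} (hD : 0 ≤ D) : (0 : V) ∈ Md c D := by
  have hC : 0 ≤ c.C := by linarith [c.one_le]
  have h1 : 0 ≤ (4 * D + 8) * c.C := mul_nonneg (by linarith) hC
  show lv c 0 ≤ D * c.p 0 + (4 * D + 8) * c.C ∧ lv c 0 ≤ D * c.q 0 + (4 * D + 8) * c.C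
  rw [lv_zero, map_zero, map_zero, mul_zero, zero_add]
  exact ⟨h1, h1⟩

theorem Md_swp (c : Crd) (D : ℝ) : Md (swp c) D = Md c D := by
  ext z
  show (lv (swp c) z ≤ D * c.q z + (4 * D + 8) * c.C ∧ lv (swp c) z ≤ D * c.p z + (4 * D + 8) * c.C) ↔
    (lv c z ≤ D * c.p z + (4 * D + 8) * c.C ∧ lv c z ≤ D * c.q z + (4 * D + 8) * c.C)
  rw [lv_swp]
  exact and_comm

theorem Dc_swp (c : Crd) (x y : V) : Dc (swp c) x y = Dc c x y := by
  unfold Dc
  rw [Wc_swp]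

theorem Dc_lv {c : Crd} {x y z : V} (h : z ∈ Dc c x y) : lv c x ≤ lv c z ∧ lv c z ≤ lv c y := by
  have h1 := Wc_lv h.1
  have h2 := Wc_lv h.2
  rw [lv_sub] at h1 h2
  constructor <;> linarith

/-- `y` is the only point of the double cone of level at least `lv y`. -/
theorem Dc_top {c : Crd} {x y z : V} (h : z ∈ Dc c x y) (h' : lv c y ≤ lv c z) : z = y := by
  have h1 : y - z = 0 := by
    refine Wc_top h.2 ?_
    rw [lv_sub]
    linarith
  exact (sub_eq_zero.1 h1).symm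

/-- `x` is the only point of the double cone of level at most `lv x`. -/
theorem Dc_bot {c : Crd} {x y z : V} (h : z ∈ Dc c x y) (h' : lv c z ≤ lv c x) : z = x := by
  have h1 : z - x = 0 := by
    refine Wc_top h.1 ?_
    rw [lv_sub]
    linarith
  exact sub_eq_zero.1 h1

/-- An edge of the double cone has an end point of level less than `lv y`. -/
theorem Dc_edge {c : Crd} {x y : V} {e : Edge} (he : e ∈ edg (Dc c x y)) :
    lv c e.1 < lv c y ∨ lv c (e.1 + dir e.2) < lv c y := by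
  by_contra h
  push Not at h
  have h1 := Dc_top he.1 h.1
  have h2 := Dc_top he.2 h.2
  have h3 : dir e.2 = 0 := by
    have h4 : e.1 + dir e.2 = e.1 := h2.trans h1.symm
    exact add_eq_left.1 h4
  have h5 := nm_dir e.2
  rw [h3, nm_zero] at h5
  norm_num at h5

theorem Dc_left {c : Crd} {x y z : V} (hz : y - z ∈ Wc c) : Dc c x z ⊆ Dc c x y := by
  rintro w ⟨h1, h2⟩
  refine ⟨h1, ?_⟩
  have h3 := Wc_add hz h2
  rwa [sub_add_sub_cancel] at h3

theorem Dc_right {c : Crd} {x y z : V} (hz : z - x ∈ Wc c) : Dc c z y ⊆ Dc c x y := by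
  rintro w ⟨h1, h2⟩
  refine ⟨?_, h2⟩
  have h3 := Wc_add h1 hz
  rwa [sub_add_sub_cancel] at h3

theorem Dc_nm {c : Crd} {x y z : V} (h : z ∈ Dc c x y) : nm (z - x) ≤ 4 * c.C * lv c (y - x) := by
  have h1 := Wc_nm h.1
  have h2 := Wc_lv h.2
  have hC : 0 ≤ 4 * c.C := by linarith [c.one_le]
  have h3 : lv c (z - x) ≤ lv c (y - x) := by
    rw [lv_sub] at h2 ⊢
    rw [lv_sub]
    linarith
  exact h1.trans (mul_le_mul_of_nonneg_left h3 hC)

theorem Dc_pq {c : Crd} {x y z : V} (h : z ∈ Dc c x y) :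
    |c.p (z - x)| ≤ 2 * lv c (y - x) ∧ |c.q (z - x)| ≤ 2 * lv c (y - x) := by
  obtain ⟨h1, h1'⟩ := Wc_pq h.1
  have h2 := Wc_lv h.2
  have h3 : lv c (z - x) ≤ lv c (y - x) := by
    rw [lv_sub] at h2 ⊢
    rw [lv_sub]
    linarith
  constructor <;> linarith

section bd

variable {a b : ℝ} {τ : Env}

theorem T_le_Tc (ha : 0 ≤ a) (hτ : Bd a b τ) (c : Crd) (x y : V) : T τ x y ≤ Tc b c τ x y := by
  exact T_le_res ha hτ _ x y

theorem Tc_nonneg (ha : 0 ≤ a) (hab : a ≤ b) (hτ : Bd a b τ) (c : Crd) (x y : V) : 0 ≤ Tc b c τ x y := by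
  exact T_nonneg (Bd_res hab hτ _) ha x y

theorem Tc_upper (ha : 0 ≤ a) (hab : a ≤ b) (hτ : Bd a b τ) (c : Crd) (x y : V) : Tc b c τ x y ≤ b * nm (y - x) := by
  exact T_upper (Bd_res hab hτ _) ha x y

/-- Concatenation. -/
theorem Tc_triangle (ha : 0 ≤ a) (hab : a ≤ b) (hτ : Bd a b τ) {c : Crd} {x y z : V} (h1 : z - x ∈ Wc c)
    (h2 : y - z ∈ Wc c) : Tc b c τ x y ≤ Tc b c τ x z + Tc b c τ z y := by
  have e1 := T_triangle (Bd_res hab hτ (edg (Dc c x y))) ha x z y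
  have e2 := T_res_anti ha hab hτ (Pool.Agent.W_1b8d5d_c1.edg_mono (Dc_left (x := x) h2)) x z
  have e3 := T_res_anti ha hab hτ (Pool.Agent.W_1b8d5d_c1.edg_mono (Dc_right (y := y) h1)) z y
  unfold Tc
  linarith

/-- Concatenation of three pieces, the middle one with the weights of a subset `A` of the double cone. -/
theorem Tc_three (ha : 0 ≤ a) (hab : a ≤ b) (hτ : Bd a b τ) {c : Crd} {x u v y : V} (A : Set Edge)
    (hA : A ⊆ edg (Dc c x y)) (h1 : u - x ∈ Wc c) (h1' : y - u ∈ Wc c) (h2 : v - x ∈ Wc c) (h2' : y - v ∈ Wc c) :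
    Tc b c τ x y ≤ Tc b c τ x u + T (res b A τ) u v + Tc b c τ v y := by
  have e1 := T_triangle (Bd_res hab hτ (edg (Dc c x y))) ha x u y
  have e1' := T_triangle (Bd_res hab hτ (edg (Dc c x y))) ha u v y
  have e2 := T_res_anti ha hab hτ (Pool.Agent.W_1b8d5d_c1.edg_mono (Dc_left (x := x) h1')) x u
  have e3 := T_res_anti ha hab hτ (Pool.Agent.W_1b8d5d_c1.edg_mono (Dc_right (y := y) h2)) v y
  have e4 := T_res_anti ha hab hτ hA u v
  unfold Tc
  linarith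

/-- The passage time with the weights of a set containing the double cone. -/
theorem T_res_le_Tc (ha : 0 ≤ a) (hab : a ≤ b) (hτ : Bd a b τ) {c : Crd} {x y : V} {A : Set V} (h : Dc c x y ⊆ A) :
    T (res b (edg A) τ) x y ≤ Tc b c τ x y := by
  exact T_res_anti ha hab hτ (Pool.Agent.W_1b8d5d_c1.edg_mono h) x y

end bd

theorem Tc_swp (b : ℝ) (c : Crd) (τ : Env) (x y : V) : Tc b (swp c) τ x y = Tc b c τ x y := by
  unfold Tc
  rw [Dc_swp]

theorem Tc_sh (b : ℝ) (c : Crd) (τ : Env) (z x y : V) : Tc b c (sh z τ) x y = Tc b c τ (x + z) (y + z) := by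
  unfold Tc
  rw [Pool.Agent.W_1b8d5d_c1.T_res_sh]
  have h1 : {w | w - z ∈ Dc c x y} = Dc c (x + z) (y + z) := by
    ext w
    show (w - z - x ∈ Wc c ∧ y - (w - z) ∈ Wc c) ↔ (w - (x + z) ∈ Wc c ∧ y + z - w ∈ Wc c)
    have e1 : w - z - x = w - (x + z) := by abel
    have e2 : y - (w - z) = y + z - w := by abel
    rw [e1, e2]
  rw [h1]

theorem Tc_dep (b : ℝ) (c : Crd) (x y : V) : DependsOn (fun τ : Env => Tc b c τ x y) (edg (Dc c x y)) := by
  exact dependsOn_T_res b _ x y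

/-- `Tc` between arbitrary points has the law of `Tc` from `0`. -/
theorem E_Tc {Q : Par} {g : V → ℝ} {R : ℝ} {M : Mdl Q.a Q.b} (h : Good Q g R M) (c : Crd) (F : ℝ → ℝ) (x y : V) :
    M.E (fun τ => F (Tc Q.b c τ x y)) = M.E fun τ => F (Tc Q.b c τ 0 (y - x)) := by
  rw [← h.inv x fun τ => F (Tc Q.b c τ 0 (y - x))]
  refine M.E_congr fun τ _ => ?_
  rw [Tc_sh, zero_add, sub_add_cancel]

theorem P_Tc {Q : Par} {g : V → ℝ} {R : ℝ} {M : Mdl Q.a Q.b} (h : Good Q g R M) (c : Crd) (p : ℝ → Prop) (x y : V) :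
    M.P (fun τ => p (Tc Q.b c τ x y)) = M.P fun τ => p (Tc Q.b c τ 0 (y - x)) := by
  rw [← P_sh h x fun τ => p (Tc Q.b c τ 0 (y - x))]
  have h1 : ∀ τ, Tc Q.b c (sh x τ) 0 (y - x) = Tc Q.b c τ x y := by
    intro τ
    rw [Tc_sh, zero_add, sub_add_cancel]
  simp only [h1]

/-- The mean positive excess between arbitrary points. -/
theorem E_exc {Q : Par} {g : V → ℝ} {R : ℝ} {M : Mdl Q.a Q.b} (h : Good Q g R M) (c : Crd) (x y : V) :
    M.E (fun τ => max (Tc Q.b c τ x y - lv c (y - x)) 0) = Sc M c (y - x) := by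
  exact E_Tc h c (fun t => max (t - lv c (y - x)) 0) x y

end Pool.Agent.W_1b8d5d_fe
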