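import Pool.Agent.W_1b8d5d_fe.Geo

/-!
MP_1b8d5d_pr (FE): the function `Fm`.
-/

set_option autoImplicit false

namespace Pool.Agent.W_1b8d5d_fe

open Finset Pool.Agent.W_1b8d5d_h85

section

variable {a b : ℝ} (M : Mdl a b) (c : Crd) {D : ℝ}

theorem Sc_nonneg (y : V) : 0 ≤ Sc M c y :=
  M.E_nonneg fun _ _ => le_max_right _ _

theorem Sc_swp (y : V) : Sc M (swp c) y = Sc M c y := by
  unfold Sc Tc
  refine M.E_congr fun τ _ => ?_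
  rw [Dc_swp, lv_swp]

/-- `Sc ≥ 0` (and `sSup ∅ = 0`, `sSup` of an unbounded set is `0`). -/
theorem Fm_one_le (n : ℝ) : 1 ≤ Fm M c D n := by
  unfold Fm
  have h : 0 ≤ sSup {t | ∃ y ∈ Md c D, 0 ≤ lv c y ∧ lv c y ≤ n ∧ t = Sc M c y} := by
    refine Real.sSup_nonneg ?_
    rintro t ⟨y, _, _, _, rfl⟩
    exact Sc_nonneg M c y
  linarith

private theorem FmL_ball (R : ℝ) : {y : V | nm y ≤ R}.Finite := by
  refine ((Set.finite_Icc (-(⌈R⌉)) ⌈R⌉).prod (Set.finite_Icc (-(⌈R⌉)) ⌈R⌉)).subset ?_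
  rintro ⟨y1, y2⟩ hy
  have hy' : |(y1 : ℝ)| + |(y2 : ℝ)| ≤ R := hy
  have h0 := Int.le_ceil R
  have e1 : |(y1 : ℝ)| ≤ (⌈R⌉ : ℝ) := by linarith [abs_nonneg (y2 : ℝ)]
  have e2 : |(y2 : ℝ)| ≤ (⌈R⌉ : ℝ) := by linarith [abs_nonneg (y1 : ℝ)]
  rw [abs_le] at e1 e2
  refine ⟨⟨?_, ?_⟩, ⟨?_, ?_⟩⟩
  · have h := e1.1
    exact_mod_cast h
  · have h := e1.2
    exact_mod_cast h
  · have h := e2.1
    exact_mod_cast h
  · have h := e2.2
    exact_mod_cast h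

private theorem FmL_fin (hD : 0 < D) (n : ℝ) :
    {y : V | y ∈ Md c D ∧ 0 ≤ lv c y ∧ lv c y ≤ n}.Finite := by
  refine (FmL_ball (c.C * ((|n| + 2 * ((4 * D + 8) * c.C / D)) +
    (|n| + 2 * ((4 * D + 8) * c.C / D))))).subset ?_
  rintro y ⟨⟨h1, h2⟩, h3, h4⟩
  have hK : (4 * D + 8) * c.C = D * ((4 * D + 8) * c.C / D) := by
    rw [mul_div_cancel₀ _ hD.ne']
  set K : ℝ := (4 * D + 8) * c.C / D with hKd
  have hC : 1 ≤ c.C := c.one_le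
  have hK0 : 0 ≤ K := by
    rw [hKd]
    apply div_nonneg _ hD.le
    apply mul_nonneg _ (by linarith)
    linarith
  have hp : 0 ≤ c.p y + K := by
    have : 0 ≤ D * (c.p y + K) := by
      rw [mul_add]
      linarith
    exact nonneg_of_mul_nonneg_right this hD
  have hq : 0 ≤ c.q y + K := by
    have : 0 ≤ D * (c.q y + K) := by
      rw [mul_add]
      linarith
    exact nonneg_of_mul_nonneg_right this hD
  have hn : n ≤ |n| := le_abs_self n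
  have hlv : lv c y = c.p y + c.q y := rfl
  have hp' : |c.p y| ≤ |n| + 2 * K := by
    rw [abs_le]
    constructor <;> linarith [abs_nonneg n]
  have hq' : |c.q y| ≤ |n| + 2 * K := by
    rw [abs_le]
    constructor <;> linarith [abs_nonneg n]
  have h5 := c.nm_le y
  have h6 : c.C * (|c.p y| + |c.q y|) ≤ c.C * ((|n| + 2 * K) + (|n| + 2 * K)) :=
    mul_le_mul_of_nonneg_left (add_le_add hp' hq') (by linarith)
  exact h5.trans h6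

private theorem FmL_sfin (hD : 0 < D) (n : ℝ) :
    {t | ∃ y ∈ Md c D, 0 ≤ lv c y ∧ lv c y ≤ n ∧ t = Sc M c y}.Finite := by
  refine ((FmL_fin c hD n).image fun y => Sc M c y).subset ?_
  rintro t ⟨y, h1, h2, h3, rfl⟩
  exact ⟨y, ⟨h1, h2, h3⟩, rfl⟩

/-- For `0 < D` the set of the candidates is finite (`Md` and `0 ≤ lv ≤ n` bound `p` and `q`). -/
theorem Fm_mono (hD : 0 < D) {n n' : ℝ} (h : n ≤ n') : Fm M c D n ≤ Fm M c D n' := by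
  have h1 : sSup {t | ∃ y ∈ Md c D, 0 ≤ lv c y ∧ lv c y ≤ n ∧ t = Sc M c y} ≤
      sSup {t | ∃ y ∈ Md c D, 0 ≤ lv c y ∧ lv c y ≤ n' ∧ t = Sc M c y} := by
    refine Real.sSup_le ?_ ?_
    · rintro t ⟨y, h1, h2, h3, rfl⟩
      exact le_csSup (FmL_sfin M c hD n').bddAbove ⟨y, h1, h2, h3.trans h, rfl⟩
    · refine Real.sSup_nonneg ?_
      rintro t ⟨y, _, _, _, rfl⟩
      exact Sc_nonneg M c y
  unfold Fm
  linarith

theorem Sc_le_Fm (hD : 0 < D) {y : V} {n : ℝ} (hy : y ∈ Md c D) (h0 : 0 ≤ lv c y) (hn : lv c y ≤ n) :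
    Sc M c y ≤ Fm M c D n - 1 := by
  have h1 : Sc M c y ≤ sSup {t | ∃ y ∈ Md c D, 0 ≤ lv c y ∧ lv c y ≤ n ∧ t = Sc M c y} :=
    le_csSup (FmL_sfin M c hD n).bddAbove ⟨y, hy, h0, hn, rfl⟩
  unfold Fm
  linarith

/-- The supremum is attained. -/
theorem Fm_att (hD : 0 < D) {n : ℝ} (hn : 0 ≤ n) :
    ∃ y ∈ Md c D, 0 ≤ lv c y ∧ lv c y ≤ n ∧ Fm M c D n = 1 + Sc M c y := by
  have hne : {t | ∃ y ∈ Md c D, 0 ≤ lv c y ∧ lv c y ≤ n ∧ t = Sc M c y}.Nonempty := by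
    refine ⟨Sc M c 0, 0, Md_zero c hD.le, ?_, ?_, rfl⟩
    · rw [lv_zero]
    · rw [lv_zero]
      exact hn
  obtain ⟨y, h1, h2, h3, h4⟩ := hne.csSup_mem (FmL_sfin M c hD n)
  refine ⟨y, h1, h2, h3, ?_⟩
  unfold Fm
  rw [h4]

theorem Fm_swp (n : ℝ) : Fm M (swp c) D n = Fm M c D n := by
  unfold Fm
  rw [Md_swp]
  simp only [lv_swp, Sc_swp]

/-- Upper bound. -/
theorem Fm_le {n B : ℝ} (hB : 0 ≤ B) (h : ∀ y ∈ Md c D, 0 ≤ lv c y → lv c y ≤ n → Sc M c y ≤ B) :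
    Fm M c D n ≤ 1 + B := by
  have h1 : sSup {t | ∃ y ∈ Md c D, 0 ≤ lv c y ∧ lv c y ≤ n ∧ t = Sc M c y} ≤ B := by
    refine Real.sSup_le ?_ hB
    rintro t ⟨y, h1, h2, h3, rfl⟩
    exact h y h1 h2 h3
  unfold Fm
  linarith

end

end Pool.Agent.W_1b8d5d_fe
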