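import Pool.Agent.W_1b8d5d_fe.Tc1

/-!
MP_1b8d5d_pr (FE): the a priori bound for the mean excess of the passage times with the weights of the double cone.
-/

set_option autoImplicit false

namespace Pool.Agent.W_1b8d5d_fe

open Finset Pool.Agent.W_1b8d5d_h85

private theorem Tc2_up {a b : ℝ} {M : Mdl a b} (ha : 0 ≤ a) (hab : a ≤ b) (c : Crd) (A : Set Edge) (x : ℕ → V) (e : ℕ → ℝ) (J : ℕ)
    (h : ∀ j < J, M.E (fun τ => T (res b A τ) (x (j + 1)) (x j)) ≤ lv c (x j - x (j + 1)) + e j) :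
    M.E (fun τ => T (res b A τ) (x J) (x 0)) ≤ lv c (x 0 - x J) + ∑ j ∈ range J, e j := by
  induction J with
  | zero =>
    have h0 : M.E (fun τ => T (res b A τ) (x 0) (x 0)) ≤ 0 :=
      M.E_le_of_le fun τ hτ => (T_self (Bd_res hab hτ A) ha _).le
    rw [sub_self, lv_zero, range_zero, sum_empty, add_zero]
    exact h0
  | succ J ih =>
    have h1 := ih fun j hj => h j (by omega)
    have h2 := h J (by omega)
    have h3 : M.E (fun τ => T (res b A τ) (x (J + 1)) (x 0)) ≤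
        M.E (fun τ => T (res b A τ) (x (J + 1)) (x J) + T (res b A τ) (x J) (x 0)) :=
      M.E_mono fun τ hτ => T_triangle (Bd_res hab hτ A) ha _ _ _
    rw [M.E_add] at h3
    rw [sum_range_succ]
    have h4 : lv c (x 0 - x (J + 1)) = lv c (x 0 - x J) + lv c (x J - x (J + 1)) := by
      rw [← lv_add]; congr 1; abel
    linarith

private theorem Tc2_down {a b : ℝ} {M : Mdl a b} (ha : 0 ≤ a) (hab : a ≤ b) (c : Crd) (A : Set Edge) (x : ℕ → V) (e : ℕ → ℝ) (J : ℕ)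
    (h : ∀ j < J, M.E (fun τ => T (res b A τ) (x j) (x (j + 1))) ≤ lv c (x (j + 1) - x j) + e j) :
    M.E (fun τ => T (res b A τ) (x 0) (x J)) ≤ lv c (x J - x 0) + ∑ j ∈ range J, e j := by
  induction J with
  | zero =>
    have h0 : M.E (fun τ => T (res b A τ) (x 0) (x 0)) ≤ 0 :=
      M.E_le_of_le fun τ hτ => (T_self (Bd_res hab hτ A) ha _).le
    rw [sub_self, lv_zero, range_zero, sum_empty, add_zero]
    exact h0
  | succ J ih =>
    have h1 := ih fun j hj => h j (by omega)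
    have h2 := h J (by omega)
    have h3 : M.E (fun τ => T (res b A τ) (x 0) (x (J + 1))) ≤
        M.E (fun τ => T (res b A τ) (x 0) (x J) + T (res b A τ) (x J) (x (J + 1))) :=
      M.E_mono fun τ hτ => T_triangle (Bd_res hab hτ A) ha _ _ _
    rw [M.E_add] at h3
    rw [sum_range_succ]
    have h4 : lv c (x (J + 1) - x 0) = lv c (x J - x 0) + lv c (x (J + 1) - x J) := by
      rw [← lv_add]; congr 1; abel
    linarith

private theorem Tc2_half : ((1 : ℝ) / 2) ^ (7 / 10 : ℝ) ≤ 3 / 4 := by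
  have h1 : (((1 : ℝ) / 2) ^ (7 / 10 : ℝ)) ^ 10 ≤ (3 / 4) ^ 10 := by
    rw [← Real.rpow_natCast, ← Real.rpow_mul (by norm_num)]
    have : (7 / 10 : ℝ) * ((10 : ℕ) : ℝ) = ((7 : ℕ) : ℝ) := by norm_num
    rw [this, Real.rpow_natCast]
    norm_num
  exact le_of_pow_le_pow_left₀ (by norm_num) (by norm_num) h1

private theorem Tc2_term {L : ℝ} (hL : 0 ≤ L) (j : ℕ) :
    (L / 2 ^ (j + 3)) ^ (7 / 10 : ℝ) ≤ (3 / 4) ^ j * L ^ (7 / 10 : ℝ) := by
  induction j with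
  | zero =>
    rw [pow_zero, one_mul]
    exact Real.rpow_le_rpow (by positivity) (div_le_self hL (by norm_num)) (by norm_num)
  | succ j ih =>
    have h1 : L / 2 ^ (j + 1 + 3) = (1 / 2) * (L / 2 ^ (j + 3)) := by
      rw [show j + 1 + 3 = (j + 3) + 1 by ring, pow_succ]
      field_simp
    rw [h1, Real.mul_rpow (by norm_num) (by positivity), pow_succ]
    have h2 := Tc2_half
    have h3 : 0 ≤ (L / 2 ^ (j + 3)) ^ (7 / 10 : ℝ) := by positivity
    calc ((1 : ℝ) / 2) ^ (7 / 10 : ℝ) * (L / 2 ^ (j + 3)) ^ (7 / 10 : ℝ)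
        ≤ 3 / 4 * ((3 / 4) ^ j * L ^ (7 / 10 : ℝ)) := mul_le_mul h2 ih h3 (by norm_num)
      _ = (3 / 4) ^ j * (3 / 4) * L ^ (7 / 10 : ℝ) := by ring

private theorem Tc2_sum {L : ℝ} (hL : 0 ≤ L) (J : ℕ) :
    ∑ j ∈ range J, (L / 2 ^ (j + 3)) ^ (7 / 10 : ℝ) ≤ 4 * L ^ (7 / 10 : ℝ) := by
  have h1 : ∑ j ∈ range J, (L / 2 ^ (j + 3)) ^ (7 / 10 : ℝ) ≤ ∑ j ∈ range J, (3 / 4 : ℝ) ^ j * L ^ (7 / 10 : ℝ) :=
    sum_le_sum fun j _ => Tc2_term hL j
  have h2 : ∑ j ∈ range J, (3 / 4 : ℝ) ^ j ≤ 4 := by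
    have h3 : ∀ n : ℕ, ∑ j ∈ range n, (3 / 4 : ℝ) ^ j = 4 - 4 * (3 / 4) ^ n := by
      intro n
      induction n with
      | zero => norm_num
      | succ n ih => rw [sum_range_succ, ih, pow_succ]; ring
    rw [h3]
    have : (0 : ℝ) ≤ (3 / 4) ^ J := by positivity
    linarith
  rw [← sum_mul] at h1
  exact h1.trans (mul_le_mul_of_nonneg_right h2 (by positivity))

/-- The numbers of one step. -/
private theorem Tc2_step {c : Crd} {D L : ℝ} {y : V} {j : ℕ} (hD : 3 ≤ D) (hL : lv c y = L)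
    (hp : L ≤ 2 * D * c.p y) (hq : L ≤ 2 * D * c.q y) (hj : 16 * D * c.C ≤ L / 2 ^ (j + 3)) :
    let x : ℕ → V := fun j => c.rd (c.p y / 2 ^ (j + 1)) (c.q y / 2 ^ (j + 1))
    (1 ≤ lv c (x j - x (j + 1)) ∧ lv c (x j - x (j + 1)) ≤ 4 * (L / 2 ^ (j + 3)) ∧
      lv c (x j - x (j + 1)) ≤ 8 * D * c.p (x j - x (j + 1)) ∧ lv c (x j - x (j + 1)) ≤ 8 * D * c.q (x j - x (j + 1))) ∧
    nm (x j - x (j + 1)) ≤ 4 * c.C * (L / 2 ^ (j + 3)) ∧
    (L / 2 ^ (j + 3) ≤ 2 * c.p (x (j + 1)) + c.q (x (j + 1)) ∧ L / 2 ^ (j + 3) ≤ c.p (x (j + 1)) + 2 * c.q (x (j + 1))) ∧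
    (L / 2 ^ (j + 3) ≤ 2 * c.p (y - x j) + c.q (y - x j) ∧ L / 2 ^ (j + 3) ≤ c.p (y - x j) + 2 * c.q (y - x j)) := by
  intro x
  have hC : 1 ≤ c.C := c.one_le
  have hC0 : 0 < c.C := by linarith
  have hD0 : 0 < D := by linarith
  have hDC : 3 * c.C ≤ D * c.C := mul_le_mul_of_nonneg_right hD hC0.le
  have hpow : (0 : ℝ) < 2 ^ (j + 3) := by positivity
  have hL0 : 0 < L / 2 ^ (j + 3) := lt_of_lt_of_le (by positivity) hj
  set d := L / 2 ^ (j + 3) with hd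
  -- the coordinates in terms of `d`
  set P := c.p y / 2 ^ (j + 3) with hP
  set Q := c.q y / 2 ^ (j + 3) with hQ
  have hPQ : P + Q = d := by
    rw [hP, hQ, hd, ← add_div, ← hL]; rfl
  have hPd : d ≤ 2 * D * P := by
    rw [hd, hP, ← mul_div_assoc]
    exact div_le_div_of_nonneg_right hp hpow.le
  have hQd : d ≤ 2 * D * Q := by
    rw [hd, hQ, ← mul_div_assoc]
    exact div_le_div_of_nonneg_right hq hpow.le
  have hP0 : 0 < P := by
    by_contra h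
    push Not at h
    have := mul_nonneg (by positivity : 0 ≤ 2 * D) (neg_nonneg.2 h)
    nlinarith
  have hQ0 : 0 < Q := by
    by_contra h
    push Not at h
    have := mul_nonneg (by positivity : 0 ≤ 2 * D) (neg_nonneg.2 h)
    nlinarith
  have t1 : (2 : ℝ) ^ (j + 3) = 2 ^ (j + 1) * 4 := by ring
  have t2 : (2 : ℝ) ^ (j + 3) = 2 ^ (j + 1 + 1) * 2 := by ring
  have t3 : (0 : ℝ) < 2 ^ (j + 1) := by positivity
  have t4 : (0 : ℝ) < 2 ^ (j + 1 + 1) := by positivity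
  have k4 : ∀ z u : ℝ, 0 < u → z / u = 4 * (z / (u * 4)) := fun z u hu => by
    field_simp
  have k2 : ∀ z u : ℝ, 0 < u → z / u = 2 * (z / (u * 2)) := fun z u hu => by
    field_simp
  have e1 : c.p y / 2 ^ (j + 1) = 4 * P := by
    rw [hP, t1]; exact k4 _ _ t3
  have e2 : c.q y / 2 ^ (j + 1) = 4 * Q := by
    rw [hQ, t1]; exact k4 _ _ t3
  have e3 : c.p y / 2 ^ (j + 1 + 1) = 2 * P := by
    rw [hP, t2]; exact k2 _ _ t4
  have e4 : c.q y / 2 ^ (j + 1 + 1) = 2 * Q := by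
    rw [hQ, t2]; exact k2 _ _ t4
  have h8 : (8 : ℝ) ≤ 2 ^ (j + 3) := by
    calc (8 : ℝ) = 2 ^ 3 := by norm_num
      _ ≤ 2 ^ (j + 3) := pow_le_pow_right₀ (by norm_num) (by omega)
  have e5 : 8 * P ≤ c.p y := by
    have : c.p y = P * 2 ^ (j + 3) := by rw [hP]; field_simp
    rw [this]; nlinarith
  have e6 : 8 * Q ≤ c.q y := by
    have : c.q y = Q * 2 ^ (j + 3) := by rw [hQ]; field_simp
    rw [this]; nlinarith
  have a1 := abs_le.1 (c.rd_p (4 * P) (4 * Q))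
  have a2 := abs_le.1 (c.rd_q (4 * P) (4 * Q))
  have a3 := abs_le.1 (c.rd_p (2 * P) (2 * Q))
  have a4 := abs_le.1 (c.rd_q (2 * P) (2 * Q))
  have x1 : x j = c.rd (4 * P) (4 * Q) := by
    show c.rd (c.p y / 2 ^ (j + 1)) (c.q y / 2 ^ (j + 1)) = _
    rw [e1, e2]
  have x2 : x (j + 1) = c.rd (2 * P) (2 * Q) := by
    show c.rd (c.p y / 2 ^ (j + 1 + 1)) (c.q y / 2 ^ (j + 1 + 1)) = _
    rw [e3, e4]
  rw [x1, x2]
  have b1 : c.p (c.rd (4 * P) (4 * Q) - c.rd (2 * P) (2 * Q)) = c.p (c.rd (4 * P) (4 * Q)) - c.p (c.rd (2 * P) (2 * Q)) := map_sub _ _ _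
  have b2 : c.q (c.rd (4 * P) (4 * Q) - c.rd (2 * P) (2 * Q)) = c.q (c.rd (4 * P) (4 * Q)) - c.q (c.rd (2 * P) (2 * Q)) := map_sub _ _ _
  have b3 : c.p (y - c.rd (4 * P) (4 * Q)) = c.p y - c.p (c.rd (4 * P) (4 * Q)) := map_sub _ _ _
  have b4 : c.q (y - c.rd (4 * P) (4 * Q)) = c.q y - c.q (c.rd (4 * P) (4 * Q)) := map_sub _ _ _
  -- `2 C ≤ P`, `2 C ≤ Q`
  have hPC : 8 * c.C ≤ P := by
    have h1 : 2 * D * (8 * c.C) ≤ 2 * D * P := by linarith
    exact le_of_mul_le_mul_left h1 (by positivity)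
  have hQC : 8 * c.C ≤ Q := by
    have h1 : 2 * D * (8 * c.C) ≤ 2 * D * Q := by linarith
    exact le_of_mul_le_mul_left h1 (by positivity)
  refine ⟨⟨?_, ?_, ?_, ?_⟩, ?_, ⟨?_, ?_⟩, ⟨?_, ?_⟩⟩
  · unfold lv; rw [b1, b2]; linarith
  · unfold lv; rw [b1, b2]; linarith
  · unfold lv; rw [b1, b2]
    have h1 : P ≤ c.p (c.rd (4 * P) (4 * Q)) - c.p (c.rd (2 * P) (2 * Q)) := by linarith
    have h2 : 8 * D * P ≤ 8 * D * (c.p (c.rd (4 * P) (4 * Q)) - c.p (c.rd (2 * P) (2 * Q))) :=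
      mul_le_mul_of_nonneg_left h1 (by positivity)
    linarith
  · unfold lv; rw [b1, b2]
    have h1 : Q ≤ c.q (c.rd (4 * P) (4 * Q)) - c.q (c.rd (2 * P) (2 * Q)) := by linarith
    have h2 : 8 * D * Q ≤ 8 * D * (c.q (c.rd (4 * P) (4 * Q)) - c.q (c.rd (2 * P) (2 * Q))) :=
      mul_le_mul_of_nonneg_left h1 (by positivity)
    linarith
  · have h0 := c.nm_le (c.rd (4 * P) (4 * Q) - c.rd (2 * P) (2 * Q))
    have h1 : |c.p (c.rd (4 * P) (4 * Q) - c.rd (2 * P) (2 * Q))| ≤ 2 * P + 2 * c.C := by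
      rw [b1, abs_le]; constructor <;> linarith
    have h2 : |c.q (c.rd (4 * P) (4 * Q) - c.rd (2 * P) (2 * Q))| ≤ 2 * Q + 2 * c.C := by
      rw [b2, abs_le]; constructor <;> linarith
    have h3 : c.C * (|c.p (c.rd (4 * P) (4 * Q) - c.rd (2 * P) (2 * Q))| + |c.q (c.rd (4 * P) (4 * Q) - c.rd (2 * P) (2 * Q))|) ≤
        c.C * (4 * d) := mul_le_mul_of_nonneg_left (by linarith) hC0.le
    linarith
  · linarith
  · linarith
  · rw [b3, b4]; linarith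
  · rw [b3, b4]; linarith

/-- The mean excess is bounded (large level). -/
private theorem Tc2_mean {Q : Par} {g : V → ℝ} (hg : IsMean Q g) (hM : HasModels Q g) {c : Crd} (hf : FlatS g c) {D : ℝ} (hD : 3 ≤ D) :
    ∃ C : ℝ, 1 ≤ C ∧ ∀ (n R : ℝ) (M : Mdl Q.a Q.b), 1 ≤ n → C * n ^ 2 ≤ R → Good Q g R M →
      ∀ y : V, 128 * D * c.C ≤ lv c y → lv c y ≤ n → lv c y ≤ 2 * D * c.p y → lv c y ≤ 2 * D * c.q y →
        M.E (fun τ => Tc Q.b c τ 0 y) ≤ lv c y + C * n ^ (7 / 10 : ℝ) := by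
  obtain ⟨Cm, hCm, hmid⟩ := mid_rate hg hM hf (8 * D) (by linarith)
  have hC : 1 ≤ c.C := c.one_le
  have hC0 : 0 < c.C := by linarith
  have hD0 : 0 < D := by linarith
  have ha : 0 ≤ Q.a := Q.ha.le
  have hab : Q.a ≤ Q.b := Q.hab.le
  have hb0 : 0 ≤ Q.b := ha.trans hab
  obtain ⟨Cp, hCp, hpc⟩ := piece_mean hg hf (4 * c.C + 4 * Cm) (by linarith)
  set K₁ : ℝ := 2 * (Q.b * (c.C * (256 * D * c.C + 2 * c.C))) + Q.b * (c.C * (4 * c.C)) + 8 * c.C with hK₁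
  have hK₁0 : 0 ≤ K₁ := by positivity
  refine ⟨8 * Cp + K₁, by linarith, ?_⟩
  intro n R M hn hR hG y hy0 hyn hp hq
  set L := lv c y with hL
  have hL0 : 0 < L := lt_of_lt_of_le (by positivity) hy0
  have hpq : c.p y + c.q y = L := rfl
  have hp0 : 0 < c.p y := by
    by_contra h
    push Not at h
    have := mul_nonneg (by positivity : 0 ≤ 2 * D) (neg_nonneg.2 h)
    nlinarith
  have hq0 : 0 < c.q y := by
    by_contra h
    push Not at h
    have := mul_nonneg (by positivity : 0 ≤ 2 * D) (neg_nonneg.2 h)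
    nlinarith
  obtain ⟨J, hJ1, hJ2⟩ := exists_nat_pow_near (x := L / (128 * D * c.C)) (y := 2)
    (by rw [le_div_iff₀ (by positivity)]; linarith) (by norm_num)
  have hJ1' : 2 ^ J * (128 * D * c.C) ≤ L := by rwa [le_div_iff₀ (by positivity)] at hJ1
  have hJ2' : L < 2 ^ (J + 1) * (128 * D * c.C) := by rwa [div_lt_iff₀ (by positivity)] at hJ2
  have hJj : ∀ j ≤ J, 16 * D * c.C ≤ L / 2 ^ (j + 3) := by
    intro j hj
    rw [le_div_iff₀ (by positivity)]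
    have h1 : (2 : ℝ) ^ j ≤ 2 ^ J := pow_le_pow_right₀ (by norm_num) hj
    have h2 : (2 : ℝ) ^ j * (128 * D * c.C) ≤ 2 ^ J * (128 * D * c.C) := mul_le_mul_of_nonneg_right h1 (by positivity)
    calc 16 * D * c.C * 2 ^ (j + 3) = 2 ^ j * (128 * D * c.C) := by ring
      _ ≤ L := h2.trans hJ1'
  set x : ℕ → V := fun j => c.rd (c.p y / 2 ^ (j + 1)) (c.q y / 2 ^ (j + 1)) with hx
  have hL2n : ∀ j : ℕ, L / 2 ^ (j + 3) ≤ n := fun j =>
    (div_le_self hL0.le (one_le_pow₀ (by norm_num))).trans hyn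
  have hRj : ∀ j ≤ J, Cp * (L / 2 ^ (j + 3)) ^ 2 ≤ R := by
    intro j hj
    have h1 : (L / 2 ^ (j + 3)) ^ 2 ≤ n ^ 2 := pow_le_pow_left₀ (by positivity) (hL2n j) 2
    calc Cp * (L / 2 ^ (j + 3)) ^ 2 ≤ (8 * Cp + K₁) * n ^ 2 := mul_le_mul (by linarith) h1 (by positivity) (by positivity)
      _ ≤ R := hR
  have hg' : ∀ j ≤ J, g (x j - x (j + 1)) ≤ lv c (x j - x (j + 1)) + (4 * c.C + 4 * Cm) * (L / 2 ^ (j + 3)) ^ (7 / 10 : ℝ) ∧
      nm (x j - x (j + 1)) ≤ (4 * c.C + 4 * Cm) * (L / 2 ^ (j + 3)) := by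
    intro j hj
    obtain ⟨⟨s1, s2, s3, s4⟩, s5, -, -⟩ := Tc2_step (j := j) hD hL.symm hp hq (hJj j hj)
    have hd : 0 < L / 2 ^ (j + 3) := by positivity
    refine ⟨?_, ?_⟩
    · have h1 := hmid _ s1 s3 s4
      refine h1.trans ?_
      have h2 : lv c (x j - x (j + 1)) ^ (7 / 10 : ℝ) ≤ 4 * (L / 2 ^ (j + 3)) ^ (7 / 10 : ℝ) := by
        calc lv c (x j - x (j + 1)) ^ (7 / 10 : ℝ) ≤ (4 * (L / 2 ^ (j + 3))) ^ (7 / 10 : ℝ) :=
              Real.rpow_le_rpow (by linarith) s2 (by norm_num)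
          _ = 4 ^ (7 / 10 : ℝ) * (L / 2 ^ (j + 3)) ^ (7 / 10 : ℝ) := Real.mul_rpow (by norm_num) hd.le
          _ ≤ 4 * (L / 2 ^ (j + 3)) ^ (7 / 10 : ℝ) := by
              refine mul_le_mul_of_nonneg_right ?_ (by positivity)
              calc (4 : ℝ) ^ (7 / 10 : ℝ) ≤ 4 ^ (1 : ℝ) := Real.rpow_le_rpow_of_exponent_le (by norm_num) (by norm_num)
                _ = 4 := Real.rpow_one 4
      have h3 : Cm * lv c (x j - x (j + 1)) ^ (7 / 10 : ℝ) ≤ (4 * c.C + 4 * Cm) * (L / 2 ^ (j + 3)) ^ (7 / 10 : ℝ) := by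
        calc Cm * lv c (x j - x (j + 1)) ^ (7 / 10 : ℝ) ≤ Cm * (4 * (L / 2 ^ (j + 3)) ^ (7 / 10 : ℝ)) :=
              mul_le_mul_of_nonneg_left h2 (by linarith)
          _ ≤ (4 * c.C + 4 * Cm) * (L / 2 ^ (j + 3)) ^ (7 / 10 : ℝ) := by
              have : 0 ≤ (L / 2 ^ (j + 3)) ^ (7 / 10 : ℝ) := by positivity
              nlinarith
      linarith
    · refine s5.trans (mul_le_mul_of_nonneg_right (by linarith) hd.le)
  set A : Set Edge := edg (Dc c 0 y) with hA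
  have hup : M.E (fun τ => T (res Q.b A τ) (x J) (x 0)) ≤ lv c (x 0 - x J) + ∑ j ∈ range J, Cp * (L / 2 ^ (j + 3)) ^ (7 / 10 : ℝ) := by
    refine Tc2_up ha hab c A x _ J fun j hj => ?_
    obtain ⟨g1, g2⟩ := hg' j hj.le
    obtain ⟨-, -, ⟨s6, s7⟩, ⟨s8, s9⟩⟩ := Tc2_step (j := j) hD hL.symm hp hq (hJj j hj.le)
    refine hpc (L / 2 ^ (j + 3)) R M ?_ (hRj j hj.le) hG 0 y (x (j + 1)) (x j) g2 g1 ?_ ⟨s8, s9⟩
    · have := hJj j hj.le
      nlinarith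
    · rw [sub_zero]; exact ⟨s6, s7⟩
  have hdown : M.E (fun τ => T (res Q.b A τ) (y - x 0) (y - x J)) ≤
      lv c ((y - x J) - (y - x 0)) + ∑ j ∈ range J, Cp * (L / 2 ^ (j + 3)) ^ (7 / 10 : ℝ) := by
    refine Tc2_down ha hab c A (fun j => y - x j) _ J fun j hj => ?_
    obtain ⟨g1, g2⟩ := hg' j hj.le
    obtain ⟨-, -, ⟨s6, s7⟩, ⟨s8, s9⟩⟩ := Tc2_step (j := j) hD hL.symm hp hq (hJj j hj.le)
    have e1 : (y - x (j + 1)) - (y - x j) = x j - x (j + 1) := by abel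
    have e2 : y - (y - x (j + 1)) = x (j + 1) := by abel
    refine hpc (L / 2 ^ (j + 3)) R M ?_ (hRj j hj.le) hG 0 y (y - x j) (y - x (j + 1)) ?_ ?_ ?_ ?_
    · have := hJj j hj.le
      nlinarith
    · rw [e1]; exact g2
    · rw [e1]; exact g1
    · rw [sub_zero]; exact ⟨s8, s9⟩
    · rw [e2]; exact ⟨s6, s7⟩
  have hsum : ∑ j ∈ range J, Cp * (L / 2 ^ (j + 3)) ^ (7 / 10 : ℝ) ≤ 4 * Cp * n ^ (7 / 10 : ℝ) := by
    rw [← mul_sum]
    have h1 := Tc2_sum hL0.le J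
    have h2 : L ^ (7 / 10 : ℝ) ≤ n ^ (7 / 10 : ℝ) := Real.rpow_le_rpow hL0.le hyn (by norm_num)
    calc Cp * ∑ j ∈ range J, (L / 2 ^ (j + 3)) ^ (7 / 10 : ℝ) ≤ Cp * (4 * n ^ (7 / 10 : ℝ)) :=
          mul_le_mul_of_nonneg_left (by linarith) (by linarith)
      _ = 4 * Cp * n ^ (7 / 10 : ℝ) := by ring
  -- coordinates of the two special points
  have hxJ : nm (x J) ≤ c.C * (256 * D * c.C + 2 * c.C) ∧ 0 ≤ lv c (x J) + 2 * c.C := by
    have r1 := abs_le.1 (c.rd_p (c.p y / 2 ^ (J + 1)) (c.q y / 2 ^ (J + 1)))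
    have r2 := abs_le.1 (c.rd_q (c.p y / 2 ^ (J + 1)) (c.q y / 2 ^ (J + 1)))
    have t0 : (0 : ℝ) < 2 ^ (J + 1) := by positivity
    have t1 : 0 ≤ c.p y / 2 ^ (J + 1) := by positivity
    have t2 : 0 ≤ c.q y / 2 ^ (J + 1) := by positivity
    have t3 : c.p y / 2 ^ (J + 1) + c.q y / 2 ^ (J + 1) ≤ 128 * D * c.C := by
      rw [← add_div, hpq, div_le_iff₀ t0]
      linarith
    have h0 := c.nm_le (x J)
    have h1 : |c.p (x J)| ≤ c.p y / 2 ^ (J + 1) + c.C := by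
      rw [abs_le]; constructor <;> show _ ≤ _ <;> linarith
    have h2 : |c.q (x J)| ≤ c.q y / 2 ^ (J + 1) + c.C := by
      rw [abs_le]; constructor <;> show _ ≤ _ <;> linarith
    refine ⟨h0.trans (mul_le_mul_of_nonneg_left ?_ hC0.le), ?_⟩
    · have : 0 ≤ D * c.C := by positivity
      linarith
    · show 0 ≤ c.p (x J) + c.q (x J) + 2 * c.C
      linarith
  have hx0 : nm (y - x 0 - x 0) ≤ c.C * (4 * c.C) ∧ lv c (x 0) + lv c (x 0) ≤ L + 4 * c.C := by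
    have r1 := abs_le.1 (c.rd_p (c.p y / 2 ^ (0 + 1)) (c.q y / 2 ^ (0 + 1)))
    have r2 := abs_le.1 (c.rd_q (c.p y / 2 ^ (0 + 1)) (c.q y / 2 ^ (0 + 1)))
    rw [zero_add, pow_one] at r1 r2
    have f1 : c.p (x 0) = c.p (c.rd (c.p y / 2) (c.q y / 2)) := by
      show c.p (c.rd (c.p y / 2 ^ (0 + 1)) (c.q y / 2 ^ (0 + 1))) = _
      rw [zero_add, pow_one]
    have f2 : c.q (x 0) = c.q (c.rd (c.p y / 2) (c.q y / 2)) := by
      show c.q (c.rd (c.p y / 2 ^ (0 + 1)) (c.q y / 2 ^ (0 + 1))) = _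
      rw [zero_add, pow_one]
    have h0 := c.nm_le (y - x 0 - x 0)
    have h1 : |c.p (y - x 0 - x 0)| ≤ 2 * c.C := by
      rw [map_sub, map_sub, f1, abs_le]; constructor <;> linarith
    have h2 : |c.q (y - x 0 - x 0)| ≤ 2 * c.C := by
      rw [map_sub, map_sub, f2, abs_le]; constructor <;> linarith
    refine ⟨h0.trans (mul_le_mul_of_nonneg_left (by linarith) hC0.le), ?_⟩
    show c.p (x 0) + c.q (x 0) + (c.p (x 0) + c.q (x 0)) ≤ L + 4 * c.C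
    rw [f1, f2]
    linarith
  -- the chain
  have hB : ∀ u v : V, M.E (fun τ => T (res Q.b A τ) u v) ≤ Q.b * nm (v - u) := fun u v =>
    M.E_le_of_le fun τ hτ => T_upper (Bd_res hab hτ A) ha u v
  have hch : M.E (fun τ => Tc Q.b c τ 0 y) ≤ M.E (fun τ => T (res Q.b A τ) 0 (x J)) + M.E (fun τ => T (res Q.b A τ) (x J) (x 0)) +
      M.E (fun τ => T (res Q.b A τ) (x 0) (y - x 0)) + M.E (fun τ => T (res Q.b A τ) (y - x 0) (y - x J)) +
      M.E (fun τ => T (res Q.b A τ) (y - x J) y) := by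
    rw [← M.E_add, ← M.E_add, ← M.E_add, ← M.E_add]
    refine M.E_mono fun τ hτ => ?_
    have hb := Bd_res hab hτ A
    have k1 := T_triangle hb ha 0 (y - x J) y
    have k2 := T_triangle hb ha 0 (y - x 0) (y - x J)
    have k3 := T_triangle hb ha 0 (x 0) (y - x 0)
    have k4 := T_triangle hb ha 0 (x J) (x 0)
    show T (res Q.b A τ) 0 y ≤ _
    linarith
  have c1 := hB 0 (x J)
  have c2 := hB (x 0) (y - x 0)
  have c3 := hB (y - x J) y
  rw [sub_zero] at c1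
  have e3 : y - (y - x J) = x J := by abel
  rw [e3] at c3
  have e4 : (y - x J) - (y - x 0) = x 0 - x J := by abel
  rw [e4] at hdown
  have d1 : Q.b * nm (x J) ≤ Q.b * (c.C * (256 * D * c.C + 2 * c.C)) := mul_le_mul_of_nonneg_left hxJ.1 hb0
  have d2 : Q.b * nm (y - x 0 - x 0) ≤ Q.b * (c.C * (4 * c.C)) := mul_le_mul_of_nonneg_left hx0.1 hb0
  have d3 : lv c (x 0 - x J) = lv c (x 0) - lv c (x J) := lv_sub c _ _
  have d4 : (1 : ℝ) ≤ n ^ (7 / 10 : ℝ) := Real.one_le_rpow hn (by norm_num)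
  have d5 : K₁ ≤ K₁ * n ^ (7 / 10 : ℝ) := le_mul_of_one_le_right hK₁0 d4
  have d6 := hx0.2
  have d7 := hxJ.2
  rw [d3] at hup hdown
  have d8 : (8 * Cp + K₁) * n ^ (7 / 10 : ℝ) = 8 * Cp * n ^ (7 / 10 : ℝ) + K₁ * n ^ (7 / 10 : ℝ) := by ring
  rw [d8]
  linarith

/-- The mean deviation of the passage time. -/
private theorem Tc2_dev {Q : Par} {g : V → ℝ} {R : ℝ} {M : Mdl Q.a Q.b} (hG : Good Q g R M) {l : ℝ} {y : V} (hl : 1 ≤ l)
    (hy : nm y ≤ l) (hR : l ≤ R) : M.E (fun τ => |T τ 0 y - g y|) ≤ (Q.K + 2) * Real.sqrt l := by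
  set m := M.E (fun τ => T τ 0 y) with hm
  have h1 := hG.mean y (hy.trans hR)
  have h2 := hG.var l y hl hy hR
  have hS : S l ^ 2 ≤ 2 * l := by
    have h3 := S_le_sqrt (by linarith : (0 : ℝ) ≤ l)
    have h4 : S l ^ 2 ≤ Real.sqrt (2 * l) ^ 2 := pow_le_pow_left₀ (S_nonneg l) h3 2
    rwa [Real.sq_sqrt (by linarith)] at h4
  have hK : 0 ≤ Q.K := by linarith [Q.hK]
  have hs1 : 1 ≤ Real.sqrt l := Real.one_le_sqrt.2 hl
  have hs0 : 0 < Real.sqrt l := by linarith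
  have hsl : Real.sqrt l * Real.sqrt l = l := Real.mul_self_sqrt (by linarith)
  have h5 : M.E (fun τ => |T τ 0 y - g y|) ≤
      M.E (fun τ => (1 / (2 * Real.sqrt l)) * (T τ 0 y - m) ^ 2 + (Real.sqrt l / 2 + 1)) := by
    refine M.E_mono fun τ _ => ?_
    have h6 : |T τ 0 y - g y| ≤ |T τ 0 y - m| + 1 := by
      have h7 : T τ 0 y - g y = (T τ 0 y - m) + (m - g y) := by ring
      rw [h7]
      exact (abs_add_le _ _).trans (by linarith)
    have h8 : |T τ 0 y - m| ≤ (1 / (2 * Real.sqrt l)) * (T τ 0 y - m) ^ 2 + Real.sqrt l / 2 := by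
      have h9 : (T τ 0 y - m) ^ 2 = |T τ 0 y - m| ^ 2 := (sq_abs _).symm
      rw [h9]
      set z := |T τ 0 y - m| with hz
      rw [one_div, ← sub_nonneg]
      have h10 : (2 * Real.sqrt l)⁻¹ * z ^ 2 + Real.sqrt l / 2 - z = (2 * Real.sqrt l)⁻¹ * (z - Real.sqrt l) ^ 2 := by
        field_simp
        ring
      rw [h10]
      positivity
    linarith
  rw [M.E_add, M.E_mul_left, M.E_const] at h5
  refine h5.trans ?_
  have h6 : 1 / (2 * Real.sqrt l) * M.E (fun τ => (T τ 0 y - m) ^ 2) ≤ 1 / (2 * Real.sqrt l) * (Q.K * (2 * l)) :=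
    mul_le_mul_of_nonneg_left (h2.trans (mul_le_mul_of_nonneg_left hS hK)) (by positivity)
  have h7 : 1 / (2 * Real.sqrt l) * (Q.K * (2 * l)) = Q.K * Real.sqrt l := by
    have : Q.K * (2 * l) = Q.K * (2 * (Real.sqrt l * Real.sqrt l)) := by rw [hsl]
    rw [this]
    field_simp
  linarith

/-- The a priori bound.  PROOF. For `n = lv y` large: `x_j = c.rd (p y / 2 ^ (j + 1)) (q y / 2 ^ (j + 1))` for `0 ≤ j ≤ J` with `n / 2 ^ J ≈ 1000 D C`, and `y_j = y - x_j`.  Then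
`Tc 0 y ≤ ∑ T (res b (edg (Dc 0 y)) τ)` over the consecutive points of `0, x_J, ..., x_1, x_0, y_0, y_1, ..., y_J, y` (`T_triangle` for `res ..`): the first and the last piece and
`x_0 y_0` (at distance `≤ C`) cost `O(1)`; the others by `piece_mean` with `D = n / (C 2 ^ j)` (rates from `mid_rate` for `2 D`: `lv (x_j - x_(j+1)) ≤ 2 D p, 2 D q`).  The sum of the
excesses is `≤ C n ^ (7/10) + C log n`.  The mean excess bounds the mean positive excess: `max (X, 0) = X + max (-X, 0)`, `- (Tc - lv y) ≤ g y - T 0 y ≤ |T - E T| + 1`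
of mean `≤ C √n` (`Good.conc` or `Good.var`). -/
theorem tc_mean {Q : Par} {g : V → ℝ} (hg : IsMean Q g) (hM : HasModels Q g) {c : Crd} (hf : FlatS g c) {D : ℝ} (hD : 3 ≤ D) :
    ∃ C : ℝ, 1 ≤ C ∧ ∀ (n R : ℝ) (M : Mdl Q.a Q.b), 1 ≤ n → C * n ^ 2 ≤ R → Good Q g R M →
      ∀ y ∈ Md c D, 0 ≤ lv c y → lv c y ≤ n → Sc M c y ≤ C * n ^ (3 / 4 : ℝ) := by
  obtain ⟨C₁, hC₁, hmean⟩ := Tc2_mean hg hM hf hD
  have hC : 1 ≤ c.C := c.one_le
  have hC0 : 0 < c.C := by linarith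
  have hD0 : 0 < D := by linarith
  have ha : 0 ≤ Q.a := Q.ha.le
  have hab : Q.a ≤ Q.b := Q.hab.le
  have hb0 : 0 ≤ Q.b := ha.trans hab
  have hK : 0 ≤ Q.K := by linarith [Q.hK]
  set L₁ : ℝ := (136 * D + 16) * c.C with hL₁
  have hL₁0 : 0 < L₁ := by positivity
  set K₂ : ℝ := Q.b * (c.C * (2 * L₁ + 28 * c.C)) with hK₂
  have hK₂0 : 0 ≤ K₂ := by positivity
  set K₃ : ℝ := (Q.K + 2) * Real.sqrt (4 * c.C) with hK₃
  have hK₃0 : 0 ≤ K₃ := by positivity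
  refine ⟨C₁ + K₂ + K₃ + 4 * c.C, by linarith, ?_⟩
  intro n R M hn hR hG y hy hy0 hyn
  have hn34 : (1 : ℝ) ≤ n ^ (3 / 4 : ℝ) := Real.one_le_rpow hn (by norm_num)
  obtain ⟨hy1, hy2⟩ := hy
  have hpq : c.p y + c.q y = lv c y := rfl
  rcases le_or_gt L₁ (lv c y) with hbig | hsmall
  · -- large level
    have e1 : lv c y ≤ 2 * D * c.p y := by
      have : (4 * D + 8) * c.C ≤ lv c y / 2 := by
        rw [hL₁] at hbig
        have : 0 ≤ D * c.C := by positivity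
        linarith
      linarith
    have e2 : lv c y ≤ 2 * D * c.q y := by
      have : (4 * D + 8) * c.C ≤ lv c y / 2 := by
        rw [hL₁] at hbig
        have : 0 ≤ D * c.C := by positivity
        linarith
      linarith
    have hRn : C₁ * n ^ 2 ≤ R := le_trans (mul_le_mul_of_nonneg_right (by linarith) (by positivity)) hR
    have hm := hmean n R M hn hRn hG y (by rw [hL₁] at hbig; linarith) hyn e1 e2
    have hL0 : 0 < lv c y := lt_of_lt_of_le hL₁0 hbig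
    have hp0 : 0 ≤ c.p y := by
      by_contra h
      push Not at h
      have := mul_pos (by positivity : 0 < 2 * D) (neg_pos.2 h)
      nlinarith
    have hq0 : 0 ≤ c.q y := by
      by_contra h
      push Not at h
      have := mul_pos (by positivity : 0 < 2 * D) (neg_pos.2 h)
      nlinarith
    have hnm : nm y ≤ 4 * c.C * n := (Wc_nm (Wc_of_nonneg hp0 hq0)).trans (mul_le_mul_of_nonneg_left hyn (by linarith))
    have hdev := Tc2_dev hG (l := 4 * c.C * n) (y := y) (by nlinarith) hnm (by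
      calc 4 * c.C * n ≤ (C₁ + K₂ + K₃ + 4 * c.C) * n ^ 2 := by
            rw [pow_two, ← mul_assoc]
            refine le_trans ?_ (le_mul_of_one_le_right (by positivity) hn)
            exact mul_le_mul_of_nonneg_right (by linarith) (by linarith)
        _ ≤ R := hR)
    have hsc : Sc M c y ≤ M.E (fun τ => (Tc Q.b c τ 0 y - lv c y) + |T τ 0 y - g y|) := by
      refine M.E_mono fun τ hτ => ?_
      have f1 := T_le_Tc ha hτ c 0 y
      have f2 := hf.low y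
      have f3 := neg_abs_le (T τ 0 y - g y)
      have f4 := abs_nonneg (T τ 0 y - g y)
      refine max_le (by linarith) (by linarith)
    rw [M.E_add, M.E_sub, M.E_const] at hsc
    have g1 : n ^ (7 / 10 : ℝ) ≤ n ^ (3 / 4 : ℝ) := Real.rpow_le_rpow_of_exponent_le hn (by norm_num)
    have g2 : Real.sqrt (4 * c.C * n) ≤ Real.sqrt (4 * c.C) * n ^ (3 / 4 : ℝ) := by
      rw [Real.sqrt_mul (by positivity)]
      refine mul_le_mul_of_nonneg_left ?_ (Real.sqrt_nonneg _)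
      rw [Real.sqrt_eq_rpow]
      exact Real.rpow_le_rpow_of_exponent_le hn (by norm_num)
    have g3 : (Q.K + 2) * Real.sqrt (4 * c.C * n) ≤ K₃ * n ^ (3 / 4 : ℝ) := by
      have e0 : K₃ * n ^ (3 / 4 : ℝ) = (Q.K + 2) * (Real.sqrt (4 * c.C) * n ^ (3 / 4 : ℝ)) := by rw [hK₃]; ring
      rw [e0]
      exact mul_le_mul_of_nonneg_left g2 (show 0 ≤ Q.K + 2 by linarith)
    have g4 : C₁ * n ^ (7 / 10 : ℝ) ≤ C₁ * n ^ (3 / 4 : ℝ) := mul_le_mul_of_nonneg_left g1 (by linarith)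
    have g5 : 0 ≤ (K₂ + 4 * c.C) * n ^ (3 / 4 : ℝ) := by positivity
    have g6 : (C₁ + K₂ + K₃ + 4 * c.C) * n ^ (3 / 4 : ℝ) =
        C₁ * n ^ (3 / 4 : ℝ) + K₃ * n ^ (3 / 4 : ℝ) + (K₂ + 4 * c.C) * n ^ (3 / 4 : ℝ) := by ring
    rw [g6]
    linarith
  · -- bounded level
    have hDC : 3 * c.C ≤ D * c.C := mul_le_mul_of_nonneg_right hD hC0.le
    have hp7 : -(7 * c.C) ≤ c.p y := by
      have h1 : D * (-(7 * c.C)) ≤ D * c.p y := by nlinarith
      exact le_of_mul_le_mul_left h1 hD0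
    have hq7 : -(7 * c.C) ≤ c.q y := by
      have h1 : D * (-(7 * c.C)) ≤ D * c.q y := by nlinarith
      exact le_of_mul_le_mul_left h1 hD0
    have hnm : nm y ≤ c.C * (2 * L₁ + 28 * c.C) := by
      refine (c.nm_le y).trans (mul_le_mul_of_nonneg_left ?_ hC0.le)
      have h1 : |c.p y| ≤ L₁ + 7 * c.C := by rw [abs_le]; constructor <;> linarith
      have h2 : |c.q y| ≤ L₁ + 7 * c.C := by rw [abs_le]; constructor <;> linarith
      linarith
    have h1 : Sc M c y ≤ K₂ := by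
      refine M.E_le_of_le fun τ hτ => ?_
      have f1 := Tc_upper ha hab hτ c 0 y
      rw [sub_zero] at f1
      have f2 : Q.b * nm y ≤ K₂ := mul_le_mul_of_nonneg_left hnm hb0
      exact max_le (by linarith) hK₂0
    calc Sc M c y ≤ K₂ := h1
      _ ≤ K₂ * n ^ (3 / 4 : ℝ) := le_mul_of_one_le_right hK₂0 hn34
      _ ≤ (C₁ + K₂ + K₃ + 4 * c.C) * n ^ (3 / 4 : ℝ) := mul_le_mul_of_nonneg_right (by linarith) (by linarith)

end Pool.Agent.W_1b8d5d_fe
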