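import Pool.Agent.W_1b8d5d_fe.FmL

/-!
MP_1b8d5d_pr (FE): blocks and their crossings, elementary properties.
-/

set_option autoImplicit false

namespace Pool.Agent.W_1b8d5d_fe

open Finset Pool.Agent.W_1b8d5d_h85

section

variable {a b : ℝ} {c : Crd} {α β w ℓ t r w₁ e : ℝ}

/-- Both end points of an edge of the block. -/
theorem Eb_vert {d : Edge} (h : d ∈ Eb c α β w ℓ t) :
    (t ≤ lv c d.1 ∧ lv c d.1 ≤ α + ℓ + 2 * c.C ∧ |c.q d.1 - β| ≤ w) ∧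
      (t ≤ lv c (d.1 + dir d.2) ∧ lv c (d.1 + dir d.2) ≤ α + ℓ + 2 * c.C ∧ |c.q (d.1 + dir d.2) - β| ≤ w) := by
  obtain ⟨⟨⟨h1, h2⟩, ⟨h3, h4⟩⟩, h5⟩ := h
  have hadj : grid.Adj d.1 (d.1 + dir d.2) := ⟨d.2, Or.inl rfl⟩
  have h6 := abs_le.1 (lv_adj (c := c) hadj)
  have hC := c.one_le
  refine ⟨⟨h2, ?_, h1⟩, h4, ?_, h3⟩
  · rcases h5 with h5 | h5 <;> linarith [h6.1, h6.2]
  · rcases h5 with h5 | h5 <;> linarith [h6.1, h6.2]

theorem Eb_nm {d : Edge} (h : d ∈ Eb c α β w ℓ t) : nm d.1 ≤ 2 * c.C * (|t| + |α + ℓ| + 2 * c.C + |β| + w) := by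
  obtain ⟨⟨h1, h2, h3⟩, -⟩ := Eb_vert h
  refine (nm_le_lq c d.1).trans (mul_le_mul_of_nonneg_left ?_ (by linarith [c.one_le]))
  have h4 : |lv c d.1| ≤ |t| + |α + ℓ| + 2 * c.C := by
    rw [abs_le]
    constructor
    · linarith [neg_abs_le t, abs_nonneg (α + ℓ), c.one_le]
    · linarith [le_abs_self (α + ℓ), abs_nonneg t]
  have h5 : |c.q d.1| ≤ |β| + w := by
    have h6 := abs_add_le (c.q d.1 - β) β
    rw [sub_add_cancel] at h6
    linarith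
  linarith

theorem Eb_mono {w' t' : ℝ} (hw : w ≤ w') (ht : t' ≤ t) : Eb c α β w ℓ t ⊆ Eb c α β w' ℓ t' := by
  rintro d ⟨⟨⟨h1, h2⟩, ⟨h3, h4⟩⟩, h5⟩
  exact ⟨⟨⟨h1.trans hw, ht.trans h2⟩, ⟨h3.trans hw, ht.trans h4⟩⟩, h5⟩

/-- Disjoint blocks: different levels. -/
theorem Eb_disj_lv {α' β' w' ℓ' t' : ℝ} (h : α + ℓ + 2 * c.C < t') : Disjoint (Eb c α β w ℓ t) (Eb c α' β' w' ℓ' t') := by
  rw [Set.disjoint_left]
  intro d h1 h2
  linarith [(Eb_vert h1).1.2.1, (Eb_vert h2).1.1]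

/-- Disjoint blocks: different heights. -/
theorem Eb_disj_q {α' β' w' ℓ' t' : ℝ} (h : w + w' < |β - β'|) : Disjoint (Eb c α β w ℓ t) (Eb c α' β' w' ℓ' t') := by
  rw [Set.disjoint_left]
  intro d h1 h2
  have h3 := (Eb_vert h1).1.2.2
  have h4 := (Eb_vert h2).1.2.2
  have h5 := abs_sub_le β (c.q d.1) β'
  have h6 := abs_sub_comm β (c.q d.1)
  linarith

/-- The edges of the double cone below `x` are not in the block above `x`. -/
theorem Eb_disj_low {X x : V} (h : lv c x ≤ t) : Disjoint (Eb c α β w ℓ t) (edg (Dc c X x)) := by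
  rw [Set.disjoint_left]
  intro d h1 h2
  have h3 := Eb_vert h1
  rcases Dc_edge h2 with h4 | h4
  · linarith [h3.1.1]
  · linarith [h3.2.1]

/-- The edges above the level `α + ℓ` are not in the block. -/
theorem Eb_disj_up {S : Set V} (h : ∀ z ∈ S, α + ℓ ≤ lv c z) : Disjoint (Eb c α β w ℓ t) (edg S) := by
  rw [Set.disjoint_left]
  rintro d ⟨-, h1⟩ ⟨h2, h3⟩
  rcases h1 with h1 | h1
  · linarith [h _ h2]
  · linarith [h _ h3]

private theorem Blk1_ball (R : ℝ) : {v : V | nm v ≤ R}.Finite := by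
  refine Set.Finite.subset (Set.finite_Icc ((-⌈R⌉, -⌈R⌉) : V) (⌈R⌉, ⌈R⌉)) ?_
  intro v hv
  have hv' : |(v.1 : ℝ)| + |(v.2 : ℝ)| ≤ R := hv
  have h1 : |(v.1 : ℝ)| ≤ R := by linarith [abs_nonneg (v.2 : ℝ)]
  have h2 : |(v.2 : ℝ)| ≤ R := by linarith [abs_nonneg (v.1 : ℝ)]
  have h3 := Int.le_ceil R
  rw [abs_le] at h1 h2
  refine ⟨⟨?_, ?_⟩, ?_, ?_⟩
  · have h : ((-⌈R⌉ : ℤ) : ℝ) ≤ (v.1 : ℝ) := by
      push_cast
      linarith [h1.1]
    exact_mod_cast h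
  · have h : ((-⌈R⌉ : ℤ) : ℝ) ≤ (v.2 : ℝ) := by
      push_cast
      linarith [h2.1]
    exact_mod_cast h
  · have h : (v.1 : ℝ) ≤ ((⌈R⌉ : ℤ) : ℝ) := by linarith [h1.2]
    exact_mod_cast h
  · have h : (v.2 : ℝ) ≤ ((⌈R⌉ : ℤ) : ℝ) := by linarith [h2.2]
    exact_mod_cast h

theorem Eb_finite (c : Crd) (α β w ℓ t : ℝ) : (Eb c α β w ℓ t).Finite := by
  have h1 := (Blk1_ball (2 * c.C * (|t| + |α + ℓ| + 2 * c.C + |β| + w))).prod (Set.finite_univ (α := Bool))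
  exact h1.subset fun d hd => ⟨Eb_nm hd, Set.mem_univ _⟩

theorem Kc_dep (b : ℝ) (c : Crd) (w ℓ α β e : ℝ) (x y : V) : DependsOn (Kc b c w ℓ α β e x y) (Eb c α β w ℓ (lv c x)) := by
  intro τ τ' h
  have h1 := dependsOn_T_res b (Eb c α β w ℓ (lv c x)) x y h
  show (T (res b (Eb c α β w ℓ (lv c x)) τ) x y ≤ lv c (y - x) + e) =
    (T (res b (Eb c α β w ℓ (lv c x)) τ') x y ≤ lv c (y - x) + e)
  rw [show T (res b (Eb c α β w ℓ (lv c x)) τ) x y = T (res b (Eb c α β w ℓ (lv c x)) τ') x y from h1]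

theorem Cr_dep (b : ℝ) (c : Crd) (r w w₁ ℓ α β e : ℝ) : DependsOn (Cr b c r w w₁ ℓ α β e) (Eb c α β w ℓ (α - r)) := by
  intro τ τ' h
  refine propext (exists_congr fun x => exists_congr fun y => and_congr_right fun hW => ?_)
  have h1 : Eb c α β w ℓ (lv c x) ⊆ Eb c α β w ℓ (α - r) := Eb_mono le_rfl hW.1.1
  exact iff_of_eq (Kc_dep b c w ℓ α β e x y fun d hd => h d (h1 hd))

/-- Monotonicity. -/
theorem Cr_mono (ha : 0 ≤ a) (hab : a ≤ b) {τ : Env} (hτ : Bd a b τ) {w' w₁' e' : ℝ} (hw : w ≤ w') (hw₁ : w₁ ≤ w₁')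
    (he : e ≤ e') (h : Cr b c r w w₁ ℓ α β e τ) : Cr b c r w' w₁' ℓ α β e' τ := by
  obtain ⟨x, y, ⟨⟨h1, h2, h3⟩, h4, h5, h6⟩, h7⟩ := h
  refine ⟨x, y, ⟨⟨h1, h2, h3⟩, h4, h5, h6.trans hw₁⟩, ?_⟩
  have h8 := T_res_anti ha hab hτ (Eb_mono (c := c) (α := α) (β := β) (ℓ := ℓ) hw (le_refl (lv c x))) x y
  have h9 : T (res b (Eb c α β w ℓ (lv c x)) τ) x y ≤ lv c (y - x) + e := h7
  show T (res b (Eb c α β w' ℓ (lv c x)) τ) x y ≤ lv c (y - x) + e'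
  linarith

private theorem Blk1_Kc_sh (b : ℝ) (c : Crd) (w ℓ α β e : ℝ) (z x y : V) (τ : Env) :
    Kc b c w ℓ α β e x y (sh z τ) ↔ Kc b c w ℓ (α + lv c z) (β + c.q z) e (x + z) (y + z) τ := by
  have h1 : res b (Eb c α β w ℓ (lv c x)) (sh z τ) =
      sh z (res b (Eb c (α + lv c z) (β + c.q z) w ℓ (lv c (x + z))) τ) := by
    funext d
    have h2 : d ∈ Eb c α β w ℓ (lv c x) ↔
        ((d.1 + z, d.2) : Edge) ∈ Eb c (α + lv c z) (β + c.q z) w ℓ (lv c (x + z)) := by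
      have e1 : d.1 + z + dir d.2 = d.1 + dir d.2 + z := by abel
      show (((|c.q d.1 - β| ≤ w ∧ lv c x ≤ lv c d.1) ∧ (|c.q (d.1 + dir d.2) - β| ≤ w ∧ lv c x ≤ lv c (d.1 + dir d.2))) ∧
          (lv c d.1 < α + ℓ ∨ lv c (d.1 + dir d.2) < α + ℓ)) ↔
        (((|c.q (d.1 + z) - (β + c.q z)| ≤ w ∧ lv c (x + z) ≤ lv c (d.1 + z)) ∧
          (|c.q (d.1 + z + dir d.2) - (β + c.q z)| ≤ w ∧ lv c (x + z) ≤ lv c (d.1 + z + dir d.2))) ∧
          (lv c (d.1 + z) < α + lv c z + ℓ ∨ lv c (d.1 + z + dir d.2) < α + lv c z + ℓ))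
      rw [e1, lv_add c x z, lv_add c d.1 z, lv_add c (d.1 + dir d.2) z, map_add c.q d.1 z, map_add c.q (d.1 + dir d.2) z,
        add_sub_add_right_eq_sub, add_sub_add_right_eq_sub, add_le_add_iff_right, add_le_add_iff_right,
        add_right_comm α, add_lt_add_iff_right, add_lt_add_iff_right]
    classical
    unfold res sh
    exact if_congr h2 rfl rfl
  show T (res b (Eb c α β w ℓ (lv c x)) (sh z τ)) x y ≤ lv c (y - x) + e ↔
    T (res b (Eb c (α + lv c z) (β + c.q z) w ℓ (lv c (x + z))) τ) (x + z) (y + z) ≤ lv c (y + z - (x + z)) + e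
  rw [h1, T_sh, add_sub_add_right_eq_sub]

private theorem Blk1_Win_sh (c : Crd) (r w₁ ℓ α β : ℝ) (z x y : V) :
    Win c r w₁ ℓ α β x y ↔ Win c r w₁ ℓ (α + lv c z) (β + c.q z) (x + z) (y + z) := by
  show ((α - r ≤ lv c x ∧ lv c x ≤ α + 2 * c.C ∧ |c.q x - β| ≤ 2 * r) ∧
      α + ℓ ≤ lv c y ∧ lv c y ≤ α + ℓ + 2 * c.C ∧ |c.q y - β| ≤ w₁) ↔
    ((α + lv c z - r ≤ lv c (x + z) ∧ lv c (x + z) ≤ α + lv c z + 2 * c.C ∧ |c.q (x + z) - (β + c.q z)| ≤ 2 * r) ∧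
      α + lv c z + ℓ ≤ lv c (y + z) ∧ lv c (y + z) ≤ α + lv c z + ℓ + 2 * c.C ∧ |c.q (y + z) - (β + c.q z)| ≤ w₁)
  rw [lv_add c x z, lv_add c y z, map_add c.q x z, map_add c.q y z, add_sub_add_right_eq_sub, add_sub_add_right_eq_sub]
  constructor
  · rintro ⟨⟨h1, h2, h3⟩, h4, h5, h6⟩
    exact ⟨⟨by linarith, by linarith, h3⟩, by linarith, by linarith, h6⟩
  · rintro ⟨⟨h1, h2, h3⟩, h4, h5, h6⟩
    exact ⟨⟨by linarith, by linarith, h3⟩, by linarith, by linarith, h6⟩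

/-- Translation.  PROOF. `Win` is clear; `T_sh` for the environment `res b (Eb ..) τ` (the restriction to a set of edges commutes with the shift). -/
theorem Cr_sh (b : ℝ) (c : Crd) (r w w₁ ℓ α β e : ℝ) (z : V) (τ : Env) :
    Cr b c r w w₁ ℓ α β e (sh z τ) ↔ Cr b c r w w₁ ℓ (α + lv c z) (β + c.q z) e τ := by
  constructor
  · rintro ⟨x, y, h1, h2⟩
    exact ⟨x + z, y + z, (Blk1_Win_sh c r w₁ ℓ α β z x y).1 h1, (Blk1_Kc_sh b c w ℓ α β e z x y τ).1 h2⟩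
  · rintro ⟨x, y, h1, h2⟩
    have e1 : x = x - z + z := (sub_add_cancel x z).symm
    have e2 : y = y - z + z := (sub_add_cancel y z).symm
    rw [e1, e2] at h1 h2
    exact ⟨x - z, y - z, (Blk1_Win_sh c r w₁ ℓ α β z _ _).2 h1, (Blk1_Kc_sh b c w ℓ α β e z _ _ τ).2 h2⟩

theorem P_Cr_sh {Q : Par} {g : V → ℝ} {R : ℝ} {M : Mdl Q.a Q.b} (hM : Good Q g R M) (c : Crd) (r w w₁ ℓ α β e : ℝ) (z : V) :
    M.P (Cr Q.b c r w w₁ ℓ (α + lv c z) (β + c.q z) e) = M.P (Cr Q.b c r w w₁ ℓ α β e) := by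
  classical
  have h1 := hM.inv z fun τ => if Cr Q.b c r w w₁ ℓ α β e τ then (1 : ℝ) else 0
  rw [M.P_def, M.P_def]
  have h2 : M.E (fun τ => if Cr Q.b c r w w₁ ℓ (α + lv c z) (β + c.q z) e τ then (1 : ℝ) else 0) =
      M.E (fun τ => if Cr Q.b c r w w₁ ℓ α β e (sh z τ) then (1 : ℝ) else 0) := by
    refine M.E_congr fun τ _ => ?_
    exact if_congr (Cr_sh Q.b c r w w₁ ℓ α β e z τ).symm rfl rfl
  exact h2.trans h1

private theorem Blk1_enum {ι : Type} (s : Finset ι) (f : ι → ℝ) :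
    ∃ (m : ℕ) (w : Fin m → ι), (∀ i, w i ∈ s) ∧ (∀ x ∈ s, ∃ i, w i = x) ∧ (∀ i j, j ≤ i → f (w j) ≤ f (w i)) := by
  classical
  set e : Fin s.card → ι := fun i => (s.equivFin.symm i : ι) with he
  refine ⟨s.card, fun i => e (Tuple.sort (f ∘ e) i), fun i => (s.equivFin.symm _).2, ?_, ?_⟩
  · intro x hx
    refine ⟨(Tuple.sort (f ∘ e)).symm (s.equivFin ⟨x, hx⟩), ?_⟩
    simp [he]
  · intro i j hij
    exact Tuple.monotone_sort (f ∘ e) hij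

private theorem Blk1_Win_finite (c : Crd) (r w₁ ℓ α β : ℝ) : {u : V × V | Win c r w₁ ℓ α β u.1 u.2}.Finite := by
  have h1 := (Blk1_ball (2 * c.C * (|α - r| + |α| + 2 * c.C + |β| + 2 * r))).prod
    (Blk1_ball (2 * c.C * (|α + ℓ| + 2 * c.C + |β| + w₁)))
  refine h1.subset ?_
  rintro ⟨x, y⟩ ⟨⟨h1, h2, h3⟩, h4, h5, h6⟩
  have h1' : α - r ≤ lv c x := h1
  have h2' : lv c x ≤ α + 2 * c.C := h2
  have h3' : |c.q x - β| ≤ 2 * r := h3
  have h4' : α + ℓ ≤ lv c y := h4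
  have h5' : lv c y ≤ α + ℓ + 2 * c.C := h5
  have h6' : |c.q y - β| ≤ w₁ := h6
  have hC := c.one_le
  constructor
  · show nm x ≤ _
    refine (nm_le_lq c x).trans (mul_le_mul_of_nonneg_left ?_ (by linarith))
    have h7 : |lv c x| ≤ |α - r| + |α| + 2 * c.C := by
      rw [abs_le]
      constructor
      · linarith [neg_abs_le (α - r), abs_nonneg α]
      · linarith [le_abs_self α, abs_nonneg (α - r)]
    have h8 := abs_add_le (c.q x - β) β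
    rw [sub_add_cancel] at h8
    linarith
  · show nm y ≤ _
    refine (nm_le_lq c y).trans (mul_le_mul_of_nonneg_left ?_ (by linarith))
    have h7 : |lv c y| ≤ |α + ℓ| + 2 * c.C := by
      rw [abs_le]
      constructor
      · linarith [neg_abs_le (α + ℓ)]
      · linarith [le_abs_self (α + ℓ)]
    have h8 := abs_add_le (c.q y - β) β
    rw [sub_add_cancel] at h8
    linarith

/-- The list of the candidates, the highest entries first.  PROOF. The pairs with `Win` are finitely many (`nm_le_lq`); sort by `- lv x`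
(as `Pool.Agent.W_1b8d5d_c1.exists_enum` in `W_1b8d5d_c1/Max1.lean`). -/
theorem cands (c : Crd) (r w₁ ℓ α β : ℝ) : ∃ (m : ℕ) (x y : Fin m → V), (∀ i, Win c r w₁ ℓ α β (x i) (y i)) ∧
    (∀ x' y', Win c r w₁ ℓ α β x' y' → ∃ i, x i = x' ∧ y i = y') ∧ ∀ i j, j ≤ i → lv c (x i) ≤ lv c (x j) := by
  obtain ⟨m, u, h1, h2, h3⟩ := Blk1_enum (Blk1_Win_finite c r w₁ ℓ α β).toFinset fun u => -lv c u.1
  refine ⟨m, fun i => (u i).1, fun i => (u i).2, fun i => ?_, fun x' y' h => ?_, fun i j hij => ?_⟩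
  · have h4 : u i ∈ {u : V × V | Win c r w₁ ℓ α β u.1 u.2} := (Set.Finite.mem_toFinset _).1 (h1 i)
    exact h4
  · obtain ⟨i, hi⟩ := h2 (x', y') ((Set.Finite.mem_toFinset _).2 h)
    refine ⟨i, ?_, ?_⟩
    · show (u i).1 = x'
      rw [hi]
    · show (u i).2 = y'
      rw [hi]
  · have h4 := h3 i j hij
    show lv c (u i).1 ≤ lv c (u j).1
    linarith

/-- `Cr` in terms of the list. -/
theorem Cr_iff {b : ℝ} {m : ℕ} {x y : Fin m → V} (h1 : ∀ i, Win c r w₁ ℓ α β (x i) (y i))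
    (h2 : ∀ x' y', Win c r w₁ ℓ α β x' y' → ∃ i, x i = x' ∧ y i = y') (τ : Env) :
    Cr b c r w w₁ ℓ α β e τ ↔ ∃ i, Kc b c w ℓ α β e (x i) (y i) τ := by
  constructor
  · rintro ⟨x', y', h3, h4⟩
    obtain ⟨i, rfl, rfl⟩ := h2 x' y' h3
    exact ⟨i, h4⟩
  · rintro ⟨i, h3⟩
    exact ⟨x i, y i, h1 i, h3⟩

end

end Pool.Agent.W_1b8d5d_fe
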