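import Pool.Agent.W_1b8d5d_fe.Cv
import Pool.Agent.W_1b8d5d_c1.Cnt
import Pool.Agent.W_1b8d5d_c1.Comb

/-!
MP_1b8d5d_pr (FE): sequences of rows: many slow blocks (6.4) of row 596.
-/

set_option autoImplicit false

namespace Pool.Agent.W_1b8d5d_fe

open Finset Pool.Agent.W_1b8d5d_h85
open Pool.Agent.W_1b8d5d_c1 (bseq card_bseq mem_bseq bseq_sum chern_env)

/-- An admissible sequence of rows. -/
def Adm (m N : ℕ) (k : ℕ → ℤ) : Prop := k 0 = 0 ∧ ∑ i ∈ range (2 * m), |k (i + 1) - k i| ≤ (N : ℤ)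

theorem Adm_abs {m N : ℕ} {k : ℕ → ℤ} (h : Adm m N k) {i : ℕ} (hi : i ≤ 2 * m) : |k i| ≤ N := by
  have h1 : k i = ∑ j ∈ range i, (k (j + 1) - k j) := by
    rw [sum_range_sub, h.1, sub_zero]
  rw [h1]
  refine (abs_sum_le_sum_abs _ _).trans (le_trans ?_ h.2)
  refine sum_le_sum_of_subset_of_nonneg ?_ fun j _ _ => abs_nonneg _
  intro j hj
  rw [mem_range] at hj ⊢
  omega

/-- The number of admissible sequences (up to the values which matter) is small.  PROOF. The differences are in `bseq (2 m) N` (`mem_bseq`), the values `k i`,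
`i ≤ 2 m`, are their partial sums; `card_bseq` with `x` so small that `2 log ((1 + x) / (1 - x)) ≤ p / 32`, then `κ` with `κ log (1 / x) ≤ p / 32`
(compare `count_small` in `W_1b8d5d_c1/Cnt.lean`). -/
theorem card_small {p : ℝ} (hp : 0 < p) : ∃ (κ : ℝ) (m₀ : ℕ), 0 < κ ∧ κ ≤ 1 ∧ ∀ m N : ℕ, m₀ ≤ m → (N : ℝ) ≤ κ * m →
    ((bseq (2 * m) N).card : ℝ) * Real.exp (-(p * m / 4)) ≤ 1 / 8 := by
  obtain ⟨E, hE⟩ : ∃ E, E = Real.exp (p / 64) := ⟨_, rfl⟩
  have hE1 : 1 < E := by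
    rw [hE]
    exact Real.one_lt_exp_iff.2 (by positivity)
  obtain ⟨x, hx⟩ : ∃ x, x = (E - 1) / (E + 1) := ⟨_, rfl⟩
  have hE0 : 0 < E + 1 := by linarith
  have hx0 : 0 < x := by
    rw [hx]
    exact div_pos (by linarith) hE0
  have hx1 : x < 1 := by
    rw [hx, div_lt_one hE0]
    linarith
  have hxE : (1 + x) / (1 - x) = E := by
    have h1 : 1 + x = 2 * E / (E + 1) := by
      rw [hx]
      field_simp
      ring
    have h2 : 1 - x = 2 / (E + 1) := by
      rw [hx]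
      field_simp
      ring
    rw [h1, h2]
    field_simp
  obtain ⟨L, hL⟩ : ∃ L, L = -Real.log x := ⟨_, rfl⟩
  have hL0 : 0 < L := by
    rw [hL]
    have := Real.log_neg hx0 hx1
    linarith
  have hxL : ∀ N : ℕ, 1 / x ^ N = Real.exp (N * L) := by
    intro N
    rw [hL, mul_neg, Real.exp_neg, ← Real.log_pow, Real.exp_log (by positivity), one_div]
  obtain ⟨κ, hκ⟩ : ∃ κ, κ = min 1 (p / (32 * L)) := ⟨_, rfl⟩
  have hκ0 : 0 < κ := by
    rw [hκ]
    exact lt_min one_pos (by positivity)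
  have hκ1 : κ ≤ 1 := by
    rw [hκ]
    exact min_le_left _ _
  have hκL : κ * L ≤ p / 32 := by
    have h1 : κ ≤ p / (32 * L) := by
      rw [hκ]
      exact min_le_right _ _
    calc κ * L ≤ p / (32 * L) * L := mul_le_mul_of_nonneg_right h1 hL0.le
      _ = p / 32 := by field_simp
  refine ⟨κ, ⌈16 * Real.log 8 / (3 * p)⌉₊, hκ0, hκ1, fun m N hm hN => ?_⟩
  have h1 : 16 * Real.log 8 / (3 * p) ≤ m := (Nat.le_ceil _).trans (by exact_mod_cast hm)
  rw [div_le_iff₀ (by positivity)] at h1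
  have hm0 : (0 : ℝ) ≤ m := Nat.cast_nonneg m
  have h2 : (N : ℝ) * L ≤ m * (p / 32) := by
    calc (N : ℝ) * L ≤ κ * m * L := mul_le_mul_of_nonneg_right hN hL0.le
      _ = m * (κ * L) := by ring
      _ ≤ m * (p / 32) := mul_le_mul_of_nonneg_left hκL hm0
  have h14 := card_bseq (2 * m) N hx0 hx1
  rw [hxE, div_eq_mul_one_div, hxL, hE, ← Real.exp_nat_mul] at h14
  push_cast at h14
  calc ((bseq (2 * m) N).card : ℝ) * Real.exp (-(p * m / 4))
      ≤ Real.exp (2 * m * (p / 64)) * Real.exp (N * L) * Real.exp (-(p * m / 4)) :=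
        mul_le_mul_of_nonneg_right h14 (Real.exp_pos _).le
    _ = Real.exp (2 * m * (p / 64) + N * L + -(p * m / 4)) := by
        rw [Real.exp_add, Real.exp_add]
    _ ≤ Real.exp (-Real.log 8) := by
        apply Real.exp_le_exp.2
        nlinarith
    _ = 1 / 8 := by
        rw [Real.exp_neg, Real.exp_log (by norm_num), one_div]

/-- The partial sums of a sequence of differences. -/
private def Cnt1_pth {K : ℕ} (z : Fin K → ℤ) (i : ℕ) : ℤ := ∑ j ∈ univ.filter (fun j : Fin K => j.1 < i), z j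

private theorem Cnt1_abs {K N : ℕ} {z : Fin K → ℤ} (h : z ∈ bseq K N) (i : ℕ) : |Cnt1_pth z i| ≤ N := by
  unfold Cnt1_pth
  refine (abs_sum_le_sum_abs _ _).trans (le_trans ?_ (bseq_sum h))
  exact sum_le_sum_of_subset_of_nonneg (filter_subset _ _) fun j _ _ => abs_nonneg _

private theorem Cnt1_eq {K : ℕ} (k : ℕ → ℤ) (h0 : k 0 = 0) {i : ℕ} (hi : i ≤ K) :
    Cnt1_pth (fun j : Fin K => k (j.1 + 1) - k j.1) i = k i := by
  have h1 : k i = ∑ j ∈ range i, (k (j + 1) - k j) := by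
    rw [sum_range_sub, h0, sub_zero]
  rw [h1]
  unfold Cnt1_pth
  rw [sum_filter, Fin.sum_univ_eq_sum_range (fun j => if j < i then k (j + 1) - k j else 0) K,
    ← sum_filter]
  refine sum_congr ?_ fun _ _ => rfl
  ext j
  rw [mem_filter, mem_range, mem_range]
  omega

open Classical in
/-- Many slow blocks.  PROOF. For a fixed sequence `chern_env` (`W_1b8d5d_c1/Chern.lean`; `hM.indep`) with the sets `A j (k (2 j))` (if some `|k (2 j)| > N` nothing is needed, `Adm_abs`);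
union bound (`M.P_exists_le`) over the sequences of differences in `bseq (2 m) N`, `card_small`. -/
theorem many_slow {p₀ : ℝ} (hp : 0 < p₀) (hp1 : p₀ ≤ 1) : ∃ (κ : ℝ) (m₀ : ℕ), 0 < κ ∧ κ ≤ 1 ∧
    ∀ {Q : Par} {g : V → ℝ} {R : ℝ} {M : Mdl Q.a Q.b}, Good Q g R M → ∀ m N : ℕ, m₀ ≤ m → (N : ℝ) ≤ κ * m →
    ∀ (A : ℕ → ℤ → Set Edge) (p : ℕ → ℤ → Env → Prop), (∀ j < m, ∀ k, DependsOn (p j k) (A j k)) →
      (∀ i j, i < j → j < m → ∀ k k', Disjoint (A i k) (A j k')) →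
      (∀ j < m, ∀ k : ℤ, |k| ≤ N → ∀ d ∈ A j k, nm d.1 ≤ R) → (∀ j < m, ∀ k, p₀ ≤ M.P (p j k)) →
      M.P (fun τ => ∃ k : ℕ → ℤ, Adm m N k ∧
        (((range m).filter fun j => p j (k (2 * j)) τ).card : ℝ) ≤ p₀ * m / 4) ≤ 1 / 8 := by
  obtain ⟨κ, m₀, hκ0, hκ1, hc⟩ := card_small hp
  refine ⟨κ, m₀, hκ0, hκ1, ?_⟩
  intro Q g R M hM m N hm hN A p hA hdis hR hP
  have h1 : M.P (fun τ => ∃ k : ℕ → ℤ, Adm m N k ∧
        (((range m).filter fun j => p j (k (2 * j)) τ).card : ℝ) ≤ p₀ * m / 4) ≤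
      M.P (fun τ => ∃ z ∈ bseq (2 * m) N,
        (((range m).filter fun j => p j (Cnt1_pth z (2 * j)) τ).card : ℝ) ≤ p₀ * m / 4) := by
    refine M.P_mono fun τ _ h2 => ?_
    obtain ⟨k, hk, h3⟩ := h2
    refine ⟨fun j => k (j.1 + 1) - k j.1, mem_bseq ?_, ?_⟩
    · rw [Fin.sum_univ_eq_sum_range (fun j => |k (j + 1) - k j|) (2 * m)]
      exact hk.2
    · have h4 : ((range m).filter fun j =>
            p j (Cnt1_pth (fun j : Fin (2 * m) => k (j.1 + 1) - k j.1) (2 * j)) τ)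
          = (range m).filter fun j => p j (k (2 * j)) τ := by
        refine filter_congr fun j hj => ?_
        rw [mem_range] at hj
        rw [Cnt1_eq k hk.1 (by omega)]
      rw [h4]
      exact h3
  refine h1.trans ((M.P_exists_le _ _).trans ?_)
  have h2 : ∀ z ∈ bseq (2 * m) N, M.P (fun τ =>
      (((range m).filter fun j => p j (Cnt1_pth z (2 * j)) τ).card : ℝ) ≤ p₀ * m / 4) ≤
      Real.exp (-(p₀ * m / 4)) := by
    intro z hz
    exact chern_env M hM.indep m (fun j => A j (Cnt1_pth z (2 * j)))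
      (fun i j hij hj => hdis i j hij hj _ _)
      (fun j hj => hR j hj _ (Cnt1_abs hz _))
      (fun j => p j (Cnt1_pth z (2 * j))) (fun j hj => hA j hj _) (fun j hj => hP j hj _)
  refine (sum_le_sum h2).trans ?_
  rw [sum_const, nsmul_eq_mul]
  exact hc m N hm hN

end Pool.Agent.W_1b8d5d_fe
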