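import Pool.Agent.W_1b8d5d_fe.Cnt1

/-!
MP_1b8d5d_pr (FE): sequences of rows: few lucky blocks (6.5) of row 596.
-/

set_option autoImplicit false

namespace Pool.Agent.W_1b8d5d_fe

open Finset Pool.Agent.W_1b8d5d_h85
open Pool.Agent.W_1b8d5d_c1 (bseq card_bseq mem_bseq bseq_sum chern_env)

private theorem Cnt2_exp : (5 / 3 : ℝ) ≤ Real.exp 1 := by
  have := Real.add_one_le_exp (1 : ℝ)
  linarith

private theorem Cnt2_card (K N : ℕ) (hK : 1 ≤ K) :
    ((bseq K N).card : ℝ) ≤ (Real.exp 1 * ((2 * N + K) / K)) ^ K := by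
  have hK0 : (0 : ℝ) < K := by exact_mod_cast hK
  rcases Nat.eq_zero_or_pos N with hN | hN
  · subst hN
    have h1 := card_bseq K 0 (x := 1 / 4) (by norm_num) (by norm_num)
    have h2 : ((1 + 1 / 4 : ℝ) / (1 - 1 / 4)) = 5 / 3 := by norm_num
    rw [h2, pow_zero, div_one] at h1
    refine h1.trans (pow_le_pow_left₀ (by norm_num) ?_ K)
    have h3 : (2 * ((0 : ℕ) : ℝ) + K) / K = 1 := by
      rw [Nat.cast_zero, mul_zero, zero_add, div_self hK0.ne']
    rw [h3, mul_one]
    exact Cnt2_exp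
  · have hN0 : (0 : ℝ) < N := by exact_mod_cast hN
    have hNK : (0 : ℝ) < N + K := by linarith
    have h1 := card_bseq K N (x := (N : ℝ) / (N + K)) (by positivity)
      (by rw [div_lt_one hNK]; linarith)
    have h2 : (1 + (N : ℝ) / (N + K)) / (1 - (N : ℝ) / (N + K)) = (2 * N + K) / K := by
      have e1 : 1 - (N : ℝ) / (N + K) = K / (N + K) := by
        field_simp
        ring
      rw [e1]
      field_simp
      ring
    have h3 : 1 / ((N : ℝ) / (N + K)) ^ N ≤ Real.exp 1 ^ K := by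
      have e1 : 1 / ((N : ℝ) / (N + K)) ^ N = (1 + K / N) ^ N := by
        rw [one_div, ← inv_pow, inv_div]
        congr 1
        field_simp
      have e2 : 1 + (K : ℝ) / N ≤ Real.exp (K / N) := by
        have := Real.add_one_le_exp ((K : ℝ) / N)
        linarith
      have e3 : (0 : ℝ) ≤ 1 + (K : ℝ) / N := by positivity
      rw [e1]
      refine (pow_le_pow_left₀ e3 e2 N).trans (le_of_eq ?_)
      rw [← Real.exp_nat_mul, ← Real.exp_nat_mul, mul_one]
      congr 1
      field_simp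
    rw [h2] at h1
    refine h1.trans ?_
    rw [div_eq_mul_one_div, mul_pow, mul_comm]
    exact mul_le_mul_of_nonneg_right h3 (by positivity)

private theorem Cnt2_choose (m K : ℕ) (hK : 1 ≤ K) :
    ((m.choose K : ℕ) : ℝ) ≤ (Real.exp 1 * (m / K)) ^ K := by
  have hK0 : (0 : ℝ) < K := by exact_mod_cast hK
  have h1 : ((m.choose K : ℕ) : ℝ) ≤ (m : ℝ) ^ K / (K.factorial : ℝ) := Nat.choose_le_pow_div K m
  have h2 : (K : ℝ) ^ K / (K.factorial : ℝ) ≤ Real.exp K :=
    Real.pow_div_factorial_le_exp (K : ℝ) hK0.le K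
  have hf : (0 : ℝ) < (K.factorial : ℝ) := by exact_mod_cast K.factorial_pos
  refine h1.trans ?_
  have e1 : (m : ℝ) ^ K / (K.factorial : ℝ) = (m / K : ℝ) ^ K * ((K : ℝ) ^ K / (K.factorial : ℝ)) := by
    rw [div_pow]
    field_simp
  have e2 : (Real.exp 1 * (m / K)) ^ K = (m / K : ℝ) ^ K * Real.exp K := by
    rw [mul_pow, ← Real.exp_nat_mul, mul_one, mul_comm]
  rw [e1, e2]
  exact mul_le_mul_of_nonneg_left h2 (by positivity)

/-- Extension by zero. -/
private def Cnt2_ex {K : ℕ} (z : Fin K → ℤ) (i : ℕ) : ℤ := if h : i < K then z ⟨i, h⟩ else 0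

private theorem Cnt2_ex_sum {K : ℕ} (z : Fin K → ℤ) :
    ∑ i ∈ range K, |Cnt2_ex z i| = ∑ i, |z i| := by
  rw [Finset.sum_range]
  refine sum_congr rfl fun i _ => ?_
  unfold Cnt2_ex
  rw [dif_pos i.2]

/-- The partial sums. -/
private def Cnt2_v {K : ℕ} (z : Fin K → ℤ) (i : ℕ) : ℤ := ∑ l ∈ range (i + 1), Cnt2_ex z l

private theorem Cnt2_v_le {K N : ℕ} {z : Fin K → ℤ} (hz : z ∈ bseq K N) {i : ℕ} (hi : i < K) :
    |Cnt2_v z i| ≤ N := by
  unfold Cnt2_v
  calc |∑ l ∈ range (i + 1), Cnt2_ex z l| ≤ ∑ l ∈ range (i + 1), |Cnt2_ex z l| :=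
        abs_sum_le_sum_abs _ _
    _ ≤ ∑ l ∈ range K, |Cnt2_ex z l| :=
        sum_le_sum_of_subset_of_nonneg (range_subset_range.2 (by omega)) fun _ _ _ => abs_nonneg _
    _ = ∑ l, |z l| := Cnt2_ex_sum z
    _ ≤ N := bseq_sum hz

/-- Enumeration of a finite set. -/
private noncomputable def Cnt2_s (J : Finset ℕ) (i : ℕ) : ℕ :=
  if h : i < J.card then J.orderEmbOfFin rfl ⟨i, h⟩ else 0

private theorem Cnt2_s_mem {J : Finset ℕ} {i : ℕ} (h : i < J.card) : Cnt2_s J i ∈ J := by
  unfold Cnt2_s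
  rw [dif_pos h]
  exact Finset.orderEmbOfFin_mem _ _ _

private theorem Cnt2_s_lt {J : Finset ℕ} {i j : ℕ} (hij : i < j) (h : j < J.card) :
    Cnt2_s J i < Cnt2_s J j := by
  unfold Cnt2_s
  rw [dif_pos h, dif_pos (hij.trans h)]
  exact (J.orderEmbOfFin rfl).strictMono (by exact hij)

open Classical in
private theorem Cnt2_prob {Q : Par} {g : V → ℝ} {R : ℝ} {M : Mdl Q.a Q.b} (hM : Good Q g R M)
    {ρ : ℝ} (hρ0 : 0 ≤ ρ) (K : ℕ) (A : ℕ → Set Edge) (p : ℕ → Env → Prop)
    (hdep : ∀ i < K, DependsOn (p i) (A i)) (hdisj : ∀ i j, i < j → j < K → Disjoint (A i) (A j))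
    (hR : ∀ i < K, ∀ d ∈ A i, nm d.1 ≤ R) (hρ : ∀ i < K, M.P (p i) ≤ ρ) :
    M.P (fun τ => ∀ i < K, p i τ) ≤ ρ ^ K := by
  induction K with
  | zero =>
    rw [pow_zero]
    exact M.P_le_one _
  | succ K ih =>
    have ih' := ih (fun i hi => hdep i (by omega)) (fun i j hij hj => hdisj i j hij (by omega))
      (fun i hi => hR i (by omega)) (fun i hi => hρ i (by omega))
    have e1 : M.P (fun τ => ∀ i < K + 1, p i τ) =
        M.E (fun τ => (if ∀ i < K, p i τ then (1 : ℝ) else 0) * (if p K τ then (1 : ℝ) else 0)) := by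
      rw [M.P_def]
      refine M.E_congr fun τ _ => ?_
      by_cases h1 : ∀ i < K, p i τ
      · by_cases h2 : p K τ
        · have h3 : ∀ i < K + 1, p i τ := by
            intro i hi
            rcases Nat.lt_succ_iff_lt_or_eq.1 hi with h | h
            · exact h1 i h
            · rw [h]
              exact h2
          rw [if_pos h3, if_pos h1, if_pos h2, mul_one]
        · have h3 : ¬ ∀ i < K + 1, p i τ := fun h => h2 (h K (by omega))
          rw [if_neg h3, if_neg h2, mul_zero]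
      · have h3 : ¬ ∀ i < K + 1, p i τ := fun h => h1 fun i hi => h i (by omega)
        rw [if_neg h3, if_neg h1, zero_mul]
    have e2 := hM.indep (⋃ i ∈ Set.Iio K, A i) (A K) (by
        rw [Set.disjoint_iUnion₂_left]
        intro i hi
        exact hdisj i K hi (by omega)) (by
        rintro e (he | he)
        · rw [Set.mem_iUnion₂] at he
          obtain ⟨i, hi, he⟩ := he
          have hi' : i < K := hi
          exact hR i (by omega) e he
        · exact hR K (by omega) e he)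
      (fun τ => if ∀ i < K, p i τ then (1 : ℝ) else 0) (fun τ => if p K τ then (1 : ℝ) else 0)
      (by
        intro τ τ' h
        have h1 : (∀ i < K, p i τ) ↔ ∀ i < K, p i τ' := by
          refine forall₂_congr fun i hi => ?_
          rw [hdep i (by omega) fun e he => h e (Set.mem_biUnion (by exact hi) he)]
        show (if ∀ i < K, p i τ then (1 : ℝ) else 0) = if ∀ i < K, p i τ' then (1 : ℝ) else 0
        simp only [h1])
      (by
        intro τ τ' h
        have h1 : p K τ = p K τ' := hdep K (by omega) h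
        show (if p K τ then (1 : ℝ) else 0) = if p K τ' then (1 : ℝ) else 0
        simp only [h1])
    have f1 : M.E (fun τ => if ∀ i < K, p i τ then (1 : ℝ) else 0) =
        M.P (fun τ => ∀ i < K, p i τ) := by
      rw [M.P_def]
      refine M.E_congr fun τ _ => ?_
      by_cases h1 : ∀ i < K, p i τ
      · rw [if_pos h1, if_pos h1]
      · rw [if_neg h1, if_neg h1]
    have f2 : M.E (fun τ => if p K τ then (1 : ℝ) else 0) = M.P (p K) := by
      rw [M.P_def]
    rw [e1, e2, f1, f2, pow_succ]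
    exact mul_le_mul ih' (hρ K (by omega)) (M.P_nonneg _) (by positivity)

/-- The total variation between two times. -/
private theorem Cnt2_var (k : ℕ → ℤ) {a b : ℕ} (hab : a ≤ b) :
    |k b - k a| + ∑ i ∈ range a, |k (i + 1) - k i| ≤ ∑ i ∈ range b, |k (i + 1) - k i| := by
  induction b, hab using Nat.le_induction with
  | base => simp
  | succ b hab ih =>
    rw [sum_range_succ]
    have h1 : |k (b + 1) - k a| ≤ |k (b + 1) - k b| + |k b - k a| := by
      have := abs_add_le (k (b + 1) - k b) (k b - k a)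
      rwa [sub_add_sub_cancel] at this
    linarith

open Classical in
/-- Few lucky blocks (chains).  PROOF. If `K` of the indices `j < m` have `p j (k (2 j + o))`, choose `j_1 < ... < j_K` among them; the vector of the differences
`(k (2 j_1 + o), k (2 j_2 + o) - k (2 j_1 + o), ...)` is in `bseq K N`.  The union bound over the `m.choose K ≤ (3 m / K) ^ K` sets of indices and over `bseq K N`; for a fixed chain the
probability of all `K` events is `≤ ρ ^ K` (independence, disjoint sets of edges).  `card_bseq` with `x = N / (N + K)`: `(1 + x) / (1 - x) = (2 N + K) / K`, `x ^ (-N) = (1 + K / N) ^ N ≤ 3 ^ K`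
(`N = 0`: the cardinality is `1`).  Total `≤ (9 m (2 N + K) ρ / K²) ^ K ≤ (1/2) ^ K`.  (Use `(e ≤) 2.7183`, `2 e² < 16` if `9` is replaced by `e²`: `2 e² m (2 N + K) ρ ≤ K²`.) -/
theorem few_lucky {Q : Par} {g : V → ℝ} {R : ℝ} {M : Mdl Q.a Q.b} (hM : Good Q g R M) {m N K : ℕ} {ρ : ℝ} (o : ℕ) (ho : o ≤ 1)
    (A : ℕ → ℤ → Set Edge) (p : ℕ → ℤ → Env → Prop) (hdep : ∀ j < m, ∀ k, DependsOn (p j k) (A j k))
    (hdisj : ∀ i j, i < j → j < m → ∀ k k', Disjoint (A i k) (A j k'))
    (hR : ∀ j < m, ∀ k : ℤ, |k| ≤ N → ∀ d ∈ A j k, nm d.1 ≤ R) (hρ0 : 0 ≤ ρ) (hρ : ∀ j < m, ∀ k, M.P (p j k) ≤ ρ)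
    (hK : 1 ≤ K) (h : 40 * m * (N + K) * ρ ≤ (K : ℝ) ^ 2) :
    M.P (fun τ => ∃ k : ℕ → ℤ, Adm m N k ∧ K ≤ ((range m).filter fun j => p j (k (2 * j + o)) τ).card) ≤ (1 / 2) ^ K := by
  have hK0 : (0 : ℝ) < K := by exact_mod_cast hK
  -- the union bound
  have h1 : M.P (fun τ => ∃ k : ℕ → ℤ, Adm m N k ∧
      K ≤ ((range m).filter fun j => p j (k (2 * j + o)) τ).card) ≤
      M.P (fun τ => ∃ y ∈ (powersetCard K (range m)) ×ˢ (bseq K N),
        ∀ i < K, p (Cnt2_s y.1 i) (Cnt2_v y.2 i) τ) := by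
    refine M.P_mono fun τ _ hτ => ?_
    obtain ⟨k, ⟨hk0, hkN⟩, hcard⟩ := hτ
    obtain ⟨J, hJ, hJK⟩ := Finset.exists_subset_card_eq hcard
    have hJm : J ⊆ range m := hJ.trans (filter_subset _ _)
    -- the values along the chain
    obtain ⟨a, ha⟩ : ∃ a : ℕ → ℤ, a = fun i => k (2 * Cnt2_s J i + o) := ⟨_, rfl⟩
    obtain ⟨zz, hzz⟩ : ∃ zz : ℕ → ℤ, zz = fun i => a i - (if i = 0 then 0 else a (i - 1)) :=
      ⟨_, rfl⟩
    have hsum : ∀ i, i < K → ∑ l ∈ range (i + 1), zz l = a i ∧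
        ∑ l ∈ range (i + 1), |zz l| ≤ ∑ t ∈ range (2 * Cnt2_s J i + o), |k (t + 1) - k t| := by
      intro i
      induction i with
      | zero =>
        intro _
        have e0 : zz 0 = a 0 := by
          rw [hzz]
          simp
        rw [zero_add, sum_range_one, sum_range_one, e0]
        refine ⟨rfl, ?_⟩
        have e1 := Cnt2_var k (Nat.zero_le (2 * Cnt2_s J 0 + o))
        rw [hk0, sub_zero, range_zero, sum_empty, add_zero] at e1
        rw [ha]
        exact e1
      | succ i ih =>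
        intro hi
        obtain ⟨g1, g2⟩ := ih (by omega)
        have e0 : zz (i + 1) = a (i + 1) - a i := by
          rw [hzz]
          simp
        rw [sum_range_succ, sum_range_succ _ (i + 1), g1, e0]
        refine ⟨by ring, ?_⟩
        have hlt : Cnt2_s J i < Cnt2_s J (i + 1) :=
          Cnt2_s_lt (J := J) (i := i) (j := i + 1) (by omega) (by omega)
        have e1 := Cnt2_var k (a := 2 * Cnt2_s J i + o) (b := 2 * Cnt2_s J (i + 1) + o) (by omega)
        have e2 : |a (i + 1) - a i| =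
            |k (2 * Cnt2_s J (i + 1) + o) - k (2 * Cnt2_s J i + o)| := by rw [ha]
        rw [e2]
        linarith
    obtain ⟨z, hz⟩ : ∃ z : Fin K → ℤ, z = fun i : Fin K => zz i := ⟨_, rfl⟩
    have hex : ∀ i < K, Cnt2_ex z i = zz i := by
      intro i hi
      unfold Cnt2_ex
      rw [dif_pos hi, hz]
    have hv : ∀ i < K, Cnt2_v z i = a i := by
      intro i hi
      unfold Cnt2_v
      rw [← (hsum i hi).1]
      exact sum_congr rfl fun l hl => hex l (by have := mem_range.1 hl; omega)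
    have hzN : ∑ i, |z i| ≤ (N : ℤ) := by
      rw [← Cnt2_ex_sum]
      have g1 : ∑ i ∈ range K, |Cnt2_ex z i| = ∑ i ∈ range ((K - 1) + 1), |zz i| := by
        rw [Nat.sub_add_cancel hK]
        exact sum_congr rfl fun l hl => by rw [hex l (mem_range.1 hl)]
      rw [g1]
      have hmem : Cnt2_s J (K - 1) ∈ J := Cnt2_s_mem (by omega)
      have hlt := mem_range.1 (hJm hmem)
      have g2 := Cnt2_var k (a := 2 * Cnt2_s J (K - 1) + o) (b := 2 * m) (by omega)
      have g3 := abs_nonneg (k (2 * m) - k (2 * Cnt2_s J (K - 1) + o))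
      linarith [(hsum (K - 1) (by omega)).2]
    refine ⟨(J, z), mem_product.2 ⟨mem_powersetCard.2 ⟨hJm, hJK⟩, mem_bseq hzN⟩, fun i hi => ?_⟩
    show p (Cnt2_s J i) (Cnt2_v z i) τ
    rw [hv i hi, ha]
    exact (mem_filter.1 (hJ (Cnt2_s_mem (by omega)))).2
  -- the probability of a chain
  have h2 : ∀ y ∈ (powersetCard K (range m)) ×ˢ (bseq K N),
      M.P (fun τ => ∀ i < K, p (Cnt2_s y.1 i) (Cnt2_v y.2 i) τ) ≤ ρ ^ K := by
    rintro ⟨J, z⟩ hy
    obtain ⟨hJ, hz⟩ := mem_product.1 hy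
    obtain ⟨hJm, hJK⟩ := mem_powersetCard.1 hJ
    change J ⊆ range m at hJm
    change J.card = K at hJK
    change z ∈ bseq K N at hz
    have hm : ∀ i < K, Cnt2_s J i < m := fun i hi => mem_range.1 (hJm (Cnt2_s_mem (by omega)))
    exact Cnt2_prob hM hρ0 K (fun i => A (Cnt2_s J i) (Cnt2_v z i))
      (fun i => p (Cnt2_s J i) (Cnt2_v z i)) (fun i hi => hdep _ (hm i hi) _)
      (fun i j hij hj => hdisj _ _ (Cnt2_s_lt hij (by omega)) (hm j hj) _ _)
      (fun i hi => hR _ (hm i hi) _ (Cnt2_v_le hz hi)) (fun i hi => hρ _ (hm i hi) _)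
  have h3 := (h1.trans (M.P_exists_le _ _)).trans (sum_le_sum h2)
  refine h3.trans ?_
  rw [sum_const, card_product, card_powersetCard, card_range, nsmul_eq_mul]
  push_cast
  have h4 := Cnt2_choose m K hK
  have h5 := Cnt2_card K N hK
  have h6 : (((m.choose K : ℕ) : ℝ) * ((bseq K N).card : ℝ)) * ρ ^ K ≤
      ((Real.exp 1 * (m / K)) ^ K * (Real.exp 1 * ((2 * N + K) / K)) ^ K) * ρ ^ K :=
    mul_le_mul_of_nonneg_right (mul_le_mul h4 h5 (by positivity) (by positivity)) (by positivity)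
  refine h6.trans ?_
  rw [← mul_pow, ← mul_pow]
  refine pow_le_pow_left₀ (by positivity) ?_ K
  have h7 : Real.exp 1 * (m / K) * (Real.exp 1 * ((2 * N + K) / K)) * ρ =
      (Real.exp 1) ^ 2 * (m * (2 * N + K) * ρ) / (K : ℝ) ^ 2 := by
    field_simp
  rw [h7, div_le_div_iff₀ (by positivity) (by norm_num)]
  have h8 : Real.exp 1 ^ 2 ≤ 10 := by
    have := Real.exp_one_lt_d9
    have h0 : 0 < Real.exp 1 := Real.exp_pos 1
    nlinarith
  have h9 : 0 ≤ (m : ℝ) * (2 * N + K) * ρ := by positivity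
  have h10 : (m : ℝ) * (2 * N + K) * ρ ≤ 2 * (m * (N + K) * ρ) := by
    have g1 : 0 ≤ (m : ℝ) * K * ρ := by positivity
    nlinarith
  nlinarith

end Pool.Agent.W_1b8d5d_fe
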