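import Pool.Agent.W_1b8d5d_fe.Cnt1

/-!
MP_1b8d5d_pr (FE): the final balance (pure arithmetic).
-/

set_option autoImplicit false

namespace Pool.Agent.W_1b8d5d_fe

open Finset Pool.Agent.W_1b8d5d_h85
open Pool.Agent.W_1b8d5d_c1 (bseq card_bseq mem_bseq bseq_sum chern_env)

private theorem Cnt3_dyadic {Y a : ℝ} (h : Y < a) : ∀ J : ℕ, a ≤ 2 ^ J * Y →
    ∃ j < J, 2 ^ j * Y < a ∧ a ≤ 2 ^ (j + 1) * Y
  | 0, h0 => by
      rw [pow_zero, one_mul] at h0
      linarith
  | J + 1, h0 => by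
      by_cases h1 : a ≤ 2 ^ J * Y
      · obtain ⟨j, hj, h2, h3⟩ := Cnt3_dyadic h J h1
        exact ⟨j, by omega, h2, h3⟩
      · exact ⟨J, by omega, lt_of_not_ge h1, h0⟩

open Classical in
/-- The number of changes is at most `N`. -/
private theorem Cnt3_changes {m N : ℕ} {k : ℕ → ℤ} (hk : Adm m N k) :
    (((range (2 * m)).filter fun i => k (i + 1) ≠ k i).card : ℝ) ≤ N := by
  have h1 : (((range (2 * m)).filter fun i => k (i + 1) ≠ k i).card : ℤ) ≤
      ∑ i ∈ range (2 * m), |k (i + 1) - k i| := by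
    rw [card_filter]
    push_cast
    refine sum_le_sum fun i _ => ?_
    by_cases h : k (i + 1) ≠ k i
    · rw [if_pos h]
      exact Int.one_le_abs (sub_ne_zero.2 h)
    · rw [if_neg h]
      exact abs_nonneg _
  have h2 := h1.trans hk.2
  exact_mod_cast h2

/-- The bound of one block. -/
private theorem Cnt3_block {J : ℕ} {D Y a : ℝ} (hD : 0 ≤ D) (hY : D ≤ Y) {LD ch : Prop}
    [Decidable LD] [Decidable ch] {LW : ℕ → Prop} [DecidablePred LW] (h2 : ¬ ch → D ≤ a → LD) (h3 : ∀ j < J, 2 ^ j * Y ≤ a → LW j)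
    (h4 : a ≤ 2 ^ J * Y) :
    a ≤ D + Y * ((if LD then 1 else 0) + (if ch then 1 else 0)) +
      ∑ j ∈ range J, (if LW j then 2 ^ (j + 1) * Y else 0) := by
  have hY0 : 0 ≤ Y := hD.trans hY
  have hs : 0 ≤ ∑ j ∈ range J, (if LW j then 2 ^ (j + 1) * Y else (0 : ℝ)) :=
    sum_nonneg fun j _ => by split_ifs <;> positivity
  have hi : 0 ≤ Y * ((if LD then (1 : ℝ) else 0) + (if ch then 1 else 0)) := by
    apply mul_nonneg hY0
    split_ifs <;> norm_num
  rcases le_or_gt a Y with h | h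
  · by_cases hc : ch
    · have : Y * 1 ≤ Y * ((if LD then (1 : ℝ) else 0) + (if ch then 1 else 0)) := by
        apply mul_le_mul_of_nonneg_left _ hY0
        rw [if_pos hc]
        split_ifs <;> norm_num
      linarith
    · by_cases hL : LD
      · have : Y * 1 ≤ Y * ((if LD then (1 : ℝ) else 0) + (if ch then 1 else 0)) := by
          apply mul_le_mul_of_nonneg_left _ hY0
          rw [if_pos hL]
          split_ifs <;> norm_num
        linarith
      · have : a < D := by
          by_contra h5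
          exact hL (h2 hc (not_lt.1 h5))
        linarith
  · obtain ⟨j, hj, h5, h6⟩ := Cnt3_dyadic h J h4
    have h7 : 2 ^ (j + 1) * Y ≤ ∑ j ∈ range J, (if LW j then 2 ^ (j + 1) * Y else (0 : ℝ)) := by
      have h8 := single_le_sum (s := range J) (f := fun j => (if LW j then 2 ^ (j + 1) * Y else (0 : ℝ)))
        (fun j _ => by
          show (0 : ℝ) ≤ if LW j then 2 ^ (j + 1) * Y else 0
          split_ifs <;> positivity) (mem_range.2 hj)
      have h9 : (if LW j then 2 ^ (j + 1) * Y else (0 : ℝ)) = 2 ^ (j + 1) * Y := if_pos (h3 j hj h5.le)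
      exact h9 ▸ h8
    linarith

open Classical in
/-- The final balance (pure arithmetic).  `t i` the cost of the block `i`, `l` its length minus `2 C`.  PROOF. `l - t i ≤ D + Y (1_{LD i} + 1_{k (i+1) ≠ k i}) + ∑_{j < J} 2 ^ (j + 1) Y 1_{LW j i}` for every `i < 2 m` (if
`l - t i > Y` take the largest `j` with `2 ^ j Y < l - t i`; `j < J` by `h4`), and for the even slow `i` with `k (i + 1) = k i` even `e₀ + l - t i < 0`, i.e. `l + e₀ < t i`; the number of `i` with
`k (i + 1) ≠ k i` is at most `N`.  Sum over `i`. -/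
theorem balance {m N J : ℕ} {k : ℕ → ℤ} {t : ℕ → ℝ} {l D Y e₀ X S KD : ℝ} {KW : ℕ → ℝ} (hk : Adm m N k) (hD : 0 ≤ D) (hY : D ≤ Y)
    (he : 0 ≤ e₀) (Fast LD : ℕ → Prop) (LW : ℕ → ℕ → Prop)
    (h1 : ∀ i < 2 * m, k (i + 1) = k i → t i ≤ l + e₀ → Fast i)
    (h2 : ∀ i < 2 * m, k (i + 1) = k i → t i ≤ l - D → LD i)
    (h3 : ∀ i < 2 * m, ∀ j < J, t i ≤ l - 2 ^ j * Y → LW j i)
    (h4 : ∀ i < 2 * m, l - 2 ^ J * Y ≤ t i)
    (hS : S ≤ (((range m).filter fun j => ¬ Fast (2 * j)).card : ℝ))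
    (hKD : (((range (2 * m)).filter fun i => LD i).card : ℝ) ≤ KD)
    (hKW : ∀ j < J, (((range (2 * m)).filter fun i => LW j i).card : ℝ) ≤ KW j)
    (hsum : ∑ i ∈ range (2 * m), t i ≤ 2 * m * l + X) :
    (S - N) * e₀ ≤ X + 2 * m * D + Y * (KD + N) + ∑ j ∈ range J, 2 ^ (j + 1) * Y * KW j := by
  obtain ⟨r, hr⟩ : ∃ r : ℕ → ℝ, r = fun i => D + Y * ((if LD i then 1 else 0) +
      (if k (i + 1) ≠ k i then 1 else 0)) + ∑ j ∈ range J, (if LW j i then 2 ^ (j + 1) * Y else 0) :=
    ⟨_, rfl⟩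
  have hY0 : 0 ≤ Y := hD.trans hY
  have hr0 : ∀ i, 0 ≤ r i := by
    intro i
    have hs : 0 ≤ ∑ j ∈ range J, (if LW j i then 2 ^ (j + 1) * Y else (0 : ℝ)) :=
      sum_nonneg fun j _ => by split_ifs <;> positivity
    have hi : 0 ≤ Y * ((if LD i then (1 : ℝ) else 0) + (if k (i + 1) ≠ k i then 1 else 0)) := by
      apply mul_nonneg hY0
      split_ifs <;> norm_num
    rw [hr]
    show 0 ≤ D + Y * ((if LD i then 1 else 0) +
      (if k (i + 1) ≠ k i then 1 else 0)) + ∑ j ∈ range J, (if LW j i then 2 ^ (j + 1) * Y else 0)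
    linarith
  have hb : ∀ i < 2 * m, l - t i ≤ r i := by
    intro i hi
    rw [hr]
    refine Cnt3_block (a := l - t i) hD hY (fun hc h5 => h2 i hi (by_contra fun h6 => hc h6) (by linarith))
      (fun j hj h5 => h3 i hi j hj (by linarith)) (by linarith [h4 i hi])
  have hb2 : ∀ i < 2 * m, l - t i + (if i % 2 = 0 ∧ ¬ Fast i ∧ k (i + 1) = k i then e₀ else 0) ≤ r i := by
    intro i hi
    by_cases hc : i % 2 = 0 ∧ ¬ Fast i ∧ k (i + 1) = k i
    · rw [if_pos hc]
      have h5 : l + e₀ < t i := by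
        by_contra h6
        exact hc.2.1 (h1 i hi hc.2.2 (not_lt.1 h6))
      linarith [hr0 i]
    · rw [if_neg hc]
      linarith [hb i hi]
  have hsum2 := sum_le_sum fun i (hi : i ∈ range (2 * m)) => hb2 i (mem_range.1 hi)
  rw [sum_add_distrib, sum_sub_distrib, sum_const, card_range, nsmul_eq_mul] at hsum2
  -- the slow blocks
  have hslow : (((range m).filter fun j => ¬ Fast (2 * j) ∧ k (2 * j + 1) = k (2 * j)).card : ℝ) * e₀ ≤
      ∑ i ∈ range (2 * m), (if i % 2 = 0 ∧ ¬ Fast i ∧ k (i + 1) = k i then e₀ else 0) := by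
    rw [← sum_filter, sum_const, nsmul_eq_mul]
    apply mul_le_mul_of_nonneg_right _ he
    norm_cast
    apply card_le_card_of_injOn (fun j => 2 * j)
    · intro j hj
      have hj' := mem_filter.1 hj
      have hj2 := mem_range.1 hj'.1
      exact mem_coe.2 (mem_filter.2 ⟨mem_range.2 (by show 2 * j < 2 * m; omega),
        by show 2 * j % 2 = 0; omega, hj'.2.1, hj'.2.2⟩)
    · intro a _ b _ hab
      have : 2 * a = 2 * b := hab
      omega
  have hcount : (((range m).filter fun j => ¬ Fast (2 * j)).card : ℝ) ≤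
      (((range m).filter fun j => ¬ Fast (2 * j) ∧ k (2 * j + 1) = k (2 * j)).card : ℝ) + N := by
    have h5 : ((range m).filter fun j => ¬ Fast (2 * j)).card ≤
        ((range m).filter fun j => ¬ Fast (2 * j) ∧ k (2 * j + 1) = k (2 * j)).card +
        ((range m).filter fun j => k (2 * j + 1) ≠ k (2 * j)).card := by
      refine (card_le_card ?_).trans (card_union_le _ _)
      intro j hj
      have hj' := mem_filter.1 hj
      by_cases h6 : k (2 * j + 1) = k (2 * j)
      · exact mem_union_left _ (mem_filter.2 ⟨hj'.1, hj'.2, h6⟩)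
      · exact mem_union_right _ (mem_filter.2 ⟨hj'.1, h6⟩)
    have h6 : ((range m).filter fun j => k (2 * j + 1) ≠ k (2 * j)).card ≤
        ((range (2 * m)).filter fun i => k (i + 1) ≠ k i).card := by
      apply card_le_card_of_injOn (fun j => 2 * j)
      · intro j hj
        have hj' := mem_filter.1 hj
        have hj2 := mem_range.1 hj'.1
        exact mem_coe.2 (mem_filter.2 ⟨mem_range.2 (by show 2 * j < 2 * m; omega), hj'.2⟩)
      · intro a _ b _ hab
        have : 2 * a = 2 * b := hab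
        omega
    have h7 := Cnt3_changes hk
    have h8 : (((range m).filter fun j => ¬ Fast (2 * j)).card : ℝ) ≤
        (((range m).filter fun j => ¬ Fast (2 * j) ∧ k (2 * j + 1) = k (2 * j)).card : ℝ) +
        (((range (2 * m)).filter fun i => k (i + 1) ≠ k i).card : ℝ) := by
      exact_mod_cast h5.trans (Nat.add_le_add_left h6 _)
    linarith
  -- the sum of the bounds
  have hrs : ∑ i ∈ range (2 * m), r i ≤ 2 * m * D + Y * (KD + N) + ∑ j ∈ range J, 2 ^ (j + 1) * Y * KW j := by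
    rw [hr]
    rw [sum_add_distrib, sum_add_distrib, sum_const, card_range, nsmul_eq_mul, ← mul_sum,
      sum_add_distrib, sum_comm]
    have h5 : ∑ i ∈ range (2 * m), (if LD i then (1 : ℝ) else 0) ≤ KD := by
      rw [← sum_filter, sum_const, nsmul_eq_mul, mul_one]
      exact hKD
    have h6 : ∑ i ∈ range (2 * m), (if k (i + 1) ≠ k i then (1 : ℝ) else 0) ≤ N := by
      rw [← sum_filter, sum_const, nsmul_eq_mul, mul_one]
      exact Cnt3_changes hk
    have h7 : ∑ j ∈ range J, ∑ i ∈ range (2 * m), (if LW j i then 2 ^ (j + 1) * Y else (0 : ℝ)) ≤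
        ∑ j ∈ range J, 2 ^ (j + 1) * Y * KW j := by
      refine sum_le_sum fun j hj => ?_
      rw [← sum_filter, sum_const, nsmul_eq_mul, mul_comm]
      exact mul_le_mul_of_nonneg_left (hKW j (mem_range.1 hj)) (by positivity)
    have h8 := mul_le_mul_of_nonneg_left (add_le_add h5 h6) hY0
    push_cast
    linarith
  have hS2 : (S - N) * e₀ ≤
      (((range m).filter fun j => ¬ Fast (2 * j) ∧ k (2 * j + 1) = k (2 * j)).card : ℝ) * e₀ :=
    mul_le_mul_of_nonneg_right (by linarith) he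
  push_cast at hsum2
  linarith

end Pool.Agent.W_1b8d5d_fe
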