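import Pool.Agent.W_1b8d5d_h85.Model
import Pool.Agent.W_1b8d5d_h85.Grid3

/-!
MP_1b8d5d_pr (FE, proofs row 596): a flat piece of the limit shape of planar first-passage percolation forces infinite order
contact at its end points and subpolynomial fluctuations over it.
Definitions. The basic notions are those of `W_1b8d5d_h85` (`V`, `nm`, `Edge`, `Env`, `T`, `res`, `sh`, `rf`, `edg`, `Mdl`,
`Par`, `Good`, `HasModels`, `Crd`, `IsMean`). In this folder `Good`, `HasModels` are ALWAYS the ones of `W_1b8d5d_h85` (with the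
exponential concentration `conc`).
The coordinates `c.p`, `c.q` are the coordinates with respect to the two end points `v₁, v₂` of the flat piece.
-/

set_option autoImplicit false

namespace Pool.Agent.W_1b8d5d_fe

open Finset Pool.Agent.W_1b8d5d_h85

/-- The level (the supporting functional of the flat piece). -/
noncomputable def lv (c : Crd) (z : V) : ℝ := c.p z + c.q z

/-- The coordinates in the other order. -/
def swp (c : Crd) : Crd where
  p := c.q
  q := c.p
  C := c.C
  one_le := c.one_le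
  p_le := c.q_le
  q_le := c.p_le
  nm_le := fun x => by
    have := c.nm_le x
    rwa [add_comm] at this
  rd := fun α β => c.rd β α
  rd_p := fun α β => c.rd_q β α
  rd_q := fun α β => c.rd_p β α

/-- The wide cone. -/
def Wc (c : Crd) : Set V := {z | 0 ≤ 2 * c.p z + c.q z ∧ 0 ≤ c.p z + 2 * c.q z}

/-- `(2 p + q) / 3` -/
noncomputable def wdp (c : Crd) : V →+ ℝ :=
  AddMonoidHom.mk' (fun z => (2 * c.p z + c.q z) / 3) (fun x y => by rw [map_add, map_add]; ring)

/-- `(p + 2 q) / 3` -/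
noncomputable def wdq (c : Crd) : V →+ ℝ :=
  AddMonoidHom.mk' (fun z => (c.p z + 2 * c.q z) / 3) (fun x y => by rw [map_add, map_add]; ring)

theorem wdp_apply (c : Crd) (z : V) : wdp c z = (2 * c.p z + c.q z) / 3 := rfl

theorem wdq_apply (c : Crd) (z : V) : wdq c z = (c.p z + 2 * c.q z) / 3 := rfl

/-- The coordinates whose quadrant is the wide cone; the sum of the two coordinates is the level. -/
noncomputable def wd (c : Crd) : Crd where
  p := wdp c
  q := wdq c
  C := 3 * c.C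
  one_le := by linarith [c.one_le]
  p_le := fun x => by
    have h1 := abs_le.1 (c.p_le x)
    have h2 := abs_le.1 (c.q_le x)
    have h3 : 0 ≤ c.C * nm x := (abs_nonneg _).trans (c.p_le x)
    rw [wdp_apply, abs_le]
    constructor <;> linarith [h1.1, h1.2, h2.1, h2.2]
  q_le := fun x => by
    have h1 := abs_le.1 (c.p_le x)
    have h2 := abs_le.1 (c.q_le x)
    have h3 : 0 ≤ c.C * nm x := (abs_nonneg _).trans (c.p_le x)
    rw [wdq_apply, abs_le]
    constructor <;> linarith [h1.1, h1.2, h2.1, h2.2]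
  nm_le := fun x => by
    have h0 := c.nm_le x
    have hC : 0 ≤ c.C := by linarith [c.one_le]
    rw [wdp_apply, wdq_apply]
    have key : |c.p x| + |c.q x| ≤ 3 * (|(2 * c.p x + c.q x) / 3| + |(c.p x + 2 * c.q x) / 3|) := by
      have a1 := le_abs_self ((2 * c.p x + c.q x) / 3)
      have a2 := neg_abs_le ((2 * c.p x + c.q x) / 3)
      have a3 := le_abs_self ((c.p x + 2 * c.q x) / 3)
      have a4 := neg_abs_le ((c.p x + 2 * c.q x) / 3)
      rcases abs_cases (c.p x) with ⟨e1, _⟩ | ⟨e1, _⟩ <;> rcases abs_cases (c.q x) with ⟨e2, _⟩ | ⟨e2, _⟩ <;>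
        rw [e1, e2] <;> linarith
    have := mul_le_mul_of_nonneg_left key hC
    linarith
  rd := fun α β => c.rd (2 * α - β) (2 * β - α)
  rd_p := fun α β => by
    have h1 := abs_le.1 (c.rd_p (2 * α - β) (2 * β - α))
    have h2 := abs_le.1 (c.rd_q (2 * α - β) (2 * β - α))
    have hC := c.one_le
    rw [wdp_apply, abs_le]
    constructor <;> linarith [h1.1, h1.2, h2.1, h2.2]
  rd_q := fun α β => by
    have h1 := abs_le.1 (c.rd_p (2 * α - β) (2 * β - α))
    have h2 := abs_le.1 (c.rd_q (2 * α - β) (2 * β - α))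
    have hC := c.one_le
    rw [wdq_apply, abs_le]
    constructor <;> linarith [h1.1, h1.2, h2.1, h2.2]

/-- The double cone between `x` and `y`. -/
def Dc (c : Crd) (x y : V) : Set V := {z | z - x ∈ Wc c ∧ y - z ∈ Wc c}

/-- The passage time with the weights of the double cone (`b` outside). -/
noncomputable def Tc (b : ℝ) (c : Crd) (τ : Env) (x y : V) : ℝ := T (res b (edg (Dc c x y)) τ) x y

/-- The mean positive excess. -/
noncomputable def Sc {a b : ℝ} (M : Mdl a b) (c : Crd) (y : V) : ℝ := M.E fun τ => max (Tc b c τ 0 y - lv c y) 0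

/-- The middle directions (`p, q ≥ lv / D`), with a slack. -/
def Md (c : Crd) (D : ℝ) : Set V :=
  {z | lv c z ≤ D * c.p z + (4 * D + 8) * c.C ∧ lv c z ≤ D * c.q z + (4 * D + 8) * c.C}

/-- The size of the fluctuations over the flat piece (directions in `Md c D`) up to the scale `n`. -/
noncomputable def Fm {a b : ℝ} (M : Mdl a b) (c : Crd) (D n : ℝ) : ℝ :=
  1 + sSup {t | ∃ y ∈ Md c D, 0 ≤ lv c y ∧ lv c y ≤ n ∧ t = Sc M c y}

/-- The flat piece (maximal segment): the level is a supporting functional, it is attained exactly over the cone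
`p, q ≥ 0`. -/
structure FlatS (g : V → ℝ) (c : Crd) : Prop where
  low : ∀ z, lv c z ≤ g z
  bar : ∀ ε : ℝ, 0 < ε → ∃ c₀ : ℝ, 0 < c₀ ∧ ∀ z, ε * nm z ≤ max (-c.p z) (-c.q z) → lv c z + c₀ * nm z ≤ g z
  upp : ∀ η : ℝ, 0 < η → ∃ N : ℝ, ∀ z, N ≤ nm z → 0 ≤ c.p z → 0 ≤ c.q z → g z ≤ lv c z + η * nm z

/-- Polynomial contact at the end point `v₁` (on arbitrarily small scales). -/
def PC (g : V → ℝ) (c : Crd) (K : ℕ) : Prop :=
  ∀ δ : ℝ, 0 < δ → ∃ t : ℝ, 0 < t ∧ t ≤ δ ∧ ∀ z, 0 ≤ lv c z → t * lv c z ≤ -c.q z →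
    lv c z + t ^ K * (-c.q z) ≤ g z

/-- All passage times of a box are close to their means. -/
def Ov (g : V → ℝ) (L s : ℝ) (τ : Env) : Prop :=
  ∀ x y, nm x ≤ L → nm y ≤ L → |T τ x y - g (y - x)| ≤ max s (nm (y - x)) ^ (3 / 5 : ℝ)

/-- The edges of a block: levels from `t` on, half width `w` around `q = β`, an end point of level `< α + ℓ`. -/
def Eb (c : Crd) (α β w ℓ t : ℝ) : Set Edge :=
  {e | e ∈ edg {z | |c.q z - β| ≤ w ∧ t ≤ lv c z} ∧ (lv c e.1 < α + ℓ ∨ lv c (e.1 + dir e.2) < α + ℓ)}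

/-- The entry and the exit of a block: `x` of level in `[α - r, α + 2 C]`, within `2 r` of `β`; `y` of level in
`[α + ℓ, α + ℓ + 2 C]`, within `w₁` of `β`. -/
def Win (c : Crd) (r w₁ ℓ α β : ℝ) (x y : V) : Prop :=
  (α - r ≤ lv c x ∧ lv c x ≤ α + 2 * c.C ∧ |c.q x - β| ≤ 2 * r) ∧
    α + ℓ ≤ lv c y ∧ lv c y ≤ α + ℓ + 2 * c.C ∧ |c.q y - β| ≤ w₁

/-- A crossing from `x` to `y` of excess at most `e` which uses only weights of the block of levels `≥ lv x`. -/
def Kc (b : ℝ) (c : Crd) (w ℓ α β e : ℝ) (x y : V) (τ : Env) : Prop :=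
  T (res b (Eb c α β w ℓ (lv c x)) τ) x y ≤ lv c (y - x) + e

/-- The block has a crossing of excess at most `e`. -/
def Cr (b : ℝ) (c : Crd) (r w w₁ ℓ α β e : ℝ) (τ : Env) : Prop :=
  ∃ x y, Win c r w₁ ℓ α β x y ∧ Kc b c w ℓ α β e x y τ

end Pool.Agent.W_1b8d5d_fe
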