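import Pool.Agent.W_1b8d5d_fe.Geo

/-!
MP_1b8d5d_pr (FE): the first passages of a geodesic through equidistant levels.
-/

set_option autoImplicit false

namespace Pool.Agent.W_1b8d5d_fe

open Finset Pool.Agent.W_1b8d5d_h85

/-- The first passages of a geodesic through the levels `k ℓ`.  PROOF. `w` a geodesic from `0` to `Z` (`exists_geo`), `z k` its first vertex of level `≥ k ℓ` (`first_passage`, the index is nondecreasing in `k`),
`z 0 = 0`; `geo_sub`, `geo_add` (telescoping), `geo_piece`, `geo_near`. -/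
theorem path_z {a b : ℝ} (ha : 0 < a) (hab : a ≤ b) {τ : Env} (hτ : Bd a b τ) (c : Crd) {ℓ : ℝ} (hℓ : 4 * c.C ≤ ℓ) {K : ℕ} {Z : V}
    (hZ : K * ℓ ≤ lv c Z) :
    ∃ z : ℕ → V, z 0 = 0 ∧
      (∀ k ≤ K, k * ℓ ≤ lv c (z k) ∧ lv c (z k) ≤ k * ℓ + 2 * c.C ∧ nm (z k) ≤ b / a * nm Z) ∧
      ∑ k ∈ range K, T τ (z k) (z (k + 1)) + T τ (z K) Z = T τ 0 Z ∧
      ∀ k < K, ∃ w : grid.Walk (z k) (z (k + 1)), IsGeo τ w ∧ ∀ j < w.length, lv c (w.getVert j) < (k + 1) * ℓ := by
  obtain ⟨w, hw⟩ := exists_geo hτ ha 0 Z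
  have hC := c.one_le
  have hℓ0 : 0 < ℓ := by linarith
  have hi : ∀ k : ℕ, ∃ i : ℕ, k ≤ K → i ≤ w.length ∧ k * ℓ ≤ lv c (w.getVert i) ∧
      lv c (w.getVert i) ≤ k * ℓ + 2 * c.C ∧ ∀ j < i, lv c (w.getVert j) < k * ℓ := by
    intro k
    rcases Nat.eq_zero_or_pos k with rfl | hk
    · refine ⟨0, fun _ => ⟨Nat.zero_le _, ?_, ?_, fun j hj => absurd hj (Nat.not_lt_zero j)⟩⟩
      · rw [w.getVert_zero, lv_zero]
        simp
      · rw [w.getVert_zero, lv_zero]
        simp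
        linarith
    · by_cases hkK : k ≤ K
      · have h1 : (k : ℝ) * ℓ ≤ K * ℓ :=
          mul_le_mul_of_nonneg_right (by exact_mod_cast hkK) hℓ0.le
        have h2 : (0 : ℝ) < k * ℓ := mul_pos (by exact_mod_cast hk) hℓ0
        obtain ⟨i, h3, h4, h5, h6⟩ := first_passage (lv c) (2 * c.C) (fun x y h => lv_adj h) (k * ℓ) w
          (by rw [lv_zero]; exact h2) (by linarith)
        exact ⟨i, fun _ => ⟨h3, h4, h5.le, h6⟩⟩
      · exact ⟨0, fun h => absurd h hkK⟩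
  choose i hi using hi
  have hmono : ∀ k < K, i k ≤ i (k + 1) := by
    intro k hk
    by_contra hlt
    push Not at hlt
    have h1 := (hi k hk.le).2.2.2 _ hlt
    have h2 := (hi (k + 1) hk).2.1
    push_cast at h2
    linarith
  have h0 : i 0 = 0 := by
    by_contra hne
    have h1 := (hi 0 (Nat.zero_le K)).2.2.2 0 (Nat.pos_of_ne_zero hne)
    rw [w.getVert_zero, lv_zero] at h1
    simp at h1
  have hz0 : w.getVert (i 0) = 0 := by rw [h0, w.getVert_zero]
  refine ⟨fun k => w.getVert (i k), hz0, ?_, ?_, ?_⟩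
  · intro k hk
    refine ⟨(hi k hk).2.1, (hi k hk).2.2.1, ?_⟩
    have h1 := geo_near hτ ha hw (i k)
    rwa [sub_zero, sub_zero] at h1
  · have h1 : ∑ k ∈ range K, T τ (w.getVert (i k)) (w.getVert (i (k + 1))) =
        T τ 0 (w.getVert (i K)) - T τ 0 (w.getVert (i 0)) := by
      rw [← Finset.sum_range_sub (fun k => T τ 0 (w.getVert (i k))) K]
      exact Finset.sum_congr rfl fun k hk => geo_sub hτ ha.le hw (hmono k (mem_range.1 hk))
    have h2 := geo_add hτ ha.le hw (i K)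
    have h3 := geo_sub hτ ha.le hw (le_refl (i 0))
    have h4 : T τ 0 (w.getVert (i 0)) = 0 := by
      rw [hz0] at h3 ⊢
      linarith
    show ∑ k ∈ range K, T τ (w.getVert (i k)) (w.getVert (i (k + 1))) + T τ (w.getVert (i K)) Z = _
    rw [h1, h4]
    linarith
  · intro k hk
    obtain ⟨w', h1, h2, h3, -⟩ := geo_piece hτ ha.le hw (hmono k hk) (hi (k + 1) hk).1
    refine ⟨w', h1, fun j hj => ?_⟩
    rw [h3 j (by omega)]
    have h4 := (hi (k + 1) hk).2.2.2 (i k + j) (by omega)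
    push_cast at h4
    exact h4

end Pool.Agent.W_1b8d5d_fe
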