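import Pool.Agent.W_1b8d5d_fe.Bar

/-!
MP_1b8d5d_pr (FE): the variation of a long geodesic ((6.1) of row 596).
-/

set_option autoImplicit false

namespace Pool.Agent.W_1b8d5d_fe

open Finset Pool.Agent.W_1b8d5d_h85

private theorem Det2_err {s n : ℝ} (hs : 1 ≤ s) (hn : 0 ≤ n) :
    max s n ^ (3 / 5 : ℝ) ≤ s ^ (3 / 5 : ℝ) + s ^ (3 / 5 : ℝ) / s * n := by
  have hs0 : 0 < s := lt_of_lt_of_le one_pos hs
  have hp : 0 ≤ s ^ (3 / 5 : ℝ) := Real.rpow_nonneg hs0.le _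
  rcases le_total n s with h | h
  · rw [max_eq_left h]
    have h1 : 0 ≤ s ^ (3 / 5 : ℝ) / s * n := mul_nonneg (div_nonneg hp hs0.le) hn
    linarith only [h1]
  · rw [max_eq_right h]
    have hn0 : 0 < n := lt_of_lt_of_le hs0 h
    have e1 : ∀ x : ℝ, 0 < x → x ^ (-(2 / 5) : ℝ) = x ^ (3 / 5 : ℝ) / x := by
      intro x hx
      have h2 := Real.rpow_sub_one hx.ne' (3 / 5 : ℝ)
      rw [← h2]
      norm_num
    have h3 : n ^ (-(2 / 5) : ℝ) ≤ s ^ (-(2 / 5) : ℝ) :=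
      Real.rpow_le_rpow_of_nonpos hs0 h (by norm_num)
    rw [e1 n hn0, e1 s hs0] at h3
    have h4 : n ^ (3 / 5 : ℝ) = n ^ (3 / 5 : ℝ) / n * n := by
      rw [div_mul_cancel₀ _ hn0.ne']
    have h5 := mul_le_mul_of_nonneg_right h3 hn
    rw [h4]
    linarith only [h5, hp]

private theorem Det2_core {Q : Par} {g : V → ℝ} {c : Crd} (hl : ∀ z, lv c z ≤ g z)
    {s L t θ : ℝ} {τ : Env} {N : ℕ} {zz : ℕ → V} {Z : V} (hs : 1 ≤ s) (hτ : Bd Q.a Q.b τ)
    (hO : Ov g L s τ) (ht : 0 < t) (hθ : 0 < θ) (hB : Bar g c t θ) (h0 : zz 0 = 0) (hN : zz N = Z)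
    (hT : ∑ k ∈ range N, T τ (zz k) (zz (k + 1)) = T τ 0 Z)
    (hlv : ∀ k < N, 0 ≤ lv c (zz (k + 1) - zz k)) (hnm : ∀ k ≤ N, nm (zz k) ≤ L) :
    ∑ k ∈ range N, nm (zz (k + 1) - zz k) ≤ T τ 0 Z / Q.a ∧
      ∑ k ∈ range N, max (-c.q (zz (k + 1) - zz k)) 0 ≤ t * lv c Z +
        (T τ 0 Z - lv c Z + (N * s ^ (3 / 5 : ℝ) + s ^ (3 / 5 : ℝ) / s * (T τ 0 Z / Q.a))) / θ := by
  have ha : 0 < Q.a := Q.ha
  have hs0 : 0 < s := lt_of_lt_of_le one_pos hs
  have h1 : ∑ k ∈ range N, nm (zz (k + 1) - zz k) ≤ T τ 0 Z / Q.a := by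
    rw [le_div_iff₀ ha, ← hT, Finset.sum_mul]
    refine Finset.sum_le_sum fun k _ => ?_
    have := T_lower hτ ha.le (zz k) (zz (k + 1))
    linarith only [this]
  refine ⟨h1, ?_⟩
  have hpt : ∀ k ∈ range N, max (-c.q (zz (k + 1) - zz k)) 0 ≤ t * lv c (zz (k + 1) - zz k) +
      (T τ (zz k) (zz (k + 1)) - lv c (zz (k + 1) - zz k) +
        (s ^ (3 / 5 : ℝ) + s ^ (3 / 5 : ℝ) / s * nm (zz (k + 1) - zz k))) / θ := by
    intro k hk
    rw [Finset.mem_range] at hk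
    have e1 := (abs_le.1 (hO (zz k) (zz (k + 1)) (hnm k hk.le) (hnm (k + 1) hk))).1
    have e2 := Det2_err hs (nm_nonneg (zz (k + 1) - zz k))
    have e3 := hl (zz (k + 1) - zz k)
    have e4 := hlv k hk
    have e5 : 0 ≤ t * lv c (zz (k + 1) - zz k) := mul_nonneg ht.le e4
    have e6 : g (zz (k + 1) - zz k) ≤ T τ (zz k) (zz (k + 1)) +
        (s ^ (3 / 5 : ℝ) + s ^ (3 / 5 : ℝ) / s * nm (zz (k + 1) - zz k)) := by
      linarith only [e1, e2]
    by_cases hb : t * lv c (zz (k + 1) - zz k) ≤ -c.q (zz (k + 1) - zz k)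
    · have e7 := hB _ e4 hb
      have e8 : -c.q (zz (k + 1) - zz k) ≤ (T τ (zz k) (zz (k + 1)) - lv c (zz (k + 1) - zz k) +
          (s ^ (3 / 5 : ℝ) + s ^ (3 / 5 : ℝ) / s * nm (zz (k + 1) - zz k))) / θ := by
        rw [le_div_iff₀ hθ]
        linarith only [e6, e7]
      rw [max_eq_left (e5.trans hb)]
      linarith only [e8, e5]
    · push Not at hb
      have e8 : 0 ≤ (T τ (zz k) (zz (k + 1)) - lv c (zz (k + 1) - zz k) +
          (s ^ (3 / 5 : ℝ) + s ^ (3 / 5 : ℝ) / s * nm (zz (k + 1) - zz k))) / θ :=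
        div_nonneg (by linarith only [e6, e3]) hθ.le
      refine max_le ?_ ?_
      · linarith only [e8, hb]
      · linarith only [e8, e5]
  have htel : ∑ k ∈ range N, lv c (zz (k + 1) - zz k) = lv c Z := by
    have e1 : ∀ k ∈ range N, lv c (zz (k + 1) - zz k) = lv c (zz (k + 1)) - lv c (zz k) :=
      fun k _ => lv_sub c _ _
    rw [Finset.sum_congr rfl e1, Finset.sum_range_sub (fun k => lv c (zz k)), h0, hN, lv_zero,
      sub_zero]
  refine (Finset.sum_le_sum hpt).trans ?_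
  rw [Finset.sum_add_distrib, ← Finset.mul_sum, htel, ← Finset.sum_div]
  have e2 : ∑ k ∈ range N, (T τ (zz k) (zz (k + 1)) - lv c (zz (k + 1) - zz k) +
      (s ^ (3 / 5 : ℝ) + s ^ (3 / 5 : ℝ) / s * nm (zz (k + 1) - zz k))) =
      T τ 0 Z - lv c Z + (N * s ^ (3 / 5 : ℝ) +
        s ^ (3 / 5 : ℝ) / s * ∑ k ∈ range N, nm (zz (k + 1) - zz k)) := by
    rw [Finset.sum_add_distrib, Finset.sum_sub_distrib, Finset.sum_add_distrib, hT, htel,
      Finset.sum_const, Finset.card_range, nsmul_eq_mul, ← Finset.mul_sum]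
  rw [e2]
  have e3 : s ^ (3 / 5 : ℝ) / s * ∑ k ∈ range N, nm (zz (k + 1) - zz k) ≤
      s ^ (3 / 5 : ℝ) / s * (T τ 0 Z / Q.a) :=
    mul_le_mul_of_nonneg_left h1 (div_nonneg (Real.rpow_nonneg hs0.le _) hs0.le)
  have e4 := div_le_div_of_nonneg_right (a := T τ 0 Z - lv c Z + (N * s ^ (3 / 5 : ℝ) +
      s ^ (3 / 5 : ℝ) / s * ∑ k ∈ range N, nm (zz (k + 1) - zz k)))
    (b := T τ 0 Z - lv c Z + (N * s ^ (3 / 5 : ℝ) + s ^ (3 / 5 : ℝ) / s * (T τ 0 Z / Q.a)))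
    (by linarith only [e3]) hθ.le
  linarith only [e4]

/-- the numbers -/
private theorem Det2_num {C a s ℓ t θ K P l x S A B : ℝ} (hC : 1 ≤ C) (ha : 0 < a) (hs : 1 ≤ s)
    (hℓ : ℓ ≤ s) (hK : 1 ≤ K) (ht : 0 < t) (hθ : 0 < θ) (hθ1 : θ ≤ 1) (hP : 1 ≤ P)
    (hl : l ≤ K * ℓ + 10 * C) (hx : x ≤ l + K) (h1 : S ≤ C * A) (hA : A ≤ x / a)
    (h2 : S ≤ 4 * C + 2 * B) (hB : B ≤ t * l + (x - l + ((K + 1) * P + P / s * (x / a))) / θ) :
    S ≤ K * (5 * t * s + (4 * C + 20 * C * (C * (12 * C / a)) + 2 * (3 + 12 * C / a)) * P / θ) := by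
  have hC0 : 0 < C := by linarith only [hC]
  have hs0 : 0 < s := by linarith only [hs]
  have hK0 : 0 < K := by linarith only [hK]
  have hP0 : 0 < P := by linarith only [hP]
  obtain ⟨D, hD⟩ : ∃ D : ℝ, D = 12 * C / a := ⟨_, rfl⟩
  have hD0 : 0 < D := by rw [hD]; positivity
  rw [← hD]
  have hKs : 1 ≤ K * s := one_le_mul_of_one_le_of_one_le hK hs
  have hKl : K * ℓ ≤ K * s := mul_le_mul_of_nonneg_left hℓ hK0.le
  have hxx : x / a ≤ D * (K * s) := by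
    have e1 : K ≤ K * s := le_mul_of_one_le_right hK0.le hs
    have e2 : K * s ≤ C * (K * s) := le_mul_of_one_le_left (by linarith only [hKs]) hC
    have e3 : C ≤ C * (K * s) := le_mul_of_one_le_right hC0.le hKs
    have e4 : D * (K * s) = 12 * (C * (K * s)) / a := by rw [hD]; ring
    rw [e4]
    refine div_le_div_of_nonneg_right ?_ ha.le
    linarith only [e1, e2, e3, hx, hl, hKl]
  have hKP : 1 ≤ K * P / θ := by
    rw [le_div_iff₀ hθ]
    have e1 : 1 ≤ K * P := one_le_mul_of_one_le_of_one_le hK hP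
    linarith only [e1, hθ1]
  have hE : K * (5 * t * s + (4 * C + 20 * C * (C * D) + 2 * (3 + D)) * P / θ) =
      5 * (t * (K * s)) + (4 * C + 20 * C * (C * D)) * (K * P / θ) + 2 * (3 + D) * (K * P / θ) := by
    ring
  rw [hE]
  have hts : 0 < t * (K * s) := by positivity
  have hW : 0 < 4 * C + 20 * C * (C * D) := by positivity
  have hW1 : 4 * C + 20 * C * (C * D) ≤ (4 * C + 20 * C * (C * D)) * (K * P / θ) :=
    le_mul_of_one_le_right hW.le hKP
  rcases le_total (C * D) t with hcase | hcase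
  · have e1 : C * A ≤ C * (D * (K * s)) := mul_le_mul_of_nonneg_left (hA.trans hxx) hC0.le
    have e2 : C * D * (K * s) ≤ t * (K * s) :=
      mul_le_mul_of_nonneg_right hcase (by linarith only [hKs])
    have e3 : 0 ≤ 2 * (3 + D) * (K * P / θ) := by positivity
    linarith only [h1, e1, e2, e3, hW, hW1, hts]
  · have e1 : t * l ≤ t * (K * s) + 10 * C * (C * D) := by
      have f1 : t * l ≤ t * (K * s + 10 * C) :=
        mul_le_mul_of_nonneg_left (by linarith only [hl, hKl]) ht.le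
      have f2 : t * (10 * C) ≤ C * D * (10 * C) := mul_le_mul_of_nonneg_right hcase (by positivity)
      linarith only [f1, f2]
    have e2 : P / s * (x / a) ≤ D * (K * P) := by
      have f1 : P / s * (x / a) ≤ P / s * (D * (K * s)) :=
        mul_le_mul_of_nonneg_left hxx (by positivity)
      have f2 : P / s * (D * (K * s)) = D * (K * P) := by
        field_simp
      rw [← f2]
      exact f1
    have e3 : (x - l + ((K + 1) * P + P / s * (x / a))) / θ ≤ (3 + D) * (K * P / θ) := by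
      have f1 : (3 + D) * (K * P / θ) = (3 + D) * (K * P) / θ := by ring
      rw [f1]
      refine div_le_div_of_nonneg_right ?_ hθ.le
      have f2 : K ≤ K * P := le_mul_of_one_le_right hK0.le hP
      have f3 : P ≤ K * P := le_mul_of_one_le_left hP0.le hK
      linarith only [e2, f2, f3, hx]
    linarith only [h2, hB, e1, e3, hW1, hts]

/-- The variation of a geodesic with a small excess.  PROOF. `w_k = z (k + 1) - z k` for `k < K`, `w_K = Z - z K`; all have `lv ≥ 0`; `T_k` their passage times, `∑ T_k = T 0 Z ≤ lv Z + K`.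
`T_k ≥ g (w_k) - err_k`, `err_k = (max s (nm w_k)) ^ (3/5) ≤ s ^ (3/5) + s ^ (-2/5) nm w_k`, `∑ nm w_k ≤ T 0 Z / a ≤ C K s`, so `∑ err_k ≤ C K s ^ (3/5)`.
Call `k` bad if `t lv w_k ≤ - q w_k`: by `Bar`, `θ ∑_bad (- q w_k) ≤ ∑ (T_k + err_k - lv w_k) ≤ K + C K s ^ (3/5)`; the other `k` have `∑ (- q w_k)⁺ ≤ t lv Z ≤ 2 t K s`.  Finally
`∑_{k<K} |q w_k| = q (z K) + 2 ∑_{k<K} (- q w_k)⁺ ≤ |q Z| + 2 ∑_{k≤K} (- q w_k)⁺`. -/
theorem variation {Q : Par} {g : V → ℝ} (hg : IsMean Q g) (c : Crd) (hl : ∀ z, lv c z ≤ g z) :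
    ∃ C₀ : ℝ, 1 ≤ C₀ ∧ ∀ (s ℓ L t θ : ℝ) (τ : Env) (K : ℕ) (Z : V) (z : ℕ → V), 1 ≤ s → 4 * c.C ≤ ℓ → ℓ ≤ s → 1 ≤ K →
      Bd Q.a Q.b τ → Ov g L s τ → 0 < t → 0 < θ → θ ≤ 1 → Bar g c t θ → nm Z ≤ L →
      K * ℓ + 2 * c.C ≤ lv c Z → lv c Z ≤ K * ℓ + 10 * c.C → |c.q Z| ≤ 4 * c.C → T τ 0 Z ≤ lv c Z + K → z 0 = 0 →
      (∀ k ≤ K, k * ℓ ≤ lv c (z k) ∧ lv c (z k) ≤ k * ℓ + 2 * c.C ∧ nm (z k) ≤ L) →
      ∑ k ∈ range K, T τ (z k) (z (k + 1)) + T τ (z K) Z = T τ 0 Z →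
      ∑ k ∈ range K, |c.q (z (k + 1) - z k)| ≤ K * (5 * t * s + C₀ * s ^ (3 / 5 : ℝ) / θ) := by
  have hC := c.one_le
  have ha : 0 < Q.a := Q.ha
  refine ⟨4 * c.C + 20 * c.C * (c.C * (12 * c.C / Q.a)) + 2 * (3 + 12 * c.C / Q.a), ?_, ?_⟩
  · have h1 : 0 ≤ 20 * c.C * (c.C * (12 * c.C / Q.a)) := by positivity
    have h2 : 0 ≤ 12 * c.C / Q.a := by positivity
    linarith only [h1, h2, hC]
  intro s ℓ L t θ τ K Z z hs hℓ hℓs hK hτ hO ht hθ hθ1 hB hZL hZ1 hZ2 hZq hTZ hz0 hz hT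
  have hKr : (1 : ℝ) ≤ K := by exact_mod_cast hK
  -- the extended sequence
  have hlt : ∀ k, k < K → (if k < K + 1 then z k else Z) = z k := fun k hk => if_pos (by omega)
  have hzz : ∀ k, k ≤ K → (fun k => if k < K + 1 then z k else Z) k = z k := fun k hk =>
    if_pos (by omega)
  have hzN : (fun k => if k < K + 1 then z k else Z) (K + 1) = Z := if_neg (by omega)
  obtain ⟨zz, hzzd⟩ : ∃ zz : ℕ → V, zz = fun k => if k < K + 1 then z k else Z := ⟨_, rfl⟩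
  rw [← hzzd] at hzz hzN
  have hT' : ∑ k ∈ range (K + 1), T τ (zz k) (zz (k + 1)) = T τ 0 Z := by
    rw [Finset.sum_range_succ, hzz K le_rfl, hzN, ← hT]
    congr 1
    refine Finset.sum_congr rfl fun k hk => ?_
    rw [Finset.mem_range] at hk
    rw [hzz k hk.le, hzz (k + 1) hk]
  have hlv : ∀ k < K + 1, 0 ≤ lv c (zz (k + 1) - zz k) := by
    intro k hk
    have h1 := hz k (by omega)
    rcases Nat.lt_or_ge k K with hkK | hkK
    · rw [hzz k hkK.le, hzz (k + 1) hkK, lv_sub]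
      have h2 := hz (k + 1) hkK
      have h3 : ((k + 1 : ℕ) : ℝ) * ℓ = k * ℓ + ℓ := by push_cast; ring
      rw [h3] at h2
      linarith only [h1.2.1, h2.1, hℓ, hC]
    · have h2 : k = K := by omega
      subst h2
      rw [hzz k le_rfl, hzN, lv_sub]
      linarith only [h1.2.1, hZ1]
  have hnm : ∀ k ≤ K + 1, nm (zz k) ≤ L := by
    intro k hk
    rcases Nat.lt_or_ge k (K + 1) with hkK | hkK
    · rw [hzz k (by omega)]
      exact (hz k (by omega)).2.2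
    · have h2 : k = K + 1 := by omega
      rw [h2, hzN]
      exact hZL
  obtain ⟨c1, c2⟩ := Det2_core hl hs hτ hO ht hθ hB ((hzz 0 (Nat.zero_le _)).trans hz0) hzN hT' hlv hnm
  have hsub : ∑ k ∈ range K, |c.q (z (k + 1) - z k)| ≤
      c.C * ∑ k ∈ range (K + 1), nm (zz (k + 1) - zz k) := by
    rw [Finset.sum_range_succ, mul_add, Finset.mul_sum]
    have h1 : ∑ k ∈ range K, |c.q (z (k + 1) - z k)| ≤
        ∑ k ∈ range K, c.C * nm (zz (k + 1) - zz k) := by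
      refine Finset.sum_le_sum fun k hk => ?_
      rw [Finset.mem_range] at hk
      rw [hzz k hk.le, hzz (k + 1) hk]
      exact c.q_le _
    have h2 : 0 ≤ c.C * nm (zz (K + 1) - zz K) :=
      mul_nonneg (by linarith only [hC]) (nm_nonneg _)
    linarith only [h1, h2]
  have hvar : ∑ k ∈ range K, |c.q (z (k + 1) - z k)| ≤
      4 * c.C + 2 * ∑ k ∈ range (K + 1), max (-c.q (zz (k + 1) - zz k)) 0 := by
    have h1 : ∀ k ∈ range K, |c.q (z (k + 1) - z k)| =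
        (c.q (z (k + 1)) - c.q (z k)) + 2 * max (-c.q (zz (k + 1) - zz k)) 0 := by
      intro k hk
      rw [Finset.mem_range] at hk
      rw [hzz k hk.le, hzz (k + 1) hk, ← map_sub]
      rcases le_total 0 (c.q (z (k + 1) - z k)) with h | h
      · rw [abs_of_nonneg h, max_eq_right (by linarith only [h])]
        ring
      · rw [abs_of_nonpos h, max_eq_left (by linarith only [h])]
        ring
    rw [Finset.sum_congr rfl h1, Finset.sum_add_distrib,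
      Finset.sum_range_sub (fun k => c.q (z k)), hz0, map_zero, ← Finset.mul_sum,
      Finset.sum_range_succ (fun k => max (-c.q (zz (k + 1) - zz k)) 0), hzz K le_rfl, hzN]
    have h2 := le_max_left (-c.q (Z - z K)) 0
    have h3 := le_max_right (-c.q (Z - z K)) 0
    rw [map_sub] at h2
    have h4 := (abs_le.1 hZq).2
    rw [map_sub] at h3
    rw [map_sub]
    linarith only [h2, h3, h4]
  have hP : 1 ≤ s ^ (3 / 5 : ℝ) := Real.one_le_rpow hs (by norm_num)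
  push_cast at c2
  exact Det2_num hC ha hs hℓs hKr ht hθ hθ1 hP hZ2 hTZ hsub c1 hvar c2

end Pool.Agent.W_1b8d5d_fe
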