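import Pool.Agent.W_1b8d5d_fe.Piece
import Pool.Agent.W_1b8d5d_fe.Det1
import Pool.Agent.W_1b8d5d_fe.Det2
import Pool.Agent.W_1b8d5d_fe.Cnt1

/-!
MP_1b8d5d_pr (FE): the blocks and the rows of a long geodesic (section 6 of row 596, the deterministic part).
-/

set_option autoImplicit false

namespace Pool.Agent.W_1b8d5d_fe

open Finset Pool.Agent.W_1b8d5d_h85
open Pool.Agent.W_1b8d5d_c1 (rows rows_zero rows_near rows_var)

/-- The blocks and the rows of the geodesic from `0` to `Z ≈ (2 m ℓ, 0)`.  PROOF. `path_z` (`K = 2 m`), `variation`; `k = rows (fun i => c.q (z i)) r` (`W_1b8d5d_c1/Comb.lean`: `rows_zero`, `rows_near`,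
`rows_var`), `T' i = T τ (z i) (z (i + 1))`; `piece_same`, `piece_any`, `piece_low` with `α = i ℓ`, `β = r k i` (for `k (i + 1) = k i` also `|q (z (i+1)) - β| ≤ r`). `A` and `s₀` the largest of the constants
(`Conf` and `Cr` are monotone in the right directions: `Conf g c r ℓ A s` for a larger `A` implies it for a smaller one; `Cr_mono`). -/
theorem det_rows {Q : Par} {g : V → ℝ} (hg : IsMean Q g) (c : Crd) (hl : ∀ z, lv c z ≤ g z) :
    ∃ A s₀ : ℝ, 1 ≤ A ∧ 1 ≤ s₀ ∧ ∀ (s r ℓ L t θ : ℝ) (τ : Env) (m N : ℕ) (Z : V), s₀ ≤ s → s ^ (9 / 10 : ℝ) ≤ r → r ≤ ℓ → ℓ ≤ s →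
      1 ≤ m → Bd Q.a Q.b τ → Ov g L s τ → Conf g c r ℓ A s → 0 < t → 0 < θ → θ ≤ 1 → Bar g c t θ → A * m * s ≤ L →
      2 * m * ℓ + 2 * c.C ≤ lv c Z → lv c Z ≤ 2 * m * ℓ + 10 * c.C → |c.q Z| ≤ 4 * c.C → T τ 0 Z ≤ lv c Z + m →
      A * m * (t * s + s ^ (3 / 5 : ℝ) / θ) ≤ r * N →
      ∃ (k : ℕ → ℤ) (T' : ℕ → ℝ), Adm m N k ∧ ∑ i ∈ range (2 * m), T' i ≤ 2 * m * ℓ + m + 10 * c.C ∧
        ∀ i < 2 * m,
          (k (i + 1) = k i → ∀ e : ℝ, e ≤ s ^ (4 / 5 : ℝ) / 4 → T' i ≤ ℓ - 2 * c.C + e →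
            Cr Q.b c r (10 * r) r ℓ (i * ℓ) (r * k i) e τ) ∧
          (∀ e : ℝ, e ≤ 0 → T' i ≤ ℓ - 2 * c.C + e → Cr Q.b c r (A * s) (A * s) ℓ (i * ℓ) (r * k i) e τ) ∧
          ℓ - s ^ (7 / 10 : ℝ) ≤ T' i := by
  obtain ⟨A1, s1, hA1, hs1, h1⟩ := piece_same hg c hl
  obtain ⟨A2, s2, hA2, hs2, h2⟩ := piece_any hg c hl
  obtain ⟨A3, s3, hA3, hs3, h3⟩ := piece_low hg c hl
  obtain ⟨C₀, hC₀, hvar⟩ := variation hg c hl
  have ha := Q.ha
  have hab := Q.hab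
  have hC := c.one_le
  obtain ⟨B1, hB1⟩ : ∃ B1 : ℝ, B1 = (3 + 10 * c.C) / Q.a := ⟨_, rfl⟩
  obtain ⟨B, hB⟩ : ∃ B : ℝ, B = Q.b / Q.a * B1 := ⟨_, rfl⟩
  have hb0 : 0 < Q.b := ha.trans hab
  have hB10 : 0 ≤ B1 := by rw [hB1]; positivity
  have hB0 : 0 ≤ B := by rw [hB]; positivity
  obtain ⟨A, hA⟩ : ∃ A : ℝ, A = A1 + A2 + A3 + B + B1 + 30 + 6 * C₀ := ⟨_, rfl⟩
  refine ⟨A, s1 + s2 + s3 + (4 * c.C) ^ 2, by linarith, by nlinarith, ?_⟩
  intro s r ℓ L t θ τ m N Z hs hr hrℓ hℓs hm hτ hov hconf ht hθ hθ1 hbar hAL hZ1 hZ2 hqZ hTZ hN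
  have hsq : 0 ≤ (4 * c.C) ^ 2 := sq_nonneg _
  have hs1' : 1 ≤ s := by linarith
  have hs0 : 0 < s := by linarith
  have hmr : (1 : ℝ) ≤ m := by exact_mod_cast hm
  have hms : 1 ≤ (m : ℝ) * s := by nlinarith
  have hsms : s ≤ (m : ℝ) * s := by nlinarith
  have h4C : 4 * c.C ≤ ℓ := by
    have e1 : 4 * c.C ≤ Real.sqrt s := by
      apply Real.le_sqrt_of_sq_le
      linarith
    have e2 : Real.sqrt s ≤ s ^ (9 / 10 : ℝ) := by
      rw [Real.sqrt_eq_rpow]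
      exact Real.rpow_le_rpow_of_exponent_le hs1' (by norm_num)
    linarith
  have hr0 : 0 < r := lt_of_lt_of_le (Real.rpow_pos_of_pos hs0 _) hr
  have hℓ0 : 0 ≤ ℓ := by linarith
  have hAm : ∀ x : ℝ, 0 ≤ x → B + x ≤ A → B * (m * s) + x * s ≤ L := by
    intro x hx hxA
    have e1 : x * s ≤ x * (m * s) := mul_le_mul_of_nonneg_left hsms hx
    have e2 : (B + x) * (m * s) ≤ A * (m * s) := mul_le_mul_of_nonneg_right hxA (by linarith)
    have e3 : A * (m * s) = A * m * s := by ring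
    linarith
  -- the norm of `Z`
  have hnZ : nm Z ≤ B1 * (m * s) := by
    have e1 := T_lower hτ ha.le 0 Z
    rw [sub_zero] at e1
    have e2 : 2 * (m : ℝ) * ℓ ≤ 2 * (m * s) := by
      have : (m : ℝ) * ℓ ≤ m * s := mul_le_mul_of_nonneg_left hℓs (by linarith)
      linarith
    have e3 : 10 * c.C ≤ 10 * c.C * (m * s) := by nlinarith
    have e4 : (m : ℝ) ≤ m * s := by nlinarith
    have e5 : Q.a * nm Z ≤ (3 + 10 * c.C) * (m * s) := by linarith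
    rw [hB1, div_mul_eq_mul_div, le_div_iff₀ ha]
    linarith
  have hnZL : nm Z ≤ L := by
    have e1 : B1 * (m * s) ≤ A * (m * s) :=
      mul_le_mul_of_nonneg_right (by linarith) (by linarith)
    have e3 : A * (m * s) = A * m * s := by ring
    linarith
  have hK : ((2 * m : ℕ) : ℝ) = 2 * m := by push_cast; ring
  obtain ⟨z, hz0, hz, hzsum, hzw⟩ := path_z (K := 2 * m) ha hab.le hτ c h4C
    (by rw [hK]; linarith)
  have hnz : ∀ k ≤ 2 * m, nm (z k) ≤ B * (m * s) := by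
    intro k hk
    refine (hz k hk).2.2.trans ?_
    rw [hB, mul_assoc]
    exact mul_le_mul_of_nonneg_left hnZ (by positivity)
  have hnzL : ∀ k ≤ 2 * m, nm (z k) ≤ L := by
    intro k hk
    have e1 := hAm 0 le_rfl (by linarith)
    have e2 := hnz k hk
    linarith
  have hv := hvar s ℓ L t θ τ (2 * m) Z z hs1' h4C hℓs (by omega) hτ hov ht hθ hθ1 hbar hnZL
    (by rw [hK]; exact hZ1) (by rw [hK]; exact hZ2) hqZ (by rw [hK]; linarith) hz0
    (fun k hk => ⟨(hz k hk).1, (hz k hk).2.1, hnzL k hk⟩) hzsum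
  -- the rows
  obtain ⟨q, hq⟩ : ∃ q : ℕ → ℝ, q = fun i => c.q (z i) := ⟨_, rfl⟩
  have hqi : ∀ i, q i = c.q (z i) := fun i => by rw [hq]
  have hq0 : q 0 = 0 := by rw [hqi, hz0, map_zero]
  have hk0 : rows q r 0 = 0 := rows_zero r hq0
  have hnear : ∀ i, |c.q (z i) - r * rows q r i| ≤ r := by
    intro i
    rw [← hqi]
    exact rows_near q hr0 i
  have hvar2 := rows_var q hr0 (2 * m)
  rw [hk0, hq0] at hvar2
  simp only [Int.cast_zero, mul_zero, sub_zero, abs_zero, add_zero] at hvar2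
  have hqd : ∑ i ∈ range (2 * m), |q (i + 1) - q i| =
      ∑ i ∈ range (2 * m), |c.q (z (i + 1) - z i)| := by
    refine sum_congr rfl fun i _ => ?_
    rw [map_sub, hqi, hqi]
  rw [hqd] at hvar2
  have hs35 : 0 ≤ s ^ (3 / 5 : ℝ) / θ := by positivity
  have hts : 0 ≤ t * s := by positivity
  have hvar3 : 3 * (((2 * m : ℕ) : ℝ) * (5 * t * s + C₀ * s ^ (3 / 5 : ℝ) / θ)) ≤ r * N := by
    refine le_trans ?_ hN
    rw [hK]
    have e1 : 3 * (2 * (m : ℝ) * (5 * t * s + C₀ * s ^ (3 / 5 : ℝ) / θ)) =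
        m * (30 * (t * s) + 6 * C₀ * (s ^ (3 / 5 : ℝ) / θ)) := by ring
    have e2 : A * m * (t * s + s ^ (3 / 5 : ℝ) / θ) =
        m * (A * (t * s) + A * (s ^ (3 / 5 : ℝ) / θ)) := by ring
    rw [e1, e2]
    refine mul_le_mul_of_nonneg_left (add_le_add (mul_le_mul_of_nonneg_right ?_ hts)
      (mul_le_mul_of_nonneg_right ?_ hs35)) (by linarith)
    · linarith
    · linarith
  have hvar4 : ∑ i ∈ range (2 * m), |((rows q r (i + 1) - rows q r i : ℤ) : ℝ)| ≤ N := by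
    have e1 : r * ∑ i ∈ range (2 * m), |((rows q r (i + 1) - rows q r i : ℤ) : ℝ)| ≤ r * N := by
      refine hvar2.trans (le_trans ?_ hvar3)
      linarith
    exact le_of_mul_le_mul_left e1 hr0
  have hadm : Adm m N (rows q r) := by
    refine ⟨hk0, ?_⟩
    have e1 : ((∑ i ∈ range (2 * m), |rows q r (i + 1) - rows q r i| : ℤ) : ℝ) ≤ ((N : ℤ) : ℝ) := by
      push_cast at hvar4 ⊢
      exact hvar4
    exact_mod_cast e1
  refine ⟨rows q r, fun i => T τ (z i) (z (i + 1)), hadm, ?_, ?_⟩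
  · have e1 := T_nonneg hτ ha.le (z (2 * m)) Z
    change ∑ i ∈ range (2 * m), T τ (z i) (z (i + 1)) ≤ _
    linarith
  intro i hi
  obtain ⟨w, hw, hwl⟩ := hzw i hi
  have hx := hz i hi.le
  have hy := hz (i + 1) (by omega)
  have hy1 : (i : ℝ) * ℓ + ℓ ≤ lv c (z (i + 1)) := by
    have e1 := hy.1
    push_cast at e1
    linarith
  have hy2 : lv c (z (i + 1)) ≤ (i : ℝ) * ℓ + ℓ + 2 * c.C := by
    have e1 := hy.2.1
    push_cast at e1
    linarith
  have hwl' : ∀ j < w.length, lv c (w.getVert j) < (i : ℝ) * ℓ + ℓ := by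
    intro j hj
    have e1 := hwl j hj
    linarith
  have hnzi := hnz i hi.le
  refine ⟨?_, ?_, ?_⟩
  · intro hki e he hT
    refine h1 s r ℓ L τ (by linarith) hr hrℓ hℓs hτ hov ?_ (i * ℓ) (r * rows q r i) e (z i)
      (z (i + 1)) w hw ?_ hx.1 hx.2.1 (hnear i) hy1 hy2 ?_ hwl' he hT
    · intro u v a1 a2 a3 a4 a5
      refine hconf u v a1 a2 a3 a4 (a5.trans ?_)
      exact mul_le_mul_of_nonneg_right (by linarith) hs0.le
    · have e1 := hAm A1 (by linarith) (by linarith)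
      linarith
    · have e1 := hnear (i + 1)
      rw [hki] at e1
      exact e1
  · intro e he hT
    have e1 := h2 s r ℓ L τ (by linarith) hr hrℓ hℓs hτ hov (i * ℓ) (r * rows q r i) e (z i)
      (z (i + 1)) w hw (by have e1 := hAm A2 (by linarith) (by linarith); linarith) hx.1 hx.2.1
      (hnear i) hy1 hy2 hwl' (he.trans (by positivity)) hT
    have e2 : A2 * s ≤ A * s := mul_le_mul_of_nonneg_right (by linarith) hs0.le
    exact Cr_mono ha.le hab.le hτ e2 e2 le_rfl e1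
  · exact h3 s ℓ L τ (by linarith) hℓ0 hℓs hτ hov (i * ℓ) (z i) (z (i + 1))
      (by have e1 := hAm A3 (by linarith) (by linarith); linarith) hx.2.1 hy1

end Pool.Agent.W_1b8d5d_fe
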