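import Pool.Agent.W_1b8d5d_fe.Blk1
import Pool.Agent.W_1b8d5d_fe.Cnt2

/-!
MP_1b8d5d_pr (FE): the choice of the environment.
-/

set_option autoImplicit false

namespace Pool.Agent.W_1b8d5d_fe

open Finset Pool.Agent.W_1b8d5d_h85

open Classical in
/-- The number of indices below `2 m` is the sum over the even and the odd ones. -/
private theorem Env1_split (P : ℕ → Prop) (m : ℕ) : ((range (2 * m)).filter fun i => P i).card =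
    ((range m).filter fun j => P (2 * j + 0)).card + ((range m).filter fun j => P (2 * j + 1)).card := by
  rw [card_filter, card_filter, card_filter]
  induction m with
  | zero => simp
  | succ m ih =>
    rw [show 2 * (m + 1) = 2 * m + 1 + 1 by ring, sum_range_succ, sum_range_succ, ih, sum_range_succ,
      sum_range_succ]
    simp only [add_zero]
    ring

open Classical in
/-- Few lucky blocks among the even or the odd ones. -/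
private theorem Env1_one {Q : Par} {g : V → ℝ} {R : ℝ} {M : Mdl Q.a Q.b} (hM : Good Q g R M) {c : Crd}
    {r ℓ w w₁ e ρ : ℝ} {m N K : ℕ} (hr : 0 ≤ r) (hrℓ : r + 4 * c.C < ℓ) (hw : 0 ≤ w)
    (hR : 20 * c.C * (m * ℓ + r * N + w) ≤ R) (hρ0 : 0 ≤ ρ)
    (h1 : ∀ α β, M.P (Cr Q.b c r w w₁ ℓ α β e) ≤ ρ) (hK : 1 ≤ K) (h2 : 40 * m * (N + K) * ρ ≤ (K : ℝ) ^ 2)
    (o : ℕ) (ho : o ≤ 1) :
    M.P (fun τ => ∃ k : ℕ → ℤ, Adm m N k ∧ K ≤ ((range m).filter fun j =>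
      Cr Q.b c r w w₁ ℓ ((2 * j + o : ℕ) * ℓ) (r * k (2 * j + o)) e τ).card) ≤ (1 / 2) ^ K := by
  have hC : 1 ≤ c.C := c.one_le
  have hℓ : 0 < ℓ := by linarith
  refine few_lucky hM o ho
    (fun (j : ℕ) (k : ℤ) => Eb c ((2 * j + o : ℕ) * ℓ) (r * k) w ℓ ((2 * j + o : ℕ) * ℓ - r))
    (fun (j : ℕ) (k : ℤ) => Cr Q.b c r w w₁ ℓ ((2 * j + o : ℕ) * ℓ) (r * k) e) ?_ ?_ ?_ hρ0 ?_ hK h2
  · intro j _ k
    exact Cr_dep Q.b c r w w₁ ℓ _ _ e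
  · intro i j hij _ k k'
    refine Eb_disj_lv ?_
    have h3 : ((2 * i + o : ℕ) : ℝ) + 2 ≤ ((2 * j + o : ℕ) : ℝ) := by
      exact_mod_cast (by omega : 2 * i + o + 2 ≤ 2 * j + o)
    have h4 := mul_le_mul_of_nonneg_right h3 hℓ.le
    linarith
  · intro j hj k hk d hd
    have hn := Eb_nm hd
    refine hn.trans (le_trans ?_ hR)
    have h3 : ((2 * j + o : ℕ) : ℝ) + 1 ≤ 2 * (m : ℝ) := by
      exact_mod_cast (by omega : 2 * j + o + 1 ≤ 2 * m)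
    have h3' : (0 : ℝ) ≤ ((2 * j + o : ℕ) : ℝ) := Nat.cast_nonneg _
    have h4 := mul_le_mul_of_nonneg_right h3 hℓ.le
    have h5 : 0 ≤ ((2 * j + o : ℕ) : ℝ) * ℓ := mul_nonneg h3' hℓ.le
    have h6 : |((2 * j + o : ℕ) : ℝ) * ℓ - r| ≤ ((2 * j + o : ℕ) : ℝ) * ℓ + r := by
      rw [abs_le]
      constructor <;> linarith
    have h7 : |((2 * j + o : ℕ) : ℝ) * ℓ + ℓ| = ((2 * j + o : ℕ) : ℝ) * ℓ + ℓ := abs_of_nonneg (by linarith)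
    have h8 : |r * (k : ℝ)| ≤ r * N := by
      rw [abs_mul, abs_of_nonneg hr]
      refine mul_le_mul_of_nonneg_left ?_ hr
      exact_mod_cast hk
    have hm : (1 : ℝ) ≤ m := by
      exact_mod_cast (by omega : 1 ≤ m)
    have h9 : ℓ ≤ m * ℓ := by nlinarith
    have h10 : 0 ≤ r * N := mul_nonneg hr (Nat.cast_nonneg _)
    rw [h7]
    calc 2 * c.C * (|((2 * j + o : ℕ) : ℝ) * ℓ - r| + (((2 * j + o : ℕ) : ℝ) * ℓ + ℓ) + 2 * c.C + |r * (k : ℝ)| + w)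
        ≤ 2 * c.C * (10 * (m * ℓ + r * N + w)) := by
          refine mul_le_mul_of_nonneg_left ?_ (by linarith)
          linarith
      _ = 20 * c.C * (m * ℓ + r * N + w) := by ring
  · intro j _ k
    exact h1 _ _

open Classical in
/-- Few lucky blocks. -/
private theorem Env1_two {Q : Par} {g : V → ℝ} {R : ℝ} {M : Mdl Q.a Q.b} (hM : Good Q g R M) {c : Crd}
    {r ℓ w w₁ e ρ : ℝ} {m N K : ℕ} (hr : 0 ≤ r) (hrℓ : r + 4 * c.C < ℓ) (hw : 0 ≤ w)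
    (hR : 20 * c.C * (m * ℓ + r * N + w) ≤ R) (hρ0 : 0 ≤ ρ)
    (h1 : ∀ α β, M.P (Cr Q.b c r w w₁ ℓ α β e) ≤ ρ) (hK : 1 ≤ K) (h2 : 40 * m * (N + K) * ρ ≤ (K : ℝ) ^ 2) :
    M.P (fun τ => ∃ k : ℕ → ℤ, Adm m N k ∧ 2 * K < ((range (2 * m)).filter fun i : ℕ =>
      Cr Q.b c r w w₁ ℓ (i * ℓ) (r * k i) e τ).card) ≤ 2 * (1 / 2) ^ K := by
  have h3 := Env1_one (w₁ := w₁) hM hr hrℓ hw hR hρ0 h1 hK h2 0 (by norm_num)
  have h4 := Env1_one (w₁ := w₁) hM hr hrℓ hw hR hρ0 h1 hK h2 1 (by norm_num)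
  refine le_trans (M.P_mono (q := fun τ => (∃ k : ℕ → ℤ, Adm m N k ∧ K ≤ ((range m).filter fun j =>
      Cr Q.b c r w w₁ ℓ ((2 * j + 0 : ℕ) * ℓ) (r * k (2 * j + 0)) e τ).card) ∨
      ∃ k : ℕ → ℤ, Adm m N k ∧ K ≤ ((range m).filter fun j =>
      Cr Q.b c r w w₁ ℓ ((2 * j + 1 : ℕ) * ℓ) (r * k (2 * j + 1)) e τ).card) ?_)
    ((M.P_or _ _).trans ((add_le_add h3 h4).trans_eq (by ring)))
  rintro τ - ⟨k, hk, hc⟩
  rw [Env1_split (fun i => Cr Q.b c r w w₁ ℓ (i * ℓ) (r * k i) e τ) m] at hc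
  by_cases h5 : K ≤ ((range m).filter fun j =>
      Cr Q.b c r w w₁ ℓ ((2 * j + 0 : ℕ) * ℓ) (r * k (2 * j + 0)) e τ).card
  · exact Or.inl ⟨k, hk, h5⟩
  · refine Or.inr ⟨k, hk, ?_⟩
    omega

open Classical in
/-- The choice of the environment.  PROOF. `few_lucky` for the events `p j k = Cr .. ((2 j + o) ℓ) (r k) ..`, `o = 0, 1`, `A j k = Eb c ((2 j + o) ℓ) (r k) .. ((2 j + o) ℓ - r)` (`Cr_dep`; disjoint by `Eb_disj_lv` as `r + 2 C < ℓ`; `Eb_nm`).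
The exceptional probabilities sum up to `1/8 + 1/8 + 2 / 32 + ∑_{j < J} 2 (1/2) ^ (J + 5) < 1`; `exists_of_P`.  The number of `i < 2 m` is the sum over `i = 2 j` and `i = 2 j + 1`. -/
theorem good_env {Q : Par} {g : V → ℝ} {R : ℝ} {M : Mdl Q.a Q.b} (hM : Good Q g R M) {c : Crd} {r ℓ A s L e₀ Dl Y S ρD : ℝ}
    {m N J KD : ℕ} {KW : ℕ → ℕ} {ρW : ℕ → ℝ} (hr : 0 ≤ r) (hrℓ : r + 4 * c.C < ℓ) (hA : 0 ≤ A * s)
    (hR : 20 * c.C * (m * ℓ + r * N + 10 * r + A * s) ≤ R)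
    (hOv : M.P (fun τ => ¬ Ov g L s τ) ≤ 1 / 8)
    (hS : M.P (fun τ => ∃ k : ℕ → ℤ, Adm m N k ∧ (((range m).filter fun j =>
      ¬ Cr Q.b c r (10 * r) r ℓ ((2 * j : ℕ) * ℓ) (r * k (2 * j)) e₀ τ).card : ℝ) ≤ S) ≤ 1 / 8)
    (hρD : 0 ≤ ρD) (hD1 : ∀ α β, M.P (Cr Q.b c r (10 * r) r ℓ α β (-Dl)) ≤ ρD)
    (hD2 : 40 * m * (N + KD) * ρD ≤ (KD : ℝ) ^ 2) (hD3 : 5 ≤ KD) (hρW : ∀ j, 0 ≤ ρW j)
    (hW1 : ∀ j < J, ∀ α β, M.P (Cr Q.b c r (A * s) (A * s) ℓ α β (-(2 ^ j * Y))) ≤ ρW j)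
    (hW2 : ∀ j < J, 40 * m * (N + KW j) * ρW j ≤ (KW j : ℝ) ^ 2) (hW3 : ∀ j < J, J + 5 ≤ KW j) :
    ∃ τ, Bd Q.a Q.b τ ∧ Ov g L s τ ∧ ∀ k : ℕ → ℤ, Adm m N k →
      S < (((range m).filter fun j => ¬ Cr Q.b c r (10 * r) r ℓ ((2 * j : ℕ) * ℓ) (r * k (2 * j)) e₀ τ).card : ℝ) ∧
      ((range (2 * m)).filter fun i : ℕ => Cr Q.b c r (10 * r) r ℓ (i * ℓ) (r * k i) (-Dl) τ).card ≤ 2 * KD ∧
      ∀ j < J, ((range (2 * m)).filter fun i : ℕ =>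
        Cr Q.b c r (A * s) (A * s) ℓ (i * ℓ) (r * k i) (-(2 ^ j * Y)) τ).card ≤ 2 * KW j := by
  have hC : 1 ≤ c.C := c.one_le
  have hℓ : 0 < ℓ := by linarith
  have hRD : 20 * c.C * (m * ℓ + r * N + 10 * r) ≤ R := by
    refine le_trans (mul_le_mul_of_nonneg_left ?_ (by linarith)) hR
    linarith
  have hRW : 20 * c.C * (m * ℓ + r * N + A * s) ≤ R := by
    refine le_trans (mul_le_mul_of_nonneg_left ?_ (by linarith)) hR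
    linarith
  have hD := Env1_two (w₁ := r) hM hr hrℓ (by linarith : 0 ≤ 10 * r) hRD hρD hD1 (by omega : 1 ≤ KD) hD2
  have hW : ∀ j ∈ range J, M.P (fun τ => ∃ k : ℕ → ℤ, Adm m N k ∧ 2 * KW j < ((range (2 * m)).filter fun i : ℕ =>
      Cr Q.b c r (A * s) (A * s) ℓ (i * ℓ) (r * k i) (-(2 ^ j * Y)) τ).card) ≤ 2 * (1 / 2) ^ (J + 5) := by
    intro j hj
    have hj' := mem_range.1 hj
    have h1 := hW3 j hj'
    refine (Env1_two (w₁ := A * s) hM hr hrℓ hA hRW (hρW j) (hW1 j hj') (by omega : 1 ≤ KW j)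
      (hW2 j hj')).trans ?_
    exact mul_le_mul_of_nonneg_left (pow_le_pow_of_le_one (by norm_num) (by norm_num) h1) (by norm_num)
  have hWs := (M.P_exists_le (range J) fun j τ => ∃ k : ℕ → ℤ, Adm m N k ∧
    2 * KW j < ((range (2 * m)).filter fun i : ℕ =>
      Cr Q.b c r (A * s) (A * s) ℓ (i * ℓ) (r * k i) (-(2 ^ j * Y)) τ).card).trans (sum_le_sum hW)
  rw [sum_const, card_range, nsmul_eq_mul] at hWs
  have hJ : (J : ℝ) * (2 * (1 / 2) ^ (J + 5)) ≤ 1 / 16 := by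
    have h1 : (J : ℝ) ≤ 2 ^ J := by
      exact_mod_cast (Nat.lt_two_pow_self (n := J)).le
    have h2 : (2 : ℝ) ^ J * (1 / 2) ^ J = 1 := by
      rw [← mul_pow]
      norm_num
    have h3 : (0 : ℝ) ≤ (1 / 2) ^ J := by positivity
    have h4 := mul_le_mul_of_nonneg_right h1 h3
    rw [pow_add]
    nlinarith
  have hKD : 2 * (1 / 2 : ℝ) ^ KD ≤ 1 / 16 := by
    have h1 : (1 / 2 : ℝ) ^ KD ≤ (1 / 2) ^ 5 := pow_le_pow_of_le_one (by norm_num) (by norm_num) hD3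
    linarith
  obtain ⟨B1, hB1⟩ : ∃ B1 : Env → Prop, B1 = fun τ => ¬ Ov g L s τ := ⟨_, rfl⟩
  obtain ⟨B2, hB2⟩ : ∃ B2 : Env → Prop, B2 = fun τ => ∃ k : ℕ → ℤ, Adm m N k ∧ (((range m).filter fun j =>
      ¬ Cr Q.b c r (10 * r) r ℓ ((2 * j : ℕ) * ℓ) (r * k (2 * j)) e₀ τ).card : ℝ) ≤ S := ⟨_, rfl⟩
  obtain ⟨B3, hB3⟩ : ∃ B3 : Env → Prop, B3 = fun τ => ∃ k : ℕ → ℤ, Adm m N k ∧
      2 * KD < ((range (2 * m)).filter fun i : ℕ =>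
      Cr Q.b c r (10 * r) r ℓ (i * ℓ) (r * k i) (-Dl) τ).card := ⟨_, rfl⟩
  obtain ⟨B4, hB4⟩ : ∃ B4 : Env → Prop, B4 = fun τ => ∃ j ∈ range J, ∃ k : ℕ → ℤ, Adm m N k ∧
      2 * KW j < ((range (2 * m)).filter fun i : ℕ =>
      Cr Q.b c r (A * s) (A * s) ℓ (i * ℓ) (r * k i) (-(2 ^ j * Y)) τ).card := ⟨_, rfl⟩
  rw [← hB1] at hOv
  rw [← hB2] at hS
  rw [← hB3] at hD
  rw [← hB4] at hWs
  have h12 := M.P_or B1 B2
  have h34 := M.P_or B3 B4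
  have h1234 := M.P_or (fun τ => B1 τ ∨ B2 τ) (fun τ => B3 τ ∨ B4 τ)
  have hnot := M.P_not (fun τ => (B1 τ ∨ B2 τ) ∨ (B3 τ ∨ B4 τ))
  have hpos : 0 < M.P (fun τ => ¬ ((B1 τ ∨ B2 τ) ∨ (B3 τ ∨ B4 τ))) := by
    rw [hnot]
    linarith
  obtain ⟨τ, hτ, hn⟩ := exists_of_P M hpos
  have hn1 : ¬ B1 τ := fun h => hn (Or.inl (Or.inl h))
  have hn2 : ¬ B2 τ := fun h => hn (Or.inl (Or.inr h))
  have hn3 : ¬ B3 τ := fun h => hn (Or.inr (Or.inl h))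
  have hn4 : ¬ B4 τ := fun h => hn (Or.inr (Or.inr h))
  rw [hB1] at hn1
  rw [hB2] at hn2
  rw [hB3] at hn3
  rw [hB4] at hn4
  refine ⟨τ, hτ, not_not.1 hn1, fun k hk => ⟨?_, ?_, ?_⟩⟩
  · exact not_le.1 fun h => hn2 ⟨k, hk, h⟩
  · exact not_lt.1 fun h => hn3 ⟨k, hk, h⟩
  · intro j hj
    exact not_lt.1 fun h => hn4 ⟨j, mem_range.2 hj, k, hk, h⟩

end Pool.Agent.W_1b8d5d_fe
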