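import Mathlib

/-!
MP_1b8d5d_pr (FE): good scales (a statement about monotone functions).
-/

set_option autoImplicit false

namespace Pool.Agent.W_1b8d5d_fe

/-- Good scales.  PROOF. Natural numbers `k ≥ 1` only; `F k = f k / k ^ γ`; a RECORD is an `s ≥ 1` with `F k ≤ F s` for `1 ≤ k ≤ s`.  Let
`s₁` be the smallest maximum point of `F` on `{1, ..., n₀}`: a record, `F s₁ ≥ F n₀ ≥ n₀ ^ γ`.  Let `s` be the LARGEST record in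
`[s₁, n₀ ^ 16]` with `f s ≥ (s / s₁) ^ (9/10) f s₁`.  As `f s ≤ C₀ s ^ (3/4)`, `f s₁ ≥ 1`: `s ^ (3/20) ≤ C₀ s₁ ^ (9/10)`, so `s ≤ C₀ ^ (20/3) s₁ ^ 6 ≤ n₀ ^ 7` for
`n₀` large.  `F s ≥ F s₁ ≥ n₀ ^ γ` (`9/10 ≥ γ`), so `s ^ γ n₀ ^ γ ≤ f s ≤ C₀ s ^ (3/4)`: `s` is large if `n₀` is.  The bound below `s`: for real
`ρ ∈ [1, s]`, `f ρ ≤ f ⌈ρ⌉ ≤ (⌈ρ⌉ / s) ^ γ f s ≤ (2 ρ / s) ^ γ f s`.  The bound above `s`: if `f k > 2 (k / s) ^ (9/10) f s` for a natural number `k ∈ (s, s²]`, let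
`s₂` be the smallest maximum point of `F` on `{1, ..., k}`; `F s₂ ≥ F k > 2 F s` so `s₂ > s`, `s₂` is a record, `s₂ ≤ s² ≤ n₀ ^ 14`, and
`f s₂ ≥ (s₂ / k) ^ γ f k ≥ (s₂ / k) ^ (9/10) f k > 2 (s₂ / s) ^ (9/10) f s ≥ (s₂ / s₁) ^ (9/10) f s₁`: contradiction to the choice of `s`.  For real `n ∈ [s, s²]` use
`k = ⌈n⌉ ≤ 2 n`. -/
theorem good_scale {γ C₀ : ℝ} (hγ : 0 < γ) (hγ1 : γ ≤ 1 / 4) (hC₀ : 1 ≤ C₀) (s₀ : ℝ) : ∃ n₁ : ℕ, ∀ n₀ : ℕ, n₁ ≤ n₀ →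
    ∀ f : ℝ → ℝ, Monotone f → (∀ n, 1 ≤ f n) → (∀ n : ℝ, 1 ≤ n → n ≤ (n₀ : ℝ) ^ 16 → f n ≤ C₀ * n ^ (3 / 4 : ℝ)) →
    (n₀ : ℝ) ^ (2 * γ) ≤ f n₀ →
    ∃ s : ℕ, s₀ ≤ s ∧ (s : ℝ) ≤ (n₀ : ℝ) ^ 8 ∧ (s : ℝ) ^ γ ≤ f s ∧
      (∀ ρ : ℝ, 1 ≤ ρ → ρ ≤ s → f ρ ≤ 2 * (ρ / s) ^ γ * f s) ∧
      ∀ n : ℝ, s ≤ n → n ≤ (s : ℝ) ^ 2 → f n ≤ 4 * (n / s) ^ (9 / 10 : ℝ) * f s := by
  classical
  obtain ⟨n₁, hn₁⟩ : ∃ n₁ : ℕ, ∀ n₀ : ℕ, n₁ ≤ n₀ → 1 ≤ n₀ ∧ C₀ ^ (20 / 3 : ℝ) ≤ (n₀ : ℝ) ∧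
      C₀ * s₀ ≤ (n₀ : ℝ) ^ γ := by
    have h1 : Filter.Tendsto (fun n : ℕ => ((n : ℝ)) ^ γ) Filter.atTop Filter.atTop :=
      (tendsto_rpow_atTop hγ).comp tendsto_natCast_atTop_atTop
    have h2 : Filter.Tendsto (fun n : ℕ => ((n : ℝ))) Filter.atTop Filter.atTop :=
      tendsto_natCast_atTop_atTop
    have h3 := (Filter.eventually_ge_atTop 1).and ((h2.eventually_ge_atTop
      (C₀ ^ (20 / 3 : ℝ))).and (h1.eventually_ge_atTop (C₀ * s₀)))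
    exact Filter.eventually_atTop.1 h3
  refine ⟨n₁, fun n₀ h0 f hmono hf1 hfC hf0 => ?_⟩
  obtain ⟨h1, h2, h3⟩ := hn₁ n₀ h0
  obtain ⟨F, hF⟩ : ∃ F : ℕ → ℝ, ∀ k, F k = f k / (k : ℝ) ^ γ := ⟨_, fun k => rfl⟩
  have hfp : ∀ x, 0 < f x := fun x => lt_of_lt_of_le one_pos (hf1 x)
  have hmax : ∀ n : ℕ, 1 ≤ n → ∃ m : ℕ, 1 ≤ m ∧ m ≤ n ∧ ∀ j : ℕ, 1 ≤ j → j ≤ n → F j ≤ F m := by
    intro n hn
    obtain ⟨m, hm, hm2⟩ := Finset.exists_max_image (Finset.Icc 1 n) F ⟨1, by simp [hn]⟩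
    rw [Finset.mem_Icc] at hm
    exact ⟨m, hm.1, hm.2, fun j hj1 hj2 => hm2 j (Finset.mem_Icc.2 ⟨hj1, hj2⟩)⟩
  have hn0 : (1 : ℝ) ≤ n₀ := by exact_mod_cast h1
  have hn0p : (0 : ℝ) < n₀ := lt_of_lt_of_le one_pos hn0
  obtain ⟨s₁, hs1, hs1n, hs1m⟩ := hmax n₀ h1
  have hs1r : (1 : ℝ) ≤ s₁ := by exact_mod_cast hs1
  have hs1p : (0 : ℝ) < s₁ := lt_of_lt_of_le one_pos hs1r
  -- a comparison of `F` and `f`
  have hFf : ∀ k : ℕ, 1 ≤ k → f k = F k * (k : ℝ) ^ γ := by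
    intro k hk
    have hk' : (0 : ℝ) < k := by exact_mod_cast hk
    rw [hF, div_mul_cancel₀ _ (Real.rpow_pos_of_pos hk' γ).ne']
  have hFp : ∀ k : ℕ, 1 ≤ k → 0 < F k := by
    intro k hk
    have hk' : (0 : ℝ) < k := by exact_mod_cast hk
    rw [hF]
    exact div_pos (hfp _) (Real.rpow_pos_of_pos hk' γ)
  have hFs1 : (n₀ : ℝ) ^ γ ≤ F s₁ := by
    refine le_trans ?_ (hs1m n₀ h1 le_rfl)
    rw [hF, le_div_iff₀ (Real.rpow_pos_of_pos hn0p γ), ← Real.rpow_add hn0p, ← two_mul]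
    exact hf0
  -- the set of candidates
  obtain ⟨R, hR⟩ : ∃ R : Finset ℕ, ∀ s, s ∈ R ↔ ((s₁ ≤ s ∧ s ≤ n₀ ^ 16) ∧
      (∀ j : ℕ, 1 ≤ j → j ≤ s → F j ≤ F s) ∧ ((s : ℝ) / s₁) ^ (9 / 10 : ℝ) * f s₁ ≤ f s) := by
    refine ⟨(Finset.Icc s₁ (n₀ ^ 16)).filter (fun s => (∀ j : ℕ, 1 ≤ j → j ≤ s → F j ≤ F s) ∧
      ((s : ℝ) / s₁) ^ (9 / 10 : ℝ) * f s₁ ≤ f s), fun s => ?_⟩
    rw [Finset.mem_filter, Finset.mem_Icc]
  have hpow : ∀ a b : ℕ, a ≤ b → n₀ ^ a ≤ n₀ ^ b := fun a b hab => Nat.pow_le_pow_right h1 hab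
  have hs1R : s₁ ∈ R := by
    rw [hR]
    refine ⟨⟨le_rfl, ?_⟩, fun j hj1 hj2 => hs1m j hj1 (hj2.trans hs1n), ?_⟩
    · have := hpow 1 16 (by norm_num)
      rw [pow_one] at this
      exact hs1n.trans this
    · rw [div_self hs1p.ne', Real.one_rpow, one_mul]
  obtain ⟨s, hsR, hsmax⟩ := Finset.exists_max_image R id ⟨s₁, hs1R⟩
  obtain ⟨⟨hs1s, hs16⟩, hrec, hgrow⟩ := (hR s).1 hsR
  have hs : 1 ≤ s := hs1.trans hs1s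
  have hsr : (1 : ℝ) ≤ s := by exact_mod_cast hs
  have hsp : (0 : ℝ) < s := lt_of_lt_of_le one_pos hsr
  have hs16' : (s : ℝ) ≤ (n₀ : ℝ) ^ 16 := by exact_mod_cast hs16
  have hsC : f s ≤ C₀ * (s : ℝ) ^ (3 / 4 : ℝ) := hfC s hsr hs16'
  have hs1s' : (s₁ : ℝ) ≤ s := by exact_mod_cast hs1s
  -- `s ≤ n₀ ^ 7`
  have hs7 : (s : ℝ) ≤ (n₀ : ℝ) ^ 7 := by
    have a1 : (s : ℝ) ^ (9 / 10 : ℝ) ≤ C₀ * (s : ℝ) ^ (3 / 4 : ℝ) * (s₁ : ℝ) ^ (9 / 10 : ℝ) := by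
      have b1 : ((s : ℝ) / s₁) ^ (9 / 10 : ℝ) ≤ C₀ * (s : ℝ) ^ (3 / 4 : ℝ) := by
        refine le_trans ?_ (hgrow.trans hsC)
        exact le_mul_of_one_le_right (Real.rpow_nonneg (div_nonneg hsp.le hs1p.le) _) (hf1 _)
      rw [Real.div_rpow hsp.le hs1p.le, div_le_iff₀ (Real.rpow_pos_of_pos hs1p _)] at b1
      exact b1
    have a2 : (s : ℝ) ^ (3 / 20 : ℝ) ≤ C₀ * (s₁ : ℝ) ^ (9 / 10 : ℝ) := by
      have b1 : (s : ℝ) ^ (9 / 10 : ℝ) = (s : ℝ) ^ (3 / 20 : ℝ) * (s : ℝ) ^ (3 / 4 : ℝ) := by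
        rw [← Real.rpow_add hsp]
        norm_num
      rw [b1] at a1
      have b2 : 0 < (s : ℝ) ^ (3 / 4 : ℝ) := Real.rpow_pos_of_pos hsp _
      have b3 : (s : ℝ) ^ (3 / 20 : ℝ) * (s : ℝ) ^ (3 / 4 : ℝ) ≤
          C₀ * (s₁ : ℝ) ^ (9 / 10 : ℝ) * (s : ℝ) ^ (3 / 4 : ℝ) := by
        refine a1.trans (le_of_eq ?_)
        ring
      exact le_of_mul_le_mul_right b3 b2
    have a3 : (s : ℝ) ≤ C₀ ^ (20 / 3 : ℝ) * (s₁ : ℝ) ^ (6 : ℝ) := by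
      have b1 := Real.rpow_le_rpow (Real.rpow_nonneg hsp.le _) a2
        (show (0 : ℝ) ≤ 20 / 3 by norm_num)
      rw [← Real.rpow_mul hsp.le, Real.mul_rpow (by linarith) (Real.rpow_nonneg hs1p.le _),
        ← Real.rpow_mul hs1p.le] at b1
      norm_num at b1
      norm_num
      exact b1
    calc (s : ℝ) ≤ C₀ ^ (20 / 3 : ℝ) * (s₁ : ℝ) ^ (6 : ℝ) := a3
      _ ≤ (n₀ : ℝ) * (n₀ : ℝ) ^ (6 : ℝ) := by
          refine mul_le_mul h2 (Real.rpow_le_rpow hs1p.le (by exact_mod_cast hs1n) (by norm_num))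
            (Real.rpow_nonneg hs1p.le _) hn0p.le
      _ = (n₀ : ℝ) ^ 7 := by
          rw [show (6 : ℝ) = ((6 : ℕ) : ℝ) by norm_num, Real.rpow_natCast]
          ring
  -- `F s ≥ n₀ ^ γ`
  have hFs : (n₀ : ℝ) ^ γ ≤ F s := by
    refine hFs1.trans ?_
    have b0 : (1 : ℝ) ≤ (s : ℝ) / s₁ := by rwa [le_div_iff₀ hs1p, one_mul]
    have b1 : ((s : ℝ) / s₁) ^ γ ≤ ((s : ℝ) / s₁) ^ (9 / 10 : ℝ) :=
      Real.rpow_le_rpow_of_exponent_le b0 (by linarith)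
    have b2 : ((s : ℝ) / s₁) ^ γ * f s₁ ≤ f s :=
      (mul_le_mul_of_nonneg_right b1 (hfp _).le).trans hgrow
    rw [hF s, le_div_iff₀ (Real.rpow_pos_of_pos hsp γ)]
    refine le_trans (le_of_eq ?_) b2
    rw [Real.div_rpow hsp.le hs1p.le, hF s₁]
    have b3 := (Real.rpow_pos_of_pos hs1p γ).ne'
    field_simp
  have hfs : (s : ℝ) ^ γ * (n₀ : ℝ) ^ γ ≤ f s := by
    rw [hFf s hs, mul_comm]
    exact mul_le_mul_of_nonneg_right hFs (Real.rpow_nonneg hsp.le _)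
  have hn0γ : (1 : ℝ) ≤ (n₀ : ℝ) ^ γ := Real.one_le_rpow hn0 hγ.le
  -- the bound above `s` for natural numbers
  have habove : ∀ k : ℕ, s < k → k ≤ s ^ 2 → f k ≤ 2 * ((k : ℝ) / s) ^ (9 / 10 : ℝ) * f s := by
    intro k hk1 hk2
    by_contra hcon
    rw [not_le] at hcon
    have hk : 1 ≤ k := hs.trans hk1.le
    have hkr : (1 : ℝ) ≤ k := by exact_mod_cast hk
    have hkp : (0 : ℝ) < k := lt_of_lt_of_le one_pos hkr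
    obtain ⟨s₂, hs2, hs2k, hs2m⟩ := hmax k hk
    have hs2p : (0 : ℝ) < s₂ := by exact_mod_cast hs2
    have hsk : (s : ℝ) ≤ k := by exact_mod_cast hk1.le
    have hFk : F s < F k := by
      have c0 : (1 : ℝ) ≤ (k : ℝ) / s := by rwa [le_div_iff₀ hsp, one_mul]
      have c1 : ((k : ℝ) / s) ^ γ ≤ ((k : ℝ) / s) ^ (9 / 10 : ℝ) :=
        Real.rpow_le_rpow_of_exponent_le c0 (by linarith)
      have c2 : ((k : ℝ) / s) ^ γ * f s < f k := by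
        refine lt_of_le_of_lt ?_ hcon
        have c3 : 0 ≤ ((k : ℝ) / s) ^ (9 / 10 : ℝ) * f s :=
          mul_nonneg (Real.rpow_nonneg (div_nonneg hkp.le hsp.le) _) (hfp _).le
        have c4 := mul_le_mul_of_nonneg_right c1 (hfp (s : ℝ)).le
        nlinarith
      rw [hF k, lt_div_iff₀ (Real.rpow_pos_of_pos hkp γ)]
      refine lt_of_le_of_lt (le_of_eq ?_) c2
      rw [Real.div_rpow hkp.le hsp.le, hF s]
      have b3 := (Real.rpow_pos_of_pos hsp γ).ne'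
      field_simp
    have hs2s : s < s₂ := by
      by_contra h
      rw [not_lt] at h
      exact absurd ((hFk.trans_le (hs2m k hk le_rfl)).trans_le (hrec s₂ hs2 h)) (lt_irrefl _)
    have hs2R : s₂ ∈ R := by
      rw [hR]
      refine ⟨⟨hs1s.trans hs2s.le, ?_⟩, fun j hj1 hj2 => hs2m j hj1 (hj2.trans hs2k), ?_⟩
      · have c1 : s ≤ n₀ ^ 7 := by exact_mod_cast hs7
        calc s₂ ≤ s ^ 2 := hs2k.trans hk2
          _ ≤ (n₀ ^ 7) ^ 2 := Nat.pow_le_pow_left c1 2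
          _ = n₀ ^ 14 := by rw [← pow_mul]
          _ ≤ n₀ ^ 16 := hpow 14 16 (by norm_num)
      · have hs2k' : (s₂ : ℝ) / k ≤ 1 := by
          rw [div_le_one hkp]
          exact_mod_cast hs2k
        have c1 : ((s₂ : ℝ) / k) ^ (9 / 10 : ℝ) ≤ ((s₂ : ℝ) / k) ^ γ :=
          Real.rpow_le_rpow_of_exponent_ge (div_pos hs2p hkp) hs2k' (by linarith)
        have c2 : ((s₂ : ℝ) / k) ^ γ * f k ≤ f s₂ := by
          rw [hFf s₂ hs2, Real.div_rpow hs2p.le hkp.le]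
          have c3 := hs2m k hk le_rfl
          rw [hF k] at c3
          have c4 : (s₂ : ℝ) ^ γ / (k : ℝ) ^ γ * f k = f k / (k : ℝ) ^ γ * (s₂ : ℝ) ^ γ := by ring
          rw [c4]
          exact mul_le_mul_of_nonneg_right c3 (Real.rpow_nonneg hs2p.le _)
        have c5 : ((s₂ : ℝ) / s₁) ^ (9 / 10 : ℝ) =
            ((s₂ : ℝ) / k) ^ (9 / 10 : ℝ) * (((k : ℝ) / s) ^ (9 / 10 : ℝ) *
              ((s : ℝ) / s₁) ^ (9 / 10 : ℝ)) := by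
          rw [← Real.mul_rpow (div_nonneg hkp.le hsp.le) (div_nonneg hsp.le hs1p.le),
            ← Real.mul_rpow (div_nonneg hs2p.le hkp.le)
              (mul_nonneg (div_nonneg hkp.le hsp.le) (div_nonneg hsp.le hs1p.le))]
          congr 1
          field_simp
        have c6 : 0 ≤ ((s₂ : ℝ) / k) ^ (9 / 10 : ℝ) :=
          Real.rpow_nonneg (div_nonneg hs2p.le hkp.le) _
        have c7 : 0 ≤ ((k : ℝ) / s) ^ (9 / 10 : ℝ) :=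
          Real.rpow_nonneg (div_nonneg hkp.le hsp.le) _
        rw [c5]
        calc ((s₂ : ℝ) / k) ^ (9 / 10 : ℝ) * (((k : ℝ) / s) ^ (9 / 10 : ℝ) *
              ((s : ℝ) / s₁) ^ (9 / 10 : ℝ)) * f s₁
            = ((s₂ : ℝ) / k) ^ (9 / 10 : ℝ) * (((k : ℝ) / s) ^ (9 / 10 : ℝ) *
              (((s : ℝ) / s₁) ^ (9 / 10 : ℝ) * f s₁)) := by ring
          _ ≤ ((s₂ : ℝ) / k) ^ (9 / 10 : ℝ) * (((k : ℝ) / s) ^ (9 / 10 : ℝ) * f s) :=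
              mul_le_mul_of_nonneg_left (mul_le_mul_of_nonneg_left hgrow c7) c6
          _ ≤ ((s₂ : ℝ) / k) ^ (9 / 10 : ℝ) * f k := by
              refine mul_le_mul_of_nonneg_left ?_ c6
              have c8 : 0 ≤ ((k : ℝ) / s) ^ (9 / 10 : ℝ) * f s := mul_nonneg c7 (hfp _).le
              nlinarith
          _ ≤ ((s₂ : ℝ) / k) ^ γ * f k := mul_le_mul_of_nonneg_right c1 (hfp _).le
          _ ≤ f s₂ := c2
    have := hsmax s₂ hs2R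
    simp only [id] at this
    omega
  refine ⟨s, ?_, ?_, ?_, ?_, ?_⟩
  · -- `s₀ ≤ s`
    have c1 : (s : ℝ) ^ γ * (n₀ : ℝ) ^ γ ≤ C₀ * (s : ℝ) ^ (3 / 4 : ℝ) := hfs.trans hsC
    have c2 : (n₀ : ℝ) ^ γ ≤ C₀ * s := by
      have d1 : (1 : ℝ) ≤ (s : ℝ) ^ γ := Real.one_le_rpow hsr hγ.le
      have d2 : (s : ℝ) ^ (3 / 4 : ℝ) ≤ (s : ℝ) := by
        conv_rhs => rw [← Real.rpow_one (s : ℝ)]
        exact Real.rpow_le_rpow_of_exponent_le hsr (by norm_num)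
      calc (n₀ : ℝ) ^ γ ≤ (s : ℝ) ^ γ * (n₀ : ℝ) ^ γ := le_mul_of_one_le_left (by linarith) d1
        _ ≤ C₀ * (s : ℝ) ^ (3 / 4 : ℝ) := c1
        _ ≤ C₀ * s := mul_le_mul_of_nonneg_left d2 (by linarith)
    have c3 : C₀ * s₀ ≤ C₀ * s := h3.trans c2
    exact le_of_mul_le_mul_left c3 (by linarith)
  · refine hs7.trans ?_
    exact pow_le_pow_right₀ hn0 (by norm_num)
  · refine le_trans ?_ hfs
    exact le_mul_of_one_le_right (Real.rpow_nonneg hsp.le _) hn0γ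
  · intro ρ hρ1 hρs
    have hρp : (0 : ℝ) < ρ := lt_of_lt_of_le one_pos hρ1
    have c1 : ⌈ρ⌉₊ ≤ s := Nat.ceil_le.2 hρs
    have c2 : 1 ≤ ⌈ρ⌉₊ := Nat.one_le_ceil_iff.2 hρp
    have c3 : (⌈ρ⌉₊ : ℝ) ≤ 2 * ρ := by
      have := Nat.ceil_lt_add_one hρp.le
      linarith
    have c4 : (0 : ℝ) < (⌈ρ⌉₊ : ℝ) := by exact_mod_cast c2
    have c5 : f ⌈ρ⌉₊ ≤ ((⌈ρ⌉₊ : ℝ) / s) ^ γ * f s := by
      have d1 := hrec _ c2 c1
      rw [hF, hF, div_le_iff₀ (Real.rpow_pos_of_pos c4 γ)] at d1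
      refine d1.trans (le_of_eq ?_)
      rw [Real.div_rpow c4.le hsp.le]
      ring
    have c6 : ((⌈ρ⌉₊ : ℝ) / s) ^ γ ≤ 2 * (ρ / s) ^ γ := by
      have d1 : ((⌈ρ⌉₊ : ℝ) / s) ^ γ ≤ (2 * (ρ / s)) ^ γ := by
        refine Real.rpow_le_rpow (div_nonneg c4.le hsp.le) ?_ hγ.le
        rw [← mul_div_assoc]
        exact div_le_div_of_nonneg_right c3 hsp.le
      refine d1.trans ?_
      rw [Real.mul_rpow (by norm_num) (div_nonneg hρp.le hsp.le)]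
      refine mul_le_mul_of_nonneg_right ?_ (Real.rpow_nonneg (div_nonneg hρp.le hsp.le) _)
      conv_rhs => rw [← Real.rpow_one (2 : ℝ)]
      exact Real.rpow_le_rpow_of_exponent_le (by norm_num) (by linarith)
    calc f ρ ≤ f ⌈ρ⌉₊ := hmono (Nat.le_ceil ρ)
      _ ≤ ((⌈ρ⌉₊ : ℝ) / s) ^ γ * f s := c5
      _ ≤ 2 * (ρ / s) ^ γ * f s := mul_le_mul_of_nonneg_right c6 (hfp _).le
  · intro n hsn hn2
    have hnp : (0 : ℝ) < n := lt_of_lt_of_le hsp hsn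
    have hn1 : (1 : ℝ) ≤ n := hsr.trans hsn
    have c1 : ⌈n⌉₊ ≤ s ^ 2 := Nat.ceil_le.2 (by exact_mod_cast hn2)
    have c3 : (⌈n⌉₊ : ℝ) ≤ 2 * n := by
      have := Nat.ceil_lt_add_one hnp.le
      linarith
    have c2 : s ≤ ⌈n⌉₊ := by
      have := hsn.trans (Nat.le_ceil n)
      exact_mod_cast this
    have c0 : f n ≤ f ⌈n⌉₊ := hmono (Nat.le_ceil n)
    have c7 : 0 ≤ (n / s) ^ (9 / 10 : ℝ) * f s :=
      mul_nonneg (Real.rpow_nonneg (div_nonneg hnp.le hsp.le) _) (hfp _).le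
    rcases Nat.lt_or_ge s ⌈n⌉₊ with h | h
    · have c4 := habove _ h c1
      have c5 : ((⌈n⌉₊ : ℝ) / s) ^ (9 / 10 : ℝ) ≤ 2 * (n / s) ^ (9 / 10 : ℝ) := by
        have d1 : ((⌈n⌉₊ : ℝ) / s) ^ (9 / 10 : ℝ) ≤ (2 * (n / s)) ^ (9 / 10 : ℝ) := by
          refine Real.rpow_le_rpow (div_nonneg (Nat.cast_nonneg _) hsp.le) ?_ (by norm_num)
          rw [← mul_div_assoc]
          exact div_le_div_of_nonneg_right c3 hsp.le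
        refine d1.trans ?_
        rw [Real.mul_rpow (by norm_num) (div_nonneg hnp.le hsp.le)]
        refine mul_le_mul_of_nonneg_right ?_ (Real.rpow_nonneg (div_nonneg hnp.le hsp.le) _)
        conv_rhs => rw [← Real.rpow_one (2 : ℝ)]
        exact Real.rpow_le_rpow_of_exponent_le (by norm_num) (by norm_num)
      calc f n ≤ f ⌈n⌉₊ := c0
        _ ≤ 2 * ((⌈n⌉₊ : ℝ) / s) ^ (9 / 10 : ℝ) * f s := c4
        _ ≤ 2 * (2 * (n / s) ^ (9 / 10 : ℝ)) * f s :=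
            mul_le_mul_of_nonneg_right (mul_le_mul_of_nonneg_left c5 (by norm_num)) (hfp _).le
        _ = 4 * (n / s) ^ (9 / 10 : ℝ) * f s := by ring
    · have c4 : ⌈n⌉₊ = s := le_antisymm h c2
      rw [c4] at c0
      have c5 : (1 : ℝ) ≤ (n / s) ^ (9 / 10 : ℝ) := by
        refine Real.one_le_rpow ?_ (by norm_num)
        rwa [le_div_iff₀ hsp, one_mul]
      have c6 : f s ≤ (n / s) ^ (9 / 10 : ℝ) * f s := le_mul_of_one_le_left (hfp _).le c5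
      calc f n ≤ f s := c0
        _ ≤ 4 * (n / s) ^ (9 / 10 : ℝ) * f s := by nlinarith

end Pool.Agent.W_1b8d5d_fe
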