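import Mathlib

/-!
MP_1b8d5d_pr (FE): the sum over the lucks (pure analysis).
-/

set_option autoImplicit false

namespace Pool.Agent.W_1b8d5d_fe

open Finset

/-- The sum over the lucks (pure analysis).  PROOF. `∑ 2 ^ (j+1) y₀ 80 C (2 ^ j y₀) ^ (-20/9) ≤ 280 C y₀ ^ (-11/9) ≤ θ / 2` for `y₀` large, `∑ 2 ^ (j+1) y₀ 9 √(κ C) (2 ^ j y₀) ^ (-10/9) ≤ 18 √(κ C) ∑ 2 ^ (-j/9) ≤ 260 √(κ C) ≤ θ / 2`,
`∑_{j<J} 2 ^ (j + 1) ≤ 2 * 2 ^ J`. -/
theorem luck_sum {C : ℝ} (hC : 1 ≤ C) {θ : ℝ} (hθ : 0 < θ) : ∃ y₁ : ℝ, 1 ≤ y₁ ∧ ∀ y₀ : ℝ, y₁ ≤ y₀ → ∃ κ₀ : ℝ, 0 < κ₀ ∧ κ₀ ≤ 1 ∧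
    ∀ (κ m F B : ℝ) (J : ℕ) (KW : ℕ → ℝ), 0 ≤ κ → κ ≤ κ₀ → 0 ≤ m → 0 ≤ F → 0 ≤ B →
      (∀ j < J, KW j ≤ 80 * m * (C * (1 / (2 ^ j * y₀)) ^ (20 / 9 : ℝ)) +
        9 * Real.sqrt (m * (κ * m) * (C * (1 / (2 ^ j * y₀)) ^ (20 / 9 : ℝ))) + B) →
      ∑ j ∈ range J, 2 ^ (j + 1) * (y₀ * F) * KW j ≤ θ * (m * F) + 2 * 2 ^ J * (y₀ * F) * B := by
  set q : ℝ := (1 / 2 : ℝ) ^ (1 / 9 : ℝ) with hq
  have hq0 : 0 < q := by positivity
  have hq1 : q < 1 := Real.rpow_lt_one (by norm_num) (by norm_num) (by norm_num)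
  have h1q : 0 < 1 - q := by linarith
  set S : ℝ := 1 / (1 - q) with hSdef
  have hS : 0 < S := by positivity
  have hC0 : 0 < C := by linarith
  refine ⟨max 1 (640 * C / θ), le_max_left _ _, fun y₀ hy => ?_⟩
  have hy1 : 1 ≤ y₀ := (le_max_left _ _).trans hy
  have hy2 : 640 * C / θ ≤ y₀ := (le_max_right _ _).trans hy
  have hy0 : 0 < y₀ := by linarith
  refine ⟨min 1 ((θ / (36 * S)) ^ 2 / C), lt_min one_pos (by positivity), min_le_left _ _, ?_⟩
  intro κ m F B J KW hκ0 hκ hm hF hB hK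
  have hs : Real.sqrt (κ * C) ≤ θ / (36 * S) := by
    refine Real.sqrt_le_iff.2 ⟨by positivity, ?_⟩
    have h1 := hκ.trans (min_le_right _ _)
    rwa [le_div_iff₀ hC0] at h1
  have hs0 : 0 ≤ Real.sqrt (κ * C) := Real.sqrt_nonneg _
  -- the terms
  have hterm : ∀ j ∈ range J, 2 ^ (j + 1) * (y₀ * F) * KW j ≤
      m * F * (160 * C / y₀ * (1 / 2) ^ j + 18 * Real.sqrt (κ * C) * q ^ j) +
        2 ^ (j + 1) * (y₀ * F) * B := by
    intro j hj
    have hj' := hK j (mem_range.1 hj)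
    set a : ℝ := 2 ^ j * y₀ with ha
    have h2j : (1 : ℝ) ≤ 2 ^ j := one_le_pow₀ (by norm_num)
    have ha1 : 1 ≤ a := by
      rw [ha]
      nlinarith
    have ha0 : 0 < a := by linarith
    have hb0 : 0 < 1 / a := by positivity
    have hb1 : 1 / a ≤ 1 := by
      rw [div_le_one ha0]
      exact ha1
    have e1 : (1 / a) ^ (20 / 9 : ℝ) ≤ (1 / a) ^ 2 := by
      rw [← Real.rpow_natCast (1 / a) 2]
      exact Real.rpow_le_rpow_of_exponent_ge hb0 hb1 (by norm_num)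
    have e2 : Real.sqrt (m * (κ * m) * (C * (1 / a) ^ (20 / 9 : ℝ))) =
        m * Real.sqrt (κ * C) * (1 / a) ^ (10 / 9 : ℝ) := by
      have h1 : m * (κ * m) * (C * (1 / a) ^ (20 / 9 : ℝ)) =
          (κ * C) * (m * (1 / a) ^ (10 / 9 : ℝ)) ^ 2 := by
        have h2 : ((1 / a) ^ (10 / 9 : ℝ)) ^ 2 = (1 / a) ^ (20 / 9 : ℝ) := by
          rw [← Real.rpow_natCast, ← Real.rpow_mul hb0.le]
          norm_num
        rw [mul_pow, h2]
        ring
      rw [h1, Real.sqrt_mul (by positivity), Real.sqrt_sq (by positivity)]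
      ring
    have e3 : a * (1 / a) ^ (10 / 9 : ℝ) ≤ q ^ j := by
      have h1 : a * (1 / a) ^ (10 / 9 : ℝ) = (1 / a) ^ (1 / 9 : ℝ) := by
        have h2 : (10 / 9 : ℝ) = 1 + 1 / 9 := by norm_num
        rw [h2, Real.rpow_add hb0, Real.rpow_one, ← mul_assoc, mul_one_div_cancel ha0.ne', one_mul]
      have h3 : q ^ j = ((1 / 2 : ℝ) ^ j) ^ (1 / 9 : ℝ) := by
        rw [hq, ← Real.rpow_natCast, ← Real.rpow_natCast, ← Real.rpow_mul (by norm_num),
          ← Real.rpow_mul (by norm_num), mul_comm]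
      rw [h1, h3]
      refine Real.rpow_le_rpow hb0.le ?_ (by norm_num)
      rw [one_div_pow]
      refine one_div_le_one_div_of_le (by positivity) ?_
      rw [ha]
      nlinarith
    have e4 : 2 ^ (j + 1) * (y₀ * F) = 2 * a * F := by
      rw [ha]
      ring
    have e5 : 160 * C / y₀ * (1 / 2) ^ j = 160 * C * (1 / a) := by
      rw [ha, one_div_pow]
      field_simp
    have e6 : 2 * a * F * KW j ≤ 2 * a * F * (80 * m * (C * (1 / a) ^ 2) +
        9 * (m * Real.sqrt (κ * C) * (1 / a) ^ (10 / 9 : ℝ)) + B) := by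
      refine mul_le_mul_of_nonneg_left ?_ (by positivity)
      rw [e2] at hj'
      refine hj'.trans ?_
      have h1 : 80 * m * (C * (1 / a) ^ (20 / 9 : ℝ)) ≤ 80 * m * (C * (1 / a) ^ 2) :=
        mul_le_mul_of_nonneg_left (mul_le_mul_of_nonneg_left e1 hC0.le) (by positivity)
      linarith
    have e7 : 2 * a * F * (80 * m * (C * (1 / a) ^ 2)) = m * F * (160 * C * (1 / a)) := by
      field_simp
      ring
    have e8 : 2 * a * F * (9 * (m * Real.sqrt (κ * C) * (1 / a) ^ (10 / 9 : ℝ))) ≤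
        m * F * (18 * Real.sqrt (κ * C) * q ^ j) := by
      have h1 : 2 * a * F * (9 * (m * Real.sqrt (κ * C) * (1 / a) ^ (10 / 9 : ℝ))) =
          m * F * (18 * Real.sqrt (κ * C)) * (a * (1 / a) ^ (10 / 9 : ℝ)) := by
        ring
      have h2 : m * F * (18 * Real.sqrt (κ * C) * q ^ j) =
          m * F * (18 * Real.sqrt (κ * C)) * q ^ j := by
        ring
      rw [h1, h2]
      exact mul_le_mul_of_nonneg_left e3 (by positivity)
    rw [e4, e5]
    calc 2 * a * F * KW j ≤ _ := e6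
      _ = 2 * a * F * (80 * m * (C * (1 / a) ^ 2)) +
          2 * a * F * (9 * (m * Real.sqrt (κ * C) * (1 / a) ^ (10 / 9 : ℝ))) + 2 * a * F * B := by
        ring
      _ ≤ m * F * (160 * C * (1 / a)) + m * F * (18 * Real.sqrt (κ * C) * q ^ j) +
          2 * a * F * B := by
        rw [e7]
        linarith
      _ = _ := by ring
  -- the sums
  have s1 : ∑ j ∈ range J, (1 / 2 : ℝ) ^ j ≤ 2 := by
    rw [geom_sum_eq (by norm_num)]
    have h1 : (0 : ℝ) < (1 / 2) ^ J := by positivity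
    rw [div_le_iff_of_neg (by norm_num)]
    linarith
  have s2 : ∑ j ∈ range J, q ^ j ≤ S := by
    rw [geom_sum_eq hq1.ne, hSdef]
    have h1 : 0 < q ^ J := by positivity
    have h2 : (q ^ J - 1) / (q - 1) = (1 - q ^ J) / (1 - q) := by
      rw [← neg_div_neg_eq, neg_sub, neg_sub]
    rw [h2]
    exact div_le_div_of_nonneg_right (by linarith) h1q.le
  have s3 : ∑ j ∈ range J, (2 : ℝ) ^ (j + 1) ≤ 2 * 2 ^ J := by
    have h1 : ∑ j ∈ range J, (2 : ℝ) ^ (j + 1) = 2 * ∑ j ∈ range J, (2 : ℝ) ^ j := by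
      rw [mul_sum]
      exact sum_congr rfl fun j _ => by ring
    rw [h1, geom_sum_eq (by norm_num)]
    have h2 : (0 : ℝ) < 2 ^ J := by positivity
    norm_num
  have hmF : 0 ≤ m * F := by positivity
  calc ∑ j ∈ range J, 2 ^ (j + 1) * (y₀ * F) * KW j ≤
        ∑ j ∈ range J, (m * F * (160 * C / y₀ * (1 / 2) ^ j + 18 * Real.sqrt (κ * C) * q ^ j) +
        2 ^ (j + 1) * (y₀ * F) * B) := sum_le_sum hterm
    _ = m * F * (160 * C / y₀ * ∑ j ∈ range J, (1 / 2 : ℝ) ^ j +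
        18 * Real.sqrt (κ * C) * ∑ j ∈ range J, q ^ j) +
        (∑ j ∈ range J, (2 : ℝ) ^ (j + 1)) * (y₀ * F * B) := by
      rw [sum_add_distrib, ← mul_sum, sum_add_distrib, ← mul_sum, ← mul_sum, sum_mul]
      congr 1
      exact sum_congr rfl fun j _ => by ring
    _ ≤ m * F * (θ / 2 + θ / 2) + 2 * 2 ^ J * (y₀ * F * B) := by
      refine add_le_add (mul_le_mul_of_nonneg_left (add_le_add ?_ ?_) hmF)
        (mul_le_mul_of_nonneg_right s3 (by positivity))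
      · have h1 : 160 * C / y₀ * ∑ j ∈ range J, (1 / 2 : ℝ) ^ j ≤ 160 * C / y₀ * 2 :=
          mul_le_mul_of_nonneg_left s1 (by positivity)
        refine h1.trans ?_
        rw [div_le_iff₀ hθ] at hy2
        rw [div_mul_eq_mul_div, div_le_iff₀ hy0]
        nlinarith
      · calc 18 * Real.sqrt (κ * C) * ∑ j ∈ range J, q ^ j ≤ 18 * (θ / (36 * S)) * S := by
              refine mul_le_mul (mul_le_mul_of_nonneg_left hs (by norm_num)) s2
                (sum_nonneg fun j _ => by positivity) (by positivity)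
          _ = θ / 2 := by
              field_simp
              ring
    _ = θ * (m * F) + 2 * 2 ^ J * (y₀ * F) * B := by ring

end Pool.Agent.W_1b8d5d_fe
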