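import Pool.Agent.W_1b8d5d_fe.LuckF

/-!
MP_1b8d5d_pr (FE): big lucks ((5.1) of row 596).
-/

set_option autoImplicit false

namespace Pool.Agent.W_1b8d5d_fe

open Finset Pool.Agent.W_1b8d5d_h85

private theorem LuckB_gap {a b : ℕ} (h : a ≠ b) (A : ℝ) {P : ℝ} (hP : 0 ≤ P) :
    P ≤ |A + (a : ℝ) * P - (A + (b : ℝ) * P)| := by
  have e : A + (a : ℝ) * P - (A + (b : ℝ) * P) = ((a : ℝ) - b) * P := by ring
  rw [e, abs_mul, abs_of_nonneg hP]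
  have h1 : (1 : ℝ) ≤ |(a : ℝ) - b| := by
    have h2 : (1 : ℤ) ≤ |(a : ℤ) - b| := Int.one_le_abs (sub_ne_zero.2 (by exact_mod_cast h))
    exact_mod_cast h2
  nlinarith

/-- The grid of the positions. -/
private theorem LuckB_place {J I K : ℕ} (hJ : J ≤ I * K) {P1 P2 : ℝ} (A1 A2 : ℝ) (h1 : 0 ≤ P1) (h2 : 0 ≤ P2) :
    ∃ t1 t2 : Fin J → ℝ, (∀ j, A1 ≤ t1 j ∧ t1 j ≤ A1 + I * P1) ∧ (∀ j, A2 ≤ t2 j ∧ t2 j ≤ A2 + K * P2) ∧
      ∀ i j, i ≠ j → (t1 i = t1 j ∧ P2 ≤ |t2 i - t2 j|) ∨ P1 ≤ |t1 i - t1 j| := by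
  have hK : 0 < J → 0 < K := by
    intro h
    rcases Nat.eq_zero_or_pos K with h0 | h0
    · rw [h0, Nat.mul_zero] at hJ
      omega
    · exact h0
  refine ⟨fun j => A1 + ((j.1 / K : ℕ) : ℝ) * P1, fun j => A2 + ((j.1 % K : ℕ) : ℝ) * P2, ?_, ?_, ?_⟩
  · intro j
    have hK' : 0 < K := hK (lt_of_le_of_lt (Nat.zero_le _) j.2)
    have hj : j.1 / K < I := by
      rw [Nat.div_lt_iff_lt_mul hK']
      exact lt_of_lt_of_le j.2 hJ
    have h3 : ((j.1 / K : ℕ) : ℝ) ≤ I := by exact_mod_cast hj.le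
    have h4 : (0 : ℝ) ≤ ((j.1 / K : ℕ) : ℝ) := Nat.cast_nonneg _
    have h5 := mul_nonneg h4 h1
    have h6 := mul_le_mul_of_nonneg_right h3 h1
    constructor
    · show A1 ≤ A1 + ((j.1 / K : ℕ) : ℝ) * P1
      linarith
    · show A1 + ((j.1 / K : ℕ) : ℝ) * P1 ≤ A1 + I * P1
      linarith
  · intro j
    have hK' : 0 < K := hK (lt_of_le_of_lt (Nat.zero_le _) j.2)
    have hj : j.1 % K < K := Nat.mod_lt _ hK'
    have h3 : ((j.1 % K : ℕ) : ℝ) ≤ K := by exact_mod_cast hj.le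
    have h4 : (0 : ℝ) ≤ ((j.1 % K : ℕ) : ℝ) := Nat.cast_nonneg _
    have h5 := mul_nonneg h4 h2
    have h6 := mul_le_mul_of_nonneg_right h3 h2
    constructor
    · show A2 ≤ A2 + ((j.1 % K : ℕ) : ℝ) * P2
      linarith
    · show A2 + ((j.1 % K : ℕ) : ℝ) * P2 ≤ A2 + K * P2
      linarith
  · intro i j hij
    by_cases h : i.1 / K = j.1 / K
    · left
      refine ⟨?_, ?_⟩
      · show A1 + ((i.1 / K : ℕ) : ℝ) * P1 = A1 + ((j.1 / K : ℕ) : ℝ) * P1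
        rw [h]
      · have h3 : i.1 % K ≠ j.1 % K := by
          intro h4
          apply hij
          apply Fin.ext
          rw [← Nat.div_add_mod i.1 K, ← Nat.div_add_mod j.1 K, h, h4]
        exact LuckB_gap h3 A2 h2
    · right
      exact LuckB_gap h A1 h1

/-- The number of the positions. -/
private theorem LuckB_count {C₀ C N w ℓ r ρ : ℝ} (hC₀ : 1 ≤ C₀) (hC : 200000 * C₀ ^ 2 ≤ C) (hN : C ≤ N) (hr : 0 ≤ r)
    (hw : 1 ≤ w) (hrℓ : r ≤ ℓ) (hℓ : 1 ≤ ℓ) (hwℓ : C * (w + ℓ) ≤ N) (hρ : 0 < ρ) (hρ1 : ρ ≤ 1)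
    (hρN : C * (w * ℓ) ≤ ρ * N ^ 2) :
    ∃ J I K : ℕ, J ≤ I * K ∧ 1 ≤ J * ρ ∧ J * ρ ≤ 2 ∧ (I : ℝ) * (ℓ + r + 20 * C₀) ≤ 0.18 * N ∧
      (K : ℝ) * (2 * w + 20 * C₀) ≤ 0.13 * N := by
  have hC₀2 : C₀ ≤ C₀ ^ 2 := by nlinarith
  have hC1 : 200000 * C₀ ≤ C := by linarith
  have hCN : 200000 * C₀ ≤ N := by linarith
  have hwl2 : 200000 * (w + ℓ) ≤ N := by
    have h1 : 200000 * (w + ℓ) ≤ C * (w + ℓ) := mul_le_mul_of_nonneg_right (by linarith) (by linarith)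
    linarith
  have hN0 : 0 < N := by linarith
  have hP1 : 0 < ℓ + r + 20 * C₀ := by linarith
  have hP2 : 0 < 2 * w + 20 * C₀ := by linarith
  set P1 := ℓ + r + 20 * C₀ with hP1d
  set P2 := 2 * w + 20 * C₀ with hP2d
  have hI1 : (⌊0.18 * N / P1⌋₊ : ℝ) ≤ 0.18 * N / P1 := Nat.floor_le (by positivity)
  have hI2 : 0.18 * N / P1 - 1 < (⌊0.18 * N / P1⌋₊ : ℝ) := Nat.sub_one_lt_floor _
  have hK1 : (⌊0.13 * N / P2⌋₊ : ℝ) ≤ 0.13 * N / P2 := Nat.floor_le (by positivity)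
  have hK2 : 0.13 * N / P2 - 1 < (⌊0.13 * N / P2⌋₊ : ℝ) := Nat.sub_one_lt_floor _
  have hρi : 0 < 1 / ρ := by positivity
  have hJ1 : 1 / ρ ≤ (⌈1 / ρ⌉₊ : ℝ) := Nat.le_ceil _
  have hJ2 : (⌈1 / ρ⌉₊ : ℝ) < 1 / ρ + 1 := Nat.ceil_lt_add_one hρi.le
  generalize ⌊0.18 * N / P1⌋₊ = I at hI1 hI2
  generalize ⌊0.13 * N / P2⌋₊ = K at hK1 hK2
  generalize ⌈1 / ρ⌉₊ = J at hJ1 hJ2
  have hI3 : (I : ℝ) * P1 ≤ 0.18 * N := by
    rw [le_div_iff₀ hP1] at hI1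
    exact hI1
  have hK3 : (K : ℝ) * P2 ≤ 0.13 * N := by
    rw [le_div_iff₀ hP2] at hK1
    exact hK1
  have hI4 : 0.09 * N ≤ (I : ℝ) * P1 := by
    have h1 : 0.18 * N / P1 ≤ I + 1 := by linarith
    rw [div_le_iff₀ hP1] at h1
    nlinarith
  have hK4 : 0.06 * N ≤ (K : ℝ) * P2 := by
    have h1 : 0.13 * N / P2 ≤ K + 1 := by linarith
    rw [div_le_iff₀ hP2] at h1
    nlinarith
  have hJ3 : 1 ≤ (J : ℝ) * ρ := by
    rw [div_le_iff₀ hρ] at hJ1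
    exact hJ1
  have hJ4 : (J : ℝ) * ρ ≤ 2 := by
    have h1 : (J : ℝ) * ρ ≤ (1 / ρ + 1) * ρ := mul_le_mul_of_nonneg_right hJ2.le hρ.le
    have h2 : (1 / ρ + 1) * ρ = 1 + ρ := by
      field_simp
    linarith
  refine ⟨J, I, K, ?_, hJ3, hJ4, hI3, hK3⟩
  have hw0 : 0 < w * ℓ := by positivity
  have hJ0 : (0 : ℝ) ≤ J := Nat.cast_nonneg _
  have hI0 : (0 : ℝ) ≤ I := Nat.cast_nonneg _
  have hK0 : (0 : ℝ) ≤ K := Nat.cast_nonneg _
  -- the product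
  have h1 : (0.09 * N) * (0.06 * N) ≤ ((I : ℝ) * P1) * ((K : ℝ) * P2) :=
    mul_le_mul hI4 hK4 (by positivity) (by positivity)
  have hP1' : P1 ≤ 22 * C₀ * ℓ := by nlinarith
  have hP2' : P2 ≤ 22 * C₀ * w := by nlinarith
  have h2 : P1 * P2 ≤ (22 * C₀ * ℓ) * (22 * C₀ * w) := mul_le_mul hP1' hP2' hP2.le (by positivity)
  have h3 : ((I : ℝ) * P1) * ((K : ℝ) * P2) = ((I : ℝ) * K) * (P1 * P2) := by ring
  have h4 : ((I : ℝ) * K) * (P1 * P2) ≤ ((I : ℝ) * K) * ((22 * C₀ * ℓ) * (22 * C₀ * w)) :=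
    mul_le_mul_of_nonneg_left h2 (mul_nonneg hI0 hK0)
  have h5 : (J : ℝ) * (C * (w * ℓ)) ≤ 2 * N ^ 2 := by
    have e1 : (J : ℝ) * (C * (w * ℓ)) ≤ J * (ρ * N ^ 2) := mul_le_mul_of_nonneg_left hρN hJ0
    have e2 : (J : ℝ) * (ρ * N ^ 2) = (J * ρ) * N ^ 2 := by ring
    have e3 : (J * ρ) * N ^ 2 ≤ 2 * N ^ 2 := mul_le_mul_of_nonneg_right hJ4 (by positivity)
    linarith
  have h6 : (J : ℝ) * (C * (w * ℓ)) ≤ ((I : ℝ) * K) * (C * (w * ℓ)) := by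
    have e1 : ((I : ℝ) * K) * (200000 * C₀ ^ 2 * (w * ℓ)) ≤ ((I : ℝ) * K) * (C * (w * ℓ)) :=
      mul_le_mul_of_nonneg_left (mul_le_mul_of_nonneg_right hC hw0.le) (mul_nonneg hI0 hK0)
    have e2 : ((I : ℝ) * K) * ((22 * C₀ * ℓ) * (22 * C₀ * w)) = 484 * (((I : ℝ) * K) * (C₀ ^ 2 * (w * ℓ))) := by ring
    have e3 : ((I : ℝ) * K) * (200000 * C₀ ^ 2 * (w * ℓ)) = 200000 * (((I : ℝ) * K) * (C₀ ^ 2 * (w * ℓ))) := by ring
    have e4 : 0 ≤ ((I : ℝ) * K) * (C₀ ^ 2 * (w * ℓ)) := by positivity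
    nlinarith
  have h7 : (J : ℝ) ≤ (I : ℝ) * K := le_of_mul_le_mul_right h6 (mul_pos (by linarith) hw0)
  exact_mod_cast h7

/-- The final inequality. -/
private theorem LuckB_fin {F F1 F2 S P E y C : ℝ} (h : -1 ≤ F1 * S + (F2 - y) * P + E) (hF : 1 ≤ F) (hF1 : F1 ≤ F)
    (hF2 : F2 ≤ F) (hS0 : 0 ≤ S) (hS : S ≤ 2) (hP : 0.6 ≤ P) (hE : E ≤ F) (hC : 2 ≤ C) : y ≤ 8 * F + C := by
  by_contra hy
  push Not at hy
  have h1 : F1 * S ≤ F * S := mul_le_mul_of_nonneg_right hF1 hS0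
  have h2 : F * S ≤ F * 2 := mul_le_mul_of_nonneg_left hS (by linarith)
  have h3 : (F2 - y) * P ≤ (F2 - y) * 0.6 := by
    have h4 : F2 - y ≤ 0 := by linarith
    nlinarith
  linarith

/-- `(1 - ρ) ^ J ≤ 0.4` for `J ρ ≥ 1`. -/
private theorem LuckB_pow {ρ : ℝ} {J : ℕ} (h0 : ρ ≤ 1) (h : 1 ≤ (J : ℝ) * ρ) : (1 - ρ) ^ J ≤ 0.4 := by
  have h1 : (1 - ρ) ^ J ≤ Real.exp (-ρ) ^ J := by
    refine pow_le_pow_left₀ (by linarith) ?_ J
    have := Real.add_one_le_exp (-ρ)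
    linarith
  have h2 : Real.exp (-ρ) ^ J = Real.exp (-((J : ℝ) * ρ)) := by
    rw [← Real.exp_nat_mul]
    congr 1
    ring
  have h3 : Real.exp (-((J : ℝ) * ρ)) ≤ Real.exp (-1) := Real.exp_le_exp.2 (by linarith)
  have h4 : Real.exp (-1) ≤ 0.4 := by
    have := Real.exp_neg_one_lt_d9
    linarith
  rw [h2] at h1
  linarith

/-- Big lucks are rare.  PROOF. Let `ρ = P (Cr .. α β (-y))` (`≤ 1`, `> 0`), `J = ⌈1 / ρ⌉`, so `1 ≤ J ρ ≤ 2`.  Place `J` translates `(α + lv z_j, β + q z_j)` (`z_j` from `c.rd`, `P_Cr_sh`) of the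
block at the positions with level `≈ N + i (ℓ + r + 20 C)`, height `≈ 0.45 N + k (2 w + 20 C)` (up to `2 C`), levels in `[N, 1.2 N]`, heights in `[0.45 N, 0.6 N]`: there are
`≥ c N ^ 2 / (w ℓ)` positions, `≥ J` by the hypothesis for `C` large (`r ≤ ℓ`, `1 ≤ w`, `C (w + ℓ) ≤ N`); sort them by level (`Tuple.sort`); the blocks are disjoint (`Eb_disj_lv`, `Eb_disj_q`).
`flat_blocks` with `n = 2 N`, `n' = 2 N`, `Yf v = v + c.rd ((3 N / 2 - lv v) / 2 + c.C) ((3 N / 2 - lv v) / 2 + c.C)`, `Yd = c.rd N N`, `Ad = (Tc 0 Yd - lv Yd)⁺` (mean `≤ Fm M c D (3 N)`):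
`-1 ≤ 2 Fm (3 N) + (Fm (3 N) - y) P (∃) + Fm (3 N)`, `P (∃) ≥ 1 - (1 - ρ) ^ J ≥ 1 - e^{-1} ≥ 0.6` (`none_blocks`). If `y > Fm (3 N)` this gives
`0.6 (y - Fm (3 N)) ≤ 3 Fm (3 N) + 1`, `y ≤ 6 Fm (3 N) + 2`. -/
theorem luck_big (Q : Par) {g : V → ℝ} (hg : IsMean Q g) (c : Crd) (hl : ∀ z, lv c z ≤ g z) {D : ℝ} (hD : 3 ≤ D) :
    ∃ C : ℝ, 1 ≤ C ∧ ∀ (N R : ℝ) (M : Mdl Q.a Q.b), C ≤ N → C * N ^ 12 ≤ R → Good Q g R M →
    ∀ r w w₁ ℓ α β y : ℝ, 0 ≤ r → 2 * r ≤ w → 1 ≤ w → w₁ ≤ w → r ≤ ℓ → 1 ≤ ℓ → C * (w + ℓ) ≤ N →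
      C * (w * ℓ) ≤ M.P (Cr Q.b c r w w₁ ℓ α β (-y)) * N ^ 2 → y ≤ 8 * Fm M c D (C * N) + C := by
  classical
  obtain ⟨H₀, hH₀, hfb⟩ := flat_blocks Q hg c hl hD
  have hC₀ := c.one_le
  have hC₀2 : c.C ≤ c.C ^ 2 := by nlinarith
  have hC₀3 : (0 : ℝ) ≤ 8 * (100 * c.C ^ 2) ^ 12 := by positivity
  refine ⟨200000 * c.C ^ 2 + H₀ + 8 * (100 * c.C ^ 2) ^ 12, by linarith, ?_⟩
  intro N R M hN hR hM r w w₁ ℓ α β y hr hrw hw hw₁ hrℓ hℓ hwℓ hρN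
  have hCa : 200000 * c.C ^ 2 ≤ 200000 * c.C ^ 2 + H₀ + 8 * (100 * c.C ^ 2) ^ 12 := by linarith
  have hCb : H₀ ≤ 200000 * c.C ^ 2 + H₀ + 8 * (100 * c.C ^ 2) ^ 12 := by linarith
  have hCc : 8 * (100 * c.C ^ 2) ^ 12 ≤ 200000 * c.C ^ 2 + H₀ + 8 * (100 * c.C ^ 2) ^ 12 := by linarith
  generalize 200000 * c.C ^ 2 + H₀ + 8 * (100 * c.C ^ 2) ^ 12 = C at *
  have hC1 : 200000 * c.C ≤ C := by linarith
  have hC2 : 200000 ≤ C := by linarith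
  have hN1 : 200000 * c.C ≤ N := by linarith
  have hN0 : 0 < N := by linarith
  have hwl2 : 200000 * (w + ℓ) ≤ N := by
    have h1 : 200000 * (w + ℓ) ≤ C * (w + ℓ) := mul_le_mul_of_nonneg_right hC2 (by linarith)
    linarith
  have hD0 : 0 < D := by linarith
  -- the probability
  have hρ1 : M.P (Cr Q.b c r w w₁ ℓ α β (-y)) ≤ 1 := M.P_le_one _
  have hρ0 : 0 < M.P (Cr Q.b c r w w₁ ℓ α β (-y)) := by
    have h1 : 0 < C * (w * ℓ) := by positivity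
    have h2 : 0 < M.P (Cr Q.b c r w w₁ ℓ α β (-y)) * N ^ 2 := lt_of_lt_of_le h1 hρN
    exact (mul_pos_iff_of_pos_right (by positivity)).1 h2
  obtain ⟨J, I, K, hJ, hJ1, hJ2, hI, hK⟩ := LuckB_count hC₀ hCa hN hr hw hrℓ hℓ hwℓ hρ0 hρ1 hρN
  obtain ⟨t1, t2, ht1, ht2, hsep⟩ := LuckB_place hJ (P1 := ℓ + r + 20 * c.C) (P2 := 2 * w + 20 * c.C)
    (1.01 * N) (0.46 * N) (by linarith) (by linarith)
  -- the translations
  set z : Fin J → V := fun j => c.rd ((t1 j - α) - (t2 j - β)) (t2 j - β) with hz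
  have hzq : ∀ j, |(β + c.q (z j)) - t2 j| ≤ c.C := by
    intro j
    have h1 := c.rd_q ((t1 j - α) - (t2 j - β)) (t2 j - β)
    have e : (β + c.q (z j)) - t2 j = c.q (z j) - (t2 j - β) := by ring
    rw [e]
    exact h1
  have hzl : ∀ j, |(α + lv c (z j)) - t1 j| ≤ 2 * c.C := by
    intro j
    have h1 := lv_rd c ((t1 j - α) - (t2 j - β)) (t2 j - β)
    have e : (α + lv c (z j)) - t1 j = lv c (z j) - (((t1 j - α) - (t2 j - β)) + (t2 j - β)) := by ring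
    rw [e]
    exact h1
  have hPz : ∀ j, M.P (Cr Q.b c r w w₁ ℓ (α + lv c (z j)) (β + c.q (z j)) (-y)) =
      M.P (Cr Q.b c r w w₁ ℓ α β (-y)) := fun j => P_Cr_sh hM c r w w₁ ℓ α β (-y) (z j)
  generalize hα' : (fun j => α + lv c (z j)) = α'
  generalize hβ' : (fun j => β + c.q (z j)) = β'
  have hα'j : ∀ j, α + lv c (z j) = α' j := fun j => congrFun hα' j
  have hβ'j : ∀ j, β + c.q (z j) = β' j := fun j => congrFun hβ' j
  simp only [hα'j, hβ'j] at hzq hzl hPz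
  -- bounds
  have hab : ∀ j, N ≤ α' j ∧ α' j ≤ 1.2 * N ∧ 0.455 * N ≤ β' j ∧ β' j ≤ 0.6 * N := by
    intro j
    have h1 := abs_le.1 (hzl j)
    have h2 := abs_le.1 (hzq j)
    have h3 := ht1 j
    have h4 := ht2 j
    refine ⟨by linarith, by linarith, by linarith, by linarith⟩
  have hdis : ∀ i j, i ≠ j → Disjoint (Eb c (α' i) (β' i) w ℓ (α' i - r)) (Eb c (α' j) (β' j) w ℓ (α' j - r)) := by
    intro i j hij
    have a1 := abs_le.1 (hzl i)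
    have a2 := abs_le.1 (hzl j)
    have a3 := abs_le.1 (hzq i)
    have a4 := abs_le.1 (hzq j)
    rcases hsep i j hij with ⟨-, h⟩ | h
    · refine Eb_disj_q ?_
      rcases abs_cases (t2 i - t2 j) with ⟨e, -⟩ | ⟨e, -⟩
      · rw [e] at h
        refine lt_of_lt_of_le ?_ (le_abs_self _)
        linarith
      · rw [e] at h
        refine lt_of_lt_of_le ?_ (neg_le_abs _)
        linarith
    · rcases abs_cases (t1 i - t1 j) with ⟨e, -⟩ | ⟨e, -⟩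
      · rw [e] at h
        refine (Eb_disj_lv ?_).symm
        linarith
      · rw [e] at h
        refine Eb_disj_lv ?_
        linarith
  -- sorting
  have hmono : Monotone (α' ∘ Tuple.sort α') := Tuple.monotone_sort α'
  generalize Tuple.sort α' = σ at hmono
  set n₂ : ℝ := 2 * N with hn₂
  -- the destination without success
  have hYp := abs_le.1 (c.rd_p N N)
  have hYq := abs_le.1 (c.rd_q N N)
  have hYl := abs_le.1 (lv_rd c N N)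
  generalize c.rd N N = Yd at hYp hYq hYl
  have hYnm : nm Yd ≤ 16 * c.C * N := by
    have h1 := c.nm_le Yd
    have h2 : |c.p Yd| + |c.q Yd| ≤ 4 * N := by
      rw [abs_of_nonneg (by linarith : (0 : ℝ) ≤ c.p Yd), abs_of_nonneg (by linarith : (0 : ℝ) ≤ c.q Yd)]
      linarith
    have h3 := mul_le_mul_of_nonneg_left h2 (by linarith : (0 : ℝ) ≤ c.C)
    nlinarith
  have hYW : Yd ∈ Wc c := Wc_of_nonneg (by linarith) (by linarith)
  have hYM : Yd ∈ Md c D := Md_of hD (by linarith) (by linarith) (by linarith) (by linarith)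
  -- the range
  have hC₀N : c.C * N ≤ c.C ^ 2 * N := mul_le_mul_of_nonneg_right hC₀2 hN0.le
  have hHN : N ≤ 100 * c.C ^ 2 * N := by nlinarith
  have hHR : 8 * (100 * c.C ^ 2 * N) ^ 12 ≤ R := by
    have e : 8 * (100 * c.C ^ 2 * N) ^ 12 = 8 * (100 * c.C ^ 2) ^ 12 * N ^ 12 := by ring
    rw [e]
    exact (mul_le_mul_of_nonneg_right hCc (by positivity)).trans hR
  have hNR : 100 * c.C ^ 2 * N ≤ R := by
    refine le_trans ?_ hHR
    have h1 : (1 : ℝ) ≤ 100 * c.C ^ 2 * N := by linarith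
    have h2 : (100 * c.C ^ 2 * N) ^ 1 ≤ (100 * c.C ^ 2 * N) ^ 12 := pow_le_pow_right₀ h1 (by norm_num)
    rw [pow_one] at h2
    linarith
  set Ad : Env → ℝ := fun τ => max (Tc Q.b c τ 0 Yd - lv c Yd) 0 with hAd
  have key := hfb (100 * c.C ^ 2 * N) (by linarith) R M hHR hM J (α' ∘ σ) (β' ∘ σ) r w w₁ ℓ y n₂ n₂
    (fun v => v + c.rd ((3 * N / 2 - lv c v) / 2 + c.C) ((3 * N / 2 - lv c v) / 2 + c.C)) Yd Ad hr (by linarith) hw₁
    (fun i j hij => hmono hij)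
    (fun j => by
      have h := hab (σ j)
      simp only [Function.comp]
      constructor <;> linarith)
    (fun j => by
      have h := hab (σ j)
      simp only [Function.comp, hn₂]
      refine ⟨by linarith, by linarith, by linarith⟩)
    (fun j => by
      have h := hab (σ j)
      simp only [Function.comp, hn₂]
      rw [abs_of_nonneg (by linarith : (0 : ℝ) ≤ 2 * N)]
      have h1 : α' (σ j) + ℓ + 2 * N + 10 * c.C ≤ 5 * N := by linarith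
      have h2 := mul_le_mul_of_nonneg_left h1 (by linarith : (0 : ℝ) ≤ 10 * c.C)
      linarith)
    (fun j v hv1 hv2 => by
      have h := hab (σ j)
      simp only [Function.comp] at hv1 hv2
      have e : v + c.rd ((3 * N / 2 - lv c v) / 2 + c.C) ((3 * N / 2 - lv c v) / 2 + c.C) - v =
          c.rd ((3 * N / 2 - lv c v) / 2 + c.C) ((3 * N / 2 - lv c v) / 2 + c.C) := by abel
      show (v + c.rd ((3 * N / 2 - lv c v) / 2 + c.C) ((3 * N / 2 - lv c v) / 2 + c.C) - v ∈ Md c D) ∧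
        (v + c.rd ((3 * N / 2 - lv c v) / 2 + c.C) ((3 * N / 2 - lv c v) / 2 + c.C) - v ∈ Wc c) ∧
        lv c (v + c.rd ((3 * N / 2 - lv c v) / 2 + c.C) ((3 * N / 2 - lv c v) / 2 + c.C) - v) ≤ n₂
      rw [e]
      have h1 := abs_le.1 (c.rd_p ((3 * N / 2 - lv c v) / 2 + c.C) ((3 * N / 2 - lv c v) / 2 + c.C))
      have h2 := abs_le.1 (c.rd_q ((3 * N / 2 - lv c v) / 2 + c.C) ((3 * N / 2 - lv c v) / 2 + c.C))
      have h3 := abs_le.1 (lv_rd c ((3 * N / 2 - lv c v) / 2 + c.C) ((3 * N / 2 - lv c v) / 2 + c.C))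
      refine ⟨Md_of hD (by linarith) (by linarith) (by linarith) (by linarith),
        Wc_of_nonneg (by linarith) (by linarith), by linarith⟩)
    (by nlinarith) hYW
    (fun j => by
      have h := hab (σ j)
      simp only [Function.comp]
      linarith)
    (by
      intro τ τ' h
      have h1 : Tc Q.b c τ 0 Yd = Tc Q.b c τ' 0 Yd := by
        refine Tc_dep Q.b c 0 Yd fun e he => h e ⟨⟨?_, ?_⟩, ?_⟩
        · have := he.1.1
          rwa [sub_zero] at this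
        · have := he.2.1
          rwa [sub_zero] at this
        · have h2 := Dc_nm he.1
          rw [sub_zero, sub_zero] at h2
          have h3 : 4 * c.C * lv c Yd ≤ 4 * c.C * (4 * N) := mul_le_mul_of_nonneg_left (by linarith) (by linarith)
          nlinarith
      simp only [hAd, h1])
    (fun τ hτ => by
      have h1 := T_le_Tc Q.ha.le hτ c 0 Yd
      exact (sub_le_sub_right h1 _).trans (le_max_left _ _))
  -- the terms
  have hC₀C : 2 * N ≤ C * N := mul_le_mul_of_nonneg_right (by linarith) hN0.le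
  have hF1 : Fm M c D n₂ ≤ Fm M c D (C * N) := Fm_mono M c hD0 hC₀C
  have hF0 : 1 ≤ Fm M c D (C * N) := Fm_one_le M c _
  have hS : ∑ j, M.P (Cr Q.b c r w w₁ ℓ ((α' ∘ σ) j) ((β' ∘ σ) j) (-y)) =
      J * M.P (Cr Q.b c r w w₁ ℓ α β (-y)) := by
    have h1 : ∀ j ∈ (Finset.univ : Finset (Fin J)), M.P (Cr Q.b c r w w₁ ℓ ((α' ∘ σ) j) ((β' ∘ σ) j) (-y)) =
        M.P (Cr Q.b c r w w₁ ℓ α β (-y)) := fun j _ => hPz (σ j)
    rw [Finset.sum_congr rfl h1, Finset.sum_const, Finset.card_univ, Fintype.card_fin, nsmul_eq_mul]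
  have hnone := none_blocks hM (c := c) (r := r) (w := w) (w₁ := w₁) (ℓ := ℓ) (e := -y)
    (ρ := M.P (Cr Q.b c r w w₁ ℓ α β (-y))) (α' ∘ σ) (β' ∘ σ)
    (fun i j hij => hdis (σ i) (σ j) (fun h => hij (σ.injective h)))
    (fun j d hd => by
      have h := hab (σ j)
      have h1 := Eb_nm hd
      simp only [Function.comp] at h1
      rw [abs_of_nonneg (by linarith : (0 : ℝ) ≤ α' (σ j) - r), abs_of_nonneg (by linarith : (0 : ℝ) ≤ α' (σ j) + ℓ),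
        abs_of_nonneg (by linarith : (0 : ℝ) ≤ β' (σ j))] at h1
      have h2 : (α' (σ j) - r) + (α' (σ j) + ℓ) + 2 * c.C + β' (σ j) + w ≤ 5 * N := by linarith
      have h3 := mul_le_mul_of_nonneg_left h2 (by linarith : (0 : ℝ) ≤ 2 * c.C)
      linarith)
    (fun j => (hPz (σ j)).ge) hρ1
  have hPex : 0.6 ≤ M.P (fun τ => ∃ j, Cr Q.b c r w w₁ ℓ ((α' ∘ σ) j) ((β' ∘ σ) j) (-y) τ) := by
    have h1 := M.P_not (fun τ => ∃ j, Cr Q.b c r w w₁ ℓ ((α' ∘ σ) j) ((β' ∘ σ) j) (-y) τ)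
    have h2 : M.P (fun τ => ¬ ∃ j, Cr Q.b c r w w₁ ℓ ((α' ∘ σ) j) ((β' ∘ σ) j) (-y) τ) ≤
        M.P (fun τ => ∀ j, ¬ Cr Q.b c r w w₁ ℓ ((α' ∘ σ) j) ((β' ∘ σ) j) (-y) τ) :=
      M.P_mono fun τ _ h3 j h4 => h3 ⟨j, h4⟩
    have h3 := LuckB_pow hρ1 hJ1
    linarith
  have hE : M.E (fun τ => if ∃ j, Cr Q.b c r w w₁ ℓ ((α' ∘ σ) j) ((β' ∘ σ) j) (-y) τ then 0 else Ad τ) ≤
      Fm M c D (C * N) := by
    have h1 : M.E (fun τ => if ∃ j, Cr Q.b c r w w₁ ℓ ((α' ∘ σ) j) ((β' ∘ σ) j) (-y) τ then 0 else Ad τ) ≤ M.E Ad := by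
      refine M.E_mono fun τ _ => ?_
      split_ifs
      · exact le_max_right _ _
      · exact le_rfl
    have h2 : M.E Ad = Sc M c Yd := rfl
    have h3 := Sc_le_Fm M c hD0 hYM (by linarith : 0 ≤ lv c Yd) (n := C * N) (by nlinarith)
    linarith
  refine LuckB_fin key hF0 hF1 hF1 ?_ ?_ hPex ?_ (by linarith)
  · rw [hS]
    linarith
  · rw [hS]
    exact hJ2
  · convert hE

end Pool.Agent.W_1b8d5d_fe
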