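import Pool.Agent.W_1b8d5d_fe.Blk1
import Pool.Agent.W_1b8d5d_fe.Cv

/-!
MP_1b8d5d_pr (FE): independent blocks.
-/

set_option autoImplicit false

namespace Pool.Agent.W_1b8d5d_fe

open Finset Pool.Agent.W_1b8d5d_h85

/-- Independent blocks: no lucky block.  PROOF. `Pool.Agent.W_1b8d5d_c1.Good.none_le` (`toC1`), `Cr_dep`. -/
theorem none_blocks {Q : Par} {g : V → ℝ} {R : ℝ} {M : Mdl Q.a Q.b} (hM : Good Q g R M) {c : Crd} {r w w₁ ℓ e ρ : ℝ}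
    {J : ℕ} (α β : Fin J → ℝ)
    (hd : ∀ i j, i ≠ j → Disjoint (Eb c (α i) (β i) w ℓ (α i - r)) (Eb c (α j) (β j) w ℓ (α j - r)))
    (hR : ∀ j, ∀ d ∈ Eb c (α j) (β j) w ℓ (α j - r), nm d.1 ≤ R)
    (hρ : ∀ j, ρ ≤ M.P (Cr Q.b c r w w₁ ℓ (α j) (β j) e)) (hρ1 : ρ ≤ 1) :
    M.P (fun τ => ∀ j, ¬ Cr Q.b c r w w₁ ℓ (α j) (β j) e τ) ≤ (1 - ρ) ^ J := by
  classical
  have key := (toC1 hM).none_le J
    (fun i => if h : i < J then Eb c (α ⟨i, h⟩) (β ⟨i, h⟩) w ℓ (α ⟨i, h⟩ - r) else ∅) ?_ ?_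
    (fun i τ => if h : i < J then Cr Q.b c r w w₁ ℓ (α ⟨i, h⟩) (β ⟨i, h⟩) e τ else True) ?_ (s := ρ) ?_ hρ1
  · refine (M.P_mono fun τ _ h1 => ?_).trans key
    intro i hi
    simp only [dif_pos hi]
    exact h1 ⟨i, hi⟩
  · intro i j hij hj
    have hi : i < J := hij.trans hj
    simp only [dif_pos hi, dif_pos hj]
    exact hd ⟨i, hi⟩ ⟨j, hj⟩ fun h => by
      have h2 := congrArg Fin.val h
      simp only at h2
      omega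
  · intro i hi d hd'
    simp only [dif_pos hi] at hd'
    exact hR ⟨i, hi⟩ d hd'
  · intro i hi
    simp only [dif_pos hi]
    exact Cr_dep Q.b c r w w₁ ℓ (α ⟨i, hi⟩) (β ⟨i, hi⟩) e
  · intro i hi
    simp only [dif_pos hi]
    exact hρ ⟨i, hi⟩

end Pool.Agent.W_1b8d5d_fe
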