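import Pool.Agent.W_1b8d5d_fe.Blk2
import Pool.Agent.W_1b8d5d_fe.LuckN

/-!
MP_1b8d5d_pr (FE): lucky blocks: the inequality from the flat principle.
-/

set_option autoImplicit false

namespace Pool.Agent.W_1b8d5d_fe

open Finset Pool.Agent.W_1b8d5d_h85

/-- Numbers of a block. -/
private theorem LuckF_num {c : Crd} {a b r w n : ℝ} (hw : w ≤ b ∧ b + w ≤ a - r)
    (h : a + 2 * c.C ≤ 3 * (b - 2 * r) ∧ 3 * (b + 2 * r) ≤ 2 * (a - r) ∧ a + 2 * c.C ≤ n) (hr : 0 ≤ r) :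
    14 * r + 2 * c.C ≤ a ∧ 0 ≤ b ∧ b ≤ a ∧ w ≤ a := by
  have hC := c.one_le
  obtain ⟨h1, h2, h3⟩ := h
  refine ⟨by linarith, by linarith, by linarith, by linarith⟩

/-- Points of the blocks are in the cone. -/
private theorem LuckF_cone {c : Crd} {a b r w : ℝ} (hw : w ≤ b ∧ b + w ≤ a - r) {z : V} (h1 : a - r ≤ lv c z)
    (h2 : |c.q z - b| ≤ w) : z ∈ Wc c := by
  have h3 := abs_le.1 h2
  have h4 : lv c z = c.p z + c.q z := rfl
  exact Wc_of_nonneg (by linarith) (by linarith)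

/-- Points of the cone of a bounded level. -/
private theorem LuckF_nm {c : Crd} {a ℓ n' H : ℝ} (h0 : 0 ≤ a + ℓ)
    (hH : 10 * c.C * (a + ℓ + |n'| + 10 * c.C) ≤ H) {z : V} (hz : z ∈ Wc c)
    (h : lv c z ≤ a + ℓ + 2 * c.C + |n'|) : nm z ≤ H := by
  have hC := c.one_le
  have hn := abs_nonneg n'
  have h1 := Wc_nm hz
  have h2 : 4 * c.C * lv c z ≤ 4 * c.C * (a + ℓ + |n'| + 10 * c.C) :=
    mul_le_mul_of_nonneg_left (by linarith) (by linarith)
  have h3 : 0 ≤ c.C * (a + ℓ + |n'| + 10 * c.C) := mul_nonneg (by linarith) (by linarith)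
  linarith

/-- The range for `trav_low`. -/
private theorem LuckF_R {c : Crd} {a b r w ℓ n' H R : ℝ} (hr : 0 ≤ r) (hℓ : 0 ≤ ℓ)
    (h : 14 * r + 2 * c.C ≤ a ∧ 0 ≤ b ∧ b ≤ a ∧ w ≤ a)
    (hH : 10 * c.C * (a + ℓ + |n'| + 10 * c.C) ≤ H) (hR : 2 * H ≤ R) :
    4 * c.C * (a + 2 * c.C + |a| + |ℓ| + r + 2 * c.C + |b| + w) + nm (0 : V) ≤ R := by
  obtain ⟨h1, h2, h3, h4⟩ := h
  have hC := c.one_le
  have hn := abs_nonneg n'
  have h5 : nm (0 : V) = 0 := by simp [nm]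
  rw [h5, abs_of_nonneg (by linarith : 0 ≤ a), abs_of_nonneg hℓ, abs_of_nonneg h2]
  have h6 : 4 * c.C * (a + 2 * c.C + a + ℓ + r + 2 * c.C + b + w) ≤ 4 * c.C * (5 * (a + ℓ + |n'| + 10 * c.C)) :=
    mul_le_mul_of_nonneg_left (by linarith) (by linarith)
  linarith

open Classical in
/-- The flat principle for a list of blocks (sorted by their levels).  The traveller looks for the first block with a crossing of excess at most `- y`, takes its highest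
crossing `(u, v)` (`cands`) and goes `0 → u → v → Yf v`; without success he goes to `Yd`.  PROOF. `flat_selW` for the index set `Σₗ j : Fin J, Fin (m j)` (or `Fin J ×ₗ Fin m`-like; lexicographic order:
first the block, then the candidate of `cands c r w₁ ℓ (α j) (β j)`), `K (j, i) = Kc Q.b c w ℓ (α j) (β j) (-y) u v`, `D (j, i) = Eb c (α j) (β j) w ℓ (lv c u)`,
`A (j, i) = (Tc 0 u - lv u)⁺ - y + (Tc v (Yf v) - lv)⁺`, valid by `T_triangle`, `T_le_res`, `T_le_Tc` and the definition of `Kc`.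
The edges of the blocks are in the wide cone (`hcone`: there `0 ≤ q` and `0 ≤ p`), those of the blocks `j' ≤ j` have an end point of level `< α j + ℓ ≤ lv v ≤ lv (Yf v)`, so they are
not in the cone at `Yf v`, nor in the double cone of `v`, `Yf v`.
The terms: (1) `1_{Fst (j, i)} ≤ 1_{Fst i within the block j}`, so `trav_low` bounds the sum of the low travels of the block `j` by `Fm M c D n * P (Cr_j)`.
(2) `sel_le` for the whole list bounds the sum of the high travels by `Fm M c D n' * P (∃ j, Cr_j)`. (3) `- y P (∃ j, Cr_j)` (`sum_P_Fst`). -/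
theorem flat_blocks (Q : Par) {g : V → ℝ} (hg : IsMean Q g) (c : Crd) (hl : ∀ z, lv c z ≤ g z) {D : ℝ} (hD : 3 ≤ D) :
    ∃ H₀ : ℝ, 1 ≤ H₀ ∧ ∀ H ≥ H₀, ∀ (R : ℝ) (M : Mdl Q.a Q.b), 8 * H ^ 12 ≤ R → Good Q g R M →
    ∀ (J : ℕ) (α β : Fin J → ℝ) (r w w₁ ℓ y n n' : ℝ) (Yf : V → V) (Yd : V) (Ad : Env → ℝ),
      0 ≤ r → 0 ≤ ℓ → w₁ ≤ w → (∀ i j, i ≤ j → α i ≤ α j) →
      (∀ j, w ≤ β j ∧ β j + w ≤ α j - r) →
      (∀ j, α j + 2 * c.C ≤ 3 * (β j - 2 * r) ∧ 3 * (β j + 2 * r) ≤ 2 * (α j - r) ∧ α j + 2 * c.C ≤ n) →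
      (∀ j, 10 * c.C * (α j + ℓ + |n'| + 10 * c.C) ≤ H) →
      (∀ j v, α j + ℓ ≤ lv c v → lv c v ≤ α j + ℓ + 2 * c.C →
        Yf v - v ∈ Md c D ∧ Yf v - v ∈ Wc c ∧ lv c (Yf v - v) ≤ n') →
      nm Yd ≤ H → Yd ∈ Wc c → (∀ j, α j + ℓ ≤ lv c Yd) →
      DependsOn Ad {e | e ∈ edg (Wc c) ∧ nm e.1 ≤ H} → (∀ τ, Bd Q.a Q.b τ → T τ 0 Yd - lv c Yd ≤ Ad τ) →
      -1 ≤ Fm M c D n * ∑ j, M.P (Cr Q.b c r w w₁ ℓ (α j) (β j) (-y)) +
        (Fm M c D n' - y) * M.P (fun τ => ∃ j, Cr Q.b c r w w₁ ℓ (α j) (β j) (-y) τ) +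
        M.E (fun τ => if ∃ j, Cr Q.b c r w w₁ ℓ (α j) (β j) (-y) τ then 0 else Ad τ) := by
  obtain ⟨H₀, hH₀, hflat⟩ := flat_selW Q c hg hl
  refine ⟨H₀, hH₀, ?_⟩
  intro H hH R M hR hM J α β r w w₁ ℓ y n n' Yf Yd Ad hr hℓ hw₁ hmono hcone hmid hHb hYf hYd hYdW hYdl hAd hT
  have hC := c.one_le
  have ha : 0 ≤ Q.a := Q.ha.le
  have hab : Q.a ≤ Q.b := Q.hab.le
  have hH1 : 1 ≤ H := hH₀.trans hH
  have hHR : 2 * H ≤ R := by
    have h1 : H ≤ H ^ 12 := by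
      calc H = H ^ 1 := (pow_one H).symm
        _ ≤ H ^ 12 := pow_le_pow_right₀ hH1 (by norm_num)
    linarith
  have hD0 : 0 < D := by linarith
  have hnum : ∀ j, 14 * r + 2 * c.C ≤ α j ∧ 0 ≤ β j ∧ β j ≤ α j ∧ w ≤ α j :=
    fun j => LuckF_num (hcone j) (hmid j) hr
  have hα0 : ∀ j, 0 ≤ α j + ℓ := fun j => by linarith [(hnum j).1]
  choose m x v h1 h2 h3 using fun j : Fin J => cands c r w₁ ℓ (α j) (β j)
  -- facts on the exits
  have hvl : ∀ j i, α j + ℓ ≤ lv c (v j i) ∧ lv c (v j i) ≤ α j + ℓ + 2 * c.C :=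
    fun j i => ⟨(h1 j i).2.1, (h1 j i).2.2.1⟩
  have hvW : ∀ j i, v j i ∈ Wc c := fun j i =>
    LuckF_cone (hcone j) (by linarith [(hvl j i).1]) ((h1 j i).2.2.2.trans hw₁)
  have hYv : ∀ j i, Yf (v j i) - v j i ∈ Md c D ∧ Yf (v j i) - v j i ∈ Wc c ∧ lv c (Yf (v j i) - v j i) ≤ n' :=
    fun j i => hYf j (v j i) (hvl j i).1 (hvl j i).2
  have hYW : ∀ j i, Yf (v j i) ∈ Wc c := fun j i => by
    have := Wc_add (hvW j i) (hYv j i).2.1
    rwa [add_sub_cancel] at this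
  have hYlv : ∀ j i, lv c (Yf (v j i)) = lv c (v j i) + lv c (Yf (v j i) - v j i) := fun j i => by
    rw [lv_sub]
    ring
  have hYl0 : ∀ j i, 0 ≤ lv c (Yf (v j i) - v j i) := fun j i => Wc_lv (hYv j i).2.1
  have hYnm : ∀ j i, nm (Yf (v j i)) ≤ H := fun j i => by
    refine LuckF_nm (hα0 j) (hHb j) (hYW j i) ?_
    rw [hYlv]
    linarith [(hvl j i).2, (hYv j i).2.2, le_abs_self n']
  -- facts on the edges of the blocks
  have hEt : ∀ j i, α j - r ≤ lv c (x j i) := fun j i => (h1 j i).1.1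
  have hEb : ∀ j i, ∀ e ∈ Eb c (α j) (β j) w ℓ (lv c (x j i)), e ∈ edg (Wc c) ∧ nm e.1 ≤ H := by
    intro j i e he
    obtain ⟨⟨a1, a2, a3⟩, b1, b2, b3⟩ := Eb_vert he
    have c1 : e.1 ∈ Wc c := LuckF_cone (hcone j) ((hEt j i).trans a1) a3
    have c2 : e.1 + dir e.2 ∈ Wc c := LuckF_cone (hcone j) ((hEt j i).trans b1) b3
    exact ⟨⟨c1, c2⟩, LuckF_nm (hα0 j) (hHb j) c1 (by linarith [abs_nonneg n'])⟩
  have hEup : ∀ j i, ∀ e ∈ Eb c (α j) (β j) w ℓ (lv c (x j i)), ∀ S : Set V,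
      (∀ z ∈ S, α j + ℓ ≤ lv c z) → e ∉ edg S := by
    intro j i e he S hS heS
    have := Set.disjoint_left.1 (Eb_disj_up (c := c) (α := α j) (β := β j) (w := w) (ℓ := ℓ)
      (t := lv c (x j i)) hS) he
    exact this heS
  -- the double cones
  have hDlow : ∀ j i, edg (Dc c 0 (x j i)) ⊆ {e | e ∈ edg (Wc c) ∧ nm e.1 ≤ H} := by
    intro j i e he
    have hz : ∀ z ∈ Dc c 0 (x j i), z ∈ Wc c := fun z hz => by
      have := hz.1
      rwa [sub_zero] at this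
    refine ⟨⟨hz _ he.1, hz _ he.2⟩, LuckF_nm (hα0 j) (hHb j) (hz _ he.1) ?_⟩
    have h4 := (Dc_lv he.1).2
    linarith [(h1 j i).1.2.1, abs_nonneg n']
  have hDup : ∀ j i, edg (Dc c (v j i) (Yf (v j i))) ⊆ {e | e ∈ edg (Wc c) ∧ nm e.1 ≤ H} := by
    intro j i e he
    have hz : ∀ z ∈ Dc c (v j i) (Yf (v j i)), z ∈ Wc c := fun z hz => by
      have := Wc_add (hvW j i) hz.1
      rwa [add_sub_cancel] at this
    refine ⟨⟨hz _ he.1, hz _ he.2⟩, LuckF_nm (hα0 j) (hHb j) (hz _ he.1) ?_⟩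
    have h4 := (Dc_lv he.1).2
    rw [hYlv] at h4
    linarith [(hvl j i).2, (hYv j i).2.2, le_abs_self n']
  -- the index set
  let K : (Σₗ j : Fin J, Fin (m j)) → Env → Prop :=
    fun t => Kc Q.b c w ℓ (α t.1) (β t.1) (-y) (x t.1 t.2) (v t.1 t.2)
  let lo : (Σₗ j : Fin J, Fin (m j)) → Env → ℝ :=
    fun t τ => max (Tc Q.b c τ 0 (x t.1 t.2) - lv c (x t.1 t.2 - 0)) 0
  let up : (Σₗ j : Fin J, Fin (m j)) → Env → ℝ :=
    fun t τ => max (Tc Q.b c τ (v t.1 t.2) (Yf (v t.1 t.2)) - lv c (Yf (v t.1 t.2) - v t.1 t.2)) 0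
  have hle1 : ∀ s t : (Σₗ j : Fin J, Fin (m j)), s ≤ t → s.1 ≤ t.1 := by
    intro s t hst
    rcases Sigma.Lex.le_def.1 hst with h4 | ⟨h4, -⟩
    · exact h4.le
    · exact h4.le
  have hαle : ∀ s t : (Σₗ j : Fin J, Fin (m j)), s ≤ t → α s.1 ≤ α t.1 :=
    fun s t hst => hmono _ _ (hle1 s t hst)
  have key := hflat H hH R M hR hM (ι := Σₗ j : Fin J, Fin (m j)) K
    (fun t => Eb c (α t.1) (β t.1) w ℓ (lv c (x t.1 t.2))) (fun t => Yf (v t.1 t.2)) Yd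
    (fun t τ => lo t τ + -y + up t τ) Ad
    (fun t => ⟨hYnm t.1 t.2, hYW t.1 t.2⟩) hYd hYdW
    (fun t => Kc_dep Q.b c w ℓ (α t.1) (β t.1) (-y) (x t.1 t.2) (v t.1 t.2))
    (fun t e he => hEb t.1 t.2 e he)
    (fun t s hst e he => hEup s.1 s.2 e he _ fun z hz => by
      have h4 := Wc_lv hz
      rw [lv_sub, hYlv] at h4
      linarith [(hvl t.1 t.2).1, hYl0 t.1 t.2, hαle s t hst])
    (fun s e he => hEup s.1 s.2 e he _ fun z hz => by
      have h4 := Wc_lv hz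
      rw [lv_sub] at h4
      linarith [hYdl s.1])
    (fun t => by
      intro τ τ' hτ
      have e1 : Tc Q.b c τ 0 (x t.1 t.2) = Tc Q.b c τ' 0 (x t.1 t.2) :=
        Tc_dep Q.b c 0 (x t.1 t.2) fun e he => hτ e (hDlow t.1 t.2 he)
      have e2 : Tc Q.b c τ (v t.1 t.2) (Yf (v t.1 t.2)) = Tc Q.b c τ' (v t.1 t.2) (Yf (v t.1 t.2)) :=
        Tc_dep Q.b c (v t.1 t.2) (Yf (v t.1 t.2)) fun e he => hτ e (hDup t.1 t.2 he)
      show lo t τ + -y + up t τ = lo t τ' + -y + up t τ'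
      simp only [lo, up]
      rw [e1, e2])
    hAd
    (fun t τ hτ hK => by
      have t1 := T_triangle hτ ha 0 (x t.1 t.2) (Yf (v t.1 t.2))
      have t2 := T_triangle hτ ha (x t.1 t.2) (v t.1 t.2) (Yf (v t.1 t.2))
      have t3 := T_le_Tc ha hτ c 0 (x t.1 t.2)
      have t4 := T_le_Tc ha hτ c (v t.1 t.2) (Yf (v t.1 t.2))
      have t5 := T_le_res ha hτ (Eb c (α t.1) (β t.1) w ℓ (lv c (x t.1 t.2))) (x t.1 t.2) (v t.1 t.2)
      have t6 : T (res Q.b (Eb c (α t.1) (β t.1) w ℓ (lv c (x t.1 t.2))) τ) (x t.1 t.2) (v t.1 t.2) ≤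
        lv c (v t.1 t.2 - x t.1 t.2) + -y := hK
      have t7 := le_max_left (Tc Q.b c τ 0 (x t.1 t.2) - lv c (x t.1 t.2 - 0)) 0
      have t8 := le_max_left (Tc Q.b c τ (v t.1 t.2) (Yf (v t.1 t.2)) - lv c (Yf (v t.1 t.2) - v t.1 t.2)) 0
      have t9 := hYlv t.1 t.2
      have t10 := lv_sub c (v t.1 t.2) (x t.1 t.2)
      have t11 : lv c (x t.1 t.2 - 0) = lv c (x t.1 t.2) := by rw [sub_zero]
      show T τ 0 (Yf (v t.1 t.2)) - lv c (Yf (v t.1 t.2)) ≤ lo t τ + -y + up t τ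
      simp only [lo, up]
      linarith)
    hT
  -- existence of a crossing in terms of the list
  have hCr : ∀ j τ, Cr Q.b c r w w₁ ℓ (α j) (β j) (-y) τ ↔ ∃ i, Kc Q.b c w ℓ (α j) (β j) (-y) (x j i) (v j i) τ :=
    fun j τ => Cr_iff (h1 j) (h2 j) τ
  have hex : ∀ τ, (∃ t, K t τ) ↔ ∃ j, Cr Q.b c r w w₁ ℓ (α j) (β j) (-y) τ := by
    intro τ
    constructor
    · rintro ⟨t, ht⟩
      exact ⟨t.1, (hCr t.1 τ).2 ⟨t.2, ht⟩⟩
    · rintro ⟨j, hj⟩
      obtain ⟨i, hi⟩ := (hCr j τ).1 hj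
      exact ⟨toLex ⟨j, i⟩, hi⟩
  have hPex : M.P (fun τ => ∃ t, K t τ) = M.P (fun τ => ∃ j, Cr Q.b c r w w₁ ℓ (α j) (β j) (-y) τ) :=
    le_antisymm (M.P_mono fun τ _ h => (hex τ).1 h) (M.P_mono fun τ _ h => (hex τ).2 h)
  -- (1) the low travels
  have E1 : M.E (fun τ => ∑ t, if Fst K t τ then lo t τ else 0) ≤
      Fm M c D n * ∑ j, M.P (Cr Q.b c r w w₁ ℓ (α j) (β j) (-y)) := by
    have g1 : M.E (fun τ => ∑ t, if Fst K t τ then lo t τ else 0) ≤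
        M.E (fun τ => ∑ j, ∑ i, if Fst (fun i => Kc Q.b c w ℓ (α j) (β j) (-y) (x j i) (v j i)) i τ
          then max (Tc Q.b c τ 0 (x j i) - lv c (x j i - 0)) 0 else 0) := by
      refine M.E_mono fun τ _ => ?_
      have g2 : (∑ t, if Fst K t τ then lo t τ else 0) =
          ∑ j, ∑ i : Fin (m j), if Fst K (toLex ⟨j, i⟩) τ then lo (toLex ⟨j, i⟩) τ else 0 :=
        Fintype.sum_sigma (fun t : (Σ j : Fin J, Fin (m j)) => if Fst K (toLex t) τ then lo (toLex t) τ else 0)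
      rw [g2]
      refine sum_le_sum fun j _ => sum_le_sum fun i _ => ?_
      by_cases hF : Fst K (toLex ⟨j, i⟩) τ
      · have hF' : Fst (fun i => Kc Q.b c w ℓ (α j) (β j) (-y) (x j i) (v j i)) i τ := by
          refine ⟨hF.1, fun i' hi' => ?_⟩
          exact hF.2 (toLex ⟨j, i'⟩) (Sigma.Lex.right _ _ hi')
        rw [if_pos hF, if_pos hF']
        exact le_rfl
      · rw [if_neg hF]
        split_ifs
        · exact le_max_right _ _
        · exact le_rfl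
    refine g1.trans ?_
    rw [M.E_sum, mul_sum]
    refine sum_le_sum fun j _ => ?_
    have g3 := trav_low (R := R) (n := α j + 2 * c.C) (X := 0) hM hD (h1 j) (h2 j) (h3 j) (w := w) (e := -y)
      (fun i => ?_) hr (LuckF_R hr hℓ (hnum j) (hHb j) hHR)
    · exact g3.trans (mul_le_mul_of_nonneg_right (Fm_mono M c hD0 (hmid j).2.2) (M.P_nonneg _))
    · obtain ⟨⟨a1, a2, a3⟩, -⟩ := h1 j i
      have a4 := abs_le.1 a3
      have a5 : lv c (x j i) = c.p (x j i) + c.q (x j i) := rfl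
      obtain ⟨b1, b2, b3⟩ := hmid j
      have b4 := (hnum j).1
      rw [sub_zero]
      refine ⟨Md_of hD (by linarith) (by linarith) (by linarith) (by linarith), by linarith, a2⟩
  -- (2) the high travels
  have E2 : M.E (fun τ => ∑ t, if Fst K t τ then up t τ else 0) ≤
      Fm M c D n' * M.P (fun τ => ∃ t, K t τ) := by
    refine sel_le hM K (fun t => Eb c (α t.1) (β t.1) w ℓ (lv c (x t.1 t.2)))
      (fun t => edg (Dc c (v t.1 t.2) (Yf (v t.1 t.2)))) up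
      (fun t => Kc_dep Q.b c w ℓ (α t.1) (β t.1) (-y) (x t.1 t.2) (v t.1 t.2)) (fun t => ?_) (fun t s hst => ?_)
      (fun t e he => ?_) (fun t => ?_)
    · intro τ τ' hτ
      have e2 : Tc Q.b c τ (v t.1 t.2) (Yf (v t.1 t.2)) = Tc Q.b c τ' (v t.1 t.2) (Yf (v t.1 t.2)) :=
        Tc_dep Q.b c (v t.1 t.2) (Yf (v t.1 t.2)) hτ
      simp only [up]
      rw [e2]
    · refine Eb_disj_up fun z hz => ?_
      have h4 := (Dc_lv hz).1
      linarith [(hvl t.1 t.2).1, hαle s t hst]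
    · rcases he with he | he
      · exact ((hEb t.1 t.2 e he).2).trans (by linarith)
      · exact ((hDup t.1 t.2 he).2).trans (by linarith)
    · have g1 : M.E (up t) = Sc M c (Yf (v t.1 t.2) - v t.1 t.2) := E_exc hM c _ _
      rw [g1]
      have g2 := Sc_le_Fm M c hD0 (hYv t.1 t.2).1 (hYl0 t.1 t.2) (hYv t.1 t.2).2.2
      linarith
  -- (3) the gain
  have E3 : M.E (fun τ => ∑ t, if Fst K t τ then (1 : ℝ) else 0) = M.P (fun τ => ∃ t, K t τ) := by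
    rw [M.E_sum, ← sum_P_Fst M K]
    rfl
  -- (4) the default
  have E4 : M.E (fun τ => if Non K τ then Ad τ else 0) =
      M.E (fun τ => if ∃ j, Cr Q.b c r w w₁ ℓ (α j) (β j) (-y) τ then 0 else Ad τ) := by
    refine M.E_congr fun τ _ => ?_
    by_cases hτ : ∃ t, K t τ
    · rw [if_neg fun hN : Non K τ => hτ.elim fun t ht => hN t ht, if_pos ((hex τ).1 hτ)]
    · have hN : Non K τ := fun t ht => hτ ⟨t, ht⟩
      rw [if_pos hN, if_neg fun h => hτ ((hex τ).2 h)]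
  have E5 : M.E (fun τ => (∑ t, if Fst K t τ then lo t τ + -y + up t τ else 0) + if Non K τ then Ad τ else 0) =
      M.E (fun τ => ∑ t, if Fst K t τ then lo t τ else 0) + -y * M.E (fun τ => ∑ t, if Fst K t τ then (1 : ℝ) else 0) +
        M.E (fun τ => ∑ t, if Fst K t τ then up t τ else 0) + M.E (fun τ => if Non K τ then Ad τ else 0) := by
    rw [← M.E_mul_left, ← M.E_add, ← M.E_add, ← M.E_add]
    refine M.E_congr fun τ _ => ?_
    congr 1
    rw [mul_sum, ← sum_add_distrib, ← sum_add_distrib]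
    refine sum_congr rfl fun t _ => ?_
    by_cases hF : Fst K t τ
    · simp only [if_pos hF]
      ring
    · simp only [if_neg hF]
      ring
  have key' : -1 ≤ M.E (fun τ => (∑ t, if Fst K t τ then lo t τ + -y + up t τ else 0) +
    if Non K τ then Ad τ else 0) := key
  rw [E5, E3, E4] at key'
  rw [hPex] at key' E2
  have hfin : (Fm M c D n' - y) * M.P (fun τ => ∃ j, Cr Q.b c r w w₁ ℓ (α j) (β j) (-y) τ) =
      Fm M c D n' * M.P (fun τ => ∃ j, Cr Q.b c r w w₁ ℓ (α j) (β j) (-y) τ) +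
        -y * M.P (fun τ => ∃ j, Cr Q.b c r w w₁ ℓ (α j) (β j) (-y) τ) := by ring
  rw [hfin]
  linarith

end Pool.Agent.W_1b8d5d_fe
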