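import Pool.Agent.W_1b8d5d_fe.LuckF

/-!
MP_1b8d5d_pr (FE): small lucks at a good scale ((5.2) of row 596).
-/

set_option autoImplicit false

namespace Pool.Agent.W_1b8d5d_fe

open Finset Pool.Agent.W_1b8d5d_h85

/-! ### Numbers -/

/-- Large powers. -/
private theorem LuckS_pow (X : ℝ) {γ : ℝ} (hγ : 0 < γ) : ∃ C : ℝ, 1 ≤ C ∧ ∀ s, C ≤ s → X ≤ s ^ γ := by
  have h1 := (tendsto_rpow_atTop hγ).eventually (Filter.eventually_ge_atTop X)
  obtain ⟨A, hA⟩ := Filter.eventually_atTop.1 h1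
  exact ⟨max A 1, le_max_right _ _, fun s hs => hA s ((le_max_left _ _).trans hs)⟩

/-- Small powers. -/
private theorem LuckS_small {γ η B : ℝ} (hγ : 0 < γ) (hη : 0 < η) (hB : 0 < B) : ∃ x : ℝ, 0 < x ∧ x ≤ B ∧ (2 * x) ^ γ ≤ η := by
  have h0 : 0 < η ^ (1 / γ) := Real.rpow_pos_of_pos hη _
  refine ⟨min B (η ^ (1 / γ) / 2), lt_min hB (by positivity), min_le_left _ _, ?_⟩
  have h1 : 2 * min B (η ^ (1 / γ) / 2) ≤ η ^ (1 / γ) := by
    have := min_le_right B (η ^ (1 / γ) / 2)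
    linarith
  have h2 : 0 ≤ 2 * min B (η ^ (1 / γ) / 2) := by
    have := (lt_min hB (by positivity : 0 < η ^ (1 / γ) / 2)).le
    linarith
  refine (Real.rpow_le_rpow h2 h1 hγ.le).trans ?_
  rw [← Real.rpow_mul hη.le, one_div, inv_mul_cancel₀ hγ.ne', Real.rpow_one]

/-- The exponential bound. -/
private theorem LuckS_exp {ρ Λ : ℝ} {J : ℕ} (hρ1 : ρ ≤ 1) (hJ : Λ ≤ J * ρ) : (1 - ρ) ^ J ≤ Real.exp (-Λ) := by
  have h1 : 1 - ρ ≤ Real.exp (-ρ) := by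
    have := Real.add_one_le_exp (-ρ)
    linarith
  refine (pow_le_pow_left₀ (by linarith) h1 J).trans ?_
  rw [← Real.exp_nat_mul]
  apply Real.exp_le_exp.2
  have : (J : ℝ) * -ρ = -(J * ρ) := by ring
  rw [this]
  linarith

/-- A large `Λ`. -/
private theorem LuckS_Lam {η : ℝ} (hη : 0 < η) : ∃ Λ : ℝ, 1 ≤ Λ ∧ Real.exp (-Λ) ≤ η ∧ Real.exp (-Λ) ≤ 1 / 2 := by
  refine ⟨max 1 (-Real.log η), le_max_left _ _, ?_, ?_⟩
  · have h1 : -max 1 (-Real.log η) ≤ Real.log η := by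
      have := le_max_right 1 (-Real.log η)
      linarith
    calc Real.exp (-max 1 (-Real.log η)) ≤ Real.exp (Real.log η) := Real.exp_le_exp.2 h1
      _ = η := Real.exp_log hη
  · have h1 : Real.exp (-max 1 (-Real.log η)) ≤ Real.exp (-1) := by
      apply Real.exp_le_exp.2
      have := le_max_left 1 (-Real.log η)
      linarith
    have h2 : 2 ≤ Real.exp 1 := by
      have := Real.add_one_le_exp (1 : ℝ)
      linarith
    have h3 : Real.exp (-1) = (Real.exp 1)⁻¹ := Real.exp_neg 1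
    rw [h3] at h1
    refine h1.trans ?_
    rw [one_div]
    exact inv_anti₀ (by norm_num) h2

/-! ### The points of the default path -/

section geo

variable {c : Crd}

private theorem LuckS_pt (c : Crd) (t : ℝ) : |c.p (c.rd (t / 2) (t / 2)) - t / 2| ≤ c.C ∧
    |c.q (c.rd (t / 2) (t / 2)) - t / 2| ≤ c.C ∧ |lv c (c.rd (t / 2) (t / 2)) - t| ≤ 2 * c.C := by
  refine ⟨c.rd_p _ _, c.rd_q _ _, ?_⟩
  have h := lv_rd c (t / 2) (t / 2)
  rwa [add_halves] at h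

private theorem LuckS_v0 {D : ℝ} (hD : 3 ≤ D) {t : ℝ} (ht : 2 * c.C ≤ t) : c.rd (t / 2) (t / 2) ∈ Md c D ∧
    c.rd (t / 2) (t / 2) ∈ Wc c := by
  obtain ⟨h1, h2, h3⟩ := LuckS_pt c t
  have h1' := abs_le.1 h1
  have h2' := abs_le.1 h2
  have h3' := abs_le.1 h3
  have hC := c.one_le
  exact ⟨Md_of hD (by linarith) (by linarith) (by linarith) (by linarith), Wc_of_nonneg (by linarith) (by linarith)⟩

private theorem LuckS_step {D : ℝ} (hD : 3 ≤ D) {t t' : ℝ} (ht : 4 * c.C ≤ t' - t) :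
    (c.rd (t' / 2) (t' / 2) - c.rd (t / 2) (t / 2) ∈ Md c D) ∧
    0 ≤ lv c (c.rd (t' / 2) (t' / 2) - c.rd (t / 2) (t / 2)) ∧
    lv c (c.rd (t' / 2) (t' / 2) - c.rd (t / 2) (t / 2)) ≤ t' - t + 4 * c.C := by
  obtain ⟨h1, h2, h3⟩ := LuckS_pt c t
  obtain ⟨g1, g2, g3⟩ := LuckS_pt c t'
  have h1' := abs_le.1 h1
  have h2' := abs_le.1 h2
  have h3' := abs_le.1 h3
  have g1' := abs_le.1 g1
  have g2' := abs_le.1 g2
  have g3' := abs_le.1 g3
  have hC := c.one_le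
  rw [lv_sub]
  refine ⟨Md_of hD ?_ ?_ ?_ ?_, by linarith, by linarith⟩
  · rw [map_sub]
    linarith
  · rw [map_sub]
    linarith
  · rw [lv_sub, map_sub]
    linarith
  · rw [lv_sub, map_sub]
    linarith

/-- The default path. -/
private theorem LuckS_chain {a b : ℝ} {τ : Env} (ha : 0 ≤ a) (hτ : Bd a b τ) (c : Crd) (v : ℕ → V) (n : ℕ) :
    T τ 0 (v n) - lv c (v n) ≤ max (Tc b c τ 0 (v 0) - lv c (v 0)) 0 +
      ∑ k ∈ range n, max (Tc b c τ (v k) (v (k + 1)) - lv c (v (k + 1) - v k)) 0 := by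
  induction n with
  | zero =>
    rw [range_zero, sum_empty, add_zero]
    exact (sub_le_sub_right (T_le_Tc ha hτ c 0 (v 0)) _).trans (le_max_left _ _)
  | succ n ih =>
    rw [sum_range_succ]
    have h1 := T_triangle hτ ha 0 (v n) (v (n + 1))
    have h2 := T_le_Tc ha hτ c (v n) (v (n + 1))
    have h3 := le_max_left (Tc b c τ (v n) (v (n + 1)) - lv c (v (n + 1) - v n)) 0
    rw [lv_sub] at h3 ⊢
    linarith

/-- `Fm` at the level `0`. -/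
private theorem LuckS_Fm0 {a b : ℝ} (ha : 0 ≤ a) (hab : a ≤ b) (M : Mdl a b) (c : Crd) {D : ℝ} (hD : 3 ≤ D) :
    Fm M c D 0 ≤ 1 + b * (c.C * (4 * ((4 * D + 8) * c.C))) := by
  have hC := c.one_le
  have hDC : 0 ≤ (4 * D + 8) * c.C := mul_nonneg (by linarith) (by linarith)
  refine Fm_le M c (mul_nonneg (ha.trans hab) (mul_nonneg (by linarith) (by linarith))) ?_
  intro y hy h0 h1
  have hl : lv c y = 0 := le_antisymm h1 h0
  have hnm : nm y ≤ c.C * (4 * ((4 * D + 8) * c.C)) := by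
    refine (c.nm_le y).trans (mul_le_mul_of_nonneg_left ?_ (by linarith))
    obtain ⟨h2, h3⟩ := hy
    rw [hl] at h2 h3
    have hpq : c.p y + c.q y = 0 := hl
    have hp : -((4 * D + 8) * c.C) ≤ c.p y := by
      by_contra hcon
      push Not at hcon
      have h4 : c.p y ≤ 0 := by linarith
      have h5 : D * c.p y ≤ 1 * c.p y := mul_le_mul_of_nonpos_right (by linarith) h4
      linarith
    have hq : -((4 * D + 8) * c.C) ≤ c.q y := by
      by_contra hcon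
      push Not at hcon
      have h4 : c.q y ≤ 0 := by linarith
      have h5 : D * c.q y ≤ 1 * c.q y := mul_le_mul_of_nonpos_right (by linarith) h4
      linarith
    have h6 : |c.p y| ≤ 2 * ((4 * D + 8) * c.C) := by
      rw [abs_le]
      constructor <;> linarith
    have h7 : |c.q y| ≤ 2 * ((4 * D + 8) * c.C) := by
      rw [abs_le]
      constructor <;> linarith
    linarith
  have h8 : Sc M c y ≤ b * nm y := by
    refine M.E_le_of_le fun τ hτ => ?_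
    have h9 := Tc_upper ha hab hτ c 0 y
    rw [sub_zero] at h9
    rw [hl]
    refine max_le (by linarith) (mul_nonneg (ha.trans hab) (nm_nonneg y))
  exact h8.trans (mul_le_mul_of_nonneg_left hnm (ha.trans hab))

end geo

/-! ### The mean of the default cost -/

open Classical in
/-- Independence of the decision and of one step of the default path. -/
private theorem LuckS_ind {Q : Par} {g : V → ℝ} {R : ℝ} {M : Mdl Q.a Q.b} (hM : Good Q g R M) {c : Crd}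
    {r w w₁ ℓ e : ℝ} {J : ℕ} (α β : Fin J → ℝ) {x y : V}
    (hd : ∀ j, Disjoint (Eb c (α j) (β j) w ℓ (α j - r)) (edg (Dc c x y)))
    (hR : ∀ j, ∀ d ∈ Eb c (α j) (β j) w ℓ (α j - r), nm d.1 ≤ R)
    (hR' : ∀ d ∈ edg (Dc c x y), nm d.1 ≤ R) :
    M.E (fun τ => (if ∃ j, Cr Q.b c r w w₁ ℓ (α j) (β j) e τ then (0 : ℝ) else 1) *
      max (Tc Q.b c τ x y - lv c (y - x)) 0) =
      M.P (fun τ => ∀ j, ¬ Cr Q.b c r w w₁ ℓ (α j) (β j) e τ) * Sc M c (y - x) := by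
  have h1 := hM.indep (⋃ j, Eb c (α j) (β j) w ℓ (α j - r)) (edg (Dc c x y)) (by
      rw [Set.disjoint_iUnion_left]
      exact hd) (by
      rintro d (hd' | hd')
      · obtain ⟨j, hj⟩ := Set.mem_iUnion.1 hd'
        exact hR j d hj
      · exact hR' d hd')
    (fun τ => if ∃ j, Cr Q.b c r w w₁ ℓ (α j) (β j) e τ then (0 : ℝ) else 1)
    (fun τ => max (Tc Q.b c τ x y - lv c (y - x)) 0)
    (by
      intro τ τ' h
      have h2 : ∀ j, Cr Q.b c r w w₁ ℓ (α j) (β j) e τ = Cr Q.b c r w w₁ ℓ (α j) (β j) e τ' := fun j =>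
        Cr_dep Q.b c r w w₁ ℓ (α j) (β j) e fun d hd => h d (Set.mem_iUnion.2 ⟨j, hd⟩)
      simp only [h2])
    (by
      intro τ τ' h
      have h2 := Tc_dep Q.b c x y h
      simp only at h2
      simp only [h2])
  rw [h1, E_exc hM, M.P_def]
  congr 2
  funext τ
  by_cases h : ∃ j, Cr Q.b c r w w₁ ℓ (α j) (β j) e τ
  · rw [if_pos h, if_neg]
    push Not
    exact h
  · rw [if_neg h, if_pos]
    push Not at h
    exact h

open Classical in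
/-- The mean of the default cost. -/
private theorem LuckS_E {Q : Par} {g : V → ℝ} {R : ℝ} {M : Mdl Q.a Q.b} (hM : Good Q g R M) {c : Crd}
    {r w w₁ ℓ e : ℝ} {J : ℕ} (α β : Fin J → ℝ) (v : ℕ → V) (K : ℕ) {F ξ : ℝ}
    (hd : ∀ k < K, ∀ j, Disjoint (Eb c (α j) (β j) w ℓ (α j - r)) (edg (Dc c (v k) (v (k + 1)))))
    (hR : ∀ j, ∀ d ∈ Eb c (α j) (β j) w ℓ (α j - r), nm d.1 ≤ R)
    (hR' : ∀ k < K, ∀ d ∈ edg (Dc c (v k) (v (k + 1))), nm d.1 ≤ R)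
    (hF : ∀ k < K, Sc M c (v (k + 1) - v k) ≤ F)
    (hξ : M.P (fun τ => ∀ j, ¬ Cr Q.b c r w w₁ ℓ (α j) (β j) e τ) ≤ ξ) :
    M.E (fun τ => if ∃ j, Cr Q.b c r w w₁ ℓ (α j) (β j) e τ then 0 else
      (max (Tc Q.b c τ 0 (v 0) - lv c (v 0)) 0 +
        ∑ k ∈ range K, max (Tc Q.b c τ (v k) (v (k + 1)) - lv c (v (k + 1) - v k)) 0)) ≤
      Sc M c (v 0) + K * (ξ * F) := by
  have h1 : M.E (fun τ => if ∃ j, Cr Q.b c r w w₁ ℓ (α j) (β j) e τ then 0 else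
      (max (Tc Q.b c τ 0 (v 0) - lv c (v 0)) 0 +
        ∑ k ∈ range K, max (Tc Q.b c τ (v k) (v (k + 1)) - lv c (v (k + 1) - v k)) 0)) ≤
      M.E (fun τ => max (Tc Q.b c τ 0 (v 0) - lv c (v 0)) 0 + ∑ k ∈ range K,
        (if ∃ j, Cr Q.b c r w w₁ ℓ (α j) (β j) e τ then (0 : ℝ) else 1) *
          max (Tc Q.b c τ (v k) (v (k + 1)) - lv c (v (k + 1) - v k)) 0) := by
    refine M.E_mono fun τ _ => ?_
    by_cases h : ∃ j, Cr Q.b c r w w₁ ℓ (α j) (β j) e τ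
    · simp only [if_pos h, zero_mul, sum_const_zero, add_zero]
      exact le_max_right _ _
    · simp only [if_neg h, one_mul]
      exact le_rfl
  refine h1.trans ?_
  rw [M.E_add, M.E_sum]
  refine add_le_add le_rfl ?_
  have h2 : ∀ k ∈ range K, M.E (fun τ => (if ∃ j, Cr Q.b c r w w₁ ℓ (α j) (β j) e τ then (0 : ℝ) else 1) *
          max (Tc Q.b c τ (v k) (v (k + 1)) - lv c (v (k + 1) - v k)) 0) ≤ ξ * F := by
    intro k hk
    have hk' := mem_range.1 hk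
    rw [LuckS_ind hM α β (hd k hk') hR (hR' k hk')]
    exact mul_le_mul hξ (hF k hk') (Sc_nonneg M c _) ((M.P_nonneg _).trans hξ)
  refine (sum_le_sum h2).trans ?_
  rw [sum_const, card_range, nsmul_eq_mul]

/-! ### The blocks -/

/-- The blocks, sorted by their levels. -/
private theorem LuckS_blocks {Q : Par} {g : V → ℝ} {R : ℝ} {M : Mdl Q.a Q.b} (hM : Good Q g R M) (c : Crd)
    (r w w₁ ℓ α β e X Y h : ℝ) (J : ℕ) (hh : 0 ≤ h) : ∃ α' β' : Fin J → ℝ, (∀ i j, i ≤ j → α' i ≤ α' j) ∧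
      (∀ j, |α' j - X| ≤ 2 * c.C) ∧ (∀ j, Y - c.C ≤ β' j ∧ β' j ≤ Y + c.C + h * J) ∧
      (∀ i j, i ≠ j → h - 2 * c.C ≤ |β' i - β' j|) ∧
      ∀ j, M.P (Cr Q.b c r w w₁ ℓ (α' j) (β' j) e) = M.P (Cr Q.b c r w w₁ ℓ α β e) := by
  set z : Fin J → V := fun j => c.rd (X - α - (Y + h * j - β)) (Y + h * j - β) with hz
  set α₀ : Fin J → ℝ := fun j => α + lv c (z j) with hα₀
  set β₀ : Fin J → ℝ := fun j => β + c.q (z j) with hβ₀
  have hα : ∀ j, |α₀ j - X| ≤ 2 * c.C := by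
    intro j
    have h1 := lv_rd c (X - α - (Y + h * j - β)) (Y + h * j - β)
    have h2 : α₀ j - X = lv c (c.rd (X - α - (Y + h * j - β)) (Y + h * j - β)) -
        (X - α - (Y + h * j - β) + (Y + h * j - β)) := by
      rw [hα₀, hz]
      ring
    rw [h2]
    exact h1
  have hβ : ∀ j, |β₀ j - (Y + h * j)| ≤ c.C := by
    intro j
    have h1 := c.rd_q (X - α - (Y + h * j - β)) (Y + h * j - β)
    have h2 : β₀ j - (Y + h * j) = c.q (c.rd (X - α - (Y + h * j - β)) (Y + h * j - β)) - (Y + h * j - β) := by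
      rw [hβ₀, hz]
      ring
    rw [h2]
    exact h1
  have hC := c.one_le
  refine ⟨α₀ ∘ Tuple.sort α₀, β₀ ∘ Tuple.sort α₀, fun i j hij => Tuple.monotone_sort α₀ hij, fun j => hα _, ?_, ?_, ?_⟩
  · intro j
    have h1 := abs_le.1 (hβ (Tuple.sort α₀ j))
    have h2 : (((Tuple.sort α₀ j : Fin J) : ℕ) : ℝ) ≤ J := by exact_mod_cast (Tuple.sort α₀ j).2.le
    have h3 : (0 : ℝ) ≤ (((Tuple.sort α₀ j : Fin J) : ℕ) : ℝ) := Nat.cast_nonneg _
    have h4 := mul_le_mul_of_nonneg_left h2 hh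
    have h5 := mul_nonneg hh h3
    show Y - c.C ≤ β₀ (Tuple.sort α₀ j) ∧ β₀ (Tuple.sort α₀ j) ≤ Y + c.C + h * J
    constructor <;> linarith [h1.1, h1.2]
  · intro i j hij
    have hne : Tuple.sort α₀ i ≠ Tuple.sort α₀ j := fun h => hij ((Tuple.sort α₀).injective h)
    show h - 2 * c.C ≤ |β₀ (Tuple.sort α₀ i) - β₀ (Tuple.sort α₀ j)|
    generalize Tuple.sort α₀ i = i' at hne ⊢
    generalize Tuple.sort α₀ j = j' at hne ⊢
    have h1 := abs_le.1 (hβ i')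
    have h2 := abs_le.1 (hβ j')
    rcases lt_or_gt_of_ne hne with hlt | hlt
    · have h3 : ((i' : ℕ) : ℝ) + 1 ≤ (j' : ℕ) := by exact_mod_cast hlt
      have h4 := mul_le_mul_of_nonneg_left h3 hh
      have h5 := neg_abs_le (β₀ i' - β₀ j')
      linarith [h1.1, h1.2, h2.1, h2.2]
    · have h3 : ((j' : ℕ) : ℝ) + 1 ≤ (i' : ℕ) := by exact_mod_cast hlt
      have h4 := mul_le_mul_of_nonneg_left h3 hh
      have h5 := le_abs_self (β₀ i' - β₀ j')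
      linarith [h1.1, h1.2, h2.1, h2.2]
  · intro j
    exact P_Cr_sh hM c r w w₁ ℓ α β e (z (Tuple.sort α₀ j))

/-! ### The final computation -/

private theorem LuckS_final {δ F F₁ F₀ C₀ S p E S₀ : ℝ} (hδ : 0 < δ) (hF1 : F₁ * S ≤ δ / 16 * F)
    (hF0 : F₀ ≤ C₀) (hp : 1 / 2 ≤ p) (hE : E ≤ S₀ + δ / 16 * F) (hS₀ : S₀ ≤ δ / 16 * F) (hF : 4 * (1 + C₀) / δ ≤ F) (hC₀ : 1 ≤ C₀)
    (h : -1 ≤ F₁ * S + (F₀ - δ * F) * p + E) : False := by
  have h1 : 4 * (1 + C₀) ≤ δ * F := by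
    rw [div_le_iff₀ hδ] at hF
    linarith
  have h2 : (F₀ - δ * F) * p ≤ (C₀ - δ * F) * (1 / 2) := by
    have h3 : (F₀ - δ * F) * p ≤ (C₀ - δ * F) * p := mul_le_mul_of_nonneg_right (by linarith) (by linarith)
    have h4 : (C₀ - δ * F) * p ≤ (C₀ - δ * F) * (1 / 2) := mul_le_mul_of_nonpos_left hp (by linarith)
    linarith
  linarith

/-- Small lucks of thin blocks are rare.  PROOF. `F = Fm M c D s`.  Constants in this order (depending on `δ, γ, c₄, c`): `ε₁ ≤ c₄ / 2` with `2 (2 ε₁) ^ γ ≤ δ / 16`, `K = ⌈100 / ε₁⌉`, `Λ ≥ 1` with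
`K e^{-Λ} ≤ δ / 16` and `e^{-Λ} ≤ 1/2`, `c₅ ≤ ε₁ / 100` with `4 Λ (2 c₅) ^ γ ≤ δ / 16`.  Let `ρ = P (Cr .. α β (-(δ F)))` and suppose `ρ > C r / s`.  `J = ⌈Λ / ρ⌉`, `R₁ = 500 r (J + 1)`, so that `R₁ ≤ 1500 Λ r / ρ ≤ c₅ s`
for `C ≥ 1500 Λ / c₅`.  Place `J` translates (`z_j` from `c.rd`, `P_Cr_sh`) of the block at the level `R₁` and the heights `0.45 R₁ + 30 r k`, `k < J`, (both up to `2 C`; heights in `[0.45 R₁, 0.55 R₁]`, disjoint blocks as `30 r > 20 r + 4 C`), sorted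
by their levels (`Tuple.sort`).  `flat_blocks` with `n = 2 R₁`, `n' = 0`, `Yf v = v` (`0 ∈ Md`, `Wc`), `Yd = v_K`, `v_k = c.rd (t_k / 2) (t_k / 2)` with `t_0 = ε₁ s` and `t_K = R₁ + ℓ + 10 C`, equal steps
`≤ ε₁ s / 20`, `Ad = (Tc 0 v_0 - lv)⁺ + ∑_k (Tc v_k v_(k+1) - lv)⁺`.  The edges of the double cones of `v_k, v_(k+1)` have heights `≥ ε₁ s / 2 - ε₁ s / 5` (`Dc_pq`), so they are not in the blocks (heights
`≤ 0.55 R₁ + 11 r ≤ R₁ ≤ ε₁ s / 100`): by `Good.indep` `E (1_{no success} ∑_k (..)⁺) ≤ (1 - ρ) ^ J * K * F ≤ e^{-Λ} K F` (`none_blocks`, `(1 - ρ) ^ J ≤ e^{-Λ}`), and `E (Tc 0 v_0 - lv)⁺ ≤ Fm M c D (2 ε₁ s) ≤ 2 (2 ε₁) ^ γ F`.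
`Fm M c D (2 R₁) ∑_j ρ ≤ 2 (2 c₅) ^ γ F * (Λ + 1)`, `Fm M c D 0 ≤ C` (`Fm_le`, `Tc_upper`).  Together `-1 ≤ (3 / 16) δ F + C - (1/2) δ F`: contradiction for `F ≥ s ^ γ` large. -/
theorem luck_small (Q : Par) {g : V → ℝ} (hg : IsMean Q g) (c : Crd) (hl : ∀ z, lv c z ≤ g z) {D γ c₄ δ : ℝ} (hD : 3 ≤ D)
    (hγ : 0 < γ) (hγ1 : γ ≤ 1) (hc₄ : 0 < c₄) (hδ : 0 < δ) (hδ1 : δ ≤ 1) :
    ∃ C : ℝ, 1 ≤ C ∧ ∀ (s R : ℝ) (M : Mdl Q.a Q.b), C ≤ s → C * s ^ 12 ≤ R → Good Q g R M → s ^ γ ≤ Fm M c D s →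
      (∀ ρ : ℝ, 1 ≤ ρ → ρ ≤ s → Fm M c D ρ ≤ 2 * (ρ / s) ^ γ * Fm M c D s) →
      ∀ r ℓ α β : ℝ, C ≤ r → r ≤ s → c₄ * s ≤ ℓ → ℓ ≤ s →
        M.P (Cr Q.b c r (10 * r) r ℓ α β (-(δ * Fm M c D s))) ≤ C * (r / s) := by
  classical
  have ha := Q.ha
  have hab := Q.hab
  have hκ := c.one_le
  obtain ⟨κ, hκe⟩ : ∃ κ : ℝ, κ = c.C := ⟨_, rfl⟩
  rw [← hκe] at hκ
  have hD0 : 0 < D := by linarith
  -- constants
  obtain ⟨C₀, hC₀e⟩ : ∃ C₀ : ℝ, C₀ = 1 + Q.b * (c.C * (4 * ((4 * D + 8) * c.C))) := ⟨_, rfl⟩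
  have hC₀ : 1 ≤ C₀ := by
    have h1 : 0 ≤ (4 * D + 8) * c.C := mul_nonneg (by linarith) (by linarith)
    have h2 : 0 ≤ Q.b * (c.C * (4 * ((4 * D + 8) * c.C))) :=
      mul_nonneg (by linarith) (mul_nonneg (by linarith) (by linarith))
    linarith
  obtain ⟨Cp, hCp1, hCp⟩ := LuckS_pow (4 * (1 + C₀) / δ) hγ
  obtain ⟨ε₁, hε0, hε1, hε2⟩ := LuckS_small (B := min (c₄ / 2) (1 / 4)) hγ (by positivity : 0 < δ / 32)
    (lt_min (by positivity) (by norm_num))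
  have hε4 : ε₁ ≤ 1 / 4 := hε1.trans (min_le_right _ _)
  have hεc : 2 * ε₁ ≤ c₄ := by
    have := hε1.trans (min_le_left _ _)
    linarith
  obtain ⟨K, hK⟩ : ∃ K : ℕ, 100 / ε₁ ≤ K := exists_nat_ge _
  have hK0 : (0 : ℝ) < K := lt_of_lt_of_le (by positivity) hK
  have hKε : 100 ≤ K * ε₁ := by rwa [div_le_iff₀ hε0] at hK
  obtain ⟨Λ, hΛ1, hΛ2, hΛ3⟩ := LuckS_Lam (by positivity : 0 < δ / (16 * K))
  have hKΛ : K * Real.exp (-Λ) ≤ δ / 16 := by
    have h1 := mul_le_mul_of_nonneg_left hΛ2 hK0.le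
    have h2 : K * (δ / (16 * K)) = δ / 16 := by
      field_simp
    linarith
  obtain ⟨c₅, hc0, hc1, hc2⟩ := LuckS_small (B := ε₁ / 100) hγ (by positivity : 0 < δ / (64 * Λ)) (by positivity)
  obtain ⟨H₀, hH₀, hfl⟩ := flat_blocks Q hg c hl hD
  obtain ⟨Ch, hCh⟩ : ∃ Ch : ℝ, Ch = 30 * κ + H₀ := ⟨_, rfl⟩
  have hCh1 : 1 ≤ Ch := by linarith
  have x1 : 0 ≤ 1500 * Λ / c₅ := by positivity
  have x2 : 0 ≤ 8 * Ch ^ 12 := by positivity
  have x3 : 0 ≤ 4 * κ * K / ε₁ := by positivity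
  have x4 : 0 ≤ 100 * κ / ε₁ := by positivity
  obtain ⟨C, hC⟩ : ∃ C : ℝ, C = Cp + 1500 * Λ / c₅ + 8 * Ch ^ 12 + 4 * κ * K / ε₁ + 100 * κ / ε₁ + 100 * κ := ⟨_, rfl⟩
  have y0 : Cp ≤ C := by linarith
  have y1 : 1500 * Λ / c₅ ≤ C := by linarith
  have y2 : 8 * Ch ^ 12 ≤ C := by linarith
  have y3 : 4 * κ * K / ε₁ ≤ C := by linarith
  have y4 : 100 * κ / ε₁ ≤ C := by linarith
  have y5 : 100 * κ ≤ C := by linarith
  have hC1 : 1 ≤ C := by linarith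
  refine ⟨C, hC1, ?_⟩
  clear hC
  intro s R M hs hR hM hFs hrate r ℓ α β hr hrs hℓ1 hℓ2
  obtain ⟨F, hFe⟩ : ∃ F : ℝ, F = Fm M c D s := ⟨_, rfl⟩
  rw [← hFe] at hFs hrate ⊢
  have hs1 : 1 ≤ s := hC1.trans hs
  have hs0 : 0 < s := by linarith only [hs1]
  have hF0 : 0 ≤ F := (Real.rpow_nonneg hs0.le γ).trans hFs
  have hFbig : 4 * (1 + C₀) / δ ≤ F := (hCp s (y0.trans hs)).trans hFs
  have hr0 : 0 < r := by linarith only [hr, hC1]
  have hκr : 100 * κ ≤ r := y5.trans hr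
  have hκs : 100 * κ ≤ ε₁ * s := by
    have h1 := y4.trans hs
    rw [div_le_iff₀ hε0] at h1
    linarith only [h1]
  have hκK : 4 * κ * K ≤ ε₁ * s := by
    have h1 := y3.trans hs
    rw [div_le_iff₀ hε0] at h1
    linarith only [h1]
  have hεs : ε₁ * s ≤ s / 4 := by
    have := mul_le_mul_of_nonneg_right hε4 hs0.le
    linarith only [this]
  by_contra hcon
  push Not at hcon
  obtain ⟨ρ, hρe⟩ : ∃ ρ : ℝ, ρ = M.P (Cr Q.b c r (10 * r) r ℓ α β (-(δ * F))) := ⟨_, rfl⟩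
  rw [← hρe] at hcon
  have hρ1 : ρ ≤ 1 := by rw [hρe]; exact M.P_le_one _
  have hρ0 : 0 < ρ := lt_of_le_of_lt (by positivity) hcon
  have hρs : C * r < ρ * s := by
    have h1 : C * (r / s) = C * r / s := by ring
    rw [h1, div_lt_iff₀ hs0] at hcon
    exact hcon
  obtain ⟨J, hJe⟩ : ∃ J : ℕ, J = ⌈Λ / ρ⌉₊ := ⟨_, rfl⟩
  have hΛρ : 0 < Λ / ρ := by positivity
  have hJ1 : Λ ≤ J * ρ := by
    have h1 := Nat.le_ceil (Λ / ρ)
    rw [← hJe, div_le_iff₀ hρ0] at h1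
    exact h1
  have hJ2 : J * ρ ≤ Λ + ρ := by
    have h1 := (Nat.ceil_lt_add_one hΛρ.le).le
    rw [← hJe] at h1
    have h2 := mul_le_mul_of_nonneg_right h1 hρ0.le
    have h3 : (Λ / ρ + 1) * ρ = Λ + ρ := by field_simp
    linarith only [h2, h3]
  have hJ3 : (1 : ℝ) ≤ J := by
    have h1 : 0 < J := by rw [hJe]; exact Nat.ceil_pos.2 hΛρ
    exact_mod_cast h1
  obtain ⟨R₁, hR₁e⟩ : ∃ R₁ : ℝ, R₁ = 500 * r * (J + 1) := ⟨_, rfl⟩
  have hrJ : r ≤ r * J := le_mul_of_one_le_right hr0.le hJ3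
  have hR₁J : R₁ = 500 * (r * J) + 500 * r := by rw [hR₁e]; ring
  have hR₁s : R₁ ≤ c₅ * s := by
    have h1 : 1500 * Λ ≤ c₅ * C := by
      rw [div_le_iff₀ hc0] at y1
      linarith only [y1]
    have h2 : R₁ * ρ ≤ c₅ * s * ρ := by
      have h3 : R₁ * ρ = 500 * r * (J * ρ) + 500 * r * ρ := by rw [hR₁J]; ring
      have h4 : 500 * r * (J * ρ) ≤ 500 * r * (2 * Λ) := mul_le_mul_of_nonneg_left (by linarith only [hJ2, hρ1, hΛ1]) (by positivity)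
      have h5 : 500 * r * ρ ≤ 500 * r * Λ := mul_le_mul_of_nonneg_left (by linarith only [hρ1, hΛ1]) (by positivity)
      have h6 : 1500 * Λ * r ≤ c₅ * C * r := mul_le_mul_of_nonneg_right h1 hr0.le
      have h7 : c₅ * (C * r) ≤ c₅ * (ρ * s) := mul_le_mul_of_nonneg_left hρs.le hc0.le
      linarith only [h3, h4, h5, h6, h7]
    exact le_of_mul_le_mul_right h2 hρ0
  have hc₅s : c₅ * s ≤ ε₁ * s / 100 := by
    have := mul_le_mul_of_nonneg_right hc1 hs0.le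
    linarith only [this]
  -- the blocks
  obtain ⟨α', β', b1, b2, b3, b4, b5⟩ := LuckS_blocks hM c r (10 * r) r ℓ α β (-(δ * F)) R₁ (45 / 100 * R₁) (30 * r) J
    (by positivity)
  rw [← hκe] at b2 b3 b4
  have b3' : ∀ j, β' j ≤ 51 / 100 * R₁ + κ := fun j => by
    have := (b3 j).2
    linarith only [this, hR₁J, hr0]
  have b2' : ∀ j, R₁ - 2 * κ ≤ α' j ∧ α' j ≤ R₁ + 2 * κ := fun j => by
    have := abs_le.1 (b2 j)
    constructor <;> linarith only [this.1, this.2]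
  -- the default path
  obtain ⟨tK, htK⟩ : ∃ tK : ℝ, tK = R₁ + ℓ + 10 * κ := ⟨_, rfl⟩
  obtain ⟨h, hh⟩ : ∃ h : ℝ, h = (tK - ε₁ * s) / K := ⟨_, rfl⟩
  have hℓε : 2 * (ε₁ * s) ≤ ℓ := by
    have := mul_le_mul_of_nonneg_right hεc hs0.le
    linarith only [this, hℓ1]
  have hKh : K * h = tK - ε₁ * s := by rw [hh]; field_simp
  have hh1 : 4 * κ ≤ h := by
    rw [hh, le_div_iff₀ hK0]
    linarith only [hκK, htK, hℓε, hκ, hR₁J, hrJ, hr0]
  have hh2 : h ≤ ε₁ * s / 50 := by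
    rw [hh, div_le_iff₀ hK0]
    have h1 := mul_le_mul_of_nonneg_right hKε hs0.le
    have h2 : ε₁ * s / 50 * K = K * ε₁ * s / 50 := by ring
    rw [h2]
    have h3 : 0 < ε₁ * s := by positivity
    linarith only [h1, h3, htK, hR₁s, hc₅s, hℓ2, hκs, hεs]
  obtain ⟨t, ht⟩ : ∃ t : ℕ → ℝ, t = fun k : ℕ => ε₁ * s + (k : ℝ) * h := ⟨_, rfl⟩
  have ht0 : t 0 = ε₁ * s := by rw [ht]; simp
  have htKK : t K = tK := by
    rw [ht]
    show ε₁ * s + K * h = tK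
    linarith only [hKh]
  have htS : ∀ k, t (k + 1) - t k = h := by
    intro k
    rw [ht]
    show ε₁ * s + ((k + 1 : ℕ) : ℝ) * h - (ε₁ * s + k * h) = h
    push_cast
    ring
  have htlow : ∀ k, ε₁ * s ≤ t k := by
    intro k
    rw [ht]
    have h1 : 0 ≤ (k : ℝ) * h := mul_nonneg (Nat.cast_nonneg _) (by linarith only [hh1, hκ])
    show ε₁ * s ≤ ε₁ * s + k * h
    linarith only [h1]
  have htup : ∀ k ≤ K, t k ≤ tK := by
    intro k hk
    have h1 : (k : ℝ) ≤ K := by exact_mod_cast hk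
    have h2 : (k : ℝ) * h ≤ K * h := mul_le_mul_of_nonneg_right h1 (by linarith only [hh1, hκ])
    rw [ht]
    show ε₁ * s + k * h ≤ tK
    linarith only [h2, hKh]
  have htKs : tK ≤ 2 * s := by linarith only [htK, hR₁s, hc₅s, hℓ2, hκs, hεs, hs0]
  obtain ⟨v, hv⟩ : ∃ v : ℕ → V, v = fun k => c.rd (t k / 2) (t k / 2) := ⟨_, rfl⟩
  have hvk : ∀ k, v k = c.rd (t k / 2) (t k / 2) := fun k => by rw [hv]
  have hvpt : ∀ k, |c.p (v k) - t k / 2| ≤ κ ∧ |c.q (v k) - t k / 2| ≤ κ ∧ |lv c (v k) - t k| ≤ 2 * κ := by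
    intro k
    rw [hvk, hκe]
    exact LuckS_pt c (t k)
  have hvM : ∀ k, v k ∈ Md c D ∧ v k ∈ Wc c := by
    intro k
    rw [hvk]
    refine LuckS_v0 hD ?_
    rw [← hκe]
    linarith only [htlow k, hκs, hκ]
  have hvs : ∀ k, v (k + 1) - v k ∈ Md c D ∧ 0 ≤ lv c (v (k + 1) - v k) ∧ lv c (v (k + 1) - v k) ≤ h + 4 * κ := by
    intro k
    have h1 := LuckS_step (c := c) hD (t := t k) (t' := t (k + 1)) (by rw [htS, ← hκe]; exact hh1)
    rw [htS, ← hκe, ← hvk, ← hvk] at h1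
    exact h1
  have hvnm : ∀ k ≤ K, nm (v k) ≤ 3 * (κ * s) := by
    intro k hk
    obtain ⟨h1, h2, -⟩ := hvpt k
    have h1' := abs_le.1 h1
    have h2' := abs_le.1 h2
    have h3 := htup k hk
    have h4 := htlow k
    have h5 : |c.p (v k)| + |c.q (v k)| ≤ 3 * s := by
      rw [abs_of_nonneg (by linarith only [h1'.1, h4, hκs, hκ]), abs_of_nonneg (by linarith only [h2'.1, h4, hκs, hκ])]
      linarith only [h1'.2, h2'.2, h3, htKs, hκs, hεs, hκ]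
    have h6 := c.nm_le (v k)
    have h7 := mul_le_mul_of_nonneg_left h5 (by linarith only [hκ] : (0 : ℝ) ≤ κ)
    rw [← hκe] at h6
    linarith only [h6, h7]
  -- the height `H`
  obtain ⟨H, hH⟩ : ∃ H : ℝ, H = Ch * s := ⟨_, rfl⟩
  have hHs : 30 * (κ * s) + H₀ * s = H := by rw [hH, hCh]; ring
  have hκs0 : 0 ≤ κ * s := mul_nonneg (by linarith only [hκ]) hs0.le
  have hH₀s : H₀ ≤ H₀ * s := le_mul_of_one_le_right (by linarith only [hH₀]) hs1
  have hHH₀ : H₀ ≤ H := by linarith only [hHs, hκs0, hH₀s]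
  have hH30 : 30 * (κ * s) ≤ H := by linarith only [hHs, hH₀s, hH₀]
  have hH1 : 1 ≤ H := hH₀.trans hHH₀
  have hHR : 8 * H ^ 12 ≤ R := by
    refine le_trans ?_ hR
    have h1 : 8 * H ^ 12 = 8 * Ch ^ 12 * s ^ 12 := by rw [hH]; ring
    rw [h1]
    exact mul_le_mul_of_nonneg_right y2 (by positivity)
  have hHR' : H ≤ R := by
    have h1 : H ≤ H ^ 12 := by
      calc H = H ^ 1 := (pow_one H).symm
        _ ≤ H ^ 12 := pow_le_pow_right₀ hH1 (by norm_num)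
    linarith only [h1, hHR, hH1]
  have hκκs : κ * κ ≤ κ * s := mul_le_mul_of_nonneg_left (by linarith only [hκs, hεs, hκ, hs0]) (by linarith only [hκ])
  -- the ranges
  have hEbH : ∀ j, ∀ d ∈ Eb c (α' j) (β' j) (10 * r) ℓ (α' j - r), nm d.1 ≤ H := by
    intro j d hd
    have h1 := Eb_nm hd
    rw [← hκe] at h1
    have h2 := b2' j
    have h3 := b3 j
    have h4 := b3' j
    have h5 : |α' j - r| + |α' j + ℓ| + 2 * κ + |β' j| + 10 * r ≤ 5 * s := by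
      rw [abs_of_nonneg (by linarith only [h2.1, hR₁J, hrJ, hκr, hκ, hr0]),
        abs_of_nonneg (by linarith only [h2.1, hR₁J, hrJ, hκr, hκ, hr0, hℓε, hκs]),
        abs_of_nonneg (by linarith only [h3.1, hR₁J, hrJ, hκr, hκ, hr0])]
      linarith only [h2.2, h4, hR₁J, hrJ, hr0, hκr, hκ, hR₁s, hc₅s, hεs, hℓ2, hs0]
    have h6 := mul_le_mul_of_nonneg_left h5 (by linarith only [hκ] : (0 : ℝ) ≤ 2 * κ)
    linarith only [h1, h6, hH30, hκs0]
  have hDcH : ∀ k < K, ∀ z ∈ Dc c (v k) (v (k + 1)), nm z ≤ H := by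
    intro k hk z hz
    have h1 := Dc_nm hz
    have h2 := nm_add_le (z - v k) (v k)
    rw [sub_add_cancel] at h2
    have h3 := hvnm k hk.le
    have h4 := (hvs k).2.2
    have h5 : 4 * c.C * lv c (v (k + 1) - v k) ≤ 4 * κ * s := by
      rw [← hκe]
      refine mul_le_mul_of_nonneg_left ?_ (by linarith only [hκ])
      linarith only [h4, hh2, hκs, hεs, hκ, hs0]
    linarith only [h1, h2, h3, h5, hH30, hκs0]
  have hDcW : ∀ k, ∀ z ∈ Dc c (v k) (v (k + 1)), z ∈ Wc c := by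
    intro k z hz
    have h1 := Wc_add hz.1 (hvM k).2
    rwa [sub_add_cancel] at h1
  have hD0H : ∀ z ∈ Dc c 0 (v 0), nm z ≤ H ∧ z ∈ Wc c := by
    intro z hz
    have h1 := Dc_nm hz
    have h2 := hz.1
    rw [sub_zero] at h1 h2
    refine ⟨?_, h2⟩
    have h3 := abs_le.1 (hvpt 0).2.2
    rw [ht0] at h3
    rw [sub_zero, ← hκe] at h1
    have h5 : 4 * κ * lv c (v 0) ≤ 4 * κ * s := by
      refine mul_le_mul_of_nonneg_left ?_ (by linarith only [hκ])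
      linarith only [h3.2, hεs, hκs, hκ, hs0]
    linarith only [h1, h5, hH30, hκs0]
  -- disjointness
  have hdj : ∀ k < K, ∀ j, Disjoint (Eb c (α' j) (β' j) (10 * r) ℓ (α' j - r)) (edg (Dc c (v k) (v (k + 1)))) := by
    intro k hk j
    rw [Set.disjoint_left]
    intro d hd hd'
    have h1 := (abs_le.1 (Eb_vert hd).1.2.2).2
    have h2 := (abs_le.1 (Dc_pq hd'.1).2).1
    have h3 := (hvs k).2.2
    have h4 := (abs_le.1 (hvpt k).2.1).1
    have h5 := htlow k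
    rw [map_sub] at h2
    linarith only [h1, h2, h3, h4, h5, b3' j, hh2, hκs, hR₁s, hc₅s, hR₁J, hrJ, hr0, hκ, hκr]
  have hdb : ∀ i j, i ≠ j → Disjoint (Eb c (α' i) (β' i) (10 * r) ℓ (α' i - r)) (Eb c (α' j) (β' j) (10 * r) ℓ (α' j - r)) := by
    intro i j hij
    refine Eb_disj_q ?_
    have := b4 i j hij
    linarith only [this, hκr, hκ]
  -- the probability of no success
  have hnone : M.P (fun τ => ∀ j, ¬ Cr Q.b c r (10 * r) r ℓ (α' j) (β' j) (-(δ * F)) τ) ≤ Real.exp (-Λ) := by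
    refine (none_blocks hM α' β' hdb (fun j d hd => (hEbH j d hd).trans hHR') (ρ := ρ) (fun j => ?_) hρ1).trans
      (LuckS_exp hρ1 hJ1)
    rw [b5 j, hρe]
  have hex : 1 / 2 ≤ M.P (fun τ => ∃ j, Cr Q.b c r (10 * r) r ℓ (α' j) (β' j) (-(δ * F)) τ) := by
    have h1 := M.P_not (fun τ => ∃ j, Cr Q.b c r (10 * r) r ℓ (α' j) (β' j) (-(δ * F)) τ)
    have h2 : M.P (fun τ => ¬ ∃ j, Cr Q.b c r (10 * r) r ℓ (α' j) (β' j) (-(δ * F)) τ) ≤
        M.P (fun τ => ∀ j, ¬ Cr Q.b c r (10 * r) r ℓ (α' j) (β' j) (-(δ * F)) τ) :=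
      M.P_mono fun τ _ hn j hj => hn ⟨j, hj⟩
    linarith only [h1, h2, hnone, hΛ3]
  -- the mean of the default cost
  have hscale : ∀ x : ℝ, 1 ≤ x → x ≤ 1 / 2 * s → Fm M c D x ≤ 2 * (x / s) ^ γ * F := fun x h1 h2 =>
    hrate x h1 (by linarith only [h2, hs0])
  have hFstep : ∀ k < K, Sc M c (v (k + 1) - v k) ≤ F := by
    intro k _
    obtain ⟨h1, h2, h3⟩ := hvs k
    have h4 := Sc_le_Fm M c hD0 h1 h2 (n := s) (by linarith only [h3, hh2, hκs, hεs, hκ, hs0])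
    linarith only [h4, hFe]
  have hEAd := LuckS_E hM (c := c) (r := r) (w := 10 * r) (w₁ := r) (ℓ := ℓ) (e := -(δ * F)) α' β' v K (F := F)
    (ξ := Real.exp (-Λ)) hdj (fun j d hd => (hEbH j d hd).trans hHR')
    (fun k hk d hd => (hDcH k hk d.1 hd.1).trans hHR') hFstep hnone
  have hS₀ : Sc M c (v 0) ≤ δ / 16 * F := by
    have h3 := abs_le.1 (hvpt 0).2.2
    rw [ht0] at h3
    have h4 := Sc_le_Fm M c hD0 (hvM 0).1 (n := 2 * (ε₁ * s)) (by linarith only [h3.1, hκs, hκ]) (by linarith only [h3.2, hκs, hκ])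
    have h5 := hscale (2 * (ε₁ * s)) (by linarith only [hκs, hκ]) (by linarith only [hεs])
    have h6 : 2 * (ε₁ * s) / s = 2 * ε₁ := by field_simp
    rw [h6] at h5
    have h7 := mul_le_mul_of_nonneg_right hε2 hF0
    linarith only [h4, h5, h7]
  have hKF : K * (Real.exp (-Λ) * F) ≤ δ / 16 * F := by
    have := mul_le_mul_of_nonneg_right hKΛ hF0
    linarith only [this]
  -- the first term
  have hsum : ∑ j, M.P (Cr Q.b c r (10 * r) r ℓ (α' j) (β' j) (-(δ * F))) = J * ρ := by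
    rw [Finset.sum_congr rfl fun j _ => b5 j, ← hρe, sum_const, card_univ, Fintype.card_fin, nsmul_eq_mul]
  have hT1 : Fm M c D (2 * R₁) * ∑ j, M.P (Cr Q.b c r (10 * r) r ℓ (α' j) (β' j) (-(δ * F))) ≤ δ / 16 * F := by
    rw [hsum]
    have h1 := hscale (2 * R₁) (by linarith only [hR₁J, hrJ, hr, hC1]) (by linarith only [hR₁s, hc₅s, hεs, hs0])
    have h2 : (2 * R₁ / s) ^ γ ≤ (2 * c₅) ^ γ := by
      refine Real.rpow_le_rpow ?_ ?_ hγ.le
      · have h3 : 0 ≤ R₁ := by linarith only [hR₁J, hrJ, hr0]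
        positivity
      · rw [div_le_iff₀ hs0]
        linarith only [hR₁s]
    have h4 : 2 * (2 * R₁ / s) ^ γ * F ≤ 2 * (δ / (64 * Λ)) * F :=
      mul_le_mul_of_nonneg_right (by linarith only [h2, hc2]) hF0
    have h5 : Fm M c D (2 * R₁) * (J * ρ) ≤ (2 * (δ / (64 * Λ)) * F) * (2 * Λ) := by
      refine mul_le_mul (h1.trans h4) (by linarith only [hJ2, hρ1, hΛ1]) (by positivity) ?_
      positivity
    have h6 : (2 * (δ / (64 * Λ)) * F) * (2 * Λ) = δ / 16 * F := by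
      have : Λ ≠ 0 := by linarith only [hΛ1] |> fun (h : 0 < Λ) => h.ne'
      field_simp
      ring
    linarith only [h5, h6]
  -- the flat principle
  have hflat := hfl H hHH₀ R M hHR hM J α' β' r (10 * r) r ℓ (δ * F) (2 * R₁) 0 (fun v => v) (v K)
    (fun τ => max (Tc Q.b c τ 0 (v 0) - lv c (v 0)) 0 +
      ∑ k ∈ range K, max (Tc Q.b c τ (v k) (v (k + 1)) - lv c (v (k + 1) - v k)) 0)
    hr0.le (by linarith only [hℓε, hκs, hκ]) (by linarith only [hr0]) b1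
    (fun j => ⟨by linarith only [(b3 j).1, hR₁J, hrJ, hr0, hκr, hκ], by linarith only [b3' j, (b2' j).1, hR₁J, hrJ, hr0, hκr, hκ]⟩)
    (fun j => ⟨by
      rw [← hκe]
      linarith only [(b3 j).1, (b2' j).2, hR₁J, hrJ, hr0, hκr, hκ], by
      linarith only [b3' j, (b2' j).1, hR₁J, hrJ, hr0, hκr, hκ], by
      rw [← hκe]
      linarith only [(b2' j).2, hR₁J, hrJ, hr0, hκr, hκ]⟩)
    (fun j => by
      rw [abs_zero, ← hκe]
      have h1 : α' j + ℓ + 0 + 10 * κ ≤ 3 * s := by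
        linarith only [(b2' j).2, hR₁s, hc₅s, hεs, hκs, hℓ2, hs0]
      have h2 := mul_le_mul_of_nonneg_left h1 (by linarith only [hκ] : (0 : ℝ) ≤ 10 * κ)
      linarith only [h2, hH30])
    (fun j v _ _ => by
      rw [sub_self]
      exact ⟨Md_zero c hD0.le, Wc_zero c, (lv_zero c).le⟩)
    (by linarith only [hvnm K le_rfl, hH30, hκs0]) (hvM K).2
    (fun j => by
      have h1 := (abs_le.1 (hvpt K).2.2).1
      rw [htKK] at h1
      linarith only [h1, (b2' j).2, htK, hκ])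
    (by
      intro τ τ' hτ
      have h1 : Tc Q.b c τ 0 (v 0) = Tc Q.b c τ' 0 (v 0) := Tc_dep Q.b c 0 (v 0) fun d hd =>
        hτ d ⟨⟨(hD0H _ hd.1).2, (hD0H _ hd.2).2⟩, (hD0H _ hd.1).1⟩
      have h2 : ∀ k ∈ range K, Tc Q.b c τ (v k) (v (k + 1)) = Tc Q.b c τ' (v k) (v (k + 1)) := fun k hk =>
        Tc_dep Q.b c (v k) (v (k + 1)) fun d hd =>
          hτ d ⟨⟨hDcW k _ hd.1, hDcW k _ hd.2⟩, hDcH k (mem_range.1 hk) _ hd.1⟩
      show max (Tc Q.b c τ 0 (v 0) - lv c (v 0)) 0 +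
          ∑ k ∈ range K, max (Tc Q.b c τ (v k) (v (k + 1)) - lv c (v (k + 1) - v k)) 0 =
        max (Tc Q.b c τ' 0 (v 0) - lv c (v 0)) 0 +
          ∑ k ∈ range K, max (Tc Q.b c τ' (v k) (v (k + 1)) - lv c (v (k + 1) - v k)) 0
      rw [h1]
      congr 1
      exact Finset.sum_congr rfl fun k hk => by rw [h2 k hk])
    (fun τ hτ => LuckS_chain ha.le hτ c v K)
  exact LuckS_final hδ hT1 ((LuckS_Fm0 ha.le hab.le M c hD).trans hC₀e.ge) hex (hEAd.trans (add_le_add le_rfl hKF)) hS₀ hFbig hC₀ hflat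

end Pool.Agent.W_1b8d5d_fe
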