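import Pool.Agent.W_1b8d5d_fe.Bar

/-!
MP_1b8d5d_pr (FE): pieces of a geodesic between consecutive levels ((6.3) of row 596).
-/

set_option autoImplicit false

namespace Pool.Agent.W_1b8d5d_fe

open Finset Pool.Agent.W_1b8d5d_h85

private theorem Piece_pow (K : ℝ) {p q : ℝ} (h : p < q) :
    ∃ s₀ : ℝ, 1 ≤ s₀ ∧ ∀ s : ℝ, s₀ ≤ s → K * s ^ p ≤ s ^ q := by
  have h1 := (tendsto_rpow_atTop (sub_pos.2 h)).eventually_ge_atTop K
  obtain ⟨s₁, hs₁⟩ := Filter.eventually_atTop.1 h1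
  refine ⟨max s₁ 1, le_max_right _ _, fun s hs => ?_⟩
  have hs1 : 0 < s := lt_of_lt_of_le one_pos ((le_max_right _ _).trans hs)
  have h2 := hs₁ s ((le_max_left _ _).trans hs)
  calc K * s ^ p ≤ s ^ (q - p) * s ^ p :=
        mul_le_mul_of_nonneg_right h2 (Real.rpow_nonneg hs1.le _)
    _ = s ^ q := by rw [← Real.rpow_add hs1, sub_add_cancel]

/-- The thresholds. -/
private theorem Piece_s0 (C a : ℝ) {A : ℝ} (hA : 0 ≤ A) :
    ∃ s₀ : ℝ, 1 ≤ s₀ ∧ ∀ s : ℝ, s₀ ≤ s → 1 ≤ s ∧ (A * s) ^ (3 / 5 : ℝ) ≤ s ^ (4 / 5 : ℝ) / 4 ∧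
      (A * s) ^ (3 / 5 : ℝ) + 2 * C ≤ s ^ (7 / 10 : ℝ) ∧
      2 * C / a * s ^ (4 / 5 : ℝ) ≤ s ^ (9 / 10 : ℝ) ∧ 2 * C ≤ s ^ (9 / 10 : ℝ) ∧
      s ^ (4 / 5 : ℝ) ≤ s := by
  obtain ⟨s1, h1, H1⟩ := Piece_pow (4 * A ^ (3 / 5 : ℝ)) (p := 3 / 5) (q := 4 / 5) (by norm_num)
  obtain ⟨s2, h2, H2⟩ := Piece_pow (2 * A ^ (3 / 5 : ℝ)) (p := 3 / 5) (q := 7 / 10) (by norm_num)
  obtain ⟨s3, h3, H3⟩ := Piece_pow (4 * C) (p := 0) (q := 7 / 10) (by norm_num)
  obtain ⟨s4, h4, H4⟩ := Piece_pow (2 * C / a) (p := 4 / 5) (q := 9 / 10) (by norm_num)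
  obtain ⟨s5, h5, H5⟩ := Piece_pow (2 * C) (p := 0) (q := 9 / 10) (by norm_num)
  refine ⟨max (max (max s1 s2) (max s3 s4)) s5, h5.trans (le_max_right _ _), fun s hs => ?_⟩
  have e5 : s5 ≤ s := (le_max_right _ _).trans hs
  have e1234 : max (max s1 s2) (max s3 s4) ≤ s := (le_max_left _ _).trans hs
  have e12 : max s1 s2 ≤ s := (le_max_left _ _).trans e1234
  have e34 : max s3 s4 ≤ s := (le_max_right _ _).trans e1234
  have g1 := H1 s ((le_max_left _ _).trans e12)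
  have g2 := H2 s ((le_max_right _ _).trans e12)
  have g3 := H3 s ((le_max_left _ _).trans e34)
  have g4 := H4 s ((le_max_right _ _).trans e34)
  have g5 := H5 s e5
  have hs1 : 1 ≤ s := h5.trans e5
  rw [Real.rpow_zero, mul_one] at g3 g5
  have hm : (A * s) ^ (3 / 5 : ℝ) = A ^ (3 / 5 : ℝ) * s ^ (3 / 5 : ℝ) :=
    Real.mul_rpow hA (by linarith)
  rw [hm]
  refine ⟨hs1, by linarith, by linarith, g4, g5, ?_⟩
  calc s ^ (4 / 5 : ℝ) ≤ s ^ (1 : ℝ) := Real.rpow_le_rpow_of_exponent_le hs1 (by norm_num)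
    _ = s := Real.rpow_one s

/-- The lower bound of `T` from `Ov`. -/
private theorem Piece_ov {g : V → ℝ} {A s L : ℝ} {τ : Env} (hs : 0 ≤ s) (hA : 1 ≤ A)
    (hO : Ov g L s τ) {x y : V} (hx : nm x ≤ L) (hy : nm y ≤ L) (hxy : nm (y - x) ≤ A * s) :
    g (y - x) - (A * s) ^ (3 / 5 : ℝ) ≤ T τ x y := by
  have h1 := (abs_le.1 (hO x y hx hy)).1
  have h2 : max s (nm (y - x)) ≤ A * s := max_le (by nlinarith) hxy
  have h3 : max s (nm (y - x)) ^ (3 / 5 : ℝ) ≤ (A * s) ^ (3 / 5 : ℝ) :=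
    Real.rpow_le_rpow (hs.trans (le_max_left _ _)) h2 (by norm_num)
  linarith

/-- The common part: the vertex `x'` of minimal level of the geodesic. -/
private theorem Piece_core {Q : Par} {g : V → ℝ} (c : Crd) (hl : ∀ z, lv c z ≤ g z)
    {A s r ℓ L : ℝ} {τ : Env} (hA : 1 + 2 * c.C / Q.a ≤ A) (hs1 : 1 ≤ s)
    (t1 : (A * s) ^ (3 / 5 : ℝ) ≤ s ^ (4 / 5 : ℝ) / 4)
    (t3 : 2 * c.C / Q.a * s ^ (4 / 5 : ℝ) ≤ s ^ (9 / 10 : ℝ)) (t5 : s ^ (4 / 5 : ℝ) ≤ s)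
    (hr : s ^ (9 / 10 : ℝ) ≤ r) (hℓ : ℓ ≤ s) (hτ : Bd Q.a Q.b τ) (hO : Ov g L s τ) {α β e : ℝ}
    {x y : V} {w : grid.Walk x y} (hw : IsGeo τ w) (hL : nm x + A * s ≤ L)
    (hx1 : α ≤ lv c x) (hx2 : lv c x ≤ α + 2 * c.C) (hx3 : |c.q x - β| ≤ r)
    (hy1 : α + ℓ ≤ lv c y) (he : e ≤ s ^ (4 / 5 : ℝ) / 4) (hT : T τ x y ≤ ℓ - 2 * c.C + e) :
    (∀ j, nm (w.getVert j - x) ≤ 2 * s / Q.a) ∧ (∀ j, nm (w.getVert j) ≤ L) ∧
      ∃ i ≤ w.length, (∀ j ≤ w.length, lv c (w.getVert i) ≤ lv c (w.getVert j)) ∧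
        α - r ≤ lv c (w.getVert i) ∧ lv c (w.getVert i) ≤ α + 2 * c.C ∧
        |c.q (w.getVert i) - β| ≤ 2 * r ∧
        T τ (w.getVert i) y ≤ lv c (y - w.getVert i) + e := by
  have ha := Q.ha
  have hC := c.one_le
  have hA1 : 1 ≤ A := by
    have : 0 ≤ 2 * c.C / Q.a := by positivity
    linarith
  have h2a : 2 * s / Q.a ≤ A * s := by
    have h1 : 2 * s / Q.a ≤ 2 * c.C / Q.a * s := by
      rw [div_mul_eq_mul_div]
      exact div_le_div_of_nonneg_right (by nlinarith) ha.le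
    nlinarith
  have hTs : T τ x y ≤ 2 * s := by linarith
  have hz : ∀ j, nm (w.getVert j - x) ≤ 2 * s / Q.a := by
    intro j
    have h1 := geo_add hτ ha.le hw j
    have h2 := T_nonneg hτ ha.le (w.getVert j) y
    have h3 := T_lower hτ ha.le x (w.getVert j)
    rw [le_div_iff₀ ha]
    linarith
  have hLz : ∀ j, nm (w.getVert j) ≤ L := by
    intro j
    have h1 := nm_add_le (w.getVert j - x) x
    rw [sub_add_cancel] at h1
    have h2 := hz j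
    linarith
  refine ⟨hz, hLz, ?_⟩
  obtain ⟨i, hi, hmin⟩ := Finset.exists_min_image (Finset.range (w.length + 1))
    (fun j => lv c (w.getVert j)) ⟨0, Finset.mem_range.2 (Nat.succ_pos _)⟩
  have hi' : i ≤ w.length := Nat.lt_succ_iff.1 (Finset.mem_range.1 hi)
  have hmin' : ∀ j ≤ w.length, lv c (w.getVert i) ≤ lv c (w.getVert j) := fun j hj =>
    hmin j (Finset.mem_range.2 (Nat.lt_succ_of_le hj))
  have hx' : lv c (w.getVert i) ≤ lv c x := by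
    have := hmin' 0 (Nat.zero_le _)
    rwa [w.getVert_zero] at this
  have hadd := geo_add hτ ha.le hw i
  have hTx := T_nonneg hτ ha.le x (w.getVert i)
  have hlow := T_lower hτ ha.le x (w.getVert i)
  have hlow2 := T_lower hτ ha.le (w.getVert i) y
  have hyx : nm (y - w.getVert i) ≤ A * s := by
    refine le_trans ?_ h2a
    rw [le_div_iff₀ ha]
    linarith
  have hyL : nm y ≤ L := by
    have := hLz w.length
    rwa [w.getVert_length] at this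
  have hov := Piece_ov (by linarith) hA1 hO (hLz i) hyL hyx
  have hlg := hl (y - w.getVert i)
  have hlv := lv_sub c y (w.getVert i)
  have hnm : Q.a * nm (w.getVert i - x) ≤ s ^ (4 / 5 : ℝ) / 2 := by linarith
  have hnm2 : c.C * nm (w.getVert i - x) ≤ r / 2 := by
    have h1 : c.C / Q.a * (Q.a * nm (w.getVert i - x)) ≤ c.C / Q.a * (s ^ (4 / 5 : ℝ) / 2) :=
      mul_le_mul_of_nonneg_left hnm (by positivity)
    have h2 : c.C / Q.a * (Q.a * nm (w.getVert i - x)) = c.C * nm (w.getVert i - x) := by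
      field_simp
    have h3 : c.C / Q.a * (s ^ (4 / 5 : ℝ) / 2) = (2 * c.C / Q.a * s ^ (4 / 5 : ℝ)) / 4 := by
      ring
    have h4 : 0 ≤ s ^ (9 / 10 : ℝ) := Real.rpow_nonneg (by linarith) _
    rw [h2, h3] at h1
    linarith
  have hr0 : 0 ≤ r := (Real.rpow_nonneg (by linarith) _).trans hr
  refine ⟨i, hi', hmin', ?_, by linarith, ?_, by linarith⟩
  · have h1 := abs_le.1 (lv_le_nm c (w.getVert i - x))
    rw [lv_sub] at h1
    linarith [h1.1]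
  · have h1 := abs_le.1 (c.q_le (w.getVert i - x))
    rw [map_sub] at h1
    have h2 := abs_le.1 hx3
    rw [abs_le]
    constructor <;> linarith [h1.1, h1.2, h2.1, h2.2]

/-- The end of the proof: the piece of the geodesic from `x'` to `y` is in the block. -/
private theorem Piece_fin {Q : Par} (c : Crd) {r W w₁ ℓ : ℝ} {τ : Env}
    (hτ : Bd Q.a Q.b τ) {α β e : ℝ} {x y : V} {w : grid.Walk x y} (hw : IsGeo τ w)
    (hy1 : α + ℓ ≤ lv c y) (hy2 : lv c y ≤ α + ℓ + 2 * c.C) (hy3 : |c.q y - β| ≤ w₁)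
    (hlt : ∀ j < w.length, lv c (w.getVert j) < α + ℓ) {i : ℕ} (hi : i ≤ w.length)
    (hmin : ∀ j ≤ w.length, lv c (w.getVert i) ≤ lv c (w.getVert j))
    (h1 : α - r ≤ lv c (w.getVert i)) (h2 : lv c (w.getVert i) ≤ α + 2 * c.C)
    (h3 : |c.q (w.getVert i) - β| ≤ 2 * r)
    (h4 : T τ (w.getVert i) y ≤ lv c (y - w.getVert i) + e)
    (hW : ∀ j, i ≤ j → j ≤ w.length → |c.q (w.getVert j) - β| ≤ W) :
    Cr Q.b c r W w₁ ℓ α β e τ := by
  obtain ⟨w', hw', hlen, hv, -⟩ := geo_piece hτ Q.ha.le hw hi le_rfl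
  have hyl : w.getVert w.length = y := w.getVert_length
  have key : T (res Q.b (Eb c α β W ℓ (lv c (w.getVert i))) τ) (w.getVert i) (w.getVert w.length) =
      T τ (w.getVert i) (w.getVert w.length) := by
    refine T_res_eq Q.ha.le Q.hab.le hτ hw'.2 fun d hd => ?_
    obtain ⟨m1, m2⟩ := wedges_support w' hd
    rw [SimpleGraph.Walk.mem_support_iff_exists_getVert] at m1 m2
    obtain ⟨l1, e1, b1⟩ := m1
    obtain ⟨l2, e2, b2⟩ := m2
    rw [hlen] at b1 b2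
    rw [hv l1 b1] at e1
    rw [hv l2 b2] at e2
    have c1 : i + l1 ≤ w.length := by omega
    have c2 : i + l2 ≤ w.length := by omega
    refine ⟨⟨?_, ?_⟩, ?_⟩
    · rw [← e1]
      exact ⟨hW _ (Nat.le_add_right _ _) c1, hmin _ c1⟩
    · rw [← e2]
      exact ⟨hW _ (Nat.le_add_right _ _) c2, hmin _ c2⟩
    · by_cases f1 : i + l1 < w.length
      · left
        rw [← e1]
        exact hlt _ f1
      · right
        rw [← e2]
        refine hlt _ ?_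
        by_contra f2
        have f3 : i + l1 = w.length := by omega
        have f4 : i + l2 = w.length := by omega
        rw [f3] at e1
        rw [f4, e1] at e2
        have f5 : dir d.2 = 0 := by
          have := congrArg (fun z => z - d.1) e2
          simpa using this.symm
        have f6 := nm_dir d.2
        rw [f5, nm_zero] at f6
        exact zero_ne_one f6
  rw [hyl] at key
  refine ⟨w.getVert i, y, ⟨⟨h1, h2, h3⟩, hy1, hy2, hy3⟩, ?_⟩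
  unfold Kc
  rw [key]
  exact h4

/-- The piece of a geodesic between two levels; unchanged row.  PROOF. `T x y ≤ 2 s`, so `nm (y - x) ≤ 2 s / a` and all vertices are within `A s / 4` of `x` (`geo_near`).  Let `x'` be the
LAST vertex of minimal level.  `lv x' ≤ α + 2 C`, `T x x' + T x' y = T x y` (`geo_add`), `T x' y ≥ lv (y - x') - (A s) ^ (3/5)` (`Ov`, `hl`), so
`a nm (x' - x) ≤ T x x' ≤ s ^ (4/5)`: `lv x' ≥ α - r`, `|q x' - β| ≤ 2 r`.  `T x' y ≤ T x y ≤ ℓ - 2 C + e ≤ lv (y - x') + e`.  A vertex `z` after `x'` with `|q z - β| > 10 r`: `Conf` for `u = z - x'`, `v = y - z`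
and `Ov` give `T x' y ≥ lv (y - x') + s ^ (4/5) - 2 (A s) ^ (3/5) > lv (y - x') + e`: contradiction.  So all the edges of the geodesic from `x'` to `y` (`geo_piece`) are in
`Eb c α β (10 r) ℓ (lv x')` (every edge has an end point `w_j`, `j < length`, of level `< α + ℓ`), and `T_res_eq`. -/
theorem piece_same {Q : Par} {g : V → ℝ} (hg : IsMean Q g) (c : Crd) (hl : ∀ z, lv c z ≤ g z) :
    ∃ A s₀ : ℝ, 1 ≤ A ∧ 1 ≤ s₀ ∧ ∀ (s r ℓ L : ℝ) (τ : Env), s₀ ≤ s → s ^ (9 / 10 : ℝ) ≤ r → r ≤ ℓ → ℓ ≤ s →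
      Bd Q.a Q.b τ → Ov g L s τ → Conf g c r ℓ A s → ∀ (α β e : ℝ) (x y : V) (w : grid.Walk x y), IsGeo τ w →
      nm x + A * s ≤ L → α ≤ lv c x → lv c x ≤ α + 2 * c.C → |c.q x - β| ≤ r →
      α + ℓ ≤ lv c y → lv c y ≤ α + ℓ + 2 * c.C → |c.q y - β| ≤ r →
      (∀ j < w.length, lv c (w.getVert j) < α + ℓ) → e ≤ s ^ (4 / 5 : ℝ) / 4 → T τ x y ≤ ℓ - 2 * c.C + e →
      Cr Q.b c r (10 * r) r ℓ α β e τ := by
  have ha := Q.ha
  have hC := c.one_le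
  obtain ⟨A, hA⟩ : ∃ A : ℝ, A = 1 + 2 * c.C / Q.a := ⟨_, rfl⟩
  have hp : 0 ≤ 2 * c.C / Q.a := by positivity
  have hA1 : 1 ≤ A := by linarith
  obtain ⟨s₀, hs₀, H⟩ := Piece_s0 c.C Q.a (A := A) (by linarith)
  refine ⟨A, s₀, hA1, hs₀, ?_⟩
  intro s r ℓ L τ hs hr hrℓ hℓ hτ hO hCf α β e x y w hw hL hx1 hx2 hx3 hy1 hy2 hy3 hlt he hT
  obtain ⟨hs1, t1, -, t3, t4, t5⟩ := H s hs
  obtain ⟨hz, hLz, i, hi, hmin, h1, h2, h3, h4⟩ := Piece_core c hl hA.ge hs1 t1 t3 t5 hr hℓ hτ hO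
    hw hL hx1 hx2 hx3 hy1 he hT
  refine Piece_fin c hτ hw hy1 hy2 hy3 hlt hi hmin h1 h2 h3 h4 fun j hij hj => ?_
  by_contra hcon
  push Not at hcon
  have h2a : 2 * s / Q.a ≤ A * s := by
    have h1 : 2 * s / Q.a ≤ 2 * c.C / Q.a * s := by
      rw [div_mul_eq_mul_div]
      exact div_le_div_of_nonneg_right (by nlinarith) ha.le
    nlinarith
  have hTs : T τ x y ≤ 2 * s := by linarith
  have g1 := geo_sub hτ ha.le hw hij
  have g2 := geo_add hτ ha.le hw i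
  have g3 := geo_add hτ ha.le hw j
  have g4 := T_nonneg hτ ha.le x (w.getVert i)
  have g5 := T_nonneg hτ ha.le (w.getVert j) y
  have g6 := T_nonneg hτ ha.le x (w.getVert j)
  have g7 := T_lower hτ ha.le (w.getVert i) (w.getVert j)
  have g8 := T_lower hτ ha.le (w.getVert j) y
  have hu : nm (w.getVert j - w.getVert i) ≤ A * s := by
    refine le_trans ?_ h2a
    rw [le_div_iff₀ ha]
    linarith
  have hv : nm (y - w.getVert j) ≤ A * s := by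
    refine le_trans ?_ h2a
    rw [le_div_iff₀ ha]
    linarith
  have hyL : nm y ≤ L := by
    have := hLz w.length
    rwa [w.getVert_length] at this
  have o1 := Piece_ov (by linarith) hA1 hO (hLz i) (hLz j) hu
  have o2 := Piece_ov (by linarith) hA1 hO (hLz j) hyL hv
  have huv : (w.getVert j - w.getVert i) + (y - w.getVert j) = y - w.getVert i := by abel
  have b3 := abs_le.1 h3
  have b4 := abs_le.1 hy3
  have hq1 : |c.q ((w.getVert j - w.getVert i) + (y - w.getVert j))| ≤ 3 * r := by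
    rw [huv, map_sub, abs_le]
    constructor <;> linarith [b3.1, b3.2, b4.1, b4.2]
  have hl1 : ℓ - 4 * c.C ≤ lv c ((w.getVert j - w.getVert i) + (y - w.getVert j)) := by
    rw [huv, lv_sub]
    linarith
  have hl2 : lv c ((w.getVert j - w.getVert i) + (y - w.getVert j)) ≤ ℓ + 2 * r := by
    rw [huv, lv_sub]
    linarith
  have hq2 : 8 * r < |c.q (w.getVert j - w.getVert i)| := by
    rw [map_sub]
    have k1 : |c.q (w.getVert j) - β| ≤ |c.q (w.getVert j) - c.q (w.getVert i)| +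
        |c.q (w.getVert i) - β| := abs_sub_le _ _ _
    linarith
  have hcf := hCf (w.getVert j - w.getVert i) (y - w.getVert j) hq1 hl1 hl2 hq2 hu
  rw [huv] at hcf
  have hs45 : 0 < s ^ (4 / 5 : ℝ) := Real.rpow_pos_of_pos (by linarith) _
  linarith

/-- The same without confinement: wide blocks. -/
theorem piece_any {Q : Par} {g : V → ℝ} (hg : IsMean Q g) (c : Crd) (hl : ∀ z, lv c z ≤ g z) :
    ∃ A s₀ : ℝ, 1 ≤ A ∧ 1 ≤ s₀ ∧ ∀ (s r ℓ L : ℝ) (τ : Env), s₀ ≤ s → s ^ (9 / 10 : ℝ) ≤ r → r ≤ ℓ → ℓ ≤ s →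
      Bd Q.a Q.b τ → Ov g L s τ → ∀ (α β e : ℝ) (x y : V) (w : grid.Walk x y), IsGeo τ w →
      nm x + A * s ≤ L → α ≤ lv c x → lv c x ≤ α + 2 * c.C → |c.q x - β| ≤ r →
      α + ℓ ≤ lv c y → lv c y ≤ α + ℓ + 2 * c.C →
      (∀ j < w.length, lv c (w.getVert j) < α + ℓ) → e ≤ s ^ (4 / 5 : ℝ) / 4 → T τ x y ≤ ℓ - 2 * c.C + e →
      Cr Q.b c r (A * s) (A * s) ℓ α β e τ := by
  have ha := Q.ha
  have hC := c.one_le
  obtain ⟨A, hA⟩ : ∃ A : ℝ, A = 1 + 2 * c.C / Q.a := ⟨_, rfl⟩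
  have hp : 0 ≤ 2 * c.C / Q.a := by positivity
  have hA1 : 1 ≤ A := by linarith
  obtain ⟨s₀, hs₀, H⟩ := Piece_s0 c.C Q.a (A := A) (by linarith)
  refine ⟨A, s₀, hA1, hs₀, ?_⟩
  intro s r ℓ L τ hs hr hrℓ hℓ hτ hO α β e x y w hw hL hx1 hx2 hx3 hy1 hy2 hlt he hT
  obtain ⟨hs1, t1, -, t3, t4, t5⟩ := H s hs
  obtain ⟨hz, hLz, i, hi, hmin, h1, h2, h3, h4⟩ := Piece_core c hl hA.ge hs1 t1 t3 t5 hr hℓ hτ hO
    hw hL hx1 hx2 hx3 hy1 he hT
  have hW : ∀ j, |c.q (w.getVert j) - β| ≤ A * s := by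
    intro j
    have k1 := abs_le.1 (c.q_le (w.getVert j - x))
    rw [map_sub] at k1
    have k2 := abs_le.1 hx3
    have k3 : c.C * nm (w.getVert j - x) ≤ c.C * (2 * s / Q.a) :=
      mul_le_mul_of_nonneg_left (hz j) (by linarith)
    have k4 : c.C * (2 * s / Q.a) = 2 * c.C / Q.a * s := by ring
    have k5 : A * s = s + 2 * c.C / Q.a * s := by rw [hA]; ring
    rw [abs_le]
    constructor <;> linarith [k1.1, k1.2, k2.1, k2.2]
  have hy3 : |c.q y - β| ≤ A * s := by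
    have := hW w.length
    rwa [w.getVert_length] at this
  exact Piece_fin c hτ hw hy1 hy2 hy3 hlt hi hmin h1 h2 h3 h4 fun j _ _ => hW j

/-- No big luck.  PROOF. If `T x y < ℓ` then `nm (y - x) ≤ s / a`, and `T x y ≥ lv (y - x) - (A s) ^ (3/5) ≥ ℓ - 2 C - (A s) ^ (3/5)`. -/
theorem piece_low {Q : Par} {g : V → ℝ} (hg : IsMean Q g) (c : Crd) (hl : ∀ z, lv c z ≤ g z) :
    ∃ A s₀ : ℝ, 1 ≤ A ∧ 1 ≤ s₀ ∧ ∀ (s ℓ L : ℝ) (τ : Env), s₀ ≤ s → 0 ≤ ℓ → ℓ ≤ s → Bd Q.a Q.b τ → Ov g L s τ →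
      ∀ (α : ℝ) (x y : V), nm x + A * s ≤ L → lv c x ≤ α + 2 * c.C → α + ℓ ≤ lv c y →
      ℓ - s ^ (7 / 10 : ℝ) ≤ T τ x y := by
  have ha := Q.ha
  have hC := c.one_le
  obtain ⟨A, hA⟩ : ∃ A : ℝ, A = 1 + 2 * c.C / Q.a := ⟨_, rfl⟩
  have hp : 0 ≤ 2 * c.C / Q.a := by positivity
  have hA1 : 1 ≤ A := by linarith
  obtain ⟨s₀, hs₀, H⟩ := Piece_s0 c.C Q.a (A := A) (by linarith)
  refine ⟨A, s₀, hA1, hs₀, ?_⟩
  intro s ℓ L τ hs hℓ0 hℓ hτ hO α x y hL hx hy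
  obtain ⟨hs1, -, t2, -, -, -⟩ := H s hs
  have h7 : 0 ≤ s ^ (7 / 10 : ℝ) := Real.rpow_nonneg (by linarith) _
  by_contra hcon
  push Not at hcon
  have hTs : T τ x y ≤ s := by linarith
  have h2a : s / Q.a ≤ A * s := by
    have h1 : s / Q.a ≤ 2 * c.C / Q.a * s := by
      rw [div_mul_eq_mul_div]
      exact div_le_div_of_nonneg_right (by nlinarith) ha.le
    nlinarith
  have hlow := T_lower hτ ha.le x y
  have hxy : nm (y - x) ≤ A * s := by
    refine le_trans ?_ h2a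
    rw [le_div_iff₀ ha]
    linarith
  have hAs : 0 ≤ A * s := (nm_nonneg _).trans hxy
  have hyL : nm y ≤ L := by
    have h1 := nm_add_le (y - x) x
    rw [sub_add_cancel] at h1
    linarith
  have o1 := Piece_ov (by linarith) hA1 hO (by linarith) hyL hxy
  have hlg := hl (y - x)
  rw [lv_sub] at hlg
  linarith

end Pool.Agent.W_1b8d5d_fe
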