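import Pool.Agent.W_1b8d5d_fe.Geo
import Pool.Agent.W_1b8d5d_fe.Cv

/-!
MP_1b8d5d_pr (FE): rates of convergence over the flat piece (section 1 of row 596), first part.
-/

set_option autoImplicit false

namespace Pool.Agent.W_1b8d5d_fe

open Finset Pool.Agent.W_1b8d5d_h85

private theorem Rates1_sub (x y : V) : nm (x - y) ≤ nm x + nm y := by
  rw [sub_eq_add_neg]
  refine (nm_add_le _ _).trans ?_
  rw [nm_neg]

/-- Cutting a vector at the level `α`.  PROOF. For `nm w` large take `s = nm w`, `A = 2`, a model of range `≥ 2 s ^ 2` and an environment with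
`Ov g (s ^ 2) s`; a geodesic `0 → w`, its first vertex `w₁` of level `≥ α`; three times `Ov`.  For `nm w` bounded use the straight walk. -/
theorem halve {Q : Par} {g : V → ℝ} (hg : IsMean Q g) (hM : HasModels Q g) (c : Crd) :
    ∃ C : ℝ, 1 ≤ C ∧ ∀ (w : V) (α : ℝ), 0 < α → α ≤ lv c w → ∃ w₁ : V, α ≤ lv c w₁ ∧ lv c w₁ ≤ α + 2 * c.C ∧
      nm w₁ ≤ C * nm w ∧ g w₁ + g (w - w₁) ≤ g w + C * nm w ^ (3 / 5 : ℝ) := by
  have hC := c.one_le
  have ha : 0 < Q.a := Q.ha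
  have hab : Q.a ≤ Q.b := Q.hab.le
  have hb : 0 < Q.b := lt_of_lt_of_le ha hab
  obtain ⟨s₀, hs₀, hov⟩ := P_Ov Q g 2 (1 / 2) (by norm_num)
  have hba : 1 ≤ Q.b / Q.a := by rw [le_div_iff₀ ha]; linarith
  obtain ⟨s₁, hs₁d⟩ : ∃ s₁ : ℝ, s₁ = max s₀ (Q.b / Q.a + 1) := ⟨_, rfl⟩
  have hs₁1 : 1 ≤ s₁ := by rw [hs₁d]; exact hs₀.trans (le_max_left _ _)
  refine ⟨3 * (Q.b / Q.a + 1) + 3 * Q.b * s₁, by
    have : 0 ≤ 3 * Q.b * s₁ := by positivity
    linarith, ?_⟩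
  intro w α hα hαw
  have hw0 : 0 < nm w := by
    by_contra h
    have h1 : nm w = 0 := le_antisymm (not_lt.1 h) (nm_nonneg w)
    have h2 := lv_le_nm c w
    rw [h1, mul_zero] at h2
    linarith [le_abs_self (lv c w)]
  have hw1 : 1 ≤ nm w := by
    rw [nm_eq_nat] at hw0 ⊢
    exact_mod_cast Nat.one_le_iff_ne_zero.2 (by
      intro h
      rw [h] at hw0
      norm_num at hw0)
  have h0α : lv c (0 : V) < α := by rw [lv_zero]; exact hα
  rcases lt_or_ge (nm w) s₁ with hsmall | hbig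
  · -- bounded vectors
    obtain ⟨u, hu⟩ := exists_walk (0 : V) w
    obtain ⟨i, hi, hi1, hi2, -⟩ := first_passage (lv c) (2 * c.C) (fun _ _ h => lv_adj h) α u h0α hαw
    have hn : nm (u.getVert i) ≤ nm w := by
      have h1 := nm_le_length (u.take i)
      have h2 : ((u.take i).length : ℝ) ≤ u.length := by
        have h3 := congrArg SimpleGraph.Walk.length (SimpleGraph.Walk.append_take_drop_eq u i)
        rw [SimpleGraph.Walk.length_append] at h3
        exact_mod_cast (by omega : (u.take i).length ≤ u.length)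
      rw [sub_zero] at h1 hu
      linarith
    refine ⟨u.getVert i, hi1, hi2.le, ?_, ?_⟩
    · have h1 : 1 * nm w ≤ (3 * (Q.b / Q.a + 1) + 3 * Q.b * s₁) * nm w := by
        refine mul_le_mul_of_nonneg_right ?_ hw0.le
        have : 0 ≤ 3 * Q.b * s₁ := by positivity
        linarith
      linarith
    · have h1 := hg.upp (u.getVert i)
      have h2 := hg.upp (w - u.getVert i)
      have h3 : nm (w - u.getVert i) ≤ nm w + nm (u.getVert i) := Rates1_sub _ _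
      have h4 : 0 ≤ g w := (mul_nonneg ha.le hw0.le).trans (hg.low w)
      have h5 : g (u.getVert i) + g (w - u.getVert i) ≤ 3 * Q.b * nm w := by
        have h6 := mul_le_mul_of_nonneg_left h3 hb.le
        have h7 := mul_le_mul_of_nonneg_left hn hb.le
        linarith
      have h6 : nm w ≤ s₁ * nm w ^ (3 / 5 : ℝ) := by
        calc nm w ≤ s₁ := hsmall.le
          _ = s₁ * 1 := (mul_one _).symm
          _ ≤ s₁ * nm w ^ (3 / 5 : ℝ) := mul_le_mul_of_nonneg_left (Real.one_le_rpow hw1 (by norm_num)) (by linarith)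
      have h7 : 3 * Q.b * nm w ≤ 3 * Q.b * (s₁ * nm w ^ (3 / 5 : ℝ)) := mul_le_mul_of_nonneg_left h6 (by positivity)
      have h8 : 0 ≤ 3 * (Q.b / Q.a + 1) * nm w ^ (3 / 5 : ℝ) := by positivity
      have h9 : (3 * (Q.b / Q.a + 1) + 3 * Q.b * s₁) * nm w ^ (3 / 5 : ℝ) =
          3 * (Q.b / Q.a + 1) * nm w ^ (3 / 5 : ℝ) + 3 * Q.b * (s₁ * nm w ^ (3 / 5 : ℝ)) := by ring
      rw [h9]
      linarith
  · -- large vectors
    obtain ⟨s, hs⟩ : ∃ s, s = nm w := ⟨_, rfl⟩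
    have hss₀ : s₀ ≤ s := by rw [hs]; exact (le_max_left _ _).trans (hs₁d ▸ hbig)
    have hsba : Q.b / Q.a + 1 ≤ s := by rw [hs]; exact (le_max_right _ _).trans (hs₁d ▸ hbig)
    have hs1 : 1 ≤ s := by rw [hs]; exact hw1
    obtain ⟨R, M, hR, hG⟩ := hM (max (2 * s ^ 2) s)
    have hP := hov s R M hss₀ ((le_max_left _ _).trans hR) ((le_max_right _ _).trans hR) hG
    have hP' : 0 < M.P (fun τ => Ov g (s ^ 2) s τ) := by
      have h1 := M.P_not (fun τ => Ov g (s ^ 2) s τ)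
      linarith
    obtain ⟨τ, hτ, hO⟩ := exists_of_P M hP'
    obtain ⟨u, hu⟩ := exists_geo hτ ha 0 w
    obtain ⟨i, hi, hi1, hi2, -⟩ := first_passage (lv c) (2 * c.C) (fun _ _ h => lv_adj h) α u h0α hαw
    obtain ⟨w₁, hw₁⟩ : ∃ w₁, w₁ = u.getVert i := ⟨_, rfl⟩
    have hadd := geo_add hτ ha.le hu i
    have hnear := geo_near hτ ha hu i
    rw [← hw₁] at hadd hnear hi1 hi2
    rw [sub_zero, sub_zero, ← hs] at hnear
    have hba0 : 0 ≤ Q.b / Q.a := by positivity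
    have hn1 : nm w₁ ≤ (Q.b / Q.a + 1) * s := by
      refine hnear.trans (mul_le_mul_of_nonneg_right (by linarith) (by linarith))
    have hn2 : nm (w - w₁) ≤ (Q.b / Q.a + 1) * s := by
      have h1 : nm (w - w₁) ≤ nm w + nm w₁ := Rates1_sub _ _
      rw [← hs] at h1
      linarith
    have hs2 : (Q.b / Q.a + 1) * s ≤ s ^ 2 := by
      rw [pow_two]; exact mul_le_mul_of_nonneg_right hsba (by linarith)
    have hss : s ≤ (Q.b / Q.a + 1) * s := le_mul_of_one_le_left (by linarith) (by linarith)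
    have hn0 : nm (0 : V) ≤ s ^ 2 := by rw [nm_zero]; positivity
    have hnw : nm w ≤ s ^ 2 := by rw [← hs]; exact hss.trans hs2
    have o1 := abs_le.1 (hO 0 w₁ hn0 (hn1.trans hs2))
    have o2 := abs_le.1 (hO w₁ w (hn1.trans hs2) hnw)
    have o3 := abs_le.1 (hO 0 w hn0 hnw)
    rw [sub_zero] at o1 o3
    have hX : ∀ z : ℝ, z ≤ (Q.b / Q.a + 1) * s → max s z ^ (3 / 5 : ℝ) ≤ (Q.b / Q.a + 1) * s ^ (3 / 5 : ℝ) := by
      intro z hz
      calc max s z ^ (3 / 5 : ℝ) ≤ ((Q.b / Q.a + 1) * s) ^ (3 / 5 : ℝ) :=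
            Real.rpow_le_rpow ((by linarith : 0 ≤ s).trans (le_max_left _ _)) (max_le hss hz) (by norm_num)
        _ = (Q.b / Q.a + 1) ^ (3 / 5 : ℝ) * s ^ (3 / 5 : ℝ) := Real.mul_rpow (by linarith) (by linarith)
        _ ≤ (Q.b / Q.a + 1) * s ^ (3 / 5 : ℝ) := by
            refine mul_le_mul_of_nonneg_right ?_ (by positivity)
            calc (Q.b / Q.a + 1) ^ (3 / 5 : ℝ) ≤ (Q.b / Q.a + 1) ^ (1 : ℝ) :=
                  Real.rpow_le_rpow_of_exponent_le (by linarith) (by norm_num)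
              _ = Q.b / Q.a + 1 := Real.rpow_one _
    have x1 := hX _ hn1
    have x2 := hX _ hn2
    have x3 := hX (nm w) (by rw [← hs]; exact hss)
    refine ⟨w₁, hi1, hi2.le, ?_, ?_⟩
    · rw [← hs]
      refine hn1.trans (mul_le_mul_of_nonneg_right ?_ (by linarith))
      have : 0 ≤ 3 * Q.b * s₁ := by positivity
      linarith
    · rw [← hs]
      have h8 : 0 ≤ 3 * Q.b * s₁ * s ^ (3 / 5 : ℝ) := by positivity
      have h9 : (3 * (Q.b / Q.a + 1) + 3 * Q.b * s₁) * s ^ (3 / 5 : ℝ) =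
          3 * ((Q.b / Q.a + 1) * s ^ (3 / 5 : ℝ)) + 3 * Q.b * s₁ * s ^ (3 / 5 : ℝ) := by ring
      rw [h9]
      linarith

private theorem Rates1_two : (5 / 4 : ℝ) ≤ 2 ^ (2 / 5 : ℝ) := by
  have h1 : (5 / 4 : ℝ) ^ 5 ≤ ((2 : ℝ) ^ (2 / 5 : ℝ)) ^ 5 := by
    rw [← Real.rpow_natCast ((2 : ℝ) ^ (2 / 5 : ℝ)), ← Real.rpow_mul (by norm_num)]
    have : (2 / 5 : ℝ) * ((5 : ℕ) : ℝ) = ((2 : ℕ) : ℝ) := by norm_num
    rw [this, Real.rpow_natCast]
    norm_num
  exact le_of_pow_le_pow_left₀ (by norm_num) (by positivity) h1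

private theorem Rates1_two' : (2 : ℝ) ^ (2 / 5 : ℝ) ≤ 2 := by
  calc (2 : ℝ) ^ (2 / 5 : ℝ) ≤ 2 ^ (1 : ℝ) := Real.rpow_le_rpow_of_exponent_le (by norm_num) (by norm_num)
    _ = 2 := Real.rpow_one 2

/-- `Φ = g - lv + θ q` of a vector and the norm. -/
private theorem Rates1_nm {Q : Par} {g : V → ℝ} (hg : IsMean Q g) {c : Crd} {θ ρ : ℝ} {w : V} (hθ : 0 ≤ θ)
    (hθ' : θ ≤ Q.a / (2 * c.C)) (hρ : ρ ≤ 1) (hw : 0 ≤ lv c w) (h : g w - lv c w + θ * c.q w ≤ ρ * lv c w) :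
    nm w ≤ (4 / Q.a + 1) * lv c w := by
  have hC : 0 < c.C := by linarith [c.one_le]
  have ha : 0 < Q.a := Q.ha
  have h1 := hg.low w
  have h2 := abs_le.1 (c.q_le w)
  have hn : 0 ≤ nm w := nm_nonneg w
  have h3 : θ * (c.C * nm w) ≤ Q.a / (2 * c.C) * (c.C * nm w) := mul_le_mul_of_nonneg_right hθ' (by positivity)
  have h4 : Q.a / (2 * c.C) * (c.C * nm w) = Q.a / 2 * nm w := by field_simp
  have h5 : θ * (-(c.C * nm w)) ≤ θ * c.q w := mul_le_mul_of_nonneg_left h2.1 hθ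
  have h6 : Q.a / 2 * nm w ≤ 2 * lv c w := by nlinarith
  have h7 : nm w ≤ 4 / Q.a * lv c w := by
    rw [div_mul_eq_mul_div, le_div_iff₀ ha]
    linarith
  linarith

/-- One halving. -/
private theorem Rates1_iter {Q : Par} {g : V → ℝ} (hg : IsMean Q g) {c : Crd} {Ch θ η l : ℝ} (hCh : 1 ≤ Ch)
    (hh : ∀ (w : V) (α : ℝ), 0 < α → α ≤ lv c w → ∃ w₁ : V, α ≤ lv c w₁ ∧ lv c w₁ ≤ α + 2 * c.C ∧
      nm w₁ ≤ Ch * nm w ∧ g w₁ + g (w - w₁) ≤ g w + Ch * nm w ^ (3 / 5 : ℝ))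
    (hθ : 0 ≤ θ) (hθ' : θ ≤ Q.a / (2 * c.C)) (hl : 8 * c.C ≤ l)
    (hηl : η + 8 * Ch * (4 / Q.a + 1) * l ^ (-(2 / 5) : ℝ) ≤ 1) :
    ∀ (j : ℕ) (w : V), |lv c w - 2 ^ j * l| ≤ 4 * c.C →
      g w - lv c w + θ * c.q w ≤ (η + 8 * Ch * (4 / Q.a + 1) * (2 ^ j * l) ^ (-(2 / 5) : ℝ)) * lv c w →
      ∃ w' : V, |lv c w' - l| ≤ 4 * c.C ∧
        g w' - lv c w' + θ * c.q w' ≤ (η + 8 * Ch * (4 / Q.a + 1) * l ^ (-(2 / 5) : ℝ)) * lv c w' := by
  have hC : 1 ≤ c.C := c.one_le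
  have ha : 0 < Q.a := Q.ha
  have hl0 : 0 < l := by linarith
  set N := 4 / Q.a + 1 with hN
  have hN1 : 1 ≤ N := by rw [hN]; have : 0 ≤ 4 / Q.a := by positivity
                         linarith
  intro j
  induction j with
  | zero =>
    intro w h1 h2
    rw [pow_zero, one_mul] at h1 h2
    exact ⟨w, h1, h2⟩
  | succ j ih =>
    intro w h1 h2
    set t := (2 : ℝ) ^ j * l with ht
    have ht1 : l ≤ t := by rw [ht]; exact le_mul_of_one_le_left hl0.le (one_le_pow₀ (by norm_num))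
    have ht0 : 0 < t := by linarith
    have e1 : (2 : ℝ) ^ (j + 1) * l = 2 * t := by rw [ht, pow_succ]; ring
    rw [e1] at h1 h2
    obtain ⟨h1a, h1b⟩ := abs_le.1 h1
    have hlw : t ≤ lv c w := by linarith
    have hlw0 : 0 < lv c w := by linarith
    -- the coefficient is at most one
    set u := (2 * t) ^ (-(2 / 5) : ℝ) with hu
    have hu0 : 0 < u := by positivity
    have hut : t ^ (-(2 / 5) : ℝ) = 2 ^ (2 / 5 : ℝ) * u := by
      rw [hu, Real.mul_rpow (by norm_num) ht0.le, ← mul_assoc, ← Real.rpow_add (by norm_num)]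
      norm_num
    have hul : u ≤ l ^ (-(2 / 5) : ℝ) :=
      Real.rpow_le_rpow_of_nonpos hl0 (by linarith) (by norm_num)
    have hρ : η + 8 * Ch * N * u ≤ 1 := by
      refine le_trans ?_ hηl
      have : 8 * Ch * N * u ≤ 8 * Ch * N * l ^ (-(2 / 5) : ℝ) := mul_le_mul_of_nonneg_left hul (by positivity)
      linarith
    have hnm := Rates1_nm hg hθ hθ' hρ hlw0.le h2
    obtain ⟨w₁, a1, a2, -, a4⟩ := hh w (lv c w / 2) (by linarith) (by linarith)
    set w₂ := w - w₁ with hw₂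
    have b1 : lv c w₂ = lv c w - lv c w₁ := lv_sub c _ _
    have b2 : c.q w₂ = c.q w - c.q w₁ := map_sub _ _ _
    -- the error
    have herr : Ch * nm w ^ (3 / 5 : ℝ) ≤ 2 * Ch * N * u * lv c w := by
      have f1 : nm w ^ (3 / 5 : ℝ) ≤ N * lv c w ^ (3 / 5 : ℝ) := by
        calc nm w ^ (3 / 5 : ℝ) ≤ (N * lv c w) ^ (3 / 5 : ℝ) := Real.rpow_le_rpow (nm_nonneg w) hnm (by norm_num)
          _ = N ^ (3 / 5 : ℝ) * lv c w ^ (3 / 5 : ℝ) := Real.mul_rpow (by linarith) hlw0.le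
          _ ≤ N * lv c w ^ (3 / 5 : ℝ) := by
              refine mul_le_mul_of_nonneg_right ?_ (by positivity)
              calc N ^ (3 / 5 : ℝ) ≤ N ^ (1 : ℝ) := Real.rpow_le_rpow_of_exponent_le hN1 (by norm_num)
                _ = N := Real.rpow_one N
      have f2 : lv c w ^ (3 / 5 : ℝ) = lv c w ^ (-(2 / 5) : ℝ) * lv c w := by
        conv_rhs => rw [← Real.rpow_one (lv c w), ← Real.rpow_mul hlw0.le]
        rw [← Real.rpow_add hlw0]
        norm_num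
      have f3 : lv c w ^ (-(2 / 5) : ℝ) ≤ t ^ (-(2 / 5) : ℝ) :=
        Real.rpow_le_rpow_of_nonpos ht0 hlw (by norm_num)
      have f4 : t ^ (-(2 / 5) : ℝ) ≤ 2 * u := by
        rw [hut]; exact mul_le_mul_of_nonneg_right Rates1_two' hu0.le
      calc Ch * nm w ^ (3 / 5 : ℝ) ≤ Ch * (N * ((2 * u) * lv c w)) := by
            refine mul_le_mul_of_nonneg_left (f1.trans (mul_le_mul_of_nonneg_left ?_ (by linarith))) (by linarith)
            rw [f2]
            exact mul_le_mul_of_nonneg_right (f3.trans f4) hlw0.le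
        _ = 2 * Ch * N * u * lv c w := by ring
    -- the new coefficient
    have hco : η + 8 * Ch * N * u + 2 * Ch * N * u ≤ η + 8 * Ch * N * t ^ (-(2 / 5) : ℝ) := by
      rw [hut]
      have h5 := Rates1_two
      have h6 : 5 / 4 * u ≤ 2 ^ (2 / 5 : ℝ) * u := mul_le_mul_of_nonneg_right h5 hu0.le
      have h7 : 8 * Ch * N * (5 / 4 * u) ≤ 8 * Ch * N * (2 ^ (2 / 5 : ℝ) * u) := mul_le_mul_of_nonneg_left h6 (by positivity)
      linarith
    set κ := η + 8 * Ch * N * t ^ (-(2 / 5) : ℝ) with hκ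
    have hsum : (g w₁ - lv c w₁ + θ * c.q w₁) + (g w₂ - lv c w₂ + θ * c.q w₂) ≤ κ * lv c w := by
      have g1 : (g w₁ - lv c w₁ + θ * c.q w₁) + (g w₂ - lv c w₂ + θ * c.q w₂) =
          (g w₁ + g w₂) - lv c w + θ * c.q w := by rw [b1, b2]; ring
      rw [g1]
      have g2 : (η + 8 * Ch * N * u + 2 * Ch * N * u) * lv c w ≤ κ * lv c w :=
        mul_le_mul_of_nonneg_right hco hlw0.le
      have g3 : (η + 8 * Ch * N * u + 2 * Ch * N * u) * lv c w = (η + 8 * Ch * N * u) * lv c w + 2 * Ch * N * u * lv c w := by ring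
      linarith
    have hlw₁ : |lv c w₁ - t| ≤ 4 * c.C := by rw [abs_le]; constructor <;> linarith
    have hlw₂ : |lv c w₂ - t| ≤ 4 * c.C := by rw [b1, abs_le]; constructor <;> linarith
    by_cases hcase : g w₁ - lv c w₁ + θ * c.q w₁ ≤ κ * lv c w₁
    · exact ih w₁ hlw₁ hcase
    · push Not at hcase
      refine ih w₂ hlw₂ ?_
      have g4 : κ * lv c w = κ * lv c w₁ + κ * lv c w₂ := by rw [b1]; ring
      linarith

/-- PROOF. `θ₀ = a / (2 C)` with `C = c.C`: then `g w ≤ lv w - θ q w + δ lv w` gives `(a / 2) nm w ≤ (1 + δ) lv w` (`IsMean.low`, `Crd.q_le`).  Let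
`Φ w = g w - lv w + θ q w`; `Φ w₁ + Φ (w - w₁) ≤ Φ w + C nm w ^ (3/5)` (`halve` with `α = lv w / 2`) and both halves have
level in `[lv w / 2 - 2 C, lv w / 2 + 2 C]`, so one of the halves has `Φ / lv ≤ Φ w / lv w + C nm w ^ (3/5) / lv w`.  Start with
`w⁰ = c.rd (2 ^ J l) 0`-like vector (`2 ^ J l + 2 C`, so that `p, q ≥ 0` add `C` to the coordinates) for which `Φ ≤ η lv` with `η ≤ l ^ (-2/5)` by `FlatS.upp` (`J` large, depending on
`l` and `θ₀`; `θ q w⁰ ≤ 2 C θ₀`), and halve `J` times: the levels are within `4 C` of `2 ^ (J - i) l`, the ratios `Φ / lv` are at most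
`η + C ∑ (2 ^ i l) ^ (-2/5)`; keep `nm ≤ C lv` in the induction.  So `Φ (w^J) ≤ C l ^ (3/5)`. For bounded `l` enlarge `C`. -/
theorem psi {Q : Par} {g : V → ℝ} (hg : IsMean Q g) (hM : HasModels Q g) {c : Crd} (hf : FlatS g c) :
    ∃ C θ₀ : ℝ, 1 ≤ C ∧ 0 < θ₀ ∧ ∀ θ l : ℝ, 0 ≤ θ → θ ≤ θ₀ → 1 ≤ l → ∃ w : V, |lv c w - l| ≤ C ∧ nm w ≤ C * l ∧
      g w ≤ lv c w - θ * c.q w + C * l ^ (3 / 5 : ℝ) := by
  obtain ⟨Ch, hCh, hh⟩ := halve hg hM c
  have hC : 1 ≤ c.C := c.one_le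
  have hC0 : 0 < c.C := by linarith
  have ha : 0 < Q.a := Q.ha
  set N := 4 / Q.a + 1 with hN
  have hN1 : 1 ≤ N := by
    rw [hN]
    have : 0 ≤ 4 / Q.a := by positivity
    linarith
  set B := 1 + 8 * Ch * N with hB
  have hB1 : 1 ≤ B := by rw [hB]; have : 0 ≤ 8 * Ch * N := by positivity
                         linarith
  -- threshold
  set l₁ := 8 * c.C + B ^ 3 with hl₁
  have hl₁1 : 1 ≤ l₁ := by rw [hl₁]; have : 0 ≤ B ^ 3 := by positivity
                           linarith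
  refine ⟨l₁ + 4 * c.C + 2 * N + 2 * B, Q.a / (2 * c.C), by linarith, by positivity, ?_⟩
  intro θ l hθ hθ' hl
  have hl0 : 0 < l := by linarith
  rcases lt_or_ge l l₁ with hsmall | hbig
  · refine ⟨0, ?_, ?_, ?_⟩
    · rw [lv_zero, zero_sub, abs_neg, abs_of_pos hl0]
      linarith
    · rw [nm_zero]; positivity
    · rw [hg.zero, lv_zero, map_zero, mul_zero, sub_zero, zero_add]
      positivity
  · have hB3 : 0 < B ^ 3 := by positivity
    have hl8 : 8 * c.C ≤ l := by linarith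
    have hlB : B ^ 3 ≤ l := by linarith
    set η := l ^ (-(2 / 5) : ℝ) with hη
    have hη0 : 0 < η := by positivity
    have hηB : B * η ≤ 1 := by
      have h1 : B ≤ l ^ (2 / 5 : ℝ) := by
        calc B = (B ^ 3) ^ (1 / 3 : ℝ) := by
              rw [← Real.rpow_natCast B 3, ← Real.rpow_mul (by linarith)]
              norm_num
          _ ≤ (B ^ 3) ^ (2 / 5 : ℝ) := Real.rpow_le_rpow_of_exponent_le (one_le_pow₀ hB1) (by norm_num)
          _ ≤ l ^ (2 / 5 : ℝ) := Real.rpow_le_rpow hB3.le hlB (by norm_num)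
      have h2 : l ^ (2 / 5 : ℝ) * η = 1 := by
        rw [hη, ← Real.rpow_add hl0]
        norm_num
      calc B * η ≤ l ^ (2 / 5 : ℝ) * η := mul_le_mul_of_nonneg_right h1 hη0.le
        _ = 1 := h2
    have hηl : η + 8 * Ch * N * l ^ (-(2 / 5) : ℝ) ≤ 1 := by
      have : η + 8 * Ch * N * l ^ (-(2 / 5) : ℝ) = B * η := by rw [hB, ← hη]; ring
      rw [this]; exact hηB
    -- the starting vector
    obtain ⟨N₁, hN₁⟩ := hf.upp (η / (2 * c.C)) (by positivity)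
    obtain ⟨J, hJ⟩ := exists_nat_gt (c.C * |N₁| + 5 * c.C + 4 * Q.a / η)
    have hJ2 : (J : ℝ) ≤ 2 ^ J := by exact_mod_cast (Nat.lt_two_pow_self).le
    have hJl : (2 : ℝ) ^ J ≤ 2 ^ J * l := le_mul_of_one_le_right (by positivity) hl
    set t := (2 : ℝ) ^ J * l with ht
    have htt : c.C * |N₁| + 5 * c.C + 4 * Q.a / η < t := by linarith
    have hN₁0 : 0 ≤ c.C * |N₁| := by positivity
    have haη : 0 ≤ 4 * Q.a / η := by positivity
    set w₀ := c.rd t c.C with hw₀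
    have r1 := abs_le.1 (c.rd_p t c.C)
    have r2 := abs_le.1 (c.rd_q t c.C)
    have s1 : 0 ≤ c.p w₀ := by linarith
    have s2 : 0 ≤ c.q w₀ := by linarith
    have s3 : N₁ ≤ nm w₀ := by
      have h1 := (le_abs_self _).trans (c.p_le w₀)
      have h2 : c.C * |N₁| ≤ c.C * nm w₀ := by linarith
      exact (le_abs_self _).trans (le_of_mul_le_mul_left h2 hC0)
    have s4 := hN₁ w₀ s3 s1 s2
    have s5 : lv c w₀ = c.p w₀ + c.q w₀ := rfl
    have s6 : |lv c w₀ - 2 ^ J * l| ≤ 4 * c.C := by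
      rw [← ht, s5, abs_le]; constructor <;> linarith
    have s7 : g w₀ - lv c w₀ + θ * c.q w₀ ≤ (η + 8 * Ch * N * (2 ^ J * l) ^ (-(2 / 5) : ℝ)) * lv c w₀ := by
      have h1 : nm w₀ ≤ c.C * lv c w₀ := by
        have := c.nm_le w₀
        rwa [abs_of_nonneg s1, abs_of_nonneg s2] at this
      have h2 : η / (2 * c.C) * nm w₀ ≤ η / 2 * lv c w₀ := by
        calc η / (2 * c.C) * nm w₀ ≤ η / (2 * c.C) * (c.C * lv c w₀) := mul_le_mul_of_nonneg_left h1 (by positivity)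
          _ = η / 2 * lv c w₀ := by field_simp
      have h3 : θ * c.q w₀ ≤ Q.a := by
        calc θ * c.q w₀ ≤ Q.a / (2 * c.C) * (2 * c.C) := mul_le_mul hθ' (by linarith) s2 (by positivity)
          _ = Q.a := by field_simp
      have h4 : Q.a ≤ η / 2 * lv c w₀ := by
        have h5 : 4 * Q.a / η ≤ lv c w₀ := by rw [s5]; linarith
        rw [div_le_iff₀ hη0] at h5
        nlinarith
      have h6 : 0 ≤ 8 * Ch * N * (2 ^ J * l) ^ (-(2 / 5) : ℝ) * lv c w₀ := by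
        have : 0 ≤ lv c w₀ := by rw [s5]; linarith
        positivity
      have h7 : (η + 8 * Ch * N * (2 ^ J * l) ^ (-(2 / 5) : ℝ)) * lv c w₀ =
          η / 2 * lv c w₀ + η / 2 * lv c w₀ + 8 * Ch * N * (2 ^ J * l) ^ (-(2 / 5) : ℝ) * lv c w₀ := by ring
      rw [h7]
      linarith
    obtain ⟨w, k1, k2⟩ := Rates1_iter hg hCh hh hθ hθ' hl8 hηl J w₀ s6 s7
    obtain ⟨k1a, k1b⟩ := abs_le.1 k1
    have k3 : 0 ≤ lv c w := by linarith
    have k4 : lv c w ≤ 2 * l := by linarith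
    have k5 := Rates1_nm hg hθ hθ' hηl k3 k2
    refine ⟨w, ?_, ?_, ?_⟩
    · refine k1.trans ?_
      have : 0 ≤ 2 * N + 2 * B := by linarith
      linarith
    · calc nm w ≤ N * lv c w := k5
        _ ≤ N * (2 * l) := mul_le_mul_of_nonneg_left k4 (by linarith)
        _ = 2 * N * l := by ring
        _ ≤ (l₁ + 4 * c.C + 2 * N + 2 * B) * l := mul_le_mul_of_nonneg_right (by linarith) hl0.le
    · have m1 : (η + 8 * Ch * N * l ^ (-(2 / 5) : ℝ)) * lv c w ≤ 2 * B * l ^ (3 / 5 : ℝ) := by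
        have m2 : η + 8 * Ch * N * l ^ (-(2 / 5) : ℝ) = B * η := by rw [hB, ← hη]; ring
        rw [m2]
        calc B * η * lv c w ≤ B * η * (2 * l) := mul_le_mul_of_nonneg_left k4 (by positivity)
          _ = 2 * B * (η * l) := by ring
          _ = 2 * B * l ^ (3 / 5 : ℝ) := by
              congr 1
              rw [hη]
              conv_lhs => rw [← Real.rpow_one l, ← Real.rpow_mul hl0.le, one_mul]
              rw [← Real.rpow_add hl0]
              norm_num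
      have m3 : 2 * B * l ^ (3 / 5 : ℝ) ≤ (l₁ + 4 * c.C + 2 * N + 2 * B) * l ^ (3 / 5 : ℝ) :=
        mul_le_mul_of_nonneg_right (by linarith) (by positivity)
      linarith

/-- Good vectors near the end point `v₁`.  PROOF. `psi` with `θ = l ^ (-3/10)`: `lv ≤ g` gives `θ q w ≤ C l ^ (3/5)`; `|q w| ≤ c.C nm w ≤ C l` gives the last
bound; if `q w < - ε l` then `FlatS.bar` (with `ε / C`) gives `g w ≥ lv w + c₀ nm w`, a contradiction for `l` large. -/
theorem w_one {Q : Par} {g : V → ℝ} (hg : IsMean Q g) (hM : HasModels Q g) {c : Crd} (hf : FlatS g c) :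
    ∃ C : ℝ, 1 ≤ C ∧ ∀ ε : ℝ, 0 < ε → ∃ l₀ : ℝ, 1 ≤ l₀ ∧ ∀ l : ℝ, l₀ ≤ l → ∃ w : V, |lv c w - l| ≤ C ∧
      c.q w ≤ C * l ^ (9 / 10 : ℝ) ∧ -(ε * l) ≤ c.q w ∧ g w ≤ lv c w + C * l ^ (7 / 10 : ℝ) := by
  obtain ⟨C, θ₀, hC, hθ₀, hpsi⟩ := psi hg hM hf
  have hcC : 1 ≤ c.C := c.one_le
  have hcC0 : 0 < c.C := by linarith
  have hC0 : 0 < C := by linarith
  refine ⟨C + c.C * C, by nlinarith, ?_⟩
  intro ε hε
  obtain ⟨c₀, hc₀, hbar⟩ := hf.bar (ε / C) (by positivity)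
  set X := 1 + 1 / θ₀ + 2 * c.C / c₀ + 2 * C * c.C / (c₀ * ε) with hX
  have x1 : 0 ≤ 1 / θ₀ := by positivity
  have x2 : 0 ≤ 2 * c.C / c₀ := by positivity
  have x3 : 0 ≤ 2 * C * c.C / (c₀ * ε) := by positivity
  have hX1 : 1 ≤ X := by linarith
  refine ⟨X ^ 4, one_le_pow₀ hX1, ?_⟩
  intro l hl
  have hl1 : 1 ≤ l := (one_le_pow₀ hX1).trans hl
  have hl0 : 0 < l := by linarith
  have hX4 : 0 < X ^ 4 := by positivity
  have y1 : X ≤ l ^ (3 / 10 : ℝ) := by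
    calc X = (X ^ 4) ^ (1 / 4 : ℝ) := by
          rw [← Real.rpow_natCast X 4, ← Real.rpow_mul (by linarith)]
          norm_num
      _ ≤ (X ^ 4) ^ (3 / 10 : ℝ) := Real.rpow_le_rpow_of_exponent_le (one_le_pow₀ hX1) (by norm_num)
      _ ≤ l ^ (3 / 10 : ℝ) := Real.rpow_le_rpow hX4.le hl (by norm_num)
  have y2 : X ≤ l ^ (2 / 5 : ℝ) := y1.trans (Real.rpow_le_rpow_of_exponent_le hl1 (by norm_num))
  set L := l ^ (3 / 10 : ℝ) with hL
  have hL0 : 0 < L := by positivity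
  set θ := 1 / L with hθ
  have hθ0 : 0 < θ := by positivity
  have hθL : θ * L = 1 := by rw [hθ]; field_simp
  have z1 : θ ≤ θ₀ := by
    rw [hθ, div_le_iff₀ hL0]
    have h1 : 1 / θ₀ ≤ L := by linarith
    rw [div_le_iff₀ hθ₀] at h1
    linarith
  have z2 : θ * c.C ≤ c₀ / 2 := by
    have h1 : 2 * c.C / c₀ ≤ L := by linarith
    rw [div_le_iff₀ hc₀] at h1
    rw [hθ, one_div_mul_eq_div, div_le_iff₀ hL0]
    linarith
  obtain ⟨w, w1, w2, w3⟩ := hpsi θ l hθ0.le z1 hl1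
  have hq := abs_le.1 (c.q_le w)
  have hn : 0 ≤ nm w := nm_nonneg w
  have hlow := hf.low w
  have p1 : L * l ^ (3 / 5 : ℝ) = l ^ (9 / 10 : ℝ) := by
    rw [hL, ← Real.rpow_add hl0]; norm_num
  have p2 : l = l ^ (2 / 5 : ℝ) * l ^ (3 / 5 : ℝ) := by
    rw [← Real.rpow_add hl0]; norm_num
  have p3 : θ * l = l ^ (7 / 10 : ℝ) := by
    have h1 : l = L * l ^ (7 / 10 : ℝ) := by
      rw [hL, ← Real.rpow_add hl0]; norm_num
    calc θ * l = θ * (L * l ^ (7 / 10 : ℝ)) := by rw [← h1]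
      _ = (θ * L) * l ^ (7 / 10 : ℝ) := by ring
      _ = l ^ (7 / 10 : ℝ) := by rw [hθL, one_mul]
  have p4 : l ^ (3 / 5 : ℝ) ≤ l ^ (7 / 10 : ℝ) := Real.rpow_le_rpow_of_exponent_le hl1 (by norm_num)
  refine ⟨w, ?_, ?_, ?_, ?_⟩
  · refine w1.trans ?_
    nlinarith
  · have h1 : θ * c.q w ≤ C * l ^ (3 / 5 : ℝ) := by linarith
    have h2 : L * (θ * c.q w) ≤ L * (C * l ^ (3 / 5 : ℝ)) := mul_le_mul_of_nonneg_left h1 hL0.le
    have h3 : L * (θ * c.q w) = c.q w := by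
      calc L * (θ * c.q w) = (θ * L) * c.q w := by ring
        _ = c.q w := by rw [hθL, one_mul]
    have h4 : L * (C * l ^ (3 / 5 : ℝ)) = C * l ^ (9 / 10 : ℝ) := by rw [← p1]; ring
    rw [h3, h4] at h2
    refine h2.trans (mul_le_mul_of_nonneg_right ?_ (by positivity))
    nlinarith
  · by_contra hcon
    push Not at hcon
    have h1 : ε / C * nm w ≤ max (-c.p w) (-c.q w) := by
      refine le_trans ?_ (le_max_right _ _)
      calc ε / C * nm w ≤ ε / C * (C * l) := mul_le_mul_of_nonneg_left w2 (by positivity)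
        _ = ε * l := by field_simp
        _ ≤ -c.q w := by linarith
    have h2 := hbar w h1
    have h3 : -(θ * c.q w) ≤ c₀ / 2 * nm w := by
      calc -(θ * c.q w) = θ * (-c.q w) := by ring
        _ ≤ θ * (c.C * nm w) := mul_le_mul_of_nonneg_left (by linarith) hθ0.le
        _ = (θ * c.C) * nm w := by ring
        _ ≤ c₀ / 2 * nm w := mul_le_mul_of_nonneg_right z2 hn
    have h4 : c₀ / 2 * nm w ≤ C * l ^ (3 / 5 : ℝ) := by linarith
    have h5 : ε * l < c.C * nm w := by linarith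
    have h6 : c₀ * ε * l < 2 * C * c.C * l ^ (3 / 5 : ℝ) := by
      calc c₀ * ε * l = c₀ * (ε * l) := by ring
        _ < c₀ * (c.C * nm w) := mul_lt_mul_of_pos_left h5 hc₀
        _ = 2 * c.C * (c₀ / 2 * nm w) := by ring
        _ ≤ 2 * c.C * (C * l ^ (3 / 5 : ℝ)) := mul_le_mul_of_nonneg_left h4 (by positivity)
        _ = 2 * C * c.C * l ^ (3 / 5 : ℝ) := by ring
    have h7 : 2 * C * c.C ≤ c₀ * ε * l ^ (2 / 5 : ℝ) := by
      have h8 : 2 * C * c.C / (c₀ * ε) ≤ l ^ (2 / 5 : ℝ) := by linarith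
      rw [div_le_iff₀ (by positivity)] at h8
      linarith
    have h9 : 2 * C * c.C * l ^ (3 / 5 : ℝ) ≤ c₀ * ε * l ^ (2 / 5 : ℝ) * l ^ (3 / 5 : ℝ) :=
      mul_le_mul_of_nonneg_right h7 (by positivity)
    have h10 : c₀ * ε * l ^ (2 / 5 : ℝ) * l ^ (3 / 5 : ℝ) = c₀ * ε * l := by
      rw [mul_assoc, ← p2]
    linarith
  · have h3 : -(θ * c.q w) ≤ c.C * C * l ^ (7 / 10 : ℝ) := by
      calc -(θ * c.q w) = θ * (-c.q w) := by ring
        _ ≤ θ * (c.C * (C * l)) := by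
            refine mul_le_mul_of_nonneg_left ?_ hθ0.le
            have := mul_le_mul_of_nonneg_left w2 hcC0.le
            linarith
        _ = c.C * C * (θ * l) := by ring
        _ = c.C * C * l ^ (7 / 10 : ℝ) := by rw [p3]
    have h4 : C * l ^ (3 / 5 : ℝ) ≤ C * l ^ (7 / 10 : ℝ) := mul_le_mul_of_nonneg_left p4 hC0.le
    have h5 : (C + c.C * C) * l ^ (7 / 10 : ℝ) = C * l ^ (7 / 10 : ℝ) + c.C * C * l ^ (7 / 10 : ℝ) := by ring
    rw [h5]
    linarith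

/-- `FlatS` is symmetric. -/
theorem FlatS_swp {g : V → ℝ} {c : Crd} (hf : FlatS g c) : FlatS g (swp c) where
  low := fun z => by rw [lv_swp]; exact hf.low z
  bar := fun ε hε => by
    obtain ⟨c₀, h0, h1⟩ := hf.bar ε hε
    refine ⟨c₀, h0, fun z hz => ?_⟩
    rw [lv_swp]
    refine h1 z ?_
    rw [max_comm]
    exact hz
  upp := fun η hη => by
    obtain ⟨N, hN⟩ := hf.upp η hη
    refine ⟨N, fun z h1 h2 h3 => ?_⟩
    rw [lv_swp]
    exact hN z h1 h3 h2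

end Pool.Agent.W_1b8d5d_fe
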