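import Pool.Agent.W_1b8d5d_fe.Rates1

/-!
MP_1b8d5d_pr (FE): rates of convergence over the flat piece (section 1 of row 596), second part.
-/

set_option autoImplicit false

namespace Pool.Agent.W_1b8d5d_fe

open Finset Pool.Agent.W_1b8d5d_h85

private theorem Rates2_nsmul {Q : Par} {g : V → ℝ} (hg : IsMean Q g) (w : V) (k : ℕ) : g (k • w) ≤ k * g w := by
  induction k with
  | zero =>
    rw [zero_smul, hg.zero, Nat.cast_zero, zero_mul]
  | succ k ih =>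
    rw [succ_nsmul]
    have h1 := hg.add (k • w) w
    push_cast
    linarith

private theorem Rates2_lv_nsmul (c : Crd) (w : V) (k : ℕ) : lv c (k • w) = k * lv c w := by
  unfold lv
  rw [map_nsmul, map_nsmul, nsmul_eq_mul, nsmul_eq_mul]
  ring

private theorem Rates2_p_nsmul (c : Crd) (w : V) (k : ℕ) : c.p (k • w) = k * c.p w := by
  rw [map_nsmul, nsmul_eq_mul]

private theorem Rates2_q_nsmul (c : Crd) (w : V) (k : ℕ) : c.q (k • w) = k * c.q w := by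
  rw [map_nsmul, nsmul_eq_mul]

/-- `K l ^ (9/10) ≤ ε l` for `l` large. -/
private theorem Rates2_pow (K ε : ℝ) (hK : 0 ≤ K) (hε : 0 < ε) :
    ∃ L : ℝ, 1 ≤ L ∧ ∀ l : ℝ, L ≤ l → K * l ^ (9 / 10 : ℝ) ≤ ε * l := by
  refine ⟨max 1 ((K / ε) ^ 10), le_max_left _ _, fun l hl => ?_⟩
  have h1 : 1 ≤ l := (le_max_left _ _).trans hl
  have h2 : (K / ε) ^ 10 ≤ l := (le_max_right _ _).trans hl
  have h0 : 0 < l := by linarith
  have h3 : K / ε ≤ l ^ (1 / 10 : ℝ) := by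
    have h4 : ((K / ε) ^ 10) ^ (1 / 10 : ℝ) ≤ l ^ (1 / 10 : ℝ) :=
      Real.rpow_le_rpow (by positivity) h2 (by norm_num)
    have h5 : ((K / ε) ^ 10) ^ (1 / 10 : ℝ) = K / ε := by
      rw [← Real.rpow_natCast (K / ε) 10, ← Real.rpow_mul (by positivity)]
      norm_num
    rwa [h5] at h4
  have h6 : l = l ^ (1 / 10 : ℝ) * l ^ (9 / 10 : ℝ) := by
    rw [← Real.rpow_add h0]
    norm_num
  have h7 : K ≤ ε * l ^ (1 / 10 : ℝ) := by
    rw [div_le_iff₀ hε] at h3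
    linarith
  have h8 : 0 ≤ l ^ (9 / 10 : ℝ) := Real.rpow_nonneg h0.le _
  calc K * l ^ (9 / 10 : ℝ) ≤ ε * l ^ (1 / 10 : ℝ) * l ^ (9 / 10 : ℝ) := mul_le_mul_of_nonneg_right h7 h8
    _ = ε * (l ^ (1 / 10 : ℝ) * l ^ (9 / 10 : ℝ)) := by ring
    _ = ε * l := by rw [← h6]

private theorem Rates2_one {C δ l p q v : ℝ} (hC : 1 ≤ C) (hl : 1 ≤ l) (hδ : 0 < δ)
    (hK : C * l ^ (9 / 10 : ℝ) ≤ δ / 2 * l) (hv : |v - l| ≤ C) (hpq : v = p + q) (h1 : q ≤ C * l ^ (9 / 10 : ℝ))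
    (h2 : -(δ / 2 * l) ≤ q) : |p - l| ≤ δ * l ∧ |q| ≤ δ * l := by
  have h3 : 1 ≤ l ^ (9 / 10 : ℝ) := Real.one_le_rpow hl (by norm_num)
  have h4 : C ≤ C * l ^ (9 / 10 : ℝ) := le_mul_of_one_le_right (by linarith) h3
  have h5 : 0 ≤ δ * l := by
    have : 0 ≤ l := by linarith
    positivity
  obtain ⟨h6, h7⟩ := abs_le.1 hv
  rw [abs_le, abs_le]
  refine ⟨⟨?_, ?_⟩, ?_, ?_⟩ <;> linarith

private theorem Rates2_pair {Q : Par} {g : V → ℝ} (hg : IsMean Q g) (hM : HasModels Q g) {c : Crd} (hf : FlatS g c) :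
    ∃ C : ℝ, 1 ≤ C ∧ ∀ δ : ℝ, 0 < δ → ∃ L : ℝ, 1 ≤ L ∧ ∀ l : ℝ, L ≤ l → ∃ w₁ w₂ : V,
      |c.p w₁ - l| ≤ δ * l ∧ |c.q w₁| ≤ δ * l ∧ |c.p w₂| ≤ δ * l ∧ |c.q w₂ - l| ≤ δ * l ∧
      g w₁ ≤ lv c w₁ + C * l ^ (7 / 10 : ℝ) ∧ g w₂ ≤ lv c w₂ + C * l ^ (7 / 10 : ℝ) := by
  obtain ⟨C₁, hC₁, H₁⟩ := w_one hg hM hf
  obtain ⟨C₂, hC₂, H₂⟩ := w_one hg hM (FlatS_swp hf)
  refine ⟨C₁ + C₂, by linarith, fun δ hδ => ?_⟩
  obtain ⟨l₁, hl₁, H₁⟩ := H₁ (δ / 2) (by linarith)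
  obtain ⟨l₂, hl₂, H₂⟩ := H₂ (δ / 2) (by linarith)
  obtain ⟨L₁, hL₁, K₁⟩ := Rates2_pow C₁ (δ / 2) (by linarith) (by linarith)
  obtain ⟨L₂, hL₂, K₂⟩ := Rates2_pow C₂ (δ / 2) (by linarith) (by linarith)
  refine ⟨max (max l₁ l₂) (max L₁ L₂), hl₁.trans ((le_max_left _ _).trans (le_max_left _ _)), fun l hl => ?_⟩
  have a1 : l₁ ≤ l := ((le_max_left _ _).trans (le_max_left _ _)).trans hl
  have a2 : l₂ ≤ l := ((le_max_right _ _).trans (le_max_left _ _)).trans hl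
  have a3 : L₁ ≤ l := ((le_max_left _ _).trans (le_max_right _ _)).trans hl
  have a4 : L₂ ≤ l := ((le_max_right _ _).trans (le_max_right _ _)).trans hl
  have hl1 : 1 ≤ l := hl₁.trans a1
  obtain ⟨w₁, b1, b2, b3, b4⟩ := H₁ l a1
  obtain ⟨w₂, d1, d2, d3, d4⟩ := H₂ l a2
  rw [lv_swp] at d1 d4
  have e1 := Rates2_one (p := c.p w₁) hC₁ hl1 hδ (K₁ l a3) b1 rfl b2 b3
  have e2 := Rates2_one (p := c.q w₂) (q := c.p w₂) hC₂ hl1 hδ (K₂ l a4) d1 (by unfold lv; ring) d2 d3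
  have hp : 0 ≤ l ^ (7 / 10 : ℝ) := Real.rpow_nonneg (by linarith) _
  have f1 : 0 ≤ C₁ * l ^ (7 / 10 : ℝ) := mul_nonneg (by linarith) hp
  have f2 : 0 ≤ C₂ * l ^ (7 / 10 : ℝ) := mul_nonneg (by linarith) hp
  refine ⟨w₁, w₂, e1.1, e1.2, e2.2, e2.1, ?_, ?_⟩
  · rw [add_mul]
    linarith
  · rw [add_mul]
    linarith

private theorem Rates2_floor {x l : ℝ} (hl : 0 < l) (hx : 0 ≤ x) : ∃ k : ℕ, k * l ≤ x ∧ x < k * l + l := by
  refine ⟨⌊x / l⌋₊, ?_, ?_⟩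
  · have h1 := Nat.floor_le (div_nonneg hx hl.le)
    rwa [le_div_iff₀ hl] at h1
  · have h1 := Nat.lt_floor_add_one (x / l)
    rw [div_lt_iff₀ hl] at h1
    linarith

private theorem Rates2_err {a b u v δ l : ℝ} (ha : 0 ≤ a) (hb : 0 ≤ b) (hu : |u| ≤ δ * l) (hv : |v| ≤ δ * l) :
    |a * u + b * v| ≤ (a + b) * (δ * l) := by
  have h1 : |a * u| ≤ a * (δ * l) := by
    rw [abs_mul, abs_of_nonneg ha]
    exact mul_le_mul_of_nonneg_left hu ha
  have h2 : |b * v| ≤ b * (δ * l) := by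
    rw [abs_mul, abs_of_nonneg hb]
    exact mul_le_mul_of_nonneg_left hv hb
  have h3 := abs_add_le (a * u) (b * v)
  linarith

/-- One step of the greedy decomposition. -/
private theorem Rates2_step {c : Crd} {D l : ℝ} {z w₁ w₂ : V} (hD : 3 ≤ D) (hl : 1 ≤ l) (hn : lv c z = 40 * D * l)
    (h1 : lv c z ≤ D * c.p z) (h2 : lv c z ≤ D * c.q z)
    (e1 : |c.p w₁ - l| ≤ 1 / (400 * D) * l) (e2 : |c.q w₁| ≤ 1 / (400 * D) * l) (e3 : |c.p w₂| ≤ 1 / (400 * D) * l)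
    (e4 : |c.q w₂ - l| ≤ 1 / (400 * D) * l) :
    ∃ (a b : ℕ) (z' : V), z = a • w₁ + (b • w₂ + z') ∧ (a : ℝ) + b ≤ 40 * D ∧ 1 ≤ lv c z' ∧ lv c z' ≤ lv c z / 2 ∧
      lv c z' ≤ D * c.p z' ∧ lv c z' ≤ D * c.q z' := by
  have hD0 : 0 < D := by linarith
  have hl0 : 0 < l := by linarith
  have p1 : 40 * l ≤ c.p z := by
    rw [hn] at h1
    have : D * (40 * l) ≤ D * c.p z := by linarith
    exact le_of_mul_le_mul_left this hD0
  have q1 : 40 * l ≤ c.q z := by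
    rw [hn] at h2
    have : D * (40 * l) ≤ D * c.q z := by linarith
    exact le_of_mul_le_mul_left this hD0
  obtain ⟨a, a1, a2⟩ := Rates2_floor hl0 (show 0 ≤ c.p z - 20 * l by linarith)
  obtain ⟨b, b1, b2⟩ := Rates2_floor hl0 (show 0 ≤ c.q z - 20 * l by linarith)
  have hab : (a : ℝ) + b ≤ 40 * D := by
    have h3 : ((a : ℝ) + b) * l ≤ 40 * D * l := by
      rw [← hn]
      unfold lv
      linarith
    exact le_of_mul_le_mul_right h3 hl0
  have ha0 : (0 : ℝ) ≤ a := Nat.cast_nonneg a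
  have hb0 : (0 : ℝ) ≤ b := Nat.cast_nonneg b
  have hδ : ((a : ℝ) + b) * (1 / (400 * D) * l) ≤ l / 10 := by
    have h3 : 0 ≤ 1 / (400 * D) * l := by positivity
    have h4 := mul_le_mul_of_nonneg_right hab h3
    have h5 : 40 * D * (1 / (400 * D) * l) = l / 10 := by
      field_simp
      norm_num
    linarith
  have r1 := (Rates2_err ha0 hb0 e1 e3).trans hδ
  have r2 := (Rates2_err ha0 hb0 e2 e4).trans hδ
  obtain ⟨r11, r12⟩ := abs_le.1 r1
  obtain ⟨r21, r22⟩ := abs_le.1 r2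
  have hp : c.p (z - a • w₁ - b • w₂) = c.p z - a * c.p w₁ - b * c.p w₂ := by
    rw [map_sub, map_sub, Rates2_p_nsmul, Rates2_p_nsmul]
  have hq : c.q (z - a • w₁ - b • w₂) = c.q z - a * c.q w₁ - b * c.q w₂ := by
    rw [map_sub, map_sub, Rates2_q_nsmul, Rates2_q_nsmul]
  have s1 : 199 / 10 * l ≤ c.p (z - a • w₁ - b • w₂) := by
    rw [hp]
    linarith
  have s2 : c.p (z - a • w₁ - b • w₂) ≤ 211 / 10 * l := by
    rw [hp]
    linarith
  have s3 : 199 / 10 * l ≤ c.q (z - a • w₁ - b • w₂) := by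
    rw [hq]
    linarith
  have s4 : c.q (z - a • w₁ - b • w₂) ≤ 211 / 10 * l := by
    rw [hq]
    linarith
  have t1 : 3 * c.p (z - a • w₁ - b • w₂) ≤ D * c.p (z - a • w₁ - b • w₂) :=
    mul_le_mul_of_nonneg_right hD (by linarith)
  have t2 : 3 * c.q (z - a • w₁ - b • w₂) ≤ D * c.q (z - a • w₁ - b • w₂) :=
    mul_le_mul_of_nonneg_right hD (by linarith)
  have t3 : 3 * l ≤ D * l := mul_le_mul_of_nonneg_right hD hl0.le
  refine ⟨a, b, z - a • w₁ - b • w₂, by abel, hab, ?_, ?_, ?_, ?_⟩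
  · unfold lv
    linarith
  · rw [hn]
    unfold lv
    linarith
  · unfold lv
    linarith
  · unfold lv
    linarith

private theorem Rates2_half {x y : ℝ} (hx : 0 ≤ x) (h : x ≤ y / 2) :
    x ^ (7 / 10 : ℝ) ≤ 3 / 4 * y ^ (7 / 10 : ℝ) := by
  have hy : 0 ≤ y := by linarith
  have h1 : x ^ (7 / 10 : ℝ) ≤ (1 / 2 * y) ^ (7 / 10 : ℝ) := Real.rpow_le_rpow hx (by linarith) (by norm_num)
  have h2 : (1 / 2 * y) ^ (7 / 10 : ℝ) = (1 / 2 : ℝ) ^ (7 / 10 : ℝ) * y ^ (7 / 10 : ℝ) :=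
    Real.mul_rpow (by norm_num) hy
  have h3 : (1 / 2 : ℝ) ^ (7 / 10 : ℝ) ≤ (1 / 2 : ℝ) ^ (1 / 2 : ℝ) :=
    Real.rpow_le_rpow_of_exponent_ge (by norm_num) (by norm_num) (by norm_num)
  have h4 : (1 / 2 : ℝ) ^ (1 / 2 : ℝ) ≤ 3 / 4 := by
    rw [← Real.sqrt_eq_rpow, Real.sqrt_le_left (by norm_num)]
    norm_num
  have h5 : 0 ≤ y ^ (7 / 10 : ℝ) := Real.rpow_nonneg hy _
  calc x ^ (7 / 10 : ℝ) ≤ (1 / 2 : ℝ) ^ (7 / 10 : ℝ) * y ^ (7 / 10 : ℝ) := by rw [← h2]; exact h1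
    _ ≤ 3 / 4 * y ^ (7 / 10 : ℝ) := mul_le_mul_of_nonneg_right (h3.trans h4) h5

/-- The rate in the middle directions.  PROOF. Induction over the scale (`lv z ≤ 2 ^ j`).  Let `n = lv z` be large, `l = n / (40 D)`, `w₁ ≈ (l, 0)` from `w_one` for `c` and
`w₂ ≈ (0, l)` from `w_one` for `swp c` (with `ε` small depending on `D`, in the coordinates `(p, q)`; errors `ε l + C l ^ (9/10) + C ≤ 2 ε l`).  With `a₁ = ⌊(p z - n / (2 D)) / l⌋`,
`a₂ = ⌊(q z - n / (2 D)) / l⌋` (between `0` and `40 D`) the vector `z' = z - a₁ w₁ - a₂ w₂` has `p z', q z' ∈ [n / (2 D) - l / 10, n / (2 D) + 1.1 l]`, so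
`lv z' ≤ n / 2`, `lv z' ≤ 3 p z'`, `lv z' ≤ 3 q z'`, `lv z' ≥ 1`; `g z ≤ a₁ g w₁ + a₂ g w₂ + g z'` (`IsMean.add`), i.e. the excess of `z` is at most the excess of `z'` plus
`80 D C n ^ (7/10)`. -/
theorem mid_rate {Q : Par} {g : V → ℝ} (hg : IsMean Q g) (hM : HasModels Q g) {c : Crd} (hf : FlatS g c) :
    ∀ D : ℝ, 3 ≤ D → ∃ C : ℝ, 1 ≤ C ∧ ∀ z : V, 1 ≤ lv c z → lv c z ≤ D * c.p z → lv c z ≤ D * c.q z →
      g z ≤ lv c z + C * lv c z ^ (7 / 10 : ℝ) := by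
  intro D hD
  obtain ⟨C₁, hC₁, H⟩ := Rates2_pair hg hM hf
  have hD0 : 0 < D := by linarith
  obtain ⟨L, hL, H⟩ := H (1 / (400 * D)) (by positivity)
  have hcC := c.one_le
  have hb : 0 < Q.b := Q.ha.trans Q.hab
  have hK0 : 0 ≤ Q.b * (c.C * (40 * D * L)) := by
    have h1 : 0 ≤ L := by linarith
    have h2 : 0 ≤ c.C := by linarith
    positivity
  have hK1 : 0 ≤ 160 * D * C₁ := by
    have h1 : 0 ≤ C₁ := by linarith
    positivity
  refine ⟨1 + Q.b * (c.C * (40 * D * L)) + 160 * D * C₁, by linarith, ?_⟩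
  set C := 1 + Q.b * (c.C * (40 * D * L)) + 160 * D * C₁ with hC
  have key : ∀ (j : ℕ) (z : V), lv c z ≤ 2 ^ j → 1 ≤ lv c z → lv c z ≤ D * c.p z → lv c z ≤ D * c.q z →
      g z ≤ lv c z + C * lv c z ^ (7 / 10 : ℝ) := by
    intro j
    induction j with
    | zero =>
      intro z hz h1 hp hq
      have p0 : 0 ≤ c.p z := by
        by_contra h
        push Not at h
        have := mul_neg_of_pos_of_neg hD0 h
        linarith
      have q0 : 0 ≤ c.q z := by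
        by_contra h
        push Not at h
        have := mul_neg_of_pos_of_neg hD0 h
        linarith
      have r1 : 1 ≤ lv c z ^ (7 / 10 : ℝ) := Real.one_le_rpow h1 (by norm_num)
      have hz' : lv c z ≤ 40 * D * L := by
        have h2 : 1 * 1 ≤ 40 * D * L := by
          have h3 : 1 ≤ 40 * D := by linarith
          exact mul_le_mul h3 hL (by norm_num) (by linarith)
        rw [pow_zero] at hz
        linarith
      have g1 := hg.upp z
      have g2 := c.nm_le z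
      rw [abs_of_nonneg p0, abs_of_nonneg q0] at g2
      have g3 : nm z ≤ c.C * (40 * D * L) := g2.trans (mul_le_mul_of_nonneg_left hz' (by linarith))
      have g4 : Q.b * nm z ≤ Q.b * (c.C * (40 * D * L)) := mul_le_mul_of_nonneg_left g3 hb.le
      have g5 : C ≤ C * lv c z ^ (7 / 10 : ℝ) := le_mul_of_one_le_right (by linarith) r1
      linarith
    | succ j ih =>
      intro z hz h1 hp hq
      have p0 : 0 ≤ c.p z := by
        by_contra h
        push Not at h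
        have := mul_neg_of_pos_of_neg hD0 h
        linarith
      have q0 : 0 ≤ c.q z := by
        by_contra h
        push Not at h
        have := mul_neg_of_pos_of_neg hD0 h
        linarith
      have r1 : 1 ≤ lv c z ^ (7 / 10 : ℝ) := Real.one_le_rpow h1 (by norm_num)
      rcases le_or_gt (lv c z) (40 * D * L) with hz' | hz'
      · have g1 := hg.upp z
        have g2 := c.nm_le z
        rw [abs_of_nonneg p0, abs_of_nonneg q0] at g2
        have g3 : nm z ≤ c.C * (40 * D * L) := g2.trans (mul_le_mul_of_nonneg_left hz' (by linarith))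
        have g4 : Q.b * nm z ≤ Q.b * (c.C * (40 * D * L)) := mul_le_mul_of_nonneg_left g3 hb.le
        have g5 : C ≤ C * lv c z ^ (7 / 10 : ℝ) := le_mul_of_one_le_right (by linarith) r1
        linarith
      · have hD40 : 0 < 40 * D := by linarith
        have hl : L ≤ lv c z / (40 * D) := by
          rw [le_div_iff₀ hD40]
          linarith
        obtain ⟨w₁, w₂, e1, e2, e3, e4, e5, e6⟩ := H (lv c z / (40 * D)) hl
        have hn : lv c z = 40 * D * (lv c z / (40 * D)) := by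
          field_simp
        obtain ⟨a, b, z', k1, k2, k3, k4, k5, k6⟩ := Rates2_step hD (hL.trans hl) hn hp hq e1 e2 e3 e4
        have i1 := ih z' (by rw [pow_succ] at hz; linarith) k3 k5 k6
        have i2 := Rates2_half (by linarith) k4
        have hl1 : lv c z / (40 * D) ≤ lv c z := div_le_self (by linarith) (by linarith)
        have i3 : (lv c z / (40 * D)) ^ (7 / 10 : ℝ) ≤ lv c z ^ (7 / 10 : ℝ) :=
          Real.rpow_le_rpow (by linarith) hl1 (by norm_num)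
        set X := lv c z ^ (7 / 10 : ℝ) with hX
        have i4 : C₁ * (lv c z / (40 * D)) ^ (7 / 10 : ℝ) ≤ C₁ * X := mul_le_mul_of_nonneg_left i3 (by linarith)
        have ha0 : (0 : ℝ) ≤ a := Nat.cast_nonneg a
        have hb0 : (0 : ℝ) ≤ b := Nat.cast_nonneg b
        have j1 : (a : ℝ) * g w₁ ≤ a * (lv c w₁ + C₁ * X) := mul_le_mul_of_nonneg_left (by linarith) ha0
        have j2 : (b : ℝ) * g w₂ ≤ b * (lv c w₂ + C₁ * X) := mul_le_mul_of_nonneg_left (by linarith) hb0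
        have j3 : g z ≤ a * g w₁ + (b * g w₂ + g z') := by
          have t1 := hg.add (a • w₁) (b • w₂ + z')
          have t2 := hg.add (b • w₂) z'
          have t3 := Rates2_nsmul hg w₁ a
          have t4 := Rates2_nsmul hg w₂ b
          rw [← k1] at t1
          linarith
        have j4 : lv c z = a * lv c w₁ + (b * lv c w₂ + lv c z') := by
          conv_lhs => rw [k1]
          rw [lv_add, lv_add, Rates2_lv_nsmul, Rates2_lv_nsmul]
        have hX0 : 0 ≤ X := by linarith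
        have j5 : ((a : ℝ) + b) * (C₁ * X) ≤ 40 * D * (C₁ * X) :=
          mul_le_mul_of_nonneg_right k2 (mul_nonneg (by linarith) hX0)
        have j6 : C * lv c z' ^ (7 / 10 : ℝ) ≤ C * (3 / 4 * X) := mul_le_mul_of_nonneg_left i2 (by linarith)
        have j7 : 160 * D * C₁ * X ≤ C * X := mul_le_mul_of_nonneg_right (by linarith) hX0
        have j8 : 40 * D * (C₁ * X) = 1 / 4 * (160 * D * C₁ * X) := by ring
        have j9 : C * (3 / 4 * X) = 3 / 4 * (C * X) := by ring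
        have j10 : ((a : ℝ) + b) * (C₁ * X) = a * (C₁ * X) + b * (C₁ * X) := add_mul _ _ _
        have j11 : (a : ℝ) * (lv c w₁ + C₁ * X) = a * lv c w₁ + a * (C₁ * X) := mul_add _ _ _
        have j12 : (b : ℝ) * (lv c w₂ + C₁ * X) = b * lv c w₂ + b * (C₁ * X) := mul_add _ _ _
        linarith
  intro z h1 hp hq
  obtain ⟨j, hj⟩ := pow_unbounded_of_one_lt (lv c z) (by norm_num : (1 : ℝ) < 2)
  exact key j z hj.le h1 hp hq

/-- A crude bound. -/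
private theorem Rates2_crude {Q : Par} {g : V → ℝ} (hg : IsMean Q g) (c : Crd) {z : V} {R : ℝ} (hR : |c.p z| + |c.q z| ≤ R) :
    g z ≤ lv c z + (Q.b * c.C + 1) * R := by
  have hb : 0 < Q.b := Q.ha.trans Q.hab
  have hcC := c.one_le
  have h1 := hg.upp z
  have h2 := c.nm_le z
  have h3 : Q.b * nm z ≤ Q.b * (c.C * R) :=
    mul_le_mul_of_nonneg_left (h2.trans (mul_le_mul_of_nonneg_left hR (by linarith))) hb.le
  have h4 := neg_abs_le (c.p z)
  have h5 := neg_abs_le (c.q z)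
  have h6 : -R ≤ lv c z := by
    unfold lv
    linarith
  have h7 : (Q.b * c.C + 1) * R = Q.b * (c.C * R) + R := by ring
  linarith

private theorem Rates2_powx {x : ℝ} (hx : 0 ≤ x) {a b : ℕ} {r : ℝ} (h : (a : ℝ) * r = b) : (x ^ a) ^ r = x ^ b := by
  rw [← Real.rpow_natCast x a, ← Real.rpow_mul hx, h, Real.rpow_natCast]

/-- Case 1 of the rate at the end point (`n = x ^ 100`, `l = x ^ 90`). -/
private theorem Rates2_case1 {Q : Par} {g : V → ℝ} (hg : IsMean Q g) (c : Crd) {C₁ x : ℝ} {z w : V} (hC₁ : 1 ≤ C₁)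
    (hx : 1 ≤ x) (hp : |c.p z - x ^ 100| ≤ 4 * c.C) (hq : |c.q z| ≤ 4 * c.C) (h1 : |lv c w - x ^ 90| ≤ C₁)
    (h2 : c.q w ≤ C₁ * x ^ 81) (h3 : g w ≤ lv c w + C₁ * x ^ 63) (h4 : -x ^ 80 ≤ c.q w) :
    g z ≤ lv c z + (C₁ + (Q.b * c.C + 1) * (8 * c.C + 1 + 3 * C₁)) * x ^ 95 := by
  have hx0 : 0 < x := by linarith
  have hcC := c.one_le
  have hb : 0 < Q.b := Q.ha.trans Q.hab
  have m1 : ∀ k : ℕ, 1 ≤ x ^ k := fun k => one_le_pow₀ hx
  have m2 : ∀ i j : ℕ, i ≤ j → x ^ i ≤ x ^ j := fun i j h => pow_le_pow_right₀ hx h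
  have hC0 : 0 ≤ C₁ := by linarith
  obtain ⟨a, a1, a2⟩ := Rates2_floor (show 0 < x ^ 90 by positivity) (show 0 ≤ x ^ 100 by positivity)
  have ha0 : (0 : ℝ) ≤ a := Nat.cast_nonneg a
  have ha : (a : ℝ) ≤ x ^ 10 := by
    have e1 : x ^ 100 = x ^ 10 * x ^ 90 := by ring
    rw [e1] at a1
    exact le_of_mul_le_mul_right a1 (by positivity)
  have q1 : |c.q w| ≤ C₁ * x ^ 81 := by
    rw [abs_le]
    refine ⟨?_, h2⟩
    have e1 := m2 80 81 (by norm_num)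
    have e2 : x ^ 81 ≤ C₁ * x ^ 81 := le_mul_of_one_le_left (by positivity) hC₁
    linarith
  have q2 : |c.p w - x ^ 90| ≤ 2 * (C₁ * x ^ 81) := by
    have e1 : C₁ ≤ C₁ * x ^ 81 := le_mul_of_one_le_right hC0 (m1 81)
    have e2 : c.p w - x ^ 90 = lv c w - x ^ 90 - c.q w := by
      unfold lv
      ring
    rw [e2]
    have e3 := abs_sub (lv c w - x ^ 90) (c.q w)
    linarith
  have e91 : x ^ 10 * (C₁ * x ^ 81) = C₁ * x ^ 91 := by ring
  have q3 : |(a : ℝ) * c.q w| ≤ C₁ * x ^ 91 := by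
    rw [abs_mul, abs_of_nonneg ha0, ← e91]
    exact mul_le_mul ha q1 (abs_nonneg _) (by positivity)
  have q4 : |(a : ℝ) * (c.p w - x ^ 90)| ≤ 2 * (C₁ * x ^ 91) := by
    rw [abs_mul, abs_of_nonneg ha0, ← e91]
    have e1 := mul_le_mul ha q2 (abs_nonneg _) (by positivity)
    linarith
  have hP : c.p (z - a • w) = c.p z - a * c.p w := by rw [map_sub, Rates2_p_nsmul]
  have hQ : c.q (z - a • w) = c.q z - a * c.q w := by rw [map_sub, Rates2_q_nsmul]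
  have e90 := m2 90 91 (by norm_num)
  have e0 := m1 91
  have c91 : 4 * c.C ≤ 4 * c.C * x ^ 91 := le_mul_of_one_le_right (by linarith) e0
  have r1 : |c.q (z - a • w)| ≤ 4 * c.C + C₁ * x ^ 91 := by
    rw [hQ]
    have e1 := abs_sub (c.q z) (a * c.q w)
    linarith
  have r2 : |c.p (z - a • w)| ≤ 4 * c.C + x ^ 91 + 2 * (C₁ * x ^ 91) := by
    have e1 : c.p (z - a • w) = (c.p z - x ^ 100) + (x ^ 100 - a * x ^ 90) - a * (c.p w - x ^ 90) := by
      rw [hP]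
      ring
    rw [e1]
    have e2 := abs_sub ((c.p z - x ^ 100) + (x ^ 100 - a * x ^ 90)) (a * (c.p w - x ^ 90))
    have e3 := abs_add_le (c.p z - x ^ 100) (x ^ 100 - a * x ^ 90)
    have e4 : |x ^ 100 - a * x ^ 90| ≤ x ^ 91 := by
      rw [abs_le]
      have : 0 ≤ x ^ 91 := by positivity
      constructor <;> linarith
    linarith
  have r3 : |c.p (z - a • w)| + |c.q (z - a • w)| ≤ (8 * c.C + 1 + 3 * C₁) * x ^ 91 := by
    have e1 : (8 * c.C + 1 + 3 * C₁) * x ^ 91 = 2 * (4 * c.C * x ^ 91) + x ^ 91 + 3 * (C₁ * x ^ 91) := by ring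
    linarith
  have r4 := Rates2_crude hg c r3
  have r5 : g z ≤ a * g w + g (z - a • w) := by
    have t1 := hg.add (a • w) (z - a • w)
    have t2 := Rates2_nsmul hg w a
    rw [add_sub_cancel] at t1
    linarith
  have r6 : lv c (z - a • w) = lv c z - a * lv c w := by rw [lv_sub, Rates2_lv_nsmul]
  have r7 : (a : ℝ) * g w ≤ a * (lv c w + C₁ * x ^ 63) := mul_le_mul_of_nonneg_left h3 ha0
  have r8 : (a : ℝ) * (C₁ * x ^ 63) ≤ C₁ * x ^ 95 := by
    have e1 : (a : ℝ) * (C₁ * x ^ 63) ≤ x ^ 10 * (C₁ * x ^ 63) := mul_le_mul_of_nonneg_right ha (by positivity)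
    have e2 : x ^ 10 * (C₁ * x ^ 63) = C₁ * x ^ 73 := by ring
    have e3 := mul_le_mul_of_nonneg_left (m2 73 95 (by norm_num)) hC0
    linarith
  have r9 : (Q.b * c.C + 1) * ((8 * c.C + 1 + 3 * C₁) * x ^ 91) ≤
      (Q.b * c.C + 1) * ((8 * c.C + 1 + 3 * C₁) * x ^ 95) := by
    have e1 : 0 ≤ Q.b * c.C + 1 := by positivity
    have e2 : 0 ≤ 8 * c.C + 1 + 3 * C₁ := by positivity
    exact mul_le_mul_of_nonneg_left (mul_le_mul_of_nonneg_left (m2 91 95 (by norm_num)) e2) e1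
  have r10 : (C₁ + (Q.b * c.C + 1) * (8 * c.C + 1 + 3 * C₁)) * x ^ 95 =
      C₁ * x ^ 95 + (Q.b * c.C + 1) * ((8 * c.C + 1 + 3 * C₁) * x ^ 95) := by ring
  have r11 : (a : ℝ) * (lv c w + C₁ * x ^ 63) = a * lv c w + a * (C₁ * x ^ 63) := mul_add _ _ _
  rw [r6] at r4
  linarith

/-- Case 2 of the rate at the end point (`n = x ^ 100`, `l = x ^ 90`). -/
private theorem Rates2_case2 {Q : Par} {g : V → ℝ} (hg : IsMean Q g) (c : Crd) {C₁ C₅ x : ℝ} {z w : V} (hC₁ : 1 ≤ C₁)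
    (hC₅ : 1 ≤ C₅) (hm : ∀ z : V, 1 ≤ lv c z → lv c z ≤ 5 * c.p z → lv c z ≤ 5 * c.q z →
      g z ≤ lv c z + C₅ * lv c z ^ (7 / 10 : ℝ))
    (hx : 100 ≤ x) (hxC : 100 * C₁ ≤ x) (hxc : 100 * c.C ≤ x) (hp : |c.p z - x ^ 100| ≤ 4 * c.C)
    (hq : |c.q z| ≤ 4 * c.C) (h1 : |lv c w - x ^ 90| ≤ C₁) (h2 : -(1 / 10 * x ^ 90) ≤ c.q w)
    (h3 : g w ≤ lv c w + C₁ * x ^ 63) (h4 : c.q w < -x ^ 80) :
    g z ≤ lv c z + (2 * C₁ + 4 * C₅) * x ^ 95 := by
  have hx1 : 1 ≤ x := by linarith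
  have hx0 : 0 < x := by linarith
  have hcC := c.one_le
  have m1 : ∀ k : ℕ, 1 ≤ x ^ k := fun k => one_le_pow₀ hx1
  have m2 : ∀ i j : ℕ, i ≤ j → x ^ i ≤ x ^ j := fun i j h => pow_le_pow_right₀ hx1 h
  have hC0 : 0 ≤ C₁ := by linarith
  have hl : x ≤ x ^ 90 := by
    have := m2 1 90 (by norm_num)
    rwa [pow_one] at this
  have hln := m2 90 100 (by norm_num)
  have hl0 : 0 < x ^ 90 := by positivity
  obtain ⟨h11, h12⟩ := abs_le.1 h1
  obtain ⟨hp1, hp2⟩ := abs_le.1 hp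
  obtain ⟨hq1, hq2⟩ := abs_le.1 hq
  -- the step length
  have d1 : x ^ 90 / 2 ≤ lv c w - 2 * c.q w := by
    have : 0 ≤ x ^ 80 := by positivity
    linarith
  have d2 : lv c w - 2 * c.q w ≤ 121 / 100 * x ^ 90 := by linarith
  have d0 : 0 < lv c w - 2 * c.q w := by linarith
  obtain ⟨a, a1, a2⟩ := Rates2_floor d0 (show 0 ≤ x ^ 100 by positivity)
  have ha0 : (0 : ℝ) ≤ a := Nat.cast_nonneg a
  have ha : (a : ℝ) ≤ 2 * x ^ 10 := by
    have e1 : (a : ℝ) * (x ^ 90 / 2) ≤ a * (lv c w - 2 * c.q w) := mul_le_mul_of_nonneg_left d1 ha0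
    have e2 : x ^ 100 = x ^ 10 * x ^ 90 := by ring
    have e3 : (a : ℝ) * x ^ 90 ≤ 2 * x ^ 10 * x ^ 90 := by linarith
    exact le_of_mul_le_mul_right e3 hl0
  set r := -c.q w with hr
  have hr0 : x ^ 80 < r := by linarith
  have hr1 : r ≤ x ^ 90 / 10 := by linarith
  have hr2 : 0 ≤ r := by
    have : 0 ≤ x ^ 80 := by positivity
    linarith
  -- `A = a r`
  have A1 : 72 / 100 * x ^ 90 ≤ a * r := by
    have e1 : x ^ 100 ≤ (a + 1) * (121 / 100 * x ^ 90) := by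
      have f1 : ((a : ℝ) + 1) * (lv c w - 2 * c.q w) ≤ (a + 1) * (121 / 100 * x ^ 90) :=
        mul_le_mul_of_nonneg_left d2 (by linarith)
      have f2 : ((a : ℝ) + 1) * (lv c w - 2 * c.q w) = a * (lv c w - 2 * c.q w) + (lv c w - 2 * c.q w) := by ring
      linarith
    have e2 : x ^ 100 * x ^ 80 ≤ (a + 1) * (121 / 100 * x ^ 90) * r :=
      mul_le_mul e1 hr0.le (by positivity) (by positivity)
    have e3 : x ^ 100 * x ^ 80 = x ^ 90 * x ^ 90 := by ring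
    have e4 : (a + 1) * (121 / 100 * x ^ 90) * r = 121 / 100 * ((a + 1) * r) * x ^ 90 := by ring
    rw [e3, e4] at e2
    have e5 := le_of_mul_le_mul_right e2 hl0
    have e6 : ((a : ℝ) + 1) * r = a * r + r := by ring
    linarith
  have A2 : a * r ≤ x ^ 100 / 5 := by
    have e1 : (a : ℝ) * r ≤ 2 * x ^ 10 * (x ^ 90 / 10) := mul_le_mul ha hr1 hr2 (by positivity)
    have e2 : 2 * x ^ 10 * (x ^ 90 / 10) = x ^ 100 / 5 := by ring
    linarith
  have hP : c.p (z - a • w) = c.p z - a * c.p w := by rw [map_sub, Rates2_p_nsmul]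
  have hQ : c.q (z - a • w) = c.q z - a * c.q w := by rw [map_sub, Rates2_q_nsmul]
  have hP' : c.p (z - a • w) = c.p z - a * (lv c w - 2 * c.q w) + a * r := by
    rw [hP, hr]
    unfold lv
    ring
  have hQ' : c.q (z - a • w) = c.q z + a * r := by
    rw [hQ, hr]
    ring
  have s1 : a * r - 4 * c.C ≤ c.p (z - a • w) := by
    rw [hP']
    linarith
  have s2 : c.p (z - a • w) ≤ a * r + 4 * c.C + 121 / 100 * x ^ 90 := by
    rw [hP']
    linarith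
  have s3 : a * r - 4 * c.C ≤ c.q (z - a • w) := by
    rw [hQ']
    linarith
  have s4 : c.q (z - a • w) ≤ a * r + 4 * c.C := by
    rw [hQ']
    linarith
  have s5 : lv c (z - a • w) = c.p (z - a • w) + c.q (z - a • w) := rfl
  have t0 : 1 ≤ lv c (z - a • w) := by linarith
  have t1 : lv c (z - a • w) ≤ 5 * c.p (z - a • w) := by linarith
  have t2 : lv c (z - a • w) ≤ 5 * c.q (z - a • w) := by linarith
  have t3 : lv c (z - a • w) ≤ 4 * x ^ 100 := by linarith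
  have t4 := hm _ t0 t1 t2
  have t5 : lv c (z - a • w) ^ (7 / 10 : ℝ) ≤ 4 * x ^ 70 := by
    have e1 : lv c (z - a • w) ^ (7 / 10 : ℝ) ≤ (4 * x ^ 100) ^ (7 / 10 : ℝ) :=
      Real.rpow_le_rpow (by linarith) t3 (by norm_num)
    have e2 : (4 * x ^ 100) ^ (7 / 10 : ℝ) = (4 : ℝ) ^ (7 / 10 : ℝ) * (x ^ 100) ^ (7 / 10 : ℝ) :=
      Real.mul_rpow (by norm_num) (by positivity)
    have e3 : (4 : ℝ) ^ (7 / 10 : ℝ) ≤ 4 := by
      have := Real.rpow_le_rpow_of_exponent_le (show (1 : ℝ) ≤ 4 by norm_num) (show (7 / 10 : ℝ) ≤ 1 by norm_num)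
      rwa [Real.rpow_one] at this
    have e4 : (x ^ 100) ^ (7 / 10 : ℝ) = x ^ 70 := Rates2_powx hx0.le (by norm_num)
    rw [e2, e4] at e1
    exact e1.trans (mul_le_mul_of_nonneg_right e3 (by positivity))
  have r5 : g z ≤ a * g w + g (z - a • w) := by
    have t1 := hg.add (a • w) (z - a • w)
    have t2 := Rates2_nsmul hg w a
    rw [add_sub_cancel] at t1
    linarith
  have r6 : lv c (z - a • w) = lv c z - a * lv c w := by rw [lv_sub, Rates2_lv_nsmul]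
  have r7 : (a : ℝ) * g w ≤ a * (lv c w + C₁ * x ^ 63) := mul_le_mul_of_nonneg_left h3 ha0
  have r8 : (a : ℝ) * (C₁ * x ^ 63) ≤ 2 * C₁ * x ^ 95 := by
    have e1 : (a : ℝ) * (C₁ * x ^ 63) ≤ 2 * x ^ 10 * (C₁ * x ^ 63) := mul_le_mul_of_nonneg_right ha (by positivity)
    have e2 : 2 * x ^ 10 * (C₁ * x ^ 63) = 2 * C₁ * x ^ 73 := by ring
    have e3 := mul_le_mul_of_nonneg_left (m2 73 95 (by norm_num)) (show 0 ≤ 2 * C₁ by linarith)
    linarith
  have r9 : C₅ * lv c (z - a • w) ^ (7 / 10 : ℝ) ≤ 4 * C₅ * x ^ 95 := by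
    have e1 := mul_le_mul_of_nonneg_left t5 (show 0 ≤ C₅ by linarith)
    have e3 := mul_le_mul_of_nonneg_left (m2 70 95 (by norm_num)) (show 0 ≤ 4 * C₅ by linarith)
    linarith
  have r10 : (2 * C₁ + 4 * C₅) * x ^ 95 = 2 * C₁ * x ^ 95 + 4 * C₅ * x ^ 95 := by ring
  have r11 : (a : ℝ) * (lv c w + C₁ * x ^ 63) = a * lv c w + a * (C₁ * x ^ 63) := mul_add _ _ _
  rw [r6] at t4 r9
  linarith

/-- The rate at the end point.  PROOF. `l = n ^ (9/10)`, `w` from `w_one` (`ε = 1/10`).  Case 1: `q w ≥ - l ^ 2 / n`: `⌊n / l⌋` copies of `w` end at a distance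
`≤ C (n / l) l ^ (9/10) + C (n / l) (l ^ 2 / n) + C l ≤ C n ^ (91/100)` from `z`; the rest crudely (`IsMean.upp`); the excess of the copies is
`≤ C (n / l) l ^ (7/10) ≤ C n ^ (73/100)`.  Case 2: `q w < - l ^ 2 / n`: let `a = ⌊n / (p w + |q w|)⌋`
(`p w + |q w| = lv w + 2 |q w| ≤ 1.3 l`); `z' = z - a w` has `|q z' - a |q w|| ≤ 4 C`, `- 4 C ≤ p z' - a |q w| ≤ 1.3 l + 4 C` and `a |q w| ≥ 0.8 l`, so
`lv z' ≤ 5 p z'`, `lv z' ≤ 5 q z'` and `mid_rate` (`D = 5`) applies to `z'`; the excess is at most `a C l ^ (7/10) + C n ^ (7/10)`.  For bounded `n` enlarge `C`. -/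
theorem end_rate {Q : Par} {g : V → ℝ} (hg : IsMean Q g) (hM : HasModels Q g) {c : Crd} (hf : FlatS g c) :
    ∃ C : ℝ, 1 ≤ C ∧ ∀ (n : ℝ) (z : V), 1 ≤ n → |c.p z - n| ≤ 4 * c.C → |c.q z| ≤ 4 * c.C →
      g z ≤ lv c z + C * n ^ (19 / 20 : ℝ) := by
  obtain ⟨C₁, hC₁, H⟩ := w_one hg hM hf
  obtain ⟨l₀, hl₀, H⟩ := H (1 / 10) (by norm_num)
  obtain ⟨C₅, hC₅, H5⟩ := mid_rate hg hM hf 5 (by norm_num)
  have hcC := c.one_le
  have hb : 0 < Q.b := Q.ha.trans Q.hab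
  obtain ⟨X, hX⟩ : ∃ X : ℝ, X = max (max l₀ (100 * C₁)) (max (100 * c.C) 100) := ⟨_, rfl⟩
  have X1 : l₀ ≤ X := hX ▸ (le_max_left _ _).trans (le_max_left _ _)
  have X2 : 100 * C₁ ≤ X := hX ▸ (le_max_right _ _).trans (le_max_left _ _)
  have X3 : 100 * c.C ≤ X := hX ▸ (le_max_left _ _).trans (le_max_right _ _)
  have X4 : 100 ≤ X := hX ▸ (le_max_right _ _).trans (le_max_right _ _)
  have hX0 : 0 ≤ X := by linarith
  have hcC0 : 0 ≤ c.C := by linarith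
  have hC10 : 0 ≤ C₁ := by linarith
  have k1 : 0 ≤ (Q.b * c.C + 1) * (X ^ 100 + 8 * c.C) := by positivity
  have k2 : 0 ≤ C₁ + (Q.b * c.C + 1) * (8 * c.C + 1 + 3 * C₁) := by positivity
  have k3 : 0 ≤ 2 * C₁ + 4 * C₅ := by linarith
  refine ⟨1 + (Q.b * c.C + 1) * (X ^ 100 + 8 * c.C) + (C₁ + (Q.b * c.C + 1) * (8 * c.C + 1 + 3 * C₁)) +
    (2 * C₁ + 4 * C₅), by linarith, fun n z hn hp hq => ?_⟩
  obtain ⟨x, hx⟩ : ∃ x : ℝ, x = n ^ (1 / 100 : ℝ) := ⟨_, rfl⟩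
  have hx1 : 1 ≤ x := hx ▸ Real.one_le_rpow hn (by norm_num)
  have hx0 : 0 ≤ x := by linarith
  have hxn : n = x ^ 100 := by
    rw [hx, ← Real.rpow_natCast, ← Real.rpow_mul (by linarith)]
    norm_num
  have e95 : n ^ (19 / 20 : ℝ) = x ^ 95 := by
    rw [hxn]
    exact Rates2_powx hx0 (by norm_num)
  rw [e95]
  have h95 : 1 ≤ x ^ 95 := one_le_pow₀ hx1
  have h950 : 0 ≤ x ^ 95 := by linarith
  have y1 := mul_nonneg k1 h950
  have y2 := mul_nonneg k2 h950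
  have y3 := mul_nonneg k3 h950
  have y4 : (1 + (Q.b * c.C + 1) * (X ^ 100 + 8 * c.C) + (C₁ + (Q.b * c.C + 1) * (8 * c.C + 1 + 3 * C₁)) +
      (2 * C₁ + 4 * C₅)) * x ^ 95 = x ^ 95 + (Q.b * c.C + 1) * (X ^ 100 + 8 * c.C) * x ^ 95 +
      (C₁ + (Q.b * c.C + 1) * (8 * c.C + 1 + 3 * C₁)) * x ^ 95 + (2 * C₁ + 4 * C₅) * x ^ 95 := by ring
  rw [y4]
  rw [hxn] at hp
  rcases lt_or_ge x X with hlt | hge
  · have f1 : x ^ 100 ≤ X ^ 100 := pow_le_pow_left₀ hx0 hlt.le 100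
    have f2 : |c.p z| + |c.q z| ≤ X ^ 100 + 8 * c.C := by
      have g1 := abs_le.1 hp
      have g2 : |c.p z| ≤ x ^ 100 + 4 * c.C := by
        have g3 : 0 ≤ x ^ 100 := by positivity
        rw [abs_le]
        constructor <;> linarith [g1.1, g1.2]
      linarith
    have f3 := Rates2_crude hg c f2
    have f4 : (Q.b * c.C + 1) * (X ^ 100 + 8 * c.C) ≤ (Q.b * c.C + 1) * (X ^ 100 + 8 * c.C) * x ^ 95 :=
      le_mul_of_one_le_right k1 h95
    linarith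
  · have hl : x ≤ x ^ 90 := by
      have := pow_le_pow_right₀ hx1 (show 1 ≤ 90 by norm_num)
      rwa [pow_one] at this
    obtain ⟨w, b1, b2, b3, b4⟩ := H (x ^ 90) (by linarith)
    rw [Rates2_powx (b := 81) hx0 (by norm_num)] at b2
    rw [Rates2_powx (b := 63) hx0 (by norm_num)] at b4
    rcases le_or_gt (-x ^ 80) (c.q w) with hc | hc
    · have := Rates2_case1 hg c hC₁ hx1 hp hq b1 b2 b4 hc
      linarith
    · have := Rates2_case2 hg c hC₁ hC₅ H5 (by linarith) (by linarith) (by linarith) hp hq b1 b3 b4 hc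
      linarith

end Pool.Agent.W_1b8d5d_fe
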