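import Pool.Agent.W_1b8d5d_fe.FmL

/-!
MP_1b8d5d_pr (FE): two independent routes (section 3 of row 596).
-/

set_option autoImplicit false

namespace Pool.Agent.W_1b8d5d_fe

open Finset Pool.Agent.W_1b8d5d_h85

/-- Concatenation of a chain. -/
private theorem Rt1_chain {a b : ℝ} {τ : Env} (ha : 0 ≤ a) (hab : a ≤ b) (hτ : Bd a b τ) {c : Crd} (f : ℕ → V) :
    ∀ m : ℕ, (∀ i < m, f (i + 1) - f i ∈ Wc c) → f m - f 0 ∈ Wc c ∧
      Tc b c τ (f 0) (f m) - lv c (f m - f 0) ≤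
        ∑ i ∈ range m, (Tc b c τ (f i) (f (i + 1)) - lv c (f (i + 1) - f i)) := by
  intro m
  induction m with
  | zero =>
    intro _
    have h1 := Tc_upper ha hab hτ c (f 0) (f 0)
    have h2 : nm (f 0 - f 0) = 0 := by
      rw [sub_self]
      simp [nm]
    rw [h2, mul_zero] at h1
    rw [sub_self, lv_zero, sum_range_zero]
    exact ⟨Wc_zero c, by linarith⟩
  | succ m ih =>
    intro h
    obtain ⟨h1, h2⟩ := ih fun i hi => h i (by omega)
    have h3 := h m (by omega)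
    have h4 := Tc_triangle ha hab hτ h1 h3
    have h5 : f (m + 1) - f 0 = (f m - f 0) + (f (m + 1) - f m) := by abel
    refine ⟨?_, ?_⟩
    · rw [h5]
      exact Wc_add h1 h3
    · rw [sum_range_succ, h5, lv_add]
      linarith

/-- The vertices of a route. -/
private noncomputable def Rt1_f (c : Crd) (x : V) (α m : ℝ) (K i : ℕ) : V :=
  if i = 0 then 0 else if i ≤ K + 1 then
    c.rd ((α + (1 - 2 * α) * ((i : ℝ) - 1) / K) * c.p x - m) ((α + (1 - 2 * α) * ((i : ℝ) - 1) / K) * c.q x + m)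
  else x

private theorem Rt1_f0 (c : Crd) (x : V) (α m : ℝ) (K : ℕ) : Rt1_f c x α m K 0 = 0 := by
  unfold Rt1_f
  rw [if_pos rfl]

private theorem Rt1_fl (c : Crd) (x : V) (α m : ℝ) (K : ℕ) : Rt1_f c x α m K (K + 2) = x := by
  unfold Rt1_f
  rw [if_neg (by omega), if_neg (by omega)]

private theorem Rt1_fm (c : Crd) (x : V) (α m : ℝ) (K : ℕ) {i : ℕ} (h1 : 1 ≤ i) (h2 : i ≤ K + 1) :
    |c.p (Rt1_f c x α m K i) - ((α + (1 - 2 * α) * ((i : ℝ) - 1) / K) * c.p x - m)| ≤ c.C ∧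
    |c.q (Rt1_f c x α m K i) - ((α + (1 - 2 * α) * ((i : ℝ) - 1) / K) * c.q x + m)| ≤ c.C := by
  unfold Rt1_f
  rw [if_neg (by omega), if_pos h2]
  exact ⟨c.rd_p _ _, c.rd_q _ _⟩

/-- The first difference. -/
private theorem Rt1_d0 (c : Crd) (x : V) (α m : ℝ) (K : ℕ) :
    |c.p (Rt1_f c x α m K (0 + 1) - Rt1_f c x α m K 0) - (α * c.p x - m)| ≤ c.C ∧
    |c.q (Rt1_f c x α m K (0 + 1) - Rt1_f c x α m K 0) - (α * c.q x + m)| ≤ c.C := by
  rw [Rt1_f0, sub_zero]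
  have h := Rt1_fm c x α m K (i := 0 + 1) (by omega) (by omega)
  simpa using h

/-- The middle differences. -/
private theorem Rt1_d1 (c : Crd) (x : V) (α m : ℝ) (K : ℕ) {i : ℕ} (h1 : 1 ≤ i) (h2 : i ≤ K) :
    |c.p (Rt1_f c x α m K (i + 1) - Rt1_f c x α m K i) - (1 - 2 * α) / K * c.p x| ≤ 2 * c.C ∧
    |c.q (Rt1_f c x α m K (i + 1) - Rt1_f c x α m K i) - (1 - 2 * α) / K * c.q x| ≤ 2 * c.C := by
  obtain ⟨a1, a2⟩ := Rt1_fm c x α m K (i := i) h1 (by omega)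
  obtain ⟨b1, b2⟩ := Rt1_fm c x α m K (i := i + 1) (by omega) (by omega)
  have e1 : (α + (1 - 2 * α) * (((i + 1 : ℕ) : ℝ) - 1) / K) = (α + (1 - 2 * α) * ((i : ℝ) - 1) / K) +
      (1 - 2 * α) / K := by
    push_cast
    ring
  rw [e1] at b1 b2
  rw [map_sub, map_sub]
  rw [abs_le] at a1 a2 b1 b2 ⊢
  rw [abs_le]
  refine ⟨⟨?_, ?_⟩, ?_, ?_⟩ <;> linarith [a1.1, a1.2, a2.1, a2.2, b1.1, b1.2, b2.1, b2.2]

/-- The last difference. -/
private theorem Rt1_d2 (c : Crd) (x : V) (α m : ℝ) {K : ℕ} (hK : 0 < K) :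
    |c.p (Rt1_f c x α m K (K + 1 + 1) - Rt1_f c x α m K (K + 1)) - (α * c.p x + m)| ≤ c.C ∧
    |c.q (Rt1_f c x α m K (K + 1 + 1) - Rt1_f c x α m K (K + 1)) - (α * c.q x - m)| ≤ c.C := by
  obtain ⟨a1, a2⟩ := Rt1_fm c x α m K (i := K + 1) (by omega) le_rfl
  have hK' : (K : ℝ) ≠ 0 := by exact_mod_cast hK.ne'
  have e1 : (α + (1 - 2 * α) * (((K + 1 : ℕ) : ℝ) - 1) / K) = 1 - α := by
    push_cast
    field_simp
    ring
  have e2 : Rt1_f c x α m K (K + 1 + 1) = x := Rt1_fl c x α m K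
  rw [e1] at a1 a2
  rw [e2, map_sub, map_sub]
  rw [abs_le] at a1 a2 ⊢
  rw [abs_le]
  refine ⟨⟨?_, ?_⟩, ?_, ?_⟩ <;> linarith [a1.1, a1.2, a2.1, a2.2]

/-- The numbers. -/
private structure Rt1_N (c : Crd) (D : ℝ) (x : V) (lam : ℝ) (K : ℕ) : Prop where
  C1 : 1 ≤ c.C
  D3 : 3 ≤ D
  l0 : 0 < lam
  l1 : lam ≤ 1 / 100
  K0 : 0 < K
  hK : 200 * D ≤ lam * K
  nK : 400000 * (D * c.C) ≤ lv c x / K
  ln : 4000 * (D * c.C) * K ≤ lam * lv c x
  Kl : 60000 ≤ (K : ℝ)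
  px : lv c x ≤ D * c.p x + (4 * D + 8) * c.C
  qx : lv c x ≤ D * c.q x + (4 * D + 8) * c.C

private theorem Rt1_num {c : Crd} {D : ℝ} (hD : 3 ≤ D) {x : V} {lam : ℝ} {K : ℕ}
    (hx : x ∈ Md c D) (hl0 : 0 < lam) (hl1 : lam ≤ 1 / 100) (hK : 200 * D ≤ lam * K)
    (hn : 4000 * D * c.C * K / lam ≤ lv c x) : Rt1_N c D x lam K := by
  have hC := c.one_le
  have hKr : 60000 ≤ (K : ℝ) := by
    have h1 : lam * K ≤ 1 / 100 * K := mul_le_mul_of_nonneg_right hl1 (Nat.cast_nonneg K)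
    linarith
  have hK0 : 0 < K := by
    have : (0 : ℝ) < K := by linarith
    exact_mod_cast this
  have hKp : (0 : ℝ) < K := by linarith
  have h2 : 4000 * (D * c.C) * K ≤ lam * lv c x := by
    have := (div_le_iff₀ hl0).1 hn
    linarith
  have hDC : 0 ≤ D * c.C := by positivity
  have h3 : 400000 * (D * c.C) ≤ lv c x / K := by
    rw [le_div_iff₀ hKp]
    have h5 : 0 ≤ lv c x := le_trans (by positivity) hn
    have h4 : lam * lv c x ≤ 1 / 100 * lv c x := mul_le_mul_of_nonneg_right hl1 h5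
    linarith
  exact ⟨hC, hD, hl0, hl1, hK0, hK, h3, h2, hKr, hx.1, hx.2⟩

/-- The vectors to which `hfail` applies. -/
private def Rt1_G (c : Crd) (D : ℝ) (x : V) (K : ℕ) (z : V) : Prop :=
  lv c z ≤ 2 * D * c.p z ∧ lv c z ≤ 2 * D * c.q z ∧ lv c x / (2 * K) ≤ lv c z ∧ lv c z ≤ lv c x

private theorem Rt1_w {c : Crd} {D : ℝ} {x : V} {lam : ℝ} {K : ℕ} (N : Rt1_N c D x lam K) :
    600 * (lv c x / K) ≤ lam * lv c x ∧ 60000 * (lv c x / K) ≤ lv c x ∧ 0 ≤ D * c.C ∧ 3 * c.C ≤ D * c.C ∧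
      0 < lv c x / K ∧ lam * lv c x ≤ 1 / 100 * lv c x ∧ lv c x / (2 * K) = lv c x / K / 2 ∧
      lam * (lv c x / K) ≤ 1 / 100 * (lv c x / K) := by
  have hKp : (0 : ℝ) < K := by linarith [N.Kl]
  have hC := N.C1
  have hD := N.D3
  have hDC : 0 ≤ D * c.C := by positivity
  have h3 : 3 * c.C ≤ D * c.C := mul_le_mul_of_nonneg_right hD (by linarith)
  have hw : 0 < lv c x / K := by linarith [N.nK]
  have e : (K : ℝ) * (lv c x / K) = lv c x := by field_simp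
  have h60 : 60000 * (lv c x / K) ≤ K * (lv c x / K) := mul_le_mul_of_nonneg_right N.Kl hw.le
  rw [e] at h60
  have h2 : 600 * (lv c x / K) ≤ lam * K * (lv c x / K) :=
    mul_le_mul_of_nonneg_right (by linarith [N.hK]) hw.le
  rw [mul_assoc, e] at h2
  refine ⟨h2, h60, hDC, h3, hw, mul_le_mul_of_nonneg_right N.l1 (by linarith), ?_,
    mul_le_mul_of_nonneg_right N.l1 hw.le⟩
  rw [mul_comm, div_div]

/-- The vectors at the ends of route 1. -/
private theorem Rt1_G0 {c : Crd} {D : ℝ} {x : V} {lam : ℝ} {K : ℕ} (N : Rt1_N c D x lam K) {μ : ℝ}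
    (hμ : 20 * (D * μ) = lam * lv c x) {z : V} (hp : lam * c.p x - μ - c.C ≤ c.p z)
    (hq : lam * c.q x - μ - c.C ≤ c.q z) (h1 : |lv c z - lam * lv c x| ≤ 2 * c.C) : Rt1_G c D x K z := by
  obtain ⟨w1, w2, w3, w4, w5, w6, w7, w8⟩ := Rt1_w N
  have hC := N.C1
  have hD := N.D3
  have hK := N.Kl
  have hnK := N.nK
  have hl0 := N.l0
  have hl1 := N.l1
  have hpx := N.px
  have hqx := N.qx
  have g1 : lam * (lv c x - (4 * D + 8) * c.C) ≤ lam * (D * c.p x) := mul_le_mul_of_nonneg_left (by linarith) hl0.le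
  have g2 : lam * (lv c x - (4 * D + 8) * c.C) ≤ lam * (D * c.q x) := mul_le_mul_of_nonneg_left (by linarith) hl0.le
  have g3 : D * (lam * c.p x - μ - c.C) ≤ D * c.p z := mul_le_mul_of_nonneg_left hp (by linarith)
  have g4 : D * (lam * c.q x - μ - c.C) ≤ D * c.q z := mul_le_mul_of_nonneg_left hq (by linarith)
  have g5 : lam * (D * c.C) ≤ 1 / 100 * (D * c.C) := mul_le_mul_of_nonneg_right hl1 w3
  have g6 : lam * c.C ≤ 1 / 100 * c.C := mul_le_mul_of_nonneg_right hl1 (by linarith)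
  have h2 := (abs_le.1 h1).1
  have h3 := (abs_le.1 h1).2
  refine ⟨?_, ?_, ?_, ?_⟩
  · linarith
  · linarith
  · rw [w7]
    linarith
  · linarith

/-- The middle vectors of route 1. -/
private theorem Rt1_G1 {c : Crd} {D : ℝ} {x : V} {lam : ℝ} {K : ℕ} (N : Rt1_N c D x lam K)
    {z : V} (hp : |c.p z - (1 - 2 * lam) / K * c.p x| ≤ 2 * c.C)
    (hq : |c.q z - (1 - 2 * lam) / K * c.q x| ≤ 2 * c.C) : Rt1_G c D x K z := by
  obtain ⟨w1, w2, w3, w4, w5, w6, w7, w8⟩ := Rt1_w N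
  have hC := N.C1
  have hD := N.D3
  have hK := N.Kl
  have hnK := N.nK
  have hl0 := N.l0
  have hl1 := N.l1
  have hpx := N.px
  have hqx := N.qx
  have hKp : (0 : ℝ) < K := by linarith
  obtain ⟨σ, hσ⟩ : ∃ σ : ℝ, σ = (1 - 2 * lam) / K := ⟨_, rfl⟩
  rw [← hσ] at hp hq
  have g7 : 0 ≤ lam * (lv c x / K) := mul_nonneg hl0.le w5.le
  have s0 : 0 ≤ σ := by
    rw [hσ]
    exact div_nonneg (by linarith) hKp.le
  have s1 : σ ≤ 1 / 100 := by
    rw [hσ, div_le_iff₀ hKp]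
    linarith
  have s2 : σ * lv c x = (1 - 2 * lam) * (lv c x / K) := by
    rw [hσ]
    ring
  have g1 : σ * (lv c x - (4 * D + 8) * c.C) ≤ σ * (D * c.p x) := mul_le_mul_of_nonneg_left (by linarith) s0
  have g2 : σ * (lv c x - (4 * D + 8) * c.C) ≤ σ * (D * c.q x) := mul_le_mul_of_nonneg_left (by linarith) s0
  rw [abs_le] at hp hq
  have g3 : D * (σ * c.p x - 2 * c.C) ≤ D * c.p z := mul_le_mul_of_nonneg_left (by linarith [hp.1]) (by linarith)
  have g4 : D * (σ * c.q x - 2 * c.C) ≤ D * c.q z := mul_le_mul_of_nonneg_left (by linarith [hq.1]) (by linarith)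
  have g5 : σ * (D * c.C) ≤ 1 / 100 * (D * c.C) := mul_le_mul_of_nonneg_right s1 w3
  have g6 : σ * c.C ≤ 1 / 100 * c.C := mul_le_mul_of_nonneg_right s1 (by linarith)
  have e1 : lv c z = c.p z + c.q z := rfl
  have e2 : lv c x = c.p x + c.q x := rfl
  have e3 : σ * lv c x = σ * c.p x + σ * c.q x := by rw [e2]; ring
  have h2 : lv c z ≤ σ * lv c x + 4 * c.C := by rw [e1, e3]; linarith [hp.2, hq.2]
  have h3 : σ * lv c x - 4 * c.C ≤ lv c z := by rw [e1, e3]; linarith [hp.1, hq.1]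
  clear e1 e2 e3
  refine ⟨?_, ?_, ?_, ?_⟩
  · linarith
  · linarith
  · rw [w7]
    linarith
  · linarith

/-- The vectors at the ends of route 2. -/
private theorem Rt1_H0 {c : Crd} {D : ℝ} {x : V} {lam : ℝ} {K : ℕ} (N : Rt1_N c D x lam K) {z : V}
    (hp : |c.p z - 2 * lam * c.p x| ≤ c.C) (hq : |c.q z - 2 * lam * c.q x| ≤ c.C) :
    z ∈ Md c D ∧ (4 * D + 8) * c.C ≤ lv c z ∧ lv c z ≤ 3 * lam * lv c x := by
  obtain ⟨w1, w2, w3, w4, w5, w6, w7, w8⟩ := Rt1_w N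
  have hC := N.C1
  have hD := N.D3
  have hK := N.Kl
  have hnK := N.nK
  have hl0 := N.l0
  have hl1 := N.l1
  have hpx := N.px
  have hqx := N.qx
  have g1 : lam * (lv c x - (4 * D + 8) * c.C) ≤ lam * (D * c.p x) := mul_le_mul_of_nonneg_left (by linarith) hl0.le
  have g2 : lam * (lv c x - (4 * D + 8) * c.C) ≤ lam * (D * c.q x) := mul_le_mul_of_nonneg_left (by linarith) hl0.le
  rw [abs_le] at hp hq
  have g3 : D * (2 * lam * c.p x - c.C) ≤ D * c.p z := mul_le_mul_of_nonneg_left (by linarith [hp.1]) (by linarith)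
  have g4 : D * (2 * lam * c.q x - c.C) ≤ D * c.q z := mul_le_mul_of_nonneg_left (by linarith [hq.1]) (by linarith)
  have g5 : lam * (D * c.C) ≤ 1 / 100 * (D * c.C) := mul_le_mul_of_nonneg_right hl1 w3
  have g6 : lam * c.C ≤ 1 / 100 * c.C := mul_le_mul_of_nonneg_right hl1 (by linarith)
  have e1 : lv c z = c.p z + c.q z := rfl
  have e2 : lv c x = c.p x + c.q x := rfl
  have e3 : lam * lv c x = lam * c.p x + lam * c.q x := by rw [e2]; ring
  have h2 : lv c z ≤ 2 * (lam * lv c x) + 2 * c.C := by rw [e1, e3]; linarith [hp.2, hq.2]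
  have h3 : 2 * (lam * lv c x) - 2 * c.C ≤ lv c z := by rw [e1, e3]; linarith [hp.1, hq.1]
  clear e1 e2 e3
  refine ⟨⟨?_, ?_⟩, ?_, ?_⟩
  · linarith
  · linarith
  · linarith
  · linarith

/-- The middle vectors of route 2. -/
private theorem Rt1_H1 {c : Crd} {D : ℝ} {x : V} {lam : ℝ} {K : ℕ} (N : Rt1_N c D x lam K)
    {z : V} (hp : |c.p z - (1 - 2 * (2 * lam)) / K * c.p x| ≤ 2 * c.C)
    (hq : |c.q z - (1 - 2 * (2 * lam)) / K * c.q x| ≤ 2 * c.C) :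
    z ∈ Md c D ∧ (4 * D + 8) * c.C ≤ lv c z ∧ lv c z ≤ lv c x := by
  obtain ⟨w1, w2, w3, w4, w5, w6, w7, w8⟩ := Rt1_w N
  have hC := N.C1
  have hD := N.D3
  have hK := N.Kl
  have hnK := N.nK
  have hl0 := N.l0
  have hl1 := N.l1
  have hpx := N.px
  have hqx := N.qx
  have hKp : (0 : ℝ) < K := by linarith
  obtain ⟨σ, hσ⟩ : ∃ σ : ℝ, σ = (1 - 2 * (2 * lam)) / K := ⟨_, rfl⟩
  rw [← hσ] at hp hq
  have g7 : 0 ≤ lam * (lv c x / K) := mul_nonneg hl0.le w5.le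
  have s0 : 0 ≤ σ := by
    rw [hσ]
    exact div_nonneg (by linarith) hKp.le
  have s1 : σ ≤ 1 / 100 := by
    rw [hσ, div_le_iff₀ hKp]
    linarith
  have s2 : σ * lv c x = (1 - 2 * (2 * lam)) * (lv c x / K) := by
    rw [hσ]
    ring
  have g1 : σ * (lv c x - (4 * D + 8) * c.C) ≤ σ * (D * c.p x) := mul_le_mul_of_nonneg_left (by linarith) s0
  have g2 : σ * (lv c x - (4 * D + 8) * c.C) ≤ σ * (D * c.q x) := mul_le_mul_of_nonneg_left (by linarith) s0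
  rw [abs_le] at hp hq
  have g3 : D * (σ * c.p x - 2 * c.C) ≤ D * c.p z := mul_le_mul_of_nonneg_left (by linarith [hp.1]) (by linarith)
  have g4 : D * (σ * c.q x - 2 * c.C) ≤ D * c.q z := mul_le_mul_of_nonneg_left (by linarith [hq.1]) (by linarith)
  have g5 : σ * (D * c.C) ≤ 1 / 100 * (D * c.C) := mul_le_mul_of_nonneg_right s1 w3
  have g6 : σ * c.C ≤ 1 / 100 * c.C := mul_le_mul_of_nonneg_right s1 (by linarith)
  have e1 : lv c z = c.p z + c.q z := rfl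
  have e2 : lv c x = c.p x + c.q x := rfl
  have e3 : σ * lv c x = σ * c.p x + σ * c.q x := by rw [e2]; ring
  have h2 : lv c z ≤ σ * lv c x + 4 * c.C := by rw [e1, e3]; linarith [hp.2, hq.2]
  have h3 : σ * lv c x - 4 * c.C ≤ lv c z := by rw [e1, e3]; linarith [hp.1, hq.1]
  clear e1 e2 e3
  refine ⟨⟨?_, ?_⟩, ?_, ?_⟩
  · linarith
  · linarith
  · linarith
  · linarith

private theorem Rt1_cases {K i : ℕ} (h : i < K + 2) : i = 0 ∨ (1 ≤ i ∧ i ≤ K) ∨ i = K + 1 := by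
  omega

/-- All differences of route 1. -/
private theorem Rt1_G2 {c : Crd} {D : ℝ} {x : V} {lam : ℝ} {K : ℕ} (N : Rt1_N c D x lam K) {μ : ℝ}
    (hμ : 20 * (D * μ) = lam * lv c x) (hμ0 : 0 ≤ μ) {i : ℕ} (hi : i < K + 2) :
    Rt1_G c D x K (Rt1_f c x lam μ K (i + 1) - Rt1_f c x lam μ K i) := by
  have e2 : lv c x = c.p x + c.q x := rfl
  have e3 : lam * lv c x = lam * c.p x + lam * c.q x := by rw [e2]; ring
  rcases Rt1_cases hi with h | h | h
  · subst h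
    obtain ⟨h1, h2⟩ := Rt1_d0 c x lam μ K
    have e1 : lv c (Rt1_f c x lam μ K (0 + 1) - Rt1_f c x lam μ K 0) =
      c.p (Rt1_f c x lam μ K (0 + 1) - Rt1_f c x lam μ K 0) + c.q (Rt1_f c x lam μ K (0 + 1) - Rt1_f c x lam μ K 0) := rfl
    rw [abs_le] at h1 h2
    refine Rt1_G0 N hμ (by linarith [h1.1]) (by linarith [h2.1]) ?_
    rw [e1, e3, abs_le]
    constructor <;> linarith [h1.1, h1.2, h2.1, h2.2]
  · obtain ⟨h1, h2⟩ := Rt1_d1 c x lam μ K h.1 h.2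
    exact Rt1_G1 N h1 h2
  · subst h
    obtain ⟨h1, h2⟩ := Rt1_d2 c x lam μ N.K0
    have e1 : lv c (Rt1_f c x lam μ K (K + 1 + 1) - Rt1_f c x lam μ K (K + 1)) =
      c.p (Rt1_f c x lam μ K (K + 1 + 1) - Rt1_f c x lam μ K (K + 1)) +
        c.q (Rt1_f c x lam μ K (K + 1 + 1) - Rt1_f c x lam μ K (K + 1)) := rfl
    rw [abs_le] at h1 h2
    refine Rt1_G0 N hμ (by linarith [h1.1]) (by linarith [h2.1]) ?_
    rw [e1, e3, abs_le]
    constructor <;> linarith [h1.1, h1.2, h2.1, h2.2]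

/-- All differences of route 2. -/
private theorem Rt1_H2 {c : Crd} {D : ℝ} {x : V} {lam : ℝ} {K : ℕ} (N : Rt1_N c D x lam K) {i : ℕ} (hi : i < K + 2) :
    Rt1_f c x (2 * lam) 0 K (i + 1) - Rt1_f c x (2 * lam) 0 K i ∈ Md c D ∧
      (4 * D + 8) * c.C ≤ lv c (Rt1_f c x (2 * lam) 0 K (i + 1) - Rt1_f c x (2 * lam) 0 K i) ∧
      lv c (Rt1_f c x (2 * lam) 0 K (i + 1) - Rt1_f c x (2 * lam) 0 K i) ≤ lv c x ∧
      (i = 0 ∨ i = K + 1 → lv c (Rt1_f c x (2 * lam) 0 K (i + 1) - Rt1_f c x (2 * lam) 0 K i) ≤ 3 * lam * lv c x) := by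
  obtain ⟨w1, w2, w3, w4, w5, w6, w7, w8⟩ := Rt1_w N
  rcases Rt1_cases hi with h | h | h
  · subst h
    obtain ⟨h1, h2⟩ := Rt1_d0 c x (2 * lam) 0 K
    rw [sub_zero] at h1
    rw [add_zero] at h2
    obtain ⟨a1, a2, a3⟩ := Rt1_H0 N h1 h2
    exact ⟨a1, a2, by linarith, fun _ => a3⟩
  · obtain ⟨h1, h2⟩ := Rt1_d1 c x (2 * lam) 0 K h.1 h.2
    obtain ⟨a1, a2, a3⟩ := Rt1_H1 N h1 h2
    exact ⟨a1, a2, a3, fun h' => by omega⟩
  · subst h
    obtain ⟨h1, h2⟩ := Rt1_d2 c x (2 * lam) 0 N.K0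
    rw [add_zero] at h1
    rw [sub_zero] at h2
    obtain ⟨a1, a2, a3⟩ := Rt1_H0 N h1 h2
    exact ⟨a1, a2, by linarith, fun _ => a3⟩

private theorem Rt1_GW {c : Crd} {D : ℝ} {x : V} {lam : ℝ} {K : ℕ} (N : Rt1_N c D x lam K) {z : V}
    (h : Rt1_G c D x K z) : z ∈ Wc c := by
  obtain ⟨w1, w2, w3, w4, w5, w6, w7, w8⟩ := Rt1_w N
  obtain ⟨h1, h2, h3, h4⟩ := h
  have hD := N.D3
  rw [w7] at h3
  have h5 : 0 < lv c z := by linarith
  refine Wc_of_nonneg ?_ ?_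
  · by_contra hc
    have : 2 * D * c.p z ≤ 0 := mul_nonpos_of_nonneg_of_nonpos (by linarith) (not_le.1 hc).le
    linarith
  · by_contra hc
    have : 2 * D * c.q z ≤ 0 := mul_nonpos_of_nonneg_of_nonpos (by linarith) (not_le.1 hc).le
    linarith

/-- Sums of the differences. -/
private theorem Rt1_sum {c : Crd} (f : ℕ → V) {m : ℕ} (h : ∀ i < m, f (i + 1) - f i ∈ Wc c) {i j : ℕ} (hij : i ≤ j)
    (hj : j ≤ m) : f j - f i ∈ Wc c := by
  induction j, hij using Nat.le_induction with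
  | base =>
    rw [sub_self]
    exact Wc_zero c
  | succ j hij ih =>
    have h1 := ih (by omega)
    have h2 := h j (by omega)
    have h5 : f (j + 1) - f i = (f j - f i) + (f (j + 1) - f j) := by abel
    rw [h5]
    exact Wc_add h1 h2

/-- The double cones of a route are small. -/
private theorem Rt1_nm {c : Crd} (f : ℕ → V) {m : ℕ} (h : ∀ i < m, f (i + 1) - f i ∈ Wc c) (h0 : f 0 = 0) {i : ℕ}
    (hi : i < m) {z : V} (hz : z ∈ Dc c (f i) (f (i + 1))) : nm z ≤ 4 * c.C * lv c (f m) := by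
  have h1 := Rt1_sum f h (Nat.zero_le i) hi.le
  have h2 := Rt1_sum f h (i := i + 1) (j := m) (by omega) le_rfl
  have h3 : z ∈ Dc c (f 0) (f m) := by
    refine ⟨?_, ?_⟩
    · have : z - f 0 = (f i - f 0) + (z - f i) := by abel
      rw [this]
      exact Wc_add h1 hz.1
    · have : f m - z = (f m - f (i + 1)) + (f (i + 1) - z) := by abel
      rw [this]
      exact Wc_add h2 hz.2
  have h4 := Dc_nm h3
  rwa [h0, sub_zero, sub_zero] at h4

/-- The parameter of a vertex of a route. -/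
private theorem Rt1_t {α : ℝ} (hα : α ≤ 1 / 2) {K i : ℕ} (h1 : 1 ≤ i) (h2 : i ≤ K + 1) :
    α ≤ α + (1 - 2 * α) * ((i : ℝ) - 1) / K ∧ α + (1 - 2 * α) * ((i : ℝ) - 1) / K ≤ 1 - α := by
  have a1 : (1 : ℝ) ≤ i := by exact_mod_cast h1
  have a2 : (i : ℝ) ≤ K + 1 := by exact_mod_cast h2
  have a3 : (0 : ℝ) ≤ K := Nat.cast_nonneg K
  have a4 : 0 ≤ ((i : ℝ) - 1) / K := div_nonneg (by linarith) a3
  have a5 : ((i : ℝ) - 1) / K ≤ 1 := div_le_one_of_le₀ (by linarith) a3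
  have a6 : (1 - 2 * α) * ((i : ℝ) - 1) / K = (1 - 2 * α) * (((i : ℝ) - 1) / K) := by ring
  rw [a6]
  have a7 : 0 ≤ (1 - 2 * α) * (((i : ℝ) - 1) / K) := mul_nonneg (by linarith) a4
  have a8 : (1 - 2 * α) * (((i : ℝ) - 1) / K) ≤ (1 - 2 * α) * 1 := mul_le_mul_of_nonneg_left a5 (by linarith)
  constructor <;> linarith

private theorem Rt1_pos {c : Crd} {D : ℝ} {x : V} {lam : ℝ} {K : ℕ} (N : Rt1_N c D x lam K) :
    0 < c.p x ∧ 0 < c.q x := by
  obtain ⟨w1, w2, w3, w4, w5, w6, w7, w8⟩ := Rt1_w N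
  have hC := N.C1
  have hD := N.D3
  have hnK := N.nK
  have hpx := N.px
  have hqx := N.qx
  constructor
  · by_contra h
    have h1 : D * c.p x ≤ 0 := mul_nonpos_of_nonneg_of_nonpos (by linarith) (not_lt.1 h)
    linarith
  · by_contra h
    have h1 : D * c.q x ≤ 0 := mul_nonpos_of_nonneg_of_nonpos (by linarith) (not_lt.1 h)
    linarith

/-- The double cones of route 1 are disjoint from the middle double cones of route 2. -/
private theorem Rt1_disj {c : Crd} {D : ℝ} {x : V} {lam : ℝ} {K : ℕ} (N : Rt1_N c D x lam K) {μ : ℝ}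
    (hμ : 20 * (D * μ) = lam * lv c x) {i j : ℕ} (hi : i < K + 2) (hj1 : 1 ≤ j) (hj2 : j ≤ K) {z : V}
    (hz : z ∈ Dc c (Rt1_f c x lam μ K i) (Rt1_f c x lam μ K (i + 1)))
    (hz' : z ∈ Dc c (Rt1_f c x (2 * lam) 0 K j) (Rt1_f c x (2 * lam) 0 K (j + 1))) : False := by
  obtain ⟨w1, w2, w3, w4, w5, w6, w7, w8⟩ := Rt1_w N
  obtain ⟨P0, q0⟩ := Rt1_pos N
  have hC := N.C1
  have hD := N.D3
  have hnK := N.nK
  have hl0 := N.l0
  have hl1 := N.l1
  have e2 : lv c x = c.p x + c.q x := rfl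
  have e3 : lam * lv c x = lam * c.p x + lam * c.q x := by rw [e2]; ring
  have hn0 : 0 < lv c x := by linarith
  obtain ⟨z1, z2⟩ := Dc_lv hz'
  obtain ⟨u1, u2⟩ := Rt1_fm c x (2 * lam) 0 K (i := j) hj1 (by omega)
  obtain ⟨v1, v2⟩ := Rt1_fm c x (2 * lam) 0 K (i := j + 1) (by omega) (by omega)
  obtain ⟨r1, r2⟩ := Rt1_t (α := 2 * lam) (by linarith) (K := K) (i := j) hj1 (by omega)
  obtain ⟨r3, r4⟩ := Rt1_t (α := 2 * lam) (by linarith) (K := K) (i := j + 1) (by omega) (by omega)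
  obtain ⟨s, hs⟩ : ∃ s : ℝ, s = 2 * lam + (1 - 2 * (2 * lam)) * ((j : ℝ) - 1) / K := ⟨_, rfl⟩
  obtain ⟨s', hs'⟩ : ∃ s' : ℝ, s' = 2 * lam + (1 - 2 * (2 * lam)) * (((j + 1 : ℕ) : ℝ) - 1) / K := ⟨_, rfl⟩
  rw [← hs] at u1 u2 r1 r2
  rw [← hs'] at v1 v2 r3 r4
  rw [abs_le] at u1 u2 v1 v2
  have hlow : 2 * (lam * lv c x) - 2 * c.C ≤ lv c z := by
    have h1 : 2 * lam * lv c x ≤ s * lv c x := mul_le_mul_of_nonneg_right r1 hn0.le
    have h2 : s * lv c x = s * c.p x + s * c.q x := by rw [e2]; ring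
    have h3 : lv c (Rt1_f c x (2 * lam) 0 K j) = c.p (Rt1_f c x (2 * lam) 0 K j) + c.q (Rt1_f c x (2 * lam) 0 K j) := rfl
    linarith [u1.1, u2.1]
  have hupp : lv c z ≤ lv c x - 2 * (lam * lv c x) + 2 * c.C := by
    have h1 : s' * lv c x ≤ (1 - 2 * lam) * lv c x := mul_le_mul_of_nonneg_right r4 hn0.le
    have h2 : s' * lv c x = s' * c.p x + s' * c.q x := by rw [e2]; ring
    have h3 : lv c (Rt1_f c x (2 * lam) 0 K (j + 1)) =
      c.p (Rt1_f c x (2 * lam) 0 K (j + 1)) + c.q (Rt1_f c x (2 * lam) 0 K (j + 1)) := rfl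
    linarith [v1.2, v2.2]
  obtain ⟨y1, y2⟩ := Dc_lv hz
  rcases Rt1_cases hi with h | h | h
  · subst h
    obtain ⟨h1, h2⟩ := Rt1_d0 c x lam μ K
    rw [Rt1_f0, sub_zero] at h1 h2
    rw [abs_le] at h1 h2
    have h3 : lv c (Rt1_f c x lam μ K (0 + 1)) = c.p (Rt1_f c x lam μ K (0 + 1)) + c.q (Rt1_f c x lam μ K (0 + 1)) := rfl
    linarith [h1.2, h2.2]
  · obtain ⟨a1, a2⟩ := Rt1_fm c x lam μ K (i := i) h.1 (by omega)
    obtain ⟨t, ht⟩ : ∃ t : ℝ, t = lam + (1 - 2 * lam) * ((i : ℝ) - 1) / K := ⟨_, rfl⟩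
    rw [← ht] at a1 a2
    rw [abs_le] at a1 a2
    obtain ⟨b1, b2⟩ := Rt1_d1 c x lam μ K h.1 h.2
    obtain ⟨b3, b4⟩ := Rt1_d1 c x (2 * lam) 0 K hj1 hj2
    have hσ : ∀ α : ℝ, 0 ≤ α → (1 - 2 * α) / K * c.p x + (1 - 2 * α) / K * c.q x ≤ lv c x / K := by
      intro α hα
      have h1 : (1 - 2 * α) / K * c.p x + (1 - 2 * α) / K * c.q x = (1 - 2 * α) * (lv c x / K) := by
        rw [e2]
        ring
      rw [h1]
      have : 0 ≤ α * (lv c x / K) := mul_nonneg hα w5.le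
      linarith
    have c1 := hσ lam hl0.le
    have c2 := hσ (2 * lam) (by linarith)
    rw [abs_le] at b1 b2 b3 b4
    obtain ⟨p1, p2⟩ := Dc_pq hz
    obtain ⟨p3, p4⟩ := Dc_pq hz'
    obtain ⟨L1, hL1⟩ : ∃ L1 : ℝ, L1 = lv c (Rt1_f c x lam μ K (i + 1) - Rt1_f c x lam μ K i) := ⟨_, rfl⟩
    obtain ⟨L2, hL2⟩ : ∃ L2 : ℝ, L2 = lv c (Rt1_f c x (2 * lam) 0 K (j + 1) - Rt1_f c x (2 * lam) 0 K j) := ⟨_, rfl⟩
    have l1 : L1 ≤ lv c x / K + 4 * c.C := by
      have e4 : lv c (Rt1_f c x lam μ K (i + 1) - Rt1_f c x lam μ K i) =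
        c.p (Rt1_f c x lam μ K (i + 1) - Rt1_f c x lam μ K i) + c.q (Rt1_f c x lam μ K (i + 1) - Rt1_f c x lam μ K i) := rfl
      linarith [b1.2, b2.2]
    have l2 : L2 ≤ lv c x / K + 4 * c.C := by
      have e4 : lv c (Rt1_f c x (2 * lam) 0 K (j + 1) - Rt1_f c x (2 * lam) 0 K j) =
        c.p (Rt1_f c x (2 * lam) 0 K (j + 1) - Rt1_f c x (2 * lam) 0 K j) +
          c.q (Rt1_f c x (2 * lam) 0 K (j + 1) - Rt1_f c x (2 * lam) 0 K j) := rfl
      linarith [b3.2, b4.2]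
    rw [← hL1] at p1 p2
    rw [← hL2] at p3 p4
    rw [map_sub, abs_le] at p1 p2 p3 p4
    obtain ⟨A, hA⟩ : ∃ A : V, A = Rt1_f c x lam μ K i := ⟨_, rfl⟩
    obtain ⟨U, hU⟩ : ∃ U : V, U = Rt1_f c x (2 * lam) 0 K j := ⟨_, rfl⟩
    rw [← hA] at a1 a2 p1 p2
    rw [← hU] at u1 u2 p3 p4
    have g1 : c.p x * (t * c.q x + μ - c.C) ≤ c.p x * c.q A := mul_le_mul_of_nonneg_left (by linarith [a2.1]) P0.le
    have g2 : c.q x * c.p A ≤ c.q x * (t * c.p x - μ + c.C) := mul_le_mul_of_nonneg_left (by linarith [a1.2]) q0.le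
    have g3 : c.p x * (-(2 * L1)) ≤ c.p x * (c.q z - c.q A) := mul_le_mul_of_nonneg_left p2.1 P0.le
    have g4 : c.q x * (c.p z - c.p A) ≤ c.q x * (2 * L1) := mul_le_mul_of_nonneg_left p1.2 q0.le
    have g5 : c.p x * c.q U ≤ c.p x * (s * c.q x + c.C) := mul_le_mul_of_nonneg_left (by linarith [u2.2]) P0.le
    have g6 : c.q x * (s * c.p x - c.C) ≤ c.q x * c.p U := mul_le_mul_of_nonneg_left (by linarith [u1.1]) q0.le
    have g7 : c.p x * (c.q z - c.q U) ≤ c.p x * (2 * L2) := mul_le_mul_of_nonneg_left p4.2 P0.le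
    have g8 : c.q x * (-(2 * L2)) ≤ c.q x * (c.p z - c.p U) := mul_le_mul_of_nonneg_left p3.1 q0.le
    have hμ10 : 10 * (lv c x / K) ≤ μ := by
      have hKp : (0 : ℝ) < K := by linarith [N.Kl]
      have e : (K : ℝ) * (lv c x / K) = lv c x := by field_simp
      have h2 : 200 * D * (lv c x / K) ≤ lam * K * (lv c x / K) := mul_le_mul_of_nonneg_right N.hK w5.le
      rw [mul_assoc lam, e] at h2
      have h3 : D * (10 * (lv c x / K)) ≤ D * μ := by linarith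
      exact le_of_mul_le_mul_left h3 (by linarith)
    have g9 : 0 < (c.p x + c.q x) * (μ - 2 * c.C - 2 * L1 - 2 * L2) := mul_pos (by linarith) (by linarith)
    linarith
  · subst h
    obtain ⟨h1, h2⟩ := Rt1_d2 c x lam μ N.K0
    have e4 : Rt1_f c x lam μ K (K + 1 + 1) = x := Rt1_fl c x lam μ K
    rw [e4, map_sub] at h1 h2
    rw [abs_le] at h1 h2
    have h3 : lv c (Rt1_f c x lam μ K (K + 1)) = c.p (Rt1_f c x lam μ K (K + 1)) + c.q (Rt1_f c x lam μ K (K + 1)) := rfl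
    linarith [h1.2, h2.2]

private theorem Rt1_split (K : ℕ) (f : ℕ → ℝ) :
    ∑ i ∈ range (K + 2), f i = f 0 + ∑ i ∈ Ico 1 (K + 1), f i + f (K + 1) := by
  rw [sum_range_succ, range_eq_Ico, sum_eq_sum_Ico_succ_bot (by omega)]

/-- The two routes for one vector, the constants explicit.  PROOF.  `n = lv x`, `μ = λ n / (20 D)`, `K₁ = K`.
ROUTE 1: `a_0 = 0`, `a_i = c.rd (t_i p x - μ) (t_i q x + μ)` for `i = 1, ..., K + 1` with `t_i = λ + (1 - 2 λ) (i - 1) / K`, `a_(K+2) = x`.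
All differences `a_(i+1) - a_i` have `lv ≤ 2 D p`, `lv ≤ 2 D q` (exact values: `p / lv ≥ 1/D - 1/(20 D) - O(C / n)`) and levels in `[λ n / 2, n]` resp. `[n / (2 K), n]`, so
`hfail` applies to them (`P_Tc`).
ROUTE 2: `u_0 = 0`, `u_i = c.rd (s_i p x) (s_i q x)` for `i = 1, ..., K + 1` with `s_i = 2 λ + (1 - 4 λ) (i - 1) / K`, `u_(K+2) = x`; the differences are in `Md c D` (the slack: `s_(i+1) - s_i ≤ 1/2`),
of levels `≤ 3 λ n` for the first and the last, `≤ n` for the others.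
By `Tc_triangle` `Tc 0 x - lv x` is at most the sum of the excesses over route 1, and over route 2.  Let `F` be the event that one of the `K + 2` pieces of route 1 has
excess `≥ e` (`P F ≤ (K + 2) κ`).  Off `F` the positive excess of `x` is at most `(K + 2) e`, on `F` it is at most the sum of the positive excesses of
route 2.  The middle pieces of route 2 (`i = 1, ..., K`) use edges of double cones disjoint from all double cones of route 1: the first and the last piece of route 1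
have levels `≤ λ n + 2 C` resp. `≥ (1 - λ) n - 2 C`, the middle pieces of route 2 have levels in `[2 λ n - 2 C, (1 - 2 λ) n + 2 C]`; for the
middle pieces of route 1 use the functional `ψ z = p x * q z - q x * p z` (`ψ x = 0`): it is `≥ μ n - 2 C n` at the `a_i`, `≤ 2 C n` (in absolute value) at the `u_i`, and varies by at most
`4 n (n / K + 4 C)` on a double cone (`Dc_pq`), `8 n (n / K + 4 C) + 4 C n < μ n` as `200 ≤ λ K`.  `Good.indep` for the indicator of `F` and the sum of the middle excesses (all edges have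
`nm ≤ C n ≤ R`, `Dc_nm`); `E_exc`, `Sc_le_Fm`. -/
theorem two_routes_aux {Q : Par} {g : V → ℝ} {c : Crd} {R D : ℝ} {M : Mdl Q.a Q.b} (hM : Good Q g R M) (hD : 3 ≤ D) {x : V} {lam e κ : ℝ} {K : ℕ}
    (hx : x ∈ Md c D) (hl0 : 0 < lam) (hl1 : lam ≤ 1 / 100) (hK : 200 * D ≤ lam * K) (hn : 4000 * D * c.C * K / lam ≤ lv c x)
    (hR : 100 * c.C * lv c x ≤ R) (he : 0 ≤ e)
    (hfail : ∀ z : V, lv c z ≤ 2 * D * c.p z → lv c z ≤ 2 * D * c.q z → lv c x / (2 * K) ≤ lv c z → lv c z ≤ lv c x →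
      M.P (fun τ => e ≤ Tc Q.b c τ 0 z - lv c z) ≤ κ) :
    Sc M c x ≤ (K + 2) * e + 2 * Fm M c D (3 * lam * lv c x) + (K + 2) * κ * (K * Fm M c D (lv c x)) := by
  classical
  have N := Rt1_num hD hx hl0 hl1 hK hn
  obtain ⟨w1, w2, w3, w4, w5, w6, w7, w8⟩ := Rt1_w N
  have hC := c.one_le
  have hD0 : 0 < D := by linarith
  have hn0 : 0 < lv c x := by linarith
  obtain ⟨μ, hμd⟩ : ∃ μ : ℝ, μ = lam * lv c x / (20 * D) := ⟨_, rfl⟩
  have hμ : 20 * (D * μ) = lam * lv c x := by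
    rw [hμd]
    field_simp
  have hμ0 : 0 ≤ μ := by
    rw [hμd]
    positivity
  have hG : ∀ i < K + 2, Rt1_G c D x K (Rt1_f c x lam μ K (i + 1) - Rt1_f c x lam μ K i) :=
    fun i hi => Rt1_G2 N hμ hμ0 hi
  have hH : ∀ i < K + 2, _ := fun i (hi : i < K + 2) => Rt1_H2 N hi
  have hdj : ∀ i j : ℕ, i < K + 2 → 1 ≤ j → j ≤ K → ∀ z : V,
      z ∈ Dc c (Rt1_f c x lam μ K i) (Rt1_f c x lam μ K (i + 1)) →
      z ∈ Dc c (Rt1_f c x (2 * lam) 0 K j) (Rt1_f c x (2 * lam) 0 K (j + 1)) → False :=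
    fun i j hi hj1 hj2 z hz hz' => Rt1_disj N hμ hi hj1 hj2 hz hz'
  have f0 := Rt1_f0 c x lam μ K
  have fl := Rt1_fl c x lam μ K
  have u0 := Rt1_f0 c x (2 * lam) 0 K
  have ul := Rt1_fl c x (2 * lam) 0 K
  generalize Rt1_f c x lam μ K = f at hG hdj f0 fl
  generalize Rt1_f c x (2 * lam) 0 K = u at hH hdj u0 ul
  have hfW : ∀ i < K + 2, f (i + 1) - f i ∈ Wc c := fun i hi => Rt1_GW N (hG i hi)
  have huW : ∀ i < K + 2, u (i + 1) - u i ∈ Wc c := fun i hi => (Md_Wc hD0 (hH i hi).1 (hH i hi).2.1).1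
  have hlv0 : ∀ i < K + 2, 0 ≤ lv c (u (i + 1) - u i) := fun i hi => Wc_lv (huW i hi)
  -- the event
  obtain ⟨Fl, hFl⟩ : ∃ Fl : Env → Prop, Fl = fun τ => ∃ i ∈ range (K + 2),
    e ≤ Tc Q.b c τ (f i) (f (i + 1)) - lv c (f (i + 1) - f i) := ⟨_, rfl⟩
  obtain ⟨Y, hY⟩ : ∃ Y : ℕ → Env → ℝ, Y = fun i τ =>
    max (Tc Q.b c τ (u i) (u (i + 1)) - lv c (u (i + 1) - u i)) 0 := ⟨_, rfl⟩
  have hY0 : ∀ i τ, 0 ≤ Y i τ := fun i τ => by
    rw [hY]
    exact le_max_right _ _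
  have hEY : ∀ i, M.E (Y i) = Sc M c (u (i + 1) - u i) := fun i => by
    rw [hY]
    exact E_exc hM c (u i) (u (i + 1))
  have hPF : M.P Fl ≤ (K + 2) * κ := by
    rw [hFl]
    refine (M.P_exists_le (range (K + 2)) fun i τ => e ≤ Tc Q.b c τ (f i) (f (i + 1)) - lv c (f (i + 1) - f i)).trans ?_
    refine (sum_le_sum (g := fun _ => κ) fun i hi => ?_).trans ?_
    · obtain ⟨h1, h2, h3, h4⟩ := hG i (mem_range.1 hi)
      have h5 := P_Tc hM c (fun t => e ≤ t - lv c (f (i + 1) - f i)) (f i) (f (i + 1))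
      rw [h5]
      exact hfail _ h1 h2 h3 h4
    · rw [sum_const, card_range, nsmul_eq_mul]
      push_cast
      exact le_rfl
  -- pointwise
  have hpt : ∀ τ, Bd Q.a Q.b τ → max (Tc Q.b c τ 0 x - lv c x) 0 ≤
      ((K + 2) * e + (Y 0 τ + Y (K + 1) τ)) + (if Fl τ then (1 : ℝ) else 0) * ∑ i ∈ Ico 1 (K + 1), Y i τ := by
    intro τ hτ
    have hsum0 : 0 ≤ ∑ i ∈ Ico 1 (K + 1), Y i τ := sum_nonneg fun i _ => hY0 i τ
    have hKe : 0 ≤ ((K : ℝ) + 2) * e := by positivity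
    refine max_le ?_ ?_
    · by_cases hF : Fl τ
      · rw [if_pos hF, one_mul]
        have h1 := (Rt1_chain Q.ha.le Q.hab.le hτ u (K + 2) huW).2
        rw [u0, ul, sub_zero] at h1
        have h2 : ∑ i ∈ range (K + 2), (Tc Q.b c τ (u i) (u (i + 1)) - lv c (u (i + 1) - u i)) ≤
            ∑ i ∈ range (K + 2), Y i τ := sum_le_sum fun i _ => by
          rw [hY]
          exact le_max_left _ _
        rw [Rt1_split K fun i => Y i τ] at h2
        linarith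
      · rw [if_neg hF, zero_mul, add_zero]
        have h1 := (Rt1_chain Q.ha.le Q.hab.le hτ f (K + 2) hfW).2
        rw [f0, fl, sub_zero] at h1
        have h2 : ∑ i ∈ range (K + 2), (Tc Q.b c τ (f i) (f (i + 1)) - lv c (f (i + 1) - f i)) ≤
            ∑ i ∈ range (K + 2), e := sum_le_sum fun i hi => by
          by_contra hc
          refine hF ?_
          rw [hFl]
          exact ⟨i, hi, (not_le.1 hc).le⟩
        rw [sum_const, card_range, nsmul_eq_mul] at h2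
        push_cast at h2
        linarith [hY0 0 τ, hY0 (K + 1) τ]
    · have h1 : 0 ≤ (if Fl τ then (1 : ℝ) else 0) := by split_ifs <;> norm_num
      have h2 := mul_nonneg h1 hsum0
      linarith [hY0 0 τ, hY0 (K + 1) τ]
  -- independence
  have hind : M.E (fun τ => (if Fl τ then (1 : ℝ) else 0) * ∑ i ∈ Ico 1 (K + 1), Y i τ) =
      M.E (fun τ => if Fl τ then (1 : ℝ) else 0) * M.E fun τ => ∑ i ∈ Ico 1 (K + 1), Y i τ := by
    refine hM.indep {e' | ∃ i < K + 2, e' ∈ edg (Dc c (f i) (f (i + 1)))}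
      {e' | ∃ j, (1 ≤ j ∧ j ≤ K) ∧ e' ∈ edg (Dc c (u j) (u (j + 1)))} ?_ ?_
      (fun τ => if Fl τ then (1 : ℝ) else 0) (fun τ => ∑ i ∈ Ico 1 (K + 1), Y i τ) ?_ ?_
    · rw [Set.disjoint_left]
      rintro e' ⟨i, hi, h1⟩ ⟨j, hj, h2⟩
      exact hdj i j hi hj.1 hj.2 e'.1 h1.1 h2.1
    · have h4 : 4 * c.C * lv c x ≤ R := by
        have : 0 ≤ c.C * lv c x := by positivity
        linarith
      rintro e' (⟨i, hi, h1⟩ | ⟨j, hj, h2⟩)
      · have h3 := Rt1_nm f hfW f0 hi h1.1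
        rw [fl] at h3
        linarith
      · have h3 := Rt1_nm u huW u0 (i := j) (by omega) h2.1
        rw [ul] at h3
        linarith
    · intro τ τ' h
      have h1 : ∀ i ∈ range (K + 2), Tc Q.b c τ (f i) (f (i + 1)) = Tc Q.b c τ' (f i) (f (i + 1)) := fun i hi =>
        Tc_dep Q.b c (f i) (f (i + 1)) fun e' he' => h e' ⟨i, mem_range.1 hi, he'⟩
      have h2 : Fl τ ↔ Fl τ' := by
        rw [hFl]
        constructor
        · rintro ⟨i, hi, h3⟩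
          exact ⟨i, hi, by rwa [← h1 i hi]⟩
        · rintro ⟨i, hi, h3⟩
          exact ⟨i, hi, by rwa [h1 i hi]⟩
      show (if Fl τ then (1 : ℝ) else 0) = if Fl τ' then (1 : ℝ) else 0
      simp only [h2]
    · intro τ τ' h
      refine sum_congr rfl fun i hi => ?_
      have hi' := mem_Ico.1 hi
      have h1 : Tc Q.b c τ (u i) (u (i + 1)) = Tc Q.b c τ' (u i) (u (i + 1)) :=
        Tc_dep Q.b c (u i) (u (i + 1)) fun e' he' => h e' ⟨i, ⟨hi'.1, by omega⟩, he'⟩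
      rw [hY]
      show max (Tc Q.b c τ (u i) (u (i + 1)) - _) 0 = max (Tc Q.b c τ' (u i) (u (i + 1)) - _) 0
      rw [h1]
  -- conclusion
  have h1 : Sc M c x ≤ M.E fun τ => ((K + 2) * e + (Y 0 τ + Y (K + 1) τ)) +
      (if Fl τ then (1 : ℝ) else 0) * ∑ i ∈ Ico 1 (K + 1), Y i τ := M.E_mono hpt
  rw [M.E_add, M.E_add, M.E_const, M.E_add, hind, M.E_sum, hEY, hEY] at h1
  have h2 : Sc M c (u (0 + 1) - u 0) ≤ Fm M c D (3 * lam * lv c x) - 1 :=
    Sc_le_Fm M c hD0 (hH 0 (by omega)).1 (hlv0 0 (by omega)) ((hH 0 (by omega)).2.2.2 (Or.inl rfl))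
  have h3 : Sc M c (u (K + 1 + 1) - u (K + 1)) ≤ Fm M c D (3 * lam * lv c x) - 1 :=
    Sc_le_Fm M c hD0 (hH (K + 1) (by omega)).1 (hlv0 (K + 1) (by omega)) ((hH (K + 1) (by omega)).2.2.2 (Or.inr rfl))
  have h4 : ∑ i ∈ Ico 1 (K + 1), M.E (fun τ => Y i τ) ≤ K * Fm M c D (lv c x) := by
    refine (sum_le_sum (g := fun _ => Fm M c D (lv c x)) fun i hi => ?_).trans ?_
    · have hi' := mem_Ico.1 hi
      have h5 := hEY i
      have h6 := Sc_le_Fm M c hD0 (hH i (by omega)).1 (hlv0 i (by omega)) (hH i (by omega)).2.2.1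
      show M.E (Y i) ≤ _
      rw [h5]
      linarith
    · rw [sum_const, Nat.card_Ico, nsmul_eq_mul]
      simp
  have h5 : M.E (fun τ => if Fl τ then (1 : ℝ) else 0) = M.P Fl := by
    rw [M.P_def]
  have h6 : 0 ≤ Fm M c D (lv c x) := by linarith [Fm_one_le M c (D := D) (lv c x)]
  have h7 : 0 ≤ ∑ i ∈ Ico 1 (K + 1), M.E (fun τ => Y i τ) :=
    sum_nonneg fun i _ => M.E_nonneg fun τ _ => hY0 i τ
  have h8 : M.P Fl * ∑ i ∈ Ico 1 (K + 1), M.E (fun τ => Y i τ) ≤ (K + 2) * κ * (K * Fm M c D (lv c x)) :=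
    (mul_le_mul_of_nonneg_left h4 (M.P_nonneg Fl)).trans
      (mul_le_mul_of_nonneg_right hPF (mul_nonneg (Nat.cast_nonneg K) h6))
  rw [h5] at h1
  linarith

end Pool.Agent.W_1b8d5d_fe
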