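import Pool.Agent.W_1b8d5d_fe.Rt1

/-!
MP_1b8d5d_pr (FE): no heavy upper tail at a good scale (section 3 of row 596).
-/

set_option autoImplicit false

namespace Pool.Agent.W_1b8d5d_fe

open Finset Pool.Agent.W_1b8d5d_h85

/-- A small number with a small power. -/
private theorem Rt2_lam {γ : ℝ} (hγ : 0 < γ) : ∃ lam : ℝ, 0 < lam ∧ lam ≤ 1 / 100 ∧ (3 * lam) ^ γ ≤ 1 / 32 := by
  have h0 : 0 < (1 / 32 : ℝ) ^ (1 / γ) := Real.rpow_pos_of_pos (by norm_num) _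
  have hpos : 0 < min (1 / 100) ((1 / 32 : ℝ) ^ (1 / γ) / 3) := lt_min (by norm_num) (by linarith)
  refine ⟨min (1 / 100) ((1 / 32 : ℝ) ^ (1 / γ) / 3), hpos, min_le_left _ _, ?_⟩
  have h1 : 3 * min (1 / 100) ((1 / 32 : ℝ) ^ (1 / γ) / 3) ≤ (1 / 32 : ℝ) ^ (1 / γ) := by
    have := min_le_right (1 / 100) ((1 / 32 : ℝ) ^ (1 / γ) / 3)
    linarith
  calc _ ≤ ((1 / 32 : ℝ) ^ (1 / γ)) ^ γ := Real.rpow_le_rpow (by linarith) h1 hγ.le
    _ = 1 / 32 := by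
      rw [← Real.rpow_mul (by norm_num), one_div_mul_cancel hγ.ne', Real.rpow_one]

/-- A vector in the middle directions whose passage time exceeds its level by a constant times `Fm M c D s` with a fixed probability.  PROOF.  Choose `λ` with `4 (3 λ) ^ γ ≤ 1/8`,
`K = ⌈200 D / λ⌉`, `c₁ = 1 / (16 K)`, `κ₁ = 1 / (16 K²)`.  Let `x` attain `Fm M c D s` (`Fm_att`), `n = lv x`: `Fm M c D n = Fm M c D s`, so by the hypothesis at `ρ = n` `n ≥ 2 ^ (-1/γ) s` (for `n < 1` use `ρ = 1`),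
`c₃ = 2 ^ (-1/γ) / (4 K)`.  If the statement fails, `two_routes_aux` (with `e = c₁ Fm M c D s`, `κ = κ₁`) gives
`Fm M c D s - 1 ≤ ((K + 2) c₁ + 4 (3 λ) ^ γ + (K + 2) K κ₁) Fm M c D s ≤ (1/2) Fm M c D s`: contradiction when `s ^ γ > 2`. -/
theorem two_routes (Q : Par) (g : V → ℝ) (c : Crd) {D : ℝ} (hD : 3 ≤ D) {γ : ℝ} (hγ : 0 < γ) (hγ1 : γ ≤ 1) :
    ∃ c₁ κ₁ c₃ s₀ : ℝ, 0 < c₁ ∧ c₁ ≤ 1 ∧ 0 < κ₁ ∧ κ₁ ≤ 1 ∧ 0 < c₃ ∧ c₃ ≤ 1 ∧ 1 ≤ s₀ ∧
      ∀ (s R : ℝ) (M : Mdl Q.a Q.b), s₀ ≤ s → s₀ * s ≤ R → Good Q g R M → s ^ γ ≤ Fm M c D s →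
      (∀ ρ : ℝ, 1 ≤ ρ → ρ ≤ s → Fm M c D ρ ≤ 2 * (ρ / s) ^ γ * Fm M c D s) →
      ∃ x : V, lv c x ≤ 2 * D * c.p x ∧ lv c x ≤ 2 * D * c.q x ∧ c₃ * s ≤ lv c x ∧ lv c x ≤ s ∧
        κ₁ ≤ M.P (fun τ => c₁ * Fm M c D s ≤ Tc Q.b c τ 0 x - lv c x) := by
  obtain ⟨lam, hl0, hl1, hl2⟩ := Rt2_lam hγ
  have hC := c.one_le
  obtain ⟨K, hK⟩ : ∃ K : ℕ, 200 * D ≤ lam * K := by
    obtain ⟨K, hK⟩ := exists_nat_ge (200 * D / lam)
    exact ⟨K, by rwa [div_le_iff₀' hl0] at hK⟩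
  have hK0 : (0 : ℝ) ≤ K := Nat.cast_nonneg K
  have hK1 : (1 : ℝ) ≤ K := by nlinarith
  have hKp : (0 : ℝ) < K := by linarith
  obtain ⟨a, ha⟩ : ∃ a : ℝ, a = (2 : ℝ) ^ (1 / γ) := ⟨_, rfl⟩
  have ha1 : 1 ≤ a := by
    rw [ha]
    exact Real.one_le_rpow (by norm_num) (by positivity)
  have ha0 : 0 < a := by linarith
  have haγ : a ^ γ = 2 := by
    rw [ha, ← Real.rpow_mul (by norm_num), one_div_mul_cancel hγ.ne', Real.rpow_one]
  obtain ⟨t, ht⟩ : ∃ t : ℝ, t = (3 : ℝ) ^ (1 / γ) := ⟨_, rfl⟩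
  have ht0 : 0 < t := by
    rw [ht]
    exact Real.rpow_pos_of_pos (by norm_num) _
  have htγ : t ^ γ = 3 := by
    rw [ht, ← Real.rpow_mul (by norm_num), one_div_mul_cancel hγ.ne', Real.rpow_one]
  obtain ⟨L, hL⟩ : ∃ L : ℝ, L = 4000 * D * c.C * K / lam := ⟨_, rfl⟩
  have hL1 : 400000 ≤ L := by
    rw [hL, le_div_iff₀ hl0]
    have h1 : 1 ≤ c.C * K := by nlinarith
    nlinarith
  have h3lL : 1 ≤ 3 * lam * L := by
    have : lam * L = 4000 * D * c.C * K := by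
      rw [hL]
      field_simp
    have h1 : 1 ≤ c.C * K := by nlinarith
    nlinarith
  refine ⟨1 / (16 * K), 1 / (16 * K ^ 2), 1 / (4 * K * a), L * a + 100 * c.C + t, by positivity, ?_, by positivity, ?_,
    by positivity, ?_, by nlinarith, ?_⟩
  · rw [div_le_one (by positivity)]
    linarith
  · rw [div_le_one (by positivity)]
    nlinarith
  · rw [div_le_one (by positivity)]
    nlinarith
  intro s R M hs hR hM hFs hreg
  have hLa : 0 < L * a := by positivity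
  have hs1 : L * a ≤ s := by linarith
  have hs2 : t ≤ s := by linarith
  have hs0 : 0 < s := by linarith
  have hR' : 100 * c.C * s ≤ R := by
    refine le_trans ?_ hR
    nlinarith
  have hFs3 : 3 ≤ Fm M c D s := by
    refine le_trans ?_ hFs
    rw [← htγ]
    exact Real.rpow_le_rpow ht0.le hs2 hγ.le
  have hF0 : 0 < Fm M c D s := by linarith
  have hDp : 0 < D := by linarith
  obtain ⟨x, hxM, hx0, hxs, hxF⟩ := Fm_att M c hDp hs0.le
  have hFx : Fm M c D s ≤ Fm M c D (lv c x) := by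
    have := Sc_le_Fm M c hDp hxM hx0 le_rfl
    linarith
  -- a lower bound for a scale at which `Fm` is not smaller
  have key : ∀ ρ : ℝ, 1 ≤ ρ → ρ ≤ s → Fm M c D s ≤ Fm M c D ρ → s ≤ a * ρ := by
    intro ρ h1 h2 h3
    by_contra hcon
    have hcon' : a * ρ < s := not_le.1 hcon
    have hρ0 : 0 < ρ := by linarith
    have h4 := h3.trans (hreg ρ h1 h2)
    have h5 : 1 ≤ 2 * (ρ / s) ^ γ := by
      by_contra h6
      have h6' := not_le.1 h6
      have := mul_lt_mul_of_pos_right h6' hF0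
      linarith
    have h7 : (ρ / s) ^ γ < (1 / a) ^ γ := by
      apply Real.rpow_lt_rpow (by positivity) _ hγ
      rw [div_lt_div_iff₀ hs0 ha0]
      linarith
    have h8 : (1 / a) ^ γ = 1 / 2 := by
      rw [Real.div_rpow (by norm_num) ha0.le, Real.one_rpow, haγ]
    linarith
  have hx1 : 1 ≤ lv c x := by
    by_contra hcon
    have hcon' := not_le.1 hcon
    have h1 : (1 : ℝ) ≤ s := by nlinarith
    have h2 := key 1 le_rfl h1 (hFx.trans (Fm_mono M c hDp hcon'.le))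
    nlinarith
  have hxa : s ≤ a * lv c x := key _ hx1 hxs hFx
  have hLx : L ≤ lv c x := by
    have : L * a ≤ lv c x * a := by linarith
    exact le_of_mul_le_mul_right this ha0
  by_contra hcon
  push Not at hcon
  have hfail : ∀ z : V, lv c z ≤ 2 * D * c.p z → lv c z ≤ 2 * D * c.q z → lv c x / (2 * K) ≤ lv c z → lv c z ≤ lv c x →
      M.P (fun τ => 1 / (16 * K) * Fm M c D s ≤ Tc Q.b c τ 0 z - lv c z) ≤ 1 / (16 * K ^ 2) := by
    intro z h1 h2 h3 h4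
    refine (hcon z h1 h2 ?_ (h4.trans hxs)).le
    refine le_trans ?_ h3
    rw [one_div_mul_eq_div, div_le_div_iff₀ (by positivity) (by positivity)]
    nlinarith
  have hmain := two_routes_aux hM hD hxM hl0 hl1 hK (by rw [← hL]; exact hLx) (by nlinarith) (by positivity) hfail
  have h3r : Fm M c D (3 * lam * lv c x) ≤ 1 / 16 * Fm M c D s := by
    refine (hreg _ (by nlinarith) (by nlinarith)).trans ?_
    refine mul_le_mul_of_nonneg_right ?_ hF0.le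
    have : (3 * lam * lv c x / s) ^ γ ≤ (3 * lam) ^ γ := by
      apply Real.rpow_le_rpow (by positivity) _ hγ.le
      rw [div_le_iff₀ hs0]
      exact mul_le_mul_of_nonneg_left hxs (by positivity)
    linarith
  have hFm2 : Fm M c D (lv c x) ≤ Fm M c D s := Fm_mono M c hDp hxs
  have e1 : (K + 2) * (1 / (16 * K) * Fm M c D s) ≤ 3 / 16 * Fm M c D s := by
    rw [← mul_assoc]
    refine mul_le_mul_of_nonneg_right ?_ hF0.le
    rw [mul_one_div, div_le_iff₀ (by positivity)]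
    linarith
  have e2 : (K + 2) * (1 / (16 * K ^ 2)) * (K * Fm M c D (lv c x)) ≤ 3 / 16 * Fm M c D s := by
    calc (K + 2) * (1 / (16 * K ^ 2)) * (K * Fm M c D (lv c x))
        = ((K + 2) / (16 * K)) * Fm M c D (lv c x) := by
          field_simp
      _ ≤ 3 / 16 * Fm M c D s := by
          refine mul_le_mul ?_ hFm2 (by linarith) (by norm_num)
          rw [div_le_iff₀ (by positivity)]
          linarith
  linarith

/-- Near one of the two edges of the cone.  PROOF. `x₁ = c.rd (p x - H) H`, `x₂ = x - x₁` (`p x₂ = H + O(C)`); both are in `Wc c`; `Tc 0 x ≤ Tc 0 x₁ + Tc x₁ x`, so one of the two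
excesses is `≥ e / 2` with probability `≥ κ / 2`; `P_Tc` for the second one, and `Tc_swp`. -/
theorem near_edge {Q : Par} {g : V → ℝ} {R D : ℝ} {M : Mdl Q.a Q.b} (hM : Good Q g R M) (c : Crd) {x : V} {H e κ : ℝ}
    (hD : 2 ≤ D) (hH : 10 * c.C ≤ H) (hHx : 2 * D * H ≤ lv c x) (h4p : lv c x ≤ D * c.p x) (h4q : lv c x ≤ D * c.q x)
    (hP : κ ≤ M.P (fun τ => e ≤ Tc Q.b c τ 0 x - lv c x)) :
    ∃ c' : Crd, (c' = c ∨ c' = swp c) ∧ ∃ x₁ : V, |c'.q x₁ - H| ≤ 2 * c.C ∧ lv c x / (2 * D) ≤ lv c x₁ ∧ lv c x₁ ≤ lv c x ∧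
      κ / 2 ≤ M.P (fun τ => e / 2 ≤ Tc Q.b c' τ 0 x₁ - lv c' x₁) := by
  have hC := c.one_le
  have hD0 : 0 < D := by linarith
  have hp2 : 2 * H ≤ c.p x := by
    have : D * (2 * H) ≤ D * c.p x := by linarith
    exact le_of_mul_le_mul_left this hD0
  have hq2 : 2 * H ≤ c.q x := by
    have : D * (2 * H) ≤ D * c.q x := by linarith
    exact le_of_mul_le_mul_left this hD0
  obtain ⟨x₁, hx₁⟩ : ∃ x₁ : V, x₁ = c.rd (c.p x - H) H := ⟨_, rfl⟩
  have r1 := abs_le.1 (c.rd_p (c.p x - H) H)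
  have r2 := abs_le.1 (c.rd_q (c.p x - H) H)
  rw [← hx₁] at r1 r2
  have hw1 : x₁ - 0 ∈ Wc c := by
    rw [sub_zero]
    exact Wc_of_nonneg (by linarith) (by linarith)
  have hw2 : x - x₁ ∈ Wc c := by
    refine Wc_of_nonneg ?_ ?_
    · rw [map_sub]; linarith
    · rw [map_sub]; linarith
  have hl1 : lv c x₁ = c.p x₁ + c.q x₁ := rfl
  have hl2 : lv c (x - x₁) = c.p x - c.p x₁ + (c.q x - c.q x₁) := by
    rw [lv, map_sub, map_sub]
  have hlx : lv c x = c.p x + c.q x := rfl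
  have hdiv : lv c x / (2 * D) ≤ c.p x / 2 := by
    rw [div_le_iff₀ (by positivity)]
    linarith
  have hdiv' : lv c x / (2 * D) ≤ c.q x / 2 := by
    rw [div_le_iff₀ (by positivity)]
    linarith
  have ha := Q.ha
  have hab := Q.hab
  have hsum : M.P (fun τ => e ≤ Tc Q.b c τ 0 x - lv c x) ≤
      M.P (fun τ => e / 2 ≤ Tc Q.b c τ 0 x₁ - lv c x₁) +
        M.P (fun τ => e / 2 ≤ Tc Q.b c τ x₁ x - lv c (x - x₁)) := by
    refine le_trans (M.P_mono ?_) (M.P_or _ _)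
    intro τ hτ h
    have h3 := Tc_triangle ha.le hab.le hτ hw1 hw2
    have h4 := lv_sub c x x₁
    by_contra hc
    push Not at hc
    linarith [hc.1, hc.2]
  have hsec : M.P (fun τ => e / 2 ≤ Tc Q.b c τ x₁ x - lv c (x - x₁)) =
      M.P (fun τ => e / 2 ≤ Tc Q.b c τ 0 (x - x₁) - lv c (x - x₁)) :=
    P_Tc hM c (fun t => e / 2 ≤ t - lv c (x - x₁)) x₁ x
  by_cases h : κ / 2 ≤ M.P (fun τ => e / 2 ≤ Tc Q.b c τ 0 x₁ - lv c x₁)
  · refine ⟨c, Or.inl rfl, x₁, ?_, ?_, ?_, h⟩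
    · rw [abs_le]; constructor <;> linarith
    · rw [hl1]; linarith
    · rw [hl1, hlx]; linarith
  · have h' := not_le.1 h
    refine ⟨swp c, Or.inr rfl, x - x₁, ?_, ?_, ?_, ?_⟩
    · change |c.p (x - x₁) - H| ≤ 2 * c.C
      rw [map_sub, abs_le]; constructor <;> linarith
    · rw [hl2]; linarith
    · rw [hl2, hlx]; linarith
    · simp only [Tc_swp, lv_swp]
      rw [← hsec]
      linarith

end Pool.Agent.W_1b8d5d_fe
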