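import Pool.Agent.W_1b8d5d_fe.LuckB
import Pool.Agent.W_1b8d5d_fe.FmL

/-!
MP_1b8d5d_pr (FE): big lucks of wide blocks at a good scale.
-/

set_option autoImplicit false

namespace Pool.Agent.W_1b8d5d_fe

open Finset Pool.Agent.W_1b8d5d_h85

/-- Big lucks of wide blocks at a good scale.  PROOF. `F = Fm M c D s`.  `luck_big` (constant `C₁`) with `w = w₁ = A s` and `N` defined by `C₁ N = s (y / (40 F)) ^ (10/9)` (`s ≤ C₁ N ≤ s ^ 2` since `40 F ≤ y ≤ s ^ (4/5)`):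
`8 Fm M c D (C₁ N) + C₁ ≤ 32 (y / (40 F)) F + C₁ = 0.8 y + C₁ < y` as `y ≥ C F ≥ C > 5 C₁`.  So `P N ^ 2 < C₁ A s ^ 2`, i.e. `P < C₁ ^ 3 A (40 F / y) ^ (20/9)`. The condition `C₁ (w + ℓ) ≤ N` holds for `y / F ≥ C` large. -/
theorem wide_prob (Q : Par) {g : V → ℝ} (hg : IsMean Q g) (c : Crd) (hl : ∀ z, lv c z ≤ g z) {D γ A : ℝ} (hD : 3 ≤ D)
    (hγ : 0 < γ) (hA : 2 ≤ A) :
    ∃ C s₀ : ℝ, 1 ≤ C ∧ 1 ≤ s₀ ∧ ∀ (s R : ℝ) (M : Mdl Q.a Q.b), s₀ ≤ s → s ^ 300 ≤ R → Good Q g R M →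
      (∀ n : ℝ, s ≤ n → n ≤ s ^ 2 → Fm M c D n ≤ 4 * (n / s) ^ (9 / 10 : ℝ) * Fm M c D s) →
      ∀ r ℓ α β y : ℝ, 1 ≤ r → r ≤ ℓ → ℓ ≤ s → C * Fm M c D s ≤ y → y ≤ s ^ (4 / 5 : ℝ) →
        M.P (Cr Q.b c r (A * s) (A * s) ℓ α β (-y)) ≤ C * (Fm M c D s / y) ^ (20 / 9 : ℝ) := by
  obtain ⟨K, hK1, hK⟩ := luck_big Q hg c hl hD
  have hK0 : 0 < K := by linarith
  have hA0 : 0 < A := by linarith
  -- the constant
  obtain ⟨C, hC⟩ : ∃ C : ℝ, C = 64000 * (K ^ 3 * (A + 1)) := ⟨_, rfl⟩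
  have hKK : 1 ≤ K ^ 2 := one_le_pow₀ hK1
  have hKKK : K ≤ K ^ 3 := by
    have := mul_le_mul_of_nonneg_left hKK hK0.le
    calc K = K * 1 := (mul_one K).symm
      _ ≤ K * K ^ 2 := this
      _ = K ^ 3 := by ring
  have hC1 : 64000 * K ≤ C := by
    rw [hC]
    have h1 : K ^ 3 * 1 ≤ K ^ 3 * (A + 1) := mul_le_mul_of_nonneg_left (by linarith) (by positivity)
    linarith
  have hC2 : 40 * (K ^ 2 * (A + 1)) ≤ C := by
    have h1 : 0 ≤ K ^ 2 * (A + 1) := by positivity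
    have h2 : 1 * (K ^ 2 * (A + 1)) ≤ K * (K ^ 2 * (A + 1)) := mul_le_mul_of_nonneg_right hK1 h1
    have h3 : K * (K ^ 2 * (A + 1)) = K ^ 3 * (A + 1) := by ring
    rw [hC]
    linarith
  refine ⟨C, K ^ 2 + 1, by linarith, by linarith, ?_⟩
  intro s R M hs hR hM hgr r ℓ α β y hr hrl hls hCy hys
  have hs1 : 1 ≤ s := by linarith
  have hs0 : 0 < s := by linarith
  obtain ⟨F, hF⟩ : ∃ F : ℝ, F = Fm M c D s := ⟨_, rfl⟩
  have hF1 : 1 ≤ F := by rw [hF]; exact Fm_one_le M c s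
  have hF0 : 0 < F := by linarith
  rw [← hF] at hCy
  rw [← hF]
  by_contra hcon
  have hcon' := not_le.1 hcon
  obtain ⟨P, hP⟩ : ∃ P : ℝ, P = M.P (Cr Q.b c r (A * s) (A * s) ℓ α β (-y)) := ⟨_, rfl⟩
  rw [← hP] at hcon'
  have hC0 : 0 < C := by linarith
  have hy0 : 0 < y := lt_of_lt_of_le (by positivity) hCy
  have h40 : 0 < 40 * F := by positivity
  -- `t = y / (40 F)`
  obtain ⟨t, ht⟩ : ∃ t : ℝ, t = y / (40 * F) := ⟨_, rfl⟩
  have hty : t * (40 * F) = y := by rw [ht, div_mul_cancel₀ _ h40.ne']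
  have htC : C / 40 ≤ t := by
    rw [ht, div_le_div_iff₀ (by norm_num) h40]
    linarith
  have ht1 : K ^ 2 * (A + 1) ≤ t := by linarith
  have ht1' : 1 ≤ t := by linarith
  have ht0 : 0 < t := by linarith
  have hts : t ≤ s ^ (4 / 5 : ℝ) := by
    have h1 : 1 * t ≤ 40 * F * t := mul_le_mul_of_nonneg_right (by linarith) ht0.le
    linarith
  obtain ⟨u, hu⟩ : ∃ u : ℝ, u = t ^ (10 / 9 : ℝ) := ⟨_, rfl⟩
  have htu : t ≤ u := by
    rw [hu]
    calc t = t ^ (1 : ℝ) := (Real.rpow_one t).symm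
      _ ≤ t ^ (10 / 9 : ℝ) := Real.rpow_le_rpow_of_exponent_le ht1' (by norm_num)
  have hu1 : 1 ≤ u := ht1'.trans htu
  have hus : u ≤ s := by
    rw [hu]
    calc t ^ (10 / 9 : ℝ) ≤ (s ^ (4 / 5 : ℝ)) ^ (10 / 9 : ℝ) :=
          Real.rpow_le_rpow ht0.le hts (by norm_num)
      _ = s ^ (4 / 5 * (10 / 9) : ℝ) := (Real.rpow_mul hs0.le _ _).symm
      _ ≤ s ^ (1 : ℝ) := Real.rpow_le_rpow_of_exponent_le hs1 (by norm_num)
      _ = s := Real.rpow_one s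
  have hu9 : u ^ (9 / 10 : ℝ) = t := by
    rw [hu, ← Real.rpow_mul ht0.le]
    norm_num
  have hu2 : u ^ 2 = t ^ (20 / 9 : ℝ) := by
    rw [hu, ← Real.rpow_natCast, ← Real.rpow_mul ht0.le]
    norm_num
  -- the scale
  obtain ⟨N, hN⟩ : ∃ N : ℝ, N = s * u / K := ⟨_, rfl⟩
  have hKN : K * N = s * u := by
    rw [hN]
    field_simp
  have hsu : s ≤ s * u := by
    calc s = s * 1 := (mul_one s).symm
      _ ≤ s * u := mul_le_mul_of_nonneg_left hu1 hs0.le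
  have hN0 : 0 < N := by rw [hN]; positivity
  have hNK : K ≤ N := by
    rw [hN, le_div_iff₀ hK0]
    have : K * K = K ^ 2 := by ring
    linarith
  have hNs : N ≤ s ^ 2 := by
    have h1 : 1 * N ≤ K * N := mul_le_mul_of_nonneg_right hK1 hN0.le
    have h2 : s * u ≤ s * s := mul_le_mul_of_nonneg_left hus hs0.le
    have h3 : s * s = s ^ 2 := by ring
    linarith
  have hKs : K ≤ s := by
    have : K * 1 ≤ K * K := mul_le_mul_of_nonneg_left hK1 hK0.le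
    have : K * K = K ^ 2 := by ring
    linarith
  have hR' : K * N ^ 12 ≤ R := by
    refine le_trans ?_ hR
    calc K * N ^ 12 ≤ s * (s ^ 2) ^ 12 :=
          mul_le_mul hKs (pow_le_pow_left₀ hN0.le hNs 12) (by positivity) hs0.le
      _ = s ^ 25 := by ring
      _ ≤ s ^ 300 := pow_le_pow_right₀ hs1 (by norm_num)
  have hl1 : 1 ≤ ℓ := hr.trans hrl
  have hw1 : 1 ≤ A * s := by
    calc (1 : ℝ) = 1 * 1 := (mul_one 1).symm
      _ ≤ A * s := mul_le_mul (by linarith) hs1 (by norm_num) hA0.le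
  have h2r : 2 * r ≤ A * s := by
    calc 2 * r ≤ 2 * s := by linarith
      _ ≤ A * s := mul_le_mul_of_nonneg_right hA hs0.le
  have hwl : K * (A * s + ℓ) ≤ N := by
    rw [hN, le_div_iff₀ hK0]
    calc K * (A * s + ℓ) * K = K ^ 2 * (A * s + ℓ) := by ring
      _ ≤ K ^ 2 * (A * s + s) := mul_le_mul_of_nonneg_left (by linarith) (by positivity)
      _ = s * (K ^ 2 * (A + 1)) := by ring
      _ ≤ s * u := mul_le_mul_of_nonneg_left (ht1.trans htu) hs0.le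
  have hbig : K * (A * s * ℓ) ≤ P * N ^ 2 := by
    -- `(F / y) ^ (20/9) * t ^ (20/9) = 40 ^ (-20/9)`
    have h1 : (F / y) ^ (20 / 9 : ℝ) * t ^ (20 / 9 : ℝ) = (1 / 40 : ℝ) ^ (20 / 9 : ℝ) := by
      rw [← Real.mul_rpow (by positivity) ht0.le]
      congr 1
      rw [ht]
      field_simp
    have h2 : (1 / 40 : ℝ) ^ (3 : ℝ) ≤ (1 / 40 : ℝ) ^ (20 / 9 : ℝ) :=
      Real.rpow_le_rpow_of_exponent_ge (by norm_num) (by norm_num) (by norm_num)
    have h3 : (1 / 40 : ℝ) ^ (3 : ℝ) = 1 / 64000 := by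
      rw [show (3 : ℝ) = ((3 : ℕ) : ℝ) by norm_num, Real.rpow_natCast]
      norm_num
    have h4 : 1 / 64000 ≤ (F / y) ^ (20 / 9 : ℝ) * u ^ 2 := by
      rw [hu2, h1, ← h3]
      exact h2
    have h5 : N ^ 2 = s ^ 2 * u ^ 2 / K ^ 2 := by
      rw [hN]
      ring
    have h6 : C * (F / y) ^ (20 / 9 : ℝ) * N ^ 2 ≤ P * N ^ 2 :=
      mul_le_mul_of_nonneg_right hcon'.le (by positivity)
    refine le_trans ?_ h6
    have h7 : C * (F / y) ^ (20 / 9 : ℝ) * N ^ 2 =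
        C * s ^ 2 / K ^ 2 * ((F / y) ^ (20 / 9 : ℝ) * u ^ 2) := by
      rw [h5]
      ring
    rw [h7]
    have h8 : C * s ^ 2 / K ^ 2 * (1 / 64000) ≤
        C * s ^ 2 / K ^ 2 * ((F / y) ^ (20 / 9 : ℝ) * u ^ 2) :=
      mul_le_mul_of_nonneg_left h4 (by positivity)
    refine le_trans ?_ h8
    have h9 : C * s ^ 2 / K ^ 2 * (1 / 64000) = K * (A + 1) * s ^ 2 := by
      rw [hC]
      field_simp
    rw [h9]
    have h10 : A * s * ℓ ≤ A * s * s := mul_le_mul_of_nonneg_left hls (by positivity)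
    have h11 : K * (A * s * ℓ) ≤ K * (A * s * s) := mul_le_mul_of_nonneg_left h10 hK0.le
    have h12 : 0 ≤ K * s ^ 2 := by positivity
    have h13 : K * (A + 1) * s ^ 2 = K * (A * s * s) + K * s ^ 2 := by ring
    linarith
  have hend := hK N R M hNK hR' hM r (A * s) (A * s) ℓ α β y (by linarith) h2r hw1 le_rfl hrl hl1
    hwl (by rw [← hP]; exact hbig)
  -- the growth
  have hgr' := hgr (K * N) (by rw [hKN]; exact hsu) (by
    rw [hKN, pow_two]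
    exact mul_le_mul_of_nonneg_left hus hs0.le)
  have hq : K * N / s = u := by
    rw [hKN]
    field_simp
  rw [hq, hu9, ← hF] at hgr'
  have hlast : 8 * (4 * t * F) = 4 / 5 * y := by
    rw [← hty]
    ring
  have hC5 : C ≤ y := by
    calc C = C * 1 := (mul_one C).symm
      _ ≤ C * F := mul_le_mul_of_nonneg_left hF1 hC0.le
      _ ≤ y := hCy
  linarith

end Pool.Agent.W_1b8d5d_fe
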