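import Pool.Agent.W_1b8d5d_fe.GS
import Pool.Agent.W_1b8d5d_fe.Tc2
import Pool.Agent.W_1b8d5d_fe.Rt2
import Pool.Agent.W_1b8d5d_fe.Wide1
import Pool.Agent.W_1b8d5d_fe.Env1
import Pool.Agent.W_1b8d5d_fe.LSum
import Pool.Agent.W_1b8d5d_fe.LuckS
import Pool.Agent.W_1b8d5d_fe.Det3
import Pool.Agent.W_1b8d5d_fe.Cnt3
import Pool.Agent.W_1b8d5d_fe.SlowA

/-!
MP_1b8d5d_pr (FE): the contradiction at a good scale (section 6 of row 596): assembly.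
-/

set_option autoImplicit false

namespace Pool.Agent.W_1b8d5d_fe

open Finset Filter Pool.Agent.W_1b8d5d_h85

theorem ev_pow (C : ℝ) {x y : ℝ} (h : x < y) : ∀ᶠ s : ℝ in atTop, C * s ^ x ≤ s ^ y := by
  obtain ⟨s₀, -, h1⟩ := pow_large C h
  exact eventually_atTop.2 ⟨s₀, h1⟩

/-- The final numbers. -/
theorem side_num {c₁ κ₁ m F y₀ ρ κ δ S N KD W X : ℝ} (hc₁ : 0 < c₁) (hκ₁ : 0 < κ₁) (hm : 0 < m) (hF : 0 < F)
    (hy₀ : 1 ≤ y₀) (hκ : κ ≤ κ₁ / 32) (hN0 : 0 ≤ N) (hN : N ≤ κ * m) (hS : S = κ₁ / 2 * m / 4)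
    (hδ : δ = c₁ * κ₁ / 1024) (hX : X ≤ c₁ * κ₁ / 1024 * (m * F))
    (hKD : KD ≤ 2 * (80 * m * ρ + 9 * Real.sqrt (m * (κ * m) * ρ) + 6))
    (h1 : 160 * y₀ * ρ ≤ c₁ * κ₁ / 1024) (h2 : 18 * y₀ * Real.sqrt (κ * ρ) ≤ c₁ * κ₁ / 1024)
    (h3 : 12 * y₀ ≤ c₁ * κ₁ / 1024 * m) (h4 : y₀ * κ ≤ c₁ * κ₁ / 1024) (hW : W ≤ 3 * (c₁ * κ₁ / 1024 * (m * F)))
    (hfin : (S - N) * (c₁ * F / 2) ≤ X + 2 * m * (δ * F) + (y₀ * F) * (KD + N) + W) : False := by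
  have hmF : 0 < m * F := mul_pos hm hF
  have hq : Real.sqrt (m * (κ * m) * ρ) = m * Real.sqrt (κ * ρ) := by
    rw [show m * (κ * m) * ρ = m ^ 2 * (κ * ρ) by ring, Real.sqrt_mul (by positivity),
      Real.sqrt_sq hm.le]
  rw [hq] at hKD
  have hyF : 0 ≤ y₀ * F := by positivity
  have a1 : y₀ * F * KD ≤ 3 * (c₁ * κ₁ / 1024 * (m * F)) := by
    have b1 := mul_le_mul_of_nonneg_left hKD hyF
    have b2 := mul_le_mul_of_nonneg_right h1 hmF.le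
    have b3 := mul_le_mul_of_nonneg_right h2 hmF.le
    have b4 := mul_le_mul_of_nonneg_right h3 hF.le
    nlinarith
  have a2 : y₀ * F * N ≤ c₁ * κ₁ / 1024 * (m * F) := by
    have b1 := mul_le_mul_of_nonneg_left hN hyF
    have b2 := mul_le_mul_of_nonneg_right h4 hmF.le
    nlinarith
  have a3 : c₁ * κ₁ / 1024 * (m * F) * 32 ≤ (S - N) * (c₁ * F / 2) := by
    have b1 : N ≤ κ₁ / 32 * m := hN.trans (mul_le_mul_of_nonneg_right hκ hm.le)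
    have b2 : κ₁ / 32 * m * 3 ≤ S - N := by
      rw [hS]
      linarith
    have b3 : 0 ≤ c₁ * F / 2 := by positivity
    have b4 := mul_le_mul_of_nonneg_right b2 b3
    nlinarith [mul_pos hκ₁ (mul_pos hc₁ hmF)]
  have a4 : 2 * m * (δ * F) = 2 * (c₁ * κ₁ / 1024 * (m * F)) := by
    rw [hδ]
    ring
  have a5 : 0 < c₁ * κ₁ / 1024 * (m * F) := by positivity
  have a6 : (y₀ * F) * (KD + N) = y₀ * F * KD + y₀ * F * N := by ring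
  rw [a6, a4] at hfin
  linarith

open Classical in
/-- Many slow even blocks, for blocks at the multiples of `ℓ` and rows at the multiples of `r`. -/
theorem side_slow {p₀ : ℝ} (hp : 0 < p₀) (hp1 : p₀ ≤ 1) : ∃ (κ : ℝ) (m₀ : ℕ), 0 < κ ∧ κ ≤ 1 ∧
    ∀ {Q : Par} {g : V → ℝ} {R : ℝ} {M : Mdl Q.a Q.b}, Good Q g R M → ∀ m N : ℕ, m₀ ≤ m → (N : ℝ) ≤ κ * m →
    ∀ (c : Crd) (r ℓ e : ℝ), 0 ≤ r → r + 4 * c.C < ℓ → 2 * c.C * (4 * (m * ℓ) + 12 * r + ℓ + 2 * c.C + r * N) ≤ R →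
      (∀ α β : ℝ, p₀ ≤ M.P (fun τ => ¬ Cr Q.b c r (10 * r) r ℓ α β e τ)) →
      M.P (fun τ => ∃ k : ℕ → ℤ, Adm m N k ∧ (((range m).filter fun j =>
        ¬ Cr Q.b c r (10 * r) r ℓ ((2 * j : ℕ) * ℓ) (r * k (2 * j)) e τ).card : ℝ) ≤ p₀ * m / 4) ≤ 1 / 8 := by
  obtain ⟨κ, m₀, h1, h2, h3⟩ := many_slow hp hp1
  refine ⟨κ, m₀, h1, h2, ?_⟩
  intro Q g R M hM m N hm hN c r ℓ e hr hrℓ hR hP
  have hC := c.one_le
  have h0 := h3 hM m N hm hN (fun j k => Eb c ((2 * j : ℕ) * ℓ) (r * k) (10 * r) ℓ ((2 * j : ℕ) * ℓ - r))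
    (fun j k τ => ¬ Cr Q.b c r (10 * r) r ℓ ((2 * j : ℕ) * ℓ) (r * k) e τ) ?_ ?_ ?_ ?_
  · convert h0
  · intro j _ k τ τ' h
    have h4 := Cr_dep Q.b c r (10 * r) r ℓ ((2 * j : ℕ) * ℓ) (r * k) e h
    show (¬ _) = (¬ _)
    rw [h4]
  · intro i j hij hj k k'
    refine Eb_disj_lv ?_
    have h4 : (i : ℝ) + 1 ≤ j := by exact_mod_cast hij
    have h5 := mul_le_mul_of_nonneg_right h4 (by linarith : 0 ≤ ℓ)
    push_cast
    nlinarith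
  · intro j hj k hk d hd
    have hℓ0 : 0 ≤ ℓ := by linarith
    have h4 : (j : ℝ) + 1 ≤ m := by exact_mod_cast hj
    have hj0 : (0 : ℝ) ≤ j := Nat.cast_nonneg j
    have h5 := mul_le_mul_of_nonneg_right h4 hℓ0
    have h6 : 0 ≤ (j : ℝ) * ℓ := mul_nonneg hj0 hℓ0
    have h7 : |(k : ℝ)| ≤ N := by exact_mod_cast hk
    have h8 : |r * (k : ℝ)| ≤ r * N := by
      rw [abs_mul, abs_of_nonneg hr]
      exact mul_le_mul_of_nonneg_left h7 hr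
    refine (Eb_nm hd).trans (le_trans (mul_le_mul_of_nonneg_left ?_ (by linarith)) hR)
    have h9 : |((2 * j : ℕ) : ℝ) * ℓ - r| ≤ 2 * (m * ℓ) + r := by
      push_cast
      rw [abs_le]
      constructor <;> linarith
    have h10 : |((2 * j : ℕ) : ℝ) * ℓ + ℓ| ≤ 2 * (m * ℓ) + ℓ := by
      push_cast
      rw [abs_le]
      constructor <;> linarith
    linarith
  · intro j _ k
    exact hP _ _

/-- The parameter `η₁`. -/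
theorem side_eta {γ a : ℝ} (hγ : 0 < γ) (ha : 0 < a) : ∃ η₁ : ℝ, 0 < η₁ ∧ ∀ η : ℝ, 0 < η → η ≤ η₁ → (150 * η) ^ γ ≤ a := by
  refine ⟨a ^ (1 / γ) / 150, by positivity, fun η hη h => ?_⟩
  have h1 : 150 * η ≤ a ^ (1 / γ) := by
    rw [le_div_iff₀ (by norm_num)] at h
    linarith
  have h2 := Real.rpow_le_rpow (by positivity) h1 hγ.le
  rwa [← Real.rpow_mul ha.le, one_div_mul_cancel hγ.ne', Real.rpow_one] at h2

open Classical in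
/-- The contradiction from the probabilities and the deterministic lemma. -/
theorem side_main {Q : Par} {g : V → ℝ} {R : ℝ} {M : Mdl Q.a Q.b} (hG : Good Q g R M) {c : Crd}
    {r ℓ A A' s L F θ y₀ c₁ κ₁ κ ρD B E : ℝ} {ρW : ℕ → ℝ} {m N J : ℕ} (hr : 0 ≤ r) (hrℓ : r + 4 * c.C < ℓ)
    (hA' : 0 ≤ A' * s) (hAA : A * s ≤ A' * s) (hR : 20 * c.C * (m * ℓ + r * N + 10 * r + A' * s) ≤ R)
    (hOv : M.P (fun τ => ¬ Ov g L s τ) ≤ 1 / 8)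
    (hS : M.P (fun τ => ∃ k : ℕ → ℤ, Adm m N k ∧ (((range m).filter fun j =>
      ¬ Cr Q.b c r (10 * r) r ℓ ((2 * j : ℕ) * ℓ) (r * k (2 * j)) (c₁ * F / 2) τ).card : ℝ) ≤ κ₁ / 2 * m / 4) ≤ 1 / 8)
    (hρD : 0 ≤ ρD) (hD1 : ∀ α β, M.P (Cr Q.b c r (10 * r) r ℓ α β (-(θ * F))) ≤ ρD) (hρW : ∀ j, 0 ≤ ρW j)
    (hW1 : ∀ j < J, ∀ α β, M.P (Cr Q.b c r (A' * s) (A' * s) ℓ α β (-(2 ^ j * (y₀ * F)))) ≤ ρW j)
    (hm : (0 : ℝ) < m) (hNκ : (N : ℝ) ≤ κ * m)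
    (hdet : ∀ τ, Bd Q.a Q.b τ → Ov g L s τ → ∃ (k : ℕ → ℤ) (T' : ℕ → ℝ), Adm m N k ∧
      ∑ i ∈ range (2 * m), T' i ≤ 2 * m * ℓ + m + 10 * c.C ∧ ∀ i < 2 * m,
        (k (i + 1) = k i → ∀ e : ℝ, e ≤ E → T' i ≤ ℓ - 2 * c.C + e →
          Cr Q.b c r (10 * r) r ℓ (i * ℓ) (r * k i) e τ) ∧
        (∀ e : ℝ, e ≤ 0 → T' i ≤ ℓ - 2 * c.C + e → Cr Q.b c r (A * s) (A * s) ℓ (i * ℓ) (r * k i) e τ) ∧
        ℓ - B ≤ T' i)
    (hE : c₁ * F / 2 ≤ E) (hE0 : 0 ≤ E) (hJ : B ≤ 2 ^ J * (y₀ * F)) (hc₁ : 0 < c₁) (hκ₁ : 0 < κ₁) (hF : 0 < F)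
    (hy₀ : 1 ≤ y₀) (hθd : θ = c₁ * κ₁ / 1024) (hθ1 : θ ≤ 1) (hκ : κ ≤ κ₁ / 32)
    (n1 : 160 * y₀ * ρD ≤ θ) (n2 : 18 * y₀ * Real.sqrt (κ * ρD) ≤ θ) (n3 : 12 * y₀ ≤ θ * m) (n4 : y₀ * κ ≤ θ)
    (nX : (4 * c.C + 1) * m + 10 * c.C ≤ θ * (m * F))
    (nW : ∀ KW : ℕ → ℝ, (∀ j < J, KW j ≤ 80 * m * ρW j + 9 * Real.sqrt (m * (κ * m) * ρW j) + (J + 6)) →
      2 * ∑ j ∈ range J, 2 ^ (j + 1) * (y₀ * F) * KW j ≤ 3 * (θ * (m * F))) : False := by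
  have hC := c.one_le
  have hab := Q.hab.le
  have ha0 := Q.ha.le
  have hN0 : (0 : ℝ) ≤ N := Nat.cast_nonneg N
  have hθ : 0 < θ := by rw [hθd]; positivity
  have hsqm : ∀ ρ : ℝ, 0 ≤ ρ → Real.sqrt (m * N * ρ) ≤ Real.sqrt (m * (κ * m) * ρ) := fun ρ hρ =>
    Real.sqrt_le_sqrt (mul_le_mul_of_nonneg_right (mul_le_mul_of_nonneg_left hNκ hm.le) hρ)
  obtain ⟨KDn, hKDn⟩ : ∃ KDn : ℕ, KDn = ⌈80 * m * ρD + 9 * Real.sqrt (m * N * ρD)⌉₊ + 5 := ⟨_, rfl⟩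
  have hKD1 : 80 * m * ρD + 9 * Real.sqrt (m * N * ρD) ≤ KDn := by
    rw [hKDn]
    push_cast
    have := Nat.le_ceil (80 * m * ρD + 9 * Real.sqrt (m * N * ρD))
    linarith
  have hKD2 : (KDn : ℝ) ≤ 80 * m * ρD + 9 * Real.sqrt (m * (κ * m) * ρD) + 6 := by
    have h1 := (Nat.ceil_lt_add_one (by positivity : (0 : ℝ) ≤ 80 * m * ρD + 9 * Real.sqrt (m * N * ρD))).le
    have h2 := hsqm _ hρD
    rw [hKDn]
    push_cast
    linarith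
  obtain ⟨KW, hKWd⟩ : ∃ KW : ℕ → ℕ, KW = fun j => ⌈80 * m * ρW j + 9 * Real.sqrt (m * N * ρW j)⌉₊ + (J + 5) := ⟨_, rfl⟩
  have hKW1 : ∀ j, 80 * m * ρW j + 9 * Real.sqrt (m * N * ρW j) ≤ KW j := by
    intro j
    rw [hKWd]
    push_cast
    have := Nat.le_ceil (80 * m * ρW j + 9 * Real.sqrt (m * N * ρW j))
    linarith
  have hKW2 : ∀ j, (KW j : ℝ) ≤ 80 * m * ρW j + 9 * Real.sqrt (m * (κ * m) * ρW j) + (J + 6) := by
    intro j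
    have h0 : 0 ≤ ρW j := hρW j
    have h1 := (Nat.ceil_lt_add_one (by positivity : (0 : ℝ) ≤ 80 * m * ρW j + 9 * Real.sqrt (m * N * ρW j))).le
    have h2 := hsqm _ h0
    rw [hKWd]
    push_cast
    linarith
  obtain ⟨τ, hτ, hτov, hτk⟩ := good_env hG (c := c) (r := r) (ℓ := ℓ) (A := A') (s := s) (L := L)
    (e₀ := c₁ * F / 2) (Dl := θ * F) (Y := y₀ * F) (S := κ₁ / 2 * m / 4) (ρD := ρD) (m := m) (N := N) (J := J)
    (KD := KDn) (KW := KW) (ρW := ρW) hr hrℓ hA' hR hOv hS hρD hD1 (count_cond hm.le hN0 hρD hKD1)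
    (by rw [hKDn]; omega) hρW hW1
    (fun j _ => count_cond hm.le hN0 (hρW j) (hKW1 j)) (fun j _ => by rw [hKWd]; exact Nat.le_add_left _ _)
  obtain ⟨k, T', hk, hsumT, hT⟩ := hdet τ hτ hτov
  obtain ⟨q1, q2, q3⟩ := hτk k hk
  have hfin := balance (m := m) (N := N) (J := J) (k := k) (t := T') (l := ℓ - 2 * c.C) (D := θ * F) (Y := y₀ * F)
    (e₀ := c₁ * F / 2) (X := (4 * c.C + 1) * m + 10 * c.C) (S := κ₁ / 2 * m / 4) (KD := 2 * KDn)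
    (KW := fun j => 2 * (KW j : ℝ)) hk (by positivity) (mul_le_mul_of_nonneg_right (hθ1.trans hy₀) hF.le)
    (by positivity)
    (fun i => Cr Q.b c r (10 * r) r ℓ (i * ℓ) (r * k i) (c₁ * F / 2) τ)
    (fun i => Cr Q.b c r (10 * r) r ℓ (i * ℓ) (r * k i) (-(θ * F)) τ)
    (fun j i => Cr Q.b c r (A' * s) (A' * s) ℓ (i * ℓ) (r * k i) (-(2 ^ j * (y₀ * F))) τ)
    (fun i hi hki ht' => (hT i hi).1 hki _ hE ht')
    (fun i hi hki ht' => (hT i hi).1 hki (-(θ * F)) (by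
      have h2 : 0 ≤ θ * F := by positivity
      linarith) (by linarith))
    (fun i hi j hj ht' => Cr_mono ha0 hab hτ hAA hAA le_rfl
      ((hT i hi).2.1 (-(2 ^ j * (y₀ * F))) (by
        have : 0 ≤ 2 ^ j * (y₀ * F) := by positivity
        linarith) (by linarith)))
    (fun i hi => by
      have := (hT i hi).2.2
      linarith)
    q1.le (by exact_mod_cast q2) (fun j hj => by exact_mod_cast q3 j hj)
    (by
      have h1 : 2 * (m : ℝ) * (ℓ - 2 * c.C) + ((4 * c.C + 1) * m + 10 * c.C) = 2 * m * ℓ + m + 10 * c.C := by ring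
      rw [h1]
      exact hsumT)
  refine side_num (m := m) (F := F) (y₀ := y₀) (ρ := ρD) (κ := κ) (δ := θ) (S := κ₁ / 2 * m / 4)
    (N := N) (KD := 2 * KDn) (W := ∑ j ∈ range J, 2 ^ (j + 1) * (y₀ * F) * (2 * (KW j : ℝ)))
    (X := (4 * c.C + 1) * m + 10 * c.C) hc₁ hκ₁ hm hF hy₀ hκ hN0 hNκ rfl hθd (hθd ▸ nX) ?_ (hθd ▸ n1) (hθd ▸ n2)
    (hθd ▸ n3) (hθd ▸ n4) ?_ hfin
  · linarith
  · have h1 := nW (fun j => (KW j : ℝ)) (fun j _ => hKW2 j)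
    have h2 : ∑ j ∈ range J, 2 ^ (j + 1) * (y₀ * F) * (2 * (KW j : ℝ)) =
        2 * ∑ j ∈ range J, 2 ^ (j + 1) * (y₀ * F) * (KW j : ℝ) := by
      rw [mul_sum]
      refine sum_congr rfl fun j _ => ?_
      ring
    rw [h2, ← hθd]
    exact h1

/-- The parameter `η₁`. -/
theorem side_eta' {γ a : ℝ} (hγ : 0 < γ) (ha : 0 < a) : ∃ η₁ : ℝ, 0 < η₁ ∧ ∀ η : ℝ, 0 < η → η ≤ η₁ → (150 * η) ^ γ ≤ a :=
  side_eta hγ ha

/-- The parameter `κ`. -/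
theorem side_kappa {κm κs κ₁ θ y₀ Cs : ℝ} (hκm : 0 < κm) (hκm1 : κm ≤ 1) (hκs : 0 < κs) (hκ₁ : 0 < κ₁) (hθ : 0 < θ)
    (hy₀ : 1 ≤ y₀) (hCs : 1 ≤ Cs) : ∃ κ : ℝ, 0 < κ ∧ κ ≤ 1 ∧ κ ≤ κm ∧ κ ≤ κs ∧ κ ≤ κ₁ / 32 ∧ y₀ * κ ≤ θ ∧
      ∀ η : ℝ, 0 < η → η ≤ 1 → 18 * y₀ * Real.sqrt (κ * (Cs * η)) ≤ θ := by
  obtain ⟨κ, hκd⟩ : ∃ κ, κ = min (min κm κs) (min (κ₁ / 32) (min (θ / y₀) ((θ / (18 * y₀)) ^ 2 / Cs))) := ⟨_, rfl⟩
  have hκ0 : 0 < κ := by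
    rw [hκd]
    exact lt_min (lt_min hκm hκs) (lt_min (by positivity) (lt_min (by positivity) (by positivity)))
  have hκm' : κ ≤ κm := by rw [hκd]; exact (min_le_left _ _).trans (min_le_left _ _)
  have hκs' : κ ≤ κs := by rw [hκd]; exact (min_le_left _ _).trans (min_le_right _ _)
  have hκ32 : κ ≤ κ₁ / 32 := by rw [hκd]; exact (min_le_right _ _).trans (min_le_left _ _)
  have hκy : κ ≤ θ / y₀ := by rw [hκd]; exact (min_le_right _ _).trans ((min_le_right _ _).trans (min_le_left _ _))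
  have hκC : κ ≤ (θ / (18 * y₀)) ^ 2 / Cs := by
    rw [hκd]; exact (min_le_right _ _).trans ((min_le_right _ _).trans (min_le_right _ _))
  refine ⟨κ, hκ0, hκm'.trans hκm1, hκm', hκs', hκ32, ?_, ?_⟩
  · have := (le_div_iff₀ (by positivity : (0 : ℝ) < y₀)).1 hκy
    linarith
  · intro η hη hη1
    have h1 : κ * (Cs * η) ≤ (θ / (18 * y₀)) ^ 2 := by
      have h2 := (le_div_iff₀ (by positivity : (0 : ℝ) < Cs)).1 hκC
      have h3 : κ * (Cs * η) ≤ κ * Cs := by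
        rw [← mul_assoc]
        exact mul_le_of_le_one_right (by positivity) hη1
      linarith
    have h2 : Real.sqrt (κ * (Cs * η)) ≤ θ / (18 * y₀) := by
      rw [show θ / (18 * y₀) = Real.sqrt ((θ / (18 * y₀)) ^ 2) from (Real.sqrt_sq (by positivity)).symm]
      exact Real.sqrt_le_sqrt h1
    have h3 := (le_div_iff₀ (by positivity : (0 : ℝ) < 18 * y₀)).1 h2
    linarith

/-- The geometry of the blocks. -/
theorem side_geo {s η c₄ C Ad r ℓ lx : ℝ} (hs : 1 ≤ s) (hη : 0 < η) (hη2 : η ≤ c₄ / 1000) (hc₄ : 0 < c₄) (hc₄' : c₄ ≤ 1)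
    (hC : 1 ≤ C) (hAd : 1 ≤ Ad) (l8 : 100 * C / η ≤ s) (l10 : 100000 * C ^ 2 * (Ad + 2) ≤ s) (hrd : r = η * s)
    (hℓd : ℓ = lx - 200 * r) (hx4 : c₄ * s ≤ lx) (hxs : lx ≤ s) :
    100 * C ≤ r ∧ 1000 * r ≤ s ∧ c₄ / 2 * s ≤ ℓ ∧ 10 * r ≤ ℓ ∧ ℓ ≤ s ∧ 100000 * C ≤ s ∧ 100000 * C * (Ad + 2) ≤ s ∧
      100000 * (Ad + 2) ≤ s := by
  have h1 : 100 * C ≤ r := by
    rw [hrd]
    have := (div_le_iff₀ hη).1 l8
    linarith
  have hrs : 1000 * r ≤ c₄ * s := by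
    rw [hrd]
    have := mul_le_mul_of_nonneg_right hη2 (by linarith : 0 ≤ s)
    linarith
  have h2 : c₄ * s ≤ s := mul_le_of_le_one_left (by linarith) hc₄'
  have h3 : 0 ≤ c₄ * s := by positivity
  have e1 : C ≤ C ^ 2 := le_self_pow₀ hC two_ne_zero
  have e2 : C * (Ad + 2) ≤ C ^ 2 * (Ad + 2) := mul_le_mul_of_nonneg_right e1 (by linarith)
  have e3 : 1 * (Ad + 2) ≤ C * (Ad + 2) := mul_le_mul_of_nonneg_right hC (by linarith)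
  have e4 : C * 1 ≤ C * (Ad + 2) := mul_le_mul_of_nonneg_left (by linarith) (by linarith)
  refine ⟨h1, by linarith, by linarith, by linarith, by linarith, by linarith, by linarith, by linarith⟩

/-- The number of blocks and the bound for the number of changes. -/
theorem side_mN {s κ : ℝ} {m₀ : ℕ} (hs : 1 ≤ s) (hκ : 0 < κ) (hκ1 : κ ≤ 1) (h0 : (m₀ : ℝ) ≤ s) (h2 : 2 / κ ≤ s) :
    ∃ m N : ℕ, s ^ 20 ≤ m ∧ (m : ℝ) ≤ 2 * s ^ 20 ∧ m₀ ≤ m ∧ 1 ≤ m ∧ s ≤ m ∧ (N : ℝ) ≤ κ * m ∧ κ * m / 2 ≤ N ∧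
      (N : ℝ) ≤ m := by
  have h20 : (1 : ℝ) ≤ s ^ 20 := one_le_pow₀ hs
  obtain ⟨m, hmd⟩ : ∃ m : ℕ, m = ⌈s ^ 20⌉₊ := ⟨_, rfl⟩
  have hm1 : s ^ 20 ≤ m := by rw [hmd]; exact Nat.le_ceil _
  have hm2 : (m : ℝ) ≤ 2 * s ^ 20 := by
    have h1 := (Nat.ceil_lt_add_one (by positivity : (0 : ℝ) ≤ s ^ 20)).le
    rw [← hmd] at h1
    linarith
  have hss : s ≤ s ^ 20 := le_self_pow₀ hs (by norm_num)
  have hsm : s ≤ m := hss.trans hm1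
  have hmp : (0 : ℝ) < m := by linarith
  have hκm2 : 2 ≤ κ * m := by
    have h1 := (div_le_iff₀ hκ).1 h2
    have h2 := mul_le_mul_of_nonneg_left hsm hκ.le
    linarith
  have hN1 : ((⌊κ * m⌋₊ : ℕ) : ℝ) ≤ κ * m := Nat.floor_le (by positivity)
  refine ⟨m, ⌊κ * m⌋₊, hm1, hm2, by exact_mod_cast (h0.trans hsm), by exact_mod_cast (hs.trans hsm), hsm, hN1, ?_, ?_⟩
  · have h1 := (Nat.lt_floor_add_one (κ * (m : ℝ))).le
    linarith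
  · exact hN1.trans (mul_le_of_le_one_left hmp.le hκ1)

/-- The ranges. -/
theorem side_rng {s C Ad r ℓ m N : ℝ} (hs : 1 ≤ s) (hC : 1 ≤ C) (hAd : 1 ≤ Ad) (hr0 : 0 ≤ r) (hrs : 1000 * r ≤ s)
    (hℓ0 : 0 ≤ ℓ) (hℓs : ℓ ≤ s) (hc1 : 100000 * C ≤ s) (hc2 : 100000 * C * (Ad + 2) ≤ s) (hm : m ≤ 2 * s ^ 20)
    (hm0 : 0 ≤ m) (hN0 : 0 ≤ N) (hN : N ≤ m) :
    100 * C * (3 * C + ℓ + 300 * r) ≤ s ^ 30 ∧ 2 * C * (4 * (m * ℓ) + 12 * r + ℓ + 2 * C + r * N) ≤ s ^ 30 ∧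
      20 * C * (m * ℓ + r * N + 10 * r + (Ad + 2) * s) ≤ s ^ 30 ∧ Ad * m * s ≤ s ^ 22 := by
  have hpow : ∀ i j : ℕ, i ≤ j → s ^ i ≤ s ^ j := fun i j hij => pow_le_pow_right₀ hs hij
  have hmℓ : m * ℓ ≤ 2 * s ^ 21 := by
    calc m * ℓ ≤ (2 * s ^ 20) * s := mul_le_mul hm hℓs hℓ0 (by positivity)
      _ = 2 * s ^ 21 := by ring
  have hrN : r * N ≤ s ^ 21 := by
    calc r * N ≤ (s / 1000) * (2 * s ^ 20) := mul_le_mul (by linarith) (hN.trans hm) hN0 (by positivity)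
      _ = s ^ 21 / 500 := by ring
      _ ≤ s ^ 21 := by
        have : 0 ≤ s ^ 21 := by positivity
        linarith
  have h21 : s ≤ s ^ 21 := le_self_pow₀ hs (by norm_num)
  refine ⟨?_, ?_, ?_, ?_⟩
  · have h2 : 3 * C + ℓ + 300 * r ≤ 2 * s := by linarith
    calc 100 * C * (3 * C + ℓ + 300 * r) ≤ s * (2 * s) := mul_le_mul (by linarith) h2 (by positivity) (by linarith)
      _ = 2 * s ^ 2 := by ring
      _ ≤ s * s ^ 2 := mul_le_mul_of_nonneg_right (by linarith) (by positivity)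
      _ = s ^ 3 := by ring
      _ ≤ s ^ 30 := hpow _ _ (by norm_num)
  · have h1 : 4 * (m * ℓ) + 12 * r + ℓ + 2 * C + r * N ≤ 20 * s ^ 21 := by linarith
    calc 2 * C * (4 * (m * ℓ) + 12 * r + ℓ + 2 * C + r * N) ≤ 2 * C * (20 * s ^ 21) :=
          mul_le_mul_of_nonneg_left h1 (by linarith)
      _ = (40 * C) * s ^ 21 := by ring
      _ ≤ s * s ^ 21 := mul_le_mul_of_nonneg_right (by linarith) (by positivity)
      _ = s ^ 22 := by ring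
      _ ≤ s ^ 30 := hpow _ _ (by norm_num)
  · have h1 : m * ℓ + r * N + 10 * r + (Ad + 2) * s ≤ (6 + Ad) * s ^ 21 := by
      have h2 := mul_le_mul_of_nonneg_left h21 (by linarith : 0 ≤ Ad + 2)
      linarith
    calc 20 * C * (m * ℓ + r * N + 10 * r + (Ad + 2) * s) ≤ 20 * C * ((6 + Ad) * s ^ 21) :=
          mul_le_mul_of_nonneg_left h1 (by linarith)
      _ = (20 * C * (6 + Ad)) * s ^ 21 := by ring
      _ ≤ s * s ^ 21 := by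
        refine mul_le_mul_of_nonneg_right ?_ (by positivity)
        have h3 : C * (6 + Ad) ≤ C * (3 * (Ad + 2)) := mul_le_mul_of_nonneg_left (by linarith) (by linarith)
        linarith
      _ = s ^ 22 := by ring
      _ ≤ s ^ 30 := hpow _ _ (by norm_num)
  · have h3 : 1 * (Ad + 2) ≤ C * (Ad + 2) := mul_le_mul_of_nonneg_right hC (by linarith)
    calc Ad * m * s ≤ Ad * (2 * s ^ 20) * s := by
          refine mul_le_mul_of_nonneg_right ?_ (by linarith)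
          exact mul_le_mul_of_nonneg_left hm (by linarith)
      _ = (2 * Ad) * s ^ 21 := by ring
      _ ≤ s * s ^ 21 := mul_le_mul_of_nonneg_right (by linarith) (by positivity)
      _ = s ^ 22 := by ring

/-- The bound for the sum over the big lucks. -/
theorem side_W {Cw κs κ m F y₀ s θ : ℝ} {J : ℕ}
    (hls' : ∀ (κ m F B : ℝ) (J : ℕ) (KW : ℕ → ℝ), 0 ≤ κ → κ ≤ κs → 0 ≤ m → 0 ≤ F → 0 ≤ B →
      (∀ j < J, KW j ≤ 80 * m * (Cw * (1 / (2 ^ j * y₀)) ^ (20 / 9 : ℝ)) +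
        9 * Real.sqrt (m * (κ * m) * (Cw * (1 / (2 ^ j * y₀)) ^ (20 / 9 : ℝ))) + B) →
      ∑ j ∈ range J, 2 ^ (j + 1) * (y₀ * F) * KW j ≤ θ * (m * F) + 2 * 2 ^ J * (y₀ * F) * B)
    (hκ : 0 ≤ κ) (hκs : κ ≤ κs) (hm : 0 < m) (hF : 1 ≤ F) (hs : 1 ≤ s) (hθ : 0 < θ) (h28 : 28 / θ ≤ s)
    (hsm : s ^ 20 ≤ m) (hj2 : 2 ^ J * (y₀ * F) ≤ s) (hj4 : (J : ℝ) ≤ s) (hy : 0 ≤ y₀) (KW : ℕ → ℝ)
    (hKW : ∀ j < J, KW j ≤ 80 * m * (Cw * (1 / (2 ^ j * y₀)) ^ (20 / 9 : ℝ)) +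
      9 * Real.sqrt (m * (κ * m) * (Cw * (1 / (2 ^ j * y₀)) ^ (20 / 9 : ℝ))) + (J + 6)) :
    2 * ∑ j ∈ range J, 2 ^ (j + 1) * (y₀ * F) * KW j ≤ 3 * (θ * (m * F)) := by
  have h1 := hls' κ m F (J + 6) J KW hκ hκs hm.le (by linarith) (by positivity) hKW
  have h4 : (J : ℝ) + 6 ≤ 7 * s := by linarith
  have h5 : 2 ^ J * (y₀ * F) * ((J : ℝ) + 6) ≤ s * (7 * s) := mul_le_mul hj2 h4 (by positivity) (by linarith)
  have h6 : 28 * (s * s) ≤ θ * (m * F) := by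
    have g1 := (div_le_iff₀ hθ).1 h28
    have g2 : s * s * s ≤ m := by
      refine le_trans ?_ hsm
      calc s * s * s = s ^ 3 := by ring
        _ ≤ s ^ 20 := pow_le_pow_right₀ hs (by norm_num)
    have g3 : m ≤ m * F := le_mul_of_one_le_right hm.le hF
    calc 28 * (s * s) ≤ (s * θ) * (s * s) := mul_le_mul_of_nonneg_right g1 (by positivity)
      _ = θ * (s * s * s) := by ring
      _ ≤ θ * (m * F) := mul_le_mul_of_nonneg_left (g2.trans g3) hθ.le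
  linarith

end Pool.Agent.W_1b8d5d_fe
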