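import Pool.Agent.W_1b8d5d_fe.Side

/-!
MP_1b8d5d_pr (FE): the contradiction at a good scale (section 6 of row 596): the choice of the parameters.
-/

set_option autoImplicit false

namespace Pool.Agent.W_1b8d5d_fe

open Finset Filter Pool.Agent.W_1b8d5d_h85

/-- The bound for the deterministic parameter. -/
theorem side_bar {s t θb Ad η κ m N r : ℝ} (hη : 0 < η) (hκ : 0 < κ) (hAd : 1 ≤ Ad) (hθb : 0 < θb) (ht : 0 < t)
    (htd : t = η * κ / (8 * Ad)) (hrd : r = η * s) (hm : 0 < m) (hs : 0 < s) (hN : κ * m / 2 ≤ N)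
    (w3 : 1 / (θb * t) * s ^ (3 / 5 : ℝ) ≤ s) : Ad * m * (t * s + s ^ (3 / 5 : ℝ) / θb) ≤ r * N := by
  have h1 : s ^ (3 / 5 : ℝ) / θb ≤ t * s := by
    rw [div_le_iff₀ hθb]
    have h2 : 1 / (θb * t) * s ^ (3 / 5 : ℝ) = s ^ (3 / 5 : ℝ) / (θb * t) := by ring
    rw [h2, div_le_iff₀ (by positivity)] at w3
    linarith
  have h3 : Ad * m * (t * s + s ^ (3 / 5 : ℝ) / θb) ≤ Ad * m * (2 * (t * s)) :=
    mul_le_mul_of_nonneg_left (by linarith) (by positivity)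
  have h4 : Ad * m * (2 * (t * s)) = r * (κ * m / 4) := by
    rw [htd, hrd]
    field_simp
    ring
  rw [h4] at h3
  refine h3.trans (mul_le_mul_of_nonneg_left ?_ (by rw [hrd]; positivity))
  linarith [mul_pos hκ hm]

/-- The size of `F`. -/
theorem side_F {Q : Par} {g : V → ℝ} {c : Crd} {D Ct s R y₀ : ℝ} {M : Mdl Q.a Q.b} (hCt : 1 ≤ Ct)
    (htc : ∀ (n R : ℝ) (M : Mdl Q.a Q.b), 1 ≤ n → Ct * n ^ 2 ≤ R → Good Q g R M →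
      ∀ y ∈ Md c D, 0 ≤ lv c y → lv c y ≤ n → Sc M c y ≤ Ct * n ^ (3 / 4 : ℝ)) (hs : 1 ≤ s) (hCs : Ct ≤ s)
    (hR : s ^ 30 ≤ R) (hG : Good Q g R M) (hy₀ : 1 ≤ y₀)
    (w2 : 4 * (1 + Ct) * s ^ (3 / 4 : ℝ) ≤ s ^ (4 / 5 : ℝ)) (w6 : 2 * (y₀ * (1 + Ct)) * s ^ (3 / 4 : ℝ) ≤ s) :
    1 ≤ Fm M c D s ∧ 4 * Fm M c D s ≤ s ^ (4 / 5 : ℝ) ∧ 2 * (y₀ * Fm M c D s) ≤ s := by
  have h0 := Fm_one_le M c (D := D) s
  have h1 : Fm M c D s ≤ 1 + Ct * s ^ (3 / 4 : ℝ) := Fm_le M c (by positivity) fun y hy h0 hn =>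
    htc s R M hs (le_trans (by
      calc Ct * s ^ 2 ≤ s * s ^ 2 := mul_le_mul_of_nonneg_right hCs (by positivity)
        _ = s ^ 3 := by ring
        _ ≤ s ^ 30 := pow_le_pow_right₀ hs (by norm_num)) hR) hG y hy h0 hn
  have h2 : 1 ≤ s ^ (3 / 4 : ℝ) := Real.one_le_rpow hs (by norm_num)
  have h3 : Fm M c D s ≤ (1 + Ct) * s ^ (3 / 4 : ℝ) := by
    rw [one_add_mul]
    linarith
  have h4 := mul_le_mul_of_nonneg_left h3 (by linarith : 0 ≤ 2 * y₀)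
  exact ⟨h0, by linarith, by linarith⟩

open Classical in
/-- The contradiction at a good scale, given a slow vector near the edge. -/
theorem contra_side {Q : Par} {g : V → ℝ} (hg : IsMean Q g) (hM : HasModels Q g) {c : Crd} (hf : FlatS g c) {D γ c₁ κ₁ c₄ : ℝ}
    (hD : 3 ≤ D) (hγ : 0 < γ) (hγ1 : γ ≤ 1 / 4) (hc₁ : 0 < c₁) (hc₁' : c₁ ≤ 1) (hκ₁ : 0 < κ₁) (hκ₁' : κ₁ ≤ 1) (hc₄ : 0 < c₄)
    (hc₄' : c₄ ≤ 1) :
    ∃ η₀ : ℝ, 0 < η₀ ∧ ∀ η : ℝ, 0 < η → η ≤ η₀ → ∃ s₀ : ℝ, 1 ≤ s₀ ∧ ∀ (s R : ℝ) (M : Mdl Q.a Q.b), s₀ ≤ s → s ^ 300 ≤ R → Good Q g R M →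
      s ^ γ ≤ Fm M c D s →
      (∀ ρ : ℝ, 1 ≤ ρ → ρ ≤ s → Fm M c D ρ ≤ 2 * (ρ / s) ^ γ * Fm M c D s) →
      (∀ n : ℝ, s ≤ n → n ≤ s ^ 2 → Fm M c D n ≤ 4 * (n / s) ^ (9 / 10 : ℝ) * Fm M c D s) →
      ∀ x₁ : V, |c.q x₁ - 100 * (η * s)| ≤ 2 * c.C → c₄ * s ≤ lv c x₁ → lv c x₁ ≤ s →
        κ₁ ≤ M.P (fun τ => c₁ * Fm M c D s ≤ Tc Q.b c τ 0 x₁ - lv c x₁) → False := by
  have hC := c.one_le
  obtain ⟨θ, hθd⟩ : ∃ θ : ℝ, θ = c₁ * κ₁ / 1024 := ⟨_, rfl⟩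
  have hck : c₁ * κ₁ ≤ 1 := mul_le_one₀ hc₁' hκ₁.le hκ₁'
  have hθ : 0 < θ := by rw [hθd]; positivity
  have hθ1 : θ ≤ 1 := by rw [hθd]; linarith
  obtain ⟨κm, m₀, hκm, hκm1, hmany⟩ := side_slow (p₀ := κ₁ / 2) (by positivity) (by linarith)
  obtain ⟨Ad, sd, hAd, hsd, hdet⟩ := det_rows hg c hf.low
  obtain ⟨Cw, sw, hCw, hsw, hwide⟩ := wide_prob Q hg c hf.low (D := D) (γ := γ) (A := Ad + 2) hD hγ (by linarith)
  obtain ⟨y₁, hy₁, hls⟩ := luck_sum hCw hθ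
  obtain ⟨y₀, hy₀1, hy₀w⟩ : ∃ y₀, y₁ ≤ y₀ ∧ Cw ≤ y₀ := ⟨max y₁ Cw, le_max_left _ _, le_max_right _ _⟩
  have hy₀ : 1 ≤ y₀ := hCw.trans hy₀w
  obtain ⟨κs, hκs, hκs1, hls'⟩ := hls y₀ hy₀1
  obtain ⟨Cs, hCs, hsmall⟩ := luck_small Q hg c hf.low hD hγ (by linarith : γ ≤ 1) (c₄ := c₄ / 2) (by positivity) hθ hθ1
  obtain ⟨η₁, hη₁, hη₁'⟩ := side_eta (a := c₁ * κ₁ / 16) hγ (by positivity)
  obtain ⟨κ, hκ0, hκ1, hκm', hκs', hκ32, n4, n2⟩ := side_kappa hκm hκm1 hκs hκ₁ hθ hy₀ hCs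
  refine ⟨min (min η₁ (c₄ / 1000)) (min 1 (θ / (160 * y₀ * Cs))),
    lt_min (lt_min hη₁ (by positivity)) (lt_min one_pos (by positivity)), ?_⟩
  intro η hη hηη
  have hη1 : η ≤ η₁ := hηη.trans ((min_le_left _ _).trans (min_le_left _ _))
  have hη2 : η ≤ c₄ / 1000 := hηη.trans ((min_le_left _ _).trans (min_le_right _ _))
  have hη3 : η ≤ 1 := hηη.trans ((min_le_right _ _).trans (min_le_left _ _))
  have hη4 : η ≤ θ / (160 * y₀ * Cs) := hηη.trans ((min_le_right _ _).trans (min_le_right _ _))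
  have hη150 := hη₁' η hη hη1
  have n1 : 160 * y₀ * (Cs * η) ≤ θ := by
    have := (le_div_iff₀ (by positivity : (0 : ℝ) < 160 * y₀ * Cs)).1 hη4
    linarith
  have n2' := n2 η hη hη3
  obtain ⟨t, htd⟩ : ∃ t, t = η * κ / (8 * Ad) := ⟨_, rfl⟩
  have ht : 0 < t := by rw [htd]; positivity
  obtain ⟨θb, hθb, hθb1, hbar⟩ := bar_flat hf ht
  obtain ⟨sc, hsc, hconf⟩ := conf_flat hf hη hAd
  obtain ⟨sz, hsz, hexc⟩ := excess_Z hg hM hf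
  obtain ⟨so, hso, hov⟩ := P_Ov Q g 22 (1 / 8) (by norm_num)
  obtain ⟨Ct, hCt, htc⟩ := tc_mean hg hM hf hD
  suffices H : ∀ᶠ s : ℝ in atTop, ∀ (R : ℝ) (M : Mdl Q.a Q.b), s ^ 300 ≤ R → Good Q g R M →
      s ^ γ ≤ Fm M c D s →
      (∀ ρ : ℝ, 1 ≤ ρ → ρ ≤ s → Fm M c D ρ ≤ 2 * (ρ / s) ^ γ * Fm M c D s) →
      (∀ n : ℝ, s ≤ n → n ≤ s ^ 2 → Fm M c D n ≤ 4 * (n / s) ^ (9 / 10 : ℝ) * Fm M c D s) →
      ∀ x₁ : V, |c.q x₁ - 100 * (η * s)| ≤ 2 * c.C → c₄ * s ≤ lv c x₁ → lv c x₁ ≤ s →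
        κ₁ ≤ M.P (fun τ => c₁ * Fm M c D s ≤ Tc Q.b c τ 0 x₁ - lv c x₁) → False by
    obtain ⟨s₀, hs₀⟩ := eventually_atTop.1 H
    exact ⟨max s₀ 1, le_max_right _ _, fun s R M hs => hs₀ s ((le_max_left _ _).trans hs) R M⟩
  filter_upwards [eventually_ge_atTop sd, eventually_ge_atTop sw, eventually_ge_atTop sc, eventually_ge_atTop sz,
    eventually_ge_atTop so, eventually_ge_atTop Cs, eventually_ge_atTop (Cs / η), eventually_ge_atTop (100 * c.C / η),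
    eventually_ge_atTop Ct, eventually_ge_atTop (100000 * c.C ^ 2 * (Ad + 2)), eventually_ge_atTop (m₀ : ℝ),
    eventually_ge_atTop (2 / κ), eventually_ge_atTop (28 / θ), eventually_ge_atTop (12 * y₀ / θ),
    ev_pow (1 / η) (by norm_num : (9 / 10 : ℝ) < 1), ev_pow (4 * (1 + Ct)) (by norm_num : (3 / 4 : ℝ) < 4 / 5),
    ev_pow (1 / (θb * t)) (by norm_num : (3 / 5 : ℝ) < 1), ev_pow ((14 * c.C + 1) / θ) hγ,
    ev_pow 4 (by norm_num : (7 / 10 : ℝ) < 1), ev_pow (2 * (y₀ * (1 + Ct))) (by norm_num : (3 / 4 : ℝ) < 1)]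
    with s l1 l2 l3 l4 l5 l6 l7 l8 l9 l10 l11 l12 l13 l14 w1 w2 w3 w4 w5 w6
  intro R M hR hG hFγ hB hA x₁ hxq hx4 hxs hxP
  have hs1 : 1 ≤ s := hsd.trans l1
  have hsp : 0 < s := by linarith only [hs1]
  rw [Real.rpow_one] at w1 w3 w5 w6
  rw [Real.rpow_zero, mul_one] at w4
  have hR30 : s ^ 30 ≤ R := (pow_le_pow_right₀ hs1 (by norm_num)).trans hR
  obtain ⟨hF1, hF4, hFy⟩ := side_F hCt htc hs1 l9 hR30 hG hy₀ w2 w6
  obtain ⟨F, hFd⟩ : ∃ F, F = Fm M c D s := ⟨_, rfl⟩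
  rw [← hFd] at hF1 hF4 hFy
  have hFp : 0 < F := by linarith only [hF1]
  obtain ⟨r, hrd⟩ : ∃ r, r = η * s := ⟨_, rfl⟩
  obtain ⟨ℓ, hℓd⟩ : ∃ ℓ, ℓ = lv c x₁ - 200 * r := ⟨_, rfl⟩
  rw [← hrd] at hxq
  obtain ⟨hCr, hrs, hℓ4, hℓr, hℓs, hc1, hc2, hc3⟩ := side_geo hs1 hη hη2 hc₄ hc₄' hC hAd l8 l10 hrd hℓd hx4 hxs
  have hr0 : 0 < r := by linarith only [hCr, hC]
  have hℓ0 : 0 < ℓ := by linarith only [hℓr, hr0]
  have hrℓ : r + 4 * c.C < ℓ := by linarith only [hCr, hC, hℓr]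
  obtain ⟨m, N, hm1, hm2, hm₀, hm1', hsm, hN1, hN2, hNm⟩ := side_mN hs1 hκ0 hκ1 l11 l12
  have hmp : (0 : ℝ) < m := by linarith only [hsm, hsp]
  obtain ⟨g1, g2, g3, g4⟩ := side_rng hs1 hC hAd hr0.le hrs hℓ0.le hℓs hc1 hc2 hm2 hmp.le (Nat.cast_nonneg N) hNm
  -- slow blocks
  have hc₁F : 0 < c₁ * F := by positivity
  have hrη : r / s = η := by
    rw [hrd]
    field_simp
  have hF' : Fm M c D (150 * r) ≤ 2 * (150 * η) ^ γ * F := by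
    have h1 := hB (150 * r) (by linarith only [hCr, hC]) (by linarith only [hrs, hr0])
    have h2 : 150 * r / s = 150 * η := by
      rw [mul_div_assoc, hrη]
    rwa [h2, ← hFd] at h1
  have hslowP : ∀ α β : ℝ, κ₁ / 2 ≤ M.P (fun τ => ¬ Cr Q.b c r (10 * r) r ℓ α β (c₁ * F / 2) τ) := by
    intro α β
    refine blk_all hG hD (by linarith only [hCr, hC]) hxq hℓd hℓr hc₁F (g1.trans hR30) (by rw [hFd]; exact hxP) hF' ?_ α β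
    have h1 : 2 * (150 * η) ^ γ * F ≤ 2 * (c₁ * κ₁ / 16) * F :=
      mul_le_mul_of_nonneg_right (by linarith only [hη150]) hFp.le
    linarith only [h1]
  have hS := hmany hG m N hm₀ (hN1.trans (mul_le_mul_of_nonneg_right hκm' hmp.le)) c r ℓ (c₁ * F / 2) hr0.le
    hrℓ (g2.trans hR30) hslowP
  -- the levels of luck
  obtain ⟨J, j1, j2, j3, j4⟩ := exists_J (one_le_mul_of_one_le_of_one_le hy₀ hF1)
    (Real.one_le_rpow hs1 (by norm_num) : 1 ≤ s ^ (7 / 10 : ℝ))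
  have hJs : 2 * s ^ (7 / 10 : ℝ) + y₀ * F ≤ s := by linarith only [w5, hFy]
  have h78 : s ^ (7 / 10 : ℝ) ≤ s ^ (4 / 5 : ℝ) := Real.rpow_le_rpow_of_exponent_le hs1 (by norm_num)
  have hD1 : ∀ α β : ℝ, M.P (Cr Q.b c r (10 * r) r ℓ α β (-(θ * F))) ≤ Cs * η := by
    intro α β
    have h1 := hsmall s R M l6 (le_trans (by
      calc Cs * s ^ 12 ≤ s * s ^ 12 := mul_le_mul_of_nonneg_right l6 (by positivity)
        _ = s ^ 13 := by ring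
        _ ≤ s ^ 30 := pow_le_pow_right₀ hs1 (by norm_num)) hR30) hG hFγ hB r ℓ α β (by
      rw [hrd]
      have := (div_le_iff₀ hη).1 l7
      linarith only [this]) (by linarith only [hrs, hr0]) hℓ4 hℓs
    rwa [hrη, ← hFd] at h1
  have hW1 : ∀ j < J, ∀ α β : ℝ, M.P (Cr Q.b c r ((Ad + 2) * s) ((Ad + 2) * s) ℓ α β (-(2 ^ j * (y₀ * F)))) ≤
      Cw * (1 / (2 ^ j * y₀)) ^ (20 / 9 : ℝ) := by
    intro j hj α β
    have h1 := hwide s R M l2 hR hG hA r ℓ α β (2 ^ j * (y₀ * F)) (by linarith only [hCr, hC])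
      (by linarith only [hℓr, hr0]) hℓs (by
      rw [← hFd]
      have h2 : (1 : ℝ) ≤ 2 ^ j := one_le_pow₀ (by norm_num)
      have h3 : Cw * F ≤ y₀ * F := mul_le_mul_of_nonneg_right hy₀w hFp.le
      exact h3.trans (le_mul_of_one_le_left (by positivity) h2)) ((j3 j hj).trans h78)
    have h4 : Fm M c D s / (2 ^ j * (y₀ * F)) = 1 / (2 ^ j * y₀) := by
      rw [← hFd]
      field_simp
    rwa [h4] at h1
  refine side_main hG (c := c) (r := r) (ℓ := ℓ) (A := Ad) (A' := Ad + 2) (s := s) (L := s ^ 22) (F := F) (θ := θ)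
    (y₀ := y₀) (c₁ := c₁) (κ₁ := κ₁) (κ := κ) (ρD := Cs * η) (B := s ^ (7 / 10 : ℝ)) (E := s ^ (4 / 5 : ℝ) / 4)
    (ρW := fun j => Cw * (1 / (2 ^ j * y₀)) ^ (20 / 9 : ℝ)) (m := m) (N := N) (J := J) hr0.le hrℓ (by positivity)
    (mul_le_mul_of_nonneg_right (by linarith only) hsp.le) (g3.trans hR30)
    (hov s R M l5 (le_trans (by
      calc 2 * s ^ 22 ≤ s * s ^ 22 := mul_le_mul_of_nonneg_right (by linarith only [hc1, hC]) (by positivity)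
        _ = s ^ 23 := by ring
        _ ≤ s ^ 30 := pow_le_pow_right₀ hs1 (by norm_num)) hR30) ((le_self_pow₀ hs1 (by norm_num)).trans hR30) hG)
    hS (by positivity) hD1 (fun j => by positivity) hW1 hmp hN1 ?_ ?_ (by positivity) j1 hc₁ hκ₁ hFp hy₀ hθd hθ1 hκ32
    n1 n2' ?_ n4 ?_ ?_
  · intro τ hτ hτov
    obtain ⟨Z, z1, z2, z3, z4⟩ := hexc s ℓ m τ l4 (by linarith only [hCr, hC, hℓr]) hℓs hm1 hm2 hτ hτov
    exact hdet s r ℓ (s ^ 22) t θb τ m N Z l1 (by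
      rw [one_div, inv_mul_le_iff₀ hη] at w1
      rw [hrd]
      exact w1) (by linarith only [hℓr, hr0]) hℓs hm1' hτ hτov
      (hconf s r ℓ l3 (by rw [hrd]) (by linarith only [hrs, hr0]) hℓ0.le hℓs) ht hθb hθb1 hbar g4 z1 z2 z3 z4
      (side_bar hη hκ0 hAd hθb ht htd hrd hmp hsp hN2 w3)
  · have h1 : c₁ * F ≤ F := mul_le_of_le_one_left hFp.le hc₁'
    linarith only [h1, hF4, hFp]
  · have h1 := (div_le_iff₀ hθ).1 l14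
    have h2 := mul_le_mul_of_nonneg_left hsm hθ.le
    linarith only [h1, h2]
  · have h1 : (14 * c.C + 1) / θ ≤ F := w4.trans (hFd ▸ hFγ)
    rw [div_le_iff₀ hθ] at h1
    have h2 := mul_le_mul_of_nonneg_right h1 hmp.le
    have h3 : 10 * c.C ≤ 10 * c.C * m := le_mul_of_one_le_right (by linarith only [hC]) (by exact_mod_cast hm1')
    linarith only [h2, h3]
  · intro KW hKW
    exact side_W hls' hκ0.le hκs' hmp hF1 hs1 hθ l13 hm1 (j2.trans hJs) (j4.trans hJs) (by linarith only [hy₀]) KW hKW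

end Pool.Agent.W_1b8d5d_fe
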