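import Pool.Agent.W_1b8d5d_fe.Side2

/-!
MP_1b8d5d_pr (FE): the fluctuations over the flat piece are subpolynomial (section 6 of row 596).
-/

set_option autoImplicit false

namespace Pool.Agent.W_1b8d5d_fe

open Finset Pool.Agent.W_1b8d5d_h85

/-- The contradiction at a good scale. -/
theorem contra_slow {Q : Par} {g : V → ℝ} (hg : IsMean Q g) (hM : HasModels Q g) {c : Crd} (hf : FlatS g c) {D γ : ℝ}
    (hD : 3 ≤ D) (hγ : 0 < γ) (hγ1 : γ ≤ 1 / 4) :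
    ∃ s₀ : ℝ, 1 ≤ s₀ ∧ ∀ (s R : ℝ) (M : Mdl Q.a Q.b), s₀ ≤ s → s ^ 300 ≤ R → Good Q g R M →
      s ^ γ ≤ Fm M c D s →
      (∀ ρ : ℝ, 1 ≤ ρ → ρ ≤ s → Fm M c D ρ ≤ 2 * (ρ / s) ^ γ * Fm M c D s) →
      (∀ n : ℝ, s ≤ n → n ≤ s ^ 2 → Fm M c D n ≤ 4 * (n / s) ^ (9 / 10 : ℝ) * Fm M c D s) → False := by
  obtain ⟨c₁, κ₁, c₃, s₁, hc₁, hc₁', hκ₁, hκ₁', hc₃, hc₃', hs₁, h2⟩ := two_routes Q g c hD hγ (by linarith : γ ≤ 1)
  have hD0 : 0 < D := by linarith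
  have hc₄ : 0 < c₃ / (4 * D) := by positivity
  have hc₄' : c₃ / (4 * D) ≤ 1 := by
    rw [div_le_one (by positivity)]; linarith
  obtain ⟨η₁, hη₁, hA⟩ := contra_side hg hM hf hD hγ hγ1 (c₁ := c₁ / 2) (κ₁ := κ₁ / 2) (c₄ := c₃ / (4 * D))
    (by linarith) (by linarith) (by linarith) (by linarith) hc₄ hc₄'
  obtain ⟨η₂, hη₂, hB⟩ := contra_side hg hM (FlatS_swp hf) hD hγ hγ1 (c₁ := c₁ / 2) (κ₁ := κ₁ / 2) (c₄ := c₃ / (4 * D))
    (by linarith) (by linarith) (by linarith) (by linarith) hc₄ hc₄'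
  obtain ⟨η, hη, hη1, hη2, hη3⟩ : ∃ η : ℝ, 0 < η ∧ η ≤ η₁ ∧ η ≤ η₂ ∧ η ≤ c₃ / (400 * D) := by
    refine ⟨min (min η₁ η₂) (c₃ / (400 * D)), ?_, ?_, ?_, ?_⟩
    · exact lt_min (lt_min hη₁ hη₂) (by positivity)
    · exact (min_le_left _ _).trans (min_le_left _ _)
    · exact (min_le_left _ _).trans (min_le_right _ _)
    · exact min_le_right _ _
  obtain ⟨s₂, hs₂, hA⟩ := hA η hη hη1
  obtain ⟨s₃, hs₃, hB⟩ := hB η hη hη2
  refine ⟨max (max s₁ (max s₂ s₃)) (c.C / η), ?_, ?_⟩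
  · exact hs₁.trans ((le_max_left _ _).trans (le_max_left _ _))
  intro s R M hs hsR hG hF hlo hhi
  have e1 : s₁ ≤ s := ((le_max_left _ _).trans (le_max_left _ _)).trans hs
  have e2 : s₂ ≤ s := ((le_max_left _ _).trans ((le_max_right _ _).trans (le_max_left _ _))).trans hs
  have e3 : s₃ ≤ s := ((le_max_right _ _).trans ((le_max_right _ _).trans (le_max_left _ _))).trans hs
  have e4 : c.C / η ≤ s := (le_max_right _ _).trans hs
  have e1' : 1 ≤ s := hs₁.trans e1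
  have e5 : s₁ * s ≤ R := by
    calc s₁ * s ≤ s * s := by nlinarith
      _ = s ^ 2 := by ring
      _ ≤ s ^ 300 := pow_le_pow_right₀ e1' (by norm_num)
      _ ≤ R := hsR
  obtain ⟨x, hxp, hxq, hx3, hxs, hxP⟩ := h2 s R M e1 e5 hG hF hlo
  have hCη : c.C ≤ η * s := by
    rw [div_le_iff₀ hη] at e4
    linarith
  have hC0 : 0 ≤ η * s := by positivity
  have hH : 2 * (2 * D) * (100 * (η * s)) ≤ lv c x := by
    have h1 : η * (400 * D) ≤ c₃ := by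
      rwa [le_div_iff₀ (by positivity)] at hη3
    calc 2 * (2 * D) * (100 * (η * s)) = (η * (400 * D)) * s := by ring
      _ ≤ c₃ * s := mul_le_mul_of_nonneg_right h1 (by linarith)
      _ ≤ lv c x := hx3
  obtain ⟨c', hc', x₁, hq1, hl1, hl2, hP1⟩ := near_edge hG c (x := x) (D := 2 * D) (H := 100 * (η * s)) (e := c₁ * Fm M c D s) (κ := κ₁)
    (by linarith) (by linarith) hH (by linarith) (by linarith) hxP
  have hl3 : c₃ / (4 * D) * s ≤ lv c x₁ := by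
    refine le_trans ?_ hl1
    rw [div_mul_eq_mul_div]
    have : (2 * (2 * D)) = 4 * D := by ring
    rw [this]
    exact div_le_div_of_nonneg_right hx3 (by positivity)
  rcases hc' with rfl | rfl
  · refine hA s R M e2 hsR hG hF hlo hhi x₁ hq1 hl3 (hl2.trans hxs) ?_
    have : c₁ / 2 * Fm M c' D s = c₁ * Fm M c' D s / 2 := by ring
    rw [this]; exact hP1
  · refine hB s R M e3 hsR hG (by rw [Fm_swp]; exact hF) (by simpa only [Fm_swp] using hlo) (by simpa only [Fm_swp] using hhi) x₁ ?_ ?_ ?_ ?_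
    · exact hq1
    · rw [lv_swp]; exact hl3
    · rw [lv_swp]; exact hl2.trans hxs
    · have : c₁ / 2 * Fm M (swp c) D s = c₁ * Fm M c D s / 2 := by rw [Fm_swp]; ring
      rw [this]; exact hP1

/-- **The fluctuations over the flat piece are subpolynomial.** -/
theorem slow {Q : Par} {g : V → ℝ} (hg : IsMean Q g) (hM : HasModels Q g) {c : Crd} (hf : FlatS g c) {D : ℝ} (hD : 3 ≤ D) :
    ∀ ε : ℝ, 0 < ε → ∃ n₁ : ℝ, 1 ≤ n₁ ∧ ∀ (n R : ℝ) (M : Mdl Q.a Q.b), n₁ ≤ n → n ^ 5000 ≤ R → Good Q g R M → Fm M c D n ≤ n ^ ε := by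
  intro ε hε
  obtain ⟨γ, hγ, hγ1, hγ2⟩ : ∃ γ : ℝ, 0 < γ ∧ γ ≤ 1 / 4 ∧ 4 * γ ≤ ε := by
    refine ⟨min (ε / 4) (1 / 4), lt_min (by linarith) (by norm_num), min_le_right _ _, ?_⟩
    have := min_le_left (ε / 4) (1 / 4)
    linarith
  have hD0 : 0 < D := by linarith
  obtain ⟨s₀, hs₀, hcon⟩ := contra_slow hg hM hf hD hγ hγ1
  obtain ⟨C, hC, htc⟩ := tc_mean hg hM hf hD
  obtain ⟨n₁, hgs⟩ := good_scale hγ hγ1 (C₀ := 1 + C) (by linarith) s₀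
  refine ⟨max (max (n₁ : ℝ) 2) C, ?_, ?_⟩
  · exact le_trans (by norm_num : (1 : ℝ) ≤ 2) ((le_max_right _ _).trans (le_max_left _ _))
  intro n R M hn hR hG
  by_contra hcontra
  push Not at hcontra
  have a1 : (n₁ : ℝ) ≤ n := ((le_max_left _ _).trans (le_max_left _ _)).trans hn
  have a2 : (2 : ℝ) ≤ n := ((le_max_right _ _).trans (le_max_left _ _)).trans hn
  have a3 : C ≤ n := (le_max_right _ _).trans hn
  have a0 : 0 < n := by linarith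
  have a1' : 1 ≤ n := by linarith
  have b1 : n ≤ (⌈n⌉₊ : ℝ) := Nat.le_ceil n
  have b2 : (⌈n⌉₊ : ℝ) ≤ n ^ 2 := by
    have := (Nat.ceil_lt_add_one a0.le).le
    nlinarith
  have b3 : n₁ ≤ ⌈n⌉₊ := by exact_mod_cast a1.trans b1
  have b0 : (1 : ℝ) ≤ (⌈n⌉₊ : ℝ) := a1'.trans b1
  obtain ⟨s, hs0, hs8, hsγ, hlo, hhi⟩ := hgs ⌈n⌉₊ b3 (fun k => Fm M c D k) (fun x y h => Fm_mono M c hD0 h) (fun k => Fm_one_le M c k)
    (by
      intro k hk1 hk16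
      have hkR : C * k ^ 2 ≤ R := by
        have h1 : k ≤ n ^ 32 := by
          calc k ≤ (⌈n⌉₊ : ℝ) ^ 16 := hk16
            _ ≤ (n ^ 2) ^ 16 := pow_le_pow_left₀ (by positivity) b2 16
            _ = n ^ 32 := by ring
        calc C * k ^ 2 ≤ n * (n ^ 32) ^ 2 := mul_le_mul a3 (pow_le_pow_left₀ (by linarith) h1 2) (by positivity) a0.le
          _ = n ^ 65 := by ring
          _ ≤ n ^ 5000 := pow_le_pow_right₀ a1' (by norm_num)
          _ ≤ R := hR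
      have h2 := htc k R M hk1 hkR hG
      have h3 : Fm M c D k ≤ 1 + C * k ^ (3 / 4 : ℝ) := Fm_le M c (by positivity) h2
      have h4 : (1 : ℝ) ≤ k ^ (3 / 4 : ℝ) := Real.one_le_rpow hk1 (by norm_num)
      show Fm M c D k ≤ (1 + C) * k ^ (3 / 4 : ℝ)
      nlinarith)
    (by
      show ((⌈n⌉₊ : ℕ) : ℝ) ^ (2 * γ) ≤ Fm M c D (⌈n⌉₊ : ℝ)
      calc ((⌈n⌉₊ : ℕ) : ℝ) ^ (2 * γ) ≤ (n ^ 2) ^ (2 * γ) := Real.rpow_le_rpow (by positivity) b2 (by positivity)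
        _ = n ^ (4 * γ) := by
          rw [← Real.rpow_natCast, ← Real.rpow_mul a0.le]; congr 1; push_cast; ring
        _ ≤ n ^ ε := Real.rpow_le_rpow_of_exponent_le a1' hγ2
        _ ≤ Fm M c D n := hcontra.le
        _ ≤ Fm M c D (⌈n⌉₊ : ℝ) := Fm_mono M c hD0 b1)
  refine hcon s R M hs0 ?_ hG hsγ hlo hhi
  calc (s : ℝ) ^ 300 ≤ ((⌈n⌉₊ : ℝ) ^ 8) ^ 300 := pow_le_pow_left₀ (by positivity) hs8 300
    _ ≤ ((n ^ 2) ^ 8) ^ 300 := pow_le_pow_left₀ (by positivity) (pow_le_pow_left₀ (by positivity) b2 8) 300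
    _ = n ^ 4800 := by ring
    _ ≤ n ^ 5000 := pow_le_pow_right₀ a1' (by norm_num)
    _ ≤ R := hR

end Pool.Agent.W_1b8d5d_fe
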