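import Pool.Agent.W_1b8d5d_fe.Rates2

/-!
MP_1b8d5d_pr (FE): the passage time between two points deep inside a double cone.
-/

set_option autoImplicit false

namespace Pool.Agent.W_1b8d5d_fe

open Finset Pool.Agent.W_1b8d5d_h85

/-- A large value of `- (2 p + q)` or of `- (p + 2 q)`. -/
private theorem Tc1_max {P q D : ℝ} (h : 2 * P + q < -D ∨ P + 2 * q < -D) : D / 3 ≤ max (-P) (-q) := by
  rcases le_total (-P) (-q) with h1 | h1
  · rw [max_eq_right h1]
    rcases h with h | h <;> linarith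
  · rw [max_eq_left h1]
    rcases h with h | h <;> linarith

/-- The barrier for a vector which leaves the cone by `D`. -/
private theorem Tc1_bar {g : V → ℝ} {c : Crd} {K c₀ D : ℝ} (hK : 0 < K) (hc₀ : 0 < c₀)
    (hbar : ∀ z, 1 / (6 * K) * nm z ≤ max (-c.p z) (-c.q z) → lv c z + c₀ * nm z ≤ g z) {z : V}
    (hz : nm z ≤ 2 * K * D) (h : 2 * c.p z + c.q z < -D ∨ c.p z + 2 * c.q z < -D) :
    lv c z + c₀ / (3 * c.C) * D ≤ g z := by
  have hC : 0 < c.C := by linarith [c.one_le]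
  have h1 := Tc1_max h
  have h2 : 1 / (6 * K) * nm z ≤ max (-c.p z) (-c.q z) := by
    refine le_trans ?_ h1
    have h3 := mul_le_mul_of_nonneg_left hz (by positivity : 0 ≤ 1 / (6 * K))
    refine h3.trans (le_of_eq ?_)
    field_simp
    ring
  have h3 := hbar z h2
  have h4 : max (-c.p z) (-c.q z) ≤ c.C * nm z :=
    max_le ((neg_le_abs _).trans (c.p_le z)) ((neg_le_abs _).trans (c.q_le z))
  have h5 : D ≤ 3 * c.C * nm z := by linarith
  have h6 : c₀ / (3 * c.C) * D ≤ c₀ * nm z := by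
    have h7 := mul_le_mul_of_nonneg_left h5 (by positivity : 0 ≤ c₀ / (3 * c.C))
    refine h7.trans (le_of_eq ?_)
    field_simp
  linarith

/-- The deterministic part: a geodesic stays in the double cone. -/
private theorem Tc1_det {Q : Par} {g : V → ℝ} {c : Crd} (hl : ∀ z, lv c z ≤ g z) {A K c₀ D : ℝ} {τ : Env} {x y u v : V}
    (hD : 1 ≤ D) (hK : 1 ≤ K) (hAK : A ≤ K) (hbK : Q.b / Q.a * A ≤ K) (hKD : K ≤ D) (hc₀ : 0 < c₀)
    (hbar : ∀ z, 1 / (6 * K) * nm z ≤ max (-c.p z) (-c.q z) → lv c z + c₀ * nm z ≤ g z)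
    (hnum : A * D ^ (7 / 10 : ℝ) + 3 * (2 * K * D) ^ (3 / 5 : ℝ) < c₀ / (3 * c.C) * D)
    (hτ : Bd Q.a Q.b τ) (hOv : Ov g (D ^ 2) D (sh u τ)) (hnm : nm (v - u) ≤ A * D)
    (hrate : g (v - u) ≤ lv c (v - u) + A * D ^ (7 / 10 : ℝ))
    (hx : D ≤ 2 * c.p (u - x) + c.q (u - x) ∧ D ≤ c.p (u - x) + 2 * c.q (u - x))
    (hy : D ≤ 2 * c.p (y - v) + c.q (y - v) ∧ D ≤ c.p (y - v) + 2 * c.q (y - v))
    {w : grid.Walk u v} (hw : IsGeo τ w) (i : ℕ) : w.getVert i ∈ Dc c x y := by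
  have ha := Q.ha
  have hD0 : 0 < D := by linarith
  set z := w.getVert i with hz
  have e1 : nm (z - u) ≤ K * D := by
    have h1 := geo_near hτ ha hw i
    have h2 : Q.b / Q.a * nm (v - u) ≤ Q.b / Q.a * (A * D) :=
      mul_le_mul_of_nonneg_left hnm (div_nonneg (by linarith [Q.hab]) ha.le)
    have h3 : Q.b / Q.a * (A * D) ≤ K * D := by
      rw [← mul_assoc]
      exact mul_le_mul_of_nonneg_right hbK hD0.le
    exact h1.trans (h2.trans h3)
  have e2 : nm (v - u) ≤ K * D := hnm.trans (mul_le_mul_of_nonneg_right hAK hD0.le)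
  have e3 : nm (v - z) ≤ 2 * K * D := by
    have h1 := nm_add_le (v - u) (u - z)
    rw [sub_add_sub_cancel, nm_sub_comm u z] at h1
    linarith
  have hKD2 : K * D ≤ D ^ 2 := by
    rw [pow_two]
    exact mul_le_mul_of_nonneg_right hKD hD0.le
  have hKD1 : K * D ≤ 2 * K * D := by nlinarith
  have hDK : D ≤ 2 * K * D := by nlinarith
  have o1 := hOv 0 (z - u) (by rw [nm_zero]; positivity) (e1.trans hKD2)
  have o2 := hOv (z - u) (v - u) (e1.trans hKD2) (e2.trans hKD2)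
  have o3 := hOv 0 (v - u) (by rw [nm_zero]; positivity) (e2.trans hKD2)
  rw [T_sh, zero_add, sub_add_cancel, sub_zero] at o1 o3
  rw [T_sh, sub_add_cancel, sub_add_cancel, sub_sub_sub_cancel_right] at o2
  have p1 : max D (nm (z - u)) ^ (3 / 5 : ℝ) ≤ (2 * K * D) ^ (3 / 5 : ℝ) :=
    Real.rpow_le_rpow (hD0.le.trans (le_max_left _ _)) (max_le hDK (e1.trans hKD1)) (by norm_num)
  have p2 : max D (nm (v - z)) ^ (3 / 5 : ℝ) ≤ (2 * K * D) ^ (3 / 5 : ℝ) :=
    Real.rpow_le_rpow (hD0.le.trans (le_max_left _ _)) (max_le hDK e3) (by norm_num)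
  have p3 : max D (nm (v - u)) ^ (3 / 5 : ℝ) ≤ (2 * K * D) ^ (3 / 5 : ℝ) :=
    Real.rpow_le_rpow (hD0.le.trans (le_max_left _ _)) (max_le hDK (e2.trans hKD1)) (by norm_num)
  have hadd := geo_add hτ ha.le hw i
  rw [← hz] at hadd
  have a1 := abs_le.1 o1
  have a2 := abs_le.1 o2
  have a3 := abs_le.1 o3
  have key : g (z - u) + g (v - z) ≤ lv c (v - u) + A * D ^ (7 / 10 : ℝ) + 3 * (2 * K * D) ^ (3 / 5 : ℝ) := by
    linarith [a1.1, a2.1, a3.2]
  have hlv : lv c (v - u) = lv c (z - u) + lv c (v - z) := by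
    rw [← lv_add]
    congr 1
    abel
  have l1 := hl (z - u)
  have l2 := hl (v - z)
  have hK0 : 0 < K := by linarith
  have b1 : ¬ (2 * c.p (z - u) + c.q (z - u) < -D ∨ c.p (z - u) + 2 * c.q (z - u) < -D) := by
    intro h
    have h1 := Tc1_bar hK0 hc₀ hbar (e1.trans hKD1) h
    linarith
  have b2 : ¬ (2 * c.p (v - z) + c.q (v - z) < -D ∨ c.p (v - z) + 2 * c.q (v - z) < -D) := by
    intro h
    have h1 := Tc1_bar hK0 hc₀ hbar e3 h
    linarith
  rw [not_or, not_lt, not_lt] at b1 b2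
  simp only [map_sub] at b1 b2 hx hy
  refine ⟨⟨?_, ?_⟩, ?_, ?_⟩
  · rw [map_sub, map_sub]
    linarith [b1.1, hx.1]
  · rw [map_sub, map_sub]
    linarith [b1.2, hx.2]
  · rw [map_sub, map_sub]
    linarith [b2.1, hy.1]
  · rw [map_sub, map_sub]
    linarith [b2.2, hy.2]

/-- The numerical inequality. -/
private theorem Tc1_num {A K κ : ℝ} (hA : 0 ≤ A) (hK : 1 ≤ K) (hκ : 0 < κ) : ∃ D₁ : ℝ, 1 ≤ D₁ ∧ ∀ D : ℝ, D₁ ≤ D →
    A * D ^ (7 / 10 : ℝ) + 3 * (2 * K * D) ^ (3 / 5 : ℝ) < κ * D := by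
  set m : ℝ := (A + 6 * K) / κ + 1 with hm
  have hm1 : 1 ≤ m := by
    have : 0 ≤ (A + 6 * K) / κ := by positivity
    linarith
  refine ⟨m ^ 4, one_le_pow₀ hm1, fun D hD => ?_⟩
  have hD1 : 1 ≤ D := (one_le_pow₀ hm1).trans hD
  have hD0 : 0 < D := by linarith
  have h1 : m ≤ D ^ (3 / 10 : ℝ) := by
    have h2 : (m ^ 4) ^ (1 / 4 : ℝ) = m := by
      rw [← Real.rpow_natCast, ← Real.rpow_mul (by linarith)]
      norm_num
    have h3 : (m ^ 4) ^ (1 / 4 : ℝ) ≤ D ^ (1 / 4 : ℝ) := Real.rpow_le_rpow (by positivity) hD (by norm_num)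
    have h4 : D ^ (1 / 4 : ℝ) ≤ D ^ (3 / 10 : ℝ) := Real.rpow_le_rpow_of_exponent_le hD1 (by norm_num)
    linarith
  have h2 : (2 * K * D) ^ (3 / 5 : ℝ) ≤ 2 * K * D ^ (7 / 10 : ℝ) := by
    rw [Real.mul_rpow (by linarith) hD0.le]
    have h3 : (2 * K) ^ (3 / 5 : ℝ) ≤ 2 * K := by
      have h4 := Real.rpow_le_rpow_of_exponent_le (show (1 : ℝ) ≤ 2 * K by linarith)
        (show (3 / 5 : ℝ) ≤ 1 by norm_num)
      rwa [Real.rpow_one] at h4
    have h4 : D ^ (3 / 5 : ℝ) ≤ D ^ (7 / 10 : ℝ) := Real.rpow_le_rpow_of_exponent_le hD1 (by norm_num)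
    exact mul_le_mul h3 h4 (by positivity) (by linarith)
  have h3 : D = D ^ (7 / 10 : ℝ) * D ^ (3 / 10 : ℝ) := by
    rw [← Real.rpow_add hD0]
    norm_num
  have hD7 : 0 < D ^ (7 / 10 : ℝ) := Real.rpow_pos_of_pos hD0 _
  have h4 : A + 6 * K < κ * m := by
    rw [hm]
    have : κ * ((A + 6 * K) / κ + 1) = A + 6 * K + κ := by
      field_simp
    linarith
  have h5 : κ * m ≤ κ * D ^ (3 / 10 : ℝ) := mul_le_mul_of_nonneg_left h1 hκ.le
  have h6 : (A + 6 * K) * D ^ (7 / 10 : ℝ) < κ * D ^ (3 / 10 : ℝ) * D ^ (7 / 10 : ℝ) :=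
    mul_lt_mul_of_pos_right (by linarith) hD7
  have h7 : κ * D ^ (3 / 10 : ℝ) * D ^ (7 / 10 : ℝ) = κ * D := by
    conv_rhs => rw [h3]
    ring
  linarith

/-- One piece.  `u`, `v` deep inside the double cone of `x, y` (`u` at depth `≥ D` seen from `x`, `v` seen from `y`), at distance at most `A D`: the weights of the double cone suffice.  PROOF. Translate `u` to
`0` (`Good.inv`, `T_sh`).  On the event `Ov g (K D) D` (probability `≥ 1 - C / D` by `P_Ov_pow`, `A = 2`, environment seen from `u`) a geodesic from `u` to `v` stays in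
`Dc c x y`: a vertex `z` outside has e.g. `2 p (z - x) + q (z - x) < 0`, while `2 p (u - x) + q (u - x) ≥ D`: so `max (- p (z - u)) (- q (z - u)) ≥ D / 3`
and `nm (z - u) ≤ K D` (`geo_near`), `FlatS.bar` gives `g (z - u) ≥ lv (z - u) + c₀ D / C`, `g (v - z) ≥ lv (v - z)` (the other three
cases are alike; for `y - z ∉ Wc` compare with `y - v`: then `max (- p (v - z)) (- q (v - z)) ≥ D / 3`), so by `geo_add` and `Ov`
`g (v - u) + C D ^ (3/5) ≥ T u z + T z v - ... ≥ lv (v - u) + c₀ D / C - 2 C D ^ (3/5)`: contradiction to `hrate` for `D` large. Then `T_res_eq`.  In the exceptional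
case (and for bounded `D`) use `T (res ..) ≤ b nm (v - u) ≤ C D`.  Finally `|E T u v - g (v - u)| ≤ 1` (`mean'`). -/
theorem piece_mean {Q : Par} {g : V → ℝ} (hg : IsMean Q g) {c : Crd} (hf : FlatS g c) (A : ℝ) (hA : 1 ≤ A) :
    ∃ C : ℝ, 1 ≤ C ∧ ∀ (D R : ℝ) (M : Mdl Q.a Q.b), 1 ≤ D → C * D ^ 2 ≤ R → Good Q g R M → ∀ x y u v : V,
      nm (v - u) ≤ A * D → g (v - u) ≤ lv c (v - u) + A * D ^ (7 / 10 : ℝ) →
      (D ≤ 2 * c.p (u - x) + c.q (u - x) ∧ D ≤ c.p (u - x) + 2 * c.q (u - x)) →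
      (D ≤ 2 * c.p (y - v) + c.q (y - v) ∧ D ≤ c.p (y - v) + 2 * c.q (y - v)) →
      M.E (fun τ => T (res Q.b (edg (Dc c x y)) τ) u v) ≤ lv c (v - u) + C * D ^ (7 / 10 : ℝ) := by
  classical
  have ha := Q.ha
  have hab := Q.hab
  have hb : 0 < Q.b := ha.trans hab
  have hC1 := c.one_le
  set K : ℝ := max A (Q.b / Q.a * A) with hKdef
  have hAK : A ≤ K := le_max_left _ _
  have hbK : Q.b / Q.a * A ≤ K := le_max_right _ _
  have hK : 1 ≤ K := hA.trans hAK
  obtain ⟨c₀, hc₀, hbar⟩ := hf.bar (1 / (6 * K)) (by positivity)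
  obtain ⟨D₁, hD₁, hnum⟩ := Tc1_num (A := A) (K := K) (κ := c₀ / (3 * c.C)) (by linarith) hK (by positivity)
  obtain ⟨s₀, hs₀, hP⟩ := P_Ov_pow Q g 2 1
  set D₀ : ℝ := max (max s₀ K) D₁ with hD₀
  have hD₀1 : 1 ≤ D₀ := hD₁.trans (le_max_right _ _)
  refine ⟨2 + A + Q.b * A + (Q.b * A + 2 * c.C * A) * D₀, ?_, ?_⟩
  · have h1 : 0 ≤ (Q.b * A + 2 * c.C * A) * D₀ := by positivity
    have h2 : 0 ≤ Q.b * A := by positivity
    linarith
  intro D R M hD hR hM x y u v hnm hrate hx hy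
  have hD0 : 0 < D := by linarith
  have hpow : 1 ≤ D ^ (7 / 10 : ℝ) := Real.one_le_rpow hD (by norm_num)
  have hbA : 0 ≤ Q.b * A := by positivity
  have hbig : 0 ≤ (Q.b * A + 2 * c.C * A) * D₀ := by positivity
  have hup : ∀ τ, Bd Q.a Q.b τ → T (res Q.b (edg (Dc c x y)) τ) u v ≤ Q.b * (A * D) := fun τ hτ =>
    (T_upper (Bd_res hab.le hτ _) ha.le u v).trans (mul_le_mul_of_nonneg_left hnm hb.le)
  by_cases hDD : D₀ ≤ D
  · have h1 : s₀ ≤ D := ((le_max_left _ _).trans (le_max_left _ _)).trans hDD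
    have h2 : K ≤ D := ((le_max_right _ _).trans (le_max_left _ _)).trans hDD
    have h3 : D₁ ≤ D := (le_max_right _ _).trans hDD
    have hD2 : D ≤ D ^ 2 := by nlinarith
    have hR2 : (2 + A) * D ^ 2 ≤ R := by
      refine le_trans (mul_le_mul_of_nonneg_right ?_ (by positivity)) hR
      linarith
    have hR3 : 2 * D ^ 2 ≤ R := by nlinarith
    have hR4 : D ≤ R := by nlinarith
    have hR5 : A * D ≤ R := by nlinarith
    have hprob := hP D R M h1 hR3 hR4 hM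
    rw [pow_one] at hprob
    have hle : M.E (fun τ => T (res Q.b (edg (Dc c x y)) τ) u v) ≤
        M.E (fun τ => T τ u v + Q.b * (A * D) * (if ¬ Ov g (D ^ 2) D (sh u τ) then (1 : ℝ) else 0)) := by
      refine M.E_mono fun τ hτ => ?_
      by_cases hO : Ov g (D ^ 2) D (sh u τ)
      · rw [if_neg (not_not.2 hO), mul_zero, add_zero]
        obtain ⟨w, hw⟩ := exists_geo hτ ha u v
        refine (T_res_eq ha.le hab.le hτ hw.2 fun e he => ?_).le
        have hs := wedges_support w he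
        have hall : ∀ z ∈ w.support, z ∈ Dc c x y := by
          intro z hz
          obtain ⟨i, hi, -⟩ := SimpleGraph.Walk.mem_support_iff_exists_getVert.1 hz
          rw [← hi]
          exact Tc1_det hf.low hD hK hAK hbK h2 hc₀ hbar (hnum D h3) hτ hO hnm hrate hx hy hw i
        exact ⟨hall _ hs.1, hall _ hs.2⟩
      · rw [if_pos hO, mul_one]
        have h4 := T_nonneg hτ ha.le u v
        linarith [hup τ hτ]
    rw [M.E_add, M.E_mul_left] at hle
    have hPs : M.E (fun τ => if ¬ Ov g (D ^ 2) D (sh u τ) then (1 : ℝ) else 0) =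
        M.P (fun τ => ¬ Ov g (D ^ 2) D τ) := by
      rw [← P_sh hM u (fun τ => ¬ Ov g (D ^ 2) D τ), M.P_def]
      refine M.E_congr fun τ _ => ?_
      by_cases hO : Ov g (D ^ 2) D (sh u τ)
      · rw [if_neg (not_not.2 hO), if_neg (not_not.2 hO)]
      · rw [if_pos hO, if_pos hO]
    rw [hPs] at hle
    have hmean := abs_le.1 (mean' hM (x := u) (y := v) (hnm.trans hR5))
    have h5 : Q.b * (A * D) * M.P (fun τ => ¬ Ov g (D ^ 2) D τ) ≤ Q.b * A := by
      have h6 := mul_le_mul_of_nonneg_left hprob (by positivity : 0 ≤ Q.b * (A * D))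
      refine h6.trans (le_of_eq ?_)
      field_simp
    have h6 : (2 + A + Q.b * A + (Q.b * A + 2 * c.C * A) * D₀) * D ^ (7 / 10 : ℝ) ≥
        2 + Q.b * A + A * D ^ (7 / 10 : ℝ) := by
      have h7 : (2 + Q.b * A + (Q.b * A + 2 * c.C * A) * D₀) * 1 ≤
          (2 + Q.b * A + (Q.b * A + 2 * c.C * A) * D₀) * D ^ (7 / 10 : ℝ) :=
        mul_le_mul_of_nonneg_left hpow (by linarith)
      have h8 : (2 + A + Q.b * A + (Q.b * A + 2 * c.C * A) * D₀) * D ^ (7 / 10 : ℝ) =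
          (2 + Q.b * A + (Q.b * A + 2 * c.C * A) * D₀) * D ^ (7 / 10 : ℝ) + A * D ^ (7 / 10 : ℝ) := by ring
      rw [h8]
      linarith
    linarith [hmean.2]
  · push Not at hDD
    have h1 : M.E (fun τ => T (res Q.b (edg (Dc c x y)) τ) u v) ≤ Q.b * (A * D) := M.E_le_of_le hup
    have h2 := abs_le.1 (lv_le_nm c (v - u))
    have h3 : 2 * c.C * nm (v - u) ≤ 2 * c.C * (A * D) := mul_le_mul_of_nonneg_left hnm (by linarith)
    have h4 : (Q.b * A + 2 * c.C * A) * D ≤ (Q.b * A + 2 * c.C * A) * D₀ :=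
      mul_le_mul_of_nonneg_left hDD.le (by positivity)
    have h5 : (2 + A + Q.b * A + (Q.b * A + 2 * c.C * A) * D₀) * 1 ≤
        (2 + A + Q.b * A + (Q.b * A + 2 * c.C * A) * D₀) * D ^ (7 / 10 : ℝ) :=
      mul_le_mul_of_nonneg_left hpow (by linarith)
    have h6 : Q.b * (A * D) + 2 * c.C * (A * D) = (Q.b * A + 2 * c.C * A) * D := by ring
    linarith [h2.1]

end Pool.Agent.W_1b8d5d_fe
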