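import Pool.Agent.W_1b8d5d_fe.Piece

/-!
MP_1b8d5d_pr (FE): tilting the weights of a block: many high edges ((7.1) of row 596).
-/

set_option autoImplicit false

namespace Pool.Agent.W_1b8d5d_fe

open Finset Pool.Agent.W_1b8d5d_h85

private theorem Tilt1_coord {z : V} {r : ℝ} (h : nm z ≤ r) :
    z ∈ Finset.Icc (-⌊r⌋) ⌊r⌋ ×ˢ Finset.Icc (-⌊r⌋) ⌊r⌋ := by
  unfold nm at h
  have h1 := abs_nonneg (z.1 : ℝ)
  have h2 := abs_nonneg (z.2 : ℝ)
  have h3 : |z.1| ≤ ⌊r⌋ := by
    rw [Int.le_floor]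
    push_cast
    linarith
  have h4 : |z.2| ≤ ⌊r⌋ := by
    rw [Int.le_floor]
    push_cast
    linarith
  rw [Finset.mem_product, Finset.mem_Icc, Finset.mem_Icc]
  rw [abs_le] at h3 h4
  exact ⟨h3, h4⟩

private theorem Tilt1_fib (c : Crd) (s : Finset V) (a : ℤ × ℤ) :
    (((s.filter fun z => (⌊lv c z⌋, ⌊c.q z⌋) = a).card : ℕ) : ℝ) ≤ 81 * c.C ^ 2 := by
  classical
  have hC := c.one_le
  rcases Finset.eq_empty_or_nonempty (s.filter fun z => (⌊lv c z⌋, ⌊c.q z⌋) = a) with h0 | ⟨z₀, hz₀⟩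
  · rw [h0, Finset.card_empty, Nat.cast_zero]
    positivity
  · set r : ℤ := ⌊4 * c.C⌋ with hr
    have hr0 : 0 ≤ r := by
      rw [hr, Int.floor_nonneg]
      linarith
    have hz0 := (Finset.mem_filter.1 hz₀).2
    have hsub : ∀ z ∈ s.filter (fun z => (⌊lv c z⌋, ⌊c.q z⌋) = a),
        z - z₀ ∈ Finset.Icc (-r) r ×ˢ Finset.Icc (-r) r := by
      intro z hz
      have hz1 := (Finset.mem_filter.1 hz).2
      rw [← hz0, Prod.mk.injEq] at hz1
      refine Tilt1_coord ?_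
      have h1 := nm_le_lq c (z - z₀)
      rw [lv_sub, map_sub] at h1
      have h2 := (Int.abs_sub_lt_one_of_floor_eq_floor hz1.1).le
      have h3 := (Int.abs_sub_lt_one_of_floor_eq_floor hz1.2).le
      have h4 : |lv c z - lv c z₀| + |c.q z - c.q z₀| ≤ 2 := by linarith
      have h5 := mul_le_mul_of_nonneg_left h4 (by linarith : (0 : ℝ) ≤ 2 * c.C)
      linarith
    have h1 := Finset.card_le_card_of_injOn (fun z : V => z - z₀) hsub
      (fun x _ y _ h => sub_left_injective h)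
    rw [Finset.card_product, Int.card_Icc] at h1
    have h2 : ((r + 1 - -r).toNat : ℝ) ≤ 9 * c.C := by
      have h3 : ((r + 1 - -r).toNat : ℤ) = 2 * r + 1 := by
        rw [Int.toNat_of_nonneg (by linarith)]
        ring
      have h4 : ((r + 1 - -r).toNat : ℝ) = 2 * (r : ℝ) + 1 := by exact_mod_cast h3
      rw [h4]
      have h5 : (r : ℝ) ≤ 4 * c.C := Int.floor_le _
      linarith
    have h6 : ((s.filter fun z => (⌊lv c z⌋, ⌊c.q z⌋) = a).card : ℝ) ≤
        ((r + 1 - -r).toNat : ℝ) * ((r + 1 - -r).toNat : ℝ) := by exact_mod_cast h1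
    refine h6.trans ?_
    calc ((r + 1 - -r).toNat : ℝ) * ((r + 1 - -r).toNat : ℝ) ≤ (9 * c.C) * (9 * c.C) :=
          mul_le_mul h2 h2 (Nat.cast_nonneg _) (by linarith)
      _ = 81 * c.C ^ 2 := by ring

private theorem Tilt1_Icc {x y : ℝ} (h : x ≤ y) : ((Finset.Icc ⌊x⌋ ⌊y⌋).card : ℝ) ≤ y - x + 2 := by
  have h0 : ⌊x⌋ ≤ ⌊y⌋ := Int.floor_le_floor h
  rw [Int.card_Icc]
  have h1 : ((⌊y⌋ + 1 - ⌊x⌋).toNat : ℤ) = ⌊y⌋ + 1 - ⌊x⌋ := Int.toNat_of_nonneg (by linarith)
  have h2 : ((⌊y⌋ + 1 - ⌊x⌋).toNat : ℝ) = (⌊y⌋ : ℝ) + 1 - (⌊x⌋ : ℝ) := by exact_mod_cast h1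
  rw [h2]
  linarith [Int.floor_le y, Int.lt_floor_add_one x]

/-- The number of the edges of a block.  (Compare `card_tube` in `W_1b8d5d_c1/Grow1.lean`.) -/
theorem card_block (c : Crd) : ∃ C : ℝ, 1 ≤ C ∧ ∀ (α β w ℓ r : ℝ) (F : Finset Edge), 1 ≤ w → 1 ≤ ℓ → 0 ≤ r → r ≤ ℓ →
    (∀ d ∈ F, d ∈ Eb c α β w ℓ (α - r)) → (F.card : ℝ) ≤ C * ℓ * w := by
  classical
  have hC := c.one_le
  refine ⟨3888 * c.C ^ 3, ?_, ?_⟩
  · have : (1 : ℝ) ≤ c.C ^ 3 := one_le_pow₀ hC
    linarith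
  intro α β w ℓ r F hw hl hr hrl hF
  set B : Finset V := F.image (fun d => d.1) with hB
  have hBv : ∀ z ∈ B, α - r ≤ lv c z ∧ lv c z ≤ α + ℓ + 2 * c.C ∧ |c.q z - β| ≤ w := by
    intro z hz
    rw [hB, Finset.mem_image] at hz
    obtain ⟨d, hd, rfl⟩ := hz
    exact (Eb_vert (hF d hd)).1
  have hFB : F ⊆ B ×ˢ (Finset.univ : Finset Bool) := by
    intro d hd
    rw [Finset.mem_product]
    exact ⟨Finset.mem_image_of_mem _ hd, Finset.mem_univ _⟩
  have e5 : (F.card : ℝ) ≤ B.card * 2 := by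
    have h1 := Finset.card_le_card hFB
    rw [Finset.card_product, Finset.card_univ, Fintype.card_bool] at h1
    exact_mod_cast h1
  have him : B.image (fun z => (⌊lv c z⌋, ⌊c.q z⌋)) ⊆
      Finset.Icc ⌊α - r⌋ ⌊α + ℓ + 2 * c.C⌋ ×ˢ Finset.Icc ⌊β - w⌋ ⌊β + w⌋ := by
    intro a ha
    rw [Finset.mem_image] at ha
    obtain ⟨z, hz, rfl⟩ := ha
    obtain ⟨h1, h2, h3⟩ := hBv z hz
    rw [abs_le] at h3
    rw [Finset.mem_product, Finset.mem_Icc, Finset.mem_Icc]
    exact ⟨⟨Int.floor_le_floor h1, Int.floor_le_floor h2⟩,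
      Int.floor_le_floor (by linarith), Int.floor_le_floor (by linarith)⟩
  have hcard := Finset.card_le_card him
  rw [Finset.card_product] at hcard
  have e1 : ((Finset.Icc ⌊α - r⌋ ⌊α + ℓ + 2 * c.C⌋).card : ℝ) ≤ 6 * c.C * ℓ := by
    have h1 := Tilt1_Icc (x := α - r) (y := α + ℓ + 2 * c.C) (by linarith)
    nlinarith
  have e2 : ((Finset.Icc ⌊β - w⌋ ⌊β + w⌋).card : ℝ) ≤ 4 * w := by
    have h1 := Tilt1_Icc (x := β - w) (y := β + w) (by linarith)
    linarith
  have e3 : ((B.image (fun z => (⌊lv c z⌋, ⌊c.q z⌋))).card : ℝ) ≤ (6 * c.C * ℓ) * (4 * w) := by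
    have h1 : ((B.image (fun z => (⌊lv c z⌋, ⌊c.q z⌋))).card : ℝ) ≤
        ((Finset.Icc ⌊α - r⌋ ⌊α + ℓ + 2 * c.C⌋).card : ℝ) * ((Finset.Icc ⌊β - w⌋ ⌊β + w⌋).card : ℝ) := by
      exact_mod_cast hcard
    refine h1.trans (mul_le_mul e1 e2 (Nat.cast_nonneg _) ?_)
    positivity
  have e4 : (B.card : ℝ) ≤ 81 * c.C ^ 2 * ((6 * c.C * ℓ) * (4 * w)) := by
    have h1 : B.card = ∑ a ∈ B.image (fun z => (⌊lv c z⌋, ⌊c.q z⌋)),
        (B.filter fun z => (⌊lv c z⌋, ⌊c.q z⌋) = a).card :=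
      Finset.card_eq_sum_card_image _ _
    rw [h1, Nat.cast_sum]
    refine (Finset.sum_le_sum fun a _ => Tilt1_fib c B a).trans ?_
    rw [Finset.sum_const, nsmul_eq_mul, mul_comm]
    exact mul_le_mul_of_nonneg_left e3 (by positivity)
  calc (F.card : ℝ) ≤ B.card * 2 := e5
    _ ≤ 81 * c.C ^ 2 * ((6 * c.C * ℓ) * (4 * w)) * 2 := by linarith
    _ = 3888 * c.C ^ 3 * ℓ * w := by ring

private theorem Tilt1_edge {x y : V} (w : grid.Walk x y) {e : Sym2 V} (he : e ∈ w.edges) :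
    ∃ i < w.length, e = s(w.getVert i, w.getVert (i + 1)) := by
  induction w with
  | nil => simp at he
  | @cons u v w h p ih =>
    rw [SimpleGraph.Walk.edges_cons, List.mem_cons] at he
    rcases he with he | he
    · refine ⟨0, by simp, ?_⟩
      rw [he]
      simp
    · obtain ⟨i, hi, h1⟩ := ih he
      refine ⟨i + 1, by simpa using hi, ?_⟩
      rw [h1, SimpleGraph.Walk.getVert_cons_succ, SimpleGraph.Walk.getVert_cons_succ]

private theorem Tilt1_ke {P : V → Prop} {R : V → Prop} {x y : V} (h : grid.Adj x y) (hx : P x) (hy : P y) (hR : R x) :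
    (P (ke s(x, y)).1 ∧ P ((ke s(x, y)).1 + dir (ke s(x, y)).2)) ∧
      (R (ke s(x, y)).1 ∨ R ((ke s(x, y)).1 + dir (ke s(x, y)).2)) := by
  obtain ⟨s, h | h⟩ := h
  · subst h
    rw [ke_dir]
    exact ⟨⟨hx, hy⟩, Or.inl hR⟩
  · subst h
    rw [ke_dir']
    exact ⟨⟨hy, hx⟩, Or.inr hR⟩

/-- Powers of `s` in terms of `t = s ^ (1/5)`. -/
private theorem Tilt1_pow {s K : ℝ} (hK : 1 ≤ K) (hs : K ^ 5 ≤ s) : ∃ t : ℝ, K ≤ t ∧ s = t ^ 5 ∧
    s ^ (4 / 5 : ℝ) = t ^ 4 ∧ s ^ (3 / 5 : ℝ) = t ^ 3 ∧ t ^ 4 ≤ s ^ (9 / 10 : ℝ) := by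
  have hK0 : (0 : ℝ) ≤ K := by linarith
  have hs1 : 1 ≤ s := (one_le_pow₀ hK).trans hs
  have hs0 : (0 : ℝ) ≤ s := by linarith
  refine ⟨s ^ (1 / 5 : ℝ), ?_, ?_, ?_, ?_, ?_⟩
  · calc K = (K ^ 5) ^ (1 / 5 : ℝ) := by
          rw [← Real.rpow_natCast, ← Real.rpow_mul hK0]
          norm_num
      _ ≤ s ^ (1 / 5 : ℝ) := Real.rpow_le_rpow (by positivity) hs (by norm_num)
  · rw [← Real.rpow_natCast, ← Real.rpow_mul hs0]
    norm_num
  · rw [← Real.rpow_natCast, ← Real.rpow_mul hs0]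
    norm_num
  · rw [← Real.rpow_natCast, ← Real.rpow_mul hs0]
    norm_num
  · rw [← Real.rpow_natCast, ← Real.rpow_mul hs0]
    exact Real.rpow_le_rpow_of_exponent_le hs1 (by norm_num)

/-- Many high edges of a crossing geodesic are in the block.  PROOF. `ρ = res b (Eb ..) τ`, `u` a geodesic of `ρ` from `x` to `y` (`hu`), `T ρ x y ≤ lv (y - x) + e`; all passage times for `ρ` are at least those for
`τ` (`T_le_res`) and `Ov` bounds these from below by `lv - (A s) ^ (3/5)`.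
(1) Let `z` be the last vertex of `u` with `lv z < lv x` (if any): `T ρ x z ≤ lv (y - x) + e - T ρ z y ≤ lv (z - x) + e + (A s) ^ (3/5) ≤ 2 s ^ (4/5)`, so at most `2 s ^ (4/5) / a + 1` edges before `z` (and the next one).
(2) Let `z` be the first vertex with `lv z ≥ α + ℓ`: at most `2 s ^ (4/5) / a` edges after `z`.  (3) No vertex has `|q z - β| > 10 r` (`Conf` and `Ov`, as in `piece_same`).  All other edges are in the block.
The length of `u` is `≥ nm (y - x) ≥ ℓ / (3 C)`, at least half of its edges are high (`hhigh`; a path, `wedges_nodup`; high for `τ`). -/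
theorem high_edges {Q : Par} {g : V → ℝ} (hg : IsMean Q g) (c : Crd) (hl : ∀ z, lv c z ≤ g z) :
    ∃ A s₀ c₆ : ℝ, 1 ≤ A ∧ 1 ≤ s₀ ∧ 0 < c₆ ∧ ∀ (s r ℓ L α β e : ℝ) (τ : Env) (x y : V) (u : grid.Walk x y), s₀ ≤ s →
      s ^ (9 / 10 : ℝ) ≤ r → 10 * r ≤ ℓ → s / 2 ≤ ℓ → ℓ ≤ s → Bd Q.a Q.b τ → Ov g L s τ → Conf g c r ℓ A s →
      Win c r r ℓ α β x y → nm x + A * s ≤ L → e ≤ s ^ (4 / 5 : ℝ) / 4 → Kc Q.b c (10 * r) ℓ α β e x y τ →
      IsGeo (res Q.b (Eb c α β (10 * r) ℓ (lv c x)) τ) u → (u.length : ℝ) / 2 ≤ nHigh Q.su τ u →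
      ∃ F : Finset Edge, (∀ d ∈ F, d ∈ wedges u ∧ d ∈ Eb c α β (10 * r) ℓ (lv c x) ∧ Q.su ≤ τ d) ∧ c₆ * s ≤ F.card := by
  classical
  have hC := c.one_le
  have ha := Q.ha
  have hab := Q.hab.le
  set A : ℝ := 4 / Q.a + 1 with hA
  set K : ℝ := 256 * c.C / Q.a + 128 * c.C + 8 * A + 8 with hK
  have hA1 : 1 ≤ A := by
    have : 0 < 4 / Q.a := by positivity
    linarith
  have hK1 : 1 ≤ K := by
    have : 0 < 256 * c.C / Q.a := by positivity
    linarith
  refine ⟨A, K ^ 5, 1 / (32 * c.C), hA1, one_le_pow₀ hK1, by positivity, ?_⟩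
  intro s r ℓ L α β e τ x y u hs hr hrl hl1 hl2 hτ hOv hConf hWin hL he hKc hu hhigh
  obtain ⟨t, hKt, hst, hs4, hs3, hs9⟩ := Tilt1_pow hK1 hs
  obtain ⟨⟨hx1, hx2, hx3⟩, hy1, hy2, hy3⟩ := hWin
  rw [hs4] at he
  -- numerical facts
  have ht1 : 1 ≤ t := hK1.trans hKt
  have ht0 : 0 < t := by linarith
  have hAt : 8 * A ≤ t := by
    have : 0 < 256 * c.C / Q.a := by positivity
    linarith
  have hCt : 128 * c.C ≤ t := by
    have : 0 < 256 * c.C / Q.a := by positivity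
    linarith
  have hCat : 256 * c.C / Q.a ≤ t := by linarith
  have hp3 : 1 ≤ t ^ 3 := one_le_pow₀ ht1
  have hp4 : t ≤ t ^ 4 := by
    calc t = t * 1 := (mul_one t).symm
      _ ≤ t * t ^ 3 := mul_le_mul_of_nonneg_left hp3 ht0.le
      _ = t ^ 4 := by ring
  have hA3 : A * t ^ 3 ≤ t ^ 4 / 8 := by
    have h1 : 8 * A * t ^ 3 ≤ t * t ^ 3 := mul_le_mul_of_nonneg_right hAt (by linarith)
    have h2 : t * t ^ 3 = t ^ 4 := by ring
    linarith
  have hp5 : 8 * t ^ 4 ≤ s := by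
    rw [hst]
    have h1 : 8 * t ^ 4 ≤ t * t ^ 4 := mul_le_mul_of_nonneg_right (by linarith) (by linarith)
    have h2 : t * t ^ 4 = t ^ 5 := by ring
    linarith
  have hr4 : t ^ 4 ≤ r := hs9.trans hr
  have hs0 : 0 < s := by linarith
  have hs1 : 1 ≤ s := by linarith
  set ρ : Env := res Q.b (Eb c α β (10 * r) ℓ (lv c x)) τ with hρ
  have hρB : Bd Q.a Q.b ρ := Bd_res hab hτ _
  have hT : T ρ x y ≤ lv c (y - x) + e := hKc
  have hlvyx : lv c (y - x) = lv c y - lv c x := lv_sub c y x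
  have hT2 : T ρ x y ≤ 2 * s := by
    rw [hlvyx] at hT
    linarith
  -- upper bound of the partial passage times
  have hTa : ∀ i, T ρ x (u.getVert i) ≤ 2 * s := by
    intro i
    have h1 := geo_add hρB ha.le hu i
    have h2 := T_nonneg hρB ha.le (u.getVert i) y
    linarith
  have hTb : ∀ i, T ρ (u.getVert i) y ≤ 2 * s := by
    intro i
    have h1 := geo_add hρB ha.le hu i
    have h2 := T_nonneg hρB ha.le x (u.getVert i)
    linarith
  have hAs : 2 * (2 * s / Q.a) ≤ A * s := by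
    rw [hA, add_mul, one_mul]
    have h1 : 2 * (2 * s / Q.a) = 4 / Q.a * s := by ring
    linarith
  have h2sa : 0 ≤ 2 * s / Q.a := by positivity
  have hna : ∀ i, nm (u.getVert i - x) ≤ 2 * s / Q.a := by
    intro i
    rw [le_div_iff₀ ha]
    have h1 := T_lower hρB ha.le x (u.getVert i)
    linarith [hTa i]
  have hnb : ∀ i, nm (y - u.getVert i) ≤ 2 * s / Q.a := by
    intro i
    rw [le_div_iff₀ ha]
    have h1 := T_lower hρB ha.le (u.getVert i) y
    linarith [hTb i]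
  have hnL : ∀ i, nm (u.getVert i) ≤ L := by
    intro i
    have h1 := nm_add_le x (u.getVert i - x)
    rw [add_sub_cancel] at h1
    linarith [hna i]
  have hxL : nm x ≤ L := by linarith
  have hyL : nm y ≤ L := by
    have h1 := hnL u.length
    rwa [u.getVert_length] at h1
  -- lower bound from Ov
  have hlow : ∀ x' y' : V, nm x' ≤ L → nm y' ≤ L → nm (y' - x') ≤ 2 * s / Q.a →
      g (y' - x') - A * t ^ 3 ≤ T ρ x' y' := by
    intro x' y' g1 g2 g3
    have h1 := abs_le.1 (hOv x' y' g1 g2)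
    have h2 : max s (nm (y' - x')) ^ (3 / 5 : ℝ) ≤ A * t ^ 3 := by
      have h3 : max s (nm (y' - x')) ≤ A * s := by
        refine max_le ?_ ?_
        · have := mul_le_mul_of_nonneg_right hA1 hs0.le
          linarith
        · linarith
      have h4 : A ^ (3 / 5 : ℝ) ≤ A := by
        calc A ^ (3 / 5 : ℝ) ≤ A ^ (1 : ℝ) := Real.rpow_le_rpow_of_exponent_le hA1 (by norm_num)
          _ = A := Real.rpow_one A
      calc max s (nm (y' - x')) ^ (3 / 5 : ℝ) ≤ (A * s) ^ (3 / 5 : ℝ) :=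
            Real.rpow_le_rpow (hs0.le.trans (le_max_left _ _)) h3 (by norm_num)
        _ = A ^ (3 / 5 : ℝ) * s ^ (3 / 5 : ℝ) := Real.mul_rpow (by linarith) hs0.le
        _ = A ^ (3 / 5 : ℝ) * t ^ 3 := by rw [hs3]
        _ ≤ A * t ^ 3 := mul_le_mul_of_nonneg_right h4 (by linarith)
    have h5 := T_le_res ha.le hτ (Eb c α β (10 * r) ℓ (lv c x)) x' y'
    rw [← hρ] at h5
    linarith [h1.1]
  -- lower bound of the length of the pieces
  have hla : ∀ i ≤ u.length, Q.a * (i : ℝ) ≤ T ρ x (u.getVert i) := by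
    intro i hi
    obtain ⟨w', hw', hl', -, -⟩ := geo_piece hρB ha.le hu (Nat.zero_le i) hi
    have h2 := le_cost hρB w'
    rw [hw'.2, hl', Nat.sub_zero, u.getVert_zero] at h2
    exact h2
  have hlb : ∀ i ≤ u.length, Q.a * ((u.length - i : ℕ) : ℝ) ≤ T ρ (u.getVert i) y := by
    intro i hi
    obtain ⟨w', hw', hl', -, -⟩ := geo_piece hρB ha.le hu hi le_rfl
    have h2 := le_cost hρB w'
    rw [hw'.2, hl', u.getVert_length] at h2
    exact h2
  set I : ℝ := 2 * t ^ 4 / Q.a with hI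
  have hI0 : 0 ≤ I := by positivity
  have h2C : 2 * c.C ≤ t ^ 4 := by linarith
  -- (1)
  have hone : ∀ i ≤ u.length, lv c (u.getVert i) < lv c x → (i : ℝ) ≤ I := by
    intro i hi hz
    rw [hI, le_div_iff₀ ha]
    have h1 := hla i hi
    have h2 := geo_add hρB ha.le hu i
    have h3 := hlow (u.getVert i) y (hnL i) hyL (hnb i)
    have h4 := hl (y - u.getVert i)
    rw [lv_sub] at h4
    rw [hlvyx] at hT
    have h5 : 0 ≤ t ^ 4 := by linarith
    linarith
  -- (2)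
  have htwo : ∀ i ≤ u.length, α + ℓ ≤ lv c (u.getVert i) → ((u.length - i : ℕ) : ℝ) ≤ I := by
    intro i hi hz
    rw [hI, le_div_iff₀ ha]
    have h1 := hlb i hi
    have h2 := geo_add hρB ha.le hu i
    have h3 := hlow x (u.getVert i) hxL (hnL i) (hna i)
    have h4 := hl (u.getVert i - x)
    rw [lv_sub] at h4
    rw [hlvyx] at hT
    linarith
  -- (3)
  have hthree : ∀ i, |c.q (u.getVert i) - β| ≤ 10 * r := by
    intro i
    by_contra hcon
    push Not at hcon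
    set z := u.getVert i with hz
    have e0 : z - x + (y - z) = y - x := by abel
    have h1 : |c.q (y - x)| ≤ 3 * r := by
      rw [map_sub]
      have : c.q y - c.q x = (c.q y - β) - (c.q x - β) := by ring
      rw [this]
      exact (abs_sub _ _).trans (by linarith)
    have h2 : 8 * r < |c.q (z - x)| := by
      rw [map_sub]
      have : c.q z - β = (c.q z - c.q x) + (c.q x - β) := by ring
      rw [this] at hcon
      have := abs_add_le (c.q z - c.q x) (c.q x - β)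
      linarith
    have h3 := hConf (z - x) (y - z) (by rw [e0]; exact h1) (by rw [e0, hlvyx]; linarith)
      (by rw [e0, hlvyx]; linarith) h2 (by linarith [hna i])
    rw [e0, hs4] at h3
    have h4 := geo_add hρB ha.le hu i
    have h5 := hlow x z hxL (hnL i) (hna i)
    have h6 := hlow z y (hnL i) hyL (hnb i)
    linarith
  -- good edges
  have hgood : ∀ i : ℕ, i < u.length → I < i → I < ((u.length - i : ℕ) : ℝ) →
      ke s(u.getVert i, u.getVert (i + 1)) ∈ Eb c α β (10 * r) ℓ (lv c x) := by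
    intro i hi h1 h2
    have g1 : lv c x ≤ lv c (u.getVert i) := by
      by_contra hcon
      exact absurd (hone i hi.le (not_le.1 hcon)) (not_le.2 h1)
    have g2 : lv c x ≤ lv c (u.getVert (i + 1)) := by
      by_contra hcon
      have g3 := hone (i + 1) hi (not_le.1 hcon)
      push_cast at g3
      linarith
    have g3 : lv c (u.getVert i) < α + ℓ := by
      by_contra hcon
      exact absurd (htwo i hi.le (not_lt.1 hcon)) (not_le.2 h2)
    have g4 := Tilt1_ke (P := fun z => |c.q z - β| ≤ 10 * r ∧ lv c x ≤ lv c z) (R := fun z => lv c z < α + ℓ)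
      (u.adj_getVert_succ hi) ⟨hthree i, g1⟩ ⟨hthree (i + 1), g2⟩ g3
    exact g4
  -- counting
  have hpath := hu.1
  have hnd := wedges_nodup hpath
  have hHigh : nHigh Q.su τ u = ((wedges u).toFinset.filter fun d => Q.su ≤ τ d).card := by
    unfold nHigh
    rw [← List.toFinset_card_of_nodup (hnd.filter _)]
    congr 1
    ext d
    simp [List.mem_filter]
  set I' : ℕ := ⌊I⌋₊ with hI'
  have hI'1 : (I' : ℝ) ≤ I := Nat.floor_le hI0
  have hI'2 : ∀ i : ℕ, I' < i → I < i := fun i hi => (Nat.floor_lt hI0).1 hi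
  have hbad : ((wedges u).toFinset.filter fun d => d ∉ Eb c α β (10 * r) ℓ (lv c x)).card ≤
      (I' + 1) + I' := by
    have hsub : ((wedges u).toFinset.filter fun d => d ∉ Eb c α β (10 * r) ℓ (lv c x)) ⊆
        (Finset.range (I' + 1) ∪ Finset.Ico (u.length - I') u.length).image
          (fun i => ke s(u.getVert i, u.getVert (i + 1))) := by
      intro d hd
      rw [Finset.mem_filter, List.mem_toFinset] at hd
      obtain ⟨he1, he2⟩ := hd
      unfold wedges at he1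
      obtain ⟨e', he', rfl⟩ := List.mem_map.1 he1
      obtain ⟨i, hi, rfl⟩ := Tilt1_edge u he'
      rw [Finset.mem_image]
      refine ⟨i, ?_, rfl⟩
      rw [Finset.mem_union, Finset.mem_range, Finset.mem_Ico]
      by_contra hcon
      push Not at hcon
      obtain ⟨g1, g2⟩ := hcon
      have g3 : i < u.length - I' := by
        by_contra g4
        have g5 := g2 (by omega)
        omega
      exact he2 (hgood i hi (hI'2 i (by omega)) (hI'2 _ (by omega)))
    refine (Finset.card_le_card hsub).trans (Finset.card_image_le.trans ?_)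
    refine (Finset.card_union_le _ _).trans ?_
    rw [Finset.card_range, Nat.card_Ico]
    omega
  have hsplit : ((wedges u).toFinset.filter fun d => Q.su ≤ τ d).card ≤
      ((wedges u).toFinset.filter fun d => Q.su ≤ τ d ∧ d ∈ Eb c α β (10 * r) ℓ (lv c x)).card +
      ((wedges u).toFinset.filter fun d => d ∉ Eb c α β (10 * r) ℓ (lv c x)).card := by
    refine le_trans (Finset.card_le_card ?_) (Finset.card_union_le _ _)
    intro d hd
    rw [Finset.mem_filter] at hd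
    rw [Finset.mem_union, Finset.mem_filter, Finset.mem_filter]
    by_cases h1 : d ∈ Eb c α β (10 * r) ℓ (lv c x)
    · exact Or.inl ⟨hd.1, hd.2, h1⟩
    · exact Or.inr ⟨hd.1, h1⟩
  refine ⟨(wedges u).toFinset.filter fun d => Q.su ≤ τ d ∧ d ∈ Eb c α β (10 * r) ℓ (lv c x), ?_, ?_⟩
  · intro d hd
    rw [Finset.mem_filter, List.mem_toFinset] at hd
    exact ⟨hd.1, hd.2.2, hd.2.1⟩
  · rw [hHigh] at hhigh
    set X := ((wedges u).toFinset.filter fun d => Q.su ≤ τ d ∧ d ∈ Eb c α β (10 * r) ℓ (lv c x)).card with hX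
    set Y := ((wedges u).toFinset.filter fun d => d ∉ Eb c α β (10 * r) ℓ (lv c x)).card with hY
    set Z := ((wedges u).toFinset.filter fun d => Q.su ≤ τ d).card with hZ
    have f1 : (Z : ℝ) ≤ X + Y := by exact_mod_cast hsplit
    have f2 : (Y : ℝ) ≤ ((I' : ℝ) + 1) + I' := by exact_mod_cast hbad
    have f3 : s / (4 * c.C) - 1 ≤ u.length := by
      have g1 := nm_le_length u
      have g2 := (le_abs_self _).trans (lv_le_nm c (y - x))
      rw [hlvyx] at g2
      have g3 : s / 2 - 2 * c.C ≤ 2 * c.C * u.length := by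
        have g4 := mul_le_mul_of_nonneg_left g1 (by linarith : (0 : ℝ) ≤ 2 * c.C)
        linarith
      have g5 : s / (4 * c.C) - 1 = (s / 2 - 2 * c.C) / (2 * c.C) := by
        field_simp
        ring
      rw [g5, div_le_iff₀ (by linarith)]
      linarith
    have f4 : 2 * I ≤ s / (64 * c.C) := by
      rw [hI, le_div_iff₀ (by positivity)]
      have g1 : 2 * (2 * t ^ 4 / Q.a) * (64 * c.C) = 256 * c.C / Q.a * t ^ 4 := by ring
      rw [g1, hst]
      have g2 : t ^ 5 = t * t ^ 4 := by ring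
      rw [g2]
      exact mul_le_mul_of_nonneg_right hCat (by linarith)
    have f5 : 2 ≤ s / (64 * c.C) := by
      rw [le_div_iff₀ (by positivity)]
      linarith
    have f6 : s / (4 * c.C) = 16 * (s / (64 * c.C)) := by
      field_simp
      ring
    have f7 : 1 / (32 * c.C) * s = 2 * (s / (64 * c.C)) := by
      field_simp
      ring
    rw [f7]
    rw [f6] at f3
    linarith

end Pool.Agent.W_1b8d5d_fe
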