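import Pool.Agent.W_1b8d5d_fe.Defs
import Pool.Agent.W_1b8d5d_nc.FinalC1
import Pool.Agent.W_1b8d5d_h85.FFinal

/-!
MP_1b8d5d_pr (FE): from the time constant to the mean passage times; the final theorem from the core.
-/

set_option autoImplicit false

open MeasureTheory ProbabilityTheory Filter Topology

namespace Pool.Agent.W_1b8d5d_fe

open Pool.Agent.W_1b8d5d_h85

/-- Convexity on a ray: if `μ v ≤ 1` and `1 + s < μ (v + t' e)` with `0 < t' ≤ u` then `1 + (u / t') s < μ (v + u e)`. -/
private theorem Trans1_ray {μ : ℝ × ℝ → ℝ} (hn : Pool.Agent.W_1b8d5d_nc.NormLike μ) {v e : ℝ × ℝ}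
    (hv : μ v = 1) {t s u : ℝ} (ht : 0 < t) (htu : t ≤ u) (h : 1 + s < μ (v + t • e)) :
    1 + u / t * s < μ (v + u • e) := by
  have hu : 0 < u := ht.trans_le htu
  have e1 : v + t • e = (1 - t / u) • v + (t / u) • (v + u • e) := by
    rw [smul_add, smul_smul, div_mul_cancel₀ _ hu.ne', sub_smul, one_smul]
    abel
  have h1 : 0 ≤ 1 - t / u := by
    have := (div_le_one hu).2 htu
    linarith
  have h2 := hn.add ((1 - t / u) • v) ((t / u) • (v + u • e))
  rw [← e1, hn.hom _ _ h1, hn.hom _ _ (div_nonneg ht.le hu.le), hv] at h2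
  have h3 : s + t / u < t / u * μ (v + u • e) := by linarith
  have h4 : u / t * (s + t / u) < u / t * (t / u * μ (v + u • e)) :=
    mul_lt_mul_of_pos_left h3 (div_pos hu ht)
  have e2 : u / t * (t / u * μ (v + u • e)) = μ (v + u • e) := by
    field_simp
  have e3 : u / t * (s + t / u) = 1 + u / t * s := by
    field_simp
    ring
  rw [e2, e3] at h4
  exact h4

/-- The data of a flat piece with the end point `v` at which the contact is only polynomial.  PROOF. `μ` is a norm (`Pool.Agent.W_1b8d5d_nc.normLike`: homogeneous, subadditive, symmetric, positive), `dp f ≤ μ`.  As `hK` holds, `μ (v + t (v - w)) > 1` for all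
`t > 0` (otherwise `= 1` on an interval by convexity, `dp f = 1` there).  Let `v₂ = v + λ (w - v)`, `λ ≥ 1` maximal with `μ v₂ = 1` (closed bounded set of `λ`); `dt v v₂ ≠ 0` because `dp f v = dp f v₂ = 1`, `v ≠ v₂`.  The coordinates `c` of the basis
`v, v₂`: `exists_crd`; `toR x = p x • v + q x • v₂` (`cramer`), so `lv c x = dp f (toR x)`.
`low`: `dp f ≤ μ ≤ g` (`mu_le`).  `upp`: `Pool.Agent.W_1b8d5d_nc.g_le_mu` and `μ (p v + q v₂) ≤ p + q` for `p, q ≥ 0`.  `bar`: on the compact set of the `x` in the plane with `rn x = 1` and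
`max (-p) (-q) ≥ ε` the continuous function `μ - dp f` is positive: if `μ x = dp f x =: h` (`> 0`) then `x / h` is a point of the line `dp f = 1` with `μ = 1`, and it is `v + u (v₂ - v)` with `u < 0` or `u > 1`: excluded by
the choice of `v`, `v₂` (convexity on the line).  Then homogeneity and `mu_le`.
`PC`: for `t' > 0` small with `μ (v + t' (v - w)) > 1 + t' ^ K` put `t = t' / λ ≤ t'`; `φ u = μ (v + u (v - v₂))` is convex, `φ 0 = 1`, `φ t > 1 + t' ^ K ≥ 1 + t ^ K`, so `φ u ≥ 1 + (u / t) t ^ K ≥ 1 + u t ^ K` for `u ≥ t`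
(`t ≤ 1`); for `z` with `h = lv z > 0`, `- q z ≥ t h` apply this to `u = - q z / h`: `μ (toR z) = h φ u ≥ h + t ^ K (- q z)`; for `lv z = 0` take the limit (`μ` continuous; `toR z + ε v`). -/
theorem exists_flat {Q : Par} {g : V → ℝ} {μ : ℝ × ℝ → ℝ} (hg : IsMean Q g) (hc : Continuous μ)
    (hom : ∀ (c : ℝ) (x : ℝ × ℝ), 0 ≤ c → μ (c • x) = c * μ x)
    (hlim : ∀ x : V, Tendsto (fun n : ℕ => g (n • x) / n) atTop (𝓝 (μ (toR x)))) {f v w : ℝ × ℝ} (hf : ∀ x, dp f x ≤ μ x)
    (hvw : v ≠ w) (hv : μ v = 1) (hv' : dp f v = 1) (hw : μ w = 1) (hw' : dp f w = 1) {K : ℕ}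
    (hK : ¬ ∀ᶠ t : ℝ in 𝓝[>] 0, μ (v + t • (v - w)) ≤ 1 + t ^ K) : ∃ c : Crd, FlatS g c ∧ PC g c K := by
  have hn := Pool.Agent.W_1b8d5d_nc.normLike hg hc hom hlim
  -- arbitrarily small bad `t`
  have hbad : ∀ δ : ℝ, 0 < δ → ∃ t : ℝ, 0 < t ∧ t ≤ δ ∧ 1 + t ^ K < μ (v + t • (v - w)) := by
    intro δ hδ
    by_contra hcon
    push Not at hcon
    apply hK
    have h1 : Set.Ioc (0 : ℝ) δ ∈ 𝓝[>] (0 : ℝ) := Ioc_mem_nhdsGT hδ
    filter_upwards [h1] with t ht
    exact hcon t ht.1 ht.2
  -- claim A
  have hA : ∀ t : ℝ, 0 < t → 1 < μ (v + t • (v - w)) := by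
    intro t ht
    obtain ⟨s, hs, hst, h1⟩ := hbad t ht
    have h2 := Trans1_ray hn hv hs hst h1
    have h3 : 0 < t / s * s ^ K := by positivity
    linarith
  -- the line
  have hline : ∀ s : ℝ, dp f (v + s • (w - v)) = 1 := by
    intro s
    have e : v + s • (w - v) = (1 - s) • v + s • w := by
      rw [smul_sub, sub_smul, one_smul]
      abel
    rw [e, dp_add, dp_smul, dp_smul, hv', hw']
    ring
  have hwv : w - v ≠ 0 := sub_ne_zero.2 hvw.symm
  have hwv0 : 0 < μ (w - v) := hn.pos _ hwv
  -- the maximal `lam`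
  set Λ : Set ℝ := {s | 1 ≤ s ∧ μ (v + s • (w - v)) = 1} with hΛ
  have hΛc : IsCompact Λ := by
    have hcl : IsClosed Λ := by
      refine IsClosed.inter isClosed_Ici ?_
      exact isClosed_eq (hc.comp (by fun_prop)) continuous_const
    refine IsCompact.of_isClosed_subset (isCompact_Icc (a := 1) (b := 2 / μ (w - v))) hcl ?_
    rintro s ⟨h1, h2⟩
    refine ⟨h1, ?_⟩
    rw [le_div_iff₀ hwv0]
    have h3 := hn.add (v + s • (w - v)) (-v)
    rw [hn.neg, h2, hv] at h3
    have e : v + s • (w - v) + -v = s • (w - v) := by abel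
    rw [e, hom _ _ (by linarith)] at h3
    linarith
  have hΛn : Λ.Nonempty := ⟨1, le_rfl, by rw [one_smul, add_sub_cancel, hw]⟩
  obtain ⟨lam, ⟨hlam1, hlamμ⟩, hlamg⟩ := hΛc.exists_isGreatest hΛn
  have hlam0 : 0 < lam := by linarith
  set v₂ : ℝ × ℝ := v + lam • (w - v) with hv₂
  have hv₂' : dp f v₂ = 1 := hline lam
  have hv₂μ : μ v₂ = 1 := hlamμ
  have hsub : v₂ - v = lam • (w - v) := by rw [hv₂]; abel
  have hsub' : v - v₂ = lam • (v - w) := by rw [hv₂, smul_sub, smul_sub]; abel
  -- claim B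
  have hB : ∀ u : ℝ, 1 < u → 1 < μ (v + u • (v₂ - v)) := by
    intro u hu
    have e : v + u • (v₂ - v) = v + (u * lam) • (w - v) := by
      rw [hsub, smul_smul]
    rw [e]
    have h1 := hf (v + (u * lam) • (w - v))
    rw [hline] at h1
    refine lt_of_le_of_ne h1 fun h2 => ?_
    have h3 : lam < u * lam := by nlinarith
    have h4 : u * lam ∈ Λ := ⟨by linarith, h2.symm⟩
    have h5 := hlamg h4
    linarith
  -- claim A in the coordinates `v, v₂`
  have hA' : ∀ u : ℝ, 0 < u → 1 < μ (v + u • (v - v₂)) := by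
    intro u hu
    rw [hsub', smul_smul]
    exact hA _ (by positivity)
  -- independence
  have hdt : dt v v₂ ≠ 0 := by
    intro h0
    have h1 : dt v v₂ • f = 0 := by rw [h0, zero_smul]
    -- `f` evaluated: `v.1 v₂.2 = v.2 v₂.1`
    unfold dt at h0
    unfold dp at hv' hv₂'
    have h2 : v₂.1 = v.1 := by
      have : v₂.1 * (f.1 * v.1 + f.2 * v.2) = v.1 * (f.1 * v₂.1 + f.2 * v₂.2) := by
        linear_combination (-f.2) * h0
      rw [hv', hv₂', mul_one, mul_one] at this
      exact this
    have h3 : v₂.2 = v.2 := by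
      have : v₂.2 * (f.1 * v.1 + f.2 * v.2) = v.2 * (f.1 * v₂.1 + f.2 * v₂.2) := by
        linear_combination f.1 * h0
      rw [hv', hv₂', mul_one, mul_one] at this
      exact this
    have h4 : v₂ = v := Prod.ext h2 h3
    have h5 : lam • (w - v) = 0 := by rw [← hsub, h4, sub_self]
    rcases smul_eq_zero.1 h5 with h6 | h6
    · linarith
    · exact hwv h6
  obtain ⟨c, hp, hq⟩ := exists_crd hdt
  have hdec : ∀ z : V, toR z = c.p z • v + c.q z • v₂ := by
    intro z
    rw [hp, hq]
    exact cramer hdt (toR z)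
  have hlv : ∀ z : V, lv c z = dp f (toR z) := by
    intro z
    rw [hdec z, dp_add, dp_smul, dp_smul, hv', hv₂']
    unfold lv
    ring
  have hmu : ∀ z : V, μ (toR z) ≤ g z := fun z => mu_le hg hlim z
  refine ⟨c, ⟨fun z => ?_, fun ε hε => ?_, fun η hη => ?_⟩, fun δ hδ => ?_⟩
  · rw [hlv]
    exact (hf _).trans (hmu z)
  · -- `bar`
    set S : Set (ℝ × ℝ) := {x | rn x = 1 ∧ ε ≤ max (-(dt x v₂ / dt v v₂)) (-(dt v x / dt v v₂))} with hS
    have hdc1 : Continuous fun x : ℝ × ℝ => dt x v₂ := by
      unfold dt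
      fun_prop
    have hdc2 : Continuous fun x : ℝ × ℝ => dt v x := by
      unfold dt
      fun_prop
    have hdpc : Continuous fun x : ℝ × ℝ => dp f x := by
      unfold dp
      fun_prop
    have hScl : IsClosed S := by
      refine IsClosed.inter (isClosed_eq continuous_rn continuous_const) ?_
      exact isClosed_le continuous_const
        ((hdc1.div_const _).neg.max (hdc2.div_const _).neg)
    have hSb : S ⊆ Metric.closedBall (0 : ℝ × ℝ) 1 := by
      rintro x ⟨hx, -⟩
      rw [Metric.mem_closedBall, dist_zero_right, Prod.norm_def, Real.norm_eq_abs, Real.norm_eq_abs]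
      unfold rn at hx
      exact max_le (by linarith [abs_nonneg x.2]) (by linarith [abs_nonneg x.1])
    have hSc : IsCompact S := (isCompact_closedBall _ _).of_isClosed_subset hScl hSb
    have hpos : ∀ x ∈ S, 0 < μ x - dp f x := by
      rintro x ⟨hx1, hx2⟩
      have h1 := hf x
      rcases h1.lt_or_eq with h2 | h2
      · linarith
      · exfalso
        have hx0 : x ≠ 0 := by
          rintro rfl
          rw [rn_eq_zero.2 rfl] at hx1
          exact zero_ne_one hx1
        have hμ0 : 0 < μ x := hn.pos x hx0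
        set P : ℝ := dt x v₂ / dt v v₂ with hP
        set R : ℝ := dt v x / dt v v₂ with hR
        have hxd : x = P • v + R • v₂ := cramer hdt x
        have hh : dp f x = P + R := by
          conv_lhs => rw [hxd]
          rw [dp_add, dp_smul, dp_smul, hv', hv₂']
          ring
        have hh0 : 0 < P + R := by rw [← hh, h2]; exact hμ0
        have hy : μ ((P + R)⁻¹ • x) = 1 := by
          rw [hom _ _ (inv_nonneg.2 hh0.le), ← h2, hh, inv_mul_cancel₀ hh0.ne']
        rcases le_max_iff.1 hx2 with h3 | h3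
        · -- `P < 0`
          have hu : 1 < R / (P + R) := by
            rw [lt_div_iff₀ hh0]
            linarith
          have h4 := hB _ hu
          have e : v + (R / (P + R)) • (v₂ - v) = (P + R)⁻¹ • x := by
            rw [hxd, smul_add, smul_smul, smul_smul, smul_sub]
            have e1 : (P + R)⁻¹ * P = 1 - R / (P + R) := by
              field_simp
              ring
            have e2 : (P + R)⁻¹ * R = R / (P + R) := by
              field_simp
            rw [e1, e2, sub_smul, one_smul]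
            abel
          rw [e, hy] at h4
          exact lt_irrefl _ h4
        · -- `R < 0`
          have hu : 0 < -R / (P + R) := div_pos (by linarith) hh0
          have h4 := hA' _ hu
          have e : v + (-R / (P + R)) • (v - v₂) = (P + R)⁻¹ • x := by
            rw [hxd, smul_add, smul_smul, smul_smul, smul_sub]
            have e1 : (P + R)⁻¹ * P = 1 + -R / (P + R) := by
              field_simp
              ring
            have e2 : (P + R)⁻¹ * R = -(-R / (P + R)) := by
              field_simp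
            rw [e1, e2, add_smul, one_smul, neg_smul]
            abel
          rw [e, hy] at h4
          exact lt_irrefl _ h4
    obtain ⟨c₀, hc₀, hmin⟩ := hSc.exists_forall_le' (hc.sub hdpc).continuousOn hpos
    refine ⟨c₀, hc₀, fun z hz => ?_⟩
    rcases (nm_nonneg z).lt_or_eq with h0 | h0
    · set m : ℝ := nm z with hm
      have hx : (m⁻¹ • toR z) ∈ S := by
        refine ⟨?_, ?_⟩
        · rw [rn_smul, abs_of_pos (inv_pos.2 h0), ← nm_eq_rn, ← hm, inv_mul_cancel₀ h0.ne']
        · have e1 : dt (m⁻¹ • toR z) v₂ / dt v v₂ = m⁻¹ * c.p z := by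
            rw [hp]
            simp only [dt, Prod.smul_fst, Prod.smul_snd, smul_eq_mul]
            ring
          have e2 : dt v (m⁻¹ • toR z) / dt v v₂ = m⁻¹ * c.q z := by
            rw [hq, dt_smul]
            ring
          rw [e1, e2]
          have h1 : m⁻¹ * (ε * m) ≤ m⁻¹ * max (-c.p z) (-c.q z) :=
            mul_le_mul_of_nonneg_left hz (inv_nonneg.2 h0.le)
          rw [mul_max_of_nonneg _ _ (inv_nonneg.2 h0.le)] at h1
          have e3 : m⁻¹ * (ε * m) = ε := by field_simp
          rw [e3, mul_neg, mul_neg] at h1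
          exact h1
      have h1 := hmin _ hx
      have h2 : m * c₀ ≤ m * (μ (m⁻¹ • toR z) - dp f (m⁻¹ • toR z)) :=
        mul_le_mul_of_nonneg_left h1 h0.le
      rw [hom _ _ (inv_nonneg.2 h0.le), dp_smul, ← mul_sub, mul_inv_cancel_left₀ h0.ne'] at h2
      rw [hlv]
      have h3 := hmu z
      linarith
    · have h1 : z = 0 := by
        have h2 : toR z = 0 := rn_eq_zero.1 (by rw [← nm_eq_rn, ← h0])
        have h3 : (z.1 : ℝ) = 0 := congrArg Prod.fst h2
        have h4 : (z.2 : ℝ) = 0 := congrArg Prod.snd h2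
        exact Prod.ext (by exact_mod_cast h3) (by exact_mod_cast h4)
      rw [← h0, mul_zero, add_zero, h1, hg.zero]
      unfold lv
      rw [map_zero, map_zero, add_zero]
  · -- `upp`
    obtain ⟨N, hN⟩ := Pool.Agent.W_1b8d5d_nc.g_le_mu hg hc hom hlim hη
    refine ⟨N, fun z hz hpz hqz => ?_⟩
    have h1 := hN z hz
    have h2 := hn.add (c.p z • v) (c.q z • v₂)
    rw [← hdec, hom _ _ hpz, hom _ _ hqz, hv, hv₂μ] at h2
    unfold lv
    linarith
  · -- `PC`
    obtain ⟨s, hs0, hsδ, hs⟩ := hbad (min δ 1) (lt_min hδ one_pos)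
    have hsδ' : s ≤ δ := hsδ.trans (min_le_left _ _)
    have hs1 : s ≤ 1 := hsδ.trans (min_le_right _ _)
    set t : ℝ := s / lam with ht
    have ht0 : 0 < t := div_pos hs0 hlam0
    have hts : t ≤ s := div_le_self hs0.le hlam1
    have ht1 : t ≤ 1 := hts.trans hs1
    have hφ : 1 + t ^ K < μ (v + t • (v - v₂)) := by
      rw [hsub', smul_smul, ht, div_mul_cancel₀ _ hlam0.ne']
      refine lt_of_le_of_lt ?_ hs
      have := pow_le_pow_left₀ ht0.le hts K
      linarith
    have hφu : ∀ u : ℝ, t ≤ u → 1 + u * t ^ K ≤ μ (v + u • (v - v₂)) := by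
      intro u hu
      have h1 := Trans1_ray hn hv ht0 hu hφ
      have hu0 : 0 < u := ht0.trans_le hu
      have h2 : u ≤ u / t := by
        rw [le_div_iff₀ ht0]
        nlinarith
      have h3 : u * t ^ K ≤ u / t * t ^ K := mul_le_mul_of_nonneg_right h2 (by positivity)
      linarith
    refine ⟨t, ht0, hts.trans hsδ', fun z hz hqz => ?_⟩
    refine le_trans ?_ (hmu z)
    set h : ℝ := lv c z with hh
    have hd : toR z = h • v + (-c.q z) • (v - v₂) := by
      rw [hdec z, hh]
      unfold lv
      rw [smul_sub, neg_smul, neg_smul, add_smul]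
      abel
    rcases hz.lt_or_eq with h0 | h0
    · have hu : t ≤ -c.q z / h := by
        rw [le_div_iff₀ h0]
        exact hqz
      have h1 := hφu _ hu
      have e : toR z = h • (v + (-c.q z / h) • (v - v₂)) := by
        rw [hd, smul_add, smul_smul, mul_div_cancel₀ _ h0.ne']
      rw [e, hom _ _ h0.le]
      have h2 := mul_le_mul_of_nonneg_left h1 h0.le
      have e2 : h * (1 + -c.q z / h * t ^ K) = h + t ^ K * -c.q z := by
        field_simp
      rw [e2] at h2
      exact h2
    · rw [← h0, zero_smul, zero_add] at hd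
      rw [← h0, mul_zero] at hqz
      rw [hd, hom _ _ hqz, ← h0, zero_add, mul_comm]
      refine mul_le_mul_of_nonneg_left ?_ hqz
      have h1 := hφu 1 ht1
      have h2 := hn.add v ((1 : ℝ) • (v - v₂))
      rw [hv, one_smul] at h2
      rw [one_smul, one_mul] at h1
      linarith

end Pool.Agent.W_1b8d5d_fe
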